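import Mathlib

/- The Carlitz action and its elementary properties. -/

set_option autoImplicit false

namespace Pool.Agent.MP_9b2bac_nt

open Polynomial Finset

/-- The Carlitz action `C_a(x)` of `a ∈ F[t]` on an `F`-algebra `R`, where `t` acts by
`y ↦ θ * y + y ^ q` and `q` is the cardinality of `F`. -/
noncomputable def carlitz {F R : Type*} [Field F] [Fintype F] [CommRing R] [Algebra F R]
    (θ : R) (a : F[X]) (x : R) : R :=
  a.sum fun i c => c • (fun y => θ * y + y ^ Fintype.card F)^[i] x

variable {F R : Type*} [Field F] [Fintype F] [CommRing R] [Algebra F R]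

/-- The action of `t` as a linear map. -/
noncomputable def lin (F : Type*) {R : Type*} [Field F] [Fintype F] [CommRing R] [Algebra F R]
    (θ : R) : Module.End F R :=
  LinearMap.mulLeft F θ + (FiniteField.frobeniusAlgHom F R).toLinearMap

theorem lin_apply (θ y : R) : lin F θ y = θ * y + y ^ Fintype.card F := rfl

theorem lin_pow_apply (θ y : R) (i : ℕ) :
    (lin F θ ^ i) y = (fun y => θ * y + y ^ Fintype.card F)^[i] y := by
  rw [Module.End.pow_apply]; rfl

theorem carlitz_eq (θ : R) (a : F[X]) (x : R) : carlitz θ a x = aeval (lin F θ) a x := by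
  rw [carlitz, aeval_endomorphism]
  simp only [lin_pow_apply]

theorem carlitz_add (θ : R) (a b : F[X]) (x : R) :
    carlitz θ (a + b) x = carlitz θ a x + carlitz θ b x := by
  simp [carlitz_eq]

theorem carlitz_mul (θ : R) (a b : F[X]) (x : R) :
    carlitz θ (a * b) x = carlitz θ a (carlitz θ b x) := by
  simp [carlitz_eq]

theorem carlitz_C (θ : R) (c : F) (x : R) : carlitz θ (C c) x = c • x := by
  simp [carlitz_eq, Module.algebraMap_end_apply]

theorem carlitz_one (θ : R) (x : R) : carlitz θ (1 : F[X]) x = x := by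
  simp [carlitz_eq]

theorem carlitz_X_mul (θ : R) (a : F[X]) (x : R) :
    carlitz θ (X * a) x = θ * carlitz θ a x + carlitz θ a x ^ Fintype.card F := by
  rw [← lin_apply]; simp [carlitz_eq]

theorem carlitz_zero_right (θ : R) (a : F[X]) : carlitz θ a 0 = 0 := by
  simp [carlitz_eq]

omit [Fintype F] in
theorem poly_ind {P : F[X] → Prop} (hC : ∀ c, P (C c))
    (hs : ∀ a c, P a → P (X * a + C c)) (a : F[X]) : P a := by
  induction h : a.natDegree using Nat.strong_induction_on generalizing a with
  | _ n IH =>
    rcases Nat.eq_zero_or_pos n with rfl | hn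
    · rw [eq_C_of_natDegree_eq_zero h]; exact hC _
    · rw [← X_mul_divX_add a]
      refine hs _ _ (IH _ ?_ _ rfl)
      rw [natDegree_divX_eq_natDegree_tsub_one]; omega

theorem map_carlitz {S : Type*} [CommRing S] [Algebra F S] (φ : R →ₐ[F] S) (θ : R) (a : F[X])
    (x : R) : φ (carlitz θ a x) = carlitz (φ θ) a (φ x) := by
  induction a using poly_ind with
  | hC c => simp [carlitz_C]
  | hs a c IH => simp [carlitz_add, carlitz_X_mul, carlitz_C, IH]

theorem exists_quot (θ : R) (a : F[X]) (x : R) :
    ∃ M : R, carlitz θ a x = x * M ∧ x ∣ M - aeval θ a := by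
  obtain ⟨m, hm⟩ : ∃ m, Fintype.card F = m + 2 :=
    ⟨Fintype.card F - 2, by have := Fintype.one_lt_card (α := F); omega⟩
  induction a using poly_ind with
  | hC c => exact ⟨algebraMap F R c, by rw [carlitz_C, Algebra.smul_def, mul_comm], by simp⟩
  | hs a c IH =>
    obtain ⟨M, h1, k, h2⟩ := IH
    refine ⟨θ * M + x ^ (m + 1) * M ^ (m + 2) + algebraMap F R c, ?_,
      θ * k + x ^ m * M ^ (m + 2), ?_⟩
    · rw [carlitz_add, carlitz_X_mul, carlitz_C, h1, hm, Algebra.smul_def]; ring
    · simp only [map_add, map_mul, aeval_X, aeval_C]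
      linear_combination θ * h2

theorem derivative_carlitz {θ : F[X]} (hθ : derivative θ = 0) (a x : F[X]) :
    derivative (carlitz θ a x) = aeval θ a * derivative x := by
  have hq : ((Fintype.card F : ℕ) : F) = 0 := FiniteField.cast_card_eq_zero F
  induction a using poly_ind with
  | hC c => simp [carlitz_C, Algebra.smul_def]
  | hs a c IH =>
    rw [carlitz_add, carlitz_X_mul, carlitz_C]
    simp only [derivative_mul, derivative_pow, hθ, IH, hq,
      map_add, map_mul, aeval_X, aeval_C, map_zero, Algebra.smul_def]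
    simp
    ring

theorem iter_degree {θ x : F[X]}
    (h : θ.natDegree + x.natDegree < Fintype.card F * x.natDegree) (i : ℕ) :
    ((lin F θ ^ i) x).natDegree = Fintype.card F ^ i * x.natDegree ∧
      ((lin F θ ^ i) x).leadingCoeff = x.leadingCoeff := by
  have hq := Fintype.one_lt_card (α := F)
  induction i with
  | zero => simp
  | succ i IH =>
    obtain ⟨h1, h2⟩ := IH
    rw [pow_succ', Module.End.mul_apply, lin_apply]
    set y := (lin F θ ^ i) x
    have hpos : 1 ≤ Fintype.card F ^ i := Nat.one_le_pow _ _ (by omega)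
    have hlt : (θ * y).natDegree < (y ^ Fintype.card F).natDegree := by
      refine natDegree_mul_le.trans_lt ?_
      rw [natDegree_pow, h1]
      obtain ⟨r, hr⟩ := Nat.exists_eq_add_of_le hpos
      rw [hr]
      have : r * x.natDegree ≤ Fintype.card F * (r * x.natDegree) :=
        Nat.le_mul_of_pos_left _ (by omega)
      nlinarith
    refine ⟨?_, ?_⟩
    · rw [natDegree_add_eq_right_of_natDegree_lt hlt, natDegree_pow, h1]; ring
    · rw [leadingCoeff_add_of_degree_lt (degree_lt_degree hlt), leadingCoeff_pow, h2,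
        FiniteField.pow_card]

theorem carlitz_degree {θ x : F[X]} (hx : x ≠ 0)
    (h : θ.natDegree + x.natDegree < Fintype.card F * x.natDegree) {a : F[X]} (ha : a.Monic) :
    (carlitz θ a x).natDegree = Fintype.card F ^ a.natDegree * x.natDegree ∧
      (carlitz θ a x).leadingCoeff = x.leadingCoeff := by
  have hq := Fintype.one_lt_card (α := F)
  have hx0 : 0 < x.natDegree := by
    rcases Nat.eq_zero_or_pos x.natDegree with h0 | h0
    · rw [h0] at h; omega
    · exact h0
  have e : carlitz θ a x = (∑ i ∈ range a.natDegree, a.coeff i • (lin F θ ^ i) x) +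
      (lin F θ ^ a.natDegree) x := by
    rw [carlitz_eq, aeval_eq_sum_range, Finset.sum_range_succ, ha.coeff_natDegree]
    simp
  obtain ⟨h1, h2⟩ := iter_degree h a.natDegree
  have hlt : (∑ i ∈ range a.natDegree, a.coeff i • (lin F θ ^ i) x).degree <
      ((lin F θ ^ a.natDegree) x).degree := by
    have hne : (lin F θ ^ a.natDegree) x ≠ 0 := by
      rw [← leadingCoeff_ne_zero, h2]; exact leadingCoeff_ne_zero.2 hx
    refine (degree_sum_le _ _).trans_lt ?_
    rw [Finset.sup_lt_iff (bot_lt_iff_ne_bot.2 (degree_ne_bot.2 hne))]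
    intro i hi
    refine (degree_smul_le _ _).trans_lt (degree_lt_degree ?_)
    rw [h1, (iter_degree h i).1]
    exact Nat.mul_lt_mul_of_pos_right (Nat.pow_lt_pow_right hq (mem_range.1 hi)) hx0
  rw [e]
  exact ⟨by rw [natDegree_add_eq_right_of_degree_lt hlt, h1],
    by rw [leadingCoeff_add_of_degree_lt hlt, h2]⟩

section Root

variable {K : Type*} [Field K] [Algebra F K]

theorem pow_card_pow_eq {P : F[X]} (hi : Irreducible P) {z : K} (hz : aeval z P = 0) (m : ℕ) :
    z ^ Fintype.card F ^ m = z ↔ P.natDegree ∣ m := by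
  rw [hi.natDegree_dvd_iff_dvd_X_pow_card_pow_sub_X, Nat.card_eq_fintype_card]
  have hint : IsIntegral F z := (IsAlgebraic.isIntegral ⟨P, hi.ne_zero, hz⟩)
  have hass : Associated P (minpoly F z) :=
    ((minpoly.irreducible hint).associated_of_dvd hi (minpoly.dvd F z hz)).symm
  rw [hass.dvd_iff_dvd_left, minpoly.dvd_iff]
  simp [sub_eq_zero]

theorem map_eq_prod {P : F[X]} (hP : P.Monic) (hi : Irreducible P) {z : K} (hz : aeval z P = 0) :
    P.map (algebraMap F K) = ∏ i ∈ range P.natDegree, (X - C (z ^ Fintype.card F ^ i)) := by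
  classical
  obtain ⟨p, hp⟩ := CharP.exists F
  have hpp : p.Prime := CharP.char_is_prime F p
  have hinj : ∀ i j, i < j → j < P.natDegree →
      z ^ Fintype.card F ^ i ≠ z ^ Fintype.card F ^ j := by
    intro i j hij hj he
    obtain ⟨m, rfl⟩ := Nat.exists_eq_add_of_lt hij
    have h1 : (FiniteField.frobeniusAlgHom F K ^ i) z =
        (FiniteField.frobeniusAlgHom F K ^ i) (z ^ Fintype.card F ^ (m + 1)) := by
      simp only [AlgHom.coe_pow, FiniteField.coe_frobeniusAlgHom, pow_iterate]
      rw [he, ← pow_mul, ← pow_add]; congr 2; ring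
    have h2 := (FiniteField.frobeniusAlgHom F K ^ i).injective h1
    have := Nat.le_of_dvd (Nat.succ_pos m) ((pow_card_pow_eq hi hz (m + 1)).1 h2.symm)
    omega
  have hm : (∏ i ∈ range P.natDegree, (X - C (z ^ Fintype.card F ^ i))).Monic :=
    monic_prod_of_monic _ _ fun i _ => monic_X_sub_C _
  symm
  refine eq_of_monic_of_dvd_of_natDegree_le hm (hP.map _) ?_ ?_ |>.symm
  · refine Finset.prod_dvd_of_coprime ?_ ?_
    · intro i hi' j hj' hij
      refine isCoprime_X_sub_C_of_isUnit_sub (IsUnit.mk0 _ (sub_ne_zero.2 ?_))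
      rcases lt_or_gt_of_ne hij with h | h
      · exact hinj i j h (mem_range.1 hj')
      · exact (hinj j i h (mem_range.1 hi')).symm
    · intro i _
      rw [dvd_iff_isRoot, IsRoot, eval_map_algebraMap]
      have := aeval_algHom_apply (FiniteField.frobeniusAlgHom F K ^ i) z P
      simp only [AlgHom.coe_pow, FiniteField.coe_frobeniusAlgHom, pow_iterate] at this
      rw [this, hz, zero_pow]
      exact pow_ne_zero _ Fintype.card_ne_zero
  · rw [natDegree_map, natDegree_prod_of_monic _ _ fun i _ => monic_X_sub_C _]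
    simp only [natDegree_X_sub_C]
    simp

/-- At a root of a monic irreducible `P` the action of `P` is the Frobenius. -/
theorem carlitz_root {P : F[X]} (hP : P.Monic) (hi : Irreducible P) {z : K} (hz : aeval z P = 0)
    (y : K) : carlitz z P y = y ^ Fintype.card F ^ P.natDegree := by
  let ev : K[X] →ₗ[K] K := lsum fun k => LinearMap.smulRight LinearMap.id ((lin F z ^ k) y)
  have ev_mon : ∀ k c, ev (monomial k c) = c * (lin F z ^ k) y := by
    intro k c
    simp [ev, lsum_apply, sum_monomial_index]
  have h1 : ∀ i k, ev (X ^ k * ∏ j ∈ range i, (X - C (z ^ Fintype.card F ^ j))) =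
      (lin F z ^ k) y ^ Fintype.card F ^ i := by
    intro i
    induction i with
    | zero => intro k; simp [X_pow_eq_monomial, ev_mon]
    | succ i IH =>
      intro k
      have e : (X : K[X]) ^ k * ∏ j ∈ range (i + 1), (X - C (z ^ Fintype.card F ^ j)) =
          X ^ (k + 1) * ∏ j ∈ range i, (X - C (z ^ Fintype.card F ^ j)) -
            (z ^ Fintype.card F ^ i) • (X ^ k * ∏ j ∈ range i, (X - C (z ^ Fintype.card F ^ j))) := by
        rw [Finset.prod_range_succ, smul_eq_C_mul]; ring
      rw [e, map_sub, map_smul, IH, IH, pow_succ' (lin F z), Module.End.mul_apply, lin_apply]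
      have := map_add (FiniteField.frobeniusAlgHom F K ^ i) (z * (lin F z ^ k) y)
        ((lin F z ^ k) y ^ Fintype.card F)
      simp only [AlgHom.coe_pow, FiniteField.coe_frobeniusAlgHom, pow_iterate] at this
      rw [this, mul_pow, ← pow_mul, ← pow_succ', smul_eq_mul]
      ring
  have h2 : ∀ a : F[X], ev (a.map (algebraMap F K)) = carlitz z a y := by
    intro a
    induction a using Polynomial.induction_on' with
    | add a b ha hb => rw [Polynomial.map_add, map_add, ha, hb, carlitz_add]
    | monomial k c =>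
      rw [map_monomial, ev_mon, carlitz_eq, aeval_monomial]
      simp [Module.algebraMap_end_apply, Algebra.smul_def]
  have := h1 P.natDegree 0
  rw [pow_zero, one_mul, ← map_eq_prod hP hi hz, h2] at this
  simpa using this

end Root

end Pool.Agent.MP_9b2bac_nt
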