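import Mathlib
import Pool.Agent.MP_4fffd4_nt.Stick

/- Products of values of a polynomial at the roots of another one, over a finite field. -/

set_option autoImplicit false

namespace Pool.Agent.MP_9b2bac_nt.Res

open Polynomial Finset
open Pool.Agent.MP_4fffd4_nt

variable {F : Type*} [Field F] (Ω : Type*) [Field Ω] [Algebra F Ω]

/-- Product of the values of `h` at the roots of `f`. -/
noncomputable def R (f h : F[X]) : Ω := ((f.aroots Ω).map fun s => aeval s h).prod

variable {Ω}

theorem R_mul_right (f h k : F[X]) : R Ω f (h * k) = R Ω f h * R Ω f k := by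
  simp only [R, map_mul, Multiset.prod_map_mul]

theorem R_mul_left {f g : F[X]} (hfg : f * g ≠ 0) (h : F[X]) :
    R Ω (f * g) h = R Ω f h * R Ω g h := by
  simp only [R, aroots_mul hfg, Multiset.map_add, Multiset.prod_add]

theorem R_congr {f h k : F[X]} (hs : ∀ s : Ω, aeval s f = 0 → aeval s h = aeval s k) :
    R Ω f h = R Ω f k := by
  unfold R
  congr 1
  exact Multiset.map_congr rfl fun s hs' => hs s (mem_aroots.1 hs').2

theorem R_congr_dvd {f h k : F[X]} (hd : f ∣ h - k) : R Ω f h = R Ω f k := by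
  refine R_congr fun s hs => ?_
  obtain ⟨c, hc⟩ := hd
  have := congrArg (aeval s) hc
  rw [map_sub, map_mul, hs, zero_mul] at this
  exact sub_eq_zero.1 this

theorem R_one (f : F[X]) : R Ω f 1 = 1 := by simp [R]

theorem R_ne_zero {f h : F[X]} (hc : IsCoprime h f) : R Ω f h ≠ 0 := by
  refine Multiset.prod_ne_zero fun h0 => ?_
  obtain ⟨s, hs, hs0⟩ := Multiset.mem_map.1 h0
  obtain ⟨a, b, hab⟩ := hc
  have := congrArg (aeval s) hab
  simp [hs0, (mem_aroots.1 hs).2] at this

theorem prod_prod_sub (A B : Multiset Ω) :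
    (A.map fun s => (B.map fun b => s - b).prod).prod =
      (-1) ^ (A.card * B.card) * (B.map fun b => (A.map fun s => b - s).prod).prod := by
  induction A using Multiset.induction_on with
  | empty => simp
  | cons a A ih =>
    have h1 : (B.map fun b => a - b).prod = (-1) ^ B.card * (B.map fun b => b - a).prod := by
      have := Multiset.prod_map_neg (B.map fun b => b - a)
      rw [Multiset.map_map, Multiset.card_map] at this
      rw [← this]
      simp
    simp only [Multiset.map_cons, Multiset.prod_cons, Multiset.card_cons, Multiset.prod_map_mul,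
      ih, h1]
    ring

variable [IsAlgClosed Ω]

theorem card_aroots (f : F[X]) : (f.aroots Ω).card = f.natDegree := by
  rw [aroots_def, ← (IsAlgClosed.splits _).natDegree_eq_card_roots, natDegree_map]

theorem aeval_eq_prod (h : F[X]) (s : Ω) :
    aeval s h = algebraMap F Ω h.leadingCoeff * ((h.aroots Ω).map fun b => s - b).prod := by
  rw [← eval_map_algebraMap, (IsAlgClosed.splits (h.map (algebraMap F Ω))).eval_eq_prod_roots,
    leadingCoeff_map, aroots_def]

theorem R_swap {f : F[X]} (hf : f.Monic) (h : F[X]) :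
    R Ω f h = (-1) ^ (f.natDegree * h.natDegree) * algebraMap F Ω h.leadingCoeff ^ f.natDegree *
      R Ω h f := by
  unfold R
  simp only [aeval_eq_prod h, aeval_eq_prod f, hf.leadingCoeff, map_one, one_mul,
    Multiset.prod_map_mul, Multiset.map_const', Multiset.prod_replicate]
  rw [prod_prod_sub, card_aroots, card_aroots]
  ring

variable [Fintype F]

omit [IsAlgClosed Ω] in
/-- The roots of an irreducible polynomial form one orbit of the Frobenius map. -/
theorem orbit {P : F[X]} (hP : P.Monic) (hi : Irreducible P) {z : Ω} (hz : aeval z P = 0) :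
    z ^ Fintype.card F ^ P.natDegree = z ∧
      Function.Injective (fun l : Fin P.natDegree => z ^ Fintype.card F ^ l.1) ∧
      P.map (algebraMap F Ω) = ∏ l : Fin P.natDegree, (X - C (z ^ Fintype.card F ^ l.1)) := by
  classical
  have : Fact (Irreducible P) := ⟨hi⟩
  let pb := AdjoinRoot.powerBasis hi.ne_zero
  have : Module.Finite F (AdjoinRoot P) := pb.finite
  have : Finite (AdjoinRoot P) := Module.finite_of_finite F
  have hfr : Module.finrank F (AdjoinRoot P) = P.natDegree := pb.finrank
  let φ : AdjoinRoot P →ₐ[F] Ω := AdjoinRoot.liftAlgHom P (Algebra.ofId F Ω) z (by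
    rw [← hz, aeval_def]; rfl)
  have hφ : φ (AdjoinRoot.root P) = z := by simp [φ]
  have hpow : ∀ (l : ℕ) (x : AdjoinRoot P),
      (FiniteField.frobeniusAlgHom F (AdjoinRoot P) ^ l) x = x ^ Fintype.card F ^ l := by
    intro l x
    rw [AlgHom.coe_pow, FiniteField.coe_frobeniusAlgHom, pow_iterate]
  have h1 : z ^ Fintype.card F ^ P.natDegree = z := by
    have := congrArg (fun g : AdjoinRoot P →ₐ[F] AdjoinRoot P => φ (g (AdjoinRoot.root P)))
      (pow_orderOf_eq_one (FiniteField.frobeniusAlgHom F (AdjoinRoot P)))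
    simpa only [FiniteField.orderOf_frobeniusAlgHom, hfr, hpow, map_pow, hφ, AlgHom.one_apply]
      using this
  have h2 : Function.Injective (fun l : Fin P.natDegree => z ^ Fintype.card F ^ l.1) := by
    intro l l' h
    have h3 : FiniteField.frobeniusAlgHom F (AdjoinRoot P) ^ l.1 =
        FiniteField.frobeniusAlgHom F (AdjoinRoot P) ^ l'.1 := by
      refine AdjoinRoot.algHom_ext ?_
      apply φ.toRingHom.injective
      simpa [hpow, hφ] using h
    have h4 := pow_injOn_Iio_orderOf (x := FiniteField.frobeniusAlgHom F (AdjoinRoot P))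
      (by simp [FiniteField.orderOf_frobeniusAlgHom, hfr])
      (by simp [FiniteField.orderOf_frobeniusAlgHom, hfr]) h3
    exact Fin.ext h4
  refine ⟨h1, h2, ?_⟩
  have hM' : (P.map (algebraMap F Ω)).Monic := hP.map _
  have hle : (univ.val.map fun l : Fin P.natDegree => z ^ Fintype.card F ^ l.1) ≤
      (P.map (algebraMap F Ω)).roots := by
    rw [Multiset.le_iff_subset (Multiset.Nodup.map h2 univ.nodup)]
    intro x hx
    obtain ⟨i, -, rfl⟩ := Multiset.mem_map.1 hx
    refine (mem_roots hM'.ne_zero).2 ?_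
    rw [IsRoot.def, eval_map_algebraMap]
    have h5 : z ^ Fintype.card F ^ i.1 = (FiniteField.frobeniusAlgHom F Ω ^ i.1) z := by
      rw [AlgHom.coe_pow, FiniteField.coe_frobeniusAlgHom, pow_iterate]
    rw [h5, aeval_algHom_apply, hz, map_zero]
  have hdvd := (Multiset.prod_X_sub_C_dvd_iff_le_roots hM'.ne_zero _).2 hle
  rw [Multiset.map_map] at hdvd
  refine eq_of_monic_of_dvd_of_natDegree_le
    (monic_prod_of_monic _ _ fun i _ => monic_X_sub_C _) hM' hdvd ?_
  rw [hP.natDegree_map, natDegree_prod_of_monic _ _ (fun i _ => monic_X_sub_C _)]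
  simp only [natDegree_X_sub_C]
  simp

omit [IsAlgClosed Ω] in
theorem aeval_pow_card (h : F[X]) (z : Ω) (l : ℕ) :
    aeval (z ^ Fintype.card F ^ l) h = aeval z h ^ Fintype.card F ^ l := by
  have h5 : ∀ y : Ω, y ^ Fintype.card F ^ l = (FiniteField.frobeniusAlgHom F Ω ^ l) y := by
    intro y
    rw [AlgHom.coe_pow, FiniteField.coe_frobeniusAlgHom, pow_iterate]
  rw [h5, h5, aeval_algHom_apply]

omit [IsAlgClosed Ω] [Fintype F] in
theorem R_eq_prod {f : F[X]} {n : ℕ} {a : Fin n → Ω}
    (ha : f.map (algebraMap F Ω) = ∏ l, (X - C (a l))) (h : F[X]) :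
    R Ω f h = ∏ l, aeval (a l) h := by
  rw [R, aroots_def, ha, Finset.prod_eq_multiset_prod,
    show (Multiset.map (fun l => X - C (a l)) univ.val) =
      (univ.val.map a).map (fun x => X - C x) by rw [Multiset.map_map]; rfl,
    roots_multiset_prod_X_sub_C, Multiset.map_map]
  rfl

omit [Fintype F] in
theorem exists_root {P : F[X]} (hi : Irreducible P) : ∃ z : Ω, aeval z P = 0 :=
  IsAlgClosed.exists_aeval_eq_zero Ω P (degree_pos_of_irreducible hi).ne'

/-- The sign attached to an irreducible polynomial of degree `n`. -/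
noncomputable def eps (Ω : Type*) [Field Ω] (e n : ℕ) : Ω :=
  (sgn n : Ω) ^ e * ((Equiv.Perm.sign (finRotate n) : ℤ) : Ω)

omit [IsAlgClosed Ω] in
theorem eps_ne_zero (e n : ℕ) : eps Ω e n ≠ 0 := by
  refine mul_ne_zero (pow_ne_zero _ fun h => ?_) fun h => ?_
  · have := congrArg (Int.cast : ℤ → Ω) (sgn_sq n)
    simp [h] at this
  · rcases Int.units_eq_one_or (Equiv.Perm.sign (finRotate n)) with h1 | h1 <;> simp [h1] at h

/-- Pellet's formula for an irreducible polynomial. -/
theorem pellet {e : ℕ} (he : Fintype.card F = 2 * e + 1) {M : F[X]} (hM : M.Monic)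
    (hi : Irreducible M) : R Ω M (derivative M) ^ e = eps Ω e M.natDegree := by
  obtain ⟨z, hz⟩ := exists_root (Ω := Ω) hi
  obtain ⟨h1, h2, h3⟩ := orbit hM hi hz
  have hpos := hi.natDegree_pos
  generalize M.natDegree = n at h1 h2 h3 hpos
  set a : Fin n → Ω := fun l => z ^ Fintype.card F ^ l.1 with ha
  have h4 : R Ω M (derivative M) = (sgn n : Ω) * (Matrix.vandermonde a).det ^ 2 := by
    rw [R_eq_prod h3, ← prod_deriv_eq, ← h3]
    refine Finset.prod_congr rfl fun l _ => ?_
    rw [derivative_map, eval_map_algebraMap]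
  have hδ : (Matrix.vandermonde a).det ≠ 0 := Matrix.det_vandermonde_ne_zero_iff.2 h2
  have hσ : ∀ i, a (finRotate n i) = a i ^ Fintype.card F := by
    intro i
    obtain ⟨k, rfl⟩ : ∃ k, n = k + 1 := ⟨n - 1, by omega⟩
    simp only [ha, ← pow_mul, ← pow_succ, finRotate_apply]
    by_cases hi : i = Fin.last k
    · subst hi
      simp [h1]
    · rw [Fin.val_add_one, if_neg hi]
  have h5 : (Matrix.vandermonde a).det ^ Fintype.card F =
      ((Equiv.Perm.sign (finRotate n) : ℤ) : Ω) * (Matrix.vandermonde a).det := by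
    rw [← Matrix.det_permute]
    have := RingHom.map_det (FiniteField.frobeniusAlgHom F Ω).toRingHom (Matrix.vandermonde a)
    refine Eq.trans this ?_
    congr 1
    ext i j
    rw [Matrix.submatrix_apply, Matrix.vandermonde_apply, hσ]
    simp [Matrix.vandermonde_apply, ← pow_mul, mul_comm]
  rw [he, pow_succ] at h5
  rw [h4, mul_pow, ← pow_mul, mul_right_cancel₀ hδ h5, eps]

/-- There is a quadratic non-residue modulo an irreducible polynomial. -/
theorem exists_nonres {e : ℕ} (he : Fintype.card F = 2 * e + 1) {P : F[X]} (hP : P.Monic)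
    (hi : Irreducible P) : ∃ η : F[X], IsCoprime η P ∧ R Ω P η ^ e = -1 := by
  classical
  obtain ⟨z, hz⟩ := exists_root (Ω := Ω) hi
  obtain ⟨-, -, h3⟩ := orbit hP hi hz
  have : Fact (Irreducible P) := ⟨hi⟩
  let pb := AdjoinRoot.powerBasis hi.ne_zero
  have : Module.Finite F (AdjoinRoot P) := pb.finite
  have : Finite (AdjoinRoot P) := Module.finite_of_finite F
  have : Fintype (AdjoinRoot P) := Fintype.ofFinite _
  have hfr : Module.finrank F (AdjoinRoot P) = P.natDegree := pb.finrank
  have hcard : Fintype.card (AdjoinRoot P) = Fintype.card F ^ P.natDegree := by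
    rw [Module.card_eq_pow_finrank (K := F), hfr]
  have hodd : Fintype.card (AdjoinRoot P) % 2 = 1 := by
    rw [hcard, he]
    exact Nat.odd_iff.1 (Odd.pow ⟨e, rfl⟩)
  have hch : ringChar (AdjoinRoot P) ≠ 2 := fun h => by
    have := FiniteField.even_card_of_char_two h
    omega
  obtain ⟨y, hy⟩ := FiniteField.exists_nonsquare hch
  have hy0 : y ≠ 0 := by rintro rfl; exact hy IsSquare.zero
  have hy1 : y ^ (Fintype.card (AdjoinRoot P) / 2) = -1 :=
    (FiniteField.pow_dichotomy hch hy0).resolve_left fun h =>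
      hy ((FiniteField.isSquare_iff hch hy0).2 h)
  obtain ⟨η, rfl⟩ := AdjoinRoot.mk_surjective y
  let φ : AdjoinRoot P →ₐ[F] Ω := AdjoinRoot.liftAlgHom P (Algebra.ofId F Ω) z (by
    rw [← hz, aeval_def]; rfl)
  have hφ : φ (AdjoinRoot.mk P η) = aeval z η := by
    rw [← AdjoinRoot.aeval_eq, ← aeval_algHom_apply]
    simp [φ]
  refine ⟨η, (hi.coprime_iff_not_dvd.2 fun h => hy0 (AdjoinRoot.mk_eq_zero.2 h)).symm, ?_⟩
  have h6 := congrArg φ hy1
  rw [map_pow, hφ, map_neg, map_one] at h6
  rw [R_eq_prod h3, ← h6]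
  simp only [aeval_pow_card]
  rw [Finset.prod_pow_eq_pow_sum, ← pow_mul]
  congr 1
  rw [Fin.sum_univ_eq_sum_range (fun l => Fintype.card F ^ l), hcard, he]
  have h7 := geom_sum_mul_add (2 * e) P.natDegree
  have h8 : (∑ i ∈ range P.natDegree, (2 * e + 1) ^ i) * (2 * e) =
      2 * ((∑ i ∈ range P.natDegree, (2 * e + 1) ^ i) * e) := by ring
  omega

end Pool.Agent.MP_9b2bac_nt.Res
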