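import Mathlib
import Pool.Agent.MP_9b2bac_nt.Carlitz
import Pool.Agent.MP_9b2bac_nt.HalfRes

/- Twisted Carlitz operators and their reductions. -/

set_option autoImplicit false

namespace Pool.Agent.MP_9b2bac_nt.Insep

open Polynomial Finset
open Pool.Agent.MP_9b2bac_nt.Res

variable (F : Type*) [Field F] [Fintype F]

section Op

variable {A B : Type*} [CommRing A] [Algebra F A] [CommRing B] [Algebra F B]

/-- The operator `x ↦ t x + b x ^ q`. -/
noncomputable def Lop (t b : A) : Module.End F A :=
  LinearMap.mulLeft F t + LinearMap.mulLeft F b ∘ₗ (FiniteField.frobeniusAlgHom F A).toLinearMap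

variable {F}

theorem Lop_apply (t b x : A) : Lop F t b x = t * x + b * x ^ Fintype.card F := rfl

theorem map_Lop_pow (φ : A →ₐ[F] B) (t b x : A) (n : ℕ) :
    φ ((Lop F t b ^ n) x) = (Lop F (φ t) (φ b) ^ n) (φ x) := by
  induction n with
  | zero => simp
  | succ n ih =>
    rw [pow_succ', pow_succ', Module.End.mul_apply, Module.End.mul_apply, Lop_apply, Lop_apply,
      ← ih]
    simp

theorem map_aeval_Lop (φ : A →ₐ[F] B) (t b x : A) (P : F[X]) :
    φ (aeval (Lop F t b) P x) = aeval (Lop F (φ t) (φ b)) P (φ x) := by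
  rw [aeval_endomorphism, aeval_endomorphism, Polynomial.sum, Polynomial.sum, map_sum]
  exact Finset.sum_congr rfl fun n _ => by rw [map_smul, map_Lop_pow]

theorem aeval_Lop_zero (t : A) (P : F[X]) : aeval (Lop F t 0) P 1 = aeval t P := by
  have h : ∀ n : ℕ, (Lop F t 0 ^ n) 1 = t ^ n := by
    intro n
    induction n with
    | zero => simp
    | succ n ih => rw [pow_succ', Module.End.mul_apply, ih, Lop_apply, pow_succ']; simp
  rw [aeval_endomorphism, aeval_def, eval₂_eq_sum]
  exact Finset.sum_congr rfl fun n _ => by simp only [h, Algebra.smul_def]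

theorem Lop_twist (t a : A) (n : ℕ) :
    (Lop F t 1 ^ n) a = a * (Lop F t (a ^ (Fintype.card F - 1)) ^ n) 1 := by
  induction n with
  | zero => simp
  | succ n ih =>
    have hq : Fintype.card F - 1 + 1 = Fintype.card F := Nat.sub_add_cancel Fintype.card_pos
    rw [pow_succ', pow_succ', Module.End.mul_apply, Module.End.mul_apply, Lop_apply, Lop_apply, ih,
      mul_pow]
    conv_lhs => rw [← hq, pow_succ' a, hq]
    ring

theorem aeval_Lop_twist (t a : A) (P : F[X]) :
    aeval (Lop F t 1) P a = a * aeval (Lop F t (a ^ (Fintype.card F - 1))) P 1 := by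
  rw [aeval_endomorphism, aeval_endomorphism, Polynomial.sum, Polynomial.sum, Finset.mul_sum]
  exact Finset.sum_congr rfl fun n _ => by rw [Lop_twist, mul_smul_comm]

end Op

variable {F}

/-- The Mersenne element attached to `P`. -/
noncomputable def mer (T a P : F[X]) : F[X] := aeval (Lop F T (a ^ (Fintype.card F - 1))) P 1

theorem carlitz_eq_aeval (T P a : F[X]) : carlitz T P a = aeval (Lop F T 1) P a := by
  have : lin F T = Lop F T 1 := LinearMap.ext fun x => by rw [Lop_apply, lin_apply, one_mul]
  rw [carlitz_eq, this]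

theorem carlitz_eq_mul (T P a : F[X]) : carlitz T P a = a * mer T a P := by
  rw [carlitz_eq_aeval, aeval_Lop_twist, mer]

theorem carlitz_div (T P : F[X]) {a : F[X]} (ha : a ≠ 0) : carlitz T P a / a = mer T a P := by
  rw [carlitz_eq_mul, mul_div_cancel_left₀ _ ha]

theorem derivative_aeval_Lop {T : F[X]} (hT : derivative T = 0) (P a : F[X]) :
    derivative (aeval (Lop F T 1) P a) = aeval T P * derivative a := by
  have h : ∀ n : ℕ, derivative ((Lop F T 1 ^ n) a) = T ^ n * derivative a := by
    intro n
    induction n with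
    | zero => simp
    | succ n ih =>
      rw [pow_succ', Module.End.mul_apply, Lop_apply, one_mul, derivative_add, derivative_mul, hT,
        ih, derivative_pow, FiniteField.cast_card_eq_zero]
      simp only [map_zero, zero_mul, zero_add, add_zero]
      ring
  rw [aeval_endomorphism, aeval_def, eval₂_eq_sum, Polynomial.sum, Polynomial.sum, map_sum,
    Finset.sum_mul]
  exact Finset.sum_congr rfl fun n _ => by
    rw [map_smul, h, Algebra.smul_def, mul_assoc]

theorem mul_derivative_mer {T : F[X]} (hT : derivative T = 0) (P a : F[X]) :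
    a * derivative (mer T a P) = derivative a * (aeval T P - mer T a P) := by
  have h := derivative_aeval_Lop hT P a
  rw [aeval_Lop_twist, derivative_mul] at h
  unfold mer
  linear_combination h

/-- Monicity and degrees of the iterates. -/
theorem iter_monic {T a : F[X]} (hT : T.Monic) (hodd : Odd T.natDegree)
    (hq : Odd (Fintype.card F)) (ha : a ≠ 0) (n : ℕ) :
    ((Lop F T (a ^ (Fintype.card F - 1)) ^ n) 1).Monic ∧
      ((Lop F T (a ^ (Fintype.card F - 1)) ^ n) 1).natDegree <
        ((Lop F T (a ^ (Fintype.card F - 1)) ^ (n + 1)) 1).natDegree := by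
  have hb : (a ^ (Fintype.card F - 1)).Monic := by
    rw [Monic, leadingCoeff_pow]
    exact FiniteField.pow_card_sub_one_eq_one _ (leadingCoeff_ne_zero.2 ha)
  have step : ∀ w : F[X], w.Monic → (Lop F T (a ^ (Fintype.card F - 1)) w).Monic ∧
      w.natDegree < (Lop F T (a ^ (Fintype.card F - 1)) w).natDegree := by
    intro w hw
    rw [Lop_apply]
    have h1 : (T * w).Monic := hT.mul hw
    have h2 : (a ^ (Fintype.card F - 1) * w ^ Fintype.card F).Monic := hb.mul (hw.pow _)
    have d1 : (T * w).natDegree = T.natDegree + w.natDegree := hT.natDegree_mul hw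
    have d2 : (a ^ (Fintype.card F - 1) * w ^ Fintype.card F).natDegree =
        (Fintype.card F - 1) * a.natDegree + Fintype.card F * w.natDegree := by
      rw [hb.natDegree_mul (hw.pow _), natDegree_pow, natDegree_pow]
    obtain ⟨e, he⟩ := hq
    obtain ⟨t, ht⟩ := hodd
    have hne : (T * w).natDegree ≠ (a ^ (Fintype.card F - 1) * w ^ Fintype.card F).natDegree := by
      rw [d1, d2, he, ht, Nat.add_sub_cancel]
      intro h
      have : 2 * e * a.natDegree + (2 * e + 1) * w.natDegree =
        2 * (e * a.natDegree + e * w.natDegree) + w.natDegree := by ring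
      omega
    rcases lt_or_gt_of_ne hne with h | h
    · refine ⟨h2.add_of_right (degree_lt_degree h), ?_⟩
      rw [natDegree_add_eq_right_of_natDegree_lt h]
      omega
    · refine ⟨h1.add_of_left (degree_lt_degree h), ?_⟩
      rw [natDegree_add_eq_left_of_natDegree_lt h]
      omega
  have hm : ∀ n, ((Lop F T (a ^ (Fintype.card F - 1)) ^ n) 1).Monic := by
    intro n
    induction n with
    | zero => simp
    | succ n ih => rw [pow_succ', Module.End.mul_apply]; exact (step _ ih).1
  refine ⟨hm n, ?_⟩
  rw [pow_succ', Module.End.mul_apply]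
  exact (step _ (hm n)).2

theorem mer_monic {T a : F[X]} (hT : T.Monic) (hodd : Odd T.natDegree)
    (hq : Odd (Fintype.card F)) (ha : a ≠ 0) {P : F[X]} (hP : P.Monic) :
    (mer T a P).Monic ∧ (mer T a P).natDegree =
      ((Lop F T (a ^ (Fintype.card F - 1)) ^ P.natDegree) 1).natDegree := by
  set w : ℕ → F[X] := fun n => (Lop F T (a ^ (Fintype.card F - 1)) ^ n) 1 with hw
  have hm : ∀ n, (w n).Monic := fun n => (iter_monic hT hodd hq ha n).1
  have hs : StrictMono fun n => (w n).natDegree :=
    strictMono_nat_of_lt_succ fun n => (iter_monic hT hodd hq ha n).2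
  have h1 : mer T a P = w P.natDegree + ∑ n ∈ range P.natDegree, P.coeff n • w n := by
    rw [mer, aeval_endomorphism, Polynomial.sum_over_range _ (by simp), Finset.sum_range_succ,
      hP.coeff_natDegree, one_smul, add_comm]
  have h2 : (∑ n ∈ range P.natDegree, P.coeff n • w n).degree < (w P.natDegree).degree := by
    refine (degree_sum_le _ _).trans_lt ?_
    rw [Finset.sup_lt_iff (by rw [bot_lt_iff_ne_bot, Ne, degree_eq_bot]; exact (hm _).ne_zero)]
    intro n hn
    exact (degree_smul_le _ _).trans_lt (degree_lt_degree (hs (mem_range.1 hn)))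
  rw [h1]
  exact ⟨(hm _).add_of_left h2, natDegree_add_eq_left_of_degree_lt h2⟩

/-- Periodicity of the Mersenne elements modulo a fixed polynomial. -/
theorem exists_period (T a : F[X]) {W : F[X]} (hW : W ≠ 0) :
    ∃ m : F[X], m.Monic ∧ m.natDegree = W.natDegree ∧
      ∀ P P' : F[X], m ∣ P - P' → W ∣ mer T a P - mer T a P' := by
  let pb := AdjoinRoot.powerBasis hW
  have : Module.Finite F (AdjoinRoot W) := pb.finite
  let φ : F[X] →ₐ[F] AdjoinRoot W := AdjoinRoot.mkₐ W
  let L : Module.End F (AdjoinRoot W) := Lop F (φ T) (φ (a ^ (Fintype.card F - 1)))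
  refine ⟨L.charpoly, L.charpoly_monic, by rw [L.charpoly_natDegree]; exact pb.finrank, ?_⟩
  rintro P P' ⟨c, hc⟩
  rw [← AdjoinRoot.mk_eq_mk]
  change φ _ = φ _
  rw [mer, mer, map_aeval_Lop, map_aeval_Lop, eq_add_of_sub_eq hc, map_add, map_mul,
    LinearMap.aeval_self_charpoly, zero_mul, zero_add]

section Closed

variable {Ω : Type*} [Field Ω] [Algebra F Ω]

/-- The Carlitz action of a prime reduces to a power of the Frobenius map. -/
theorem aeval_Lop_root {P : F[X]} (hP : P.Monic) (hi : Irreducible P) {θ : Ω}
    (hθ : aeval θ P = 0) (x : Ω) :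
    aeval (Lop F θ 1) P x = x ^ Fintype.card F ^ P.natDegree := by
  let E : Ω → Polynomial Ω →ₗ[Ω] Ω := fun x =>
    Polynomial.lsum fun n => LinearMap.mulRight Ω ((Lop F θ 1 ^ n) x)
  have hE : ∀ x n c, E x (monomial n c) = c * (Lop F θ 1 ^ n) x := by
    intro x n c
    simp [E]
  have h1 : ∀ x g, E x (g * X) = E (Lop F θ 1 x) g := by
    intro x g
    induction g using Polynomial.induction_on' with
    | add p q hp hq => rw [add_mul, map_add, map_add, hp, hq]
    | monomial n c => rw [monomial_mul_X, hE, hE, pow_succ, Module.End.mul_apply]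
  have h2 : ∀ (i : ℕ) (x : Ω),
      E x (∏ l ∈ range i, (X - C (θ ^ Fintype.card F ^ l))) = x ^ Fintype.card F ^ i := by
    intro i
    induction i with
    | zero =>
      intro x
      have := hE x 0 1
      simpa using this
    | succ i ih =>
      intro x
      have h5 : ∀ y : Ω, y ^ Fintype.card F ^ i = (FiniteField.frobeniusAlgHom F Ω ^ i) y := by
        intro y
        rw [AlgHom.coe_pow, FiniteField.coe_frobeniusAlgHom, pow_iterate]
      rw [Finset.prod_range_succ, mul_sub, map_sub, h1, ih, mul_comm _ (C _), ← smul_eq_C_mul,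
        map_smul, ih, Lop_apply, one_mul, pow_succ', pow_mul, smul_eq_mul]
      simp only [h5, map_add, map_mul]
      ring
  have h3 : ∀ Q : F[X], E x (Q.map (algebraMap F Ω)) = aeval (Lop F θ 1) Q x := by
    intro Q
    induction Q using Polynomial.induction_on' with
    | add p q hp hq => rw [Polynomial.map_add, map_add, map_add, LinearMap.add_apply, hp, hq]
    | monomial n c =>
      rw [map_monomial, hE, aeval_monomial, Module.End.mul_apply, Module.algebraMap_end_apply,
        Algebra.smul_def]
  rw [← h3, (orbit hP hi hθ).2.2,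
    Fin.prod_univ_eq_prod_range (fun l => X - C (θ ^ Fintype.card F ^ l)), h2]

theorem aeval_mer_of_root {T a P : F[X]} {s : Ω} (hs : aeval s a = 0) :
    aeval s (mer T a P) = aeval s (aeval T P) := by
  have hq : Fintype.card F - 1 ≠ 0 := by have := Fintype.one_lt_card (α := F); omega
  rw [mer, map_aeval_Lop, map_pow, hs, zero_pow hq, map_one, aeval_Lop_zero, aeval_algHom_apply]

theorem aeval_mer_eq_one {T a P : F[X]} (hP : P.Monic) (hi : Irreducible P) {s : Ω}
    (hs : aeval s (aeval T P) = 0) (hfix : s ^ Fintype.card F ^ P.natDegree = s)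
    (ha : aeval s a ≠ 0) : aeval s (mer T a P) = 1 := by
  have h1 := congrArg (aeval s) (aeval_Lop_twist T a P)
  rw [map_aeval_Lop, map_one, aeval_Lop_root hP hi (by rwa [aeval_algHom_apply]),
    ← aeval_pow_card, hfix, map_mul] at h1
  exact (mul_left_cancel₀ ha (h1.symm.trans (mul_one _).symm))

end Closed

end Pool.Agent.MP_9b2bac_nt.Insep
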