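import Mathlib
import Pool.Agent.MP_51ecca_nt.LogDer

/- Prime number theorem in arithmetic progressions for polynomials over a finite field. -/

set_option autoImplicit false

namespace Pool.Agent.MP_9b2bac_nt.Pnt

open Polynomial Finset Filter Topology
open Pool.Agent.MP_51ecca_nt

variable {F : Type*} [Field F] [Fintype F]

theorem finite_mon (n : ℕ) : {g : F[X] | g.Monic ∧ g.natDegree = n}.Finite := by
  have h : Finite (degreeLT F (n + 1)) :=
    Finite.of_equiv _ (degreeLTEquiv F (n + 1)).toEquiv.symm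
  refine (Set.toFinite (degreeLT F (n + 1) : Set F[X])).subset ?_
  rintro g ⟨hg, rfl⟩
  rw [SetLike.mem_coe, mem_degreeLT, degree_eq_natDegree hg.ne_zero]
  exact_mod_cast Nat.lt_succ_self _

variable (F) in
/-- Monic polynomials of degree `n`. -/
noncomputable def mon (n : ℕ) : Finset F[X] := (finite_mon (F := F) n).toFinset

theorem mem_mon {n : ℕ} {g : F[X]} : g ∈ mon F n ↔ g.Monic ∧ g.natDegree = n := by
  simp [mon]

theorem card_mon (n : ℕ) : (mon F n).card = Fintype.card F ^ n := by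
  classical
  have h : Fintype (degreeLT F n) :=
    Fintype.ofEquiv _ (degreeLTEquiv F n).toEquiv.symm
  have h1 : Fintype.card (degreeLT F n) = Fintype.card F ^ n := by
    rw [Fintype.card_congr (degreeLTEquiv F n).toEquiv]; simp
  rw [← h1, ← Finset.card_univ]
  symm
  refine Finset.card_bij (fun y _ => X ^ n + y.1) ?_ ?_ ?_
  · intro y _
    have hd := mem_degreeLT.1 y.2
    exact mem_mon.2 ⟨monic_X_pow_add hd, by
      rw [natDegree_add_eq_left_of_degree_lt (by rwa [degree_X_pow]), natDegree_X_pow]⟩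
  · intro y _ z _ h
    exact Subtype.ext (add_left_cancel h)
  · intro g hg
    obtain ⟨h1, h2⟩ := mem_mon.1 hg
    refine ⟨⟨g - X ^ n, mem_degreeLT.2 ?_⟩, mem_univ _, by simp⟩
    have h3 : g.degree = n := by rw [degree_eq_natDegree h1.ne_zero, h2]
    rw [← h3]
    exact degree_sub_lt_left (by rw [h3, degree_X_pow]) h1.ne_zero (by simp [h1])

open Classical in
variable (F) in
/-- Monic irreducible polynomials of degree `n`. -/
noncomputable def irr (n : ℕ) : Finset F[X] := (mon F n).filter Irreducible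

theorem mem_irr {n : ℕ} {g : F[X]} :
    g ∈ irr F n ↔ g.Monic ∧ Irreducible g ∧ g.natDegree = n := by
  simp only [irr, mem_filter, mem_mon]; tauto

open Classical in
/-- The degree as a sum over prime power divisors. -/
theorem deg_eq_sum {N : ℕ} {g : F[X]} (hg : g.Monic) (hN : g.natDegree ≤ N) :
    (g.natDegree : ℂ) = ∑ e ∈ Icc 1 N, ∑ P ∈ irr F e, ∑ k ∈ Icc 1 N,
      if P ^ k ∣ g then (e : ℂ) else 0 := by
  have h0 : g ≠ 0 := hg.ne_zero
  set s := UniqueFactorizationMonoid.normalizedFactors g with hs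
  have hmem : ∀ P, P ∈ s ↔ Irreducible P ∧ P.Monic ∧ P ∣ g := fun P =>
    Polynomial.mem_normalizedFactors_iff h0
  have hprod : s.prod = g := by
    have h1 := UniqueFactorizationMonoid.prod_normalizedFactors h0
    refine eq_of_monic_of_associated ?_ hg h1
    have := monic_multiset_prod_of_monic s id (fun P hP => ((hmem P).1 hP).2.1)
    simpa using this
  have hdeg : g.natDegree = (s.map natDegree).sum := by
    rw [← hprod]
    exact natDegree_multiset_prod_of_monic s (fun P hP => ((hmem P).1 hP).2.1)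
  have hcount : ∀ P : F[X], P.Monic → Irreducible P →
      ((Icc 1 N).filter fun k => P ^ k ∣ g).card = s.count P := by
    intro P hP hi
    have hiff : ∀ k, P ^ k ∣ g ↔ k ≤ s.count P := by
      intro k
      have hn : normalize P = P := hP.normalize_eq_self
      rw [pow_dvd_iff_le_emultiplicity,
        UniqueFactorizationMonoid.emultiplicity_eq_count_normalizedFactors hi h0, hn]
      exact_mod_cast Iff.rfl
    have hle : s.count P ≤ N := by
      have h1 : P ^ s.count P ∣ g := (hiff _).2 le_rfl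
      have h2 := natDegree_le_of_dvd h1 h0
      rw [hP.natDegree_pow] at h2
      have h3 := hi.natDegree_pos
      nlinarith
    have : ((Icc 1 N).filter fun k => P ^ k ∣ g) = Icc 1 (s.count P) := by
      ext k
      simp only [mem_filter, mem_Icc, hiff]
      omega
    rw [this]; simp
  have h2 : ∀ e ∈ Icc 1 N, (∑ P ∈ irr F e, ∑ k ∈ Icc 1 N, if P ^ k ∣ g then (e : ℂ) else 0) =
      ∑ P ∈ s.toFinset.filter (fun P => P.natDegree = e), (s.count P : ℂ) * P.natDegree := by
    intro e _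
    symm
    refine Finset.sum_subset_zero_on_sdiff ?_ ?_ ?_
    · intro P hP
      obtain ⟨h1, h2⟩ := mem_filter.1 hP
      have := (hmem P).1 (Multiset.mem_toFinset.1 h1)
      exact mem_irr.2 ⟨this.2.1, this.1, h2⟩
    · intro P hP
      obtain ⟨h1, h2⟩ := mem_sdiff.1 hP
      obtain ⟨hm, hi, hd⟩ := mem_irr.1 h1
      refine Finset.sum_eq_zero fun k hk => if_neg fun hdv => h2 ?_
      refine mem_filter.2 ⟨Multiset.mem_toFinset.2 ((hmem P).2 ⟨hi, hm, ?_⟩), hd⟩
      exact (dvd_pow_self P (by have := (mem_Icc.1 hk).1; omega)).trans hdv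
    · intro P hP
      obtain ⟨h1, h2⟩ := mem_filter.1 hP
      have := (hmem P).1 (Multiset.mem_toFinset.1 h1)
      rw [← Finset.sum_filter, Finset.sum_const, hcount P this.2.1 this.1, h2, nsmul_eq_mul]
  rw [Finset.sum_congr rfl h2, Finset.sum_fiberwise_of_maps_to, hdeg,
    Finset.sum_multiset_map_count]
  · push_cast
    simp
  · intro P hP
    have := (hmem P).1 (Multiset.mem_toFinset.1 hP)
    exact mem_Icc.2 ⟨this.1.natDegree_pos, (natDegree_le_of_dvd this.2.2 h0).trans hN⟩

/-- Sum of `f` over monic polynomials of degree `n`. -/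
noncomputable def aS (f : F[X] →* ℂ) (n : ℕ) : ℂ := ∑ g ∈ mon F n, f g

/-- Weighted sum of `f` over prime powers of degree `d`. -/
noncomputable def cS (f : F[X] →* ℂ) (d : ℕ) : ℂ :=
  ∑ e ∈ d.divisors, ∑ P ∈ irr F e, (e : ℂ) * f P ^ (d / e)

open Classical in
theorem sum_mon_dvd (f : F[X] →* ℂ) {n : ℕ} {h : F[X]} (hh : h.Monic) :
    (∑ g ∈ mon F n, if h ∣ g then f g else 0) =
      if h.natDegree ≤ n then f h * aS f (n - h.natDegree) else 0 := by
  split_ifs with hn
  · rw [← Finset.sum_filter, aS, Finset.mul_sum]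
    symm
    refine Finset.sum_bij (fun y _ => h * y) ?_ ?_ ?_ ?_
    · intro y hy
      obtain ⟨h1, h2⟩ := mem_mon.1 hy
      refine mem_filter.2 ⟨mem_mon.2 ⟨hh.mul h1, ?_⟩, dvd_mul_right _ _⟩
      rw [hh.natDegree_mul h1, h2]; omega
    · intro y _ z _ hyz
      exact mul_left_cancel₀ hh.ne_zero hyz
    · intro g hg
      obtain ⟨h1, y, rfl⟩ := mem_filter.1 hg
      obtain ⟨h2, h3⟩ := mem_mon.1 h1
      have hy : y.Monic := hh.of_mul_monic_left h2
      refine ⟨y, mem_mon.2 ⟨hy, ?_⟩, rfl⟩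
      rw [hh.natDegree_mul hy] at h3; omega
    · intro y _
      rw [map_mul]
  · refine Finset.sum_eq_zero fun g hg => if_neg fun hd => hn ?_
    obtain ⟨h1, h2⟩ := mem_mon.1 hg
    exact h2 ▸ natDegree_le_of_dvd hd h1.ne_zero

open Classical in
theorem newton (f : F[X] →* ℂ) (n : ℕ) :
    (n : ℂ) * aS f n = ∑ d ∈ Icc 1 n, cS f d * aS f (n - d) := by
  have h1 : (n : ℂ) * aS f n = ∑ e ∈ Icc 1 n, ∑ P ∈ irr F e, ∑ k ∈ Icc 1 n,
      if k * e ≤ n then (e : ℂ) * f P ^ k * aS f (n - k * e) else 0 := by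
    rw [aS, Finset.mul_sum]
    have : ∀ g ∈ mon F n, (n : ℂ) * f g = ∑ e ∈ Icc 1 n, ∑ P ∈ irr F e, ∑ k ∈ Icc 1 n,
        (e : ℂ) * if P ^ k ∣ g then f g else 0 := by
      intro g hg
      obtain ⟨h1, h2⟩ := mem_mon.1 hg
      conv_lhs => rw [← h2, deg_eq_sum h1 h2.le]
      simp only [Finset.sum_mul]
      refine Finset.sum_congr rfl fun e _ => Finset.sum_congr rfl fun P _ =>
        Finset.sum_congr rfl fun k _ => ?_
      split_ifs <;> simp
    rw [Finset.sum_congr rfl this, Finset.sum_comm]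
    refine Finset.sum_congr rfl fun e _ => ?_
    rw [Finset.sum_comm]
    refine Finset.sum_congr rfl fun P hP => ?_
    rw [Finset.sum_comm]
    refine Finset.sum_congr rfl fun k _ => ?_
    obtain ⟨hm, -, hd⟩ := mem_irr.1 hP
    rw [← Finset.mul_sum, sum_mon_dvd f (hm.pow k), hm.natDegree_pow, hd, map_pow]
    split_ifs <;> ring
  rw [h1]
  simp only [cS, Finset.sum_mul]
  have h2 : ∀ e ∈ Icc 1 n, (∑ P ∈ irr F e, ∑ k ∈ Icc 1 n,
      if k * e ≤ n then (e : ℂ) * f P ^ k * aS f (n - k * e) else 0) =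
      ∑ d ∈ Icc 1 n, if e ∣ d then ∑ P ∈ irr F e, (e : ℂ) * f P ^ (d / e) * aS f (n - d)
        else 0 := by
    intro e he
    have he1 : 0 < e := (mem_Icc.1 he).1
    rw [Finset.sum_comm, ← Finset.sum_filter]
    have : ∀ k ∈ Icc 1 n, (∑ P ∈ irr F e,
        if k * e ≤ n then (e : ℂ) * f P ^ k * aS f (n - k * e) else 0) =
        if k * e ≤ n then ∑ P ∈ irr F e, (e : ℂ) * f P ^ k * aS f (n - k * e) else 0 := by
      intro k _
      split_ifs <;> simp
    rw [Finset.sum_congr rfl this, ← Finset.sum_filter]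
    refine Finset.sum_bij (fun k _ => k * e) ?_ ?_ ?_ ?_
    · intro k hk
      obtain ⟨h1, h2⟩ := mem_filter.1 hk
      have := (mem_Icc.1 h1).1
      exact mem_filter.2 ⟨mem_Icc.2 ⟨Nat.mul_pos this he1, h2⟩, dvd_mul_left _ _⟩
    · intro k _ l _ h
      exact Nat.eq_of_mul_eq_mul_right he1 h
    · intro d hd
      obtain ⟨h1, k, rfl⟩ := mem_filter.1 hd
      obtain ⟨h2, h3⟩ := mem_Icc.1 h1
      have hk : 0 < k := Nat.pos_of_ne_zero (by rintro rfl; simp at h2)
      refine ⟨k, mem_filter.2 ⟨mem_Icc.2 ⟨hk, ?_⟩, by rwa [mul_comm]⟩, mul_comm _ _⟩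
      nlinarith
    · intro k _
      rw [Nat.mul_div_cancel _ he1]
  rw [Finset.sum_congr rfl h2, Finset.sum_comm]
  refine Finset.sum_congr rfl fun d hd => ?_
  obtain ⟨h3, h4⟩ := mem_Icc.1 hd
  rw [← Finset.sum_filter]
  refine Finset.sum_congr ?_ fun _ _ => rfl
  ext e
  simp only [mem_filter, mem_Icc, Nat.mem_divisors]
  constructor
  · rintro ⟨-, h⟩; exact ⟨h, by omega⟩
  · rintro ⟨h, -⟩
    exact ⟨⟨Nat.pos_of_dvd_of_pos h h3, (Nat.le_of_dvd h3 h).trans h4⟩, h⟩

theorem aS_zero (f : F[X] →* ℂ) : aS f 0 = 1 := by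
  have : mon F 0 = {1} := by
    ext g
    rw [mem_mon, mem_singleton]
    exact ⟨fun h => h.1.natDegree_eq_zero.1 h.2, by rintro rfl; simp⟩
  simp [aS, this]

theorem ld_of_newton {a c : ℕ → ℂ} (hc : c 0 = 0)
    (h : ∀ n : ℕ, (n : ℂ) * a n = ∑ d ∈ Icc 1 n, c d * a (n - d)) :
    LD (PowerSeries.mk a) (PowerSeries.mk c) := by
  ext n
  rw [coeff_X_mul_deriv, mul_comm (PowerSeries.mk a), PowerSeries.coeff_mul,
    PowerSeries.coeff_mk, h, Finset.Nat.sum_antidiagonal_eq_sum_range_succ
      (fun i j => PowerSeries.coeff i (PowerSeries.mk c) * PowerSeries.coeff j (PowerSeries.mk a))]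
  simp only [PowerSeries.coeff_mk]
  rw [Finset.range_eq_Ico, Finset.sum_eq_sum_Ico_succ_bot (Nat.succ_pos n), hc, zero_mul, zero_add]
  rfl

theorem ld_aS (f : F[X] →* ℂ) : LD (PowerSeries.mk (aS f)) (PowerSeries.mk (cS f)) :=
  ld_of_newton (by simp [cS]) (newton f)

theorem cS_one {d : ℕ} (hd : d ≠ 0) : cS (1 : F[X] →* ℂ) d = (Fintype.card F : ℂ) ^ d := by
  have h1 := ld_aS (1 : F[X] →* ℂ)
  have ha : ∀ n, aS (1 : F[X] →* ℂ) n = (Fintype.card F : ℂ) ^ n := by
    intro n; simp [aS, card_mon]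
  have h2 : LD (PowerSeries.mk (aS (1 : F[X] →* ℂ)))
      (PowerSeries.mk fun d => if d = 0 then 0 else (Fintype.card F : ℂ) ^ d) := by
    refine ld_of_newton (by simp) fun n => ?_
    rw [ha, Finset.sum_congr rfl (g := fun _ => (Fintype.card F : ℂ) ^ n)]
    · simp
    · intro d hd
      obtain ⟨h1, h2⟩ := mem_Icc.1 hd
      rw [if_neg (by omega), ha, ← pow_add]
      congr 1; omega
  have h3 : PowerSeries.mk (aS (1 : F[X] →* ℂ)) ≠ 0 := by
    intro h
    have := congrArg (PowerSeries.coeff 0) h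
    simp [aS_zero] at this
  have := congrArg (PowerSeries.coeff d) (LD.unique_right h3 h1 h2)
  simpa [hd] using this

theorem coeff_prod_eq_zero (W : Multiset ℂ) {n : ℕ} (hn : W.card < n) :
    PowerSeries.coeff n (W.map fun z => (1 - PowerSeries.C z * PowerSeries.X ^ 1 :
      PowerSeries ℂ)).prod = 0 := by
  induction W using Multiset.induction_on generalizing n with
  | empty =>
    simp only [Multiset.map_zero, Multiset.prod_zero, PowerSeries.coeff_one]
    rw [if_neg (by simpa using hn.ne')]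
  | cons a s ih =>
    rw [Multiset.card_cons] at hn
    obtain ⟨n, rfl⟩ : ∃ k, n = k + 1 := ⟨n - 1, by omega⟩
    rw [Multiset.map_cons, Multiset.prod_cons, sub_mul, one_mul, map_sub, ih (by omega), mul_assoc,
      PowerSeries.coeff_C_mul, PowerSeries.coeff_X_pow_mul', if_pos (by omega), ih (by omega)]
    simp

/-- Negated power sums that are all nonnegative vanish from some point on. -/
theorem psum_eq_zero (W : Multiset ℂ) (c : ℕ → ℝ) (hc : ∀ d, 0 ≤ c d)
    (h : ∀ d, d ≠ 0 → -(W.map fun z => z ^ d).sum = (c d : ℂ)) {n : ℕ} (hn : W.card < n) :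
    c n = 0 := by
  set H : PowerSeries ℂ :=
    (W.map fun z => (1 - PowerSeries.C z * PowerSeries.X ^ 1 : PowerSeries ℂ)).prod with hH
  have h1 : LD H (W.map fun z => -geom z 1).sum :=
    LD.multiset_prod _ _ _ fun z _ => LD.factor _ one_pos
  have h2 : ∀ d, PowerSeries.coeff d (W.map fun z => -geom z 1).sum =
      if d = 0 then 0 else (c d : ℂ) := by
    intro d
    rw [map_multiset_sum, Multiset.map_map]
    split_ifs with hd
    · subst hd
      refine Multiset.sum_eq_zero fun x hx => ?_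
      obtain ⟨z, -, rfl⟩ := Multiset.mem_map.1 hx
      rw [Function.comp_apply, map_neg, coeff_geom_of_lt z one_pos, neg_zero]
    · rw [← h d hd, ← Multiset.sum_map_neg]
      congr 1
      refine Multiset.map_congr rfl fun z _ => ?_
      simp [coeff_geom, hd]
  have h0 : PowerSeries.coeff 0 H = 1 := by
    rw [PowerSeries.coeff_zero_eq_constantCoeff_apply, hH, map_multiset_prod, Multiset.map_map]
    refine Multiset.prod_eq_one fun x hx => ?_
    obtain ⟨z, -, rfl⟩ := Multiset.mem_map.1 hx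
    simp
  have h3 : ∀ n : ℕ, (n : ℂ) * PowerSeries.coeff n H =
      ∑ i ∈ range n, PowerSeries.coeff i H * (c (n - i) : ℂ) := by
    intro n
    have := congrArg (PowerSeries.coeff n) h1
    rw [coeff_X_mul_deriv, PowerSeries.coeff_mul,
      Finset.Nat.sum_antidiagonal_eq_sum_range_succ
        (fun i j => PowerSeries.coeff i H * PowerSeries.coeff j (W.map fun z => -geom z 1).sum),
      Finset.sum_range_succ] at this
    rw [this, Nat.sub_self, h2, if_pos rfl, mul_zero, add_zero]
    refine Finset.sum_congr rfl fun i hi => ?_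
    rw [h2, if_neg (by have := mem_range.1 hi; omega)]
  have h4 : ∀ n : ℕ, ∃ r : ℝ, 0 ≤ r ∧ PowerSeries.coeff n H = r := by
    intro n
    induction n using Nat.strong_induction_on with
    | _ n ih =>
      rcases Nat.eq_zero_or_pos n with rfl | hn
      · exact ⟨1, zero_le_one, by simpa using h0⟩
      · choose! r hr hr' using ih
        refine ⟨(∑ i ∈ range n, r i * c (n - i)) / n, div_nonneg (Finset.sum_nonneg fun i hi =>
          mul_nonneg (hr i (mem_range.1 hi)) (hc _)) (Nat.cast_nonneg _), ?_⟩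
        have hn' : (n : ℂ) ≠ 0 := by exact_mod_cast hn.ne'
        push_cast
        rw [eq_div_iff hn', mul_comm, h3]
        exact Finset.sum_congr rfl fun i hi => by rw [hr' i (mem_range.1 hi)]
  choose r hr hr' using h4
  have h5 := h3 n
  rw [coeff_prod_eq_zero W hn, mul_zero] at h5
  simp only [hr'] at h5
  have h6 : ∑ i ∈ range n, r i * c (n - i) = 0 := by exact_mod_cast h5.symm
  have h7 := (Finset.sum_eq_zero_iff_of_nonneg fun i _ => mul_nonneg (hr i) (hc _)).1 h6 0
    (mem_range.2 (by omega))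
  have h8 : r 0 = 1 := by exact_mod_cast (hr' 0).symm.trans h0
  simpa [h8] using h7

theorem X_mem_irr : (X : F[X]) ∈ irr F 1 := mem_irr.2 ⟨monic_X, irreducible_X, natDegree_X⟩

/-- The inverse roots of an `L`-polynomial lie inside the circle of radius `q`. -/
theorem norm_root_lt (f : F[X] →* ℂ) (hf : ∀ g, ‖f g‖ ≤ 1) (W : Multiset ℂ)
    (hW : ∀ d, d ≠ 0 → cS f d = -(W.map fun z => z ^ d).sum) {w : ℂ} (hw : w ∈ W) :
    ‖w‖ < Fintype.card F := by
  classical
  by_contra! hle
  have hq : (0 : ℝ) < Fintype.card F := by exact_mod_cast Fintype.card_pos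
  have hw0 : w ≠ 0 := by
    rintro rfl
    simp only [norm_zero] at hle
    linarith
  set z : ℂ := (‖w‖ : ℂ) / w with hz
  have hz1 : ‖z‖ = 1 := by
    rw [hz, norm_div, Complex.norm_real, norm_norm, div_self (norm_ne_zero_iff.2 hw0)]
  have hwz : w * z = ‖w‖ := by rw [hz]; field_simp
  set W' := (W.erase w).map (· * z) with hW'
  let t : ℕ → ℕ → F[X] → ℝ := fun d e P => (e : ℝ) * (2 + 2 * (f P ^ (d / e) * z ^ d).re)
  have ht : ∀ d e P, 0 ≤ t d e P := by
    intro d e P
    have h1 : ‖f P ^ (d / e) * z ^ d‖ ≤ 1 := by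
      rw [norm_mul, norm_pow, norm_pow, hz1, one_pow, mul_one]
      exact pow_le_one₀ (norm_nonneg _) (hf P)
    have h2 := (abs_le.1 ((Complex.abs_re_le_norm _).trans h1)).1
    exact mul_nonneg (Nat.cast_nonneg _) (by linarith)
  let c : ℕ → ℝ := fun d => (2 * ‖w‖ ^ d - 2 * (Fintype.card F : ℝ) ^ d) +
    ∑ e ∈ d.divisors, ∑ P ∈ irr F e, t d e P
  have hc1 : ∀ d, 0 ≤ 2 * ‖w‖ ^ d - 2 * (Fintype.card F : ℝ) ^ d := by
    intro d
    have := pow_le_pow_left₀ hq.le hle d
    linarith
  have hc : ∀ d, 0 ≤ c d := fun d => add_nonneg (hc1 d)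
    (Finset.sum_nonneg fun e _ => Finset.sum_nonneg fun P _ => ht d e P)
  have key : ∀ d, d ≠ 0 → -((W' + W'.map (starRingEnd ℂ)).map fun z => z ^ d).sum = (c d : ℂ) := by
    intro d hd
    have e1 : -(W'.map fun z => z ^ d).sum = cS f d * z ^ d + (‖w‖ : ℂ) ^ d := by
      rw [hW d hd]
      conv_rhs => rw [← Multiset.cons_erase hw]
      rw [Multiset.map_cons, Multiset.sum_cons, hW', Multiset.map_map, ← hwz, neg_mul, add_mul,
        ← Multiset.sum_map_mul_right]
      simp only [Function.comp_def, mul_pow]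
      ring
    have e2 : -((W'.map (starRingEnd ℂ)).map fun z => z ^ d).sum =
        starRingEnd ℂ (cS f d * z ^ d) + (‖w‖ : ℂ) ^ d := by
      have := congrArg (starRingEnd ℂ) e1
      rw [map_neg, map_multiset_sum, Multiset.map_map, map_add, map_pow, Complex.conj_ofReal]
        at this
      rw [← this, Multiset.map_map]
      simp only [Function.comp_def, map_pow]
    have e3 : ((∑ e ∈ d.divisors, ∑ P ∈ irr F e, t d e P : ℝ) : ℂ) =
        2 * (Fintype.card F : ℂ) ^ d + (cS f d * z ^ d + starRingEnd ℂ (cS f d * z ^ d)) := by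
      rw [Complex.add_conj, ← cS_one hd]
      simp only [cS, Finset.sum_mul, Finset.mul_sum, Complex.re_sum, t]
      push_cast
      rw [← Finset.sum_add_distrib]
      refine Finset.sum_congr rfl fun e _ => ?_
      rw [← Finset.sum_add_distrib]
      refine Finset.sum_congr rfl fun P _ => ?_
      rw [mul_assoc (e : ℂ), show ((e : ℂ) * (f P ^ (d / e) * z ^ d)).re =
        e * (f P ^ (d / e) * z ^ d).re by simp]
      push_cast
      simp only [MonoidHom.one_apply, one_pow]
      ring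
    rw [Multiset.map_add, Multiset.sum_add, neg_add, e1, e2]
    simp only [c]
    rw [Complex.ofReal_add, e3]
    push_cast
    ring
  have hzero : ∀ n, (W' + W'.map (starRingEnd ℂ)).card < n → ((f X * z) ^ n).re = -1 := by
    intro n hn
    have h1 := psum_eq_zero _ c hc key hn
    have hn0 : n ≠ 0 := by omega
    have h2 : ∑ e ∈ n.divisors, ∑ P ∈ irr F e, t n e P = 0 := by
      have h3 : 0 ≤ ∑ e ∈ n.divisors, ∑ P ∈ irr F e, t n e P :=
        Finset.sum_nonneg fun e _ => Finset.sum_nonneg fun P _ => ht n e P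
      have h4 := hc1 n
      simp only [c] at h1
      linarith
    have h3 := (Finset.sum_eq_zero_iff_of_nonneg fun e _ =>
      Finset.sum_nonneg fun P _ => ht n e P).1 h2 1 (Nat.one_mem_divisors.2 hn0)
    have h4 := (Finset.sum_eq_zero_iff_of_nonneg fun P _ => ht n 1 P).1 h3 X X_mem_irr
    simp only [t, Nat.cast_one, one_mul, Nat.div_one] at h4
    rw [mul_pow]
    linarith
  set n := (W' + W'.map (starRingEnd ℂ)).card + 1 with hn
  have h1 := hzero n (by omega)
  have h2 := hzero (n * 2) (by omega)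
  have h3 : ‖(f X * z) ^ n‖ ≤ 1 := by
    rw [norm_pow, norm_mul, hz1, mul_one]
    exact pow_le_one₀ (norm_nonneg _) (hf X)
  rw [pow_mul] at h2
  generalize (f X * z) ^ n = y at h1 h2 h3
  have h4 : ‖y‖ ^ 2 ≤ 1 := pow_le_one₀ (norm_nonneg _) h3
  rw [Complex.sq_norm, Complex.normSq_apply] at h4
  rw [sq, Complex.mul_re] at h2
  nlinarith

theorem exists_roots (f : F[X] →* ℂ) {N : ℕ} (hz : ∀ n, N ≤ n → aS f n = 0) :
    ∃ W : Multiset ℂ, ∀ d, d ≠ 0 → cS f d = -(W.map fun z => z ^ d).sum := by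
  set L : Polynomial ℂ := PowerSeries.trunc (N + 1) (PowerSeries.mk (aS f)) with hL
  have h1 : (L : PowerSeries ℂ) = PowerSeries.mk (aS f) := by
    ext n
    rw [Polynomial.coeff_coe, hL, PowerSeries.coeff_trunc, PowerSeries.coeff_mk]
    split_ifs with h
    · rfl
    · exact (hz n (by omega)).symm
  have h0 : L.coeff 0 = 1 := by
    rw [hL, PowerSeries.coeff_trunc, if_pos (by omega), PowerSeries.coeff_mk, aS_zero]
  have h2 : LD (L : PowerSeries ℂ) (PowerSeries.mk (cS f)) := h1 ▸ ld_aS f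
  refine ⟨L.roots.map fun z => z⁻¹, fun d hd => ?_⟩
  have := LD.coeff_eq_roots h0 h2 hd
  rw [PowerSeries.coeff_mk] at this
  rw [this, Multiset.map_map]
  rfl

theorem tendsto_multiset (W : Multiset ℂ) {q : ℝ} (hq : 0 < q) (hW : ∀ w ∈ W, ‖w‖ < q) :
    Tendsto (fun d : ℕ => (W.map fun z => z ^ d).sum / (q : ℂ) ^ d) atTop (𝓝 0) := by
  induction W using Multiset.induction_on with
  | empty => simp
  | cons a s ih =>
    have h1 : Tendsto (fun d : ℕ => (a / q) ^ d) atTop (𝓝 0) := by
      refine tendsto_pow_atTop_nhds_zero_of_norm_lt_one ?_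
      rw [norm_div, Complex.norm_real, Real.norm_of_nonneg hq.le, div_lt_one hq]
      exact hW a (Multiset.mem_cons_self _ _)
    have := h1.add (ih fun w hw => hW w (Multiset.mem_cons_of_mem hw))
    simp only [add_zero] at this
    refine this.congr fun d => ?_
    rw [Multiset.map_cons, Multiset.sum_cons, add_div, div_pow]

theorem mul_card_irr_le {e : ℕ} (he : e ≠ 0) :
    (e : ℝ) * (irr F e).card ≤ (Fintype.card F : ℝ) ^ e := by
  have h1 := cS_one (F := F) he
  simp only [cS, MonoidHom.one_apply, one_pow, mul_one, Finset.sum_const, nsmul_eq_mul] at h1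
  have h2 : ∑ x ∈ e.divisors, ((irr F x).card : ℝ) * x = (Fintype.card F : ℝ) ^ e := by
    exact_mod_cast h1
  rw [← h2, mul_comm]
  exact Finset.single_le_sum (f := fun x : ℕ => ((irr F x).card : ℝ) * x)
    (fun x _ => by positivity) (Nat.mem_divisors_self e he)

theorem norm_cS_sub_le (f : F[X] →* ℂ) (hf : ∀ g, ‖f g‖ ≤ 1) {d : ℕ} (hd : d ≠ 0) :
    ‖cS f d - d * ∑ P ∈ irr F d, f P‖ ≤ d * (Fintype.card F : ℝ) ^ (d / 2) := by
  have hq : (1 : ℝ) ≤ Fintype.card F := by exact_mod_cast Fintype.card_pos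
  rw [cS, ← Nat.cons_self_properDivisors hd, Finset.sum_cons, Nat.div_self (Nat.pos_of_ne_zero hd),
    Finset.mul_sum]
  simp only [pow_one, add_sub_cancel_left]
  refine (norm_sum_le _ _).trans ?_
  refine (Finset.sum_le_card_nsmul _ _ ((Fintype.card F : ℝ) ^ (d / 2)) fun e he => ?_).trans ?_
  · obtain ⟨h1, h2⟩ := Nat.mem_properDivisors.1 he
    have he0 : e ≠ 0 := by rintro rfl; exact hd (zero_dvd_iff.1 h1)
    have h3 : e ≤ d / 2 := by
      obtain ⟨k, rfl⟩ := h1
      have : 2 ≤ k := by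
        by_contra! hk
        interval_cases k <;> simp_all
      rw [Nat.le_div_iff_mul_le two_pos]
      exact Nat.mul_le_mul_left _ this
    refine (norm_sum_le _ _).trans ?_
    refine (Finset.sum_le_card_nsmul _ _ (e : ℝ) fun P _ => ?_).trans ?_
    · rw [norm_mul, norm_pow, Complex.norm_natCast]
      exact mul_le_of_le_one_right (Nat.cast_nonneg _) (pow_le_one₀ (norm_nonneg _) (hf P))
    · rw [nsmul_eq_mul, mul_comm]
      exact (mul_card_irr_le he0).trans (pow_le_pow_right₀ hq h3)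
  · rw [nsmul_eq_mul]
    refine mul_le_mul_of_nonneg_right ?_ (by positivity)
    have : d.properDivisors ⊆ range d := fun e he =>
      mem_range.2 (Nat.mem_properDivisors.1 he).2
    exact_mod_cast (Finset.card_le_card this).trans_eq (card_range d)

theorem tendsto_err {q : ℝ} (hq : 1 < q) :
    Tendsto (fun d : ℕ => d * q ^ (d / 2) / q ^ d) atTop (𝓝 0) := by
  have hq0 : 0 < q := by linarith
  have hs : 1 < √q := (Real.lt_sqrt zero_le_one).2 (by simpa using hq)
  have h1 := tendsto_self_mul_const_pow_of_lt_one (r := (√q)⁻¹) (by positivity)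
    (inv_lt_one_of_one_lt₀ hs)
  refine squeeze_zero (fun d => by positivity) (fun d => ?_) h1
  rw [mul_div_assoc]
  refine mul_le_mul_of_nonneg_left ?_ (Nat.cast_nonneg _)
  rw [inv_pow, div_le_iff₀ (by positivity), inv_mul_eq_div, le_div_iff₀ (by positivity)]
  have h2 : q = √q ^ 2 := (Real.sq_sqrt hq0.le).symm
  calc q ^ (d / 2) * √q ^ d = √q ^ (2 * (d / 2) + d) := by rw [pow_add, pow_mul, ← h2]
    _ ≤ √q ^ (2 * d) := pow_le_pow_right₀ hs.le (by omega)
    _ = q ^ d := by rw [pow_mul, ← h2]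

theorem tendsto_of_cS (f : F[X] →* ℂ) (hf : ∀ g, ‖f g‖ ≤ 1) {l : ℂ}
    (h : Tendsto (fun d : ℕ => cS f d / (Fintype.card F : ℂ) ^ d) atTop (𝓝 l)) :
    Tendsto (fun d : ℕ => (d * ∑ P ∈ irr F d, f P) / (Fintype.card F : ℂ) ^ d) atTop (𝓝 l) := by
  have hq : (1 : ℝ) < Fintype.card F := by exact_mod_cast Fintype.one_lt_card
  have h1 : Tendsto (fun d : ℕ => (cS f d - d * ∑ P ∈ irr F d, f P) / (Fintype.card F : ℂ) ^ d)
      atTop (𝓝 0) := by
    refine squeeze_zero_norm' ?_ (tendsto_err hq)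
    filter_upwards [eventually_ne_atTop 0] with d hd
    rw [norm_div, norm_pow, Complex.norm_natCast]
    exact div_le_div_of_nonneg_right (norm_cS_sub_le f hf hd) (by positivity)
  have := h.sub h1
  rw [sub_zero] at this
  refine this.congr fun d => ?_
  ring

/-- Cancellation in sums over primes. -/
theorem tendsto_sum_irr (f : F[X] →* ℂ) (hf : ∀ g, ‖f g‖ ≤ 1) {N : ℕ}
    (hz : ∀ n, N ≤ n → aS f n = 0) :
    Tendsto (fun d : ℕ => (d * ∑ P ∈ irr F d, f P) / (Fintype.card F : ℂ) ^ d) atTop (𝓝 0) := by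
  obtain ⟨W, hW⟩ := exists_roots f hz
  refine tendsto_of_cS f hf ?_
  have hq : (0 : ℝ) < Fintype.card F := by exact_mod_cast Fintype.card_pos
  have := (tendsto_multiset W hq fun w hw => norm_root_lt f hf W hW hw).neg
  rw [neg_zero] at this
  refine this.congr' ?_
  filter_upwards [eventually_ne_atTop 0] with d hd
  rw [hW d hd, neg_div, Complex.ofReal_natCast]

/-- The prime polynomial theorem. -/
theorem tendsto_card_irr :
    Tendsto (fun d : ℕ => (d * (irr F d).card : ℝ) / (Fintype.card F : ℝ) ^ d) atTop (𝓝 1) := by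
  have h1 : Tendsto (fun d : ℕ => cS (1 : F[X] →* ℂ) d / (Fintype.card F : ℂ) ^ d) atTop (𝓝 1) := by
    refine tendsto_const_nhds.congr' ?_
    filter_upwards [eventually_ne_atTop 0] with d hd
    rw [cS_one hd, div_self]
    exact pow_ne_zero _ (by exact_mod_cast Fintype.card_ne_zero)
  have h2 := tendsto_of_cS 1 (by simp) h1
  have h3 := (Complex.continuous_re.tendsto _).comp h2
  refine h3.congr fun d => ?_
  simp only [Function.comp_apply, MonoidHom.one_apply, Finset.sum_const, nsmul_eq_mul, mul_one]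
  rw [← Complex.ofReal_re ((d * (irr F d).card : ℝ) / (Fintype.card F : ℝ) ^ d)]
  congr 1
  push_cast
  rfl

section Char

variable {m : F[X]}

theorem finite_adj (hm : m ≠ 0) : Finite (AdjoinRoot m) := by
  have := (AdjoinRoot.powerBasis hm).finite
  exact Module.finite_of_finite F

omit [Fintype F] in
theorem norm_char_le [Finite (AdjoinRoot m)] (χ : MulChar (AdjoinRoot m) ℂ) (a : AdjoinRoot m) :
    ‖χ a‖ ≤ 1 := by
  by_cases ha : IsUnit a
  · obtain ⟨u, rfl⟩ := ha
    have h1 : χ u ^ Nat.card (AdjoinRoot m)ˣ = 1 := by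
      rw [← map_pow, ← Units.val_pow_eq_pow_val, pow_card_eq_one', Units.val_one, map_one]
    exact (Complex.norm_eq_one_of_pow_eq_one h1 Nat.card_pos.ne').le
  · rw [χ.map_nonunit ha, norm_zero]
    exact zero_le_one

/-- A character modulo `m` as a multiplicative function on polynomials. -/
noncomputable def chi (χ : MulChar (AdjoinRoot m) ℂ) : F[X] →* ℂ :=
  χ.toMonoidHom.comp (AdjoinRoot.mk m).toMonoidHom

omit [Fintype F] in
theorem chi_apply (χ : MulChar (AdjoinRoot m) ℂ) (g : F[X]) :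
    chi χ g = χ (AdjoinRoot.mk m g) := rfl

theorem aS_chi (hm : m ≠ 0) {χ : MulChar (AdjoinRoot m) ℂ} (hχ : χ ≠ 1) {n : ℕ}
    (hn : m.natDegree ≤ n) : aS (chi χ) n = 0 := by
  classical
  obtain ⟨u, hu⟩ := MulChar.ne_one_iff.1 hχ
  obtain ⟨v, hv⟩ := AdjoinRoot.mk_surjective (u : AdjoinRoot m)
  let r : F[X] → F[X] := fun g => ((v - 1) * g) % m
  have hr : ∀ g, (r g).degree < n := fun g =>
    (degree_mod_lt _ hm).trans_le (by rw [degree_eq_natDegree hm]; exact_mod_cast hn)
  have hmk : ∀ g, AdjoinRoot.mk m (g + r g) = u * AdjoinRoot.mk m g := by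
    intro g
    rw [← hv, ← map_mul, AdjoinRoot.mk_eq_mk]
    have := EuclideanDomain.div_add_mod ((v - 1) * g) m
    exact ⟨-((v - 1) * g / m), by simp only [r]; linear_combination this⟩
  have hmem : ∀ g ∈ mon F n, g + r g ∈ mon F n := by
    intro g hg
    obtain ⟨h1, h2⟩ := mem_mon.1 hg
    have h3 : (r g).degree < g.degree := by rw [degree_eq_natDegree h1.ne_zero, h2]; exact hr g
    exact mem_mon.2 ⟨h1.add_of_left h3, by rw [natDegree_add_eq_left_of_degree_lt h3, h2]⟩
  have hinj : Function.Injective fun g => g + r g := by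
    intro g g' h
    have h1 : AdjoinRoot.mk m g = AdjoinRoot.mk m g' := by
      have := congrArg (AdjoinRoot.mk m) h
      simp only [hmk] at this
      exact u.mul_right_inj.1 this
    have h2 : r g = r g' := by
      obtain ⟨k, hk⟩ := AdjoinRoot.mk_eq_mk.1 h1
      have h3 : (r g - r g').degree < m.degree :=
        (degree_sub_le _ _).trans_lt (max_lt (degree_mod_lt _ hm) (degree_mod_lt _ hm))
      have e1 := EuclideanDomain.div_add_mod ((v - 1) * g) m
      have e2 := EuclideanDomain.div_add_mod ((v - 1) * g') m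
      refine sub_eq_zero.1 (eq_zero_of_dvd_of_degree_lt ?_ h3)
      exact ⟨(v - 1) * k - (v - 1) * g / m + (v - 1) * g' / m, by
        simp only [r]; linear_combination e1 - e2 + (v - 1) * hk⟩
    simp only [h2] at h
    exact add_right_cancel h
  have hS : aS (chi χ) n = χ u * aS (chi χ) n := by
    rw [aS, Finset.mul_sum]
    symm
    refine Finset.sum_bij (fun g _ => g + r g) hmem (fun a _ b _ h => hinj h) ?_ ?_
    · intro b hb
      obtain ⟨a, ha, h⟩ := Finset.surj_on_of_inj_on_of_card_le (s := mon F n) (t := mon F n)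
        (fun g _ => g + r g) hmem (fun a b _ _ h => hinj h) le_rfl b hb
      exact ⟨a, ha, h.symm⟩
    · intro g _
      rw [chi_apply, chi_apply, hmk, map_mul]
  exact eq_zero_of_mul_eq_self_left hu hS.symm

theorem tendsto_chi (hm : m ≠ 0) {χ : MulChar (AdjoinRoot m) ℂ} (hχ : χ ≠ 1) :
    Tendsto (fun d : ℕ => (d * ∑ P ∈ irr F d, χ (AdjoinRoot.mk m P)) / (Fintype.card F : ℂ) ^ d)
      atTop (𝓝 0) := by
  have := finite_adj hm
  exact tendsto_sum_irr (chi χ) (fun g => norm_char_le χ _) fun n hn => aS_chi hm hχ hn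

omit [Fintype F] in
open Classical in
theorem sum_char [Finite (AdjoinRoot m)] [Fintype (MulChar (AdjoinRoot m) ℂ)]
    (a : AdjoinRoot m) : ∑ χ : MulChar (AdjoinRoot m) ℂ, χ a =
      if a = 1 then (Fintype.card (MulChar (AdjoinRoot m) ℂ) : ℂ) else 0 := by
  split_ifs with ha
  · simp [ha]
  · have : NeZero ((Monoid.exponent (AdjoinRoot m)ˣ : ℕ) : ℂ) :=
      ⟨by exact_mod_cast Monoid.exponent_ne_zero_of_finite⟩
    obtain ⟨χ, hχ⟩ := MulChar.exists_apply_ne_one_of_hasEnoughRootsOfUnity (AdjoinRoot m) ℂ ha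
    refine eq_zero_of_mul_eq_self_left hχ ?_
    simp only [Finset.mul_sum, ← MulChar.mul_apply]
    exact Fintype.sum_bijective _ (Group.mulLeft_bijective χ) _ _ fun χ' ↦ rfl

open Classical in
/-- Number of primes of degree `d` in the class `c`. -/
noncomputable def cnt (m : F[X]) (d : ℕ) (c : AdjoinRoot m) : ℕ :=
  ((irr F d).filter fun P => AdjoinRoot.mk m P = c).card

/-- Two prime residue classes contain asymptotically the same number of primes. -/
theorem tendsto_cnt_sub (hm : m ≠ 0) (c c' : (AdjoinRoot m)ˣ) :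
    Tendsto (fun d : ℕ => (d * ((cnt m d c : ℝ) - cnt m d c')) / (Fintype.card F : ℝ) ^ d)
      atTop (𝓝 0) := by
  classical
  have := finite_adj hm
  have : NeZero ((Monoid.exponent (AdjoinRoot m)ˣ : ℕ) : ℂ) :=
    ⟨by exact_mod_cast Monoid.exponent_ne_zero_of_finite⟩
  have : Fintype (MulChar (AdjoinRoot m) ℂ) := Fintype.ofFinite _
  set φ : ℂ := (Fintype.card (MulChar (AdjoinRoot m) ℂ) : ℂ) with hφ
  have hφ0 : φ ≠ 0 := by rw [hφ]; exact_mod_cast Fintype.card_ne_zero
  have h1 : ∀ (d : ℕ) (c : (AdjoinRoot m)ˣ), φ * (cnt m d c : ℂ) =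
      ∑ χ : MulChar (AdjoinRoot m) ℂ, χ (c⁻¹ : (AdjoinRoot m)ˣ) *
        ∑ P ∈ irr F d, χ (AdjoinRoot.mk m P) := by
    intro d c
    simp only [Finset.mul_sum, ← map_mul]
    rw [Finset.sum_comm]
    simp only [sum_char, Units.inv_mul_eq_one]
    rw [← Finset.sum_filter, Finset.sum_const, nsmul_eq_mul, mul_comm, cnt]
    congr 3
    exact Finset.filter_congr fun P _ => eq_comm
  have h2 : Tendsto (fun d : ℕ => ∑ χ : MulChar (AdjoinRoot m) ℂ,
      φ⁻¹ * (χ (c⁻¹ : (AdjoinRoot m)ˣ) - χ (c'⁻¹ : (AdjoinRoot m)ˣ)) *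
        ((d * ∑ P ∈ irr F d, χ (AdjoinRoot.mk m P)) / (Fintype.card F : ℂ) ^ d)) atTop
        (𝓝 (∑ _χ : MulChar (AdjoinRoot m) ℂ, 0)) := by
    refine tendsto_finsetSum _ fun χ _ => ?_
    by_cases hχ : χ = 1
    · subst hχ
      simp only [MulChar.one_apply_coe, sub_self, mul_zero, zero_mul]
      exact tendsto_const_nhds
    · simpa using (tendsto_chi hm hχ).const_mul _
  rw [Finset.sum_const_zero] at h2
  have h3 := (Complex.continuous_re.tendsto _).comp h2
  refine h3.congr fun d => ?_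
  rw [← Complex.ofReal_re ((d * ((cnt m d c : ℝ) - cnt m d c')) / (Fintype.card F : ℝ) ^ d),
    Function.comp_apply]
  congr 1
  push_cast
  have e : (cnt m d c : ℂ) - cnt m d c' = φ⁻¹ * (φ * cnt m d c - φ * cnt m d c') := by
    field_simp
  rw [e, h1, h1, ← Finset.sum_sub_distrib, Finset.mul_sum, Finset.mul_sum, Finset.sum_div]
  refine Finset.sum_congr rfl fun χ _ => ?_
  ring

omit [Fintype F] in
theorem isUnit_mk_iff {P : F[X]} : IsUnit (AdjoinRoot.mk m P) ↔ IsCoprime P m := by
  constructor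
  · intro h
    obtain ⟨y, hy⟩ := h.exists_left_inv
    obtain ⟨a, rfl⟩ := AdjoinRoot.mk_surjective y
    rw [← map_mul, ← map_one (AdjoinRoot.mk m), AdjoinRoot.mk_eq_mk] at hy
    obtain ⟨k, hk⟩ := hy
    exact ⟨a, -k, by linear_combination hk⟩
  · rintro ⟨a, b, h⟩
    refine IsUnit.of_mul_eq_one_right (AdjoinRoot.mk m a) ?_
    rw [← map_mul, ← map_one (AdjoinRoot.mk m), AdjoinRoot.mk_eq_mk]
    exact ⟨-b, by linear_combination h⟩

/-- A property that only depends on the class modulo `m` and is destroyed by multiplication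
with a fixed `η` prime to `m` holds for at most about half of the primes of a large degree. -/
theorem half_bound (hm : m ≠ 0) {η : F[X]} (hη : IsCoprime η m) {ε : ℝ} (hε : 0 < ε) :
    ∀ᶠ d : ℕ in atTop, ∀ good : F[X] → Prop,
      (∀ P P', m ∣ P - P' → good P → good P') →
      (∀ P, IsCoprime P m → good P → ¬ good (η * P)) →
      (({P : F[X] | P.Monic ∧ Irreducible P ∧ P.natDegree = d ∧ good P}.ncard : ℝ) ≤
        (1 / 2 + ε) * {P : F[X] | P.Monic ∧ Irreducible P ∧ P.natDegree = d}.ncard) := by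
  classical
  have := finite_adj hm
  have : Fintype (AdjoinRoot m)ˣ := Fintype.ofFinite _
  obtain ⟨u, hu⟩ := isUnit_mk_iff.2 hη
  have hq : (0 : ℝ) < Fintype.card F := by exact_mod_cast Fintype.card_pos
  have h1 : Tendsto (fun d : ℕ => ∑ c : (AdjoinRoot m)ˣ,
      |(d * ((cnt m d c : ℝ) - cnt m d (u * c : (AdjoinRoot m)ˣ))) / (Fintype.card F : ℝ) ^ d|)
      atTop (𝓝 (∑ _c : (AdjoinRoot m)ˣ, 0)) :=
    tendsto_finsetSum _ fun c _ => by simpa using (tendsto_cnt_sub hm c (u * c)).abs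
  rw [Finset.sum_const_zero] at h1
  filter_upwards [h1.eventually (gt_mem_nhds hε),
    (tendsto_card_irr (F := F)).eventually (lt_mem_nhds (show (1 / 2 : ℝ) < 1 by norm_num)),
    eventually_gt_atTop m.natDegree] with d h2 h3 h4 good hper hflip
  have hd : (0 : ℝ) < d := by exact_mod_cast (show 0 < d by omega)
  have e1 : {P : F[X] | P.Monic ∧ Irreducible P ∧ P.natDegree = d} = irr F d := by
    ext P; simp [mem_irr]
  have e2 : {P : F[X] | P.Monic ∧ Irreducible P ∧ P.natDegree = d ∧ good P} =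
      (irr F d).filter good := by
    ext P; simp [mem_irr, and_assoc]
  rw [e1, e2, Set.ncard_coe_finset, Set.ncard_coe_finset]
  have hcop : ∀ P ∈ irr F d, IsCoprime P m := by
    intro P hP
    obtain ⟨-, hi, hdeg⟩ := mem_irr.1 hP
    exact hi.coprime_iff_not_dvd.2 fun h => by have := natDegree_le_of_dvd h hm; omega
  set S : Finset (AdjoinRoot m)ˣ :=
    univ.filter fun c => ∃ P, AdjoinRoot.mk m P = c ∧ good P with hS
  have hsum : ∀ T : Finset (AdjoinRoot m)ˣ, ∑ c ∈ T, cnt m d c =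
      ((irr F d).filter fun P => ∃ c ∈ T, AdjoinRoot.mk m P = c).card := by
    intro T
    unfold cnt
    rw [← Finset.card_biUnion]
    · congr 1
      ext P
      simp only [mem_biUnion, mem_filter]
      tauto
    · intro a _ b _ hab
      refine Finset.disjoint_left.2 fun P h1 h2 => hab ?_
      exact Units.ext ((mem_filter.1 h1).2.symm.trans (mem_filter.1 h2).2)
  have h5 : ((irr F d).filter good).card ≤ ∑ c ∈ S, cnt m d c := by
    rw [hsum]
    refine Finset.card_le_card fun P hP => ?_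
    obtain ⟨h1, h2⟩ := mem_filter.1 hP
    obtain ⟨c, hc⟩ := isUnit_mk_iff.2 (hcop P h1)
    exact mem_filter.2 ⟨h1, c, mem_filter.2 ⟨mem_univ _, P, hc.symm, h2⟩, hc.symm⟩
  have h6 : ((irr F d).filter good).card + ∑ c ∈ S, cnt m d (u * c : (AdjoinRoot m)ˣ) ≤
      (irr F d).card := by
    rw [← Finset.sum_image (s := S) (g := fun c => u * c) (f := fun c : (AdjoinRoot m)ˣ => cnt m d c)
      (fun a _ b _ h => mul_left_cancel h), hsum, ← Finset.card_union_of_disjoint]
    · exact Finset.card_le_card (Finset.union_subset (filter_subset _ _) (filter_subset _ _))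
    · refine Finset.disjoint_left.2 fun P h1 h2 => ?_
      obtain ⟨-, c, hc, hP⟩ := mem_filter.1 h2
      obtain ⟨c', hc', rfl⟩ := mem_image.1 hc
      obtain ⟨-, P', hP', hg⟩ := mem_filter.1 hc'
      refine hflip P' (isUnit_mk_iff.1 (hP' ▸ c'.isUnit)) hg (hper P _ ?_ (mem_filter.1 h1).2)
      rw [← AdjoinRoot.mk_eq_mk, hP, map_mul, hP', ← hu, Units.val_mul]
  have h7 : ∑ c ∈ S, ((cnt m d c : ℝ) - cnt m d (u * c : (AdjoinRoot m)ˣ)) ≤
      ε * ((Fintype.card F : ℝ) ^ d / d) := by
    have h8 : ∑ c ∈ S, ((cnt m d c : ℝ) - cnt m d (u * c : (AdjoinRoot m)ˣ)) ≤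
        (∑ c : (AdjoinRoot m)ˣ, |(d * ((cnt m d c : ℝ) - cnt m d (u * c : (AdjoinRoot m)ˣ))) /
          (Fintype.card F : ℝ) ^ d|) * ((Fintype.card F : ℝ) ^ d / d) := by
      rw [Finset.sum_mul]
      refine le_trans (Finset.sum_le_sum fun c _ => ?_)
        (Finset.sum_le_sum_of_subset_of_nonneg (subset_univ S) fun c _ _ => by positivity)
      refine le_trans (le_of_eq ?_) (mul_le_mul_of_nonneg_right (le_abs_self _) (by positivity))
      field_simp
    exact h8.trans (mul_le_mul_of_nonneg_right h2.le (by positivity))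
  have h9 : (Fintype.card F : ℝ) ^ d / d ≤ 2 * (irr F d).card := by
    rw [lt_div_iff₀ (by positivity)] at h3
    rw [div_le_iff₀ hd]
    linarith
  rw [Finset.sum_sub_distrib] at h7
  have h5' : (((irr F d).filter good).card : ℝ) ≤ ∑ c ∈ S, (cnt m d c : ℝ) := by exact_mod_cast h5
  have h6' : (((irr F d).filter good).card : ℝ) +
      ∑ c ∈ S, (cnt m d (u * c : (AdjoinRoot m)ˣ) : ℝ) ≤ (irr F d).card := by exact_mod_cast h6
  nlinarith

end Char

end Pool.Agent.MP_9b2bac_nt.Pnt
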