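import Mathlib
import Pool.Agent.MP_9b2bac_nt.HalfOp
import Pool.Agent.MP_9b2bac_nt.PntAp

/- At least half of the Carlitz-Mersenne elements over a purely inseparable extension are
composite. -/

set_option autoImplicit false

namespace Pool.Agent.MP_9b2bac_nt.Insep

open Polynomial Finset Filter
open Pool.Agent.MP_9b2bac_nt.Res

variable {F : Type*} [Field F] [Fintype F]

theorem exists_VW {a : F[X]} (ha' : derivative a ≠ 0) :
    ∃ V W : F[X], V ∣ a ∧ W ≠ 0 ∧ V.Separable ∧ W.natDegree < V.natDegree ∧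
      V * derivative a = W * a := by
  classical
  have ha : a ≠ 0 := by rintro rfl; simp at ha'
  obtain ⟨g, ⟨V, hV⟩, ⟨W, hW⟩, x, y, hxy⟩ : ∃ g : F[X], g ∣ a ∧ g ∣ derivative a ∧
      ∃ x y, g = a * x + derivative a * y :=
    ⟨_, EuclideanDomain.gcd_dvd_left _ _, EuclideanDomain.gcd_dvd_right _ _, _, _,
      EuclideanDomain.gcd_eq_gcd_ab a (derivative a)⟩
  have hg0 : g ≠ 0 := by rintro rfl; exact ha (by simpa using hV)
  have hV0 : V ≠ 0 := by rintro rfl; exact ha (by simpa using hV)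
  have hW0 : W ≠ 0 := by rintro rfl; exact ha' (by simpa using hW)
  have hcop : IsCoprime V W := by
    refine ⟨x, y, mul_left_cancel₀ hg0 ?_⟩
    linear_combination -hxy - x * hV - y * hW
  refine ⟨V, W, Dvd.intro_left _ hV.symm, hW0, ?_, ?_, by linear_combination V * hW - W * hV⟩
  · rw [PerfectField.separable_iff_squarefree,
      squarefree_iff_irreducible_sq_not_dvd_of_ne_zero hV0]
    intro π hπ hdvd
    have hfin : FiniteMultiplicity π g := FiniteMultiplicity.of_prime_left hπ.prime hg0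
    obtain ⟨u, hu, hnu⟩ := hfin.exists_eq_pow_mul_and_not_dvd
    generalize multiplicity π g = k at hu
    have h1 : π ^ (k + 2) ∣ a := by
      rw [hV, pow_add, sq]
      exact mul_dvd_mul (Dvd.intro _ hu.symm) hdvd
    have h2 := pow_sub_one_dvd_derivative_of_pow_dvd h1
    rw [show k + 2 - 1 = k + 1 by omega] at h2
    rw [hW, hu, pow_succ, mul_assoc, mul_dvd_mul_iff_left (pow_ne_zero _ hπ.ne_zero)] at h2
    have h3 : π ∣ W := (hπ.prime.dvd_or_dvd h2).resolve_left hnu
    exact hπ.not_isUnit (hcop.isUnit_of_dvd' (dvd_of_mul_left_dvd hdvd) h3)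
  · have h1 : (derivative a).natDegree < a.natDegree :=
      natDegree_derivative_lt (fun h => ha' (derivative_of_natDegree_zero h))
    rw [hW] at h1
    nth_rewrite 1 [hV] at h1
    rw [natDegree_mul hg0 hV0, natDegree_mul hg0 hW0] at h1
    omega

section

variable {Ω : Type*} [Field Ω] [Algebra F Ω] [IsAlgClosed Ω]

omit [Fintype F] in
theorem aroots_twist (p : ℕ) [Fact p.Prime] [CharP F p] (j : ℕ) (V : F[X]) :
    (V.map (iterateFrobenius F p j)).aroots Ω = (V.aroots Ω).map fun s => s ^ p ^ j := by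
  have : CharP Ω p := charP_of_injective_algebraMap (algebraMap F Ω).injective p
  have h : (V.map (iterateFrobenius F p j)).map (algebraMap F Ω) =
      (V.map (algebraMap F Ω)).map (iterateFrobenius Ω p j) := by
    rw [Polynomial.map_map, Polynomial.map_map]
    congr 1
    ext c
    simp [iterateFrobenius_def]
  rw [aroots_def, h, (IsAlgClosed.splits _).roots_map, aroots_def]
  rfl

omit [Fintype F] in
theorem R_twist (p : ℕ) [Fact p.Prime] [CharP F p] (j : ℕ) (V P : F[X]) :
    R Ω V (aeval (X ^ p ^ j : F[X]) P) = R Ω (V.map (iterateFrobenius F p j)) P := by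
  rw [R, R, aroots_twist, Multiset.map_map]
  congr 1
  refine Multiset.map_congr rfl fun s _ => ?_
  rw [← aeval_algHom_apply]
  simp

theorem exists_eta {e : ℕ} (he : Fintype.card F = 2 * e + 1) {U m : F[X]} (hU : U.Separable)
    (hm : m ≠ 0) (hdeg : m.natDegree < U.natDegree) :
    ∃ μ η : F[X], μ ≠ 0 ∧ IsCoprime η μ ∧ m ∣ μ ∧ U ∣ μ ∧ m ∣ η - 1 ∧ R Ω U η ^ e = -1 := by
  classical
  have hU0 : U ≠ 0 := hU.ne_zero
  obtain ⟨z, hz, hzm⟩ : ∃ z ∈ U.aroots Ω, aeval z m ≠ 0 := by
    by_contra! h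
    have h1 : U.aroots Ω ≤ m.aroots Ω := by
      rw [Multiset.le_iff_subset (nodup_roots hU.map)]
      intro z hz
      exact mem_aroots.2 ⟨hm, h z hz⟩
    have := Multiset.card_le_card h1
    rw [card_aroots, card_aroots] at this
    omega
  have hzU := (mem_aroots.1 hz).2
  have hint : IsIntegral F z := (IsAlgebraic.isIntegral ⟨U, hU0, hzU⟩)
  set π := minpoly F z with hπ
  have hπi : Irreducible π := minpoly.irreducible hint
  obtain ⟨V₁, hV₁⟩ : π ∣ U := minpoly.dvd F z hzU
  have hV0 : V₁ ≠ 0 := by rintro rfl; exact hU0 (by simpa using hV₁)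
  have hc1 : IsCoprime π V₁ := (hV₁ ▸ hU : (π * V₁).Separable).isCoprime
  have hc2 : IsCoprime π m := hπi.coprime_iff_not_dvd.2 fun h => hzm (by
    obtain ⟨c, rfl⟩ := h
    rw [map_mul, minpoly.aeval, zero_mul])
  obtain ⟨a, b, hab⟩ := hc2.mul_right hc1
  obtain ⟨η₀, hη₀, hR⟩ := exists_nonres (Ω := Ω) he (minpoly.monic hint) hπi
  have h1 : m * V₁ ∣ (a * π + b * (m * V₁) * η₀) - 1 :=
    ⟨b * η₀ - b, by linear_combination hab⟩
  have h2 : π ∣ (a * π + b * (m * V₁) * η₀) - η₀ :=
    ⟨a - a * η₀, by linear_combination η₀ * hab⟩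
  refine ⟨π * (m * V₁), a * π + b * (m * V₁) * η₀,
    mul_ne_zero hπi.ne_zero (mul_ne_zero hm hV0), IsCoprime.mul_right ?_ ?_,
    ⟨π * V₁, by ring⟩, ⟨m, by rw [hV₁]; ring⟩, (dvd_mul_right _ _).trans h1, ?_⟩
  · obtain ⟨c, hc⟩ := h2
    rw [eq_add_of_sub_eq hc, add_comm]
    exact hη₀.add_mul_left_left _
  · obtain ⟨c, hc⟩ := h1
    rw [eq_add_of_sub_eq hc, add_comm]
    exact isCoprime_one_left.add_mul_left_left _
  · rw [hV₁, R_mul_left (hV₁ ▸ hU0), R_congr_dvd h2,
      R_congr_dvd ((dvd_mul_left _ _).trans h1), R_one, mul_one, hR]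

/-- The parity condition satisfied by an irreducible Mersenne element. -/
theorem parity {e : ℕ} (he : Fintype.card F = 2 * e + 1) (p : ℕ) [Fact p.Prime] [CharP F p]
    {j : ℕ} (hj : j ≠ 0) (hp : Odd p) {a V W P : F[X]} (ha : a ≠ 0) (hVa : V ∣ a)
    (hVW : V * derivative a = W * a) (hP : P.Monic) (hi : Irreducible P)
    (hd : a.natDegree < P.natDegree) (hM : Irreducible (mer (X ^ p ^ j) a P)) {n : ℕ}
    (hn : (mer (X ^ p ^ j) a P).natDegree = n) :
    ((-1) ^ (n * V.natDegree) * algebraMap F Ω V.leadingCoeff ^ n) ^ e * eps Ω e n *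
        R Ω (V.map (iterateFrobenius F p j)) P ^ e =
      ((-1) ^ (n * W.natDegree) * algebraMap F Ω W.leadingCoeff ^ n) ^ e *
        ((-1) ^ (n * (P.natDegree * p ^ j))) ^ e * R Ω W (mer (X ^ p ^ j) a P) ^ e := by
  have : CharP Ω p := charP_of_injective_algebraMap (algebraMap F Ω).injective p
  set T : F[X] := X ^ p ^ j with hT
  set M := mer T a P with hMdef
  have hT' : derivative T = 0 := by
    rw [hT, derivative_X_pow, Nat.cast_pow, CharP.cast_eq_zero, zero_pow hj]
    simp
  have hMm : M.Monic := (mer_monic (monic_X_pow _) (by rw [natDegree_X_pow]; exact hp.pow)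
    ⟨e, he⟩ ha hP).1
  have hPT : aeval T P = P.comp T := (comp_eq_aeval).symm
  have hPTm : (aeval T P).Monic := by
    rw [hPT]
    exact hP.comp (monic_X_pow _) (by
      rw [natDegree_X_pow]; exact pow_ne_zero _ (Fact.out : p.Prime).ne_zero)
  have hPTd : (aeval T P).natDegree = P.natDegree * p ^ j := by
    rw [hPT, natDegree_comp, natDegree_X_pow]
  have h0 : V * derivative M = W * (aeval T P - M) := by
    refine mul_left_cancel₀ ha ?_
    have := mul_derivative_mer hT' P a
    linear_combination V * this + (aeval T P - M) * hVW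
  have h1 : R Ω M V * R Ω M (derivative M) = R Ω M W * R Ω M (aeval T P) := by
    rw [← R_mul_right, ← R_mul_right, h0]
    exact R_congr_dvd ⟨-W, by ring⟩
  have h2 : R Ω V M = R Ω (V.map (iterateFrobenius F p j)) P := by
    rw [← R_twist]
    refine R_congr fun s hs => aeval_mer_of_root ?_
    obtain ⟨c, rfl⟩ := hVa
    rw [map_mul, hs, zero_mul]
  have h3 : R Ω (aeval T P) M = 1 := by
    rw [← R_one (Ω := Ω) (aeval T P)]
    refine R_congr fun s hs => ?_
    have hs' : aeval (s ^ p ^ j) P = 0 := by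
      rw [← aeval_algHom_apply] at hs
      simpa [hT] using hs
    rw [map_one]
    refine aeval_mer_eq_one hP hi hs ?_ fun h => ?_
    · apply (iterateFrobenius Ω p j).injective
      rw [iterateFrobenius_def, iterateFrobenius_def, ← pow_mul, mul_comm, pow_mul]
      exact (orbit hP hi hs').1
    · have h4 : s ^ p ^ j ∈ (a.map (iterateFrobenius F p j)).aroots Ω := by
        rw [aroots_twist]
        exact Multiset.mem_map.2 ⟨s, mem_aroots.2 ⟨ha, h⟩, rfl⟩
      obtain ⟨h5, h6⟩ := mem_aroots.1 h4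
      have h7 : P ∣ a.map (iterateFrobenius F p j) := by
        rw [minpoly.eq_of_irreducible_of_monic hi hs' hP]
        exact minpoly.dvd F _ h6
      have := natDegree_le_of_dvd h7 h5
      rw [natDegree_map] at this
      omega
  rw [R_swap hMm V, R_swap hMm W, R_swap hMm (aeval T P), h2, h3, hPTm.leadingCoeff, hPTd, hn]
    at h1
  have h4 := congrArg (· ^ e) h1
  simp only [mul_pow, pellet he hMm hM, hn, map_one, one_pow, mul_one] at h4
  simp only [mul_pow]
  linear_combination h4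

end

theorem half_composite (p : ℕ) [Fact p.Prime] [CharP F p] (hp : p ≠ 2) {j : ℕ} (hj : j ≠ 0)
    {a : F[X]} (ha : a ≠ 0) {ε : ℝ} (hε : 0 < ε) : ∀ᶠ d : ℕ in atTop,
      ({P : F[X] | P.Monic ∧ Irreducible P ∧ P.natDegree = d ∧
          Irreducible (carlitz (X ^ p ^ j) P a / a)}.ncard : ℝ) ≤
        (1 / 2 + ε) * {P : F[X] | P.Monic ∧ Irreducible P ∧ P.natDegree = d}.ncard := by
  have hpo : Odd p := (Fact.out : p.Prime).odd_of_ne_two hp
  obtain ⟨e, he⟩ : Odd (Fintype.card F) := by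
    obtain ⟨n, -, hn⟩ := FiniteField.card F p
    rw [hn]
    exact hpo.pow
  simp only [carlitz_div _ _ ha]
  have hT' : derivative (X ^ p ^ j : F[X]) = 0 := by
    rw [derivative_X_pow, Nat.cast_pow, CharP.cast_eq_zero, zero_pow hj]
    simp
  by_cases ha' : derivative a = 0
  · refine Eventually.of_forall fun d => ?_
    have : {P : F[X] | P.Monic ∧ Irreducible P ∧ P.natDegree = d ∧
        Irreducible (mer (X ^ p ^ j) a P)} = ∅ := by
      refine Set.eq_empty_of_forall_notMem fun P hP => ?_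
      have h1 := mul_derivative_mer hT' P a
      rw [ha', zero_mul, mul_eq_zero, or_iff_right ha] at h1
      have h2 := PerfectField.separable_of_irreducible hP.2.2.2
      rw [Separable, h1, isCoprime_zero_right] at h2
      exact hP.2.2.2.not_isUnit h2
    rw [this, Set.ncard_empty, Nat.cast_zero]
    positivity
  obtain ⟨V, W, hVa, hW0, hV, hdeg, hVW⟩ := exists_VW ha'
  obtain ⟨m, hm, hmd, hper⟩ := exists_period (X ^ p ^ j) a hW0
  let Ω := AlgebraicClosure F
  set U := V.map (iterateFrobenius F p j) with hU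
  obtain ⟨μ, η, hμ, hη, hmμ, hUμ, hη1, hR⟩ := exists_eta (Ω := Ω) he (U := U) hV.map hm.ne_zero
    (by rw [hU, natDegree_map]; omega)
  filter_upwards [Pnt.half_bound hμ hη hε, eventually_gt_atTop a.natDegree] with d h1 h2
  set n := ((Lop F (X ^ p ^ j) (a ^ (Fintype.card F - 1)) ^ d) 1).natDegree with hn
  set c₁ : Ω := ((-1) ^ (n * V.natDegree) * algebraMap F Ω V.leadingCoeff ^ n) ^ e * eps Ω e n
    with hc₁
  set c₂ : Ω := ((-1) ^ (n * W.natDegree) * algebraMap F Ω W.leadingCoeff ^ n) ^ e *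
    ((-1) ^ (n * (d * p ^ j))) ^ e with hc₂
  have hc : c₁ ≠ 0 := by
    refine mul_ne_zero (pow_ne_zero _ (mul_ne_zero (pow_ne_zero _ (by simp)) (pow_ne_zero _ ?_)))
      (eps_ne_zero e n)
    simpa using hV.ne_zero
  refine le_trans ?_ (h1 (fun P => c₁ * R Ω U P ^ e = c₂ * R Ω W (mer (X ^ p ^ j) a P) ^ e) ?_ ?_)
  · refine Nat.cast_le.2 (Set.ncard_le_ncard ?_ ((Pnt.finite_mon d).subset fun P hP =>
      ⟨hP.1, hP.2.2.1⟩))
    rintro P ⟨hP, hi, hd, hM⟩
    refine ⟨hP, hi, hd, ?_⟩
    have := parity (Ω := Ω) he p hj hpo ha hVa hVW hP hi (by omega) hM (n := n) (by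
      rw [hn, ← hd]
      exact (mer_monic (monic_X_pow _) (by rw [natDegree_X_pow]; exact hpo.pow) ⟨e, he⟩ ha hP).2)
    rwa [hd] at this
  · intro P P' hPP h
    rwa [← R_congr_dvd (hUμ.trans hPP), ← R_congr_dvd (hper P P' (hmμ.trans hPP))]
  · intro P hP h h'
    have h3 : m ∣ η * P - P := by
      rw [← sub_one_mul]
      exact hη1.mul_right _
    rw [R_congr_dvd (hper _ _ h3), ← h, R_mul_right, mul_pow, hR] at h'
    have h4 : R Ω U P ≠ 0 := R_ne_zero (hP.of_isCoprime_of_dvd_right hUμ)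
    have h5 : (2 : Ω) ≠ 0 := by
      have : CharP Ω p := charP_of_injective_algebraMap (algebraMap F Ω).injective p
      intro h
      have h6 := (CharP.cast_eq_zero_iff Ω p 2).1 (by exact_mod_cast h)
      exact hp ((Nat.prime_dvd_prime_iff_eq Fact.out Nat.prime_two).1 h6)
    exact mul_ne_zero h5 (mul_ne_zero hc (pow_ne_zero e h4)) (by linear_combination -h')

end Pool.Agent.MP_9b2bac_nt.Insep
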