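import Mathlib
import Pool.Agent.MP_9b2bac_nt.Carlitz
import Pool.Agent.MP_4fffd4_nt.Stick

/- The parity obstruction for Carlitz-Mersenne polynomials when the derivative of `θ` vanishes. -/

set_option autoImplicit false

namespace Pool.Agent.MP_9b2bac_nt

open Polynomial Finset Pool.Agent.MP_4fffd4_nt

variable {F K : Type*} [Field F] [Fintype F] [Field K] [Algebra F K] [IsAlgClosed K]

theorem sgn_eq_one {n : ℕ} (hn : 4 ∣ n) : sgn n = 1 := by
  unfold sgn
  simp only [Finset.prod_const, Fin.card_Ioi]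
  rw [Finset.prod_pow_eq_pow_sum, Fin.sum_univ_eq_sum_range (fun i => n - 1 - i),
    Finset.sum_range_reflect (fun i => i)]
  refine Even.neg_one_pow ?_
  have h := Finset.sum_range_id_mul_two n
  obtain ⟨k, rfl⟩ := hn
  refine ⟨k * (4 * k - 1), ?_⟩
  have : 4 * k * (4 * k - 1) = (k * (4 * k - 1) + k * (4 * k - 1)) * 2 := by ring
  omega

omit [Fintype F] in
theorem liou_irreducible {M : F[X]} (hi : Irreducible M) : liou M = -1 := by
  unfold liou
  rw [UniqueFactorizationMonoid.card_factors_of_irreducible hi]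
  simp

omit [IsAlgClosed K] in
theorem not_square (h2 : ringChar F ≠ 2) {M : F[X]} (hM : M.Monic) (hi : Irreducible M) {n : ℕ}
    (hn : 4 ∣ n) (α : Fin n → K) (hα : Function.Injective α)
    (hMα : M.map (algebraMap F K) = ∏ i, (X - C (α i))) (c : F) :
    ∏ i, aeval (α i) (derivative M) ≠ algebraMap F K c ^ 2 := by
  classical
  intro h
  have hs : M.Separable := PerfectField.separable_of_irreducible hi
  have hroot : ∀ z : K, aeval z M = 0 ↔ ∃ i, α i = z := by
    intro z
    rw [← eval_map_algebraMap, hMα, eval_prod, Finset.prod_eq_zero_iff]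
    simp only [mem_univ, true_and, eval_sub, eval_X, eval_C, sub_eq_zero, eq_comm]
  let φ := FiniteField.frobeniusAlgHom F K
  have hφ : ∀ i, ∃ j, α j = φ (α i) := fun i =>
    (hroot _).1 (by rw [aeval_algHom_apply, (hroot _).2 ⟨i, rfl⟩, map_zero])
  choose s hs' using hφ
  have hsinj : Function.Injective s := fun i j hij =>
    hα (φ.injective (show φ (α i) = φ (α j) by rw [← hs', ← hs', hij]))
  let σ : Equiv.Perm (Fin n) := Equiv.ofBijective s (Finite.injective_iff_bijective.1 hsinj)
  have hσ := sign_frob hM hs α hα hMα σ (fun i => hs' i)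
  rw [liou_irreducible hi, Even.neg_one_pow (even_iff_two_dvd.2 (Dvd.dvd.trans ⟨2, rfl⟩ hn))] at hσ
  set δ := (Matrix.vandermonde α).det with hδ
  have h1 : φ δ = -δ := by
    have : φ δ = (((Equiv.Perm.sign σ : ℤˣ) : ℤ) : K) * δ := by
      rw [hδ, ← Matrix.det_permute, AlgHom.map_det]
      congr 1
      ext i j
      simp [Matrix.vandermonde_apply, σ, hs']
    rw [this, hσ]; simp
  have h3 : δ ^ 2 = algebraMap F K c ^ 2 := by
    have := prod_deriv_eq α
    rw [sgn_eq_one hn, ← hMα, derivative_map] at this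
    simp only [eval_map_algebraMap] at this
    rw [← h, this]; simp [hδ]
  have h4 : φ δ = δ := by
    rcases sq_eq_sq_iff_eq_or_eq_neg.1 h3 with e | e <;> rw [e] <;> simp
  have h5 : δ ≠ 0 := Matrix.det_vandermonde_ne_zero_iff.2 hα
  have h6 : (2 : K) ≠ 0 := by
    have := Ring.two_ne_zero (R := F) h2
    rw [← map_ofNat (algebraMap F K)]
    exact (_root_.map_ne_zero _).2 this
  apply mul_ne_zero h6 h5
  linear_combination h1 - h4

omit [Fintype F] in
theorem recip {M : F[X]} {n : ℕ} (hn : Even n) (α : Fin n → K)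
    (hMα : M.map (algebraMap F K) = ∏ i, (X - C (α i))) (g : F[X]) :
    ∏ i, aeval (α i) g = algebraMap F K g.leadingCoeff ^ n *
      ((g.map (algebraMap F K)).roots.map fun β => aeval β M).prod := by
  have hsp := (IsAlgClosed.splits (g.map (algebraMap F K))).eq_prod_roots
  have h1 : ∀ i, aeval (α i) g = algebraMap F K g.leadingCoeff *
      ((g.map (algebraMap F K)).roots.map fun β => α i - β).prod := by
    intro i
    rw [← eval_map_algebraMap]
    conv_lhs => rw [hsp]
    simp [eval_multiset_prod, Multiset.map_map]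
  simp only [h1]
  rw [Finset.prod_mul_distrib, Finset.prod_const, card_univ, Fintype.card_fin]
  congr 1
  generalize (g.map (algebraMap F K)).roots = s
  induction s using Multiset.induction_on with
  | empty => simp
  | cons β s IH =>
    simp only [Multiset.map_cons, Multiset.prod_cons]
    rw [Finset.prod_mul_distrib, IH, ← eval_map_algebraMap, hMα, eval_prod]
    congr 1
    have : ∀ i, α i - β = (-1) * eval β (X - C (α i)) := fun i => by simp
    simp only [this]
    rw [Finset.prod_mul_distrib, Finset.prod_const, card_univ, Fintype.card_fin, hn.neg_one_pow,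
      one_mul]

omit [Fintype F] in
theorem prod_roots_mem (G b : F[X]) :
    ∃ r : F, ((G.map (algebraMap F K)).roots.map fun β => aeval β b).prod = algebraMap F K r := by
  by_cases hG : G = 0
  · exact ⟨1, by simp [hG]⟩
  have h := resultant_eq_prod_eval (G.map (algebraMap F K)) (b.map (algebraMap F K)) b.natDegree
    (natDegree_map_le) (IsAlgClosed.splits _)
  rw [natDegree_map, resultant_map_map] at h
  refine ⟨resultant G b G.natDegree b.natDegree / G.leadingCoeff ^ b.natDegree, ?_⟩
  have h0 : algebraMap F K G.leadingCoeff ≠ 0 := (_root_.map_ne_zero _).2 (leadingCoeff_ne_zero.2 hG)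
  rw [map_div₀, h, map_pow, leadingCoeff_map, mul_div_cancel_left₀ _ (pow_ne_zero _ h0)]
  simp only [eval_map_algebraMap]

theorem core (h2 : ringChar F ≠ 2) {θ b P M : F[X]} (hθ : derivative θ = 0) (hP : P.Monic)
    (hPi : Irreducible P) (hM : M.Monic) (hi : Irreducible M) (hE : carlitz θ P b = b * M)
    (hD : b ∣ M - aeval θ P) {n : ℕ} (hn : 4 ∣ n) (α : Fin n → K) (hα : Function.Injective α)
    (hMα : M.map (algebraMap F K) = ∏ i, (X - C (α i))) {y z : F} (hy : y ≠ 0)
    (h1 : ∏ i, aeval (α i) b = algebraMap F K y ^ 2)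
    (h3 : ∏ i, aeval (α i) (derivative b) = algebraMap F K z ^ 2) : False := by
  have hn2 : Even n := even_iff_two_dvd.2 (Dvd.dvd.trans ⟨2, rfl⟩ hn)
  have hq : Odd (Fintype.card F ^ P.natDegree) :=
    (FiniteField.odd_card_of_char_ne_two h2 |> Nat.odd_iff.2).pow
  obtain ⟨m, hm⟩ := hq
  have hm0 : m ≠ 0 := by
    rintro rfl
    have := Nat.one_lt_pow hPi.natDegree_pos.ne' (Fintype.one_lt_card (α := F))
    omega
  set G := aeval θ P with hG
  have hroot : ∀ i, aeval (α i) M = 0 := by
    intro i
    rw [← eval_map_algebraMap, hMα, eval_prod]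
    exact Finset.prod_eq_zero (mem_univ i) (by simp)
  have e1 : ∀ i, aeval (α i) (derivative M) * aeval (α i) b =
      aeval (α i) G * aeval (α i) (derivative b) := by
    intro i
    have := congrArg (aeval (α i)) (derivative_carlitz hθ P b)
    rw [hE, derivative_mul] at this
    simp only [map_add, map_mul, hroot, mul_zero, zero_add] at this
    rw [← this, mul_comm]
  have e2 : ∀ β ∈ (G.map (algebraMap F K)).roots, aeval β M = aeval β b ^ (2 * m) := by
    intro β hβ
    have hβ' : aeval β G = 0 := by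
      rw [← eval_map_algebraMap]; exact (mem_roots'.1 hβ).2
    by_cases hb : aeval β b = 0
    · obtain ⟨k, hk⟩ := hD
      have := congrArg (aeval β) hk
      simp only [map_sub, map_mul, hβ', hb, zero_mul, sub_zero] at this
      rw [this, hb, zero_pow (by omega)]
    · have := map_carlitz (aeval β) θ P b
      rw [hE, carlitz_root hP hPi (by rw [aeval_algHom_apply, hβ']), hm, map_mul, pow_succ'] at this
      exact mul_left_cancel₀ hb this
  obtain ⟨r, hr⟩ := prod_roots_mem (K := K) G b
  obtain ⟨k, hk⟩ := hn2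
  have e3 : ∏ i, aeval (α i) G = algebraMap F K (G.leadingCoeff ^ k * r ^ m) ^ 2 := by
    rw [recip ⟨k, hk⟩ α hMα, Multiset.map_congr rfl e2, Multiset.prod_map_pow, hr, hk]
    simp only [map_mul, map_pow]
    ring
  refine not_square h2 hM hi hn α hα hMα (G.leadingCoeff ^ k * r ^ m * z / y) ?_
  have e4 := Finset.prod_congr rfl fun i (_ : i ∈ (univ : Finset (Fin n))) => e1 i
  rw [Finset.prod_mul_distrib, Finset.prod_mul_distrib, h1, h3, e3] at e4
  have hy' : algebraMap F K y ≠ 0 := (_root_.map_ne_zero _).2 hy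
  rw [map_div₀, map_mul, div_pow, eq_div_iff (pow_ne_zero _ hy'), e4]
  ring

omit [Fintype F] in
theorem exists_split {M : F[X]} (h0 : 0 < M.natDegree) (hi : ¬ Irreducible M) :
    ∃ M₁ M₂ : F[X], 0 < M₁.natDegree ∧ 0 < M₂.natDegree ∧ M = M₁ * M₂ := by
  have hM : M ≠ 0 := by rintro rfl; simp at h0
  have hu : ¬ IsUnit M := fun h => by
    rw [natDegree_eq_zero_of_isUnit h] at h0; exact lt_irrefl _ h0
  rw [irreducible_iff, not_and] at hi
  have := hi hu
  push Not at this
  obtain ⟨a, b, hab, ha, hb⟩ := this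
  have key : ∀ g : F[X], g ≠ 0 → ¬ IsUnit g → 0 < g.natDegree := fun g hg hu =>
    natDegree_pos_iff_degree_pos.2 (degree_pos_of_ne_zero_of_nonunit hg hu)
  exact ⟨a, b, key a (by rintro rfl; simp [hM] at hab) ha, key b (by rintro rfl; simp [hM] at hab) hb,
    hab⟩

theorem quot_data {θ b : F[X]} (h : θ.natDegree + b.natDegree < Fintype.card F * b.natDegree)
    {P : F[X]} (hP : P.Monic) :
    ∃ M : F[X], M.Monic ∧ M.natDegree = (Fintype.card F ^ P.natDegree - 1) * b.natDegree ∧
      carlitz θ P b = b * M ∧ b ∣ M - aeval θ P := by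
  have hb : b ≠ 0 := by rintro rfl; simp at h
  obtain ⟨M, h1, h2⟩ := exists_quot θ P b
  obtain ⟨h3, h4⟩ := carlitz_degree hb h hP
  rw [h1, leadingCoeff_mul] at h4
  have hM : M.Monic := by
    have := leadingCoeff_ne_zero.2 hb
    exact mul_left_cancel₀ this (by rw [h4, mul_one])
  refine ⟨M, hM, ?_, h1, h2⟩
  rw [h1, natDegree_mul hb hM.ne_zero] at h3
  rw [Nat.sub_mul]; omega

end Pool.Agent.MP_9b2bac_nt
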