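import Mathlib
import Pool.Agent.MP_9b2bac_nt.Parity

/- Translation invariant exponents give composite Carlitz-Mersenne numbers. -/

set_option autoImplicit false

namespace Pool.Agent.MP_9b2bac_nt

open Polynomial Finset

variable {F : Type*} [Field F] [Fintype F]

theorem carlitz_shift {R : Type*} [CommRing R] [Algebra F R] (θ : R) (c : F) (a : F[X]) (x : R) :
    carlitz (θ + algebraMap F R c) a x = carlitz θ (a.comp (X + C c)) x := by
  have : lin F (θ + algebraMap F R c) = aeval (lin F θ) (X + C c) := by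
    ext y
    simp [lin_apply, Module.algebraMap_end_apply, Algebra.smul_def]
    ring
  rw [carlitz_eq, carlitz_eq, aeval_comp, this]

omit [Fintype F] in
theorem divX_monic {a : F[X]} (ha : a.Monic) (h : 0 < a.natDegree) :
    a.divX.Monic ∧ a.divX.natDegree = a.natDegree - 1 := by
  have h1 := natDegree_divX_eq_natDegree_tsub_one (p := a)
  refine ⟨?_, h1⟩
  rw [Monic, leadingCoeff, h1, coeff_divX, Nat.sub_add_cancel h, ha.coeff_natDegree]

theorem one_degree (hq : 3 ≤ Fintype.card F) {a : F[X]} (ha : a.Monic) (h : 0 < a.natDegree) :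
    (carlitz (X : F[X]) a 1).Monic ∧
      (carlitz (X : F[X]) a 1).natDegree = Fintype.card F ^ (a.natDegree - 1) := by
  obtain ⟨h1, h2⟩ := divX_monic ha h
  have m2 : (X + 1 : F[X]).Monic := monic_X_add_C 1
  have d2 : (X + 1 : F[X]).natDegree = 1 := natDegree_X_add_C 1
  have e : carlitz (X : F[X]) a 1 = carlitz (X : F[X]) a.divX (X + 1) + C (a.coeff 0) := by
    conv_lhs => rw [← divX_mul_X_add a]
    rw [carlitz_add, carlitz_mul, carlitz_C, smul_eq_C_mul, mul_one]
    congr 2
    have := carlitz_X_mul (X : F[X]) (1 : F[X]) (1 : F[X])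
    rw [mul_one, carlitz_one] at this
    simpa using this
  obtain ⟨h3, h4⟩ := carlitz_degree (θ := (X : F[X])) m2.ne_zero
    (by rw [natDegree_X, d2]; omega) h1
  rw [d2, mul_one, h2] at h3
  have h5 : (carlitz (X : F[X]) a.divX (X + 1)).Monic := h4.trans m2
  have h6 : 0 < (carlitz (X : F[X]) a.divX (X + 1)).natDegree := by rw [h3]; positivity
  rw [e]
  exact ⟨h5.add_of_left (degree_C_le.trans_lt (natDegree_pos_iff_degree_pos.1 h6)),
    by rw [natDegree_add_C, h3]⟩

theorem deriv_degree (hq : 3 ≤ Fintype.card F) {a : F[X]} (ha : a.Monic) (h : 2 ≤ a.natDegree) :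
    (derivative (carlitz (X : F[X]) a 1)).natDegree ≤ Fintype.card F ^ (a.natDegree - 2) := by
  obtain ⟨h1, h2⟩ := divX_monic ha (by omega)
  obtain ⟨-, h3⟩ := one_degree hq h1 (by omega)
  have hq0 : ((Fintype.card F : ℕ) : F) = 0 := FiniteField.cast_card_eq_zero F
  rw [h2, Nat.sub_sub] at h3
  set y := carlitz (X : F[X]) a.divX 1 with hy
  have e : derivative (carlitz (X : F[X]) a 1) = y + X * derivative y := by
    conv_lhs => rw [← X_mul_divX_add a]
    rw [carlitz_add, carlitz_X_mul, carlitz_C, smul_eq_C_mul, mul_one, ← hy]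
    simp [derivative_pow, hq0]
  rw [e]
  refine natDegree_add_le_of_degree_le h3.le (natDegree_mul_le.trans ?_)
  have := natDegree_derivative_le y
  have hpos : 0 < Fintype.card F ^ (a.natDegree - (1 + 1)) := by positivity
  rw [natDegree_X]
  norm_num at *
  omega

theorem telescope {K : Type*} [Field K] (p : ℕ) [Fact p.Prime] [CharP K p] (α : K) (m : ℕ) :
    ∑ s ∈ range m, (α ^ p - α) ^ p ^ s = α ^ p ^ m - α := by
  induction m with
  | zero => simp
  | succ m IH => rw [Finset.sum_range_succ, IH, sub_pow_char_pow, ← pow_mul, ← pow_succ']; ring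

theorem sum_range_mul' {M : Type*} [AddCommMonoid M] (f : ℕ → M) (e D : ℕ) :
    ∑ s ∈ range (e * D), f s = ∑ r ∈ range e, ∑ i ∈ range D, f (e * i + r) := by
  rw [Finset.sum_comm]
  induction D with
  | zero => simp
  | succ D IH => rw [Nat.mul_succ, Finset.sum_range_add, IH, Finset.sum_range_succ]

theorem shift_not_irreducible (hq : 3 ≤ Fintype.card F) (p : ℕ) [CharP F p] {c : F} (hc : c ≠ 0)
    (hcp : c ^ p = c) {P : F[X]} (hP : P.Monic) (hd : 4 ≤ P.natDegree)
    (hs : P.comp (X + C c) = P) : ¬ Irreducible (carlitz (X : F[X]) P 1) := by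
  intro hi
  have hpp : p.Prime := CharP.char_is_prime F p
  have : Fact p.Prime := ⟨hpp⟩
  obtain ⟨e, -, he⟩ := FiniteField.card F p
  let K := AlgebraicClosure F
  have : CharP K p := charP_of_injective_algebraMap (algebraMap F K).injective p
  obtain ⟨hf, hn⟩ := one_degree hq hP (by omega)
  have hf' := deriv_degree hq hP (by omega)
  set f := carlitz (X : F[X]) P 1 with hfd
  obtain ⟨α, hα⟩ := IsAlgClosed.exists_aeval_eq_zero K f (degree_pos_of_irreducible hi).ne'
  have hα1 : aeval (α + algebraMap F K c) f = 0 := by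
    have h1 := map_carlitz (aeval (α + algebraMap F K c)) (X : F[X]) P 1
    have h2 := map_carlitz (aeval α) (X : F[X]) P 1
    rw [aeval_X, map_one] at h1 h2
    rw [hfd, h1, carlitz_shift, hs, ← h2]
    exact hα
  obtain ⟨j, hj, hjα⟩ : ∃ j < f.natDegree, α + algebraMap F K c = α ^ Fintype.card F ^ j := by
    rw [← eval_map_algebraMap, map_eq_prod hf hi hα, eval_prod, Finset.prod_eq_zero_iff] at hα1
    obtain ⟨j, hj, h⟩ := hα1
    exact ⟨j, mem_range.1 hj, by simpa [sub_eq_zero] using h⟩
  have hj0 : j ≠ 0 := by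
    rintro rfl
    simp [hc] at hjα
  set η := α ^ p - α with hη
  have hfr : ∀ m, η ^ Fintype.card F ^ m = (α ^ Fintype.card F ^ m) ^ p - α ^ Fintype.card F ^ m := by
    intro m
    have := map_sub (FiniteField.frobeniusAlgHom F K ^ m) (α ^ p) α
    simp only [AlgHom.coe_pow, FiniteField.coe_frobeniusAlgHom, pow_iterate] at this
    rw [hη, this, ← pow_mul, ← pow_mul, mul_comm]
  have hint : IsIntegral F η := Algebra.IsIntegral.isIntegral η
  set g := minpoly F η with hg
  have hgi : Irreducible g := minpoly.irreducible hint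
  have hgm : g.Monic := minpoly.monic hint
  have hgη : aeval η g = 0 := minpoly.aeval F η
  have h1 : g.natDegree ∣ j := (pow_card_pow_eq hgi hgη j).1 (by
    rw [hfr, ← hjα, add_pow_char, ← map_pow, hcp, hη]; ring)
  have h2 : g.natDegree ∣ f.natDegree := (pow_card_pow_eq hgi hgη _).1 (by
    rw [hfr, (pow_card_pow_eq hi hα _).2 dvd_rfl])
  have hp1 := hpp.one_lt
  have mA : (X ^ p - X : F[X]).Monic := by
    apply Monic.sub_of_left (monic_X_pow _)
    rw [degree_X_pow, degree_X]; exact_mod_cast hp1
  have dA : (X ^ p - X : F[X]).natDegree = p := FiniteField.X_pow_card_sub_X_natDegree_eq F hp1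
  have hcm : (g.comp (X ^ p - X)).Monic := hgm.comp mA (by rw [dA]; omega)
  have hdv : f ∣ g.comp (X ^ p - X) := by
    rw [minpoly.eq_of_irreducible_of_monic hi hα hf]
    refine minpoly.dvd F α ?_
    rw [aeval_comp]; simpa using hgη
  have h3 : f.natDegree ≤ g.natDegree * p := by
    have := natDegree_le_of_dvd hdv hcm.ne_zero
    rwa [natDegree_comp, dA] at this
  have h4 : g.natDegree * p = f.natDegree := by
    have hlt : g.natDegree < f.natDegree := (Nat.le_of_dvd (Nat.pos_of_ne_zero hj0) h1).trans_lt hj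
    rw [hn, he, ← pow_mul] at h2 h3 hlt ⊢
    obtain ⟨t, -, ht⟩ := (Nat.dvd_prime_pow hpp).1 h2
    rw [ht] at h3 hlt ⊢
    rw [← pow_succ] at h3 ⊢
    have a1 := (Nat.pow_lt_pow_iff_right hp1).1 hlt
    have a2 := (Nat.pow_le_pow_iff_right hp1).1 h3
    congr 1; omega
  have h5 : g.comp (X ^ p - X) = f :=
    eq_of_monic_of_dvd_of_natDegree_le hf hcm hdv (by rw [natDegree_comp, dA, h4])
  have hp0 : (p : F) = 0 := CharP.cast_eq_zero F p
  have h6 : (derivative g).natDegree * p ≤ Fintype.card F ^ (P.natDegree - 2) := by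
    rw [← h5, derivative_comp] at hf'
    have : derivative (X ^ p - X : F[X]) = -1 := by simp [derivative_X_pow]
    rwa [this, neg_one_mul, natDegree_neg, natDegree_comp, dA] at hf'
  obtain ⟨d, hd'⟩ : ∃ d, P.natDegree = d + 4 := ⟨P.natDegree - 4, by omega⟩
  have hpq : p ≤ Fintype.card F := by
    rw [he]; exact Nat.le_self_pow e.ne_zero p
  obtain ⟨q', hq'⟩ : p ∣ Fintype.card F := by rw [he]; exact dvd_pow_self p e.ne_zero
  have e1 : Fintype.card F ^ (P.natDegree - 1) =
      Fintype.card F ^ (d + 2) * Fintype.card F := by rw [hd', ← pow_succ]; rfl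
  have e2 : Fintype.card F ^ (P.natDegree - 2) = Fintype.card F ^ (d + 2) := by rw [hd']; rfl
  have e3 : Fintype.card F * Fintype.card F ≤ Fintype.card F ^ (d + 2) := by
    rw [← pow_two]; exact Nat.pow_le_pow_right (by omega) (by omega)
  rw [hn, e1] at h4
  rw [e2] at h6
  have h7 : (derivative g).natDegree + 2 < g.natDegree := by
    by_contra hcon
    have : g.natDegree * p ≤ ((derivative g).natDegree + 2) * p :=
      Nat.mul_le_mul_right _ (by omega)
    nlinarith
  have h8 : p ∣ g.natDegree := by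
    have : g.natDegree * p = (p * (q' * Fintype.card F ^ (d + 1) * q')) * p := by
      rw [h4, pow_succ _ (d + 1)]
      generalize Fintype.card F ^ (d + 1) = w
      rw [hq']; ring
    exact ⟨_, Nat.eq_of_mul_eq_mul_right hpp.pos this⟩
  have h9 : g.nextCoeff = 0 := by
    obtain ⟨r, hr⟩ : ∃ r, g.natDegree = r + 2 := ⟨g.natDegree - 2, by omega⟩
    have a1 : (derivative g).coeff r = 0 := coeff_eq_zero_of_natDegree_lt (by omega)
    have a2 : ((r : F) + 1) = -1 := by
      have := (CharP.cast_eq_zero_iff F p _).2 h8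
      rw [hr] at this
      push_cast at this
      linear_combination this
    rw [coeff_derivative, a2] at a1
    rw [nextCoeff_of_natDegree_pos (by omega), hr]
    simpa using a1
  have h10 : ∑ i ∈ range g.natDegree, η ^ Fintype.card F ^ i = 0 := by
    have a1 := nextCoeff_map (algebraMap F K).injective g
    rw [map_eq_prod hgm hgi hgη, prod_X_sub_C_nextCoeff, h9, map_zero, neg_eq_zero] at a1
    exact a1
  have h11 : α ^ Fintype.card F ^ g.natDegree = α := by
    have a1 := telescope p α (e * g.natDegree)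
    rw [sum_range_mul', pow_mul, ← he] at a1
    rw [← sub_eq_zero, ← a1]
    refine Finset.sum_eq_zero fun r _ => ?_
    have a2 := congrArg (iterateFrobenius K p r) h10
    rw [map_sum, map_zero] at a2
    rw [← a2]
    refine Finset.sum_congr rfl fun i _ => ?_
    rw [iterateFrobenius_def, ← pow_mul, he, ← pow_mul, ← pow_add]
  have h12 := Nat.le_of_dvd (by omega) ((pow_card_pow_eq hi hα _).1 h11)
  rw [hn, e1, ← h4] at h12
  nlinarith

end Pool.Agent.MP_9b2bac_nt
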