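import Mathlib
import Pool.Agent.MP_9b2bac_nt.Shift

set_option autoImplicit false

namespace Pool.Agent.MP_9b2bac_nt.KeptComposite

open Polynomial Finset Pool.Agent.MP_9b2bac_nt

theorem card_le_of_root {K : Type*} [Field K] {g : K[X]} (hg : g ≠ 0) (s : Finset K)
    (h : ∀ x ∈ s, g.eval x = 0) : s.card ≤ g.natDegree := by
  classical
  refine card_le_degree_of_subset_roots fun x hx => ?_
  exact (mem_roots hg).2 (h x hx)

theorem geom_le {q : ℕ} (hq : 3 ≤ q) (m : ℕ) : 2 * ∑ j ∈ range (m + 1), q ^ j ≤ 3 * q ^ m := by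
  induction m with
  | zero => simp
  | succ m IH =>
    rw [Finset.sum_range_succ, pow_succ]
    nlinarith [Nat.mul_le_mul_left (q ^ m) hq]

theorem result (F : Type*) [Field F] [Fintype F] (hq : 3 ≤ Fintype.card F) (p : ℕ) [CharP F p]
    (k : ℕ) (hk : 4 ≤ k) :
    ∃ S : Finset F[X], Fintype.card F ^ k ≤ 4 * (p * k) * S.card ∧
      ∀ P ∈ S, P.Monic ∧ Irreducible P ∧ P.natDegree = p * k ∧
        ∃ M₁ M₂ : F[X], 0 < M₁.natDegree ∧ 0 < M₂.natDegree ∧
          carlitz (X : F[X]) P 1 = M₁ * M₂ := by
  classical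
  have hpp : p.Prime := CharP.char_is_prime F p
  have : Fact p.Prime := ⟨hpp⟩
  have hp1 := hpp.one_lt
  obtain ⟨e, -, he⟩ := FiniteField.card F p
  let K := AlgebraicClosure F
  have : CharP K p := charP_of_injective_algebraMap (algebraMap F K).injective p
  set q := Fintype.card F with hqd
  have hqk : q ^ k = p ^ (e * k) := by rw [he, pow_mul]
  have hek : 0 < (e : ℕ) * k := Nat.mul_pos e.pos (by omega)
  have hne : ∀ j, j ≠ 0 → (X ^ q ^ j - X : K[X]) ≠ 0 := fun j hj =>
    FiniteField.X_pow_card_pow_sub_X_ne_zero K hj (by omega)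
  have hdg : ∀ j, j ≠ 0 → (X ^ q ^ j - X : K[X]).natDegree = q ^ j := fun j hj =>
    FiniteField.X_pow_card_pow_sub_X_natDegree_eq K hj (by omega)
  let S₀ : Finset K := (X ^ q ^ k - X : K[X]).roots.toFinset
  have hS₀ : ∀ x, x ∈ S₀ ↔ x ^ q ^ k = x := by
    intro x
    simp [S₀, mem_roots (hne k (by omega)), sub_eq_zero]
  have cS₀ : S₀.card = q ^ k := by
    have hsep : (X ^ q ^ k - X : K[X]).Separable :=
      galois_poly_separable p _ (by rw [hqk]; exact dvd_pow_self p hek.ne')
    rw [Multiset.toFinset_card_of_nodup (nodup_roots hsep),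
      ← (IsAlgClosed.splits _).natDegree_eq_card_roots, hdg k (by omega)]
  let T : K → K := fun x => ∑ s ∈ range (e * k), x ^ p ^ s
  let B₁ := S₀.filter fun x => T x = 0
  let B₂ := (Icc 1 (k / 2)).biUnion fun j => S₀.filter fun x => x ^ q ^ j = x
  have cB₁ : 2 * B₁.card ≤ q ^ k := by
    obtain ⟨m, hm⟩ : ∃ m, (e : ℕ) * k = m + 1 := ⟨e * k - 1, by omega⟩
    have hlt : (∑ s ∈ range m, (X : K[X]) ^ p ^ s).degree < ((X : K[X]) ^ p ^ m).degree := by
      refine (degree_sum_le _ _).trans_lt ?_
      rw [degree_X_pow, Finset.sup_lt_iff (WithBot.bot_lt_coe _)]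
      intro s hs
      rw [degree_X_pow]
      exact_mod_cast Nat.pow_lt_pow_right hp1 (mem_range.1 hs)
    have h1 := card_le_of_root ((monic_X_pow (R := K) (p ^ m)).add_of_right hlt).ne_zero B₁ (by
      intro x hx
      have := (mem_filter.1 hx).2
      simp only [T, hm, Finset.sum_range_succ] at this
      simpa [eval_finsetSum] using this)
    rw [natDegree_add_eq_right_of_degree_lt hlt, natDegree_X_pow] at h1
    rw [hqk, hm, pow_succ]
    nlinarith [Nat.mul_le_mul_left (p ^ m) hpp.two_le]
  have cB₂ : 4 * B₂.card ≤ q ^ k := by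
    have h1 : B₂.card ≤ ∑ j ∈ range (k / 2 + 1), q ^ j := by
      refine card_biUnion_le.trans ((Finset.sum_le_sum (g := fun j => q ^ j) fun j hj => ?_).trans
        (Finset.sum_le_sum_of_subset fun j hj => ?_))
      · have hj' : j ≠ 0 := by have := (mem_Icc.1 hj).1; omega
        exact (card_le_of_root (hne j hj') _ fun x hx => by
          simp [(mem_filter.1 hx).2]).trans (hdg j hj').le
      · have := (mem_Icc.1 hj).2
        exact mem_range.2 (by omega)
    have h2 := geom_le hq (k / 2)
    have h3 : q ^ (k / 2) * q ^ 2 ≤ q ^ k := by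
      rw [← pow_add]; exact Nat.pow_le_pow_right (by omega) (by omega)
    have h4 : q ^ (k / 2) * 9 ≤ q ^ (k / 2) * q ^ 2 := Nat.mul_le_mul_left _ (by nlinarith)
    omega
  let G := S₀ \ (B₁ ∪ B₂)
  have cG : q ^ k ≤ 4 * G.card := by
    have h1 := le_card_sdiff (B₁ ∪ B₂) S₀
    have h2 := card_union_le B₁ B₂
    simp only [G]
    omega
  have hAS : ∀ η : K, ∃ α : K, α ^ p - α = η := by
    intro η
    have hlt : (X + C η : K[X]).degree < ((X : K[X]) ^ p).degree := by
      rw [degree_X_add_C, degree_X_pow]; exact_mod_cast hp1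
    obtain ⟨α, hα⟩ := IsAlgClosed.exists_root (X ^ p - (X + C η) : K[X]) (by
      rw [degree_sub_eq_left_of_degree_lt hlt, degree_X_pow]
      exact_mod_cast hpp.ne_zero)
    simp only [IsRoot, eval_sub, eval_pow, eval_X, eval_add, eval_C] at hα
    exact ⟨α, by linear_combination hα⟩
  choose A hA using hAS
  have hint : ∀ x : K, IsIntegral F x := fun x => Algebra.IsIntegral.isIntegral x
  have main : ∀ η ∈ G, (minpoly F (A η)).natDegree = p * k ∧
      ¬ Irreducible (carlitz (X : F[X]) (minpoly F (A η)) 1) := by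
    intro η hη
    obtain ⟨h0, h1⟩ := mem_sdiff.1 hη
    rw [mem_union, not_or] at h1
    have hT : T η ≠ 0 := fun h => h1.1 (mem_filter.2 ⟨h0, h⟩)
    rw [hS₀] at h0
    set α := A η with hα
    have hαη : α ^ p - α = η := hA η
    have hPi := minpoly.irreducible (hint α)
    have hPα := minpoly.aeval F α
    have hgi := minpoly.irreducible (hint η)
    have hgη := minpoly.aeval F η
    have t1 : α ^ q ^ k = α + T η := by
      have := telescope p α (e * k)
      rw [hαη, ← hqk] at this
      simp only [T, this]; ring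
    have hfr : ∀ m (x y : K), (x + y) ^ q ^ m = x ^ q ^ m + y ^ q ^ m := by
      intro m x y
      rw [he, ← pow_mul, add_pow_char_pow]
    have t2 : T η ^ p = T η := by
      have a1 := hfr k η α
      have a2 : η + α = α ^ p := by linear_combination -hαη
      rw [a2, ← pow_mul, mul_comm, pow_mul, t1, h0, add_pow_char] at a1
      linear_combination a1 - hαη
    have t3 : ∀ m, T η ^ p ^ m = T η := by
      intro m
      induction m with
      | zero => simp
      | succ m IH => rw [pow_succ, pow_mul, IH, t2]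
    have t4 : ∀ l : ℕ, α ^ q ^ (k * l) = α + l * T η := by
      intro l
      induction l with
      | zero => simp
      | succ l IH =>
        rw [Nat.mul_succ, pow_add, pow_mul, IH, hfr, t1, mul_pow, hqk, t3]
        have : (l : K) ^ p ^ (e * k) = l := map_natCast (iterateFrobenius K p (e * k)) l
        rw [this]; push_cast; ring
    have d1 : (minpoly F η).natDegree = k := by
      have a1 := (pow_card_pow_eq hgi hgη k).1 h0
      by_contra hne'
      obtain ⟨r, hr⟩ := a1
      have hpos := hgi.natDegree_pos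
      have hr2 : 2 ≤ r := by
        rcases r with _ | _ | r
        · omega
        · omega
        · omega
      refine h1.2 (mem_biUnion.2 ⟨(minpoly F η).natDegree, mem_Icc.2 ⟨hpos, ?_⟩,
        mem_filter.2 ⟨(hS₀ η).2 h0, (pow_card_pow_eq hgi hgη _).2 dvd_rfl⟩⟩)
      rw [Nat.le_div_iff_mul_le (by norm_num), hr]
      exact Nat.mul_le_mul_left _ hr2
    have d2 : (minpoly F α).natDegree = p * k := by
      refine Nat.dvd_antisymm ((pow_card_pow_eq hPi hPα _).1 ?_) ?_
      · rw [mul_comm, t4]; simp
      · have a1 := (pow_card_pow_eq hPi hPα _).2 dvd_rfl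
        have a2 : η ^ q ^ (minpoly F α).natDegree = η := by
          have a3 := hfr (minpoly F α).natDegree η α
          have a4 : η + α = α ^ p := by linear_combination -hαη
          rw [a4, ← pow_mul, mul_comm, pow_mul, a1] at a3
          linear_combination -a3 + hαη
        obtain ⟨l, hl⟩ := (pow_card_pow_eq hgi hgη _).1 a2
        rw [d1] at hl
        rw [hl, t4, add_eq_left, mul_eq_zero] at a1
        obtain ⟨l', rfl⟩ := (CharP.cast_eq_zero_iff K p l).1 (a1.resolve_right hT)
        exact ⟨l', by rw [hl]; ring⟩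
    refine ⟨d2, ?_⟩
    obtain ⟨z, hz'⟩ : T η ∈ (algebraMap F K).range := by
      rw [← minpoly.natDegree_eq_one_iff, ← Nat.dvd_one,
        ← pow_card_pow_eq (minpoly.irreducible (hint _)) (minpoly.aeval F _), pow_one, ← hqd, he, t3]
    refine shift_not_irreducible hq p (c := z) (fun h => hT (by rw [← hz', h, map_zero]))
      ((algebraMap F K).injective (by rw [map_pow, hz', t2])) (minpoly.monic (hint α))
      (by rw [d2]; nlinarith) ?_
    refine (eq_of_monic_of_dvd_of_natDegree_le (minpoly.monic (hint α))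
      ((minpoly.monic (hint α)).comp_X_add_C _) (minpoly.dvd F α ?_) ?_)
    · rw [aeval_comp, map_add, aeval_X, aeval_C, hz', ← t1]
      have := aeval_algHom_apply (FiniteField.frobeniusAlgHom F K ^ k) α (minpoly F α)
      simp only [AlgHom.coe_pow, FiniteField.coe_frobeniusAlgHom, pow_iterate] at this
      rw [this, hPα, zero_pow (by positivity)]
    · rw [natDegree_comp, natDegree_X_add_C, mul_one]
  refine ⟨G.image fun η => minpoly F (A η), ?_, fun P hP => ?_⟩
  · have := card_le_mul_card_image (f := fun η => minpoly F (A η)) G (p * k) (by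
      intro P hP
      obtain ⟨η, hη, rfl⟩ := mem_image.1 hP
      rw [← card_image_of_injOn (f := A) (fun x _ y _ h => by rw [← hA x, ← hA y, h]),
        ← (main η hη).1, ← natDegree_map (algebraMap F K)]
      refine card_le_of_root (Polynomial.map_ne_zero (minpoly.ne_zero (hint _))) _ fun x hx => ?_
      obtain ⟨y, hy, rfl⟩ := mem_image.1 hx
      rw [eval_map_algebraMap, ← (mem_filter.1 hy).2, minpoly.aeval])
    nlinarith
  · obtain ⟨η, hη, rfl⟩ := mem_image.1 hP
    obtain ⟨h1, h2⟩ := main η hη
    refine ⟨minpoly.monic (hint _), minpoly.irreducible (hint _), h1, exists_split ?_ h2⟩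
    rw [(one_degree hq (minpoly.monic (hint _)) (minpoly.natDegree_pos (hint _))).2]
    positivity

end Pool.Agent.MP_9b2bac_nt.KeptComposite
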