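import Mathlib

set_option autoImplicit false

namespace Pool.Agent.MP_9b2bac_nt.Z

namespace YPair

open Finset Classical

variable {X K : Type} [Group K] [MulAction K X] {σ : Equiv.Perm X}

lemma zp {P : Equiv.Perm X} (h : ∀ x, P (σ x) = σ (P x)) (j : ℤ) (x : X) :
    P ((σ ^ j) x) = (σ ^ j) (P x) :=
  congrFun (congrArg DFunLike.coe (Commute.zpow_right (a := P) (b := σ) (Equiv.ext h) j).eq) x

lemma sc {P : Equiv.Perm X} (h : ∀ x, P (σ x) = σ (P x)) {x y : X} :
    σ.SameCycle (P x) (P y) ↔ σ.SameCycle x y :=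
  exists_congr fun j => by rw [← zp h, P.injective.eq_iff]

/-- `x` and `y` lie in different cycles and some group element exchanges just these cycles. -/
def E (K : Type) [Group K] [MulAction K X] (σ : Equiv.Perm X) (x y : X) : Prop :=
  ¬ σ.SameCycle x y ∧ ∃ h : K, h • x = y ∧ h • y = x ∧
    ∀ w, ¬ σ.SameCycle x w → ¬ σ.SameCycle y w → h • w = w

lemma E.symm {x y : X} (h : E K σ x y) : E K σ y x := by
  obtain ⟨h0, k, h1, h2, h3⟩ := h
  exact ⟨fun h => h0 h.symm, k, h2, h1, fun w a b => h3 w b a⟩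

section

variable (hc : ∀ (k : K) (x : X), k • σ x = σ (k • x))
include hc

lemma zk (k : K) (j : ℤ) (x : X) : k • (σ ^ j) x = (σ ^ j) (k • x) :=
  zp (P := MulAction.toPerm k) (hc k) j x

lemma sk (k : K) {x y : X} : σ.SameCycle (k • x) (k • y) ↔ σ.SameCycle x y :=
  sc (P := MulAction.toPerm k) (hc k)

lemma E.shift {x y : X} (h : E K σ x y) (j : ℤ) : E K σ ((σ ^ j) x) ((σ ^ j) y) := by
  obtain ⟨h0, k, h1, h2, h3⟩ := h
  refine ⟨by simpa using h0, k, by rw [zk hc, h1], by rw [zk hc, h2], fun w a b => h3 w ?_ ?_⟩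
  · simpa using a
  · simpa using b

lemma E.trans {x y z : X} (h : E K σ x y) (h' : E K σ y z) (hxz : ¬ σ.SameCycle x z) :
    E K σ x z := by
  obtain ⟨-, g, g1, g2, g3⟩ := h
  obtain ⟨h0, k, h1, h2, h3⟩ := h'
  have gz := g3 z hxz h0
  refine ⟨hxz, g * k * g⁻¹, ?_, ?_, fun w a b => ?_⟩
  · rw [mul_smul, mul_smul, ← g2, inv_smul_smul, h1, gz]
  · rw [mul_smul, mul_smul, ← gz, inv_smul_smul, h2, g2]
  · rw [mul_smul, mul_smul, h3, smul_inv_smul]
    · rwa [← sk hc g, g2, smul_inv_smul]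
    · rwa [← sk hc g, gz, smul_inv_smul]

lemma conn {T : Set K} (hsw : ∀ t ∈ T, ∃ x y : X, ¬ σ.SameCycle x y ∧ t • x = y ∧ t • y = x ∧
      ∀ w, ¬ σ.SameCycle x w → ¬ σ.SameCycle y w → t • w = w) {k : K}
    (hk : k ∈ Subgroup.closure T) : ∀ w, Relation.ReflTransGen (E K σ) w (k • w) := by
  induction hk using Subgroup.closure_induction with
  | mem t ht =>
    intro w
    obtain ⟨x, y, h0, h1, h2, h3⟩ := hsw t ht
    have he : E K σ x y := ⟨h0, t, h1, h2, h3⟩
    by_cases a : σ.SameCycle x w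
    · obtain ⟨j, rfl⟩ := a
      rw [zk hc, h1]
      exact .single (he.shift hc j)
    by_cases b : σ.SameCycle y w
    · obtain ⟨j, rfl⟩ := b
      rw [zk hc, h2]
      exact .single (he.symm.shift hc j)
    rw [h3 w a b]
  | one => intro w; rw [one_smul]
  | mul g h _ _ h1 h2 => intro w; rw [mul_smul]; exact (h2 w).trans (h1 _)
  | inv g _ h1 =>
    intro w
    have h2 := h1 (g⁻¹ • w)
    rw [smul_inv_smul] at h2
    generalize g⁻¹ • w = v at h2
    induction h2 with
    | refl => rfl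
    | tail _ h ih => exact .head h.symm ih

omit hc in
lemma third (h3 : ∃ x y z : X, ¬ σ.SameCycle x y ∧ ¬ σ.SameCycle x z ∧ ¬ σ.SameCycle y z)
    (x u : X) : ∃ v, ¬ σ.SameCycle x v ∧ ¬ σ.SameCycle u v := by
  obtain ⟨a, b, c, h1, h2, h3⟩ := h3
  by_contra h
  push Not at h
  by_cases ha : σ.SameCycle x a
  · exact h3 ((h b fun e => h1 (ha.symm.trans e)).symm.trans (h c fun e => h2 (ha.symm.trans e)))
  by_cases hb : σ.SameCycle x b
  · exact h2 ((h a ha).symm.trans (h c fun e => h3 (hb.symm.trans e)))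
  · exact h1 ((h a ha).symm.trans (h b hb))

lemma all_E (hcon : ∀ x y, Relation.ReflTransGen (E K σ) x y)
    (h3 : ∃ x y z : X, ¬ σ.SameCycle x y ∧ ¬ σ.SameCycle x z ∧ ¬ σ.SameCycle y z)
    {x y : X} (hxy : ¬ σ.SameCycle x y) : E K σ x y := by
  have out : ∀ z u, E K σ z u → ∃ v, E K σ z v ∧ ¬ σ.SameCycle u v := by
    intro z u hzu
    obtain ⟨v, v1, v2⟩ := third h3 z u
    by_contra hn
    push Not at hn
    have key : ∀ w, Relation.ReflTransGen (E K σ) z w → σ.SameCycle z w ∨ σ.SameCycle u w := by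
      intro w hw
      induction hw with
      | refl => exact Or.inl (.refl _ _)
      | tail _ h ih =>
        rcases ih with ih | ih
        · obtain ⟨j, rfl⟩ := ih.symm
          exact Or.inr (by simpa using hn _ (h.shift hc j))
        · obtain ⟨j, rfl⟩ := ih.symm
          by_contra e
          push Not at e
          exact e.2 (by simpa using hn _ (hzu.trans hc (h.shift hc j) (by simpa using e.1)))
    exact (key v (hcon z v)).elim v1 v2
  have two : ∀ u z z', E K σ x u → E K σ u z → E K σ z z' → ¬ σ.SameCycle x z' → E K σ x z' := by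
    intro u z z' h1 h2 h4 h5
    by_cases a : σ.SameCycle x z
    swap
    · exact (h1.trans hc h2 a).trans hc h4 h5
    by_cases b : σ.SameCycle u z'
    swap
    · exact h1.trans hc (h2.trans hc h4 b) h5
    obtain ⟨v, v1, v2⟩ := out z u h2.symm
    exact (h1.trans hc (h2.trans hc v1 v2) fun e => v1.1 (a.symm.trans e)).trans hc
      (v1.symm.trans hc h4 fun e => v2 (b.trans e.symm)) h5
  have key : ∀ z, Relation.ReflTransGen (E K σ) x z →
      z = x ∨ E K σ x z ∨ ∃ u, E K σ x u ∧ E K σ u z := by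
    intro z hz
    induction hz with
    | refl => exact Or.inl rfl
    | @tail z z' _ h ih =>
      rcases ih with rfl | ih | ⟨u, h1, h2⟩
      · exact Or.inr (Or.inl h)
      · exact Or.inr (Or.inr ⟨z, ih, h⟩)
      · by_cases a : σ.SameCycle x z'
        · exact Or.inr (Or.inr ⟨z, h1.trans hc h2 fun e => h.1 (e.symm.trans a), h⟩)
        · exact Or.inr (Or.inl (two u z z' h1 h2 h a))
  rcases key y (hcon x y) with rfl | h | ⟨u, h1, h2⟩
  · exact absurd (.refl _ _) hxy
  · exact h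
  · exact h1.trans hc h2 hxy

lemma tr2 (htr : ∀ x y : X, ∃ k : K, k • x = y)
    (hE : ∀ x y, ¬ σ.SameCycle x y → E K σ x y)
    (h3 : ∃ x y z : X, ¬ σ.SameCycle x y ∧ ¬ σ.SameCycle x z ∧ ¬ σ.SameCycle y z)
    {a b : X × X} (ha : ¬ σ.SameCycle a.1 a.2) (hb : ¬ σ.SameCycle b.1 b.2) :
    ∃ k : K, k • a = b := by
  have h1 : ∀ x y z, ¬ σ.SameCycle x y → ¬ σ.SameCycle x z → ¬ σ.SameCycle y z →
      ∃ k : K, k • (x, y) = (x, z) := fun x y z h1 h2 h4 => by
    obtain ⟨-, k, k1, -, k2⟩ := hE y z h4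
    exact ⟨k, Prod.ext (k2 x (fun e => h1 e.symm) fun e => h2 e.symm) k1⟩
  obtain ⟨x, y⟩ := a
  obtain ⟨x', z⟩ := b
  obtain ⟨g, rfl⟩ := htr x x'
  have ha' : ¬ σ.SameCycle (g • x) (g • y) := fun e => ha ((sk hc g).1 e)
  by_cases e : σ.SameCycle (g • y) z
  · obtain ⟨v, v1, v2⟩ := third h3 (g • x) z
    obtain ⟨k, hk⟩ := h1 _ _ _ ha' v1 fun e' => v2 (e.symm.trans e')
    obtain ⟨l, hl⟩ := h1 _ _ _ v1 hb fun e' => v2 e'.symm
    exact ⟨l * k * g, by rw [mul_smul, mul_smul, ← hl, ← hk]; rfl⟩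
  · obtain ⟨k, hk⟩ := h1 _ _ _ ha' hb e
    exact ⟨k * g, by rw [mul_smul, ← hk]; rfl⟩

end

lemma cnt [Fintype K] (S : Finset X) (h0 : S.Nonempty) (h1 : ∀ (k : K), ∀ a ∈ S, k • a ∈ S)
    (h2 : ∀ a ∈ S, ∀ b ∈ S, ∃ k : K, k • a = b) {f g : X → X} (hf : ∀ a ∈ S, f a ∈ S)
    (hg : ∀ a ∈ S, g a ∈ S) :
    ∑ k : K, (S.filter fun z => k • f z = g z).card = Fintype.card K := by
  have key : ∀ a ∈ S, ∀ b ∈ S, S.card * (univ.filter fun k : K => k • a = b).card =
      Fintype.card K := by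
    intro a ha b hb
    rw [← card_univ (α := K), card_eq_sum_card_fiberwise (s := univ) (t := S)
      (f := fun k : K => k • a) (fun k _ => h1 k a ha), ← smul_eq_mul, ← sum_const]
    refine sum_congr rfl fun c hc => ?_
    obtain ⟨l, rfl⟩ := h2 b hb c hc
    refine card_bij (fun k _ => l * k) (fun k hk => ?_) (fun _ _ _ _ h => mul_left_cancel h)
      fun k hk => ⟨l⁻¹ * k, ?_, by simp⟩
    · simp only [mem_filter, mem_univ, true_and] at hk ⊢
      rw [mul_smul, hk]
    · simp only [mem_filter, mem_univ, true_and] at hk ⊢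
      rw [mul_smul, hk, inv_smul_smul]
  refine Nat.eq_of_mul_eq_mul_left h0.card_pos ?_
  simp only [card_filter]
  rw [sum_comm, mul_sum, ← smul_eq_mul _ (Fintype.card K), ← sum_const]
  refine sum_congr rfl fun z hz => ?_
  rw [← card_filter, key _ (hf z hz) _ (hg z hz)]

lemma cyc [Fintype X] {n : ℕ} (hn : 0 < n) (hσ : ∀ (x : X) (k : ℤ), (σ ^ k) x = x ↔ (n : ℤ) ∣ k)
    (w : X) : (univ.filter fun v => σ.SameCycle w v).card = n := by
  rw [← card_range n]
  symm
  refine card_bij (fun j _ => (σ ^ (j : ℤ)) w) (fun j _ => mem_filter.2 ⟨mem_univ _, _, rfl⟩)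
    (fun i hi j hj h => ?_) fun v hv => ?_
  · have h1 : (σ ^ (-(j : ℤ) + i)) w = w := by
      rw [zpow_add, Equiv.Perm.mul_apply, h, ← Equiv.Perm.mul_apply, ← zpow_add]
      simp
    have := Int.eq_zero_of_abs_lt_dvd ((hσ _ _).1 h1) (by
      have := mem_range.1 hi
      have := mem_range.1 hj
      rw [abs_lt]
      omega)
    omega
  · obtain ⟨j, rfl⟩ := (mem_filter.1 hv).2
    have h1 := Int.emod_nonneg j (show (n : ℤ) ≠ 0 by omega)
    have h2 := Int.emod_lt_of_pos j (show (0 : ℤ) < n by omega)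
    refine ⟨(j % n).toNat, mem_range.2 (by omega), ?_⟩
    rw [Int.toNat_of_nonneg h1]
    conv_rhs => rw [← Int.emod_add_mul_ediv j n, zpow_add, Equiv.Perm.mul_apply,
      (hσ w _).2 (dvd_mul_right _ _)]

end YPair

open YPair Finset in
theorem pairs (n : ℕ) (hn : 0 < n) (X : Type) [Finite X] (K : Type) [Group K] [Finite K]
    [MulAction K X] (σ : Equiv.Perm X) (T : Set K)
    (hσ : ∀ (x : X) (k : ℤ), (σ ^ k) x = x ↔ (n : ℤ) ∣ k)
    (hc : ∀ (k : K) (x : X), k • σ x = σ (k • x))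
    (hT : ∀ t ∈ T, ∀ k : K, k * t * k⁻¹ ∈ T)
    (htr : ∀ x y : X, ∃ k ∈ Subgroup.closure T, k • x = y)
    (hsw : ∀ t ∈ T, ∃ x y : X, ¬ σ.SameCycle x y ∧ t • x = y ∧ t • y = x ∧
      ∀ w, ¬ σ.SameCycle x w → ¬ σ.SameCycle y w → t • w = w)
    (h3 : ∃ x y z : X, ¬ σ.SameCycle x y ∧ ¬ σ.SameCycle x z ∧ ¬ σ.SameCycle y z)
    (F : Equiv.Perm X) (hF : ∀ x, F (σ x) = σ (F x)) :
    (1 - 1 / (n : ℝ)) * Nat.card K ≤ {k : K | ∀ x, k • F x ≠ σ x}.ncard ∧
      ({k : K | ∀ x, k • F x ≠ σ x}.ncard : ℝ) ≤ (1 - 1 / (n + 1 : ℝ)) * Nat.card K := by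
  classical
  let _ := Fintype.ofFinite X
  let _ := Fintype.ofFinite K
  have htr' : ∀ x y : X, ∃ k : K, k • x = y := fun x y => (htr x y).imp fun _ h => h.2
  have hE : ∀ x y, ¬ σ.SameCycle x y → E K σ x y := fun x y => all_E hc (fun x y => by
    obtain ⟨k, hk, rfl⟩ := htr x y
    exact conn hc hsw hk x) h3
  let A : K → Finset X := fun k => univ.filter fun z => k • F z = σ z
  let Y : Finset (X × X) := univ.filter fun p => ¬ σ.SameCycle p.1 p.2
  have hY : ∀ p, p ∈ Y ↔ ¬ σ.SameCycle p.1 p.2 := fun p => by simp [Y]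
  obtain ⟨x0, y0, -, h0, -⟩ := id h3
  have h1 : ∑ k : K, (A k).card = Fintype.card K := by
    convert cnt (K := K) univ ⟨x0, mem_univ _⟩ (fun _ _ _ => mem_univ _)
      (fun a _ b _ => htr' a b) (f := F) (g := σ) (fun _ _ => mem_univ _) fun _ _ => mem_univ _
  have h2 : ∑ k : K, (Y.filter fun z => k • Prod.map F F z = Prod.map σ σ z).card =
      Fintype.card K := by
    convert cnt (K := K) Y ⟨(x0, y0), (hY _).2 h0⟩
      (fun k a ha => (hY _).2 fun e => (hY _).1 ha ((sk hc k).1 e))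
      (fun a ha b hb => tr2 hc htr' hE h3 ((hY _).1 ha) ((hY _).1 hb)) (f := Prod.map F F)
      (g := Prod.map σ σ) (fun a ha => (hY _).2 fun e => (hY _).1 ha ((sc hF).1 e))
      fun a ha => (hY _).2 fun e => (hY _).1 ha ((sc fun _ => rfl).1 e)
  have hA : ∀ k, ∀ w ∈ A k, ((A k).filter fun v => σ.SameCycle w v).card = n := by
    intro k w hw
    rw [← cyc hn hσ w]
    congr 1
    ext v
    simp only [A, mem_filter, mem_univ, true_and, and_iff_right_iff_imp] at hw ⊢
    rintro ⟨j, rfl⟩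
    rw [zp hF, zk hc, hw, zp (P := σ) fun _ => rfl]
  have h4 : ∀ k, (A k).card ^ 2 =
      (Y.filter fun z => k • Prod.map F F z = Prod.map σ σ z).card + n * (A k).card := by
    intro k
    rw [sq, ← card_product, ← card_filter_add_card_filter_not (s := A k ×ˢ A k)
      fun p => σ.SameCycle p.1 p.2, add_comm]
    congr 1
    · congr 1
      ext p
      simp [A, Y, Prod.ext_iff, and_comm]
    · rw [card_filter, sum_product, mul_comm, ← smul_eq_mul, ← sum_const]
      exact sum_congr rfl fun w hw => by rw [← card_filter, hA k w hw]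
  set s := univ.filter fun k : K => (A k).Nonempty with hs
  have h5 : ∑ k ∈ s, (A k).card = Fintype.card K := by
    rw [← h1]
    exact sum_subset (subset_univ s) fun k _ hk => by simpa [hs] using hk
  have h6 : s.card * n ≤ Fintype.card K := by
    rw [← h5, ← smul_eq_mul]
    refine card_nsmul_le_sum _ _ _ fun k hk => ?_
    obtain ⟨w, hw⟩ := (mem_filter.1 hk).2
    exact (hA k w hw).ge.trans (card_filter_le _ _)
  have h7 : Fintype.card K ≤ s.card * (n + 1) := by
    have h8 := sq_sum_le_card_mul_sum_sq (s := s) (f := fun k => (A k).card)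
    have h9 : ∑ k ∈ s, (A k).card ^ 2 ≤ (n + 1) * Fintype.card K := by
      refine (sum_le_sum_of_subset (subset_univ s)).trans_eq ?_
      simp only [h4, sum_add_distrib, ← mul_sum, h1, h2]
      ring
    rw [h5, sq] at h8
    exact Nat.le_of_mul_le_mul_right (h8.trans ((Nat.mul_le_mul_left _ h9).trans_eq
      (mul_assoc _ _ _).symm)) Fintype.card_pos
  have h10 : {k : K | ∀ x, k • F x ≠ σ x}.ncard + s.card = Fintype.card K := by
    rw [← card_univ, ← card_filter_add_card_filter_not (s := univ) fun k : K => (A k).Nonempty,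
      add_comm (card _), ← Set.ncard_coe_finset (univ.filter fun k : K => ¬ (A k).Nonempty)]
    congr 2
    ext k
    simp [A]
  rw [Nat.card_eq_fintype_card]
  have e6 : (s.card : ℝ) * n ≤ Fintype.card K := by exact_mod_cast h6
  have e7 : (Fintype.card K : ℝ) ≤ s.card * (n + 1) := by exact_mod_cast h7
  have e10 : ({k : K | ∀ x, k • F x ≠ σ x}.ncard : ℝ) + s.card = Fintype.card K := by
    exact_mod_cast h10
  have hn' : (0 : ℝ) < n := by exact_mod_cast hn
  rw [← le_div_iff₀ hn'] at e6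
  rw [← div_le_iff₀ (by linarith)] at e7
  rw [sub_mul, sub_mul, one_mul, one_div_mul_eq_div, one_div_mul_eq_div]
  constructor <;> linarith

end Pool.Agent.MP_9b2bac_nt.Z
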