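import Mathlib

/- Words, markers and the zone used in the density zero theorem. -/

set_option autoImplicit false

namespace Pool.Agent.MP_9b2bac_nt.Z

open Classical

/-- Two-sided sequences of letters. -/
abbrev Seq (d : ℕ) := ℤ → Fin d

variable {d : ℕ}

/-- The shift. -/
def sh (s : Seq d) : Seq d := fun i => s (i + 1)

/-- Position `i` is followed by `j` letters `u` and then the letter `v`. -/
def Hit (u v : Fin d) (j : ℕ) (s : Seq d) (i : ℤ) : Prop :=
  (∀ k : ℕ, 1 ≤ k → k ≤ j → s (i + k) = u) ∧ s (i + j + 1) = v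

/-- The marker map: exchange `u` and `v` at every position followed by `u^j v`. -/
noncomputable def mk (u v : Fin d) (j : ℕ) (s : Seq d) : Seq d :=
  fun i => if Hit u v j s i then Equiv.swap u v (s i) else s i

/-- Periodic of period `n > 0` and using every letter. -/
def Per (n : ℕ) (s : Seq d) : Prop :=
  0 < n ∧ (∀ i, s (i + n) = s i) ∧ Function.Surjective s

/-- The words of the levels in `I`. -/
def W (d : ℕ) (I : Finset ℕ) : Type := {s : Seq d // ∃ n ∈ I, Per n s}

theorem Per.sh {n : ℕ} {s : Seq d} (h : Per n s) : Per n (sh s) :=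
  ⟨h.1, fun i => by
    show s (i + n + 1) = s (i + 1)
    rw [show i + n + 1 = i + 1 + n by ring, h.2.1], fun a => by
    obtain ⟨i, hi⟩ := h.2.2 a
    exact ⟨i - 1, by simpa [Z.sh] using hi⟩⟩

theorem Per.unsh {n : ℕ} {s : Seq d} (h : Per n s) : Per n (fun i => s (i - 1)) :=
  ⟨h.1, fun i => by
    show s (i + n - 1) = s (i - 1)
    rw [show i + n - 1 = i - 1 + n by ring, h.2.1], fun a => by
    obtain ⟨i, hi⟩ := h.2.2 a
    exact ⟨i + 1, by simpa using hi⟩⟩

theorem Per.zper {n : ℕ} {s : Seq d} (h : Per n s) (i k : ℤ) : s (i + k * n) = s i := by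
  induction k using Int.induction_on with
  | zero => simp
  | succ k ih => rw [show i + ((k : ℤ) + 1) * n = i + k * n + n by ring, h.2.1, ih]
  | pred k ih => rw [← h.2.1, show i + (-(k : ℤ) - 1) * n + n = i + -k * n by ring, ih]

theorem Per.emod {n : ℕ} {s : Seq d} (h : Per n s) (i : ℤ) : s (i % n) = s i := by
  rw [← h.zper (i % n) (i / n), Int.emod_add_ediv_mul]

theorem finite_per (n : ℕ) : {s : Seq d | Per n s}.Finite := by
  refine Set.Finite.of_finite_image (f := fun s (k : Fin n) => s (k : ℕ)) (Set.toFinite _) ?_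
  intro s hs t ht hst
  funext i
  have hn : (0 : ℤ) < n := by exact_mod_cast hs.1
  have h0 := Int.emod_nonneg i hn.ne'
  have h1 := Int.emod_lt_of_pos i hn
  have := congrFun hst ⟨(i % n).toNat, by omega⟩
  simp only [Int.toNat_of_nonneg h0] at this
  rw [← hs.emod, ← ht.emod, this]

instance (I : Finset ℕ) : Finite (W d I) := by
  have : {s : Seq d | ∃ n ∈ I, Per n s}.Finite := by
    refine (I.finite_toSet.biUnion fun n _ => finite_per (d := d) n).subset ?_
    rintro s ⟨n, hn, h⟩
    exact Set.mem_biUnion hn h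
  exact this.to_subtype

/-- The shift as a permutation of the words. -/
def shW (d : ℕ) (I : Finset ℕ) : Equiv.Perm (W d I) where
  toFun s := ⟨sh s.1, let ⟨n, hn, h⟩ := s.2; ⟨n, hn, h.sh⟩⟩
  invFun s := ⟨fun i => s.1 (i - 1), let ⟨n, hn, h⟩ := s.2; ⟨n, hn, h.unsh⟩⟩
  left_inv s := Subtype.ext (funext fun i => by simp [sh])
  right_inv s := Subtype.ext (funext fun i => by simp [sh])

theorem shW_val (I : Finset ℕ) (s : W d I) : (shW d I s).1 = sh s.1 := rfl

/-- The letter of slot `k` of the zone; `L d (d - 1) = 0` is the filler letter. -/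
def L (d : ℕ) [NeZero d] (k : ℕ) : Fin d := Fin.ofNat d (k + 1)

/-- The markers that are used. -/
def Used [NeZero d] (u v : Fin d) (j : ℕ) : Prop :=
  (∃ r t, r < t ∧ t ≤ d - 1 ∧ u = L d r ∧ v = L d t ∧ j = 1) ∨ (u = 0 ∧ v ≠ 0 ∧ 1 ≤ j)

/-- Equivalence of words of period `n` generated by the used markers. -/
def Rel [NeZero d] (n : ℕ) : Seq d → Seq d → Prop :=
  Relation.EqvGen fun s t => Per n s ∧ ∃ u v j, Used u v j ∧ t = mk u v j s

/-- At position `i` stands the zone `L0 L0 L1 L1 ...`, followed by `0` and preceded by at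
least `J` letters `0`. -/
def Struct [NeZero d] (s : Seq d) (i : ℤ) (J : ℕ) : Prop :=
  (∀ k : ℕ, k < 2 * (d - 1) → s (i + k) = L d (k / 2)) ∧ s (i + (2 * (d - 1) : ℕ)) = 0 ∧
    ∀ k : ℕ, 1 ≤ k → k ≤ J → s (i - k) = 0

/-- The canonical word of period `n` with its zone at position `i`. -/
def can (d : ℕ) [NeZero d] (n : ℕ) (i : ℤ) : Seq d := fun x =>
  if (x - i) % n < (2 * (d - 1) : ℕ) then L d (((x - i) % n).toNat / 2) else 0

end Pool.Agent.MP_9b2bac_nt.Z
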