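import Mathlib
import Pool.Agent.MP_9b2bac_nt.ZDefs

set_option autoImplicit false

namespace Pool.Agent.MP_9b2bac_nt.Z

variable {d : ℕ}

namespace ZSweep

section Basic

variable {u v : Fin d} {j : ℕ} {s : Seq d} {x : ℤ}

theorem mk_not (h : ¬ Hit u v j s x) : mk u v j s x = s x := if_neg h

theorem mk_hit (h : Hit u v j s x) : mk u v j s x = Equiv.swap u v (s x) := if_pos h

theorem mk_mid (y : ℤ) (h1 : x < y) (h2 : y ≤ x + j) (h : s y ≠ u) : mk u v j s x = s x :=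
  mk_not fun hh => h (by
    have := hh.1 (y - x).toNat (by omega) (by omega)
    rwa [show x + ((y - x).toNat : ℤ) = y by omega] at this)

theorem mk_last (y : ℤ) (hy : y = x + j + 1) (h : s y ≠ v) : mk u v j s x = s x :=
  mk_not fun hh => h (hy ▸ hh.2)

theorem mk_oth (h1 : s x ≠ u) (h2 : s x ≠ v) : mk u v j s x = s x := by
  by_cases h : Hit u v j s x
  · rw [mk_hit h, Equiv.swap_apply_of_ne_of_ne h1 h2]
  · exact mk_not h

theorem hit_of (h1 : ∀ y, x < y → y ≤ x + j → s y = u) (y : ℤ) (hy : y = x + j + 1)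
    (h2 : s y = v) : Hit u v j s x :=
  ⟨fun k k1 k2 => h1 _ (by omega) (by omega), hy ▸ h2⟩

theorem hit_one (y z : ℤ) (hy : y = x + 1) (hz : z = x + 2) (h1 : s y = u) (h2 : s z = v) :
    Hit u v 1 s x :=
  hit_of (fun w w1 w2 => by rwa [show w = y by push_cast at w2; omega]) z
    (by push_cast; omega) h2

theorem exists_last {n : ℕ} (h : Per n s) (a : Fin d) (x : ℤ) :
    ∃ z, z ≤ x ∧ s z = a ∧ ∀ w, z < w → w ≤ x → s w ≠ a := by
  obtain ⟨y, hy⟩ := h.2.2 a
  have hn : (1 : ℤ) ≤ n := by exact_mod_cast h.1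
  obtain ⟨z, hz, hmax⟩ := Int.exists_greatest_of_bdd (P := fun z => z ≤ x ∧ s z = a)
    ⟨x, fun z hz => hz.1⟩ ⟨y + (-|x - y|) * n, by
      nlinarith [neg_abs_le (x - y), abs_nonneg (x - y)], by rw [h.zper, hy]⟩
  exact ⟨z, hz.1, hz.2, fun w w1 w2 hw => absurd (hmax w ⟨w2, hw⟩) (by omega)⟩

end Basic

end ZSweep

open ZSweep

theorem mk_per (hd : 3 ≤ d) {n : ℕ} {s : Seq d} (h : Per n s) {u v : Fin d} (huv : u ≠ v)
    {j : ℕ} (hj : 1 ≤ j) : Per n (mk u v j s) := by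
  refine ⟨h.1, fun i => ?_, fun a => ?_⟩
  · have e : Hit u v j s (i + n) ↔ Hit u v j s i := by
      unfold Hit
      simp only [add_right_comm i (n : ℤ), add_right_comm _ (n : ℤ) (1 : ℤ), h.2.1]
    by_cases hh : Hit u v j s i
    · rw [mk_hit hh, mk_hit (e.2 hh), h.2.1]
    · rw [mk_not hh, mk_not (fun h' => hh (e.1 h')), h.2.1]
  · obtain ⟨c, hc⟩ : ∃ c : Fin d, c ∉ ({u, v} : Finset (Fin d)) := by
      refine Finset.exists_mem_notMem_of_card_lt_card (t := Finset.univ) ?_ |>.imp fun c hc => hc.2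
      have := Finset.card_le_two (a := u) (b := v)
      rw [Finset.card_univ, Fintype.card_fin]
      omega
    simp only [Finset.mem_insert, Finset.mem_singleton, not_or] at hc
    obtain ⟨x, hx⟩ := h.2.2 c
    obtain ⟨z, z1, z2, z3⟩ := exists_last h a x
    refine ⟨z, Eq.trans ?_ z2⟩
    by_cases hu : a = u
    · subst hu
      have : z ≠ x := fun e => hc.1 (by rw [← hx, ← e, z2])
      exact mk_mid (z + 1) (by omega) (by omega) (z3 _ (by omega) (by omega))
    · by_cases hv : a = v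
      · subst hv
        have : z ≠ x := fun e => hc.2 (by rw [← hx, ← e, z2])
        rcases le_or_gt (z + j + 1) x with h1 | h1
        · exact mk_last _ rfl (z3 _ (by omega) h1)
        · exact mk_mid x (by omega) (by omega) (hx ▸ hc.1)
      · exact mk_oth (z2 ▸ hu) (z2 ▸ hv)

namespace ZSweep

variable [NeZero d] {m : ℕ}

theorem L_val (hm : d = m + 1) {a : ℕ} (ha : a < m) : (L d a).val = a + 1 :=
  Nat.mod_eq_of_lt (by omega)

theorem L_top (hm : d = m + 1) : L d m = 0 := Fin.ext (by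
  show (m + 1) % d = 0
  rw [← hm, Nat.mod_self])

theorem L_ne (hm : d = m + 1) {a : ℕ} (ha : a < m) : L d a ≠ 0 := fun h => by
  have := congrArg Fin.val h
  rw [L_val hm ha] at this
  simp at this

theorem L_ne' (hm : d = m + 1) {a b : ℕ} (ha : a < m) (hb : b < m) (h : a ≠ b) :
    L d a ≠ L d b := fun e => by
  have := congrArg Fin.val e
  rw [L_val hm ha, L_val hm hb] at this
  omega

theorem exists_L (hm : d = m + 1) {e : Fin d} (he : e ≠ 0) : ∃ t, t < m ∧ e = L d t := by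
  have h1 : e.val ≠ 0 := fun h => he (Fin.ext h)
  have h2 := e.2
  exact ⟨e.val - 1, by omega, Fin.ext (by rw [L_val hm (by omega)]; omega)⟩

/-- Reachable by used markers. -/
def Re (n : ℕ) (s t : Seq d) : Prop := Rel n s t ∧ Per n t

theorem Re.refl {n : ℕ} {s : Seq d} (h : Per n s) : Re n s s := ⟨Relation.EqvGen.refl _, h⟩

theorem Re.trans {n : ℕ} {s t w : Seq d} (h : Re n s t) (h' : Re n t w) : Re n s w :=
  ⟨Relation.EqvGen.trans _ _ _ h.1 h'.1, h'.2⟩

theorem Re.short (hm : d = m + 1) (h2 : 2 ≤ m) {n : ℕ} {s t : Seq d} (h : Re n s t) {r a : ℕ}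
    (hr : r < a) (ha : a ≤ m) : Re n s (mk (L d r) (L d a) 1 t) := by
  refine h.trans ⟨Relation.EqvGen.rel _ _ ⟨h.2, _, _, _,
    Or.inl ⟨r, a, hr, by omega, rfl, rfl, rfl⟩, rfl⟩, mk_per (by omega) h.2 ?_ le_rfl⟩
  rcases ha.lt_or_eq with h1 | rfl
  · exact L_ne' hm (by omega) h1 hr.ne
  · rw [L_top hm]; exact L_ne hm hr

theorem Re.long (hm : d = m + 1) (h2 : 2 ≤ m) {n : ℕ} {s t : Seq d} (h : Re n s t) {e : Fin d}
    (he : e ≠ 0) {j : ℕ} (hj : 1 ≤ j) : Re n s (mk 0 e j t) :=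
  h.trans ⟨Relation.EqvGen.rel _ _ ⟨h.2, _, _, _, Or.inr ⟨rfl, he, hj⟩, rfl⟩,
    mk_per (by omega) h.2 he.symm hj⟩

theorem chain_dn (hm : d = m + 1) (h2 : 2 ≤ m) {n t : ℕ} (ht : t ≤ m) (I : ℕ → Seq d → Prop)
    (h : ∀ r, r < t → ∀ s, I (r + 1) s → I r (mk (L d r) (L d t) 1 s)) {s0 : Seq d} :
    ∀ a, a ≤ t → ∀ s, Re n s0 s → I a s → ∃ s', Re n s0 s' ∧ I 0 s' := by
  intro a
  induction a with
  | zero => exact fun _ s h1 h3 => ⟨s, h1, h3⟩
  | succ a ih => exact fun ha s h1 h3 => ih (by omega) _ (h1.short hm h2 ha ht) (h a ha s h3)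

theorem chain_up (hm : d = m + 1) (h2 : 2 ≤ m) {n t : ℕ} (ht : t ≤ m) (I : ℕ → Seq d → Prop)
    (h : ∀ r, r < t → ∀ s, I r s → I (r + 1) (mk (L d r) (L d t) 1 s)) {s0 s : Seq d}
    (h1 : Re n s0 s) (h3 : I 0 s) : ∀ a, a ≤ t → ∃ s', Re n s0 s' ∧ I a s' := by
  intro a
  induction a with
  | zero => exact fun _ => ⟨s, h1, h3⟩
  | succ a ih =>
    intro ha
    obtain ⟨s', k1, k2⟩ := ih (by omega)
    exact ⟨_, k1.short hm h2 ha ht, h a ha s' k2⟩

/-- Same zeros, and same letters in front of zeros. -/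
def Bz (s0 s : Seq d) : Prop :=
  (∀ x, s x = 0 ↔ s0 x = 0) ∧ ∀ x, s0 (x + 1) = 0 → s x = s0 x

theorem Bz.refl (s : Seq d) : Bz s s := ⟨fun _ => Iff.rfl, fun _ _ => rfl⟩

theorem Bz.step {s0 s : Seq d} (h : Bz s0 s) {u v : Fin d} (hu : u ≠ 0) (hv : v ≠ 0) :
    Bz s0 (mk u v 1 s) := by
  refine ⟨fun x => Iff.trans ?_ (h.1 x), fun x hx => Eq.trans ?_ (h.2 x hx)⟩
  · by_cases hh : Hit u v 1 s x
    · rw [mk_hit hh, Equiv.swap_apply_eq_iff, Equiv.swap_apply_of_ne_of_ne hu.symm hv.symm]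
    · rw [mk_not hh]
  · exact mk_mid (x + 1) (by omega) (by push_cast; omega) ((h.1 _).2 hx ▸ hu.symm)

/-- The first `K` letters from `i` on follow the pattern of the zone. -/
def Pat (s : Seq d) (i : ℤ) (K : ℕ) : Prop := ∀ k : ℕ, k < K → s (i + k) = L d (k / 2)

theorem Pat.at {s : Seq d} {i : ℤ} {K : ℕ} (h : Pat s i K) (x : ℤ) (a : ℕ) (h1 : x < i + K)
    (h2 : x = i + 2 * a ∨ x = i + 2 * a + 1) : s x = L d a := by
  have := h (x - i).toNat (by omega)
  rwa [show i + ((x - i).toNat : ℤ) = x by omega, show (x - i).toNat / 2 = a by omega] at this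

theorem pat_of {s : Seq d} {i : ℤ} {K : ℕ}
    (h : ∀ (x : ℤ) (a : ℕ), x < i + K → x = i + 2 * a ∨ x = i + 2 * a + 1 → s x = L d a) :
    Pat s i K := fun k hk => h _ _ (by omega) (by omega)

/-- Zeros on the interval `[a, b)`. -/
def Zer (s : Seq d) (a b : ℤ) : Prop := ∀ x, a ≤ x → x < b → s x = 0

theorem struct_iff (hm : d = m + 1) {s : Seq d} {i : ℤ} {J : ℕ} :
    Struct s i J ↔ Pat s i (2 * m) ∧ s (i + 2 * m) = 0 ∧ Zer s (i - J) i := by
  have e : d - 1 = m := by omega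
  unfold Struct
  rw [e]
  push_cast
  refine and_congr_right fun _ => and_congr_right fun _ => ⟨fun h x x1 x2 => ?_,
    fun h k k1 k2 => h _ (by omega) (by omega)⟩
  have := h (i - x).toNat (by omega) (by omega)
  rwa [show i - ((i - x).toNat : ℤ) = x by omega] at this

/-- The zone with the slots `a, ..., t` set to `L t`. -/
def Zn (m a t : ℕ) (s : Seq d) (i : ℤ) : Prop :=
  (∀ k : ℕ, k < m → s (i + 2 * k) = if a ≤ k ∧ k ≤ t then L d t else L d k) ∧
    (∀ k : ℕ, k < m → s (i + 2 * k + 1) = L d k) ∧ s (i + 2 * m) = 0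

theorem zn_iff {s : Seq d} {i : ℤ} (t : ℕ) :
    Zn m t t s i ↔ Pat s i (2 * m) ∧ s (i + 2 * m) = 0 := by
  have e : ∀ k, (if t ≤ k ∧ k ≤ t then L d t else L d k) = L d k := fun k => by
    split_ifs with h
    · rw [le_antisymm h.1 h.2]
    · rfl
  simp only [Zn, e]
  constructor
  · rintro ⟨h1, h2, h3⟩
    refine ⟨pat_of fun x a x1 x2 => ?_, h3⟩
    push_cast at x1
    rcases x2 with rfl | rfl
    · exact h1 a (by omega)
    · exact h2 a (by omega)
  · rintro ⟨h1, h3⟩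
    exact ⟨fun k hk => h1.at _ k (by push_cast; omega) (Or.inl rfl),
      fun k hk => h1.at _ k (by push_cast; omega) (Or.inr rfl), h3⟩

theorem Zn.ne (hm : d = m + 1) {a t : ℕ} (ht : t < m) {s : Seq d} {i : ℤ} (h : Zn m a t s i)
    (x : ℤ) (h1 : i ≤ x) (h2 : x < i + 2 * m) : s x ≠ 0 := by
  obtain ⟨k, hk⟩ : ∃ k : ℕ, x = i + 2 * k ∨ x = i + 2 * k + 1 := ⟨(x - i).toNat / 2, by omega⟩
  rcases hk with rfl | rfl
  · rw [h.1 k (by omega)]
    split_ifs
    · exact L_ne hm ht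
    · exact L_ne hm (by omega)
  · rw [h.2.1 k (by omega)]
    exact L_ne hm (by omega)

theorem Zn.first {t : ℕ} (ht : t < m) {s : Seq d} {i : ℤ} (h : Zn m 0 t s i) : s i = L d t := by
  simpa using h.1 0 (by omega)

theorem Zn.step (hm : d = m + 1) {r t a b : ℕ} (hr : r < t) (ht : t < m)
    (hab : a = r ∧ b = r + 1 ∨ a = r + 1 ∧ b = r) {s : Seq d} {i : ℤ} (h : Zn m a t s i) :
    Zn m b t (mk (L d r) (L d t) 1 s) i := by
  refine ⟨fun k hk => ?_, fun k hk => Eq.trans ?_ (h.2.1 k hk), Eq.trans (mk_oth ?_ ?_) h.2.2⟩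
  · by_cases hkr : k = r
    · subst hkr
      rw [mk_hit (hit_one _ (i + 2 * ((k + 1 : ℕ) : ℤ)) rfl (by push_cast; ring) (h.2.1 k hk)
        (by rw [h.1 (k + 1) (by omega), if_pos (by omega)])), h.1 k hk]
      rcases hab with ⟨rfl, rfl⟩ | ⟨rfl, rfl⟩
      · rw [if_pos (by omega), if_neg (by omega), Equiv.swap_apply_right]
      · rw [if_neg (by omega), if_pos (by omega), Equiv.swap_apply_left]
    · rw [mk_mid (i + 2 * k + 1) (by omega) (by push_cast; omega)
        (by rw [h.2.1 k hk]; exact L_ne' hm hk (by omega) hkr), h.1 k hk]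
      exact if_congr (by omega) rfl rfl
  · by_cases hk1 : k + 1 = m
    · exact mk_mid (i + 2 * m) (by omega) (by push_cast; omega)
        (by rw [h.2.2]; exact (L_ne hm (by omega)).symm)
    · by_cases hkt : k + 1 = t
      · refine mk_mid (i + 2 * t) (by omega) (by push_cast; omega) ?_
        rw [h.1 t ht, ite_self]
        exact L_ne' hm ht (by omega) hr.ne'
      · refine mk_last (i + 2 * ((k + 1 : ℕ) : ℤ) + 1) (by push_cast; ring) ?_
        rw [h.2.1 (k + 1) (by omega)]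
        exact L_ne' hm (by omega) ht hkt
  · rw [h.2.2]; exact (L_ne hm (by omega)).symm
  · rw [h.2.2]; exact (L_ne hm ht).symm

/-- Restoring the zone. -/
theorem undo (hm : d = m + 1) (h2 : 2 ≤ m) {n t : ℕ} (ht : t < m) {s0 s : Seq d} {i : ℤ}
    (h1 : Re n s0 s) (h : Zn m 0 t s i) :
    ∃ s', Re n s0 s' ∧ Pat s' i (2 * m) ∧ ∀ x, s' x = 0 ↔ s x = 0 := by
  obtain ⟨s', k1, k2, k3⟩ := chain_up hm h2 ht.le (fun a w => Zn m a t w i ∧ Bz s w)
    (fun r hr w hw => ⟨hw.1.step hm hr ht (Or.inl ⟨rfl, rfl⟩),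
      hw.2.step (L_ne hm (by omega)) (L_ne hm ht)⟩) h1 ⟨h, Bz.refl s⟩ t le_rfl
  exact ⟨s', k1, ((zn_iff t).1 k2).1, k3.1⟩

/-- An exact run of zeros. -/
def Run (s : Seq d) (x : ℤ) (g : ℕ) : Prop := Zer s x (x + g) ∧ s (x + g) ≠ 0

theorem exists_run (hm : d = m + 1) (h2 : 2 ≤ m) {n : ℕ} {s : Seq d} (h : Per n s) (x : ℤ) :
    ∃ g, Run s x g := by
  obtain ⟨y, hy⟩ := h.2.2 (L d 0)
  have hn : (1 : ℤ) ≤ n := by exact_mod_cast h.1
  obtain ⟨z, hz, hmin⟩ := Int.exists_least_of_bdd (P := fun z => x ≤ z ∧ s z ≠ 0)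
    ⟨x, fun z hz => hz.1⟩ ⟨y + |x - y| * n, by
      nlinarith [le_abs_self (x - y), abs_nonneg (x - y)], by
      rw [h.zper, hy]; exact L_ne hm (by omega)⟩
  have e : x + ((z - x).toNat : ℤ) = z := by omega
  refine ⟨(z - x).toNat, fun w w1 w2 => ?_, e.symm ▸ hz.2⟩
  by_contra hw
  exact absurd (hmin w ⟨w1, hw⟩) (by omega)

theorem step (hm : d = m + 1) (h2 : 2 ≤ m) {n : ℕ} {s0 s : Seq d} (h0 : Re n s0 s) {i : ℤ}
    {J : ℕ} (hJ : 1 ≤ J) (h : Struct s i J) (g1 : ¬ Run s (i + 2 * m) J)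
    (g2 : ¬ Run s (i + 2 * m) (J + 1)) : ∃ s', Re n s0 s' ∧ Struct s' i (J + 1) := by
  obtain ⟨p1, p2, p3⟩ := (struct_iff hm).1 h
  by_cases he : s (i - J - 1) = 0
  · refine ⟨s, h0, (struct_iff hm).2 ⟨p1, p2, fun x x1 x2 => ?_⟩⟩
    push_cast at x1
    rcases x1.lt_or_eq with x3 | x3
    · exact p3 x (by omega) x2
    · rwa [show x = i - J - 1 by omega]
  obtain ⟨t, ht, et⟩ := exists_L hm he
  obtain ⟨s1, k1, k2, k3⟩ := chain_dn hm h2 ht.le (fun a w => Zn m a t w i ∧ Bz s w)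
    (fun r hr w hw => ⟨hw.1.step hm hr ht (Or.inr ⟨rfl, rfl⟩),
      hw.2.step (L_ne hm (by omega)) (L_ne hm ht)⟩) t le_rfl s h0
    ⟨(zn_iff t).2 ⟨p1, p2⟩, Bz.refl s⟩
  have e1 : s1 (i - J - 1) = L d t := (k3.2 _ (p3 _ (by omega) (by omega))).trans et
  have f1 := k2.first ht
  have nz := L_ne hm ht
  have fix : ∀ x, i - J ≤ x → x ≤ i + 2 * m → mk 0 (L d t) J s1 x = s1 x := by
    intro x x1 x2
    rcases lt_or_ge x i with x3 | x3
    · exact mk_mid i x3 (by omega) (f1 ▸ nz)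
    rcases lt_or_ge (x + 1) (i + 2 * m) with x4 | x4
    · exact mk_mid (x + 1) (by omega) (by omega) (k2.ne hm ht _ (by omega) x4)
    refine mk_not fun hh => ?_
    have a1 : ∀ y, x < y → y ≤ x + J → s y = 0 := fun y y1 y2 => (k3.1 y).1 (by
      have := hh.1 (y - x).toNat (by omega) (by omega)
      rwa [show x + ((y - x).toNat : ℤ) = y by omega] at this)
    have a2 : s (x + J + 1) ≠ 0 := fun h5 => nz (hh.2.symm.trans ((k3.1 _).2 h5))
    rcases x2.lt_or_eq with x5 | x5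
    · exact g1 ⟨fun y y1 y2 => a1 y (by omega) (by omega),
        by rwa [show i + 2 * m + J = x + J + 1 by omega]⟩
    · refine g2 ⟨fun y y1 y2 => ?_, by
        rwa [show i + 2 * m + ((J + 1 : ℕ) : ℤ) = x + J + 1 by push_cast; omega]⟩
      push_cast at y2
      rcases y1.lt_or_eq with y3 | rfl
      · exact a1 y (by omega) (by omega)
      · exact p2
  have z2 : Zn m 0 t (mk 0 (L d t) J s1) i :=
    ⟨fun k hk => (fix _ (by omega) (by omega)).trans (k2.1 k hk),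
      fun k hk => (fix _ (by omega) (by omega)).trans (k2.2.1 k hk),
      (fix _ (by omega) le_rfl).trans k2.2.2⟩
  obtain ⟨s3, q1, q2, q3⟩ := undo hm h2 ht (k1.long hm h2 nz hJ) z2
  refine ⟨s3, q1, (struct_iff hm).2 ⟨q2, (q3 _).2 z2.2.2, fun x x1 x2 => (q3 x).2 ?_⟩⟩
  push_cast at x1
  rcases x1.lt_or_eq with x3 | x3
  · rw [fix x (by omega) (by omega)]
    exact (k3.1 x).2 (p3 x (by omega) x2)
  · rw [show x = i - J - 1 by omega, mk_hit (hit_of (fun y y1 y2 => (k3.1 y).2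
      (p3 y (by omega) (by omega))) i (by omega) f1), e1, Equiv.swap_apply_right]

/-- Shortening the guard run. -/
theorem kick {s : Seq d} {i : ℤ} {J g : ℕ} (hg : 4 ≤ g) (h2 : 2 ≤ m) (p3 : Zer s (i - J) i)
    (f1 : s i ≠ 0) (hr : Run s (i + 2 * m) g) (f2 : s i ≠ s (i + 2 * m + g))
    (hz : ∀ x, i ≤ x → x + 1 < i + 2 * m →
      s (x + 1) ≠ 0 ∨ s x ≠ 0 ∧ s x ≠ s (i + 2 * m + g)) :
    (∀ x, i - J ≤ x → x ≤ i + 2 * m + 3 → x ≠ i + 2 * m + 2 →
      mk 0 (s (i + 2 * m + g)) (g - 3) s x = s x) ∧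
      mk 0 (s (i + 2 * m + g)) (g - 3) s (i + 2 * m + 2) ≠ 0 := by
  constructor
  · intro x x1 x2 x0
    rcases lt_or_ge x i with x3 | x3
    · rcases lt_trichotomy (x + (g - 3 : ℕ) + 1) i with x4 | x4 | x4
      · exact mk_last _ rfl (by rw [p3 _ (by omega) x4]; exact hr.2.symm)
      · exact mk_last i x4.symm f2
      · exact mk_mid i x3 (by omega) f1
    rcases lt_or_ge (x + 1) (i + 2 * m) with x4 | x4
    · rcases hz x x3 x4 with h | h
      · exact mk_mid (x + 1) (by omega) (by omega) h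
      · exact mk_oth h.1 h.2
    rcases lt_or_ge x (i + 2 * m + 2) with x5 | x5
    · exact mk_last _ rfl (by rw [hr.1 _ (by omega) (by omega)]; exact hr.2.symm)
    · exact mk_mid (i + 2 * m + g) (by omega) (by omega) hr.2
  · rw [mk_hit (hit_of (fun y y1 y2 => hr.1 y (by omega) (by omega)) (i + 2 * m + g) (by omega)
      rfl), hr.1 (i + 2 * m + 2) (by omega) (by omega), Equiv.swap_apply_left]
    exact hr.2

theorem short_run (hm : d = m + 1) (h2 : 2 ≤ m) {n : ℕ} {s0 s : Seq d} (h0 : Re n s0 s) {i : ℤ}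
    {J : ℕ} (hJ : 4 ≤ J) (h : Struct s i J) (h1 : s (i + 2 * m + 2) ≠ 0) :
    ∃ s', Re n s0 s' ∧ Struct s' i (J + 1) :=
  step hm h2 h0 (by omega) h (fun hr => h1 (hr.1 _ (by omega) (by omega)))
    (fun hr => h1 (hr.1 _ (by omega) (by push_cast; omega)))

theorem kick_zn (hm : d = m + 1) (h2 : 2 ≤ m) {n t : ℕ} (ht : t < m) {s0 s : Seq d}
    (h0 : Re n s0 s) {i : ℤ} {J g : ℕ} (hJ : 4 ≤ J) (hg : 4 ≤ g) (hz : Zn m 0 t s i)
    (p3 : Zer s (i - J) i) (hr : Run s (i + 2 * m) g) (f2 : L d t ≠ s (i + 2 * m + g)) :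
    ∃ s', Re n s0 s' ∧ Struct s' i (J + 1) := by
  obtain ⟨fix, k2⟩ := kick hg h2 p3 (hz.ne hm ht i le_rfl (by omega)) hr (hz.first ht ▸ f2)
    fun x x1 x2 => Or.inl (hz.ne hm ht _ (by omega) x2)
  have z2 : Zn m 0 t (mk 0 (s (i + 2 * m + g)) (g - 3) s) i :=
    ⟨fun k hk => (fix _ (by omega) (by omega) (by omega)).trans (hz.1 k hk),
      fun k hk => (fix _ (by omega) (by omega) (by omega)).trans (hz.2.1 k hk),
      (fix _ (by omega) (by omega) (by omega)).trans hz.2.2⟩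
  obtain ⟨s3, q1, q2, q3⟩ := undo hm h2 ht (h0.long hm h2 hr.2 (by omega : 1 ≤ g - 3)) z2
  refine short_run hm h2 q1 hJ ((struct_iff hm).2 ⟨q2, (q3 _).2 z2.2.2, fun x x1 x2 =>
    (q3 x).2 ?_⟩) fun h5 => k2 ((q3 _).1 h5)
  rw [fix x x1 (by omega) (by omega)]
  exact p3 x x1 x2

theorem Run.bz {s w : Seq d} (h : Bz s w) {x : ℤ} {g : ℕ} (hr : Run s x g) : Run w x g :=
  ⟨fun y y1 y2 => (h.1 y).2 (hr.1 y y1 y2), fun h1 => hr.2 ((h.1 _).1 h1)⟩

/-- The invariant of a zone that does not react to the chain of markers. -/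
def Stk (t a : ℕ) (s : Seq d) (i : ℤ) : Prop :=
  Pat s i (2 * t - 1) ∧ (a = t → ¬ (s (i + 2 * t - 1) = L d (t - 1) ∧ s (i + 2 * t) = L d t))

theorem Stk.step (hm : d = m + 1) {r t : ℕ} (hr : r < t) (ht : t < m) {s : Seq d} {i : ℤ}
    (h : Stk t (r + 1) s i) : Stk t r (mk (L d r) (L d t) 1 s) i := by
  refine ⟨pat_of fun x a x1 x2 => Eq.trans ?_ (h.1.at x a x1 x2), fun e => absurd e hr.ne⟩
  rcases lt_trichotomy (x + 3) (i + 2 * t) with x3 | x3 | x3
  · refine mk_last (x + 2) (by push_cast; ring) ?_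
    rw [h.1.at _ (a + 1) (by omega) (by push_cast; omega)]
    exact L_ne' hm (by omega) ht (by omega)
  · by_cases hrt : r + 1 = t
    · have := h.1.at x a x1 x2
      exact mk_oth (this ▸ L_ne' hm (by omega) (by omega) (by omega))
        (this ▸ L_ne' hm (by omega) ht (by omega))
    · refine mk_mid (x + 1) (by omega) (by push_cast; omega) ?_
      rw [h.1.at _ (t - 1) (by omega) (by omega)]
      exact L_ne' hm (by omega) (by omega) (by omega)
  · by_cases hrt : r + 1 = t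
    · refine mk_not fun hh => h.2 hrt ⟨?_, ?_⟩
      · have := hh.1 1 le_rfl le_rfl
        rwa [show x + ((1 : ℕ) : ℤ) = i + 2 * t - 1 by omega, show r = t - 1 by omega] at this
      · have := hh.2
        rwa [show x + ((1 : ℕ) : ℤ) + 1 = i + 2 * t by omega] at this
    · have := h.1.at x a x1 x2
      exact mk_oth (this ▸ L_ne' hm (by omega) (by omega) (by omega))
        (this ▸ L_ne' hm (by omega) ht (by omega))

theorem front (hm : d = m + 1) {r t : ℕ} (hr : r < t) (ht : t < m) {s : Seq d} {i : ℤ}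
    (h : Pat s i (2 * (r + 1)) ∧ s (i + 2 * ((r + 1 : ℕ) : ℤ)) = L d t) :
    Pat (mk (L d r) (L d t) 1 s) i (2 * r) ∧ mk (L d r) (L d t) 1 s (i + 2 * r) = L d t := by
  refine ⟨pat_of fun x a x1 x2 => Eq.trans ?_ (h.1.at x a (by omega) x2), ?_⟩
  · refine mk_last (x + 2) (by push_cast; ring) ?_
    rw [h.1.at _ (a + 1) (by omega) (by push_cast; omega)]
    exact L_ne' hm (by omega) ht (by omega)
  · rw [mk_hit (hit_one (i + 2 * r + 1) _ rfl (by push_cast; ring)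
      (h.1.at _ r (by omega) (Or.inr rfl)) h.2), h.1.at _ r (by omega) (Or.inl rfl),
      Equiv.swap_apply_left]

/-- The zone up to its last slot, with two guard zeros. -/
def Tg (m : ℕ) (s : Seq d) (i : ℤ) (J : ℕ) (c : Fin d) : Prop :=
  Pat s i (2 * m - 2) ∧ s (i + 2 * m - 2) = c ∧ s (i + 2 * m - 1) = L d (m - 1) ∧
    s (i + 2 * m) = 0 ∧ Zer s (i - J) i

theorem Tg.step (hm : d = m + 1) (h2 : 2 ≤ m) {s : Seq d} {i : ℤ} {J : ℕ} {c : Fin d}
    (h : Tg m s i J c) (h1 : s (i + 2 * m + 1) = 0) :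
    Tg m (mk (L d (m - 1)) 0 1 s) i J (Equiv.swap (L d (m - 1)) 0 c) := by
  obtain ⟨p1, p2, p3, p4, p5⟩ := h
  have nz : (0 : Fin d) ≠ L d (m - 1) := (L_ne hm (by omega)).symm
  refine ⟨pat_of fun x a x1 x2 => Eq.trans ?_ (p1.at x a x1 x2), ?_, Eq.trans ?_ p3,
    Eq.trans ?_ p4, fun x x1 x2 => Eq.trans ?_ (p5 x x1 x2)⟩
  · have := p1.at x a x1 x2
    exact mk_oth (this ▸ L_ne' hm (by omega) (by omega) (by omega)) (this ▸ L_ne hm (by omega))
  · rw [mk_hit (hit_one _ _ (by ring) (by ring) p3 p4), p2]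
  · exact mk_mid (i + 2 * m) (by omega) (by push_cast; omega) (p4 ▸ nz)
  · exact mk_mid (i + 2 * m + 1) (by omega) (by push_cast; omega) (h1 ▸ nz)
  · refine mk_mid (x + 1) (by omega) (by push_cast; omega) ?_
    rcases lt_or_ge (x + 1) i with x3 | x3
    · rw [p5 _ (by omega) x3]; exact nz
    · rw [p1.at _ 0 (by omega) (by omega)]
      exact L_ne' hm (by omega) (by omega) (by omega)

theorem tg_iff (hm : d = m + 1) (h2 : 2 ≤ m) {s : Seq d} {i : ℤ} {J : ℕ} :
    Tg m s i J (L d (m - 1)) ↔ Struct s i J := by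
  rw [struct_iff hm]
  constructor
  · rintro ⟨p1, p2, p3, p4, p5⟩
    refine ⟨pat_of fun x a x1 x2 => ?_, p4, p5⟩
    rcases lt_trichotomy x (i + 2 * m - 2) with x3 | x3 | x3
    · exact p1.at x a (by omega) x2
    · rw [x3, p2, show a = m - 1 by omega]
    · rw [show x = i + 2 * m - 1 by omega, p3, show a = m - 1 by omega]
  · rintro ⟨p1, p4, p5⟩
    exact ⟨fun k hk => p1 k (by omega), p1.at _ _ (by omega) (by omega),
      p1.at _ _ (by omega) (by omega), p4, p5⟩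

theorem last_case (hm : d = m + 1) (h2 : 2 ≤ m) {n : ℕ} {s : Seq d} (h0 : Per n s) {i : ℤ}
    {J g : ℕ} (hJ : 4 ≤ J) (hg : 4 ≤ g) (h : Struct s i J) (hr : Run s (i + 2 * m) g)
    (t1 : Pat s (i + 2 * m + g) (2 * m - 1))
    (t2 : ¬ (s (i + 2 * m + g + 2 * m - 1) = L d (m - 1) ∧ s (i + 2 * m + g + 2 * m) = 0)) :
    ∃ s', Re n s s' ∧ Struct s' i (J + 1) := by
  have nz : L d (m - 1) ≠ 0 := L_ne hm (by omega)
  have sh1 : ∀ {w : Seq d}, Re n s w → Re n s (mk (L d (m - 1)) 0 1 w) := fun hw => by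
    have := hw.short hm h2 (r := m - 1) (a := m) (by omega) le_rfl
    rwa [L_top hm] at this
  have a1 := ((tg_iff hm h2).2 h).step hm h2 (hr.1 _ (by omega) (by omega))
  rw [Equiv.swap_apply_left] at a1
  have a2 : Pat (mk (L d (m - 1)) 0 1 s) (i + 2 * m + g) (2 * m - 1) := by
    refine pat_of fun x a x1 x2 => Eq.trans ?_ (t1.at x a x1 x2)
    rcases lt_or_ge (x + 2) (i + 2 * m + g + 2 * m) with x3 | x3
    · have := t1.at x a x1 x2
      exact mk_oth (this ▸ L_ne' hm (by omega) (by omega) (by omega)) (this ▸ L_ne hm (by omega))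
    · refine mk_not fun hh => t2 ⟨?_, ?_⟩
      · have := hh.1 1 le_rfl le_rfl
        rwa [show x + ((1 : ℕ) : ℤ) = i + 2 * m + g + 2 * m - 1 by omega] at this
      · have := hh.2
        rwa [show x + ((1 : ℕ) : ℤ) + 1 = i + 2 * m + g + 2 * m by omega] at this
  have a3 : Run (mk (L d (m - 1)) 0 1 s) (i + 2 * m) g := by
    refine ⟨fun x x1 x2 => Eq.trans ?_ (hr.1 x x1 x2), ?_⟩
    · refine mk_mid (x + 1) (by omega) (by push_cast; omega) ?_
      rcases lt_or_ge (x + 1) (i + 2 * m + g) with x3 | x3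
      · rw [hr.1 _ (by omega) x3]; exact nz.symm
      · rw [t1.at _ 0 (by omega) (by omega)]
        exact L_ne' hm (by omega) (by omega) (by omega)
    · rw [a2.at _ 0 (by omega) (by omega)]
      exact L_ne hm (by omega)
  have r1 := sh1 (Re.refl h0)
  generalize mk (L d (m - 1)) 0 1 s = s1 at a1 a2 a3 r1
  obtain ⟨p1, p2, p3, p4, p5⟩ := a1
  obtain ⟨s2, r2, b1, b2, b3⟩ := chain_dn hm h2 (t := m - 1) (by omega)
    (fun a w => Stk (m - 1) a w i ∧ Bz s1 w ∧ Pat w (i + 2 * m + g) (2 * a) ∧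
      w (i + 2 * m + g + 2 * a) = L d (m - 1))
    (fun r hr w hw => ⟨hw.1.step hm hr (by omega),
      hw.2.1.step (L_ne hm (by omega)) nz, front hm hr (by omega) hw.2.2⟩) (m - 1) le_rfl s1 r1
    ⟨⟨fun k hk => p1 k (by omega), fun _ hh => nz (hh.2.symm.trans (by
        rw [← p2]; congr 1; omega))⟩, Bz.refl s1, fun k hk => a2 k (by omega),
      a2.at _ _ (by omega) (Or.inl rfl)⟩
  have f2 : s2 (i + 2 * m + g) = L d (m - 1) := by simpa using b3.2
  have c1 : Tg m s2 i J 0 := by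
    refine ⟨pat_of fun x a x1 x2 => ?_, (b2.1 _).2 p2,
      (b2.2 _ (by rw [← p4]; congr 1; ring)).trans p3, (b2.1 _).2 p4,
      fun x x1 x2 => (b2.1 x).2 (p5 x x1 x2)⟩
    rcases lt_or_ge x (i + 2 * m - 3) with x3 | x3
    · exact b1.1.at x a (by omega) x2
    · exact (b2.2 x (by rw [← p2]; congr 1; omega)).trans (p1.at x a x1 x2)
  have c2 := a3.bz b2
  obtain ⟨q1, q2, q3, q4, q5⟩ := c1
  have f1 : s2 i = L d 0 := q1.at _ 0 (by omega) (by omega)
  obtain ⟨fix, k2⟩ := kick hg h2 q5 (f1 ▸ L_ne hm (by omega)) c2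
    (by rw [f1, f2]; exact L_ne' hm (by omega) (by omega) (by omega)) fun x x1 x2 => by
      rcases lt_trichotomy x (i + 2 * m - 3) with x3 | x3 | x3
      · left
        rw [q1.at (x + 1) ((x + 1 - i).toNat / 2) (by omega) (by omega)]
        exact L_ne hm (by omega)
      · right
        rw [q1.at x (m - 2) (by omega) (by omega), f2]
        exact ⟨L_ne hm (by omega), L_ne' hm (by omega) (by omega) (by omega)⟩
      · left
        rw [show x + 1 = i + 2 * m - 1 by omega, q3]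
        exact nz
  have r3 := r2.long hm h2 c2.2 (by omega : 1 ≤ g - 3)
  generalize mk 0 (s2 (i + 2 * m + g)) (g - 3) s2 = s3 at fix k2 r3
  have c3 : Tg m s3 i J 0 :=
    ⟨fun k hk => (fix _ (by omega) (by omega) (by omega)).trans (q1 k hk),
      (fix _ (by omega) (by omega) (by omega)).trans q2,
      (fix _ (by omega) (by omega) (by omega)).trans q3,
      (fix _ (by omega) (by omega) (by omega)).trans q4,
      fun x x1 x2 => (fix x x1 (by omega) (by omega)).trans (q5 x x1 x2)⟩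
  have c4 := c3.step hm h2
    ((fix _ (by omega) (by omega) (by omega)).trans (c2.1 _ (by omega) (by omega)))
  rw [Equiv.swap_apply_right] at c4
  refine short_run hm h2 (sh1 r3) hJ ((tg_iff hm h2).1 c4) ?_
  rwa [mk_mid (i + 2 * m + 3) (by omega) (by push_cast; omega) (by
    rw [fix _ (by omega) le_rfl (by omega), c2.1 _ (by omega) (by omega)]; exact nz.symm)]

theorem progress (hm : d = m + 1) (h2 : 2 ≤ m) {n : ℕ} {s : Seq d} (h0 : Per n s) {i : ℤ}
    {J : ℕ} (hJ : 4 ≤ J) (h : Struct s i J) : (∃ s', Re n s s' ∧ Struct s' i (J + 1)) ∨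
      s (i - J - 1) ≠ 0 ∧ ∃ g : ℕ, (g = J ∨ g = J + 1) ∧ Struct s (i + 2 * m + g) g := by
  obtain ⟨p1, p2, p3⟩ := (struct_iff hm).1 h
  by_cases he : s (i - J - 1) = 0
  · refine Or.inl ⟨s, Re.refl h0, (struct_iff hm).2 ⟨p1, p2, fun x x1 x2 => ?_⟩⟩
    push_cast at x1
    rcases x1.lt_or_eq with x3 | x3
    · exact p3 x (by omega) x2
    · rwa [show x = i - J - 1 by omega]
  by_cases hc : ¬ Run s (i + 2 * m) J ∧ ¬ Run s (i + 2 * m) (J + 1)
  · exact Or.inl (step hm h2 (Re.refl h0) (by omega) h hc.1 hc.2)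
  obtain ⟨g, hg, hr⟩ : ∃ g : ℕ, (g = J ∨ g = J + 1) ∧ Run s (i + 2 * m) g := by
    by_contra hn
    exact hc ⟨fun h1 => hn ⟨_, Or.inl rfl, h1⟩, fun h1 => hn ⟨_, Or.inr rfl, h1⟩⟩
  have hg4 : 4 ≤ g := by omega
  by_cases c0 : s (i + 2 * m + g) = L d 0
  swap
  · exact Or.inl (kick_zn hm h2 (t := 0) (by omega) (Re.refl h0) hJ hg4
      ((zn_iff 0).2 ⟨p1, p2⟩) p3 hr (Ne.symm c0))
  have key : ∀ t, t < m → (∃ s', Re n s s' ∧ Struct s' i (J + 1)) ∨
      Pat s (i + 2 * m + g) (2 * t + 1) := by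
    intro t
    induction t with
    | zero =>
      exact fun _ => Or.inr (pat_of fun x a x1 x2 => by
        rw [show x = i + 2 * m + g by omega, show a = 0 by omega, c0])
    | succ t ih =>
      intro ht
      rcases ih (by omega) with h1 | h1
      · exact Or.inl h1
      by_cases hc : s (i + 2 * m + g + 2 * ((t + 1 : ℕ) : ℤ) - 1) = L d (t + 1 - 1) ∧
          s (i + 2 * m + g + 2 * ((t + 1 : ℕ) : ℤ)) = L d (t + 1)
      · refine Or.inr (pat_of fun x a x1 x2 => ?_)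
        rcases lt_trichotomy x (i + 2 * m + g + 2 * ((t + 1 : ℕ) : ℤ) - 1) with x3 | x3 | x3
        · exact h1.at x a (by omega) x2
        · rw [x3, hc.1, show a = t + 1 - 1 by omega]
        · rw [show x = i + 2 * m + g + 2 * ((t + 1 : ℕ) : ℤ) by omega, hc.2,
            show a = t + 1 by omega]
      · obtain ⟨s1, k1, k2, k3, k4⟩ := chain_dn hm h2 ht.le
          (fun a w => Zn m a (t + 1) w i ∧ Bz s w ∧ Stk (t + 1) a w (i + 2 * m + g))
          (fun r hr w hw => ⟨hw.1.step hm hr ht (Or.inr ⟨rfl, rfl⟩),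
            hw.2.1.step (L_ne hm (by omega)) (L_ne hm ht), hw.2.2.step hm hr ht⟩) (t + 1) le_rfl s
          (Re.refl h0) ⟨(zn_iff _).2 ⟨p1, p2⟩, Bz.refl s, fun k hk => h1 k (by omega),
            fun _ => hc⟩
        refine Or.inl (kick_zn hm h2 ht k1 hJ hg4 k2 (fun x x1 x2 => (k3.1 x).2 (p3 x x1 x2))
          (hr.bz k3) ?_)
        rw [k4.1.at _ 0 (by omega) (by omega)]
        exact L_ne' hm ht (by omega) (by omega)
  rcases key (m - 1) (by omega) with h1 | h1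
  · exact Or.inl h1
  by_cases hc : s (i + 2 * m + g + 2 * m - 1) = L d (m - 1) ∧ s (i + 2 * m + g + 2 * m) = 0
  · refine Or.inr ⟨he, g, hg, (struct_iff hm).2 ⟨pat_of fun x a x1 x2 => ?_, hc.2,
      fun x x1 x2 => hr.1 x (by omega) x2⟩⟩
    rcases lt_or_ge x (i + 2 * m + g + 2 * m - 1) with x3 | x3
    · exact h1.at x a (by omega) x2
    · rw [show x = i + 2 * m + g + 2 * m - 1 by omega, hc.1, show a = m - 1 by omega]
  · exact Or.inl (last_case hm h2 h0 hJ hg4 h hr (fun k hk => h1 k (by omega)) hc)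

theorem first_ne (hm : d = m + 1) (h2 : 2 ≤ m) {s : Seq d} {i : ℤ} {J : ℕ} (h : Struct s i J) :
    s i ≠ 0 := by
  rw [((struct_iff hm).1 h).1.at i 0 (by omega) (by omega)]
  exact L_ne hm (by omega)

theorem run_lt (hm : d = m + 1) (h2 : 2 ≤ m) {n : ℕ} {s : Seq d} (h0 : Per n s) {i : ℤ} {J : ℕ}
    (h : Struct s i J) : J < n := by
  by_contra hn
  have h1 := h0.1
  have := ((struct_iff hm).1 h).2.2 (i - n) (by omega) (by omega)
  rw [← h0.2.1, sub_add_cancel] at this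
  exact first_ne hm h2 h this

theorem eq_can (hm : d = m + 1) {n : ℕ} {s : Seq d} (h0 : Per n s) {i : ℤ} {J : ℕ}
    (h : Struct s i J) (hn : n ≤ 2 * m + J) : s = can d n i := by
  obtain ⟨p1, -, p3⟩ := (struct_iff hm).1 h
  funext x
  have hn0 : (0 : ℤ) < n := by exact_mod_cast h0.1
  have a0 := Int.emod_nonneg (x - i) hn0.ne'
  have a1 := Int.emod_lt_of_pos (x - i) hn0
  have e : s x = s (i + (x - i) % n) := by
    rw [← h0.zper (i + (x - i) % n) ((x - i) / n), add_assoc, Int.emod_add_ediv_mul]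
    congr 1
    ring
  unfold can
  rw [show d - 1 = m by omega, e]
  generalize (x - i) % n = r at a0 a1
  split_ifs with h1
  · exact p1.at _ _ (by omega) (by omega)
  · rw [← h0.zper _ (-1)]
    exact p3 _ (by omega) (by omega)

omit [NeZero d] in
theorem exists_stop {P : ℕ → Prop} {a n : ℕ} (h : P a) (hb : ∀ J, P J → J < n) :
    ∃ J, a ≤ J ∧ P J ∧ ¬ P (J + 1) := by
  by_contra hn
  push Not at hn
  have : ∀ k, P (a + k) := fun k => by
    induction k with
    | zero => exact h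
    | succ k ih => exact hn (a + k) (Nat.le_add_right a k) ih
  exact absurd (hb _ (this n)) (by omega)

end ZSweep

theorem can_per [NeZero d] (hd : 3 ≤ d) {n : ℕ} (hn : 2 * (d - 1) < n) (i : ℤ) :
    Per n (can d n i) := by
  obtain ⟨m, hm⟩ : ∃ m, d = m + 1 := ⟨d - 1, by omega⟩
  have e : d - 1 = m := by omega
  refine ⟨by omega, fun x => ?_, fun a => ?_⟩
  · unfold can
    rw [show x + n - i = x - i + n by ring, Int.add_emod_right]
  · by_cases ha : a = 0
    · refine ⟨i + 2 * m, ?_⟩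
      unfold can
      rw [add_sub_cancel_left, Int.emod_eq_of_lt (by omega) (by omega), if_neg (by omega), ha]
    · obtain ⟨t, ht, rfl⟩ := exists_L hm ha
      refine ⟨i + 2 * t, ?_⟩
      unfold can
      rw [add_sub_cancel_left, Int.emod_eq_of_lt (by omega) (by omega), if_pos (by omega)]
      congr 1
      omega

theorem sweep [NeZero d] (hd : 3 ≤ d) {n : ℕ} (hn : n.Prime) {s : Seq d} (hs : Per n s) {i : ℤ}
    (h : Struct s i 4) : ∃ i', Rel n s (can d n i') := by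
  obtain ⟨m, hm⟩ : ∃ m, d = m + 1 := ⟨d - 1, by omega⟩
  have h2 : 2 ≤ m := by omega
  obtain ⟨J, hJ, ⟨w, a, hw, ha⟩, hmax⟩ := exists_stop
    (P := fun J => ∃ w a, Re n s w ∧ Struct w a J) (n := n) ⟨s, i, Re.refl hs, h⟩
    fun J ⟨w, a, hw, ha⟩ => run_lt hm h2 hw.2 ha
  have nxt : ∀ b, Struct w b J → Struct w (b + (2 * m + J)) J := by
    intro b hb
    rcases progress hm h2 hw.2 hJ hb with ⟨w', k1, k2⟩ | ⟨-, g, rfl | rfl, k2⟩
    · exact absurd ⟨w', b, hw.trans k1, k2⟩ hmax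
    · rwa [← add_assoc]
    · exact absurd ⟨w, _, hw, k2⟩ hmax
  have all : ∀ k : ℕ, Struct w (a + k * (2 * m + J)) J := fun k => by
    induction k with
    | zero => simpa using ha
    | succ k ih =>
      have := nxt _ ih
      rwa [show a + k * (2 * m + J) + (2 * m + J) = a + ((k + 1 : ℕ) : ℤ) * (2 * m + J) by
        push_cast; ring] at this
  refine ⟨a, eq_can hm hw.2 ha ?_ ▸ hw.1⟩
  refine Nat.le_of_dvd (by omega) ?_
  by_contra hdvd
  have hcop : (2 * m + J).Coprime n := ((Nat.Prime.coprime_iff_not_dvd hn).2 hdvd).symm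
  obtain ⟨k, -, hk⟩ := Nat.exists_mul_mod_eq_one_of_coprime hcop hn.one_lt
  have e : (k : ℤ) * (2 * m + J) - 1 = ((2 * m + J) * k / n : ℕ) * n := by
    have := Nat.div_add_mod ((2 * m + J) * k) n
    rw [hk] at this
    zify at this
    push_cast
    linarith
  have h1 := ((struct_iff hm).1 (all k)).2.2 (a + k * (2 * m + J) - 1) (by omega) (by omega)
  rw [add_sub_assoc, e, hw.2.zper] at h1
  exact first_ne hm h2 ha h1

theorem sweep_big [NeZero d] (hd : 3 ≤ d) {n : ℕ} {s : Seq d} (hs : Per n s) {i : ℤ} {J : ℕ}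
    (h4 : 4 ≤ J) (hJ : n < 2 * J) (h : Struct s i J) : Rel n s (can d n i) := by
  obtain ⟨m, hm⟩ : ∃ m, d = m + 1 := ⟨d - 1, by omega⟩
  have h2 : 2 ≤ m := by omega
  obtain ⟨K, hK, ⟨w, hw, ha⟩, hmax⟩ := exists_stop
    (P := fun J => ∃ w, Re n s w ∧ Struct w i J) (n := n) ⟨s, Re.refl hs, h⟩
    fun J ⟨w, hw, ha⟩ => run_lt hm h2 hw.2 ha
  rcases progress hm h2 hw.2 (by omega) ha with ⟨w', k1, k2⟩ | ⟨he, g, hg, k2⟩
  · exact absurd ⟨w', hw.trans k1, k2⟩ hmax
  refine eq_can hm hw.2 ha ?_ ▸ hw.1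
  obtain ⟨-, p2, p3⟩ := (struct_iff hm).1 ha
  have q3 := ((struct_iff hm).1 k2).2.2
  have hdvd : n ∣ 2 * m + g := by
    by_contra hn
    have r0 : 0 < (2 * m + g) % n := Nat.pos_of_ne_zero fun h0 => hn (Nat.dvd_of_mod_eq_zero h0)
    have r1 := Nat.mod_lt (2 * m + g) hs.1
    have e := Nat.div_add_mod (2 * m + g) n
    generalize (2 * m + g) % n = r at r0 r1 e
    generalize (2 * m + g) / n = c at e
    have e' : (2 * m + g : ℤ) = c * n + r := by zify at e; linarith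
    rcases le_or_gt r g with h1 | h1
    · have := q3 (i + c * n) (by omega) (by omega)
      rw [hw.2.zper] at this
      exact first_ne hm h2 ha this
    · have := p3 (i + r - n) (by omega) (by omega)
      rw [← hw.2.zper _ (c + 1), show i + r - n + (c + 1) * n = i + 2 * m + g by
        linear_combination -e'] at this
      exact first_ne hm h2 k2 this
  have hle := Nat.le_of_dvd (by omega) hdvd
  by_contra hn
  refine he ?_
  rw [← hw.2.2.1, ← p2]
  congr 1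
  omega

end Pool.Agent.MP_9b2bac_nt.Z
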