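import Mathlib
import Pool.Agent.MP_9b2bac_nt.ZSweep

/- Least periods and the equivalence generated by all markers. -/

set_option autoImplicit false

namespace Pool.Agent.MP_9b2bac_nt.Z

variable {d : ℕ}

/-- Least period `n`, all letters used. -/
def Prim (n : ℕ) (s : Seq d) : Prop := Per n s ∧ ∀ m, m < n → ¬ Per m s

/-- Equivalence of words of period `n` generated by all markers. -/
def RelA (n : ℕ) : Seq d → Seq d → Prop :=
  Relation.EqvGen fun s t => Per n s ∧ ∃ u v j, u ≠ v ∧ 1 ≤ j ∧ t = mk u v j s

end Pool.Agent.MP_9b2bac_nt.Z
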