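import Mathlib
import Pool.Agent.MP_9b2bac_nt.YDefs

/- Local moves on words with three letters. -/

set_option autoImplicit false

namespace Pool.Agent.MP_9b2bac_nt.Z

open ZSweep

namespace YTr

theorem tri {c x y : Fin 3} (hcx : c ≠ x) (hcy : c ≠ y) (hxy : x ≠ y) (a : Fin 3) :
    a = c ∨ a = x ∨ a = y := by
  revert c x y a; decide

theorem third (u v : Fin 3) : ∃ c, c ≠ u ∧ c ≠ v := by
  revert u v; decide

theorem mk_eq_iff {u v c : Fin 3} (hu : c ≠ u) (hv : c ≠ v) {j : ℕ} {s : Seq 3} (w : ℤ) :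
    mk u v j s w = c ↔ s w = c := by
  by_cases hh : Hit u v j s w
  · rw [mk_hit hh, Equiv.swap_apply_eq_iff, Equiv.swap_apply_of_ne_of_ne hu hv]
  · rw [mk_not hh]

theorem exists_ge {n : ℕ} {s : Seq 3} (h : Per n s) (a : Fin 3) (x : ℤ) :
    ∃ z, x ≤ z ∧ s z = a := by
  obtain ⟨y, hy⟩ := h.2.2 a
  have hn : (1 : ℤ) ≤ n := by exact_mod_cast h.1
  exact ⟨y + |x - y| * n, by nlinarith [le_abs_self (x - y), abs_nonneg (x - y)],
    by rw [h.zper, hy]⟩

theorem exists_first {P : ℤ → Prop} {x z : ℤ} (h1 : x ≤ z) (h2 : P z) :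
    ∃ z, x ≤ z ∧ P z ∧ ∀ w, x ≤ w → w < z → ¬ P w := by
  obtain ⟨z, hz, hmin⟩ := Int.exists_least_of_bdd (P := fun z => x ≤ z ∧ P z)
    ⟨x, fun z hz => hz.1⟩ ⟨z, h1, h2⟩
  exact ⟨z, hz.1, hz.2, fun w w1 w2 hw => absurd (hmin w ⟨w1, hw⟩) (by omega)⟩

theorem exists_lst {P : ℤ → Prop} {x z : ℤ} (h1 : z ≤ x) (h2 : P z) :
    ∃ z', z ≤ z' ∧ z' ≤ x ∧ P z' ∧ ∀ w, z' < w → w ≤ x → ¬ P w := by
  obtain ⟨z', hz, hmax⟩ := Int.exists_greatest_of_bdd (P := fun z => z ≤ x ∧ P z)
    ⟨x, fun z hz => hz.1⟩ ⟨z, h1, h2⟩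
  exact ⟨z', hmax z ⟨h1, h2⟩, hz.1, hz.2, fun w w1 w2 hw => absurd (hmax w ⟨w2, hw⟩) (by omega)⟩

theorem hit_at {u v : Fin 3} {j : ℕ} {s : Seq 3} {x : ℤ} (h : Hit u v j s x) (y : ℤ)
    (h1 : x < y) (h2 : y ≤ x + j) : s y = u := by
  have := h.1 (y - x).toNat (by omega) (by omega)
  rwa [show x + ((y - x).toNat : ℤ) = y by omega] at this

theorem mk_back {n m : ℕ} {s : Seq 3} (h : Per n s) {u v : Fin 3} {j : ℕ}
    (hm : ∀ i, mk u v j s (i + m) = mk u v j s i) (i : ℤ) : s (i + m) = s i := by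
  obtain ⟨c, hu, hv⟩ := third u v
  obtain ⟨q, hq1, hq⟩ := exists_ge h c i
  have hqm : s (q + m) = c := by
    rw [← mk_eq_iff hu hv (j := j), hm, mk_eq_iff hu hv, hq]
  have key : ∀ D : ℕ, ∀ w, q - D ≤ w → w ≤ q → s (w + m) = s w := by
    intro D
    induction D with
    | zero =>
      intro w w1 w2
      obtain rfl : w = q := by omega
      rw [hq, hqm]
    | succ D ih =>
      intro w w1 w2
      by_cases hw : q - D ≤ w
      · exact ih w hw w2
      have hmw := hm w
      by_cases hj : w + j + 1 ≤ q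
      · have e : Hit u v j s (w + m) ↔ Hit u v j s w := by
          constructor
          · intro hh
            refine hit_of (fun y y1 y2 => ?_) _ rfl ?_
            · rw [← ih y (by omega) (by omega)]
              exact hit_at hh _ (by omega) (by omega)
            · rw [← ih _ (by omega) (by omega), ← hh.2]
              congr 1; ring
          · intro hh
            refine hit_of (fun y y1 y2 => ?_) (w + j + 1 + m) (by ring) ?_
            · rw [show y = y - m + m by ring, ih _ (by omega) (by omega)]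
              exact hit_at hh _ (by omega) (by omega)
            · rw [ih _ (by omega) (by omega), hh.2]
        by_cases hh : Hit u v j s w
        · rw [mk_hit hh, mk_hit (e.2 hh)] at hmw
          exact (Equiv.swap u v).injective hmw
        · rwa [mk_not hh, mk_not (fun h' => hh (e.1 h'))] at hmw
      · rwa [mk_mid (x := w) q (by omega) (by omega) (hq ▸ hu),
          mk_mid (x := w + m) (q + m) (by omega) (by omega) (hqm ▸ hu)] at hmw
  exact key (q - i).toNat i (by omega) hq1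

/-- Reachability that keeps track of periods. -/
def Re (n : ℕ) (s t : Seq 3) : Prop := RelA n s t ∧ Per n t ∧ (Prim n s → Prim n t)

theorem Re.refl {n : ℕ} {s : Seq 3} (h : Per n s) : Re n s s :=
  ⟨Relation.EqvGen.refl _, h, id⟩

theorem Re.trans {n : ℕ} {s t w : Seq 3} (h : Re n s t) (h' : Re n t w) : Re n s w :=
  ⟨Relation.EqvGen.trans _ _ _ h.1 h'.1, h'.2.1, fun a => h'.2.2 (h.2.2 a)⟩

theorem re_mk {n : ℕ} {s : Seq 3} (h : Per n s) {u v : Fin 3} (huv : u ≠ v) {j : ℕ}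
    (hj : 1 ≤ j) : Re n s (mk u v j s) :=
  ⟨Relation.EqvGen.rel _ _ ⟨h, u, v, j, huv, hj, rfl⟩, mk_per le_rfl h huv hj, fun hp =>
    ⟨mk_per le_rfl h huv hj, fun m hm hh => hp.2 m hm ⟨hh.1, mk_back h hh.2.1, h.2.2⟩⟩⟩

/-- Same positions of `c`, same letters in front of `c`. -/
def Keep (c : Fin 3) (s t : Seq 3) : Prop :=
  (∀ w, t w = c ↔ s w = c) ∧ ∀ w, s (w + 1) = c → t w = s w

theorem Keep.refl (c : Fin 3) (s : Seq 3) : Keep c s s := ⟨fun _ => Iff.rfl, fun _ _ => rfl⟩

theorem Keep.trans {c : Fin 3} {s t r : Seq 3} (h : Keep c s t) (h' : Keep c t r) :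
    Keep c s r :=
  ⟨fun w => (h'.1 w).trans (h.1 w), fun w hw => (h'.2 w ((h.1 _).2 hw)).trans (h.2 w hw)⟩

theorem keep_mk {u v c : Fin 3} (hu : c ≠ u) (hv : c ≠ v) {j : ℕ} (hj : 1 ≤ j) (s : Seq 3) :
    Keep c s (mk u v j s) :=
  ⟨fun w => mk_eq_iff hu hv w, fun w hw => mk_mid (w + 1) (by omega) (by omega) (hw ▸ hu)⟩

/-- The tail `y x ... x c` with `y` at `z` and `c` at `e`. -/
def Tail (s : Seq 3) (c x y : Fin 3) (z e : ℤ) : Prop :=
  s z = y ∧ (∀ w, z < w → w < e → s w = x) ∧ s e = c ∧ z + 1 < e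

theorem Tail.ne {s : Seq 3} {c x y : Fin 3} {z e : ℤ} (h : Tail s c x y z e) (hcy : c ≠ y)
    (hxy : x ≠ y) (w : ℤ) (h1 : z < w) (h2 : w ≤ e) : s w ≠ y := by
  rcases h2.lt_or_eq with h3 | rfl
  · rw [h.2.1 w h1 h3]; exact hxy
  · rw [h.2.2.1]; exact hcy

theorem Tail.fix1 {s : Seq 3} {c x y : Fin 3} {z e : ℤ} (h : Tail s c x y z e)
    (hcy : c ≠ y) (hxy : x ≠ y) {j : ℕ} (hj : 1 ≤ j) (w : ℤ) (h1 : z ≤ w) (h2 : w < e) :
    mk y x j s w = s w :=
  mk_mid (w + 1) (by omega) (by omega) (h.ne hcy hxy _ (by omega) (by omega))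

theorem Tail.fix2 {s : Seq 3} {c x y : Fin 3} {z e : ℤ} (h : Tail s c x y z e) (hcx : c ≠ x)
    (hcy : c ≠ y) (hxy : x ≠ y) {j : ℕ} (w : ℤ) (h1 : z ≤ w) (h2 : w < e) :
    mk x y j s w = s w := by
  by_cases h3 : w + j + 1 ≤ e
  · exact mk_last _ rfl (h.ne hcy hxy _ (by omega) h3)
  · exact mk_mid e h2 (by omega) (h.2.2.1 ▸ hcx)

theorem Tail.of_fix {s t : Seq 3} {c x y : Fin 3} {z e : ℤ} (h : Tail s c x y z e)
    (hk : Keep c s t) (hf : ∀ w, z ≤ w → w < e → t w = s w) : Tail t c x y z e :=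
  ⟨(hf z le_rfl (by have := h.2.2.2; omega)).trans h.1,
    fun w w1 w2 => (hf w w1.le w2).trans (h.2.1 w w1 w2), (hk.1 _).2 h.2.2.1, h.2.2.2⟩

theorem norm {n : ℕ} {s : Seq 3} (hs : Per n s) {c x y : Fin 3} (hcx : c ≠ x) (hcy : c ≠ y)
    (hxy : x ≠ y) {p z e : ℤ} (hb : ∀ w, p ≤ w → w < z → s w ≠ c) (ht : Tail s c x y z e)
    {a : Fin 3} (ha : a = x ∨ a = y) :
    ∃ t, Re n s t ∧ Keep c s t ∧ Tail t c x y z e ∧ ∀ w, p ≤ w → w < z → t w = a := by
  have key : ∀ D : ℕ, p ≤ z - D → ∃ t, Re n s t ∧ Keep c s t ∧ Tail t c x y z e ∧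
      ∀ w, z - D ≤ w → w < z → t w = a := by
    intro D
    induction D with
    | zero => exact fun _ => ⟨s, Re.refl hs, Keep.refl _ _, ht, fun w w1 w2 => by omega⟩
    | succ D ih =>
      intro hD
      push_cast at hD
      obtain ⟨t, r, k, tl, hv⟩ := ih (by omega)
      have hz := tl.2.2.2
      by_cases h0 : t (z - D - 1) = a
      · refine ⟨t, r, k, tl, fun w w1 w2 => ?_⟩
        by_cases hw : z - D ≤ w
        · exact hv w hw w2
        · rwa [show w = z - D - 1 by push_cast at w1; omega]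
      have hc : t (z - D - 1) ≠ c := fun h => hb _ (by omega) (by omega) ((k.1 _).1 h)
      rcases ha with rfl | rfl
      · have hy : t (z - D - 1) = y := by
          rcases tri hcx hcy hxy (t (z - D - 1)) with h | h | h
          · exact absurd h hc
          · exact absurd h h0
          · exact h
        rcases Nat.eq_zero_or_pos D with rfl | hD0
        · have k' := keep_mk hcy hcx le_rfl t
          refine ⟨_, r.trans (re_mk r.2.1 hxy.symm le_rfl), k.trans k',
            tl.of_fix k' (tl.fix1 hcy hxy le_rfl), fun w w1 w2 => ?_⟩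
          obtain rfl : w = z - (0 : ℕ) - 1 := by push_cast at w1 ⊢; omega
          rw [mk_hit (hit_one z (z + 1) (by push_cast; omega) (by push_cast; omega) tl.1
            (tl.2.1 _ (by omega) hz)), hy, Equiv.swap_apply_left]
        · have k' := keep_mk hcx hcy hD0 t
          refine ⟨_, r.trans (re_mk r.2.1 hxy hD0), k.trans k',
            tl.of_fix k' (tl.fix2 hcx hcy hxy), fun w w1 w2 => ?_⟩
          by_cases hw : z - D ≤ w
          · rw [mk_mid z w2 (by omega) (tl.1 ▸ hxy.symm)]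
            exact hv w hw w2
          · obtain rfl : w = z - D - 1 := by push_cast at w1; omega
            rw [mk_hit (hit_of (fun y y1 y2 => hv y (by omega) (by omega)) z (by omega) tl.1),
              hy, Equiv.swap_apply_right]
      · have hx : t (z - D - 1) = x := by
          rcases tri hcx hcy hxy (t (z - D - 1)) with h | h | h
          · exact absurd h hc
          · exact h
          · exact absurd h h0
        have k' := keep_mk hcy hcx (j := D + 1) (by omega) t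
        have hz1 := tl.2.1 (z + 1) (by omega) hz
        refine ⟨_, r.trans (re_mk r.2.1 hxy.symm (j := D + 1) (by omega)), k.trans k',
          tl.of_fix k' (tl.fix1 hcy hxy (by omega)), fun w w1 w2 => ?_⟩
        by_cases hw : z - D ≤ w
        · rw [mk_mid (z + 1) (by omega) (by push_cast; omega) (hz1 ▸ hxy)]
          exact hv w hw w2
        · obtain rfl : w = z - D - 1 := by push_cast at w1; omega
          rw [mk_hit (hit_of (fun y y1 y2 => ?_) (z + 1) (by push_cast; omega) hz1),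
            hx, Equiv.swap_apply_right]
          by_cases hy : y < z
          · exact hv y (by omega) hy
          · rw [show y = z by push_cast at y2; omega]; exact tl.1
  by_cases hpz : p ≤ z
  · obtain ⟨t, r, k, tl, hv⟩ := key (z - p).toNat (by omega)
    exact ⟨t, r, k, tl, fun w w1 w2 => hv w (by omega) w2⟩
  · exact ⟨s, Re.refl hs, Keep.refl _ _, ht, fun w w1 w2 => by omega⟩

/-- The letter `c` fills `[a, b)`. -/
def Run (s : Seq 3) (c : Fin 3) (a b : ℤ) : Prop := ∀ w, a ≤ w → w < b → s w = c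

theorem Run.keep {s t : Seq 3} {c : Fin 3} {a b : ℤ} (h : Run s c a b) (k : Keep c s t) :
    Run t c a b := fun w w1 w2 => (k.1 w).2 (h w w1 w2)

theorem ext_run {s : Seq 3} {c x : Fin 3} (hcx : c ≠ x) {J : ℕ} {p : ℤ}
    (hr : Run s c (p - J) p) (h0 : s (p - J - 1) = x) (hp : s p = x) :
    Run (mk c x J s) c (p - J - 1) p := by
  intro w w1 w2
  by_cases hw : p - J ≤ w
  · rw [mk_mid p w2 (by omega) (hp ▸ hcx.symm)]
    exact hr w hw w2
  · obtain rfl : w = p - J - 1 := by omega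
    rw [mk_hit (hit_of (fun y y1 y2 => hr y (by omega) (by omega)) p (by omega) hp), h0,
      Equiv.swap_apply_right]

theorem ext_fix {s : Seq 3} {c x : Fin 3} {J : ℕ} (hJ : 1 ≤ J) (w : ℤ) (h : s (w + 1) ≠ c) :
    mk c x J s w = s w := mk_mid (w + 1) (by omega) (by omega) h

end YTr

end Pool.Agent.MP_9b2bac_nt.Z
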