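import Mathlib
import Pool.Agent.MP_9b2bac_nt.YTrans1

/- Canonical words on three letters are all equivalent. -/

set_option autoImplicit false

namespace Pool.Agent.MP_9b2bac_nt.Z

open ZSweep

namespace YTr

/-- The word with `x y x` at `p` and `c` elsewhere. -/
def Can (n : ℕ) (c x y : Fin 3) (p : ℤ) (t : Seq 3) : Prop :=
  Per n t ∧ t p = x ∧ t (p + 1) = y ∧ t (p + 2) = x ∧ Run t c (p + 3) (p + n)

theorem Can.uniq {n : ℕ} {c x y : Fin 3} {p : ℤ} {s t : Seq 3} (h : Can n c x y p s)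
    (h' : Can n c x y p t) : s = t := by
  funext w
  have hn : (0 : ℤ) < n := by exact_mod_cast h.1.1
  have h0 := Int.emod_nonneg (w - p) hn.ne'
  have h1 := Int.emod_lt_of_pos (w - p) hn
  have e : w = p + (w - p) % n + (w - p) / n * n := by
    have := Int.emod_add_ediv_mul (w - p) n
    omega
  generalize (w - p) % n = r at h0 h1 e
  rw [e, h.1.zper, h'.1.zper]
  by_cases r0 : r = 0
  · subst r0; rw [add_zero, h.2.1, h'.2.1]
  by_cases r1 : r = 1
  · subst r1; rw [h.2.2.1, h'.2.2.1]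
  by_cases r2 : r = 2
  · subst r2; rw [h.2.2.2.1, h'.2.2.2.1]
  rw [h.2.2.2.2 _ (by omega) (by omega), h'.2.2.2.2 _ (by omega) (by omega)]

/-- The word `s` is equivalent to a canonical word. -/
def G (n : ℕ) (s : Seq 3) (c x y : Fin 3) (p : ℤ) : Prop :=
  ∃ t, RelA n s t ∧ Can n c x y p t

theorem G.back {n : ℕ} {s t : Seq 3} {c x y : Fin 3} {p : ℤ} (h : RelA n s t)
    (g : G n t c x y p) : G n s c x y p :=
  let ⟨w, h1, h2⟩ := g; ⟨w, Relation.EqvGen.trans _ _ _ h h1, h2⟩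

theorem G.link {n : ℕ} {w s : Seq 3} {c x y c' x' y' : Fin 3} {p p' : ℤ}
    (g1 : G n w c x y p) (g2 : G n w c' x' y' p') (g : G n s c x y p) : G n s c' x' y' p' := by
  obtain ⟨t, r, k⟩ := g
  obtain ⟨t1, r1, k1⟩ := g1
  obtain rfl := k.uniq k1
  exact G.back (Relation.EqvGen.trans _ _ _ r (Relation.EqvGen.symm _ _ r1)) g2

theorem single {n : ℕ} {c x y : Fin 3} (hcx : c ≠ x) (hcy : c ≠ y) (hxy : x ≠ y) {p : ℤ}
    (k : ℕ) : ∀ (s : Seq 3) (e : ℤ), Per n s → e = p + 4 + k →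
      (∀ w, p ≤ w → w < p + 2 → s w ≠ c) → Tail s c x y (p + 2) e → Run s c e (p + n) →
      e < p + n → G n s c y x p := by
  have step : ∀ (s : Seq 3) (e : ℤ), Per n s →
      (∀ w, p ≤ w → w < p + 2 → s w ≠ c) → Tail s c x y (p + 2) e → Run s c e (p + n) →
      e < p + n → ∃ t, Re n s t ∧ t p = x ∧ t (p + 1) = x ∧ t (p + 2) = y ∧
        Run t x (p + 3) (e - 1) ∧ Run t c (e - 1) (p + n) := by
    intro s e hs hb ht hr he
    obtain ⟨t, r, kp, tl, hv⟩ := norm hs hcx hcy hxy hb ht (Or.inl rfl)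
    have hz := tl.2.2.2
    obtain ⟨J, hJ⟩ : ∃ J : ℕ, (J : ℤ) = p + n - e := ⟨(p + n - e).toNat, by omega⟩
    have hJ1 : 1 ≤ J := by omega
    have hne : ∀ w, p ≤ w → w < e → t w ≠ c := by
      intro w w1 w2
      rcases lt_trichotomy w (p + 2) with h | rfl | h
      · rw [hv w w1 h]; exact hcx.symm
      · rw [tl.1]; exact hcy.symm
      · rw [tl.2.1 w h w2]; exact hcx.symm
    have hf : ∀ w, p ≤ w → w < e - 1 → mk c x J t w = t w := fun w w1 w2 =>
      ext_fix hJ1 w (hne _ (by omega) (by omega))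
    have hrun := ext_run (s := t) hcx (J := J) (p := p + n)
      (by rw [show p + n - J = e by omega]; exact hr.keep kp)
      (tl.2.1 _ (by omega) (by omega)) (by rw [r.2.1.2.1]; exact hv p le_rfl (by omega))
    rw [show p + n - J - 1 = e - 1 by omega] at hrun
    refine ⟨_, r.trans (re_mk r.2.1 hcx hJ1), ?_, ?_, ?_, fun w w1 w2 => ?_, hrun⟩
    · rw [hf _ le_rfl (by omega)]; exact hv _ le_rfl (by omega)
    · rw [hf _ (by omega) (by omega)]; exact hv _ (by omega) (by omega)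
    · rw [hf _ (by omega) (by omega)]; exact tl.1
    · rw [hf _ (by omega) w2]; exact tl.2.1 _ (by omega) (by omega)
  induction k with
  | zero =>
    intro s e hs he hb ht hr hn
    obtain ⟨t, r, h0, h1, h2, -, h4⟩ := step s e hs hb ht hr hn
    rw [show e - 1 = p + 3 by push_cast at he; omega] at h4
    have tl : Tail t c y x (p + 1) (p + 3) :=
      ⟨h1, fun w w1 w2 => by rwa [show w = p + 2 by omega], h4 _ le_rfl (by omega), by omega⟩
    obtain ⟨t', r', kp, tl', hv⟩ := norm r.2.1 hcy hcx hxy.symm (p := p)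
      (fun w w1 w2 => by rw [show w = p by omega, h0]; exact hcx.symm) tl (Or.inl rfl)
    exact ⟨t', (r.trans r').1, r'.2.1, hv _ le_rfl (by omega), tl'.1,
      tl'.2.1 _ (by omega) (by omega), h4.keep kp⟩
  | succ k ih =>
    intro s e hs he hb ht hr hn
    push_cast at he
    obtain ⟨t, r, h0, h1, h2, h3, h4⟩ := step s e hs hb ht hr hn
    refine G.back r.1 (ih t (e - 1) r.2.1 (by omega) (fun w w1 w2 => ?_)
      ⟨h2, fun w w1 w2 => h3 w (by omega) w2, h4 _ le_rfl (by omega), by omega⟩ h4 (by omega))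
    by_cases hw : w = p
    · rw [hw, h0]; exact hcx.symm
    · rw [show w = p + 1 by omega, h1]; exact hcx.symm

theorem single' {n : ℕ} {c x y : Fin 3} (hcx : c ≠ x) (hcy : c ≠ y) (hxy : x ≠ y) {p e : ℤ}
    {s : Seq 3} (hs : Per n s) (h0 : s p ≠ c) (h1 : s (p + 1) ≠ c)
    (ht : Tail s c x y (p + 2) e) (hr : Run s c e (p + n)) (he : e < p + n) : G n s c y x p := by
  have := ht.2.2.2
  refine single hcx hcy hxy (e - p - 4).toNat s e hs (by omega) (fun w w1 w2 => ?_) ht hr he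
  by_cases hw : w = p
  · rwa [hw]
  · rwa [show w = p + 1 by omega]

theorem exists_word {n : ℕ} (hn : 0 < n) (p : ℤ) (V : ℤ → Fin 3) :
    ∃ w : Seq 3, (∀ i, w (i + n) = w i) ∧ ∀ i, p ≤ i → i < p + n → w i = V i := by
  refine ⟨fun i => V (p + (i - p) % n), fun i => ?_, fun i i1 i2 => ?_⟩
  · show V _ = V _
    rw [show i + n - p = i - p + n by ring, Int.add_emod_right]
  · show V _ = V _
    rw [Int.emod_eq_of_lt (by omega) (by omega)]
    congr 1; ring

theorem per_of {n : ℕ} (hn : 0 < n) {c x y : Fin 3} (hcx : c ≠ x) (hcy : c ≠ y) (hxy : x ≠ y)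
    {w : Seq 3} (h : ∀ i, w (i + n) = w i) {i j k : ℤ} (h1 : w i = c) (h2 : w j = x)
    (h3 : w k = y) : Per n w := by
  refine ⟨hn, h, fun a => ?_⟩
  rcases tri hcx hcy hxy a with rfl | rfl | rfl
  · exact ⟨i, h1⟩
  · exact ⟨j, h2⟩
  · exact ⟨k, h3⟩

theorem rel3 {n : ℕ} (hn : 8 ≤ n) {c x y : Fin 3} (hcx : c ≠ x) (hcy : c ≠ y) (hxy : x ≠ y)
    (p : ℤ) : ∃ w, G n w c y x p ∧ G n w x y c (p + 2) := by
  obtain ⟨w, hp, hw⟩ := exists_word (n := n) (by omega) p
    (fun i => if i < p + 2 then x else if i = p + 2 ∨ i = p + 4 then y else c)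
  have w0 : w p = x := by rw [hw _ (by omega) (by omega), if_pos (by omega)]
  have w1 : w (p + 1) = x := by rw [hw _ (by omega) (by omega), if_pos (by omega)]
  have w2 : w (p + 2) = y := by
    rw [hw _ (by omega) (by omega), if_neg (by omega), if_pos (by omega)]
  have w3 : w (p + 3) = c := by
    rw [hw _ (by omega) (by omega), if_neg (by omega), if_neg (by omega)]
  have w4 : w (p + 4) = y := by
    rw [hw _ (by omega) (by omega), if_neg (by omega), if_pos (by omega)]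
  have w5 : Run w c (p + 5) (p + n) := fun i i1 i2 => by
    rw [hw _ (by omega) (by omega), if_neg (by omega), if_neg (by omega)]
  have hs : Per n w := per_of (by omega) hcx hcy hxy hp w3 w0 w2
  refine ⟨w, ?_, ?_⟩
  · have tl : Tail w c y x (p + 1) (p + 3) :=
      ⟨w1, fun i i1 i2 => by rwa [show i = p + 2 by omega], w3, by omega⟩
    obtain ⟨t, r, kp, tl', hv⟩ := norm hs hcy hcx hxy.symm (p := p)
      (fun i i1 i2 => by rw [show i = p by omega, w0]; exact hcx.symm) tl (Or.inl rfl)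
    have t0 : t p = y := hv _ le_rfl (by omega)
    have t2 : t (p + 2) = y := tl'.2.1 _ (by omega) (by omega)
    have t4 : t (p + 4) = y := (kp.2 _ (w5 _ (by omega) (by omega))).trans w4
    obtain ⟨J, hJ⟩ : ∃ J : ℕ, (J : ℤ) = n - 5 := ⟨n - 5, by omega⟩
    have hJ1 : 1 ≤ J := by omega
    have hrun := ext_run (s := t) hcy (J := J) (p := p + n)
      (by rw [show p + n - J = p + 5 by omega]; exact w5.keep kp)
      (by rwa [show p + n - J - 1 = p + 4 by omega]) (by rwa [r.2.1.2.1])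
    have r' := r.trans (re_mk r.2.1 hcy hJ1)
    refine ⟨_, r'.1, r'.2.1, ?_, ?_, ?_, fun i i1 i2 => ?_⟩
    · rw [ext_fix hJ1 _ (by rw [tl'.1]; exact hcx.symm), t0]
    · rw [ext_fix hJ1 _ (by rw [show p + 1 + 1 = p + 2 by ring, t2]; exact hcy.symm), tl'.1]
    · rw [mk_mid (p + 4) (by omega) (by omega) (t4 ▸ hcy.symm), t2]
    · by_cases hi : i = p + 3
      · rw [hi, ext_fix hJ1 _ (by rw [show p + 3 + 1 = p + 4 by ring, t4]; exact hcy.symm)]
        exact tl'.2.2.1
      · exact hrun i (by omega) i2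
  · refine single' hcx.symm hxy hcy hs (e := p + n) (w2 ▸ hxy.symm)
      (by rw [show p + 2 + 1 = p + 3 by ring, w3]; exact hcx)
      ⟨by rwa [show p + 2 + 2 = p + 4 by ring], fun i i1 i2 => w5 i (by omega) i2,
        by rwa [hp], by omega⟩ (fun i i1 i2 => ?_) (by omega)
    rw [show i = i - n + n by ring, hp]
    by_cases hi : i - n = p
    · rwa [hi]
    · rwa [show i - n = p + 1 by omega]

theorem rel4 {n : ℕ} (hn : 8 ≤ n) {c x y : Fin 3} (hcx : c ≠ x) (hcy : c ≠ y) (hxy : x ≠ y)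
    (p : ℤ) : ∃ w, G n w c x y p ∧ G n w x y c (p + 3) := by
  obtain ⟨w, hp, hw⟩ := exists_word (n := n) (by omega) p
    (fun i => if i < p + 3 then x else if i = p + 3 ∨ i = p + 5 then y else c)
  have w0 : Run w x p (p + 3) := fun i i1 i2 => by
    rw [hw _ (by omega) (by omega), if_pos (by omega)]
  have w3 : w (p + 3) = y := by
    rw [hw _ (by omega) (by omega), if_neg (by omega), if_pos (by omega)]
  have w4 : w (p + 4) = c := by
    rw [hw _ (by omega) (by omega), if_neg (by omega), if_neg (by omega)]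
  have w5 : w (p + 5) = y := by
    rw [hw _ (by omega) (by omega), if_neg (by omega), if_pos (by omega)]
  have w6 : Run w c (p + 6) (p + n) := fun i i1 i2 => by
    rw [hw _ (by omega) (by omega), if_neg (by omega), if_neg (by omega)]
  have hs : Per n w := per_of (by omega) hcx hcy hxy hp w4 (w0 p le_rfl (by omega)) w3
  refine ⟨w, ?_, ?_⟩
  · have tl : Tail w c y x (p + 2) (p + 4) :=
      ⟨w0 _ (by omega) (by omega), fun i i1 i2 => by rwa [show i = p + 3 by omega], w4,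
        by omega⟩
    obtain ⟨t, r, kp, tl', hv⟩ := norm hs hcy hcx hxy.symm (p := p)
      (fun i i1 i2 => by rw [w0 i i1 (by omega)]; exact hcx.symm) tl (Or.inl rfl)
    have t0 : t p = y := hv _ le_rfl (by omega)
    have t1 : t (p + 1) = y := hv _ (by omega) (by omega)
    have t3 : t (p + 3) = y := tl'.2.1 _ (by omega) (by omega)
    have t5 : t (p + 5) = y := (kp.2 _ (w6 _ (by omega) (by omega))).trans w5
    obtain ⟨J, hJ⟩ : ∃ J : ℕ, (J : ℤ) = n - 6 := ⟨n - 6, by omega⟩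
    have hJ1 : 1 ≤ J := by omega
    have hrun := ext_run (s := t) hcy (J := J) (p := p + n)
      (by rw [show p + n - J = p + 6 by omega]; exact w6.keep kp)
      (by rwa [show p + n - J - 1 = p + 5 by omega]) (by rwa [r.2.1.2.1])
    have r' := r.trans (re_mk r.2.1 hcy hJ1)
    have u4 : mk c y J t (p + 4) = c := by
      rw [ext_fix hJ1 _ (by rw [show p + 4 + 1 = p + 5 by ring, t5]; exact hcy.symm)]
      exact tl'.2.2.1
    refine G.back r'.1 (single' hcy hcx hxy.symm r'.2.1 (e := p + 4) ?_ ?_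
      ⟨?_, fun i i1 i2 => ?_, u4, by omega⟩ (fun i i1 i2 => ?_) (by omega))
    · rw [ext_fix hJ1 _ (by rw [t1]; exact hcy.symm), t0]; exact hcy.symm
    · rw [ext_fix hJ1 _ (by rw [show p + 1 + 1 = p + 2 by ring, tl'.1]; exact hcx.symm), t1]
      exact hcy.symm
    · rw [ext_fix hJ1 _ (by rw [show p + 2 + 1 = p + 3 by ring, t3]; exact hcy.symm), tl'.1]
    · rw [show i = p + 3 by omega, mk_mid (p + 5) (by omega) (by omega) (t5 ▸ hcy.symm), t3]
    · by_cases hi : i = p + 4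
      · rwa [hi]
      · exact hrun i (by omega) i2
  · refine single' hcx.symm hxy hcy hs (e := p + n) (w3 ▸ hxy.symm)
      (by rw [show p + 3 + 1 = p + 4 by ring, w4]; exact hcx)
      ⟨by rwa [show p + 3 + 2 = p + 5 by ring], fun i i1 i2 => w6 i (by omega) i2,
        by rw [hp]; exact w0 p le_rfl (by omega), by omega⟩ (fun i i1 i2 => ?_) (by omega)
    rw [show i = i - n + n by ring, hp]
    exact w0 _ (by omega) (by omega)

section Move

variable {n : ℕ} (hn : 8 ≤ n) {s : Seq 3} {a b c : Fin 3} (hab : a ≠ b) (hac : a ≠ c)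
  (hbc : b ≠ c)

include hn hab hac hbc

theorem mv3 (p : ℤ) : G n s a b c p ↔ G n s c b a (p + 2) :=
  let ⟨_, g1, g2⟩ := rel3 hn hac hab hbc.symm p
  ⟨G.link g1 g2, G.link g2 g1⟩

theorem mv4 (p : ℤ) : G n s a b c p ↔ G n s b c a (p + 3) :=
  let ⟨_, g1, g2⟩ := rel4 hn hab hac hbc p
  ⟨G.link g1 g2, G.link g2 g1⟩

theorem mv_four (p : ℤ) : G n s a b c p ↔ G n s a b c (p + 4) := by
  rw [mv3 hn hab hac hbc, mv3 hn hbc.symm hac.symm hab.symm, show p + 2 + 2 = p + 4 by ring]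

theorem mv_one (p : ℤ) : G n s a b c p ↔ G n s a b c (p + 1) := by
  rw [mv4 hn hab hac hbc, mv4 hn hbc hab.symm hac.symm, mv4 hn hac.symm hbc.symm hab,
    mv_four hn hab hac hbc (p + 1), mv_four hn hab hac hbc (p + 1 + 4),
    show p + 3 + 3 + 3 = p + 1 + 4 + 4 by ring]

theorem mv_all (p q : ℤ) : G n s a b c p ↔ G n s a b c q := by
  have key : ∀ p : ℤ, G n s a b c p ↔ G n s a b c 0 := by
    intro p
    induction p using Int.induction_on with
    | zero => exact Iff.rfl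
    | succ k ih => rw [← mv_one hn hab hac hbc, ih]
    | pred k ih => rw [mv_one hn hab hac hbc, sub_add_cancel, ih]
  rw [key p, key q]

theorem sw3 : G n s a b c 0 ↔ G n s c b a 0 := by
  rw [mv3 hn hab hac hbc, mv_all hn hbc.symm hac.symm hab.symm _ 0]

theorem sw4 : G n s a b c 0 ↔ G n s b c a 0 := by
  rw [mv4 hn hab hac hbc, mv_all hn hbc hab.symm hac.symm _ 0]

theorem to_std {p : ℤ} (g : G n s a b c p) : G n s 0 1 2 0 := by
  rw [mv_all hn hab hac hbc p 0] at g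
  have g1 := (sw4 hn hab hac hbc).1 g
  have g2 := (sw4 hn hbc hab.symm hac.symm).1 g1
  have g3 := (sw3 hn hab hac hbc).1 g
  have g4 := (sw3 hn hbc hab.symm hac.symm).1 g1
  have g5 := (sw3 hn hac.symm hbc.symm hab).1 g2
  have : (a = 0 ∧ b = 1 ∧ c = 2) ∨ (b = 0 ∧ c = 1 ∧ a = 2) ∨ (c = 0 ∧ a = 1 ∧ b = 2) ∨
      (c = 0 ∧ b = 1 ∧ a = 2) ∨ (a = 0 ∧ c = 1 ∧ b = 2) ∨ (b = 0 ∧ a = 1 ∧ c = 2) := by
    clear g g1 g2 g3 g4 g5
    revert a b c; decide
  rcases this with ⟨rfl, rfl, rfl⟩ | ⟨rfl, rfl, rfl⟩ | ⟨rfl, rfl, rfl⟩ | ⟨rfl, rfl, rfl⟩ |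
    ⟨rfl, rfl, rfl⟩ | ⟨rfl, rfl, rfl⟩ <;> assumption

end Move

end YTr

end Pool.Agent.MP_9b2bac_nt.Z
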