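import Mathlib
import Pool.Agent.MP_9b2bac_nt.YDefs
import Pool.Agent.MP_9b2bac_nt.YTrans2

set_option autoImplicit false

namespace Pool.Agent.MP_9b2bac_nt.Z

open ZSweep

namespace YTr

/-- A run of `J` letters `c` followed by a block with a change of letter after its first place. -/
def Head (s : Seq 3) (c : Fin 3) (p : ℤ) (J : ℕ) : Prop :=
  1 ≤ J ∧ Run s c (p - J) p ∧
    ∃ q, p + 2 ≤ q ∧ (∀ w, p ≤ w → w ≤ q → s w ≠ c) ∧ s (q - 1) ≠ s q

theorem Head.blk {n : ℕ} {s : Seq 3} (hs : Per n s) {c : Fin 3} {p : ℤ} {J : ℕ}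
    (h : Head s c p J) : ∃ x y z e, c ≠ x ∧ c ≠ y ∧ x ≠ y ∧ p < z ∧
      (∀ w, p ≤ w → w < z → s w ≠ c) ∧ Tail s c x y z e := by
  obtain ⟨-, -, q, hq, hc, hd⟩ := h
  obtain ⟨e0, e1, e2⟩ := exists_ge hs c p
  obtain ⟨e, f1, f2, f3⟩ := exists_first (P := fun w => s w = c) e1 e2
  have hqe : q < e := by
    by_contra hh
    exact hc e f1 (by omega) f2
  obtain ⟨z0, z1, z2, z3⟩ : ∃ z0, p < z0 ∧ z0 ≤ e - 1 ∧ s z0 ≠ s (e - 1) := by
    by_cases hh : s q = s (e - 1)
    · exact ⟨q - 1, by omega, by omega, hh ▸ hd⟩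
    · exact ⟨q, by omega, by omega, hh⟩
  obtain ⟨z, g1, g2, g3, g4⟩ := exists_lst (P := fun w => s w ≠ s (e - 1)) z2 z3
  have hz : z ≠ e - 1 := fun hh => g3 (by rw [hh])
  exact ⟨s (e - 1), s z, z, e, Ne.symm (f3 _ (by omega) (by omega)),
    Ne.symm (f3 _ (by omega) (by omega)), Ne.symm g3, by omega,
    fun w w1 w2 => f3 w w1 (by omega), rfl,
    fun w w1 w2 => not_not.1 (g4 w w1 (by omega)), f2, by omega⟩

theorem head_of {n : ℕ} {s : Seq 3} (hs : Per n s) {i : ℤ} {c : Fin 3} (h0 : s i ≠ c)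
    (h1 : s (i + 1) ≠ c) (h2 : s (i + 2) ≠ c) (hd : s (i + 1) ≠ s (i + 2)) :
    ∃ p, Head s c p 1 := by
  obtain ⟨z, z1, z2, z3⟩ := exists_last hs c i
  have hz : z ≠ i := fun hh => h0 (hh ▸ z2)
  refine ⟨z + 1, le_rfl, fun w w1 w2 => by rwa [show w = z by push_cast at w1; omega],
    i + 2, by omega, fun w w1 w2 => ?_, by rwa [show i + 2 - 1 = i + 1 by ring]⟩
  by_cases hw : w ≤ i
  · exact z3 w (by omega) hw
  · by_cases hw1 : w = i + 1
    · rwa [hw1]
    · rwa [show w = i + 2 by omega]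

theorem exists_head {n : ℕ} (hn : 8 ≤ n) {s : Seq 3} (hs : Prim n s) :
    ∃ c p, Head s c p 1 := by
  by_contra hno
  push Not at hno
  have k1 : ∀ i, s (i + 1) ≠ s (i + 2) → s i ≠ s (i + 1) ∧ s i ≠ s (i + 2) := by
    intro i hd
    obtain ⟨c, c1, c2⟩ := third (s (i + 1)) (s (i + 2))
    by_cases h0 : s i = c
    · rw [h0]; exact ⟨c1, c2⟩
    · obtain ⟨p, hp⟩ := head_of hs.1 h0 c1.symm c2.symm hd
      exact absurd hp (hno c p)
  have k2 : ∀ i, s i ≠ s (i + 1) := by
    intro i hi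
    obtain ⟨b, hb, -⟩ := third (s i) (s i)
    obtain ⟨z0, z1, z2⟩ := exists_ge hs.1 b (i + 1)
    obtain ⟨z, y1, y2, y3⟩ := exists_first (P := fun w => s w ≠ s i) z1 (z2 ▸ hb)
    have hz : z ≠ i + 1 := fun hh => y2 (by rw [hh, hi])
    have e1 : s (z - 1) = s i := not_not.1 (y3 _ (by omega) (by omega))
    have e2 : s (z - 2) = s i := by
      by_cases hh : z - 2 = i
      · rw [hh]
      · exact not_not.1 (y3 _ (by omega) (by omega))
    have := k1 (z - 2) (by
      rw [show z - 2 + 1 = z - 1 by ring, show z - 2 + 2 = z by ring, e1]; exact y2.symm)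
    rw [show z - 2 + 1 = z - 1 by ring, e1, e2] at this
    exact this.1 rfl
  have k3 : ∀ i, s i ≠ s (i + 2) := fun i =>
    (k1 i (by have := k2 (i + 1); rwa [show i + 1 + 1 = i + 2 by ring] at this)).2
  refine hs.2 3 (by omega) ⟨by omega, fun i => ?_, hs.1.2.2⟩
  have a1 := k2 i
  have a2 := k3 i
  have a3 := k2 (i + 1)
  have a4 := k3 (i + 1)
  have a5 := k2 (i + 2)
  rw [show i + 1 + 1 = i + 2 by ring] at a3
  rw [show i + 1 + 2 = i + (3 : ℕ) by push_cast; ring] at a4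
  rw [show i + 2 + 1 = i + (3 : ℕ) by push_cast; ring] at a5
  rcases tri a1 a2 a3 (s (i + (3 : ℕ))) with h | h | h
  · exact h
  · exact absurd h.symm a4
  · exact absurd h.symm a5

/-- The configuration `x c ... c x y x c`. -/
def Conf (s : Seq 3) (c x y : Fin 3) (J : ℕ) (p : ℤ) : Prop :=
  s (p - J - 1) = x ∧ Run s c (p - J) p ∧ s p = x ∧ s (p + 1) = y ∧ s (p + 2) = x ∧
    s (p + 3) = c

section Step

variable {n J : ℕ} (hJ : 1 ≤ J)
  (IH : ∀ s c p, Prim n s → Head s c p (J + 1) → G n s 0 1 2 0)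
  {c x y : Fin 3} (hcx : c ≠ x) (hcy : c ≠ y) (hxy : x ≠ y)

include hJ IH hcx hcy hxy

theorem adv {s : Seq 3} (hs : Prim n s) {p z e : ℤ} (hr : Run s c (p - J) p) (hz : p < z)
    (hb : ∀ w, p ≤ w → w < z → s w ≠ c) (ht : Tail s c x y z e)
    (h0 : s (p - J - 1) = y ∨ (s (p - J - 1) = x ∧ ¬ (z = p + 1 ∧ e = p + 3))) :
    G n s 0 1 2 0 := by
  have hze := ht.2.2.2
  have hk : s (p - J - 1 + 1) = c := hr _ (by omega) (by omega)
  rcases h0 with h0 | ⟨h0, h1⟩
  · obtain ⟨t, r, kp, tl, hv⟩ := norm hs.1 hcx hcy hxy hb ht (Or.inr rfl)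
    have hrun := ext_run (s := t) hcy (hr.keep kp) ((kp.2 _ hk).trans h0) (hv p le_rfl hz)
    have r' := r.trans (re_mk r.2.1 hcy hJ)
    have t1 := tl.2.1 (z + 1) (by omega) hze
    have hy : ∀ w, p ≤ w → w ≤ z → t w = y := fun w w1 w2 => by
      rcases w2.lt_or_eq with h | rfl
      · exact hv w w1 h
      · exact tl.1
    have u1 : mk c y J t (z + 1) = x := by
      rw [mk_oth (t1 ▸ hcx.symm) (t1 ▸ hxy), t1]
    have u2 : ∀ w, p ≤ w → w ≤ z → mk c y J t w = y := fun w w1 w2 => by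
      rw [ext_fix hJ, hy w w1 w2]
      rcases w2.lt_or_eq with h | rfl
      · rw [hy _ (by omega) (by omega)]; exact hcy.symm
      · rw [t1]; exact hcx.symm
    refine G.back r'.1 (IH _ c p (r'.2.2 hs) ⟨by omega,
      fun w w1 w2 => hrun w (by push_cast at w1; omega) w2, z + 1, by omega,
      fun w w1 w2 => ?_, ?_⟩)
    · by_cases hw : w ≤ z
      · rw [u2 w w1 hw]; exact hcy.symm
      · rw [show w = z + 1 by omega, u1]; exact hcx.symm
    · rw [show z + 1 - 1 = z by ring, u1, u2 z hz.le le_rfl]; exact hxy.symm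
  · obtain ⟨t, r, kp, tl, hv⟩ := norm hs.1 hcx hcy hxy hb ht (Or.inl rfl)
    have hrun := ext_run (s := t) hcx (hr.keep kp) ((kp.2 _ hk).trans h0) (hv p le_rfl hz)
    have r' := r.trans (re_mk r.2.1 hcx hJ)
    have hne : ∀ w, p ≤ w → w < e → t w ≠ c := by
      intro w w1 w2
      rcases lt_trichotomy w z with h | rfl | h
      · rw [hv w w1 h]; exact hcx.symm
      · rw [tl.1]; exact hcy.symm
      · rw [tl.2.1 w h w2]; exact hcx.symm
    have hf : ∀ w, p ≤ w → w < e - 1 → mk c x J t w = t w := fun w w1 w2 =>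
      ext_fix hJ w (hne _ (by omega) (by omega))
    have fin : ∀ q, p + 2 ≤ q → q < e - 1 → t (q - 1) ≠ t q → G n s 0 1 2 0 := by
      intro q q1 q2 q3
      refine G.back r'.1 (IH _ c p (r'.2.2 hs) ⟨by omega,
        fun w w1 w2 => hrun w (by push_cast at w1; omega) w2, q, q1,
        fun w w1 w2 => ?_, ?_⟩)
      · rw [hf w w1 (by omega)]; exact hne w w1 (by omega)
      · rwa [hf _ (by omega) (by omega), hf _ (by omega) q2]
    by_cases hm : z = p + 1
    · refine fin (z + 1) (by omega) (by omega) ?_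
      rw [show z + 1 - 1 = z by ring, tl.1, tl.2.1 _ (by omega) hze]; exact hxy.symm
    · refine fin z (by omega) (by omega) ?_
      rw [tl.1, hv _ (by omega) (by omega)]; exact hxy

theorem conf_step {s : Seq 3} (hs : Prim n s) {p : ℤ} (h : Conf s c x y J p) :
    G n s 0 1 2 0 ∨ Conf s c x y J (p + J + 3) := by
  obtain ⟨h0, hr, a0, a1, a2, a3⟩ := h
  by_cases hh : Hit c x J s (p + 2)
  swap
  · left
    have hrun := ext_run hcx hr h0 a0
    have r' := re_mk hs.1 hcx hJ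
    have u0 : mk c x J s p = x := by rw [ext_fix hJ _ (a1 ▸ hcy.symm), a0]
    have u1 : mk c x J s (p + 1) = y := by
      rw [ext_fix hJ _ (by rw [show p + 1 + 1 = p + 2 by ring, a2]; exact hcx.symm), a1]
    have u2 : mk c x J s (p + 2) = x := by rw [mk_not hh, a2]
    refine G.back r'.1 (IH _ c p (r'.2.2 hs) ⟨by omega,
      fun w w1 w2 => hrun w (by push_cast at w1; omega) w2, p + 2, le_rfl,
      fun w w1 w2 => ?_, ?_⟩)
    · by_cases hw : w = p
      · rw [hw, u0]; exact hcx.symm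
      · by_cases hw1 : w = p + 1
        · rw [hw1, u1]; exact hcy.symm
        · rw [show w = p + 2 by omega, u2]; exact hcx.symm
    · rw [show p + 2 - 1 = p + 1 by ring, u1, u2]; exact hxy.symm
  have b1 : Run s c (p + 3) (p + J + 3) := fun w w1 w2 => hit_at hh w (by omega) (by omega)
  have b2 : s (p + J + 3) = x := by rw [← hh.2]; congr 1; ring
  by_cases h2 : Hit y x 1 s (p + J + 3)
  · have c1 : s (p + J + 3 + 1) = y := hit_at h2 _ (by omega) (by push_cast; omega)
    have c2 : s (p + J + 3 + 2) = x := by rw [← h2.2]; congr 1; push_cast; ring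
    have b1' : Run s c (p + J + 3 - J) (p + J + 3) := fun w w1 w2 => b1 w (by omega) w2
    have b0 : s (p + J + 3 - J - 1) = x := by rwa [show p + J + 3 - J - 1 = p + 2 by ring]
    by_cases c3 : s (p + J + 3 + 3) = c
    · exact Or.inr ⟨b0, b1', b2, c1, c2, c3⟩
    left
    have hd : Head s c (p + J + 3) J := by
      refine ⟨hJ, b1', p + J + 3 + 2, le_rfl, fun w w1 w2 => ?_, ?_⟩
      · by_cases hw : w = p + J + 3
        · rw [hw, b2]; exact hcx.symm
        · by_cases hw1 : w = p + J + 3 + 1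
          · rw [hw1, c1]; exact hcy.symm
          · rw [show w = p + J + 3 + 2 by omega, c2]; exact hcx.symm
      · rw [show p + J + 3 + 2 - 1 = p + J + 3 + 1 by ring, c1, c2]; exact hxy.symm
    obtain ⟨x', y', z, e, d1, d2, d3, d4, d5, d6⟩ := hd.blk hs.1
    refine adv hJ IH d1 d2 d3 hs b1' d4 d5 d6 ?_
    rcases tri d1 d2 d3 (s (p + J + 3 - J - 1)) with h | h | h
    · exact absurd (h.symm.trans b0) hcx
    · exact Or.inr ⟨h, fun he => c3 (he.2 ▸ d6.2.2.1)⟩
    · exact Or.inl h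
  left
  have r := re_mk hs.1 hxy.symm (j := 1) le_rfl
  have kp := keep_mk hcy hcx (j := 1) le_rfl s
  have u0 : mk y x 1 s p = y := by
    rw [mk_hit (hit_one _ _ rfl rfl a1 a2), a0, Equiv.swap_apply_right]
  have u1 : mk y x 1 s (p + 1) = y := by
    rw [mk_mid (p + 2) (by omega) (by push_cast; omega) (a2 ▸ hxy), a1]
  have u2 : mk y x 1 s (p + 2) = x :=
    (kp.2 _ (by rwa [show p + 2 + 1 = p + 3 by ring])).trans a2
  have u3 : mk y x 1 s (p + J + 3) = x := by rw [mk_not h2, b2]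
  have u4 : mk y x 1 s (p - J - 1) = x :=
    (kp.2 _ (hr _ (by omega) (by omega))).trans h0
  have u5 := hr.keep kp
  have u6 := b1.keep kp
  have pr := r.2.2 hs
  refine G.back r.1 ?_
  generalize mk y x 1 s = t at u0 u1 u2 u3 u4 u5 u6 pr
  by_cases hJ1 : J = 1
  · subst hJ1
    have v3 : t (p + 3) = c := u6 _ le_rfl (by push_cast; omega)
    have v4 : t (p + 4) = x := by rw [← u3]; congr 1; push_cast; ring
    refine IH _ y (p + 2) pr ⟨by omega, fun w w1 w2 => ?_, p + 4, by omega,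
      fun w w1 w2 => ?_, ?_⟩
    · by_cases hw : w = p
      · rwa [hw]
      · rwa [show w = p + 1 by push_cast at w1; omega]
    · by_cases hw : w = p + 2
      · rw [hw, u2]; exact hxy
      · by_cases hw1 : w = p + 3
        · rw [hw1, v3]; exact hcy
        · rw [show w = p + 4 by omega, v4]; exact hxy
    · rw [show p + 4 - 1 = p + 3 by ring, v3, v4]; exact hcx
  obtain ⟨K, hK⟩ : ∃ K : ℕ, (K : ℤ) = J - 1 := ⟨J - 1, by omega⟩
  have hK1 : 1 ≤ K := by omega
  have r' := re_mk pr.1 hcx hK1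
  have v0 : mk c x K t p = y := by rw [mk_oth (u0 ▸ hcy.symm) (u0 ▸ hxy.symm), u0]
  have v1 : mk c x K t (p + 1) = y := by rw [mk_oth (u1 ▸ hcy.symm) (u1 ▸ hxy.symm), u1]
  have v2 : mk c x K t (p + 2) = x := by
    rw [mk_last _ rfl (by rw [u6 _ (by omega) (by omega)]; exact hcx), u2]
  have v3 : mk c x K t (p + 3) = x := by
    rw [mk_hit (hit_of (fun w w1 w2 => u6 w (by omega) (by omega)) (p + J + 3) (by omega) u3),
      u6 _ le_rfl (by omega), Equiv.swap_apply_left]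
  have v4 : mk c x K t (p + 4) = c := by
    rw [mk_mid (p + J + 3) (by omega) (by omega) (u3 ▸ hcx.symm)]
    exact u6 _ (by omega) (by omega)
  have v5 : mk c x K t (p - J - 1) = x := by
    rw [mk_last _ rfl (by rw [u5 _ (by omega) (by omega)]; exact hcx), u4]
  have v6 : Run (mk c x K t) c (p - J) p := fun w w1 w2 => by
    by_cases hw : w = p - J
    · rw [mk_last p (by omega) (u0 ▸ hxy.symm)]; exact u5 w w1 w2
    · rw [mk_mid p w2 (by omega) (u0 ▸ hcy.symm)]; exact u5 w w1 w2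
  refine G.back r'.1 (adv hJ IH hcx hcy hxy (r'.2.2 pr) (z := p + 1) (e := p + 4) v6 (by omega)
    (fun w w1 w2 => by rw [show w = p by omega, v0]; exact hcy.symm)
    ⟨v1, fun w w1 w2 => ?_, v4, by omega⟩ (Or.inr ⟨v5, by omega⟩))
  by_cases hw : w = p + 2
  · rwa [hw]
  · rwa [show w = p + 3 by omega]

theorem conf_good (hn : 8 ≤ n) {s : Seq 3} (hs : Prim n s) {p : ℤ} (h : Conf s c x y J p) :
    G n s 0 1 2 0 := by
  by_contra hg
  have all : ∀ k : ℕ, Conf s c x y J (p + k * (J + 3)) := by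
    intro k
    induction k with
    | zero => simpa using h
    | succ k ih =>
      have := (conf_step hJ IH hcx hcy hxy hs ih).resolve_left hg
      rwa [show p + k * (J + 3) + J + 3 = p + ((k + 1 : ℕ) : ℤ) * (J + 3) by push_cast; ring]
        at this
  have loc : ∀ q, Conf s c x y J q → Conf s c x y J (q + (J + 3)) →
      Conf s c x y J (q + (J + 3) + (J + 3)) → ∀ r : ℤ, 0 ≤ r → r < J + 3 →
      s (q + r + (J + 3)) = s (q + r) := by
    intro q k0 k1 k2 r r0 r1
    rw [add_right_comm]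
    by_cases e0 : r = 0
    · subst e0; rw [add_zero, add_zero, k0.2.2.1, k1.2.2.1]
    by_cases e1 : r = 1
    · subst e1; rw [k0.2.2.2.1, k1.2.2.2.1]
    by_cases e2 : r = 2
    · subst e2; rw [k0.2.2.2.2.1, k1.2.2.2.2.1]
    rw [k2.2.1 _ (by omega) (by omega), k1.2.1 _ (by omega) (by omega)]
  have half : ∀ w, p ≤ w → s (w + (J + 3)) = s w := by
    intro w hw
    have hL : (0 : ℤ) < J + 3 := by omega
    have h0 := Int.emod_nonneg (w - p) hL.ne'
    have h1 := Int.emod_lt_of_pos (w - p) hL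
    have h2 := Int.emod_add_ediv_mul (w - p) (J + 3)
    obtain ⟨k, hk⟩ := Int.eq_ofNat_of_zero_le (Int.ediv_nonneg (a := w - p) (by omega) hL.le)
    rw [hk] at h2
    have k1 := all (k + 1)
    have k2 := all (k + 2)
    rw [show p + ((k + 1 : ℕ) : ℤ) * (J + 3) = p + k * (J + 3) + (J + 3) by push_cast; ring]
      at k1
    rw [show p + ((k + 2 : ℕ) : ℤ) * (J + 3) = p + k * (J + 3) + (J + 3) + (J + 3) by
      push_cast; ring] at k2
    have := loc _ (all k) k1 k2 _ h0 h1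
    rwa [show p + k * (J + 3) + (w - p) % (J + 3) = w by omega] at this
  have hper : Per (J + 3) s := by
    refine ⟨by omega, fun i => ?_, hs.1.2.2⟩
    have hn1 : (1 : ℤ) ≤ n := by omega
    have := half (i + |p - i| * n) (by nlinarith [le_abs_self (p - i), abs_nonneg (p - i)])
    rw [add_right_comm, hs.1.zper, hs.1.zper] at this
    rw [← this]; congr 1
  have hle : n ≤ J + 3 := by
    by_contra hlt
    exact hs.2 (J + 3) (by omega) hper
  have k1 := all 1
  have hrun : Run s c (p + 3) (p + J + 3) := fun w w1 w2 =>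
    k1.2.1 w (by push_cast; omega) (by push_cast; omega)
  have hnJ : n = J + 3 := by
    by_contra hne
    have e1 := hs.1.2.1 p
    rw [hrun _ (by omega) (by omega), h.2.2.1] at e1
    exact hcx e1
  exact hg (to_std hn hcx hcy hxy (p := p) ⟨s, Relation.EqvGen.refl _, hs.1, h.2.2.1,
    h.2.2.2.1, h.2.2.2.2.1, fun w w1 w2 => hrun w w1 (by omega)⟩)

end Step

theorem head_good {n : ℕ} (hn : 8 ≤ n) (D : ℕ) : ∀ J : ℕ, n ≤ J + D →
    ∀ s c p, Prim n s → Head s c p J → G n s 0 1 2 0 := by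
  induction D with
  | zero =>
    intro J hJ s c p hs ⟨_, hr, q, q1, q2, _⟩
    have := hr (p - n) (by omega) (by omega)
    rw [← hs.1.2.1, sub_add_cancel] at this
    exact absurd this (q2 p le_rfl (by omega))
  | succ D ih =>
    intro J hJ s c p hs h
    have IH := ih (J + 1) (by omega)
    have hJ1 := h.1
    by_cases h0 : s (p - J - 1) = c
    · refine IH s c p hs ⟨by omega, fun w w1 w2 => ?_, h.2.2⟩
      by_cases hw : p - J ≤ w
      · exact h.2.1 w hw w2
      · rwa [show w = p - J - 1 by push_cast at w1; omega]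
    obtain ⟨x, y, z, e, hcx, hcy, hxy, hz, hb, ht⟩ := h.blk hs.1
    by_cases hd : s (p - J - 1) = x ∧ z = p + 1 ∧ e = p + 3
    · obtain ⟨hx, rfl, rfl⟩ := hd
      obtain ⟨t, r, kp, tl, hv⟩ := norm hs.1 hcx hcy hxy hb ht (Or.inl rfl)
      exact G.back r.1 (conf_good hJ1 IH hcx hcy hxy hn (r.2.2 hs) (p := p)
        ⟨(kp.2 _ (h.2.1 _ (by omega) (by omega))).trans hx, h.2.1.keep kp, hv p le_rfl hz, tl.1,
          tl.2.1 _ (by omega) (by omega), tl.2.2.1⟩)
    · refine adv hJ1 IH hcx hcy hxy hs h.2.1 hz hb ht ?_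
      rcases tri hcx hcy hxy (s (p - J - 1)) with k | k | k
      · exact absurd k h0
      · exact Or.inr ⟨k, fun he => hd ⟨k, he⟩⟩
      · exact Or.inl k

theorem good {n : ℕ} (hn : 8 ≤ n) {s : Seq 3} (hs : Prim n s) : G n s 0 1 2 0 :=
  let ⟨c, p, h⟩ := exists_head hn hs
  head_good hn n 1 (by omega) s c p hs h

end YTr

theorem trans3 {n : ℕ} (hn : 8 ≤ n) {s t : Seq 3} (hs : Prim n s) (ht : Prim n t) :
    RelA n s t := by
  obtain ⟨a, r1, k1⟩ := YTr.good hn hs
  obtain ⟨b, r2, k2⟩ := YTr.good hn ht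
  obtain rfl := k1.uniq k2
  exact Relation.EqvGen.trans _ _ _ r1 (Relation.EqvGen.symm _ _ r2)

end Pool.Agent.MP_9b2bac_nt.Z
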