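import Mathlib
import Pool.Agent.MP_9b2bac_nt.ZDefs

set_option autoImplicit false

namespace Pool.Agent.MP_9b2bac_nt.Z.ZGiant

variable {d : ℕ}

theorem per_shift {n : ℕ} {s : Seq d} (h : Per n s) (a x : ℤ) :
    ∃ k : ℕ, k < n ∧ s (a + k) = s x ∧ (k : ℤ) = (x - a) % n := by
  have hn : (0 : ℤ) < n := by exact_mod_cast h.1
  have h0 := Int.emod_nonneg (x - a) hn.ne'
  have h1 := Int.emod_lt_of_pos (x - a) hn
  refine ⟨((x - a) % n).toNat, by omega, ?_, Int.toNat_of_nonneg h0⟩
  rw [Int.toNat_of_nonneg h0, ← h.zper (a + (x - a) % n) ((x - a) / n)]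
  congr 1
  have := Int.emod_add_ediv_mul (x - a) n
  linarith

theorem window {n : ℕ} {s t : Seq d} (hs : Per n s) (ht : Per n t) (a : ℤ)
    (h : ∀ k : ℕ, k < n → s (a + k) = t (a + k)) : s = t := by
  funext x
  obtain ⟨k, hk, h1, h2⟩ := per_shift hs a x
  obtain ⟨k', -, h1', h2'⟩ := per_shift ht a x
  have : k' = k := by exact_mod_cast h2'.trans h2.symm
  subst this
  rw [← h1, ← h1', h k' hk]

theorem ncard_le_of_inj {A : Set (Seq d)} {m : ℕ} (f : Seq d → Fin m → Fin d)
    (hf : Set.InjOn f A) : A.ncard ≤ d ^ m := by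
  have h1 := Set.ncard_le_ncard_of_injOn (s := A) (t := Set.univ) f (fun _ _ => trivial) hf
    (Set.toFinite _)
  rw [Set.ncard_univ, Nat.card_eq_fintype_card] at h1
  simpa using h1

theorem ncard_per_le (n : ℕ) : {s : Seq d | Per n s}.ncard ≤ d ^ n := by
  refine ncard_le_of_inj (fun s (k : Fin n) => s (k : ℕ)) ?_
  intro s hs t ht hst
  refine window hs ht 0 fun k hk => ?_
  simpa using congrFun hst ⟨k, hk⟩

theorem mk_eq_of_short (hd : 3 ≤ d) {n : ℕ} {s : Seq d} (h : Per n s) (u v : Fin d) {j : ℕ}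
    (hj : n ≤ j + 1) : mk u v j s = s := by
  obtain ⟨c, hcu, hcv⟩ : ∃ c : Fin d, c ≠ u ∧ c ≠ v := by
    by_contra hcon
    push Not at hcon
    have hsub : (Finset.univ : Finset (Fin d)) ⊆ {u, v} := by
      intro c _
      by_cases hc : c = u
      · simp [hc]
      · simp [hcon c hc]
    have h1 := Finset.card_le_card hsub
    have h2 : ({u, v} : Finset (Fin d)).card ≤ 2 := Finset.card_le_two
    rw [Finset.card_univ, Fintype.card_fin] at h1
    omega
  funext i
  have hno : ¬ Hit u v j s i := by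
    rintro ⟨h1, h2⟩
    obtain ⟨x, hx⟩ := h.2.2 c
    obtain ⟨k, hk, hk1, -⟩ := per_shift h (i + 1) x
    rw [hx] at hk1
    by_cases hkj : k + 1 ≤ j
    · have := h1 (k + 1) (by omega) hkj
      apply hcu
      rw [← hk1, ← this]
      congr 1
      push_cast
      ring
    · have hkj' : k = j := by omega
      apply hcv
      rw [← hk1, ← h2, hkj']
      congr 1
      ring
  simp [mk, hno]

theorem hit_emod {n : ℕ} {s : Seq d} (h : Per n s) {u v : Fin d} {j : ℕ} {i : ℤ}
    (hi : Hit u v j s i) : Hit u v j s (i % n) := by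
  have key : ∀ y : ℤ, s (i % n + y) = s (i + y) := by
    intro y
    rw [← h.zper (i % n + y) (i / n)]
    congr 1
    have := Int.emod_add_ediv_mul i n
    linarith
  refine ⟨fun k h1 h2 => ?_, ?_⟩
  · rw [key]; exact hi.1 k h1 h2
  · rw [add_assoc, key, ← add_assoc]; exact hi.2

theorem ncard_hit_le {n : ℕ} (u v : Fin d) {j : ℕ} (hj : j + 1 ≤ n) (i : ℤ) :
    {s : Seq d | Per n s ∧ Hit u v j s i}.ncard ≤ d ^ (n - j - 1) := by
  refine ncard_le_of_inj (fun s (k : Fin (n - j - 1)) => s (i + j + 2 + (k : ℕ))) ?_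
  intro s hs t ht hst
  refine window hs.1 ht.1 (i + 1) fun k hk => ?_
  rcases lt_trichotomy k j with hkj | hkj | hkj
  · have e : i + 1 + (k : ℤ) = i + ((k + 1 : ℕ) : ℤ) := by push_cast; ring
    rw [e, hs.2.1 (k + 1) (by omega) (by omega), ht.2.1 (k + 1) (by omega) (by omega)]
  · have e : i + 1 + (k : ℤ) = i + j + 1 := by rw [hkj]; ring
    rw [e, hs.2.2, ht.2.2]
  · have := congrFun hst ⟨k - j - 1, by omega⟩
    have e : i + 1 + (k : ℤ) = i + j + 2 + ((k - j - 1 : ℕ) : ℤ) := by omega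
    rw [e]
    exact this

theorem ncard_supp_le {n : ℕ} (u v : Fin d) {j : ℕ} (hj : j + 1 ≤ n) :
    {s : Seq d | Per n s ∧ mk u v j s ≠ s}.ncard ≤ n * d ^ (n - j - 1) := by
  classical
  have hfin : ∀ i : ℤ, {s : Seq d | Per n s ∧ Hit u v j s i}.Finite := fun i =>
    (finite_per n).subset fun s hs => hs.1
  have hsub : {s : Seq d | Per n s ∧ mk u v j s ≠ s} ⊆
      ↑((Finset.range n).biUnion fun i : ℕ => (hfin i).toFinset) := by
    rintro s ⟨hs, hne⟩
    obtain ⟨i, hi⟩ := Function.ne_iff.1 hne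
    have hh : Hit u v j s i := by
      by_contra hno
      exact hi (by simp [mk, hno])
    have hn : (0 : ℤ) < n := by exact_mod_cast hs.1
    have h0 := Int.emod_nonneg i hn.ne'
    have h1 := Int.emod_lt_of_pos i hn
    simp only [Finset.coe_biUnion, Finset.coe_range, Set.mem_iUnion, Set.Finite.coe_toFinset]
    refine ⟨(i % n).toNat, by simp only [Set.mem_Iio]; omega, hs, ?_⟩
    rw [Int.toNat_of_nonneg h0]
    exact hit_emod hs hh
  refine (Set.ncard_le_ncard hsub (Finset.finite_toSet _)).trans ?_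
  rw [Set.ncard_coe_finset]
  refine Finset.card_biUnion_le.trans ?_
  refine (Finset.sum_le_card_nsmul _ _ (d ^ (n - j - 1)) fun i _ => ?_).trans (by simp)
  rw [← Set.ncard_eq_toFinset_card _ (hfin i)]
  exact ncard_hit_le u v hj i

theorem bern (E : ℕ) (hE : 0 < E) : 2 * E ^ (E + 1) < (E + 1) ^ (E + 1) := by
  have hE' : (0 : ℝ) < E := by exact_mod_cast hE
  have h1 := one_add_mul_le_pow (a := (1 / E : ℝ)) (by
    have : (0 : ℝ) < 1 / E := by positivity
    linarith) (E + 1)
  have h2 : (2 : ℝ) < 1 + ((E + 1 : ℕ) : ℝ) * (1 / E) := by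
    push_cast
    have : ((E : ℝ) + 1) * (1 / E) = 1 + 1 / E := by field_simp
    have h3 : (0 : ℝ) < 1 / E := by positivity
    linarith
  have h3 : ((E : ℝ) + 1) = E * (1 + 1 / E) := by field_simp
  have h4 : (2 : ℝ) * E ^ (E + 1) < (E + 1) ^ (E + 1) := by
    rw [h3, mul_pow]
    have h5 : (0 : ℝ) < E ^ (E + 1) := by positivity
    nlinarith
  exact_mod_cast h4

/-- The pattern: four zeros, the zone, one zero. -/
def pat (d : ℕ) [NeZero d] (a : ℕ) : Fin d :=
  if 4 ≤ a ∧ a < 4 + 2 * (d - 1) then L d ((a - 4) / 2) else 0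

theorem card_bad [NeZero d] (n l K : ℕ) (hl : 0 < l) (hK : K * l ≤ n) (p : Fin l → Fin d) :
    {f : ℕ → Fin d | (∀ x, n ≤ x → f x = 0) ∧
      ∀ k, k < K → (fun a : Fin l => f (k * l + a)) ≠ p}.ncard ≤
      (d ^ l - 1) ^ K * d ^ (n - K * l) := by
  classical
  let B : Finset ((Fin K → Fin l → Fin d) × (Fin (n - K * l) → Fin d)) := (Fintype.piFinset fun _ => Finset.univ.erase p) ×ˢ Finset.univ
  have hB : B.card = (d ^ l - 1) ^ K * d ^ (n - K * l) := by
    simp [B, Finset.card_product, Fintype.card_piFinset, Finset.card_erase_of_mem]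
  rw [← hB, ← Set.ncard_coe_finset]
  refine Set.ncard_le_ncard_of_injOn
    (fun f => ((fun (k : Fin K) (a : Fin l) => f (k * l + a),
      fun b : Fin (n - K * l) => f (K * l + b)) :
        (Fin K → Fin l → Fin d) × (Fin (n - K * l) → Fin d))) ?_ ?_ (Finset.finite_toSet _)
  · rintro f ⟨-, hf⟩
    simp only [B, Finset.coe_product, Set.mem_prod, Finset.mem_coe, Fintype.mem_piFinset,
      Finset.mem_erase, Finset.mem_univ, and_true]
    exact fun k => hf k k.2
  · rintro f ⟨hf, -⟩ g ⟨hg, -⟩ hfg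
    funext x
    by_cases hx : n ≤ x
    · rw [hf x hx, hg x hx]
    by_cases hx2 : K * l ≤ x
    · have := congrFun (congrArg Prod.snd hfg) ⟨x - K * l, by omega⟩
      simp only at this
      rwa [show K * l + (x - K * l) = x by omega] at this
    · have h1 : x / l < K := by
        rw [Nat.div_lt_iff_lt_mul hl]; omega
      have := congrFun (congrFun (congrArg Prod.fst hfg) ⟨x / l, h1⟩) ⟨x % l, Nat.mod_lt _ hl⟩
      simp only at this
      rwa [Nat.div_add_mod' x l] at this

theorem card_all [NeZero d] (n : ℕ) :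
    {f : ℕ → Fin d | ∀ x, n ≤ x → f x = 0}.Finite ∧
    d ^ n ≤ {f : ℕ → Fin d | ∀ x, n ≤ x → f x = 0}.ncard := by
  classical
  have hfin : {f : ℕ → Fin d | ∀ x, n ≤ x → f x = 0}.Finite := by
    refine Set.Finite.of_finite_image (f := fun f (k : Fin n) => f k) (Set.toFinite _) ?_
    intro f hf g hg hfg
    funext x
    by_cases hx : n ≤ x
    · rw [hf x hx, hg x hx]
    · exact congrFun hfg ⟨x, by omega⟩
  refine ⟨hfin, ?_⟩
  have h1 := Set.ncard_le_ncard_of_injOn (s := (Set.univ : Set (Fin n → Fin d)))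
    (t := {f : ℕ → Fin d | ∀ x, n ≤ x → f x = 0})
    (fun g x => if h : x < n then g ⟨x, h⟩ else 0) (fun g _ x hx => by
      simp only
      rw [dif_neg (by omega)]) (fun g _ g' _ h => by
      funext k
      have := congrFun h k
      simpa [k.2] using this) hfin
  rw [Set.ncard_univ, Nat.card_eq_fintype_card] at h1
  simpa using h1

theorem L_surj [NeZero d] (c : Fin d) (hc : c ≠ 0) : ∃ k, k < d - 1 ∧ L d k = c := by
  have h0 : (c : ℕ) ≠ 0 := fun h => hc (Fin.ext (by simpa using h))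
  have h1 := c.2
  refine ⟨c - 1, by omega, Fin.ext ?_⟩
  simp only [L, Fin.ofNat]
  rw [show (c : ℕ) - 1 + 1 = c by omega, Nat.mod_eq_of_lt h1]

theorem many_struct [NeZero d] (hd : 3 ≤ d) : ∃ n₀ : ℕ, ∀ n : ℕ, n₀ ≤ n →
    d ^ n < 2 * {s : Seq d | Per n s ∧ ∃ i, Struct s i 4}.ncard := by
  classical
  set l := 2 * d + 3 with hl
  obtain ⟨E, hE⟩ : ∃ E, d ^ l = E + 1 := ⟨d ^ l - 1, by
    have : 0 < d ^ l := by positivity
    omega⟩
  have hE0 : 0 < E := by
    have : 1 < d ^ l := Nat.one_lt_pow (by omega) (by omega)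
    omega
  refine ⟨(E + 1) * l, fun n hn => ?_⟩
  have hn0 : 0 < n := lt_of_lt_of_le (by positivity) hn
  have hnz : (0 : ℤ) < n := by exact_mod_cast hn0
  let p : Fin l → Fin d := fun a => pat d a
  let A := {f : ℕ → Fin d | ∀ x, n ≤ x → f x = 0}
  let Bd := {f : ℕ → Fin d | (∀ x, n ≤ x → f x = 0) ∧
      ∀ k, k < E + 1 → (fun a : Fin l => f (k * l + a)) ≠ p}
  have hB : Bd.ncard ≤ _ := card_bad n l (E + 1) (by omega) hn p
  obtain ⟨hAf, hA⟩ := card_all (d := d) n
  have h2 : 2 * Bd.ncard < d ^ n := by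
    have e : d ^ n = (E + 1) ^ (E + 1) * d ^ (n - (E + 1) * l) := by
      rw [← hE, ← pow_mul, ← pow_add, hE]
      congr 1
      rw [mul_comm l]
      omega
    rw [hE, Nat.add_sub_cancel] at hB
    have h3 := bern E hE0
    have h4 : 0 < d ^ (n - (E + 1) * l) := by positivity
    rw [e]
    nlinarith
  have h5 : A.ncard ≤ (A \ Bd).ncard + Bd.ncard := by
    have : Bd ⊆ A := fun f hf => hf.1
    rw [Set.ncard_sdiff_add_ncard_of_subset this hAf]
  have h6 : (A \ Bd).ncard ≤ {s : Seq d | Per n s ∧ ∃ i, Struct s i 4}.ncard := by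
    refine Set.ncard_le_ncard_of_injOn (fun f x => f (x % n).toNat) ?_ ?_
      ((finite_per n).subset fun s hs => hs.1)
    · rintro f ⟨hf, hf2⟩
      have : ∃ k, k < E + 1 ∧ (fun a : Fin l => f (k * l + a)) = p := by
        by_contra hcon
        push Not at hcon
        exact hf2 ⟨hf, hcon⟩
      obtain ⟨k, hk, hp⟩ := this
      have hkl : k * l + l ≤ n := by
        have : (k + 1) * l ≤ (E + 1) * l := Nat.mul_le_mul_right _ hk
        nlinarith
      have hv : ∀ a : ℕ, a < l → ∀ x : ℤ, x = (k * l + a : ℕ) → f (x % n).toNat = pat d a := by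
        intro a ha x hx
        rw [hx, Int.emod_eq_of_lt (by positivity) (by exact_mod_cast (by omega)), Int.toNat_natCast]
        exact congrFun hp ⟨a, ha⟩
      refine ⟨⟨hn0, fun i => by simp, fun c => ?_⟩, (k * l + 4 : ℕ), ?_, ?_, ?_⟩
      · by_cases hc : c = 0
        · refine ⟨(k * l + 0 : ℕ), ?_⟩
          simp only
          rw [hv 0 (by omega) _ rfl, hc]
          simp [pat]
        · obtain ⟨r, hr, hrc⟩ := L_surj c hc
          refine ⟨(k * l + (4 + 2 * r) : ℕ), ?_⟩
          simp only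
          rw [hv (4 + 2 * r) (by omega) _ rfl, pat, if_pos (by omega), ← hrc]
          congr 1
          omega
      · intro a ha
        simp only
        rw [hv (4 + a) (by omega) _ (by push_cast; ring), pat, if_pos (by omega)]
        congr 2
        omega
      · simp only
        rw [hv (4 + 2 * (d - 1)) (by omega) _ (by push_cast; ring), pat, if_neg (by omega)]
      · intro a h1 h4
        simp only
        rw [hv (4 - a) (by omega) _ (by omega), pat, if_neg (by omega)]
    · rintro f ⟨hf, -⟩ g ⟨hg, -⟩ hfg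
      funext x
      by_cases hx : n ≤ x
      · rw [hf x hx, hg x hx]
      · have := congrFun hfg (x : ℤ)
        simp only at this
        rwa [Int.emod_eq_of_lt (by positivity) (by omega), Int.toNat_natCast] at this
  have h7 : d ^ n ≤ A.ncard := hA
  omega

end Pool.Agent.MP_9b2bac_nt.Z.ZGiant
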