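import Mathlib
import Pool.Agent.MP_9b2bac_nt.ZSweep

set_option autoImplicit false

namespace Pool.Agent.MP_9b2bac_nt.Z

variable {d : ℕ}

namespace ZRot

/-- Shift by an integer. -/
def shk (k : ℤ) (s : Seq d) : Seq d := fun x => s (x + k)

theorem hit_shk (u v : Fin d) (j : ℕ) (k : ℤ) (s : Seq d) (x : ℤ) :
    Hit u v j (shk k s) x ↔ Hit u v j s (x + k) := by
  unfold Hit shk
  constructor
  · rintro ⟨h1, h2⟩
    refine ⟨fun l hl hl' => ?_, ?_⟩
    · rw [show x + k + l = x + l + k by ring]; exact h1 l hl hl'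
    · rw [show x + k + j + 1 = x + j + 1 + k by ring]; exact h2
  · rintro ⟨h1, h2⟩
    refine ⟨fun l hl hl' => ?_, ?_⟩
    · rw [show x + l + k = x + k + l by ring]; exact h1 l hl hl'
    · rw [show x + j + 1 + k = x + k + j + 1 by ring]; exact h2

theorem mk_shk (u v : Fin d) (j : ℕ) (k : ℤ) (s : Seq d) :
    mk u v j (shk k s) = shk k (mk u v j s) := by
  funext x
  by_cases h : Hit u v j s (x + k)
  · have h' := (hit_shk u v j k s x).2 h
    simp only [mk, shk, h, if_true]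
    rw [if_pos h']
  · have h' : ¬ Hit u v j (shk k s) x := fun h' => h ((hit_shk u v j k s x).1 h')
    simp only [mk, shk, h, if_false]
    rw [if_neg h']

theorem per_shk {n : ℕ} {s : Seq d} (h : Per n s) (k : ℤ) : Per n (shk k s) := by
  refine ⟨h.1, fun i => ?_, fun a => ?_⟩
  · show s (i + n + k) = s (i + k)
    rw [show i + n + k = i + k + n by ring, h.2.1]
  · obtain ⟨i, hi⟩ := h.2.2 a
    exact ⟨i - k, by simpa [shk] using hi⟩

theorem rel_shk [NeZero d] {n : ℕ} {s t : Seq d} (h : Rel n s t) (k : ℤ) :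
    Rel n (shk k s) (shk k t) := by
  induction h with
  | rel x y hxy =>
    obtain ⟨hp, u, v, j, hu, rfl⟩ := hxy
    exact Relation.EqvGen.rel _ _ ⟨per_shk hp k, u, v, j, hu, (mk_shk u v j k x).symm⟩
  | refl x => exact Relation.EqvGen.refl _
  | symm x y _ ih => exact Relation.EqvGen.symm _ _ ih
  | trans x y z _ _ ih1 ih2 => exact Relation.EqvGen.trans _ _ _ ih1 ih2

theorem shk_can [NeZero d] (n : ℕ) (i k : ℤ) : shk k (can d n i) = can d n (i - k) := by
  funext x
  simp only [shk, can]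
  rw [show x + k - i = x - (i - k) by ring]

theorem can_add [NeZero d] (n : ℕ) (i : ℤ) : can d n (i + n) = can d n i := by
  funext x
  simp only [can]
  rw [show x - (i + n) = x - i + (-1) * n by ring, Int.add_mul_emod_self_right]

/-- The periodic word with the window `[-p, n - p)` of `V`. -/
def wd (n : ℕ) (p : ℤ) (V : Seq d) : Seq d := fun x => V ((x + p) % n - p)

theorem wd_add [NeZero d] {n : ℕ} {p N : ℤ} {V : Seq d} (hV : ∀ x, x < 0 ∨ N ≤ x → V x = 0)
    (hN : N + p ≤ n) (hp : p ≤ n) (hn : 0 < n) (x k : ℤ) (hk0 : 0 ≤ k) (hk : k ≤ p) :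
    wd n p V (x + k) = V ((x + p) % n - p + k) := by
  have hn' : (0 : ℤ) < n := by exact_mod_cast hn
  have h0 := Int.emod_nonneg (x + p) hn'.ne'
  have h1 := Int.emod_lt_of_pos (x + p) hn'
  have e : (x + k + p) % n = ((x + p) % n + k) % n := by
    rw [Int.emod_add_emod]; congr 1; ring
  unfold wd
  rw [e]
  set y := (x + p) % n with hy
  by_cases h : y + k < n
  · rw [Int.emod_eq_of_lt (by omega) h]; congr 1; ring
  · have : (y + k) % n = y + k - n := by
      rw [show y + k = y + k - n + 1 * n by ring, Int.add_mul_emod_self_right,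
        Int.emod_eq_of_lt (by omega) (by omega)]; ring
    rw [this, hV _ (Or.inl (by omega)), hV _ (Or.inr (by omega))]

theorem mk_wd [NeZero d] {n : ℕ} {p N : ℤ} {V : Seq d} (hV : ∀ x, x < 0 ∨ N ≤ x → V x = 0)
    (hN : N + p ≤ n) (hp : p ≤ n) (hn : 0 < n) (u v : Fin d) {j : ℕ} (hj : (j : ℤ) + 1 ≤ p) :
    mk u v j (wd n p V) = wd n p (mk u v j V) := by
  funext x
  have key : Hit u v j (wd n p V) x ↔ Hit u v j V ((x + p) % n - p) := by
    unfold Hit
    rw [add_assoc x, wd_add hV hN hp hn x (j + 1) (by omega) hj, ← add_assoc]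
    refine and_congr_left fun _ => forall_congr' fun k => forall_congr' fun hk =>
      forall_congr' fun hk' => ?_
    rw [wd_add hV hN hp hn x k (by omega) (by omega)]
  by_cases h : Hit u v j V ((x + p) % n - p)
  · have h' := key.2 h
    simp only [mk, wd, h, if_true]
    rw [if_pos h']
  · have h' : ¬ Hit u v j (wd n p V) x := fun h' => h (key.1 h')
    simp only [mk, wd, h, if_false]
    rw [if_neg h']

theorem wd_of_mem {n : ℕ} {p : ℤ} (V : Seq d) {x : ℤ} (h0 : -p ≤ x) (h1 : x < n - p) :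
    wd n p V x = V x := by
  unfold wd
  rw [Int.emod_eq_of_lt (by omega) (by omega)]; congr 1; ring

theorem mk_eq {u v : Fin d} {j : ℕ} {s t : Seq d} (P : ℤ → Prop) (h : ∀ x, Hit u v j s x ↔ P x)
    (h1 : ∀ x, P x → (s x = u ∧ t x = v) ∨ (s x = v ∧ t x = u)) (h2 : ∀ x, ¬ P x → t x = s x) :
    mk u v j s = t := by
  funext x
  by_cases hx : P x
  · have := (h x).2 hx
    simp only [mk, this, if_true]
    rcases h1 x hx with ⟨a, b⟩ | ⟨a, b⟩
    · rw [a, b, Equiv.swap_apply_left]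
    · rw [a, b, Equiv.swap_apply_right]
  · have : ¬ Hit u v j s x := fun h' => hx ((h x).1 h')
    simp only [mk, this, if_false]
    exact (h2 x hx).symm

theorem hit_one {u v : Fin d} {s : Seq d} {x : ℤ} :
    Hit u v 1 s x ↔ s (x + 1) = u ∧ s (x + 2) = v := by
  unfold Hit
  constructor
  · rintro ⟨h1, h2⟩
    exact ⟨by simpa using h1 1 le_rfl le_rfl, by rw [← h2]; congr 1; push_cast; ring⟩
  · rintro ⟨h1, h2⟩
    refine ⟨fun k hk hk' => ?_, by rw [← h2]; congr 1; push_cast; ring⟩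
    obtain rfl : k = 1 := by omega
    simpa using h1

/-- Values of the explicit words. -/
def vv (m k r t q : ℕ) (x : ℤ) : ℤ :=
  if 0 ≤ x ∧ x < 2 * m then
    (if x % 2 = 1 then (if x / 2 < k then x / 2 + 1 else 0)
      else (if x / 2 < q then x / 2 + 1 else 0))
  else if 2 * m + 1 ≤ x ∧ x < 4 * m + 1 then
    (if x % 2 = 0 then x / 2 - m
      else if m ≤ q ∧ x = 4 * m - 1 then 0
      else if r + m ≤ x / 2 ∧ x / 2 < t + m then t + 1 else x / 2 - m + 1)
  else 0

theorem vv_spec (m k r t q : ℕ) (x : ℤ) :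
    (0 ≤ x ∧ x < 2 * m ∧ x % 2 = 1 ∧ x / 2 < k ∧ vv m k r t q x = x / 2 + 1) ∨
    (0 ≤ x ∧ x < 2 * m ∧ x % 2 = 1 ∧ k ≤ x / 2 ∧ vv m k r t q x = 0) ∨
    (0 ≤ x ∧ x < 2 * m ∧ x % 2 = 0 ∧ x / 2 < q ∧ vv m k r t q x = x / 2 + 1) ∨
    (0 ≤ x ∧ x < 2 * m ∧ x % 2 = 0 ∧ q ≤ x / 2 ∧ vv m k r t q x = 0) ∨
    (2 * m + 1 ≤ x ∧ x < 4 * m + 1 ∧ x % 2 = 0 ∧ vv m k r t q x = x / 2 - m) ∨
    (2 * m + 1 ≤ x ∧ x < 4 * m + 1 ∧ x % 2 = 1 ∧ m ≤ q ∧ x = 4 * m - 1 ∧ vv m k r t q x = 0) ∨
    (2 * m + 1 ≤ x ∧ x < 4 * m + 1 ∧ x % 2 = 1 ∧ (q < m ∨ x ≠ 4 * m - 1) ∧ r + m ≤ x / 2 ∧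
      x / 2 < t + m ∧ vv m k r t q x = t + 1) ∨
    (2 * m + 1 ≤ x ∧ x < 4 * m + 1 ∧ x % 2 = 1 ∧ (q < m ∨ x ≠ 4 * m - 1) ∧
      (x / 2 < r + m ∨ t + m ≤ x / 2) ∧ vv m k r t q x = x / 2 - m + 1) ∨
    ((x < 0 ∨ x = 2 * m ∨ 4 * m + 1 ≤ x) ∧ vv m k r t q x = 0) := by
  unfold vv
  split_ifs
  · left; omega
  · right; left; omega
  · right; right; left; omega
  · right; right; right; left; omega
  · right; right; right; right; left; omega
  · right; right; right; right; right; left; omega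
  · right; right; right; right; right; right; left; omega
  · right; right; right; right; right; right; right; left; omega
  · right; right; right; right; right; right; right; right; omega

/-- The explicit words. -/
def VV (d : ℕ) [NeZero d] (k r t q : ℕ) : Seq d :=
  fun x => Fin.ofNat d (vv (d - 1) k r t q x).toNat

theorem VV_val [NeZero d] {k r t q : ℕ} (ht : t < d - 1) (x : ℤ) :
    ((VV d k r t q x : ℕ) : ℤ) = vv (d - 1) k r t q x := by
  have h := vv_spec (d - 1) k r t q x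
  have h1 : (vv (d - 1) k r t q x).toNat < d := by omega
  have h2 : 0 ≤ vv (d - 1) k r t q x := by omega
  simp only [VV, Fin.val_ofNat, Nat.mod_eq_of_lt h1]
  omega

theorem VV_iff [NeZero d] {k r t q : ℕ} (ht : t < d - 1) (x : ℤ) (a : Fin d) :
    VV d k r t q x = a ↔ vv (d - 1) k r t q x = (a : ℕ) := by
  rw [← VV_val ht, Fin.ext_iff]; omega

theorem L_val [NeZero d] {k : ℕ} (hk : k < d - 1) : ((L d k : Fin d) : ℕ) = k + 1 := by
  simp only [L, Fin.val_ofNat]
  exact Nat.mod_eq_of_lt (by omega)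

theorem L_last [NeZero d] : L d (d - 1) = 0 := by
  have := NeZero.pos d
  apply Fin.ext
  simp only [L, Fin.val_ofNat, Fin.val_zero]
  rw [show d - 1 + 1 = d by omega, Nat.mod_self]

theorem stepA [NeZero d] {k r t : ℕ} (hr : r < t) (ht : t < d - 1) :
    mk (L d r) (L d t) 1 (VV d k (r + 1) t 0) = VV d k r t 0 := by
  have hr' : r < d - 1 := by omega
  refine mk_eq (fun x => x = 2 * ((d - 1 : ℕ) : ℤ) + 1 + 2 * r) (fun x => ?_) (fun x hx => ?_)
    (fun x hx => ?_)
  · rw [hit_one, VV_iff ht, VV_iff ht, L_val ht, L_val hr']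
    have h1 := vv_spec (d - 1) k (r + 1) t 0 (x + 1)
    have h2 := vv_spec (d - 1) k (r + 1) t 0 (x + 2)
    omega
  · left
    rw [VV_iff ht, VV_iff ht, L_val ht, L_val hr']
    have h1 := vv_spec (d - 1) k (r + 1) t 0 x
    have h2 := vv_spec (d - 1) k r t 0 x
    omega
  · rw [VV_iff ht, VV_val ht]
    have h1 := vv_spec (d - 1) k (r + 1) t 0 x
    have h2 := vv_spec (d - 1) k r t 0 x
    omega

theorem stepB [NeZero d] {k : ℕ} (hk : k < d - 1) :
    mk 0 (L d k) (2 * (d - 1) - 2 * k - 1) (VV d k 0 k 0) = VV d (k + 1) 0 k 0 := by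
  refine mk_eq (fun x => x = 2 * (k : ℤ) + 1) (fun x => ?_) (fun x hx => ?_) (fun x hx => ?_)
  · unfold Hit
    constructor
    · rintro ⟨a, b⟩
      have a' := a _ (by omega) le_rfl
      rw [VV_iff hk] at a' b
      rw [L_val hk] at b
      have h1 := vv_spec (d - 1) k 0 k 0 (x + (2 * (d - 1) - 2 * k - 1 : ℕ))
      have h2 := vv_spec (d - 1) k 0 k 0 (x + (2 * (d - 1) - 2 * k - 1 : ℕ) + 1)
      simp only [Fin.val_zero] at a'
      omega
    · intro hx
      refine ⟨fun l hl hl' => ?_, ?_⟩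
      · rw [VV_iff hk]
        have h1 := vv_spec (d - 1) k 0 k 0 (x + l)
        simp only [Fin.val_zero]
        omega
      · rw [VV_iff hk, L_val hk]
        have h2 := vv_spec (d - 1) k 0 k 0 (x + (2 * (d - 1) - 2 * k - 1 : ℕ) + 1)
        omega
  · left
    rw [VV_iff hk, VV_iff hk, L_val hk]
    have h1 := vv_spec (d - 1) k 0 k 0 x
    have h2 := vv_spec (d - 1) (k + 1) 0 k 0 x
    simp only [Fin.val_zero]
    omega
  · rw [VV_iff hk, VV_val hk]
    have h1 := vv_spec (d - 1) k 0 k 0 x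
    have h2 := vv_spec (d - 1) (k + 1) 0 k 0 x
    omega

theorem stepC [NeZero d] {q : ℕ} (hq : q < d - 1) :
    mk (L d q) (L d (d - 1)) 1 (VV d (d - 1) 0 0 q) = VV d (d - 1) 0 0 (q + 1) := by
  have h0 : 0 < d - 1 := by omega
  refine mk_eq (fun x => x = 2 * (q : ℤ) ∨ (q + 1 = d - 1 ∧ x = 4 * ((d - 1 : ℕ) : ℤ) - 1))
    (fun x => ?_) (fun x hx => ?_) (fun x hx => ?_)
  · rw [hit_one, VV_iff h0, VV_iff h0, L_last, L_val hq]
    have h1 := vv_spec (d - 1) (d - 1) 0 0 q (x + 1)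
    have h2 := vv_spec (d - 1) (d - 1) 0 0 q (x + 2)
    simp only [Fin.val_zero]
    omega
  · rw [VV_iff h0, VV_iff h0, VV_iff h0, VV_iff h0, L_last, L_val hq]
    have h1 := vv_spec (d - 1) (d - 1) 0 0 q x
    have h2 := vv_spec (d - 1) (d - 1) 0 0 (q + 1) x
    simp only [Fin.val_zero]
    omega
  · rw [VV_iff h0, VV_val h0]
    have h1 := vv_spec (d - 1) (d - 1) 0 0 q x
    have h2 := vv_spec (d - 1) (d - 1) 0 0 (q + 1) x
    omega

theorem VV_diag [NeZero d] (k t t' : ℕ) (ht : t < d - 1) (ht' : t' < d - 1) :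
    VV d k t t 0 = VV d k t' t' 0 := by
  funext x
  rw [VV_iff ht, VV_val ht']
  have h1 := vv_spec (d - 1) k t t 0 x
  have h2 := vv_spec (d - 1) k t' t' 0 x
  omega

/-- The periodic explicit words. -/
def WW (d : ℕ) [NeZero d] (n k r t q : ℕ) : Seq d := wd n (2 * ((d - 1 : ℕ) : ℤ) + 1) (VV d k r t q)

theorem per_WW [NeZero d] {n k r t q : ℕ} (ht : t < d - 1) (hbig : 12 * d ≤ n) :
    Per n (WW d n k r t q) := by
  refine ⟨by omega, fun i => ?_, fun a => ?_⟩
  · unfold WW wd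
    rw [show i + n + (2 * ((d - 1 : ℕ) : ℤ) + 1) = i + (2 * ((d - 1 : ℕ) : ℤ) + 1) + 1 * n by ring,
      Int.add_mul_emod_self_right]
  · have ha := a.2
    refine ⟨2 * ((d - 1 : ℕ) : ℤ) + 2 * (a : ℕ), ?_⟩
    unfold WW
    rw [wd_of_mem _ (by omega) (by omega), VV_iff ht]
    have h1 := vv_spec (d - 1) k r t q (2 * ((d - 1 : ℕ) : ℤ) + 2 * (a : ℕ))
    omega

theorem rel_step [NeZero d] {n k r t q k' r' t' q' : ℕ} (ht : t < d - 1) (hbig : 12 * d ≤ n)
    {u v : Fin d} {j : ℕ} (hu : Used u v j) (hj : j ≤ 2 * (d - 1))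
    (h : mk u v j (VV d k r t q) = VV d k' r' t' q') :
    Rel n (WW d n k r t q) (WW d n k' r' t' q') := by
  refine Relation.EqvGen.rel _ _ ⟨per_WW ht hbig, u, v, j, hu, ?_⟩
  unfold WW
  rw [mk_wd (N := 4 * ((d - 1 : ℕ) : ℤ) + 1) (fun x hx => ?_) (by omega) (by omega) (by omega) u v
    (by omega), h]
  rw [VV_iff ht]
  have h1 := vv_spec (d - 1) k r t q x
  simp only [Fin.val_zero]
  omega

theorem relA [NeZero d] {n : ℕ} (hbig : 12 * d ≤ n) (k : ℕ) {t : ℕ} (ht : t < d - 1) (r : ℕ)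
    (hr : r ≤ t) : Rel n (WW d n k r t 0) (WW d n k 0 t 0) := by
  induction r with
  | zero => exact Relation.EqvGen.refl _
  | succ r ih =>
    refine Relation.EqvGen.trans _ _ _ ?_ (ih (by omega))
    exact rel_step ht hbig (Or.inl ⟨r, t, by omega, by omega, rfl, rfl, rfl⟩) (by omega)
      (stepA (by omega) ht)

theorem relB [NeZero d] {n : ℕ} (hbig : 12 * d ≤ n) (k : ℕ) (hk : k ≤ d - 1) :
    Rel n (WW d n 0 0 0 0) (WW d n k 0 0 0) := by
  induction k with
  | zero => exact Relation.EqvGen.refl _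
  | succ k ih =>
    have hk' : k < d - 1 := by omega
    refine Relation.EqvGen.trans _ _ _ (ih (by omega)) ?_
    have e1 : WW d n k 0 0 0 = WW d n k k k 0 := by
      unfold WW; rw [VV_diag k 0 k (by omega) hk']
    have e2 : WW d n (k + 1) 0 0 0 = WW d n (k + 1) k k 0 := by
      unfold WW; rw [VV_diag (k + 1) 0 k (by omega) hk']
    rw [e1, e2]
    refine Relation.EqvGen.trans _ _ _ (relA hbig k hk' k le_rfl) ?_
    refine Relation.EqvGen.trans _ _ _ ?_ (Relation.EqvGen.symm _ _ (relA hbig (k + 1) hk' k le_rfl))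
    refine rel_step hk' hbig (Or.inr ⟨rfl, fun h => ?_, by omega⟩) (by omega) (stepB hk')
    have := L_val hk'
    rw [h] at this
    simp at this

theorem relC [NeZero d] {n : ℕ} (hbig : 12 * d ≤ n) (q : ℕ) (hq : q ≤ d - 1) :
    Rel n (WW d n (d - 1) 0 0 0) (WW d n (d - 1) 0 0 q) := by
  induction q with
  | zero => exact Relation.EqvGen.refl _
  | succ q ih =>
    refine Relation.EqvGen.trans _ _ _ (ih (by omega)) ?_
    exact rel_step (by omega) hbig (Or.inl ⟨q, d - 1, by omega, le_rfl, rfl, rfl, rfl⟩) (by omega)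
      (stepC (by omega))

theorem can_eq [NeZero d] {n : ℕ} (hbig : 12 * d ≤ n) (hd : 3 ≤ d) :
    can d n (2 * ((d - 1 : ℕ) : ℤ) + 1) = WW d n 0 0 0 0 := by
  funext x
  have h0 : 0 < d - 1 := by omega
  have hn' : (0 : ℤ) < n := by omega
  unfold WW wd can
  set p : ℤ := 2 * ((d - 1 : ℕ) : ℤ) + 1 with hp
  have a0 := Int.emod_nonneg (x + p) hn'.ne'
  have a1 := Int.emod_lt_of_pos (x + p) hn'
  have e : (x - p) % n = ((x + p) % n - 2 * p) % n := by
    rw [sub_eq_add_neg ((x + p) % n), Int.emod_add_emod]; congr 1; ring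
  set y := (x + p) % n with hy
  have e' : (x - p) % n = if 2 * p ≤ y then y - 2 * p else y - 2 * p + n := by
    rw [e]
    split_ifs with h
    · exact Int.emod_eq_of_lt (by omega) (by omega)
    · rw [show y - 2 * p = y - 2 * p + n + (-1) * n by ring, Int.add_mul_emod_self_right,
        Int.emod_eq_of_lt (by omega) (by omega)]; ring
  symm
  rw [VV_iff h0]
  have h1 := vv_spec (d - 1) 0 0 0 0 (y - p)
  set z := (x - p) % n with hz
  split_ifs with h2
  · rw [L_val (by omega)]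
    split_ifs at e' <;> omega
  · simp only [Fin.val_zero]
    split_ifs at e' <;> omega

theorem struct_WW [NeZero d] {n : ℕ} (hbig : 12 * d ≤ n) (hd : 3 ≤ d) :
    Struct (WW d n (d - 1) 0 0 (d - 1)) 0 (n - 4 * (d - 1) - 1) := by
  have h0 : 0 < d - 1 := by omega
  refine ⟨fun k hk => ?_, ?_, fun k hk hk' => ?_⟩
  · unfold WW
    rw [wd_of_mem _ (by omega) (by omega), VV_iff h0, L_val (by omega)]
    have h1 := vv_spec (d - 1) (d - 1) 0 0 (d - 1) (0 + k)
    omega
  · unfold WW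
    rw [wd_of_mem _ (by omega) (by omega), VV_iff h0]
    have h1 := vv_spec (d - 1) (d - 1) 0 0 (d - 1) (0 + (2 * (d - 1) : ℕ))
    simp only [Fin.val_zero]
    omega
  · by_cases h : k ≤ 2 * (d - 1) + 1
    · unfold WW
      rw [wd_of_mem _ (by omega) (by omega), VV_iff h0]
      have h1 := vv_spec (d - 1) (d - 1) 0 0 (d - 1) (0 - k)
      simp only [Fin.val_zero]
      omega
    · rw [← (per_WW h0 hbig).2.1]
      unfold WW
      rw [wd_of_mem _ (by omega) (by omega), VV_iff h0]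
      have h1 := vv_spec (d - 1) (d - 1) 0 0 (d - 1) (0 - k + n)
      simp only [Fin.val_zero]
      omega

theorem rel_one [NeZero d] {n : ℕ} (hbig : 12 * d ≤ n) (hd : 3 ≤ d) :
    Rel n (can d n (2 * ((d - 1 : ℕ) : ℤ) + 1)) (can d n 0) := by
  rw [can_eq hbig hd]
  refine Relation.EqvGen.trans _ _ _ (relB hbig _ le_rfl) ?_
  refine Relation.EqvGen.trans _ _ _ (relC hbig _ le_rfl) ?_
  exact sweep_big hd (per_WW (by omega) hbig) (by omega) (by omega) (struct_WW hbig hd)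

/-- The shifts of the zone that are realised. -/
def good (d : ℕ) [NeZero d] (n : ℕ) : AddSubgroup ℤ where
  carrier := {r | ∀ i, Rel n (can d n i) (can d n (i + r))}
  zero_mem' := fun i => by rw [add_zero]; exact Relation.EqvGen.refl _
  add_mem' := fun {a b} ha hb i => by
    rw [← add_assoc]; exact Relation.EqvGen.trans _ _ _ (ha i) (hb (i + a))
  neg_mem' := fun {a} ha i => by
    have := ha (i + -a)
    rw [neg_add_cancel_right] at this
    exact Relation.EqvGen.symm _ _ this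

end ZRot

open ZRot in
theorem rot [NeZero d] (hd : 3 ≤ d) {n : ℕ} (hn : n.Prime) (hbig : 12 * d ≤ n) (i i' : ℤ) :
    Rel n (can d n i) (can d n i') := by
  have h1 : (n : ℤ) ∈ good d n := fun i => by rw [can_add]; exact Relation.EqvGen.refl _
  have h2 : ((2 * (d - 1) + 1 : ℕ) : ℤ) ∈ good d n := fun i => by
    have := rel_shk (rel_one hbig hd) (-i)
    rw [shk_can, shk_can] at this
    rw [show (0 : ℤ) - -i = i by ring, show 2 * ((d - 1 : ℕ) : ℤ) + 1 - -i
      = i + ((2 * (d - 1) + 1 : ℕ) : ℤ) by push_cast; ring] at this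
    exact Relation.EqvGen.symm _ _ this
  have h3 : Nat.Coprime n (2 * (d - 1) + 1) :=
    (Nat.coprime_of_lt_prime (by omega) (by omega) hn)
  obtain ⟨a, b, hab⟩ := Nat.isCoprime_iff_coprime.2 h3
  have h4 : (1 : ℤ) ∈ good d n := by
    rw [← hab]
    exact add_mem (by simpa using zsmul_mem h1 a) (by simpa using zsmul_mem h2 b)
  have h5 : (i' - i) ∈ good d n := by simpa using zsmul_mem h4 (i' - i)
  have := h5 i
  rwa [add_sub_cancel] at this

end Pool.Agent.MP_9b2bac_nt.Z
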