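import Mathlib
import Pool.Agent.MP_9b2bac_nt.ZRot
import Pool.Agent.MP_9b2bac_nt.ZGiant1

set_option autoImplicit false

namespace Pool.Agent.MP_9b2bac_nt.Z

variable {d : ℕ}

namespace ZGiant

/-- The periodic word with letter values `F 0, ..., F (n-1)`. -/
def wd (d : ℕ) [NeZero d] (n : ℕ) (F : ℕ → ℕ) : Seq d :=
  fun x => Fin.ofNat d (F (x % n).toNat)

/-- The cyclic successor. -/
def nx (n a : ℕ) : ℕ := if a + 1 = n then 0 else a + 1

theorem toNat_lt {n : ℕ} (hn : 0 < n) (x : ℤ) : (x % n).toNat < n := by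
  have hn' : (0 : ℤ) < n := by exact_mod_cast hn
  have h0 := Int.emod_nonneg x hn'.ne'
  have h1 := Int.emod_lt_of_pos x hn'
  omega

theorem toNat_add {n : ℕ} (hn : 0 < n) (x : ℤ) (k : ℕ) :
    ((x + k) % n).toNat = ((x % n).toNat + k) % n := by
  have hn' : (0 : ℤ) < n := by exact_mod_cast hn
  have h0 := Int.emod_nonneg x hn'.ne'
  have h2 := Int.emod_nonneg (x + k) hn'.ne'
  have : (((x + k) % n).toNat : ℤ) = ((((x % n).toNat + k) % n : ℕ) : ℤ) := by
    push_cast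
    rw [Int.toNat_of_nonneg h0, Int.toNat_of_nonneg h2, Int.emod_add_emod]
  exact_mod_cast this

theorem toNat_succ {n : ℕ} (hn : 0 < n) (x : ℤ) :
    ((x + 1) % n).toNat = nx n (x % n).toNat := by
  have h := toNat_add hn x 1
  have h1 := toNat_lt hn x
  rw [Nat.cast_one] at h
  rw [h, nx]
  split_ifs with h2
  · rw [h2, Nat.mod_self]
  · exact Nat.mod_eq_of_lt (by omega)

theorem ofNat_inj [NeZero d] {a b : ℕ} (ha : a < d) (hb : b < d) :
    Fin.ofNat d a = Fin.ofNat d b ↔ a = b := by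
  constructor
  · intro h
    have := congrArg Fin.val h
    simp only [Fin.ofNat] at this
    rwa [Nat.mod_eq_of_lt ha, Nat.mod_eq_of_lt hb] at this
  · rintro rfl
    rfl

theorem fix_of_pairfree [NeZero d] {n : ℕ} (hn : 0 < n) {F : ℕ → ℕ} (hF : ∀ a, F a < d)
    {u v : ℕ} (hu : u < d) (hv : v < d) {j : ℕ} (hj : 1 ≤ j)
    (h : ∀ a, a < n → ¬ (F a = u ∧ F (nx n a) = v)) :
    mk (Fin.ofNat d u) (Fin.ofNat d v) j (wd d n F) = wd d n F := by
  funext i
  have hno : ¬ Hit (Fin.ofNat d u) (Fin.ofNat d v) j (wd d n F) i := by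
    rintro ⟨h1, h2⟩
    have h3 := h1 j hj le_rfl
    simp only [wd] at h2 h3
    rw [toNat_succ hn, ofNat_inj (hF _) hv] at h2
    rw [ofNat_inj (hF _) hu] at h3
    exact h _ (toNat_lt hn _) ⟨h3, h2⟩
  simp only [mk, hno, if_false]

theorem mk_one [NeZero d] {n : ℕ} (hn : 0 < n) {F F' : ℕ → ℕ} (hF : ∀ a, F a < d)
    {u v : ℕ} (hu : u < d) (hv : v < d) (c : ℕ) (hc : F c = u) (hc' : F' c = v)
    (hoff : ∀ a, a ≠ c → F' a = F a)
    (h : ∀ a, a < n → ((F (nx n a) = u ∧ F (nx n (nx n a)) = v) ↔ a = c)) :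
    mk (Fin.ofNat d u) (Fin.ofNat d v) 1 (wd d n F) = wd d n F' := by
  funext i
  have hiff : Hit (Fin.ofNat d u) (Fin.ofNat d v) 1 (wd d n F) i ↔ (i % n).toNat = c := by
    rw [← h _ (toNat_lt hn i), ← toNat_succ hn, ← toNat_succ hn, ← ofNat_inj (hF _) hu,
      ← ofNat_inj (hF _) hv]
    constructor
    · rintro ⟨h1, h2⟩
      exact ⟨by simpa [wd] using h1 1 le_rfl le_rfl, by simpa [wd] using h2⟩
    · rintro ⟨h1, h2⟩
      refine ⟨fun k hk hk' => ?_, by simpa [wd] using h2⟩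
      obtain rfl : k = 1 := by omega
      simpa [wd] using h1
  by_cases hi : (i % n).toNat = c
  · simp only [mk, hiff, wd, hi, hc, hc', if_true, Equiv.swap_apply_left]
  · simp only [mk, hiff, wd, hi, if_false, hoff _ hi]

/-- Values of the word whose slots from `r` on are empty. -/
def Fr (m r a : ℕ) : ℕ := if a < 2 * m then (if a % 2 = 0 ∧ r ≤ a / 2 then 0 else a / 2 + 1) else 0

/-- Values of the canonical word with the guard letter. -/
def Fg (m a : ℕ) : ℕ := if a = 2 * m then 1 else Fr m m a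

/-- Values of the canonical word with the first letter changed. -/
def Fa (m a : ℕ) : ℕ := if a = 0 then 2 else Fr m m a

theorem Fr_lt (m r a : ℕ) : Fr m r a < m + 1 := by
  unfold Fr; split_ifs <;> omega

theorem Fr_spec (m r a : ℕ) :
    (a < 2 * m ∧ ¬ (a % 2 = 0 ∧ r ≤ a / 2) ∧ Fr m r a = a / 2 + 1) ∨
      ((2 * m ≤ a ∨ (a % 2 = 0 ∧ r ≤ a / 2)) ∧ Fr m r a = 0) := by
  unfold Fr; split_ifs <;> simp <;> omega

theorem Fg_spec (m a : ℕ) : (a = 2 * m ∧ Fg m a = 1) ∨ (a ≠ 2 * m ∧ Fg m a = Fr m m a) := by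
  unfold Fg; split_ifs with h <;> simp [h]

theorem Fa_spec (m a : ℕ) : (a = 0 ∧ Fa m a = 2) ∨ (a ≠ 0 ∧ Fa m a = Fr m m a) := by
  unfold Fa; split_ifs with h <;> simp [h]

theorem nx_spec (n a : ℕ) : (a + 1 = n ∧ nx n a = 0) ∨ (a + 1 ≠ n ∧ nx n a = a + 1) := by
  unfold nx; split_ifs with h <;> simp [h]

theorem can_eq (m n : ℕ) (hn : 0 < n) : can (m + 1) n 0 = wd (m + 1) n (Fr m m) := by
  funext x
  have hn' : (0 : ℤ) < n := by exact_mod_cast hn
  have h0 := Int.emod_nonneg x hn'.ne'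
  simp only [can, wd, Fr, sub_zero, Nat.add_sub_cancel]
  by_cases h : x % n < (2 * m : ℕ)
  · rw [if_pos h, if_pos (by omega), if_neg (by omega)]
    rfl
  · rw [if_neg h, if_neg (by omega)]
    rfl

theorem mk_guard (m n : ℕ) (hm : 2 ≤ m) (hn : 2 * m + 2 ≤ n) :
    mk (Fin.ofNat (m + 1) 0) (Fin.ofNat (m + 1) 1) (n - 2 * m - 1) (wd (m + 1) n (Fr m m)) =
      wd (m + 1) n (Fg m) := by
  have hn0 : 0 < n := by omega
  funext i
  have hlt := toNat_lt hn0 i
  have hiff : Hit (Fin.ofNat (m + 1) 0) (Fin.ofNat (m + 1) 1) (n - 2 * m - 1)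
      (wd (m + 1) n (Fr m m)) i ↔ (i % n).toNat = 2 * m := by
    constructor
    · rintro ⟨h1, h2⟩
      have h3 := h1 _ (by omega) le_rfl
      simp only [wd] at h2 h3
      rw [toNat_succ hn0, ofNat_inj (Fr_lt _ _ _) (by omega)] at h2
      rw [ofNat_inj (Fr_lt _ _ _) (by omega)] at h3
      have h4 := toNat_lt hn0 (i + (n - 2 * m - 1 : ℕ))
      have h5 : ((i + (n - 2 * m - 1 : ℕ)) % n).toNat = n - 1 := by
        unfold Fr nx at h2
        unfold Fr at h3
        split_ifs at h2 h3 <;> omega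
      rw [toNat_add hn0] at h5
      by_cases h6 : (i % n).toNat + (n - 2 * m - 1) < n
      · rw [Nat.mod_eq_of_lt h6] at h5
        omega
      · rw [Nat.mod_eq_sub_mod (by omega), Nat.mod_eq_of_lt (by omega)] at h5
        omega
    · intro h
      refine ⟨fun k h1 h2 => ?_, ?_⟩
      · simp only [wd]
        rw [toNat_add hn0, h, Nat.mod_eq_of_lt (by omega), Fr, if_neg (by omega)]
      · simp only [wd]
        rw [toNat_succ hn0, toNat_add hn0, h, Nat.mod_eq_of_lt (by omega), nx, if_pos (by omega),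
          Fr, if_pos (by omega), if_neg (by omega)]
  by_cases hi : (i % n).toNat = 2 * m
  · simp only [mk, hiff, wd, hi, if_true, Fg, Fr, lt_irrefl, if_false, Equiv.swap_apply_left]
  · simp only [mk, hiff, wd, hi, if_false, Fg]

theorem orbit_step {G X : Type} [Group G] [MulAction G X] (N : Subgroup G) (hN : N.Normal)
    (z : X) {g : G} {w : X} (hw : w ∈ MulAction.orbit N z) (hg : g • w ∈ MulAction.orbit N z)
    {w' : X} (hw' : w' ∈ MulAction.orbit N z) : g • w' ∈ MulAction.orbit N z := by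
  obtain ⟨a, rfl⟩ := hw
  obtain ⟨b, hb⟩ := hg
  obtain ⟨c, rfl⟩ := hw'
  simp only [Subgroup.smul_def] at hb ⊢
  refine ⟨⟨g * (c * a⁻¹ : N) * g⁻¹, hN.conj_mem _ (c * a⁻¹ : N).2 g⟩ * b, ?_⟩
  simp only [Subgroup.smul_def, Subgroup.coe_mul, mul_smul, hb, Subgroup.coe_inv, inv_smul_smul]

theorem orbit_iff {G X : Type} [Group G] [MulAction G X] (N : Subgroup G) (hN : N.Normal)
    (z : X) {g : G} {w : X} (hw : w ∈ MulAction.orbit N z) (hg : g • w = w) (w' : X) :
    w' ∈ MulAction.orbit N z ↔ g • w' ∈ MulAction.orbit N z := by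
  refine ⟨orbit_step N hN z hw (by rwa [hg]), fun h => ?_⟩
  have h1 : g⁻¹ • w = w := by rw [inv_smul_eq_iff, hg]
  have := orbit_step N hN z (g := g⁻¹) hw (by rwa [h1]) h
  rwa [inv_smul_smul] at this

theorem L_eq (m r : ℕ) : L (m + 1) r = Fin.ofNat (m + 1) (r + 1) := rfl

theorem L_last (m : ℕ) : L (m + 1) m = Fin.ofNat (m + 1) 0 := by
  apply Fin.ext
  simp [L, Fin.ofNat]

theorem fixes (m n : ℕ) (hm : 2 ≤ m) (hn : 2 * m + 2 ≤ n) (Q : Seq (m + 1) → Prop)
    (hz : Q (wd (m + 1) n (Fr m m)))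
    (ht : Q (mk 0 (L (m + 1) 0) (n - 2 * m - 1) (wd (m + 1) n (Fr m m))))
    (hstep : ∀ u v j, Used u v j → (∃ w, Q w ∧ mk u v j w = w) → ∀ w, Q w → Q (mk u v j w)) :
    ∀ u v j, Used u v j → ∃ w, Q w ∧ mk u v j w = w := by
  have hn0 : 0 < n := by omega
  have hg : Q (wd (m + 1) n (Fg m)) := by
    rw [← mk_guard m n hm hn]
    exact ht
  have hFg : ∀ a, Fg m a < m + 1 := fun a => by
    have := Fr_lt m m a
    unfold Fg; split_ifs <;> omega
  have hFa : ∀ a, Fa m a < m + 1 := fun a => by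
    have := Fr_lt m m a
    unfold Fa; split_ifs <;> omega
  have h1 : ∀ r, r < m → ∃ w, Q w ∧ mk (L (m + 1) r) (L (m + 1) m) 1 w = w := by
    intro r hr
    rw [L_eq, L_last]
    by_cases h : r + 1 = m
    · refine ⟨_, hg, fix_of_pairfree hn0 hFg (by omega) (by omega) le_rfl fun a ha => ?_⟩
      have := Fg_spec m a
      have := Fg_spec m (nx n a)
      have := Fr_spec m m a
      have := Fr_spec m m (nx n a)
      have := nx_spec n a
      omega
    · refine ⟨_, hz, fix_of_pairfree hn0 (Fr_lt m m) (by omega) (by omega) le_rfl fun a ha => ?_⟩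
      have := Fr_spec m m a
      have := Fr_spec m m (nx n a)
      have := nx_spec n a
      omega
  have h2 : ∀ k r, r + k = m → Q (wd (m + 1) n (Fr m r)) := by
    intro k
    induction k with
    | zero =>
      intro r hr
      obtain rfl : r = m := by omega
      exact hz
    | succ k ih =>
      intro r hr
      have h3 := hstep _ _ 1 (Or.inl ⟨r, m, by omega, by omega, rfl, rfl, rfl⟩) (h1 r (by omega))
        _ (ih (r + 1) (by omega))
      rw [L_eq, L_last, mk_one (F' := Fr m r) hn0 (Fr_lt m _) (by omega) (by omega) (2 * r)] at h3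
      · exact h3
      · unfold Fr; split_ifs <;> omega
      · unfold Fr; split_ifs <;> omega
      · intro a ha
        unfold Fr; split_ifs <;> omega
      · intro a ha
        have := Fr_spec m (r + 1) (nx n a)
        have := Fr_spec m (r + 1) (nx n (nx n a))
        have := nx_spec n a
        have := nx_spec n (nx n a)
        omega
  have h3 : ∀ r t, r < t → t ≤ m → ∃ w, Q w ∧ mk (L (m + 1) r) (L (m + 1) t) 1 w = w := by
    intro r t hrt htm
    by_cases h : t = m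
    · rw [h]
      exact h1 r (by omega)
    · rw [L_eq, L_eq]
      refine ⟨_, h2 m 0 (by omega),
        fix_of_pairfree hn0 (Fr_lt m 0) (by omega) (by omega) le_rfl fun a ha => ?_⟩
      have := Fr_spec m 0 a
      have := Fr_spec m 0 (nx n a)
      have := nx_spec n a
      omega
  have h4 : Q (wd (m + 1) n (Fa m)) := by
    have h5 := hstep _ _ 1 (Or.inl ⟨0, 1, by omega, by omega, rfl, rfl, rfl⟩)
      (h3 0 1 (by omega) (by omega)) _ hz
    rw [L_eq, L_eq, mk_one (F' := Fa m) hn0 (Fr_lt m _) (by omega) (by omega) 0] at h5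
    · exact h5
    · unfold Fr; split_ifs <;> omega
    · simp [Fa]
    · intro a ha
      simp [Fa, ha]
    · intro a ha
      have := Fr_spec m m (nx n a)
      have := Fr_spec m m (nx n (nx n a))
      have := nx_spec n a
      have := nx_spec n (nx n a)
      omega
  rintro u v j (⟨r, t, hrt, htm, rfl, rfl, rfl⟩ | ⟨rfl, hv, hj⟩)
  · exact h3 r t hrt (by omega)
  · obtain ⟨k, hk, rfl⟩ := L_surj v hv
    rw [L_eq, show (0 : Fin (m + 1)) = Fin.ofNat (m + 1) 0 from rfl]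
    by_cases h : k = 0
    · refine ⟨_, h4, fix_of_pairfree hn0 hFa (by omega) (by omega) hj fun a ha => ?_⟩
      have := Fa_spec m a
      have := Fa_spec m (nx n a)
      have := Fr_spec m m a
      have := Fr_spec m m (nx n a)
      have := nx_spec n a
      omega
    · refine ⟨_, hz, fix_of_pairfree hn0 (Fr_lt m m) (by omega) (by omega) hj fun a ha => ?_⟩
      have := Fr_spec m m a
      have := Fr_spec m m (nx n a)
      have := nx_spec n a
      omega

end ZGiant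

theorem ncard_per_le (n : ℕ) : {s : Seq d | Per n s}.ncard ≤ d ^ n := ZGiant.ncard_per_le n

theorem mk_eq_of_short (hd : 3 ≤ d) {n : ℕ} {s : Seq d} (h : Per n s) (u v : Fin d) {j : ℕ}
    (hj : n ≤ j + 1) : mk u v j s = s := ZGiant.mk_eq_of_short hd h u v hj

theorem ncard_supp_le {n : ℕ} (u v : Fin d) {j : ℕ} (hj : j + 1 ≤ n) :
    {s : Seq d | Per n s ∧ mk u v j s ≠ s}.ncard ≤ n * d ^ (n - j - 1) :=
  ZGiant.ncard_supp_le u v hj

theorem many_struct [NeZero d] (hd : 3 ≤ d) : ∃ n₀ : ℕ, ∀ n : ℕ, n₀ ≤ n →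
    d ^ n < 2 * {s : Seq d | Per n s ∧ ∃ i, Struct s i 4}.ncard := ZGiant.many_struct hd

theorem giant [NeZero d] (hd : 3 ≤ d) : ∃ n₀ : ℕ, ∀ n : ℕ, n.Prime → n₀ ≤ n →
    ∀ (I : Finset ℕ), n ∈ I → ∀ (G : Type) [Group G] [MulAction G (W d I)] (N : Subgroup G),
      N.Normal →
      (∀ u v j, Used u v j → ∃ g : G, ∀ w : W d I, (g • w).1 = mk u v j w.1) →
      (∃ t ∈ N, ∀ w : W d I, (t • w).1 = mk 0 (L d 0) (n - 2 * (d - 1) - 1) w.1) →
      ∃ z : W d I, Per n z.1 ∧ d ^ n < 2 * (MulAction.orbit N z).ncard := by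
  obtain ⟨n₁, hn₁⟩ := many_struct hd
  refine ⟨max n₁ (12 * d), fun n hp hn I hI G _ _ N hN hU ht => ?_⟩
  have hn1 : n₁ ≤ n := le_trans (le_max_left _ _) hn
  have hn2 : 12 * d ≤ n := le_trans (le_max_right _ _) hn
  have hzp : Per n (can d n 0) := can_per hd (by omega) 0
  let z : W d I := ⟨can d n 0, n, hI, hzp⟩
  refine ⟨z, hzp, lt_of_lt_of_le (hn₁ n hn1) (Nat.mul_le_mul_left 2 ?_)⟩
  let Q : Seq d → Prop := fun s => ∃ w ∈ MulAction.orbit N z, w.1 = s
  have hQ : ∀ w : W d I, Q w.1 ↔ w ∈ MulAction.orbit N z := fun w =>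
    ⟨fun ⟨w', h1, h2⟩ => by rwa [← (Subtype.ext h2 : w' = w)], fun h => ⟨w, h, rfl⟩⟩
  have hkey : ∀ u v j, Used u v j → (∃ w, Q w ∧ mk u v j w = w) →
      ∀ w : W d I, Q w.1 ↔ Q (mk u v j w.1) := by
    rintro u v j hu ⟨-, ⟨w₀, hw₀, rfl⟩, hfix⟩ w
    obtain ⟨g, hg⟩ := hU u v j hu
    rw [← hg, hQ, hQ]
    exact ZGiant.orbit_iff N hN z hw₀ (Subtype.ext ((hg w₀).trans hfix)) w
  have hz : Q (can d n 0) := ⟨z, MulAction.mem_orbit_self z, rfl⟩
  have hall : ∀ u v j, Used u v j → ∃ w, Q w ∧ mk u v j w = w := by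
    obtain ⟨m, rfl⟩ : ∃ m, d = m + 1 := ⟨d - 1, by omega⟩
    refine ZGiant.fixes m n (by omega) (by omega) Q ?_ ?_ ?_
    · rw [← ZGiant.can_eq m n (by omega)]
      exact hz
    · obtain ⟨t, htN, ht⟩ := ht
      rw [← ZGiant.can_eq m n (by omega)]
      exact ⟨t • z, ⟨⟨t, htN⟩, rfl⟩, ht z⟩
    · rintro u v j hu hw - ⟨w, hw', rfl⟩
      exact (hkey u v j hu hw w).1 ⟨w, hw', rfl⟩
  have hrel : ∀ s t, Rel n s t → (Q s ↔ Q t) := by
    intro s t h
    induction h with
    | rel s t h =>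
      obtain ⟨hs, u, v, j, hu, rfl⟩ := h
      exact hkey u v j hu (hall u v j hu) ⟨s, n, hI, hs⟩
    | refl s => rfl
    | symm s t _ ih => exact ih.symm
    | trans s t r _ _ ih1 ih2 => exact ih1.trans ih2
  have hsub : {s : Seq d | Per n s ∧ ∃ i, Struct s i 4} ⊆
      (fun w : W d I => w.1) '' MulAction.orbit N z := by
    rintro s ⟨hs, i, hi⟩
    obtain ⟨i', h1⟩ := sweep hd hp hs hi
    exact (hrel _ _ h1).2 ((hrel _ _ (rot hd hp hn2 i' 0)).2 hz)
  exact (Set.ncard_le_ncard hsub ((Set.toFinite _).image _)).trans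
    (Set.ncard_image_le (Set.toFinite _))

end Pool.Agent.MP_9b2bac_nt.Z
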