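import Mathlib

set_option autoImplicit false

namespace Pool.Agent.MP_9b2bac_nt.Z

namespace ZRank
open Finset Classical

variable {X K : Type} [Fintype X] [Group K] [Fintype K] [MulAction K X]

/-- Group elements sending `a` to `b` and `a'` to `b'`. -/
noncomputable def fib (K : Type) [Group K] [Fintype K] [MulAction K X] (a b a' b' : X) :
    Finset K := univ.filter fun k => k • a = b ∧ k • a' = b'

omit [Fintype X] in
lemma fib_eq {a b a' b' : X} {k₀ : K} (h : k₀ • a = b) (h' : k₀ • a' = b') :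
    (fib K a b a' b').card = (fib K a a a' a').card := by
  symm
  refine card_bij (fun k _ => k₀ * k) ?_ ?_ ?_
  · intro k hk
    simp only [fib, mem_filter, mem_univ, true_and] at hk ⊢
    rw [mul_smul, mul_smul, hk.1, hk.2]
    exact ⟨h, h'⟩
  · intro k _ k' _ hk
    exact mul_left_cancel hk
  · intro k hk
    simp only [fib, mem_filter, mem_univ, true_and] at hk ⊢
    refine ⟨k₀⁻¹ * k, ⟨?_, ?_⟩, by simp⟩
    · rw [mul_smul, hk.1, ← h, inv_smul_smul]
    · rw [mul_smul, hk.2, ← h', inv_smul_smul]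

omit [Fintype X] in
lemma fib_le (a b a' b' : X) : (fib K a b a' b').card ≤ (fib K a a a' a').card := by
  rcases (fib K a b a' b').eq_empty_or_nonempty with h | ⟨k, hk⟩
  · simp [h]
  · simp only [fib, mem_filter, mem_univ, true_and] at hk
    exact (fib_eq hk.1 hk.2).le

lemma sum_fib (p x : X) : ∑ y, (fib K p p x y).card = (fib K p p p p).card := by
  rw [card_eq_sum_card_fiberwise (s := fib K p p p p) (t := univ) (f := fun k => k • x)
    (fun _ _ => mem_coe.2 (mem_univ _))]
  refine sum_congr rfl fun y _ => ?_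
  congr 1
  ext k
  simp [fib]

lemma stab_mul (htr : ∀ x y : X, ∃ k : K, k • x = y) (p : X) :
    Fintype.card X * (fib K p p p p).card = Fintype.card K := by
  rw [← card_univ (α := K), card_eq_sum_card_fiberwise (s := univ) (t := univ)
    (f := fun k : K => k • p) (fun _ _ => mem_coe.2 (mem_univ _)), ← card_univ, ← smul_eq_mul,
    ← sum_const]
  refine sum_congr rfl fun y _ => ?_
  obtain ⟨k, hk⟩ := htr p y
  rw [← fib_eq hk hk]
  congr 1
  ext k
  simp [fib]

/-- Balls in the graph given by `T`. -/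
def ball (T : Set K) (p : X) : ℕ → Set X
  | 0 => {p}
  | j + 1 => {y | ∃ t ∈ T, ∃ x ∈ ball T p j, t • x = y}

omit [Fintype X] [Fintype K] in
lemma ball_inv {T : Set K} (hT : ∀ t ∈ T, ∀ k : K, k * t * k⁻¹ ∈ T) {p : X} {k : K}
    (hk : k • p = p) : ∀ j, ∀ x ∈ ball T p j, k • x ∈ ball T p j := by
  intro j
  induction j with
  | zero => rintro x rfl; exact hk
  | succ j ih =>
    rintro _ ⟨t, ht, x, hx, rfl⟩
    exact ⟨_, hT t ht k, _, ih x hx, by simp [mul_smul]⟩

lemma pair_bound (T : Set K) (M : ℕ) (h1 : (1 : K) ∈ T)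
    (hT : ∀ t ∈ T, ∀ k : K, k * t * k⁻¹ ∈ T) (htr : ∀ x y : X, ∃ k : K, k • x = y)
    (hball : ∀ p y : X, ∃ j, y ∈ ball T p j)
    (hM : ∀ t ∈ T, (univ.filter fun x : X => t • x ≠ x).card ≤ M) (x₀ : X) :
    ∑ p : X, ∑ x : X, (fib K p p x x).card ≤ Fintype.card K * (1 + 2 * M) := by
  let nb : X → Finset X := fun x => univ.filter fun y => ∃ t ∈ T, t • x = y
  let bad : X → X → Finset X := fun p x => (nb x).filter fun y => ¬ ∃ k : K, k • p = p ∧ k • x = y
  set N := Fintype.card X with hN
  set d := (nb x₀).card with hd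
  have hle : ∀ x y, (nb x).card ≤ (nb y).card := by
    intro x y
    obtain ⟨k, rfl⟩ := htr x y
    refine card_le_card_of_injOn (fun z => k • z) ?_ (MulAction.injective k).injOn
    intro z hz
    simp only [nb, coe_filter, mem_univ, true_and, Set.mem_ofPred_eq] at hz ⊢
    obtain ⟨t, ht, rfl⟩ := hz
    exact ⟨_, hT t ht k, by simp [mul_smul]⟩
  have hdx : ∀ x, (nb x).card = d := fun x => le_antisymm (hle _ _) (hle _ _)
  have hd0 : 0 < d := card_pos.2 ⟨x₀, by
    simp only [nb, mem_filter, mem_univ, true_and]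
    exact ⟨1, h1, one_smul _ _⟩⟩
  have hN0 : 0 < N := Fintype.card_pos_iff.2 ⟨x₀⟩
  have hup : ∑ p, ∑ x, (bad p x).card ≤ N * (d * M) := by
    rw [sum_comm, hN, ← card_univ, ← smul_eq_mul]
    refine sum_le_card_nsmul _ _ _ fun x _ => ?_
    simp only [bad, card_filter]
    rw [sum_comm, ← hdx x, ← smul_eq_mul]
    refine sum_le_card_nsmul _ _ _ fun y hy => ?_
    rw [← card_filter]
    simp only [nb, mem_filter, mem_univ, true_and] at hy
    obtain ⟨t, ht, rfl⟩ := hy
    refine le_trans (card_le_card fun p hp => ?_) (hM t ht)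
    simp only [mem_filter, mem_univ, true_and] at hp ⊢
    exact fun h => hp ⟨t, h, rfl⟩
  have hlow : ∀ p, N - 1 ≤ ∑ x, (bad p x).card := by
    intro p
    refine le_trans ?_ (card_biUnion_le (s := univ) (t := bad p))
    rw [hN, ← card_univ, ← card_erase_of_mem (mem_univ p)]
    refine card_le_card fun y hy => ?_
    have hy' := (mem_erase.1 hy).1
    have h2 := Nat.find_spec (hball p y)
    rcases h3 : Nat.find (hball p y) with _ | j
    · rw [h3] at h2; exact (hy' h2).elim
    · have h4 := Nat.find_min (hball p y) (m := j) (by omega)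
      rw [h3] at h2
      obtain ⟨t, ht, x, hx, rfl⟩ := h2
      simp only [mem_biUnion, bad, nb, mem_filter, mem_univ, true_and]
      refine ⟨x, ⟨t, ht, rfl⟩, fun ⟨k, hk, hk'⟩ => h4 ?_⟩
      rw [← hk']
      exact ball_inv hT hk j x hx
  have hNd : N ≤ d * (1 + M) := by
    have h2 : N * (N - 1) ≤ N * (d * M) := by
      refine le_trans ?_ hup
      conv_lhs => rw [hN, ← card_univ, ← smul_eq_mul, card_univ, ← hN]
      have := card_nsmul_le_sum univ (fun p => ∑ x, (bad p x).card) (N - 1) fun p _ => hlow p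
      rwa [card_univ] at this
    have h3 := Nat.le_of_mul_le_mul_left h2 hN0
    rw [mul_add]
    omega
  have hpt : ∀ p x, d * (fib K p p x x).card ≤ (fib K p p p p).card * (1 + (bad p x).card) := by
    intro p x
    have h2 := card_filter_add_card_filter_not (s := nb x)
      (fun y => ∃ k : K, k • p = p ∧ k • x = y)
    have h3 : ((nb x).filter fun y => ∃ k : K, k • p = p ∧ k • x = y).card *
        (fib K p p x x).card ≤ (fib K p p p p).card := by
      rw [← sum_fib p x, ← smul_eq_mul]
      refine le_trans (card_nsmul_le_sum _ (fun y => (fib K p p x y).card) _ fun y hy => ?_)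
        (sum_le_sum_of_subset (subset_univ _))
      obtain ⟨k, hk, hk'⟩ := (mem_filter.1 hy).2
      exact (fib_eq hk hk').ge
    have h4 : (fib K p p x x).card ≤ (fib K p p p p).card := card_le_card fun k hk => by
      simp only [fib, mem_filter, mem_univ, true_and] at hk ⊢
      exact ⟨hk.1, hk.1⟩
    rw [← hdx x, ← h2, add_mul, mul_add, mul_one, mul_comm _ (bad p x).card]
    exact Nat.add_le_add h3 (Nat.mul_le_mul_left _ h4)
  refine Nat.le_of_mul_le_mul_left (c := N * d) ?_ (Nat.mul_pos hN0 hd0)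
  calc N * d * ∑ p : X, ∑ x : X, (fib K p p x x).card
      = ∑ p : X, ∑ x : X, N * (d * (fib K p p x x).card) := by
        simp only [mul_sum, mul_assoc]
    _ ≤ ∑ p : X, ∑ x : X, Fintype.card K * (1 + (bad p x).card) := by
        refine sum_le_sum fun p _ => sum_le_sum fun x _ => ?_
        rw [← stab_mul htr p, mul_assoc]
        exact Nat.mul_le_mul_left _ (hpt p x)
    _ = Fintype.card K * (N * N + ∑ p, ∑ x, (bad p x).card) := by
        simp only [← mul_sum, sum_add_distrib, sum_const, card_univ, smul_eq_mul, mul_one, hN]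
    _ ≤ Fintype.card K * (N * (d * (1 + M)) + N * (d * M)) := by gcongr
    _ = _ := by ring

lemma main_bound (htr : ∀ x y : X, ∃ k : K, k • x = y) (B : ℕ) [Nonempty X]
    (hB : ∑ p : X, ∑ x : X, (fib K p p x x).card ≤ Fintype.card K * B) (F : X → X) :
    Fintype.card K ≤ B * (univ.filter fun k : K => ∃ x, k • x = F x).card := by
  let Y : K → ℕ := fun k => ∑ x, if k • x = F x then 1 else 0
  set s := univ.filter fun k : K => ∃ x, k • x = F x with hs
  have h1 : ∑ k ∈ s, Y k = Fintype.card K := by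
    rw [sum_subset (subset_univ s) fun k _ hk => by
      simp only [hs, mem_filter, mem_univ, true_and, not_exists] at hk
      simp [Y, hk]]
    have hN : 0 < Fintype.card X := Fintype.card_pos
    refine Nat.eq_of_mul_eq_mul_left hN ?_
    simp only [Y]
    rw [sum_comm, mul_sum, ← card_univ (α := X), ← smul_eq_mul _ (Fintype.card K), ← sum_const]
    refine sum_congr rfl fun x _ => ?_
    obtain ⟨k, hk⟩ := htr x (F x)
    rw [← stab_mul htr x, ← fib_eq hk hk, card_univ, ← card_filter]
    congr 2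
    ext k
    simp [fib]
  have h2 : ∑ k ∈ s, Y k ^ 2 ≤ Fintype.card K * B := by
    refine (sum_le_sum_of_subset (subset_univ s)).trans (le_trans ?_ hB)
    simp only [Y, sq, sum_mul_sum]
    rw [sum_comm]
    refine sum_le_sum fun p _ => ?_
    rw [sum_comm]
    refine sum_le_sum fun x _ => le_trans (le_of_eq ?_) (fib_le p (F p) x (F x))
    rw [fib, card_filter]
    refine sum_congr rfl fun k _ => ?_
    by_cases a : k • p = F p <;> by_cases b : k • x = F x <;> simp [a, b]
  have h3 := sq_sum_le_card_mul_sum_sq (s := s) (f := Y)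
  rw [h1] at h3
  refine Nat.le_of_mul_le_mul_left (c := Fintype.card K) ?_ Fintype.card_pos
  calc _ = Fintype.card K ^ 2 := by ring
    _ ≤ s.card * (Fintype.card K * B) := h3.trans (Nat.mul_le_mul_left _ h2)
    _ = _ := by ring

end ZRank

theorem rank (κ : ℕ) : ∃ C : ℕ, 0 < C ∧ ∀ (n : ℕ) (X : Type) [Finite X] [Nonempty X] (K : Type)
    [Group K] [Finite K] [MulAction K X] (σ : Equiv.Perm X) (T : Set K),
    n.Prime → σ ^ n = 1 → (∀ x, σ x ≠ x) → (∀ (k : K) (x : X), k • σ x = σ (k • x)) →
    (∀ t ∈ T, ∀ k : K, k * t * k⁻¹ ∈ T) →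
    (∀ x y : X, ∃ k ∈ Subgroup.closure T, k • x = y) →
    (∀ t ∈ T, {x : X | t • x ≠ x}.ncard ≤ n * κ) →
    ∀ F : X → X, Nat.card K ≤ C * n * {k : K | ∃ x, k • x = F x}.ncard := by
  classical
  refine ⟨2 * κ + 1, by omega, fun n X _ _ K _ _ _ σ T hn _ _ _ hT htr hM F => ?_⟩
  let _ := Fintype.ofFinite X
  let _ := Fintype.ofFinite K
  have htr' : ∀ x y : X, ∃ k : K, k • x = y := fun x y => (htr x y).imp fun _ h => h.2
  have hM' : ∀ t ∈ T, (Finset.univ.filter fun x : X => t • x ≠ x).card ≤ n * κ := by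
    intro t ht
    have := hM t ht
    rwa [← Set.ncard_coe_finset, Finset.coe_filter_univ]
  have h1 := ZRank.pair_bound (X := X) {t : K | t ∈ T ∨ t⁻¹ ∈ T ∨ t = 1} (n * κ)
    (Or.inr (Or.inr rfl)) ?_ htr' ?_ ?_ (Classical.arbitrary X)
  · have h2 := ZRank.main_bound htr' _ h1 F
    rw [Nat.card_eq_fintype_card, ← Finset.coe_filter_univ, Set.ncard_coe_finset]
    refine le_trans (by convert h2) (Nat.mul_le_mul_right _ ?_)
    have := hn.pos
    nlinarith
  · rintro t (ht | ht | rfl) k
    · exact Or.inl (hT t ht k)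
    · exact Or.inr (Or.inl (by simpa [mul_assoc] using hT _ ht k))
    · exact Or.inr (Or.inr (by simp))
  · intro p y
    obtain ⟨k, hk, rfl⟩ := htr p y
    induction hk using Subgroup.closure_induction_left with
    | one => exact ⟨0, one_smul _ _⟩
    | mul_left t ht k _ ih =>
      obtain ⟨j, hj⟩ := ih
      exact ⟨j + 1, t, Or.inl ht, _, hj, (mul_smul _ _ _).symm⟩
    | inv_mul_cancel t ht k _ ih =>
      obtain ⟨j, hj⟩ := ih
      exact ⟨j + 1, t⁻¹, Or.inr (Or.inl (by simpa using ht)), _, hj, (mul_smul _ _ _).symm⟩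
  · rintro t (ht | ht | rfl)
    · convert hM' t ht
    · refine le_trans (Finset.card_le_card fun x hx => ?_) (hM' _ ht)
      simp only [Finset.mem_filter, Finset.mem_univ, true_and] at hx ⊢
      exact fun h => hx (inv_smul_eq_iff.1 h).symm
    · simp

end Pool.Agent.MP_9b2bac_nt.Z
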