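import Mathlib
import Pool.Agent.MP_9b2bac_nt.ZGiant
import Pool.Agent.MP_9b2bac_nt.ZRank

set_option autoImplicit false

namespace Pool.Agent.MP_9b2bac_nt.Z

open Classical

namespace ZGrp

variable {d : ℕ} {I : Finset ℕ}

theorem pow_val (k : ℕ) (w : W d I) (i : ℤ) : ((shW d I ^ k) w).1 i = w.1 (i + k) := by
  induction k generalizing i with
  | zero => simp
  | succ k ih =>
    rw [pow_succ', Equiv.Perm.mul_apply, shW_val]
    show ((shW d I ^ k) w).1 (i + 1) = _
    rw [ih, show i + 1 + (k : ℤ) = i + ((k + 1 : ℕ) : ℤ) by push_cast; ring]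

theorem per_iff {n : ℕ} (hn : 0 < n) (w : W d I) : Per n w.1 ↔ (shW d I ^ n) w = w := by
  constructor
  · intro h
    exact Subtype.ext (funext fun i => by rw [pow_val, h.2.1])
  · intro h
    obtain ⟨m, -, hm⟩ := w.2
    exact ⟨hn, fun i => by rw [← pow_val, h], hm.2.2⟩

theorem per_map {n : ℕ} (P : W d I → W d I) (hP : ∀ w, P (shW d I w) = shW d I (P w))
    {w : W d I} (h : Per n w.1) : Per n (P w).1 := by
  have hk : ∀ (k : ℕ) (w : W d I), (shW d I ^ k) (P w) = P ((shW d I ^ k) w) := by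
    intro k
    induction k with
    | zero => intro w; simp
    | succ k ih => intro w; rw [pow_succ, Equiv.Perm.mul_apply, ← hP, ih, Equiv.Perm.mul_apply]
  rw [per_iff h.1, hk, (per_iff h.1 w).1 h]

theorem sh_ne (hd : 3 ≤ d) (w : W d I) : shW d I w ≠ w := by
  intro h
  obtain ⟨m, -, hm⟩ := w.2
  have h1 : Per 1 w.1 := (per_iff one_pos w).2 (by simpa using h)
  have hc : ∀ i, w.1 i = w.1 0 := fun i => by simpa using h1.zper 0 i
  obtain ⟨i, hi⟩ := hm.2.2 ⟨0, by omega⟩
  obtain ⟨j, hj⟩ := hm.2.2 ⟨1, by omega⟩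
  have := hi.symm.trans ((hc i).trans ((hc j).symm.trans hj))
  simp at this

theorem meet {n : ℕ} {A B : Set (W d I)} (hA : ∀ w ∈ A, Per n w.1) (hB : ∀ w ∈ B, Per n w.1)
    (h1 : d ^ n < 2 * A.ncard) (h2 : d ^ n < 2 * B.ncard) : (A ∩ B).Nonempty := by
  by_contra hne
  rw [Set.not_nonempty_iff_eq_empty] at hne
  have h3 := Set.ncard_union_add_ncard_inter A B
  rw [hne, Set.ncard_empty] at h3
  have h4 : (A ∪ B).ncard ≤ d ^ n := by
    refine le_trans ?_ (ncard_per_le (d := d) n)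
    refine Set.ncard_le_ncard_of_injOn (fun w => w.1) ?_ (fun a _ b _ h => Subtype.ext h)
      (finite_per n)
    rintro w (h | h)
    exacts [hA w h, hB w h]
  omega

theorem count {G : Type} [Group G] [Finite G] (K : Subgroup G) (A Good : Set G) (c : ℕ)
    (hA : ∀ g ∈ A, ∀ k ∈ K, g * k ∈ A)
    (hG : ∀ h : G, Nat.card K ≤ c * {k : K | h * k ∈ Good}.ncard) :
    A.ncard ≤ c * (A ∩ Good).ncard := by
  have := Fintype.ofFinite G
  have hK : 0 < Nat.card K := Nat.card_pos
  refine Nat.le_of_mul_le_mul_right ?_ hK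
  have e1 : A.ncard = (Finset.univ.filter fun g => g ∈ A).card := by
    rw [← Set.ncard_coe_finset]; congr 1; ext; simp
  have e2 : (A ∩ Good).ncard = (Finset.univ.filter fun g => g ∈ A ∩ Good).card := by
    rw [← Set.ncard_coe_finset]; congr 1; ext; simp
  have e3 : ∀ h : G, {k : K | h * k ∈ Good}.ncard =
      ∑ k : K, if h * k ∈ Good then 1 else 0 := fun h => by
    rw [← Finset.card_filter, ← Set.ncard_coe_finset]; congr 1; ext; simp
  have e4 : ∀ k : K, ∑ h ∈ Finset.univ.filter (fun g => g ∈ A),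
      (if h * k ∈ Good then 1 else 0) ≤ (A ∩ Good).ncard := fun k => by
    rw [← Finset.card_filter, e2]
    refine Finset.card_le_card_of_injOn (fun h => h * k) ?_ fun a _ b _ h => mul_right_cancel h
    intro h hh
    simp only [Finset.coe_filter, Finset.mem_filter, Finset.mem_univ, true_and,
      Set.mem_ofPred_eq] at hh ⊢
    exact ⟨hA h hh.1 k k.2, hh.2⟩
  calc A.ncard * Nat.card K = ∑ _h ∈ Finset.univ.filter (fun g => g ∈ A), Nat.card K := by
        rw [Finset.sum_const, smul_eq_mul, e1]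
    _ ≤ ∑ h ∈ Finset.univ.filter (fun g => g ∈ A),
        c * ∑ k : K, if h * k ∈ Good then 1 else 0 :=
        Finset.sum_le_sum fun h _ => by rw [← e3]; exact hG h
    _ = c * ∑ k : K, ∑ h ∈ Finset.univ.filter (fun g => g ∈ A),
        if h * k ∈ Good then 1 else 0 := by rw [← Finset.mul_sum, Finset.sum_comm]
    _ ≤ c * ∑ _k : K, (A ∩ Good).ncard := Nat.mul_le_mul_left _ (Finset.sum_le_sum fun k _ => e4 k)
    _ = c * (A ∩ Good).ncard * Nat.card K := by
        rw [Finset.sum_const, smul_eq_mul, Finset.card_univ, Nat.card_eq_fintype_card]; ring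

theorem choose_I (M n₀ C : ℕ) (hM : 0 < M) (hC : 0 < C) {η : ℝ} (hη : 0 < η) :
    ∃ I : Finset ℕ, (∀ n ∈ I, n.Prime ∧ n₀ ≤ n) ∧ (∀ n ∈ I, ∀ n' ∈ I, n' < n → n' + M ≤ n) ∧
      ∏ n ∈ I, (1 - 1 / ((C * n : ℕ) : ℝ)) ≤ η := by
  let f : ℕ → ℕ → ℝ := fun r n => if n.Prime ∧ n₀ ≤ n ∧ n % M = r then 1 / (n : ℝ) else 0
  have hf0 : ∀ r n, 0 ≤ f r n := fun r n => by
    simp only [f]; split_ifs <;> positivity
  have hns : ∃ r, ¬Summable (f r) := by
    by_contra hall
    push Not at hall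
    have h1 : Summable fun n => ∑ r ∈ Finset.range M, f r n := summable_sum fun r _ => hall r
    refine not_summable_one_div_on_primes ?_
    rw [← summable_nat_add_iff n₀] at h1 ⊢
    refine h1.of_nonneg_of_le (fun n => Set.indicator_nonneg (fun _ _ => by positivity) _) ?_
    intro n
    refine le_trans ?_ (Finset.single_le_sum (f := fun r => f r (n + n₀)) (fun r _ => hf0 r _)
      (Finset.mem_range.2 (Nat.mod_lt (n + n₀) hM)))
    by_cases hp : (n + n₀).Prime
    · rw [Set.indicator_of_mem (show n + n₀ ∈ {p : ℕ | p.Prime} from hp)]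
      simp only [f]
      rw [if_pos ⟨hp, by omega, trivial⟩]
    · rw [Set.indicator_of_notMem (show n + n₀ ∉ {p : ℕ | p.Prime} from hp)]
      exact hf0 _ _
  obtain ⟨r, hr⟩ := hns
  rw [not_summable_iff_tendsto_nat_atTop_of_nonneg (hf0 r)] at hr
  obtain ⟨N, hN⟩ := (hr.eventually_ge_atTop (C * -Real.log η)).exists
  refine ⟨(Finset.range N).filter fun n => n.Prime ∧ n₀ ≤ n ∧ n % M = r, ?_, ?_, ?_⟩
  · intro n hn
    have := (Finset.mem_filter.1 hn).2
    exact ⟨this.1, this.2.1⟩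
  · intro n hn n' hn' hlt
    have h1 := (Finset.mem_filter.1 hn).2.2.2
    have h2 := (Finset.mem_filter.1 hn').2.2.2
    have h3 : M ∣ n - n' := (Nat.modEq_iff_dvd' hlt.le).1 (h2.trans h1.symm)
    have := Nat.le_of_dvd (by omega) h3
    omega
  · have hC' : (0 : ℝ) < C := by exact_mod_cast hC
    calc _ ≤ ∏ n ∈ (Finset.range N).filter fun n => n.Prime ∧ n₀ ≤ n ∧ n % M = r,
          Real.exp (-(1 / ((C * n : ℕ) : ℝ))) := by
          refine Finset.prod_le_prod (fun n hn => ?_) fun n _ => ?_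
          · have h1 := (Finset.mem_filter.1 hn).2.1.pos
            have h2 : (1 : ℝ) ≤ ((C * n : ℕ) : ℝ) := by exact_mod_cast Nat.mul_pos hC h1
            rw [sub_nonneg]
            exact (div_le_one (by linarith)).2 h2
          · linarith [Real.add_one_le_exp (-(1 / ((C * n : ℕ) : ℝ)))]
      _ = Real.exp (-((∑ n ∈ Finset.range N, f r n) / C)) := by
          rw [← Real.exp_sum, Finset.sum_neg_distrib, Finset.sum_filter, Finset.sum_div]
          congr 2
          refine Finset.sum_congr rfl fun n _ => ?_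
          simp only [f]
          split_ifs
          · push_cast; rw [div_div, mul_comm]
          · simp
      _ ≤ Real.exp (Real.log η) := by
          refine Real.exp_le_exp.2 ?_
          rw [neg_le, le_div_iff₀ hC']
          linarith
      _ = η := Real.exp_log hη

/-- The elements that fix all words of the levels below `n`. -/
def low (d : ℕ) (I : Finset ℕ) (G : Type) [Group G] [MulAction G (W d I)] (n : ℕ) :
    Subgroup G where
  carrier := {g | ∀ n' ∈ I, n' < n → ∀ w : W d I, Per n' w.1 → g • w = w}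
  mul_mem' := fun {a b} ha hb n' h1 h2 w hw => by
    rw [mul_smul, hb n' h1 h2 w hw, ha n' h1 h2 w hw]
  one_mem' := fun _ _ _ w _ => one_smul G w
  inv_mem' := fun {a} ha n' h1 h2 w hw => by rw [inv_smul_eq_iff, ha n' h1 h2 w hw]

theorem used_ne [NeZero d] {u v : Fin d} {j : ℕ} (h : Used u v j) : u ≠ v ∧ 1 ≤ j := by
  rcases h with ⟨r, t, h1, h2, rfl, rfl, rfl⟩ | ⟨rfl, h1, h2⟩
  · refine ⟨fun h => ?_, le_rfl⟩
    have h3 : (r + 1) % d = (t + 1) % d := congrArg Fin.val h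
    have h4 := NeZero.pos d
    have h5 : d ∣ t + 1 - (r + 1) := (Nat.modEq_iff_dvd' (by omega)).1 h3
    have := Nat.le_of_dvd (by omega) h5
    omega
  · exact ⟨h1.symm, h2⟩

theorem step [NeZero d] (hd : 3 ≤ d) {C n : ℕ} (hn : n.Prime) (hn2 : 2 * d ≤ n)
    (hgap : ∀ n' ∈ I, n' < n → n' + 2 * (d - 1) ≤ n)
    (G : Type) [Group G] [Finite G] [MulAction G (W d I)]
    (hsh : ∀ (g : G) (w : W d I), g • shW d I w = shW d I (g • w))
    (hmk : ∀ (u v : Fin d) (j : ℕ), u ≠ v → 1 ≤ j →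
        ∃ g : G, ∀ w : W d I, (g • w).1 = mk u v j w.1)
    (F : Equiv.Perm (W d I)) (hF : ∀ w, F (shW d I w) = shW d I (F w))
    (hFG : ∀ g : G, ∃ g' : G, ∀ w, F (g • w) = g' • F w)
    (hgiant : ∀ N : Subgroup G, N.Normal →
      (∃ t ∈ N, ∀ w : W d I, (t • w).1 = mk 0 (L d 0) (n - 2 * (d - 1) - 1) w.1) →
      ∃ z : W d I, Per n z.1 ∧ d ^ n < 2 * (MulAction.orbit N z).ncard)
    (hrank : ∀ (X : Type) [Finite X] [Nonempty X] (K : Type)
      [Group K] [Finite K] [MulAction K X] (σ : Equiv.Perm X) (T : Set K),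
      n.Prime → σ ^ n = 1 → (∀ x, σ x ≠ x) → (∀ (k : K) (x : X), k • σ x = σ (k • x)) →
      (∀ t ∈ T, ∀ k : K, k * t * k⁻¹ ∈ T) →
      (∀ x y : X, ∃ k ∈ Subgroup.closure T, k • x = y) →
      (∀ t ∈ T, {x : X | t • x ≠ x}.ncard ≤ n * d ^ (2 * (d - 1))) →
      ∀ F : X → X, Nat.card K ≤ C * n * {k : K | ∃ x, k • x = F x}.ncard) (h : G) :
    Nat.card (low d I G n) ≤ C * n * {k : low d I G n |
      h * k ∈ {g : G | ∃ w : W d I, Per n w.1 ∧ g • F w = shW d I w}}.ncard := by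
  have hper : ∀ {m : ℕ} (g : G) {w : W d I}, Per m w.1 → Per m (g • w).1 := fun g w hw =>
    per_map (fun w => g • w) (hsh g) hw
  have h01 : (0 : Fin d) ≠ L d 0 := fun h => by
    have h3 : 0 = (0 + 1) % d := congrArg Fin.val h
    rw [Nat.mod_eq_of_lt (by omega)] at h3
    omega
  obtain ⟨t, ht⟩ := hmk 0 (L d 0) (n - 2 * (d - 1) - 1) h01 (by omega)
  set K := low d I G n with hKdef
  have hconj : ∀ g : G, g * t * g⁻¹ ∈ K := fun g n' h1 h2 w hw => by
    have h3 : t • g⁻¹ • w = g⁻¹ • w := Subtype.ext (by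
      rw [ht]
      exact mk_eq_of_short hd (hper _ hw) _ _ (by have := hgap n' h1 h2; omega))
    rw [mul_smul, mul_smul, h3, smul_inv_smul]
  let T : Set K := {k | ∃ g : G, (k : G) = g * t * g⁻¹}
  set N := Subgroup.normalClosure ({t} : Set G) with hN
  have hNT : N ≤ (Subgroup.closure T).map K.subtype := by
    refine (Subgroup.closure_le _).2 fun a ha => ?_
    obtain ⟨b, hb, hab⟩ := Group.mem_conjugatesOfSet_iff.1 ha
    obtain rfl : b = t := hb
    obtain ⟨g, rfl⟩ := isConj_iff.1 hab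
    exact ⟨⟨_, hconj g⟩, Subgroup.subset_closure ⟨g, rfl⟩, rfl⟩
  have hNn : N.Normal := Subgroup.normalClosure_normal
  obtain ⟨z, hz, hbig⟩ := hgiant N hNn ⟨t, Subgroup.subset_normalClosure rfl, ht⟩
  have horb : ∀ g : G, g • z ∈ MulAction.orbit N z := fun g => by
    have h1 : (MulAction.orbit N z).ncard ≤ (MulAction.orbit N (g • z)).ncard := by
      refine Set.ncard_le_ncard_of_injOn (fun w => g • w) ?_
        (fun a _ b _ hab => MulAction.injective g hab) (Set.toFinite _)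
      rintro _ ⟨a, rfl⟩
      refine ⟨⟨g * a * g⁻¹, hNn.conj_mem _ a.2 g⟩, ?_⟩
      show (g * a * g⁻¹) • g • z = g • (a : G) • z
      rw [mul_smul, mul_smul, inv_smul_smul]
    obtain ⟨y, ⟨a, ha⟩, ⟨b, hb⟩⟩ := meet (n := n) (A := MulAction.orbit N z)
      (B := MulAction.orbit N (g • z)) (by rintro _ ⟨a, rfl⟩; exact hper a.1 hz)
      (by rintro _ ⟨a, rfl⟩; exact hper a.1 (hper g hz)) hbig (by omega)
    refine ⟨b⁻¹ * a, ?_⟩
    show (b⁻¹ * a) • z = g • z
    rw [mul_smul, inv_smul_eq_iff]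
    exact ha.trans hb.symm
  let B : Set (W d I) := MulAction.orbit K z
  have hB : ∀ w, w ∈ B ↔ ∃ g : G, g • z = w := fun w => by
    refine ⟨fun ⟨k, hk⟩ => ⟨k, hk⟩, ?_⟩
    rintro ⟨g, rfl⟩
    obtain ⟨a, ha⟩ := horb g
    obtain ⟨k, -, hk⟩ := hNT a.2
    refine ⟨k, ?_⟩
    show (k : G) • z = g • z
    rw [show (k : G) = a from hk]
    exact ha
  have hBper : ∀ w ∈ B, Per n w.1 := fun w hw => by
    obtain ⟨g, rfl⟩ := (hB w).1 hw
    exact hper g hz
  have hBG : ∀ (g : G), ∀ w ∈ B, g • w ∈ B := fun g w hw => by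
    obtain ⟨a, rfl⟩ := (hB w).1 hw
    exact (hB _).2 ⟨g * a, mul_smul _ _ _⟩
  have hBbig : d ^ n < 2 * B.ncard := by
    have : (MulAction.orbit N z).ncard ≤ B.ncard :=
      Set.ncard_le_ncard (fun w ⟨a, ha⟩ => (hB w).2 ⟨a, ha⟩) (Set.toFinite _)
    omega
  have hP : ∀ P : Equiv.Perm (W d I), (∀ w, P (shW d I w) = shW d I (P w)) →
      (∀ g : G, ∃ g' : G, ∀ w, P (g • w) = g' • P w) → ∀ w, P w ∈ B ↔ w ∈ B := by
    intro P h1 h2
    obtain ⟨y, hy, x, hx, rfl⟩ := meet (n := n) (A := B) (B := P '' B) hBper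
      (by rintro _ ⟨x, hx, rfl⟩; exact per_map P h1 (hBper x hx)) hBbig
      (by rw [Set.ncard_image_of_injective _ P.injective]; exact hBbig)
    have hm : Set.MapsTo P B B := fun w hw => by
      obtain ⟨a, rfl⟩ := (hB x).1 hx
      obtain ⟨b, rfl⟩ := (hB w).1 hw
      obtain ⟨g', hg'⟩ := h2 (b * a⁻¹)
      have := hg' (a • z)
      rw [mul_smul, inv_smul_smul] at this
      rw [this]
      exact hBG _ _ hy
    have hbij := ((Set.toFinite B).injOn_iff_bijOn_of_mapsTo hm).1 P.injective.injOn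
    refine fun w => ⟨fun hw => ?_, fun hw => hm hw⟩
    obtain ⟨x', hx', he⟩ := hbij.surjOn hw
    rwa [← P.injective he]
  have hS := hP (shW d I) (fun _ => rfl) fun g => ⟨g, fun w => (hsh g w).symm⟩
  have hFB := hP F hF hFG
  let σ : Equiv.Perm B := (shW d I).subtypePerm hS
  have hσ : ∀ (k : ℕ) (x : B), ((σ ^ k) x).1 = (shW d I ^ k) x.1 := fun k => by
    induction k with
    | zero => intro x; rfl
    | succ k ih => intro x; rw [pow_succ, pow_succ, Equiv.Perm.mul_apply, ih]; rfl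
  have : Nonempty B := ⟨⟨z, MulAction.mem_orbit_self z⟩⟩
  have hΦ : ∀ x : B, h⁻¹ • shW d I (F.symm x.1) ∈ B := fun x =>
    hBG _ _ ((hS _).2 ((hFB _).1 (by rw [Equiv.apply_symm_apply]; exact x.2)))
  refine le_trans (hrank B K σ T hn ?_ ?_ ?_ ?_ ?_ ?_ fun x => ⟨_, hΦ x⟩) ?_
  · ext x
    rw [hσ, (per_iff hn.pos _).1 (hBper _ x.2)]
    rfl
  · exact fun x hx => sh_ne hd x.1 (congrArg Subtype.val hx)
  · exact fun k x => Subtype.ext (hsh k x.1)
  · rintro s ⟨g, hg⟩ k
    refine ⟨k * g, ?_⟩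
    push_cast
    rw [hg]
    group
  · intro x y
    obtain ⟨a, ha⟩ := (hB _).1 x.2
    obtain ⟨b, hb⟩ := (hB _).1 y.2
    obtain ⟨a', ha'⟩ := horb a
    obtain ⟨b', hb'⟩ := horb b
    obtain ⟨k, hk, hk'⟩ := hNT (b' * a'⁻¹).2
    refine ⟨k, hk, Subtype.ext ?_⟩
    show (k : G) • x.1 = y.1
    rw [show (k : G) = b' * (a' : G)⁻¹ from hk', ← ha, ← hb, ← ha', ← hb', mul_smul]
    show (b' : G) • (a' : G)⁻¹ • (a' : G) • z = (b' : G) • z
    rw [inv_smul_smul]
  · rintro s ⟨g, hg⟩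
    have h1 := ncard_supp_le (d := d) (n := n) 0 (L d 0) (j := n - 2 * (d - 1) - 1) (by omega)
    rw [show n - (n - 2 * (d - 1) - 1) - 1 = 2 * (d - 1) by omega] at h1
    refine le_trans (Set.ncard_le_ncard_of_injOn (fun x : B => (g⁻¹ • x.1).1) ?_ ?_
      ((finite_per n).subset fun _ hs => hs.1)) h1
    · intro x hx
      refine ⟨hper _ (hBper _ x.2), fun he => hx (Subtype.ext ?_)⟩
      show (s : G) • x.1 = x.1
      have h3 : t • g⁻¹ • x.1 = g⁻¹ • x.1 := Subtype.ext (by rw [ht]; exact he)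
      rw [hg, mul_smul, mul_smul, h3, smul_inv_smul]
    · exact fun a _ b _ hab => Subtype.ext (MulAction.injective g⁻¹ (Subtype.ext hab))
  · refine Nat.mul_le_mul_left _ (Set.ncard_le_ncard ?_ (Set.toFinite _))
    rintro k ⟨x, hx⟩
    refine ⟨F.symm x.1, hBper _ ((hFB _).1 (by rw [Equiv.apply_symm_apply]; exact x.2)), ?_⟩
    have h1 : (k : G) • x.1 = h⁻¹ • shW d I (F.symm x.1) := congrArg Subtype.val hx
    rw [Equiv.apply_symm_apply, mul_smul, h1, smul_inv_smul]

end ZGrp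

open ZGrp in
theorem grp (d : ℕ) (hd : 3 ≤ d) (η : ℝ) (hη : 0 < η) : ∃ I : Finset ℕ,
    ∀ (G : Type) [Group G] [Finite G] [MulAction G (W d I)],
      (∀ (g : G) (w : W d I), g • shW d I w = shW d I (g • w)) →
      (∀ (u v : Fin d) (j : ℕ), u ≠ v → 1 ≤ j →
        ∃ g : G, ∀ w : W d I, (g • w).1 = mk u v j w.1) →
      ∀ F : Equiv.Perm (W d I), (∀ w, F (shW d I w) = shW d I (F w)) →
        (∀ g : G, ∃ g' : G, ∀ w, F (g • w) = g' • F w) →
        ({g : G | ∀ w, g • F w ≠ shW d I w}.ncard : ℝ) ≤ η * Nat.card G := by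
  have : NeZero d := ⟨by omega⟩
  obtain ⟨n₀, hgiant⟩ := giant hd
  obtain ⟨C, hC, hrank⟩ := rank (d ^ (2 * (d - 1)))
  obtain ⟨I, hI, hgap, hprod⟩ := choose_I (2 * (d - 1)) (n₀ + 2 * d) C (by omega) hC hη
  refine ⟨I, fun G _ _ _ hsh hmk F hF hFG => ?_⟩
  let Bad : ℕ → Set G := fun b =>
    {g | ∀ n ∈ I, n < b → ∀ w : W d I, Per n w.1 → g • F w ≠ shW d I w}
  have key : ∀ b : ℕ, ((Bad b).ncard : ℝ) ≤
      (∏ n ∈ I.filter (· < b), (1 - 1 / ((C * n : ℕ) : ℝ))) * Nat.card G := by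
    intro b
    induction b with
    | zero =>
      simp only [Nat.not_lt_zero, Finset.filter_false, Finset.prod_empty, one_mul]
      exact_mod_cast Set.ncard_le_card _
    | succ b ih =>
      by_cases hb : b ∈ I
      · have e1 : I.filter (· < b + 1) = insert b (I.filter (· < b)) := by
          ext n
          simp only [Finset.mem_filter, Finset.mem_insert]
          constructor
          · rintro ⟨h1, h2⟩
            rcases Nat.lt_succ_iff_lt_or_eq.1 h2 with h | h
            exacts [Or.inr ⟨h1, h⟩, Or.inl h]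
          · rintro (rfl | ⟨h1, h2⟩)
            exacts [⟨hb, by omega⟩, ⟨h1, by omega⟩]
        obtain ⟨hp, hn⟩ := hI b hb
        let Good : Set G := {g : G | ∃ w : W d I, Per b w.1 ∧ g • F w = shW d I w}
        have h1 := count (low d I G b) (Bad b) Good (C * b)
          (fun g hg k hk n h1 h2 w hw => by
            rw [mul_smul, hk n h1 h2 _ (per_map F hF hw)]
            exact hg n h1 h2 w hw)
          (step hd hp (by omega) (hgap b hb) G hsh hmk F hF hFG
            (fun N hN ht => hgiant b hp (by omega) I hb G N hN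
              (fun u v j hu => hmk u v j (used_ne hu).1 (used_ne hu).2) ht) (hrank b))
        have h2 : (Bad (b + 1)).ncard ≤ (Bad b \ Good).ncard :=
          Set.ncard_le_ncard (fun g hg => ⟨fun n h1 h2 => hg n h1 (by omega),
            fun ⟨w, hw, he⟩ => hg b hb (by omega) w hw he⟩) (Set.toFinite _)
        have h3 := Set.ncard_inter_add_ncard_sdiff_eq_ncard (Bad b) Good
        have hc : (1 : ℝ) ≤ ((C * b : ℕ) : ℝ) := by exact_mod_cast Nat.mul_pos hC hp.pos
        have h4 : ((Bad b).ncard : ℝ) / ((C * b : ℕ) : ℝ) ≤ (Bad b ∩ Good).ncard := by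
          rw [div_le_iff₀' (by linarith)]
          exact_mod_cast h1
        have h5 : (0 : ℝ) ≤ 1 - 1 / ((C * b : ℕ) : ℝ) :=
          sub_nonneg.2 ((div_le_one (by linarith)).2 hc)
        rw [e1, Finset.prod_insert (by simp), mul_assoc]
        refine le_trans ?_ (mul_le_mul_of_nonneg_left ih h5)
        have h6 : ((Bad (b + 1)).ncard : ℝ) + (Bad b ∩ Good).ncard ≤ (Bad b).ncard := by
          exact_mod_cast (by omega : (Bad (b + 1)).ncard + (Bad b ∩ Good).ncard ≤ (Bad b).ncard)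
        rw [sub_mul, one_mul, one_div, inv_mul_eq_div]
        linarith
      · have e1 : I.filter (· < b + 1) = I.filter (· < b) := by
          refine Finset.filter_congr fun n hn => ?_
          have : n ≠ b := fun h => hb (h ▸ hn)
          omega
        rw [e1]
        refine le_trans ?_ ih
        have h2 : Bad (b + 1) ⊆ Bad b := fun g hg n h1 h2 => hg n h1 (by omega)
        exact_mod_cast Set.ncard_le_ncard h2 (Set.toFinite _)
  have h1 := key (I.sup id + 1)
  have e1 : I.filter (· < I.sup id + 1) = I := Finset.filter_true_of_mem fun n hn =>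
    Nat.lt_succ_of_le (Finset.le_sup (f := id) hn)
  rw [e1] at h1
  refine le_trans ?_ (h1.trans (mul_le_mul_of_nonneg_right hprod (Nat.cast_nonneg _)))
  have h2 : {g : G | ∀ w, g • F w ≠ shW d I w} ⊆ Bad (I.sup id + 1) := fun g hg n _ _ w _ => hg w
  exact_mod_cast Set.ncard_le_ncard h2 (Set.toFinite _)

end Pool.Agent.MP_9b2bac_nt.Z
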