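import Mathlib
import Pool.Agent.MP_9b2bac_nt.YTrans
import Pool.Agent.MP_9b2bac_nt.YPair
import Pool.Agent.MP_9b2bac_nt.ZGrp

set_option autoImplicit false

namespace Pool.Agent.MP_9b2bac_nt.Z

open Classical

namespace YGrpX

open ZSweep

theorem sc_smul {G X : Type} [Group G] [MulAction G X] {σ : Equiv.Perm X}
    (hc : ∀ (g : G) (x : X), g • σ x = σ (g • x)) (g : G) {x y : X} (h : σ.SameCycle x y) :
    σ.SameCycle (g • x) (g • y) := by
  obtain ⟨k, rfl⟩ := h
  have h1 : Commute (MulAction.toPerm g : Equiv.Perm X) σ := Equiv.ext fun x => hc g x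
  exact ⟨k, (DFunLike.congr_fun (h1.zpow_right k).eq x).symm⟩

theorem abs_step (n : ℕ) (hn : 0 < n) {G X : Type} [Group G] [Finite G] [Finite X] [MulAction G X]
    (σ : Equiv.Perm X) (hσ : ∀ (x : X) (k : ℤ), (σ ^ k) x = x ↔ (n : ℤ) ∣ k)
    (hc : ∀ (g : G) (x : X), g • σ x = σ (g • x)) (K : Subgroup G) (hK : K.Normal) (t : G)
    (ht : t ∈ K) (htr : ∀ x y : X, ∃ k ∈ Subgroup.normalClosure ({t} : Set G), k • x = y)
    (hsw : ∃ x y : X, ¬ σ.SameCycle x y ∧ t • x = y ∧ t • y = x ∧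
      ∀ w, ¬ σ.SameCycle x w → ¬ σ.SameCycle y w → t • w = w)
    (h3 : ∃ x y z : X, ¬ σ.SameCycle x y ∧ ¬ σ.SameCycle x z ∧ ¬ σ.SameCycle y z)
    (F : Equiv.Perm X) (hF : ∀ x, F (σ x) = σ (F x)) :
    (1 - 1 / (n : ℝ)) * Nat.card K ≤ {k : K | ∀ x, k • F x ≠ σ x}.ncard ∧
      ({k : K | ∀ x, k • F x ≠ σ x}.ncard : ℝ) ≤ (1 - 1 / (n + 1 : ℝ)) * Nat.card K := by
  let T : Set K := {k | ∃ g : G, (k : G) = g * t * g⁻¹}
  have hNT : Subgroup.normalClosure ({t} : Set G) ≤ (Subgroup.closure T).map K.subtype := by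
    refine (Subgroup.closure_le _).2 fun a ha => ?_
    obtain ⟨b, hb, hab⟩ := Group.mem_conjugatesOfSet_iff.1 ha
    obtain rfl : b = t := hb
    obtain ⟨g, rfl⟩ := isConj_iff.1 hab
    exact ⟨⟨_, hK.conj_mem _ ht g⟩, Subgroup.subset_closure ⟨g, rfl⟩, rfl⟩
  refine pairs n hn X K σ T hσ (fun k x => hc k x) ?_ ?_ ?_ h3 F hF
  · rintro s ⟨g, hg⟩ k
    refine ⟨k * g, ?_⟩
    push_cast
    rw [hg]
    group
  · intro x y
    obtain ⟨k, hk, rfl⟩ := htr x y
    obtain ⟨k', hk', rfl⟩ := hNT hk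
    exact ⟨k', hk', rfl⟩
  · rintro s ⟨g, hg⟩
    obtain ⟨x, y, h1, h2, h3, h4⟩ := hsw
    have e : ∀ w : X, s • w = g • t • g⁻¹ • w := fun w => by
      rw [Subgroup.smul_def, hg, mul_smul, mul_smul]
    refine ⟨g • x, g • y, fun h => h1 ?_, ?_, ?_, fun w a b => ?_⟩
    · simpa using sc_smul hc g⁻¹ h
    · rw [e, inv_smul_smul, h2]
    · rw [e, inv_smul_smul, h3]
    · rw [e, h4 (g⁻¹ • w) (fun h => a (by simpa using sc_smul hc g h))
        (fun h => b (by simpa using sc_smul hc g h)), smul_inv_smul]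

theorem count2 {G : Type} [Group G] [Finite G] (K : Subgroup G) (A Good : Set G) (c1 c2 : ℝ)
    (hA : ∀ g ∈ A, ∀ k ∈ K, k * g ∈ A)
    (hG : ∀ h : G, c1 * Nat.card K ≤ {k : K | k * h ∈ Good}.ncard ∧
      ({k : K | k * h ∈ Good}.ncard : ℝ) ≤ c2 * Nat.card K) :
    c1 * A.ncard ≤ (A ∩ Good).ncard ∧ ((A ∩ Good).ncard : ℝ) ≤ c2 * A.ncard := by
  have := Fintype.ofFinite G
  have hK : (0 : ℝ) < Nat.card K := by exact_mod_cast (Nat.card_pos : 0 < Nat.card K)
  have e1 : A.ncard = (Finset.univ.filter fun g => g ∈ A).card := by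
    rw [← Set.ncard_coe_finset]; congr 1; ext; simp
  have e2 : (A ∩ Good).ncard = (Finset.univ.filter fun g => g ∈ A ∩ Good).card := by
    rw [← Set.ncard_coe_finset]; congr 1; ext; simp
  have e3 : ∀ h : G, {k : K | k * h ∈ Good}.ncard =
      ∑ k : K, if k * h ∈ Good then 1 else 0 := fun h => by
    rw [← Finset.card_filter, ← Set.ncard_coe_finset]; congr 1; ext; simp
  have e4 : ∀ k : K, ∑ h ∈ Finset.univ.filter (fun g => g ∈ A),
      (if k * h ∈ Good then 1 else 0) = (A ∩ Good).ncard := fun k => by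
    rw [← Finset.card_filter, e2]
    refine Finset.card_nbij' (fun h => k * h) (fun g => (k : G)⁻¹ * g) ?_ ?_ ?_ ?_
    · intro h hh
      simp only [Finset.coe_filter, Finset.mem_filter, Finset.mem_univ, true_and,
        Set.mem_ofPred_eq] at hh ⊢
      exact ⟨hA h hh.1 k k.2, hh.2⟩
    · intro h hh
      simp only [Finset.coe_filter, Finset.mem_filter, Finset.mem_univ, true_and,
        Set.mem_ofPred_eq] at hh ⊢
      exact ⟨hA h hh.1 _ (K.inv_mem k.2), by rw [mul_inv_cancel_left]; exact hh.2⟩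
    · intro h _
      exact inv_mul_cancel_left _ _
    · intro h _
      exact mul_inv_cancel_left _ _
  have e5 : ∑ h ∈ Finset.univ.filter (fun g => g ∈ A), {k : K | k * h ∈ Good}.ncard =
      (A ∩ Good).ncard * Nat.card K := by
    rw [Finset.sum_congr rfl fun h _ => e3 h, Finset.sum_comm, Finset.sum_congr rfl fun k _ => e4 k,
      Finset.sum_const, smul_eq_mul, Finset.card_univ, Nat.card_eq_fintype_card, mul_comm]
  have e6 : ∑ h ∈ Finset.univ.filter (fun g => g ∈ A), ({k : K | k * h ∈ Good}.ncard : ℝ) =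
      (A ∩ Good).ncard * Nat.card K := by exact_mod_cast e5
  have b1 := Finset.sum_le_sum (s := Finset.univ.filter fun g => g ∈ A) fun h _ => (hG h).1
  have b2 := Finset.sum_le_sum (s := Finset.univ.filter fun g => g ∈ A) fun h _ => (hG h).2
  rw [e6, Finset.sum_const, ← e1, nsmul_eq_mul] at b1 b2
  constructor
  · refine le_of_mul_le_mul_right ?_ hK
    linarith
  · refine le_of_mul_le_mul_right ?_ hK
    linarith

theorem zpow_val {X : Type} {d : ℕ} (val : X → Seq d) (σ : Equiv.Perm X)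
    (h : ∀ x i, val (σ x) i = val x (i + 1)) (k : ℤ) (x : X) (i : ℤ) :
    val ((σ ^ k) x) i = val x (i + k) := by
  induction k using Int.induction_on generalizing x i with
  | zero => simp
  | succ k ih => rw [zpow_add_one, Equiv.Perm.mul_apply, ih, h, add_assoc]
  | pred k ih =>
    have e := h (σ⁻¹ x) (i + (-(k : ℤ) - 1))
    have e2 : σ (σ⁻¹ x) = x := σ.apply_symm_apply x
    rw [e2] at e
    rw [zpow_sub_one, Equiv.Perm.mul_apply, ih, e]
    congr 1
    ring

theorem addmod {n : ℕ} (hn : 0 < n) (i k : ℤ) (h0 : 0 ≤ k) (h1 : k ≤ n) :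
    0 ≤ (i + k) % n ∧ (i + k) % n < n ∧ 0 ≤ i % n ∧ i % n < n ∧
      ((i + k) % n = i % n + k ∨ (i + k) % n = i % n + k - n) := by
  have hn' : (0 : ℤ) < n := by exact_mod_cast hn
  have a := Int.emod_nonneg i hn'.ne'
  have b := Int.emod_lt_of_pos i hn'
  refine ⟨Int.emod_nonneg _ hn'.ne', Int.emod_lt_of_pos _ hn', a, b, ?_⟩
  rw [← Int.emod_add_emod]
  by_cases h : i % n + k < n
  · exact Or.inl (Int.emod_eq_of_lt (by omega) h)
  · right
    rw [← Int.sub_emod_right]
    exact Int.emod_eq_of_lt (by omega) (by omega)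

/-- The word `a 0 ... 0 b 2`. -/
def zz (n : ℕ) (a b : Fin 3) : Seq 3 := fun i =>
  if i % n = n - 1 then 2 else if i % n = n - 2 then b else if i % n = 0 then a else 0

theorem zz_spec {n : ℕ} (hn : 8 ≤ n) (a b : Fin 3) (i : ℤ) :
    (i % n = n - 1 ∧ (zz n a b i).val = 2) ∨ (i % n = n - 2 ∧ (zz n a b i).val = b.val) ∨
      (i % n = 0 ∧ (zz n a b i).val = a.val) ∨
      (0 < i % n ∧ i % n < n - 2 ∧ (zz n a b i).val = 0) := by
  have := addmod (n := n) (by omega) i 0 le_rfl (by omega)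
  unfold zz
  split_ifs with h1 h2 h3
  · exact Or.inl ⟨h1, rfl⟩
  · exact Or.inr (Or.inl ⟨h2, rfl⟩)
  · exact Or.inr (Or.inr (Or.inl ⟨h3, rfl⟩))
  · exact Or.inr (Or.inr (Or.inr ⟨by omega, by omega, rfl⟩))

theorem small {n : ℕ} (k : ℤ) (h0 : 0 ≤ k) (h1 : k < n) : k % n = k := Int.emod_eq_of_lt h0 h1

theorem zz_per {n : ℕ} (hn : 8 ≤ n) (a b : Fin 3) (h : a = 1 ∨ b = 1) : Per n (zz n a b) := by
  refine ⟨by omega, fun i => by simp [zz], fun c => ?_⟩
  have s0 := zz_spec hn a b 0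
  have s1 := zz_spec hn a b 1
  have s2 := zz_spec hn a b (n - 2)
  have s3 := zz_spec hn a b (n - 1)
  rw [small _ (by omega) (by omega)] at s0 s1 s2 s3
  have hc := c.2
  by_cases c0 : c.val = 0
  · exact ⟨1, Fin.ext (by omega)⟩
  by_cases c2 : c.val = 2
  · exact ⟨n - 1, Fin.ext (by omega)⟩
  rcases h with h | h
  · have : a.val = 1 := congrArg Fin.val h
    exact ⟨0, Fin.ext (by omega)⟩
  · have : b.val = 1 := congrArg Fin.val h
    exact ⟨n - 2, Fin.ext (by omega)⟩

theorem zz_prim {n : ℕ} (hn : 8 ≤ n) : Prim n (zz n 0 1) := by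
  refine ⟨zz_per hn 0 1 (Or.inr rfl), fun m hm h => ?_⟩
  have h0 := h.1
  have e := congrArg Fin.val (h.2.1 (n - 1 - m))
  rw [sub_add_cancel] at e
  have s1 := zz_spec hn 0 1 (n - 1 - m)
  have s2 := zz_spec hn 0 1 (n - 1)
  rw [small _ (by omega) (by omega)] at s1 s2
  simp only [Fin.val_zero, Fin.val_one] at s1 s2
  omega

theorem mk_fix {d : ℕ} {u v : Fin d} {j : ℕ} {s : Seq d} (hj : 1 ≤ j)
    (h : ∀ y, s (y + 1) = u → s (y + 2) = v → s y ≠ u ∧ s y ≠ v) : mk u v j s = s := by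
  funext i
  by_cases hh : Hit u v j s i
  · have a := h (i + j - 1) (by rw [sub_add_cancel]; exact hh.1 j hj le_rfl)
      (by rw [show i + j - 1 + 2 = i + j + 1 by ring]; exact hh.2)
    rcases hj.eq_or_lt with rfl | h2
    · rw [show i + ((1 : ℕ) : ℤ) - 1 = i by push_cast; ring] at a
      exact mk_oth a.1 a.2
    · refine absurd ?_ a.1
      have := hh.1 (j - 1) (by omega) (by omega)
      rwa [show i + ((j - 1 : ℕ) : ℤ) = i + j - 1 by omega] at this
  · exact mk_not hh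

theorem fix_z {n : ℕ} (hn : 8 ≤ n) {u v : Fin 3} (huv : u ≠ v) (h : ¬(u = 0 ∧ v = 1)) {j : ℕ}
    (hj : 1 ≤ j) : mk u v j (zz n 0 1) = zz n 0 1 := by
  refine mk_fix hj fun y h1 h2 => ?_
  have a1 := addmod (n := n) (by omega) y 1 (by omega) (by omega)
  have a2 := addmod (n := n) (by omega) y 2 (by omega) (by omega)
  have s0 := zz_spec hn 0 1 y
  have s1 := zz_spec hn 0 1 (y + 1)
  have s2 := zz_spec hn 0 1 (y + 2)
  rw [h1] at s1
  rw [h2] at s2
  simp only [ne_eq, Fin.ext_iff, Fin.val_zero, Fin.val_one] at huv h s0 s1 s2 ⊢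
  omega

theorem fix_z2 {n : ℕ} (hn : 8 ≤ n) {j : ℕ} (hj : 1 ≤ j) : mk 0 1 j (zz n 1 2) = zz n 1 2 := by
  refine mk_fix hj fun y h1 h2 => ?_
  have a1 := addmod (n := n) (by omega) y 1 (by omega) (by omega)
  have a2 := addmod (n := n) (by omega) y 2 (by omega) (by omega)
  have s1 := zz_spec hn 1 2 (y + 1)
  have s2 := zz_spec hn 1 2 (y + 2)
  rw [h1] at s1
  rw [h2] at s2
  simp only [Fin.val_zero, Fin.val_one, Fin.val_two] at s1 s2
  omega

theorem mk_z1 {n : ℕ} (hn : 8 ≤ n) : mk 2 1 1 (zz n 1 1) = zz n 1 2 := by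
  funext i
  have a1 := addmod (n := n) (by omega) i 1 (by omega) (by omega)
  have a2 := addmod (n := n) (by omega) i 2 (by omega) (by omega)
  have s0 := zz_spec hn 1 1 i
  have s1 := zz_spec hn 1 1 (i + 1)
  have s2 := zz_spec hn 1 1 (i + 2)
  have s3 := zz_spec hn 1 2 i
  simp only [Fin.val_one, Fin.val_two] at s0 s1 s2 s3
  by_cases h : i % n = n - 2
  · have e : zz n 1 1 i = 1 := Fin.ext (by simp only [Fin.val_one]; omega)
    rw [mk_hit (hit_one (i + 1) (i + 2) rfl rfl (Fin.ext (by simp only [Fin.val_two]; omega))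
      (Fin.ext (by simp only [Fin.val_one]; omega))), e, Equiv.swap_apply_right]
    exact Fin.ext (by simp only [Fin.val_two]; omega)
  · rw [mk_mid (i + 1) (by omega) (by omega) fun e => by
      have := congrArg Fin.val e
      simp only [Fin.val_two] at this
      omega]
    exact Fin.ext (by omega)

theorem hit_iff {n : ℕ} (hn : 8 ≤ n) {a : Fin 3} (i : ℤ) :
    Hit 0 1 (n - 3) (zz n a 1) i ↔ i % n = 0 := by
  have a1 := addmod (n := n) (by omega) i (n - 3) (by omega) (by omega)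
  have a2 := addmod (n := n) (by omega) i (n - 2) (by omega) (by omega)
  have s1 := zz_spec hn a 1 (i + (n - 3))
  have s2 := zz_spec hn a 1 (i + (n - 2))
  constructor
  · rintro ⟨h1, h2⟩
    have h3 := h1 (n - 3) (by omega) le_rfl
    rw [show i + ((n - 3 : ℕ) : ℤ) + 1 = i + (n - 2) by omega] at h2
    rw [show i + ((n - 3 : ℕ) : ℤ) = i + (n - 3) by omega] at h3
    rw [h3] at s1
    rw [h2] at s2
    simp only [Fin.val_zero, Fin.val_one] at s1 s2
    omega
  · intro h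
    refine hit_of (fun y y1 y2 => ?_) (i + (n - 2)) (by omega)
      (Fin.ext (by simp only [Fin.val_one] at s2 ⊢; omega))
    have a3 := addmod (n := n) (by omega) i (y - i) (by omega) (by omega)
    rw [add_sub_cancel] at a3
    have s3 := zz_spec hn a 1 y
    exact Fin.ext (by simp only [Fin.val_zero]; omega)

theorem mk_z {n : ℕ} (hn : 8 ≤ n) (a : Fin 3) :
    mk 0 1 (n - 3) (zz n a 1) = zz n (Equiv.swap 0 1 a) 1 := by
  funext i
  have s0 := zz_spec hn a 1 i
  have s1 := zz_spec hn (Equiv.swap 0 1 a) 1 i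
  by_cases h : i % n = 0
  · have e : zz n a 1 i = a := Fin.ext (by omega)
    rw [mk_hit ((hit_iff hn i).2 h), e]
    exact Fin.ext (by omega)
  · rw [mk_not fun hh => h ((hit_iff hn i).1 hh)]
    exact Fin.ext (by omega)

theorem hit_two {n m : ℕ} (hn : 8 ≤ n) (hm : m ≤ n) {s : Seq 3} (h : Per m s)
    (hne : mk 0 1 (n - 3) s ≠ s) : m = n ∧ ∃ i : ℤ, ∃ a : Fin 3, (a = 0 ∨ a = 1) ∧
      ∀ x, s x = zz n a 1 (x + i) := by
  obtain ⟨i, hi⟩ := Function.ne_iff.1 hne
  have hh : Hit 0 1 (n - 3) s i := by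
    by_contra hno
    exact hi (mk_not hno)
  have ha : s i = 0 ∨ s i = 1 := by
    by_contra hno
    push Not at hno
    exact hi (mk_oth hno.1 hno.2)
  have h0 : ∀ k : ℕ, 1 ≤ k → k ≤ n - 3 → (s (i + k)).val = 0 := fun k k1 k2 =>
    congrArg Fin.val (hh.1 k k1 k2)
  have h1 : ∀ k : ℕ, k = n - 2 → (s (i + k)).val = 1 := fun k k1 => by
    rw [show i + k = i + ((n - 3 : ℕ) : ℤ) + 1 by omega, hh.2]
    rfl
  have h3 : ∀ k : ℕ, k = 0 → (s (i + k)).val = (s i).val := fun k k1 => by simp [k1]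
  have h4 : (s i).val = 0 ∨ (s i).val = 1 := ha.imp (congrArg Fin.val) (congrArg Fin.val)
  obtain ⟨x, hx⟩ := h.2.2 2
  obtain ⟨k, k1, k2, -⟩ := ZGiant.per_shift h i x
  have k3 : (s (i + k)).val = 2 := by rw [k2, hx]; rfl
  have k4 : k = n - 1 := by
    have := h0 k
    have := h1 k
    have := h3 k
    omega
  obtain rfl : m = n := by omega
  refine ⟨rfl, -i, s i, ha, ?_⟩
  have p := zz_per hn (s i) 1 (Or.inr rfl)
  have p2 : Per m fun x => zz m (s i) 1 (x + -i) := ⟨h.1, fun x => by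
    show zz m (s i) 1 (x + m + -i) = zz m (s i) 1 (x + -i)
    rw [add_right_comm, p.2.1], fun c => by
    obtain ⟨y, hy⟩ := p.2.2 c
    exact ⟨y + i, by simpa using hy⟩⟩
  refine congrFun (ZGiant.window h p2 i fun l hl => ?_)
  show s (i + l) = zz m (s i) 1 (i + l + -i)
  rw [show i + l + -i = l by ring]
  have s1 := zz_spec hn (s i) 1 l
  rw [small _ (by omega) (by omega)] at s1
  simp only [Fin.val_one] at s1
  have := h0 l
  have := h1 l
  have := h3 l
  have : l = k → (s (i + l)).val = 2 := fun e => e ▸ k3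
  exact Fin.ext (by omega)

theorem nc01 {n : ℕ} (hn : 8 ≤ n) (k : ℤ) : ¬∀ i, zz n 0 1 (i + k) = zz n 1 1 i := by
  intro h
  have e1 := congrArg Fin.val (h 0)
  have e2 := congrArg Fin.val (h (n - 1))
  rw [add_comm] at e1 e2
  have a1 := addmod (n := n) (by omega) k 0 (by omega) (by omega)
  have a2 := addmod (n := n) (by omega) k (n - 1) (by omega) (by omega)
  have s1 := zz_spec hn 0 1 (k + 0)
  have s2 := zz_spec hn 0 1 (k + (n - 1))
  have s3 := zz_spec hn 1 1 0
  have s4 := zz_spec hn 1 1 (n - 1)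
  rw [small _ (by omega) (by omega)] at s3 s4
  simp only [Fin.val_zero, Fin.val_one] at s1 s2 s3 s4
  omega

theorem nc2 {n : ℕ} (hn : 8 ≤ n) {a : Fin 3} (ha : a.val ≠ 2) (k : ℤ) :
    ¬∀ i, zz n a 1 (i + k) = zz n 1 2 i := by
  intro h
  have e1 := congrArg Fin.val (h (n - 2))
  have e2 := congrArg Fin.val (h (n - 1))
  rw [add_comm] at e1 e2
  have a1 := addmod (n := n) (by omega) k (n - 2) (by omega) (by omega)
  have a2 := addmod (n := n) (by omega) k (n - 1) (by omega) (by omega)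
  have s1 := zz_spec hn a 1 (k + (n - 2))
  have s2 := zz_spec hn a 1 (k + (n - 1))
  have s3 := zz_spec hn 1 2 (n - 2)
  have s4 := zz_spec hn 1 2 (n - 1)
  rw [small _ (by omega) (by omega)] at s3 s4
  simp only [Fin.val_two, Fin.val_one] at s1 s2 s3 s4
  omega

variable {I : Finset ℕ}

theorem prim_map {n : ℕ} (P : Equiv.Perm (W 3 I)) (hP : ∀ w, P (shW 3 I w) = shW 3 I (P w))
    (w : W 3 I) : Prim n (P w).1 ↔ Prim n w.1 := by
  have h : ∀ m, Per m (P w).1 ↔ Per m w.1 := fun m => ⟨fun h => by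
    have := ZGrp.per_map P.symm (fun x => by
      rw [Equiv.symm_apply_eq, hP, Equiv.apply_symm_apply]) h
    rwa [Equiv.symm_apply_apply] at this, ZGrp.per_map P hP⟩
  simp only [Prim, h]

/-- The elements that fix all words having a period below `n`. -/
def low (I : Finset ℕ) (G : Type) [Group G] [MulAction G (W 3 I)] (n : ℕ) : Subgroup G where
  carrier := {g | ∀ m, m < n → ∀ w : W 3 I, Per m w.1 → g • w = w}
  mul_mem' := fun {a b} ha hb m h w hw => by rw [mul_smul, hb m h w hw, ha m h w hw]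
  one_mem' := fun _ _ w _ => one_smul G w
  inv_mem' := fun {a} ha m h w hw => by rw [inv_smul_eq_iff, ha m h w hw]

theorem step {n : ℕ} (hn : 8 ≤ n) (hI : n ∈ I) (G : Type) [Group G] [Finite G]
    [MulAction G (W 3 I)] (hsh : ∀ (g : G) (w : W 3 I), g • shW 3 I w = shW 3 I (g • w))
    (hmk : ∀ (u v : Fin 3) (j : ℕ), u ≠ v → 1 ≤ j → ∃ g : G, ∀ w : W 3 I, (g • w).1 = mk u v j w.1)
    (F : Equiv.Perm (W 3 I)) (hF : ∀ w, F (shW 3 I w) = shW 3 I (F w)) :
    (1 - 1 / (n : ℝ)) * Nat.card (low I G n) ≤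
      {k : low I G n | ∀ w : W 3 I, Prim n w.1 → (k : G) • F w ≠ shW 3 I w}.ncard ∧
    ({k : low I G n | ∀ w : W 3 I, Prim n w.1 → (k : G) • F w ≠ shW 3 I w}.ncard : ℝ) ≤
      (1 - 1 / (n + 1 : ℝ)) * Nat.card (low I G n) := by
  have hper : ∀ {m : ℕ} (g : G) {w : W 3 I}, Per m w.1 → Per m (g • w).1 := fun g w hw =>
    ZGrp.per_map (fun w => g • w) (hsh g) hw
  let X : SubMulAction G (W 3 I) := ⟨{w | Prim n w.1}, fun g w hw =>
    (prim_map (MulAction.toPerm g) (hsh g) w).2 hw⟩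
  let σ : Equiv.Perm X := (shW 3 I).subtypePerm fun w => prim_map (shW 3 I) (fun _ => rfl) w
  let F' : Equiv.Perm X := F.subtypePerm fun w => prim_map F hF w
  have hv : ∀ (k : ℤ) (x : X) (i : ℤ), ((σ ^ k) x).1.1 i = x.1.1 (i + k) :=
    zpow_val (fun x : X => x.1.1) σ fun _ _ => rfl
  have hK : (low I G n).Normal := ⟨fun k hk g m hm w hw => by
    rw [mul_smul, mul_smul, hk m hm _ (hper _ hw), smul_inv_smul]⟩
  obtain ⟨t, ht⟩ := hmk 0 1 (n - 3) (by decide) (by omega)
  obtain ⟨c, hc⟩ := hmk 2 1 1 (by decide) le_rfl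
  have htK : t ∈ low I G n := fun m hm w hw => Subtype.ext (by
    rw [ht]
    by_contra hne
    have := (hit_two hn hm.le hw hne).1
    omega)
  let z : X := ⟨⟨zz n 0 1, n, hI, (zz_prim hn).1⟩, zz_prim hn⟩
  have e1 : (t • z).1.1 = zz n 1 1 := by
    have := mk_z hn 0
    rw [Equiv.swap_apply_left] at this
    exact (ht z.1).trans this
  have e0 : t • t • z = z := Subtype.ext (Subtype.ext (by
    have := mk_z hn 1
    rw [Equiv.swap_apply_right] at this
    refine (ht (t • z).1).trans ?_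
    rw [e1]
    exact this))
  have e2 : (c • t • z).1.1 = zz n 1 2 := by
    refine (hc (t • z).1).trans ?_
    rw [e1]
    exact mk_z1 hn
  have n01 : ¬σ.SameCycle z (t • z) := by
    rintro ⟨k, hk⟩
    exact nc01 hn k fun i => by rw [← e1, ← hk, hv]
  set N := Subgroup.normalClosure ({t} : Set G) with hN
  have hNn : N.Normal := Subgroup.normalClosure_normal
  have hall : ∀ x : X, x.1 ∈ MulAction.orbit N z.1 := by
    let Q : Seq 3 → Prop := fun s => ∃ w ∈ MulAction.orbit N z.1, w.1 = s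
    have hQ : ∀ w : W 3 I, Q w.1 ↔ w ∈ MulAction.orbit N z.1 := fun w =>
      ⟨fun ⟨w', h1, h2⟩ => by rwa [← (Subtype.ext h2 : w' = w)], fun h => ⟨w, h, rfl⟩⟩
    have q0 : z.1 ∈ MulAction.orbit N z.1 := MulAction.mem_orbit_self _
    have q1 : t • z.1 ∈ MulAction.orbit N z.1 := ⟨⟨t, Subgroup.subset_normalClosure rfl⟩, rfl⟩
    have q2 : c • t • z.1 ∈ MulAction.orbit N z.1 :=
      (ZGiant.orbit_iff N hNn z.1 q0 (Subtype.ext ((hc z.1).trans
        (fix_z hn (by decide) (by decide) le_rfl))) _).1 q1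
    have hrel : ∀ s r, RelA n s r → (Q s ↔ Q r) := by
      intro s r h
      induction h with
      | rel s r h =>
        obtain ⟨hs, u, v, j, huv, hj, rfl⟩ := h
        obtain ⟨g, hg⟩ := hmk u v j huv hj
        let w : W 3 I := ⟨s, n, hI, hs⟩
        show Q w.1 ↔ Q (mk u v j w.1)
        rw [← hg, hQ, hQ]
        by_cases h01 : u = 0 ∧ v = 1
        · obtain ⟨rfl, rfl⟩ := h01
          refine ZGiant.orbit_iff N hNn z.1 q2 (Subtype.ext ((hg _).trans ?_)) w
          have e3 : (c • t • z.1).1 = zz n 1 2 := e2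
          rw [e3]
          exact fix_z2 hn hj
        · exact ZGiant.orbit_iff N hNn z.1 q0 (Subtype.ext ((hg _).trans (fix_z hn huv h01 hj))) w
      | refl s => rfl
      | symm s t _ ih => exact ih.symm
      | trans s t r _ _ ih1 ih2 => exact ih1.trans ih2
    exact fun x => (hQ _).1 ((hrel _ _ (trans3 hn z.2 x.2)).1 ((hQ _).2 q0))
  have key := abs_step n (by omega) σ (fun x k => ?_) (fun g x => Subtype.ext (hsh g x.1))
    (low I G n) hK t htK (fun x y => ?_) ⟨z, t • z, n01, rfl, e0, fun w a b => ?_⟩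
    ⟨z, t • z, c • t • z, n01, ?_, ?_⟩ F' fun x => Subtype.ext (hF x.1)
  · have e : {k : low I G n | ∀ w : W 3 I, Prim n w.1 → (k : G) • F w ≠ shW 3 I w} =
        {k : low I G n | ∀ x, k • F' x ≠ σ x} := by
      ext k
      exact ⟨fun h x e => h x.1 x.2 (congrArg Subtype.val e),
        fun h w hw e => h ⟨w, hw⟩ (Subtype.ext e)⟩
    rw [e]
    exact key
  · have hp : Prim n x.1.1 := x.2
    have a := addmod (n := n) (by omega) k 0 le_rfl (by omega)
    constructor
    · intro h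
      by_contra hd
      have h0 : k % n ≠ 0 := fun e => hd (Int.dvd_of_emod_eq_zero e)
      refine hp.2 (k % n).toNat (by omega) ⟨by omega, fun i => ?_, hp.1.2.2⟩
      rw [Int.toNat_of_nonneg a.2.2.1, ← hp.1.zper _ (k / n), add_assoc, Int.emod_add_ediv_mul,
        ← hv, h]
    · rintro ⟨l, rfl⟩
      exact Subtype.ext (Subtype.ext (funext fun i => by rw [hv, mul_comm, hp.1.zper]))
  · obtain ⟨a, ha⟩ := hall x
    obtain ⟨b, hb⟩ := hall y
    refine ⟨b * a⁻¹, N.mul_mem b.2 (N.inv_mem a.2), Subtype.ext ?_⟩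
    show ((b : G) * (a : G)⁻¹) • x.1 = y.1
    rw [← ha, ← hb, mul_smul]
    show (b : G) • (a : G)⁻¹ • (a : G) • z.1 = (b : G) • z.1
    rw [inv_smul_smul]
  · refine Subtype.ext (Subtype.ext ((ht w.1).trans ?_))
    by_contra hne
    have hp : Prim n w.1.1 := w.2
    obtain ⟨-, i, l, rfl | rfl, hl⟩ := hit_two hn le_rfl hp.1 hne
    · exact a ⟨i, Subtype.ext (Subtype.ext (funext fun x => by rw [hv, hl]))⟩
    · exact b ⟨i, Subtype.ext (Subtype.ext (funext fun x => by rw [hv, hl, e1]))⟩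
  · rintro ⟨k, hk⟩
    exact nc2 hn (a := 0) (by decide) k fun i => by rw [← e2, ← hk, hv]
  · rintro ⟨k, hk⟩
    exact nc2 hn (a := 1) (by decide) k fun i => by rw [← e2, ← hk, hv, e1]

end YGrpX

open YGrpX in
theorem grp3 {M N : ℕ} (hM : 8 ≤ M) (hMN : M ≤ N) (I : Finset ℕ) (hI : ∀ n, M ≤ n → n ≤ N → n ∈ I)
    (G : Type) [Group G] [Finite G] [MulAction G (W 3 I)]
    (hsh : ∀ (g : G) (w : W 3 I), g • shW 3 I w = shW 3 I (g • w))
    (hmk : ∀ (u v : Fin 3) (j : ℕ), u ≠ v → 1 ≤ j → ∃ g : G, ∀ w : W 3 I, (g • w).1 = mk u v j w.1)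
    (F : Equiv.Perm (W 3 I)) (hF : ∀ w, F (shW 3 I w) = shW 3 I (F w)) :
    ((M : ℝ) - 1) / N * Nat.card G ≤
      {g : G | ∀ (w : W 3 I) (n : ℕ), M ≤ n → n ≤ N → Prim n w.1 → g • F w ≠ shW 3 I w}.ncard ∧
    ({g : G | ∀ (w : W 3 I) (n : ℕ), M ≤ n → n ≤ N → Prim n w.1 → g • F w ≠ shW 3 I w}.ncard : ℝ) ≤
      (M : ℝ) / (N + 1) * Nat.card G := by
  let Bad : ℕ → Set G := fun b =>
    {g | ∀ (w : W 3 I) (n : ℕ), M ≤ n → n < b → Prim n w.1 → g • F w ≠ shW 3 I w}
  have hM' : (8 : ℝ) ≤ M := by exact_mod_cast hM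
  have key : ∀ b : ℕ, M ≤ b → b ≤ N + 1 → ((M : ℝ) - 1) / (b - 1) * Nat.card G ≤ (Bad b).ncard ∧
      ((Bad b).ncard : ℝ) ≤ (M : ℝ) / b * Nat.card G := by
    intro b hb
    induction b, hb using Nat.le_induction with
    | base =>
      intro _
      have e : Bad M = Set.univ := Set.eq_univ_of_forall fun g w n h1 h2 => by omega
      rw [e, Set.ncard_univ, div_self (by linarith), div_self (by linarith), one_mul]
      exact ⟨le_rfl, le_rfl⟩
    | succ b hb ih =>
      intro hb2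
      obtain ⟨i1, i2⟩ := ih (by omega)
      have hb' : (M : ℝ) ≤ b := by exact_mod_cast hb
      let Good : Set G := {g | ∀ w : W 3 I, Prim b w.1 → g • F w ≠ shW 3 I w}
      have e : Bad (b + 1) = Bad b ∩ Good := by
        ext g
        refine ⟨fun h => ⟨fun w n h1 h2 => h w n h1 (by omega), fun w => h w b hb (by omega)⟩,
          fun h w n h1 h2 => ?_⟩
        rcases Nat.lt_succ_iff_lt_or_eq.1 h2 with h3 | rfl
        exacts [h.1 w n h1 h3, h.2 w]
      obtain ⟨c1, c2⟩ := count2 (low I G b) (Bad b) Good (1 - 1 / (b : ℝ)) (1 - 1 / (b + 1 : ℝ))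
        (fun g hg k hk w n h1 h2 hw => by
          rw [mul_smul, hk n h2 _ (ZGrp.per_map (fun w => g • w) (hsh g)
            (ZGrp.per_map F hF hw.1))]
          exact hg w n h1 h2 hw)
        fun h => by
          have := step (hM.trans hb) (hI b hb (by omega)) G hsh hmk (F.trans (MulAction.toPerm h))
            fun w => by
              show h • F (shW 3 I w) = shW 3 I (h • F w)
              rw [hF, hsh]
          have e2 : {k : low I G b | k * h ∈ Good} = {k : low I G b | ∀ w : W 3 I, Prim b w.1 →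
              (k : G) • (F.trans (MulAction.toPerm h)) w ≠ shW 3 I w} := by
            ext k
            show (∀ w : W 3 I, Prim b w.1 → ((k : G) * h) • F w ≠ shW 3 I w) ↔ _
            simp only [mul_smul]
            rfl
          rw [e2]
          exact this
      rw [e]
      push_cast
      have p0 : (0 : ℝ) < b - 1 := by linarith
      have p1 : (0 : ℝ) < b := by linarith
      have f1 : (0 : ℝ) ≤ 1 - 1 / (b : ℝ) := sub_nonneg.2 ((div_le_one p1).2 (by linarith))
      have f2 : (0 : ℝ) ≤ 1 - 1 / (b + 1 : ℝ) :=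
        sub_nonneg.2 ((div_le_one (by linarith)).2 (by linarith))
      constructor
      · refine le_trans (le_of_eq ?_) ((mul_le_mul_of_nonneg_left i1 f1).trans c1)
        rw [add_sub_cancel_right]
        field_simp
      · refine (c2.trans (mul_le_mul_of_nonneg_left i2 f2)).trans (le_of_eq ?_)
        field_simp
        ring
  have h := key (N + 1) (by omega) le_rfl
  have e : Bad (N + 1) = {g : G | ∀ (w : W 3 I) (n : ℕ), M ≤ n → n ≤ N → Prim n w.1 →
      g • F w ≠ shW 3 I w} := by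
    ext g
    simp only [Bad, Set.mem_ofPred_eq, Nat.lt_succ_iff]
  rw [e] at h
  push_cast at h
  rwa [add_sub_cancel_right] at h

end Pool.Agent.MP_9b2bac_nt.Z
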