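import Mathlib

set_option autoImplicit false

namespace Pool.Agent.MP_9b2bac_nt.Z.ZCheb

open Polynomial

variable {O R : Type} [CommRing O] [IsDomain O] [CommRing R] [IsDomain R] [Algebra O R]

omit [IsDomain O] in
theorem avoid [Infinite O] (hinj : Function.Injective (algebraMap O R)) {J : Type} (s : Finset J)
    (f : J → R →ₗ[O] R) (hf : ∀ j ∈ s, f j ≠ 0) : ∃ r, ∀ j ∈ s, f j r ≠ 0 := by
  classical
  induction s using Finset.induction_on with
  | empty => exact ⟨0, by simp⟩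
  | insert a s _ ih =>
    obtain ⟨r, hr⟩ := ih fun j hj => hf j (Finset.mem_insert_of_mem hj)
    obtain ⟨z, hz⟩ : ∃ z, f a z ≠ 0 := by
      by_contra h
      push Not at h
      exact hf a (Finset.mem_insert_self a s) (LinearMap.ext h)
    have hfin : (⋃ j ∈ insert a s, {n : O | f j (r + n • z) = 0}).Finite := by
      refine (insert a s).finite_toSet.biUnion fun j hj => Set.Subsingleton.finite ?_
      intro n hn n' hn'
      rw [Set.mem_ofPred_eq, map_add, map_smul, Algebra.smul_def] at hn hn'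
      by_contra hne
      have h1 : (algebraMap O R n - algebraMap O R n') * f j z = 0 := by linear_combination hn - hn'
      have h2 : f j z = 0 :=
        (mul_eq_zero.1 h1).resolve_left (sub_ne_zero.2 (hinj.ne hne))
      rcases Finset.mem_insert.1 hj with rfl | hj
      · exact hz h2
      · exact hr j hj (by simpa [h2] using hn)
    obtain ⟨n, hn⟩ := hfin.exists_notMem
    exact ⟨r + n • z, fun j hj h => hn (Set.mem_biUnion hj h)⟩

omit [IsDomain O] in
theorem exists_prim [Infinite O] [Fintype (R ≃ₐ[O] R)]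
    (hinj : Function.Injective (algebraMap O R)) :
    ∃ y : R, Function.Injective fun g : R ≃ₐ[O] R => g y := by
  classical
  obtain ⟨y, hy⟩ := avoid hinj (Finset.univ : Finset (R ≃ₐ[O] R)).offDiag
    (fun p => p.1.toLinearMap - p.2.toLinearMap) fun p hp h => (Finset.mem_offDiag.1 hp).2.2
      (AlgEquiv.ext fun r => sub_eq_zero.1 (DFunLike.congr_fun h r))
  refine ⟨y, fun g g' h => ?_⟩
  by_contra hne
  exact hy (g, g') (by simpa using hne) (sub_eq_zero.2 h)

omit [IsDomain R] in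
theorem clear (hfix : ∀ r : R, (∀ g : R ≃ₐ[O] R, g r = r) →
      ∃ a b : O, a ≠ 0 ∧ a • r = algebraMap O R b) (F : R[X])
    (hF : ∀ g : R ≃ₐ[O] R, F.map (g : R →+* R) = F) :
    ∃ a : O, a ≠ 0 ∧ ∀ i, algebraMap O R a * F.coeff i ∈ Set.range (algebraMap O R) := by
  classical
  have h : ∀ i, ∃ a b : O, a ≠ 0 ∧ a • F.coeff i = algebraMap O R b := fun i =>
    hfix _ fun g => by
      conv_rhs => rw [← hF g, coeff_map]
      rfl
  choose a b ha hb using h
  refine ⟨∏ i ∈ F.support, a i, Finset.prod_ne_zero_iff.2 fun i _ => ha i, fun i => ?_⟩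
  by_cases hi : i ∈ F.support
  · refine ⟨(∏ j ∈ F.support.erase i, a j) * b i, ?_⟩
    rw [← Finset.prod_erase_mul _ _ hi, map_mul, map_mul, ← hb, Algebra.smul_def, mul_assoc]
  · rw [notMem_support_iff.1 hi, mul_zero]
    exact ⟨0, map_zero _⟩

theorem scale_prod {J : Type} (s : Finset J) (u : J → R) (c : R) :
    (∏ j ∈ s, (X - C (u j))).scaleRoots c = ∏ j ∈ s, (X - C (c * u j)) := by
  classical
  induction s using Finset.induction_on with
  | empty => simp
  | insert a s ha ih =>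
    rw [Finset.prod_insert ha, Finset.prod_insert ha, mul_scaleRoots_of_noZeroDivisors, ih,
      sub_eq_add_neg, ← C_neg, X_add_C_scaleRoots, neg_mul, C_neg, ← sub_eq_add_neg,
      mul_comm (u a)]

theorem exists_poly [Infinite O] [Fintype (R ≃ₐ[O] R)]
    (hinj : Function.Injective (algebraMap O R))
    (hfix : ∀ r : R, (∀ g : R ≃ₐ[O] R, g r = r) → ∃ a b : O, a ≠ 0 ∧ a • r = algebraMap O R b) :
    ∃ (y : R) (H : O[X]), (Function.Injective fun g : R ≃ₐ[O] R => g y) ∧ H.Monic ∧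
      H.natDegree = Fintype.card (R ≃ₐ[O] R) ∧
      H.map (algebraMap O R) = ∏ g : R ≃ₐ[O] R, (X - C (g y)) := by
  obtain ⟨y, hy⟩ := exists_prim hinj
  obtain ⟨c, hc, h⟩ := clear hfix (∏ g : R ≃ₐ[O] R, (X - C (g y))) fun g => by
    rw [Polynomial.map_prod, ← Equiv.prod_comp (Equiv.mulLeft g) fun g => X - C (g y)]
    simp
  have hm : ∀ u : (R ≃ₐ[O] R) → R, (∏ g, (X - C (u g))).Monic := fun u =>
    monic_prod_of_monic _ _ fun g _ => monic_X_sub_C _
  have e : ∀ g : R ≃ₐ[O] R, g (algebraMap O R c * y) = algebraMap O R c * g y := fun g => by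
    rw [map_mul, AlgEquiv.commutes]
  have hl : (∏ g : R ≃ₐ[O] R, (X - C (g (algebraMap O R c * y)))) ∈ lifts (algebraMap O R) := by
    rw [lifts_iff_coeff_lifts]
    intro n
    simp only [e]
    rw [← scale_prod, coeff_scaleRoots]
    rcases lt_trichotomy n (∏ g : R ≃ₐ[O] R, (X - C (g y))).natDegree with hn | hn | hn
    · obtain ⟨b, hb⟩ := h n
      obtain ⟨t, ht⟩ := Nat.exists_eq_add_of_lt hn
      refine ⟨b * c ^ t, ?_⟩
      rw [ht, show n + t + 1 - n = t + 1 by omega, map_mul, map_pow, hb]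
      ring
    · rw [hn, (hm _).coeff_natDegree, Nat.sub_self, pow_zero, mul_one]
      exact ⟨1, map_one _⟩
    · rw [coeff_eq_zero_of_natDegree_lt hn, zero_mul]
      exact ⟨0, map_zero _⟩
  obtain ⟨H, h1, h2, h3⟩ := lifts_and_natDegree_eq_and_monic hl (hm _)
  refine ⟨algebraMap O R c * y, H, fun g g' hg => hy ?_, h3, ?_, h1⟩
  · simp only [e] at hg
    exact mul_left_cancel₀ ((map_ne_zero_iff _ hinj).2 hc) hg
  · rw [h2, natDegree_finsetProd_X_sub_C_eq_card, Finset.card_univ]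

omit [IsDomain O] in
theorem small_zero [Fintype (R ≃ₐ[O] R)] (hinj : Function.Injective (algebraMap O R)) {y : R}
    (hy : Function.Injective fun g : R ≃ₐ[O] R => g y) {P : O[X]} (h0 : aeval y P = 0)
    (hP : P.natDegree < Fintype.card (R ≃ₐ[O] R)) : P = 0 := by
  refine map_injective _ hinj ?_
  rw [Polynomial.map_zero]
  refine eq_zero_of_natDegree_lt_card_of_eval_eq_zero _ hy (fun g => ?_)
    (natDegree_map_le.trans_lt hP)
  rw [eval_map_algebraMap, aeval_algHom_apply, h0, map_zero]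

omit [IsDomain O] [IsDomain R] in
theorem root_zero [Fintype (R ≃ₐ[O] R)] {y : R} {H : O[X]}
    (hH : H.map (algebraMap O R) = ∏ g : R ≃ₐ[O] R, (X - C (g y))) : aeval y H = 0 := by
  rw [← eval_map_algebraMap, hH, eval_prod]
  exact Finset.prod_eq_zero (Finset.mem_univ 1) (by simp)

omit [IsDomain O] in
theorem ker_dvd [Fintype (R ≃ₐ[O] R)] (hinj : Function.Injective (algebraMap O R)) {y : R}
    (hy : Function.Injective fun g : R ≃ₐ[O] R => g y) {H : O[X]} (hm : H.Monic)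
    (hd : H.natDegree = Fintype.card (R ≃ₐ[O] R))
    (hH : H.map (algebraMap O R) = ∏ g : R ≃ₐ[O] R, (X - C (g y))) {P : O[X]}
    (h0 : aeval y P = 0) : H ∣ P := by
  rw [← modByMonic_eq_zero_iff_dvd hm]
  refine small_zero hinj hy ?_ ?_
  · rw [aeval_modByMonic_eq_self_of_root (root_zero hH), h0]
  · rw [← hd]
    refine natDegree_modByMonic_lt P hm fun h => ?_
    rw [h, natDegree_one] at hd
    exact Fintype.card_pos.ne hd

theorem exists_den [Fintype (R ≃ₐ[O] R)] (hinj : Function.Injective (algebraMap O R))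
    (hfg : (⊤ : Subalgebra O R).FG)
    (hfix : ∀ r : R, (∀ g : R ≃ₐ[O] R, g r = r) → ∃ a b : O, a ≠ 0 ∧ a • r = algebraMap O R b)
    {y : R} (hy : Function.Injective fun g : R ≃ₐ[O] R => g y) :
    ∃ D : O, D ≠ 0 ∧ (∀ r : R, ∃ (N : ℕ) (P : O[X]), algebraMap O R D ^ N * r = aeval y P) ∧
      ∀ (k : Type) [Field k] (φ : R →+* k), φ (algebraMap O R D) ≠ 0 →
        Function.Injective fun g : R ≃ₐ[O] R => φ (g y) := by
  classical
  obtain ⟨E, hE⟩ : ∃ E : R[X], E = ∏ g ∈ Finset.univ.erase (1 : R ≃ₐ[O] R), (X - C (g y)) :=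
    ⟨_, rfl⟩
  have e1 : ∀ (g : R ≃ₐ[O] R) (z : R), (E.map (g : R →+* R)).eval z =
      ∏ g' ∈ Finset.univ.erase (1 : R ≃ₐ[O] R), (z - (g * g') y) := fun g z => by
    simp [hE, Polynomial.map_prod, eval_prod]
  have e2 : ∀ g : R ≃ₐ[O] R, g (E.eval y) =
      ∏ g' ∈ Finset.univ.erase (1 : R ≃ₐ[O] R), (g y - (g * g') y) := fun g => by
    simp [hE, eval_prod]
  obtain ⟨a, b, ha, hb⟩ := hfix (∏ g : R ≃ₐ[O] R, g (E.eval y)) fun h => by
    rw [map_prod, ← Equiv.prod_comp (Equiv.mulLeft h) fun g => g (E.eval y)]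
    simp
  have hδ : ∏ g : R ≃ₐ[O] R, g (E.eval y) ≠ 0 := by
    refine Finset.prod_ne_zero_iff.2 fun g _ => ?_
    rw [e2]
    refine Finset.prod_ne_zero_iff.2 fun g' hg' h => (Finset.mem_erase.1 hg').1 ?_
    exact (left_eq_mul.1 (hy (sub_eq_zero.1 h)))
  rw [Algebra.smul_def] at hb
  have hb0 : b ≠ 0 := by
    rintro rfl
    rw [map_zero] at hb
    exact mul_ne_zero ((map_ne_zero_iff _ hinj).2 ha) hδ hb
  have h1 : ∀ r : R, ∃ c : O, c ≠ 0 ∧ ∃ P : O[X], algebraMap O R c * (r * E.eval y) = aeval y P := by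
    intro r
    obtain ⟨c, hc, h⟩ := clear hfix (∑ g : R ≃ₐ[O] R, C (g r) * E.map (g : R →+* R)) fun h => by
      rw [Polynomial.map_sum,
        ← Equiv.sum_comp (Equiv.mulLeft h) fun g => C (g r) * E.map (g : R →+* R)]
      refine Finset.sum_congr rfl fun g _ => ?_
      rw [Polynomial.map_mul, map_C, Polynomial.map_map]
      rfl
    obtain ⟨P, hP⟩ := (mem_lifts _).1 ((lifts_iff_coeff_lifts (f := algebraMap O R)
      (C (algebraMap O R c) * ∑ g : R ≃ₐ[O] R, C (g r) * E.map (g : R →+* R))).2 fun n => by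
        rw [coeff_C_mul]; exact h n)
    refine ⟨c, hc, P, ?_⟩
    rw [← eval_map_algebraMap, hP, eval_mul, eval_C, eval_finsetSum, Finset.sum_eq_single 1]
    · rw [eval_mul, eval_C, e1, hE, eval_prod]
      simp
    · intro g _ hg
      rw [eval_mul, e1, Finset.prod_eq_zero (i := g⁻¹) (by simpa using hg) (by simp), mul_zero]
    · simp
  have h2 : ∀ r : R, ∃ c : O, c ≠ 0 ∧ ∃ P : O[X], algebraMap O R c * r = aeval y P := by
    intro r
    obtain ⟨c, hc, P, h⟩ := h1 (r * ∏ g ∈ Finset.univ.erase (1 : R ≃ₐ[O] R), g (E.eval y))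
    refine ⟨c * b, mul_ne_zero hc hb0, C a * P, ?_⟩
    rw [map_mul, map_mul, aeval_C, ← h, ← hb, ← Finset.prod_erase_mul _ _ (Finset.mem_univ 1)]
    simp only [AlgEquiv.one_apply]
    ring
  choose c hc Q hQ using h2
  obtain ⟨s, hs⟩ := hfg
  refine ⟨b * ∏ z ∈ s, c z, mul_ne_zero hb0 (Finset.prod_ne_zero_iff.2 fun z _ => hc z),
    fun r => ?_, fun k _ φ hφ g g' h => ?_⟩
  · have hr : r ∈ Algebra.adjoin O (s : Set R) := hs ▸ Algebra.mem_top
    induction hr using Algebra.adjoin_induction with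
    | mem z hz =>
      refine ⟨1, C (b * ∏ w ∈ s.erase z, c w) * Q z, ?_⟩
      rw [← Finset.prod_erase_mul _ _ hz, map_mul (aeval y), aeval_C, ← hQ]
      simp only [map_mul]
      ring
    | algebraMap a => exact ⟨0, C a, by simp⟩
    | add u v _ _ hu hv =>
      obtain ⟨N, P, hP⟩ := hu
      obtain ⟨N', P', hP'⟩ := hv
      refine ⟨N + N', C (b * ∏ z ∈ s, c z) ^ N' * P + C (b * ∏ z ∈ s, c z) ^ N * P', ?_⟩
      rw [map_add, map_mul (aeval y), map_mul (aeval y), map_pow, map_pow, aeval_C, ← hP, ← hP']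
      ring
    | mul u v _ _ hu hv =>
      obtain ⟨N, P, hP⟩ := hu
      obtain ⟨N', P', hP'⟩ := hv
      refine ⟨N + N', P * P', ?_⟩
      rw [map_mul (aeval y), ← hP, ← hP']
      ring
  · by_contra hne
    apply hφ
    rw [map_mul, map_mul, ← hb, map_mul, map_prod φ, Finset.prod_eq_zero (Finset.mem_univ g)]
    · simp
    · rw [e2, map_prod]
      refine Finset.prod_eq_zero (i := g⁻¹ * g') ?_ ?_
      · simpa [inv_mul_eq_one] using hne
      · rw [mul_inv_cancel_left, map_sub]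
        exact sub_eq_zero.2 h

omit [IsDomain O] [IsDomain R] in
theorem hom_aeval {k : Type} [Field k] {χ : O →+* k} {φ : R →+* k}
    (h : ∀ a, φ (algebraMap O R a) = χ a) (y : R) (P : O[X]) :
    φ (aeval y P) = P.eval₂ χ (φ y) := by
  rw [aeval_def, hom_eval₂]
  congr 1
  exact RingHom.ext h

omit [IsDomain O] [IsDomain R] in
theorem hom_uniq {y : R} {D : O}
    (hD : ∀ r : R, ∃ (N : ℕ) (P : O[X]), algebraMap O R D ^ N * r = aeval y P)
    {k : Type} [Field k] {χ : O →+* k} (h0 : χ D ≠ 0) {φ φ' : R →+* k}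
    (h : ∀ a, φ (algebraMap O R a) = χ a) (h' : ∀ a, φ' (algebraMap O R a) = χ a)
    (hy : φ y = φ' y) (r : R) : φ r = φ' r := by
  obtain ⟨N, P, hP⟩ := hD r
  have h1 := congrArg φ hP
  have h2 := congrArg φ' hP
  rw [map_mul, map_pow, h, hom_aeval h] at h1
  rw [map_mul, map_pow, h', hom_aeval h', ← hy, ← h1] at h2
  exact (mul_left_cancel₀ (pow_ne_zero N h0) h2).symm

omit [IsDomain O] [IsDomain R] in
theorem hom_extend {y : R} {D : O} {H : O[X]}
    (hD : ∀ r : R, ∃ (N : ℕ) (P : O[X]), algebraMap O R D ^ N * r = aeval y P)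
    (hk : ∀ P : O[X], aeval y P = 0 → H ∣ P)
    {k : Type} [Field k] {χ : O →+* k} (h0 : χ D ≠ 0) {z : k} (hz : H.eval₂ χ z = 0) :
    ∃ φ : R →+* k, (∀ a, φ (algebraMap O R a) = χ a) ∧ φ y = z := by
  choose N P hP using hD
  have key : ∀ (r : R) (n : ℕ) (Q : O[X]), algebraMap O R D ^ n * r = aeval y Q →
      χ D ^ n * ((P r).eval₂ χ z / χ D ^ N r) = Q.eval₂ χ z := by
    intro r n Q hQ
    obtain ⟨T, hT⟩ := hk (C D ^ n * P r - C D ^ N r * Q) (by
      rw [map_sub, map_mul, map_mul, map_pow, map_pow, aeval_C, ← hP, ← hQ]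
      ring)
    have h1 := congrArg (eval₂RingHom χ z) hT
    simp only [map_sub, map_mul, map_pow, coe_eval₂RingHom, eval₂_C, hz, zero_mul] at h1
    field_simp
    linear_combination h1
  obtain ⟨u, hu⟩ : ∃ u : R → k, ∀ (r : R) (n : ℕ) (Q : O[X]),
      algebraMap O R D ^ n * r = aeval y Q → χ D ^ n * u r = Q.eval₂ χ z := ⟨_, key⟩
  have ha : ∀ a, u (algebraMap O R a) = χ a := fun a => by
    simpa using hu (algebraMap O R a) 0 (C a) (by simp)
  refine ⟨⟨⟨⟨u, by simpa using ha 1⟩, fun r s => ?_⟩, by simpa using ha 0, fun r s => ?_⟩, ha,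
    by simpa using hu y 0 X (by simp)⟩
  · have h := hu (r * s) (N r + N s) (P r * P s) (by rw [map_mul, ← hP, ← hP]; ring)
    rw [eval₂_mul, ← hu r _ _ (hP r), ← hu s _ _ (hP s)] at h
    refine mul_left_cancel₀ (pow_ne_zero (N r + N s) h0) (h.trans ?_)
    ring
  · have h := hu (r + s) (N r + N s) (C D ^ N s * P r + C D ^ N r * P s) (by
      rw [map_add, map_mul, map_mul, map_pow, map_pow, aeval_C, ← hP, ← hP]; ring)
    rw [eval₂_add, eval₂_mul, eval₂_mul, eval₂_pow, eval₂_pow, eval₂_C, ← hu r _ _ (hP r),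
      ← hu s _ _ (hP s)] at h
    refine mul_left_cancel₀ (pow_ne_zero (N r + N s) h0) (h.trans ?_)
    ring

end Pool.Agent.MP_9b2bac_nt.Z.ZCheb
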