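import Mathlib

set_option autoImplicit false

namespace Pool.Agent.MP_9b2bac_nt.Z.ZCheb

open Polynomial

theorem spec_indep {B J : Type} [CommRing B] [IsDomain B] [Fintype J] (u : J → ℕ → B)
    (hu : LinearIndependent B u) : ∃ ν : B, ν ≠ 0 ∧ ∀ (k : Type) [Field k] (ψ : B →+* k),
      ψ ν ≠ 0 → ∀ c : J → k, (∀ t, ∑ j, c j * ψ (u j t) = 0) → ∀ j, c j = 0 := by
  classical
  have hi := IsFractionRing.injective B (FractionRing B)
  have hK : LinearIndependent (FractionRing B) fun j t => algebraMap B (FractionRing B) (u j t) :=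
    (hu.map' ((Algebra.linearMap B (FractionRing B)).compLeft ℕ) (LinearMap.ker_eq_bot.2
      fun v w h => funext fun t => hi (congrFun h t))).localization _ (nonZeroDivisors B)
  have htop : Submodule.span (FractionRing B)
      (Set.range fun t j => algebraMap B (FractionRing B) (u j t)) = ⊤ := by
    by_contra h
    obtain ⟨f, hf, hle⟩ := Submodule.exists_le_ker_of_lt_top _ (lt_top_iff_ne_top.2 h)
    have h1 := Fintype.linearIndependent_iff.1 hK (fun j => f fun i => if j = i then 1 else 0)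
      (funext fun t => by
        have h2 : f _ = 0 := hle (Submodule.subset_span ⟨t, rfl⟩)
        rw [LinearMap.pi_apply_eq_sum_univ] at h2
        simpa [mul_comm] using h2)
    refine hf (LinearMap.ext fun x => ?_)
    rw [LinearMap.pi_apply_eq_sum_univ]
    simp [h1]
  have h : ∀ j₀ : J, ∃ ν : B, ν ≠ 0 ∧ ∃ w : ℕ →₀ B, ∀ j,
      ∑ t ∈ w.support, w t * u j t = if j = j₀ then ν else 0 := by
    intro j₀
    obtain ⟨ν, hν⟩ := multiple_mem_span_of_mem_localization_span (nonZeroDivisors B)
      (FractionRing B) _ (fun j => if j = j₀ then (1 : FractionRing B) else 0)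
      (htop ▸ Submodule.mem_top)
    obtain ⟨w, hw⟩ := Finsupp.mem_span_range_iff_exists_finsupp.1 hν
    refine ⟨ν, nonZeroDivisors.coe_ne_zero ν, w, fun j => hi ?_⟩
    have h2 := congrFun hw j
    simp only [Finsupp.sum, Finset.sum_apply, Pi.smul_apply, Submonoid.smul_def] at h2
    simp only [Algebra.smul_def] at h2
    simp only [map_sum, map_mul, h2]
    split_ifs <;> simp
  choose ν hν w hw using h
  refine ⟨∏ j, ν j, Finset.prod_ne_zero_iff.2 fun j _ => hν j, fun k _ ψ hψ c hc j₀ => ?_⟩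
  rw [map_prod, Finset.prod_ne_zero_iff] at hψ
  have h1 : ∑ j, c j * ψ (if j = j₀ then ν j₀ else 0) = 0 := by
    simp only [← hw, map_sum, map_mul, Finset.mul_sum]
    rw [Finset.sum_comm]
    refine Finset.sum_eq_zero fun t _ => ?_
    rw [← mul_zero (ψ (w j₀ t)), ← hc t, Finset.mul_sum]
    exact Finset.sum_congr rfl fun j _ => by ring
  simp only [apply_ite ψ, map_zero, mul_ite, mul_zero, Finset.sum_ite_eq', Finset.mem_univ,
    if_true] at h1
  exact (mul_eq_zero.1 h1).resolve_right (hψ j₀ (Finset.mem_univ _))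

theorem exists_bd {A : Type} [CommRing A] (F : A[X][X]) :
    ∃ D, F.natDegree ≤ D ∧ ∀ i, (F.coeff i).natDegree ≤ D := by
  refine ⟨max F.natDegree (F.support.sup fun i => (F.coeff i).natDegree), le_max_left _ _,
    fun i => ?_⟩
  by_cases hi : i ∈ F.support
  · exact le_max_of_le_right (Finset.le_sup (f := fun i => (F.coeff i).natDegree) hi)
  · simp [notMem_support_iff.1 hi]

theorem coeff_swap {A : Type} [CommRing A] (F : A[X][X]) (i j : ℕ) :
    ((Bivariate.swap F).coeff i).coeff j = (F.coeff j).coeff i := by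
  induction F using Polynomial.induction_on' with
  | add p q hp hq => simp [hp, hq]
  | monomial n f =>
    rw [Bivariate.swap_monomial, coeff_mul_C, coeff_map, coeff_C_mul, coeff_X_pow, coeff_monomial]
    by_cases h : n = j
    · simp [h]
    · simp [h, Ne.symm h]

theorem swap_le {A : Type} [CommRing A] (F : A[X][X]) (D : ℕ) :
    (Bivariate.swap F).natDegree ≤ D ↔ ∀ i, (F.coeff i).natDegree ≤ D := by
  simp only [natDegree_le_iff_coeff_eq_zero, ← coeff_swap F]
  exact ⟨fun h i N hN => by rw [h N hN, coeff_zero], fun h N hN => ext fun i => h i N hN⟩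

theorem factor_bd {k : Type} [Field k] {F G : k[X][X]} (h : F ∣ G) (hG : G ≠ 0) {D : ℕ}
    (hD : ∀ i, (G.coeff i).natDegree ≤ D) : ∀ i, (F.coeff i).natDegree ≤ D :=
  (swap_le F D).1 ((natDegree_le_of_dvd (map_dvd Bivariate.swap h)
    ((map_ne_zero_iff _ Bivariate.swap.injective).2 hG)).trans ((swap_le G D).2 hD))

theorem dbl_coeff {S : Type} [CommRing S] {n m : ℕ} (c : Fin n × Fin m → S) (i j : ℕ) :
    ((∑ p : Fin n × Fin m, monomial (p.2 : ℕ) (monomial (p.1 : ℕ) (c p))).coeff j).coeff i =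
      if h : i < n ∧ j < m then c (⟨i, h.1⟩, ⟨j, h.2⟩) else 0 := by
  simp only [finsetSum_coeff, coeff_monomial, apply_ite (coeff · i), coeff_zero]
  split_ifs with h
  · rw [Finset.sum_eq_single (⟨i, h.1⟩, ⟨j, h.2⟩)]
    · simp
    · rintro ⟨a, b⟩ _ hne
      split_ifs with h1 h2
      · exact absurd (Prod.ext (Fin.ext h2) (Fin.ext h1)) hne
      · rfl
      · rfl
    · simp
  · refine Finset.sum_eq_zero fun p _ => ?_
    split_ifs with h1 h2
    · exact absurd ⟨h2 ▸ p.1.2, h1 ▸ p.2.2⟩ h
    · rfl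
    · rfl

theorem irred (A B : Type) [CommRing A] [IsDomain A] [CommRing B] [IsDomain B]
    [Algebra A B] (Δ : A) (hΔ : Δ ≠ 0) [IsLocalization.Away Δ B] (y : PowerSeries B)
    (H : A[X][X]) (hm : H.Monic) (hd : 0 < H.natDegree) (h0 : aeval y H = 0)
    (hs : ∀ P : A[X][X], aeval y P = 0 → P.natDegree < H.natDegree → P = 0) :
    ∃ ν : A, ν ≠ 0 ∧ ∀ (k : Type) [Field k] (ψ : A →+* k), ψ ν ≠ 0 →
      Irreducible (H.map (mapRingHom ψ)) := by
  obtain ⟨D, -, hD⟩ := exists_bd H
  have hu : LinearIndependent A fun (p : Fin (D + 1) × Fin H.natDegree) (t : ℕ) =>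
      PowerSeries.coeff t (PowerSeries.X ^ (p.1 : ℕ) * y ^ (p.2 : ℕ)) := by
    rw [Fintype.linearIndependent_iff]
    intro c hc p
    have h1 := hs (∑ p : Fin (D + 1) × Fin H.natDegree,
      monomial (p.2 : ℕ) (monomial (p.1 : ℕ) (c p))) ?_ ?_
    · have h2 := dbl_coeff c p.1 p.2
      rw [h1, dif_pos ⟨p.1.2, p.2.2⟩] at h2
      simpa using h2.symm
    · ext t
      have h2 := congrFun hc t
      simp only [Finset.sum_apply, Algebra.smul_def, Pi.zero_apply] at h2
      simp only [map_sum, aeval_monomial, PowerSeries.algebraMap_apply', ← C_mul_X_pow_eq_monomial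
        (R := A), Polynomial.coe_C, Polynomial.coe_X, map_mul, map_pow, PowerSeries.map_C, PowerSeries.map_X, mul_assoc, PowerSeries.coeff_C_mul,
        map_zero]
      exact h2
    · refine lt_of_le_of_lt (natDegree_sum_le_of_forall_le _ _ (n := H.natDegree - 1)
        fun p _ => (natDegree_monomial_le _).trans ?_) (by omega)
      have := p.2.2
      omega
  obtain ⟨ν, hν, h⟩ := spec_indep _ (hu.localization B (Submonoid.powers Δ))
  obtain ⟨⟨ν₁, _, n, rfl⟩, hn⟩ := IsLocalization.surj (Submonoid.powers Δ) ν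
  simp only at hn
  have hu' : IsUnit (algebraMap A B (Δ ^ n)) :=
    IsLocalization.map_units B (⟨Δ ^ n, n, rfl⟩ : Submonoid.powers Δ)
  refine ⟨ν₁ * Δ, mul_ne_zero (fun e => ?_) hΔ, fun k _ ψ hψ => ?_⟩
  · rw [e, map_zero] at hn
    exact mul_ne_zero hν hu'.ne_zero hn
  rw [map_mul, mul_ne_zero_iff] at hψ
  obtain ⟨χ, hχ⟩ : ∃ χ : B →+* k, ∀ a, χ (algebraMap A B a) = ψ a :=
    ⟨IsLocalization.Away.lift Δ (g := ψ) hψ.2.isUnit, fun a => IsLocalization.Away.lift_eq _ _ a⟩
  have hχν : χ ν ≠ 0 := fun e => hψ.1 (by rw [← hχ, ← hn, map_mul, e, zero_mul])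
  have hm' := hm.map (mapRingHom ψ)
  have hd' : (H.map (mapRingHom ψ)).natDegree = H.natDegree := hm.natDegree_map _
  have key : ∀ F : k[X][X], F.Monic → F ∣ H.map (mapRingHom ψ) → F.natDegree < H.natDegree →
      F.eval₂ coeToPowerSeries.ringHom (PowerSeries.map χ y) ≠ 0 := by
    intro F hF hdvd hlt hz
    have hb := factor_bd hdvd hm'.ne_zero (D := D) fun i => by
      rw [coeff_map]
      exact natDegree_map_le.trans (hD i)
    have e : F = ∑ p : Fin (D + 1) × Fin H.natDegree,
        monomial (p.2 : ℕ) (monomial (p.1 : ℕ) ((F.coeff p.2).coeff p.1)) := by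
      ext j i
      rw [dbl_coeff fun p : Fin (D + 1) × Fin H.natDegree => (F.coeff p.2).coeff p.1]
      split_ifs with c
      · rfl
      · rcases not_and_or.1 c with c | c
        · exact coeff_eq_zero_of_natDegree_lt (by have := hb j; omega)
        · rw [coeff_eq_zero_of_natDegree_lt (p := F) (by omega), coeff_zero]
    have h1 := h k χ hχν (fun p => (F.coeff p.2).coeff p.1) fun t => by
      have h2 := congrArg (PowerSeries.coeff t) hz
      rw [e, eval₂_finsetSum] at h2
      simp only [map_sum, eval₂_monomial, coeToPowerSeries.ringHom_apply, ← C_mul_X_pow_eq_monomial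
        (R := k), Polynomial.coe_mul, Polynomial.coe_C, Polynomial.coe_pow, Polynomial.coe_X,
        mul_assoc, PowerSeries.coeff_C_mul, map_zero] at h2
      simpa only [← PowerSeries.coeff_map, map_mul, map_pow, PowerSeries.map_X] using h2
    refine hF.ne_zero (e.trans (Finset.sum_eq_zero fun p _ => ?_))
    rw [h1 p, map_zero, map_zero]
  rw [hm'.irreducible_iff_natDegree]
  refine ⟨fun e => ?_, fun F G hF hG e => ?_⟩
  · rw [e, natDegree_one] at hd'
    omega
  by_contra hc
  rw [not_or] at hc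
  have h1 := hF.natDegree_mul hG
  rw [e, hd'] at h1
  have h2 : (H.map (mapRingHom ψ)).eval₂ coeToPowerSeries.ringHom (PowerSeries.map χ y) = 0 := by
    have h3 := congrArg (PowerSeries.map χ) h0
    rw [aeval_def, hom_eval₂, map_zero] at h3
    rw [eval₂_map, ← h3]
    congr 1
    refine RingHom.ext fun a => PowerSeries.ext fun t => ?_
    simp [PowerSeries.algebraMap_apply', hχ]
  rw [← e, eval₂_mul] at h2
  rcases mul_eq_zero.1 h2 with h2 | h2
  · exact key F hF ⟨G, e.symm⟩ (by omega) h2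
  · exact key G hG ⟨F, by rw [← e, mul_comm]⟩ (by omega) h2

end Pool.Agent.MP_9b2bac_nt.Z.ZCheb
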