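import Mathlib
import Pool.Agent.MP_9b2bac_nt.ZCheb1
import Pool.Agent.MP_9b2bac_nt.ZCheb2

set_option autoImplicit false

namespace Pool.Agent.MP_9b2bac_nt.Z

open Polynomial

namespace ZCheb

theorem map_ev {A k : Type} [CommRing A] [Field k] (ψ : A →+* k) (F : A[X][X]) (x : k) :
    (F.map (mapRingHom ψ)).map (evalRingHom x) = F.map (eval₂RingHom ψ x) := by
  rw [Polynomial.map_map]
  congr 1
  exact RingHom.ext fun a => eval_map ψ x

theorem evalEval_map {A k : Type} [CommRing A] [Field k] (ψ : A →+* k) (F : A[X][X]) (x z : k) :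
    (F.map (mapRingHom ψ)).evalEval x z = F.eval₂ (eval₂RingHom ψ x) z := by
  rw [← map_evalRingHom_eval, map_ev, eval_map]

theorem fin_fix (k : Type) [Field k] {q : ℕ} (hq : 1 < q) : {x : k | x ^ q = x}.Finite := by
  refine (finite_setOfPred_isRoot (FiniteField.X_pow_card_sub_X_ne_zero k hq)).subset fun x hx => ?_
  simpa [sub_eq_zero] using hx

theorem fin_pts {k : Type} [Field k] {q : ℕ} (hq : 1 < q) {H : k[X][X]} (hm : H.Monic) :
    {P : k × k | P.1 ^ q = P.1 ∧ H.evalEval P.1 P.2 = 0}.Finite := by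
  refine ((fin_fix k hq).biUnion fun x _ => (finite_setOfPred_isRoot
    (hm.map (evalRingHom x)).ne_zero).image fun z => (x, z)).subset ?_
  rintro ⟨x, z⟩ ⟨h1, h2⟩
  exact Set.mem_biUnion h1 ⟨z, by rwa [← map_evalRingHom_eval] at h2, rfl⟩

theorem map_split {O R k : Type} [CommRing O] [CommRing R] [Algebra O R] [Field k]
    [Fintype (R ≃ₐ[O] R)] {y : R} {H : O[X]}
    (hH : H.map (algebraMap O R) = ∏ g : R ≃ₐ[O] R, (X - C (g y))) {χ : O →+* k} {φ : R →+* k}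
    (h : ∀ a, φ (algebraMap O R a) = χ a) :
    H.map χ = ∏ g : R ≃ₐ[O] R, (X - C (φ (g y))) := by
  rw [← show φ.comp (algebraMap O R) = χ from RingHom.ext h, ← Polynomial.map_map, hH]
  simp [Polynomial.map_prod]


theorem cheb_gen (Q : ℕ → ℕ → ℕ → Prop) (hQ : ∀ p₀ p f, p.Prime → Q p₀ p f → 1 < p ^ f)
    (step : ∀ m D₀ : ℕ, ∃ p₀ : ℕ, ∀ (p f : ℕ) [Fact p.Prime] (k : Type) [Field k]
      [IsAlgClosed k] [CharP k p], Q p₀ p f → ∀ (H h : k[X][X]) (D : k[X]),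
      H.Monic → H.natDegree = m → Irreducible H → (∀ i, (H.coeff i).natDegree ≤ D₀) →
      h.natDegree ≤ D₀ → (∀ i, (h.coeff i).natDegree ≤ D₀) → D.natDegree ≤ D₀ →
      {P : k × k | P.1 ^ p ^ f = P.1 ∧ H.evalEval P.1 P.2 = 0 ∧
        (H.map (evalRingHom P.1)).Separable ∧ D.eval P.1 ≠ 0 ∧
        D.eval P.1 * P.2 ^ p ^ f = h.evalEval P.1 P.2}.ncard ≤ 10 * p ^ f)
    (A B : Type) [CommRing A] [IsDomain A] [CommRing B] [IsDomain B]
    [Algebra A B] (Δ : A) (hΔ : Δ ≠ 0) [IsLocalization.Away Δ B]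
    (R : Subalgebra A[X] (PowerSeries B)) (hfg : R.FG) [Finite (R ≃ₐ[A[X]] R)]
    (hfix : ∀ r : R, (∀ g : R ≃ₐ[A[X]] R, g r = r) →
      ∃ a b : A[X], a ≠ 0 ∧ a • r = algebraMap A[X] R b)
    (ι : Type) [Finite ι] (θ : ι → R ≃+* R) (τ : ι → A ≃+* A)
    (hθX : ∀ i, θ i (algebraMap A[X] R X) = algebraMap A[X] R X)
    (hθC : ∀ i a, θ i (algebraMap A[X] R (C a)) = algebraMap A[X] R (C (τ i a))) :
    ∃ ν : A, ν ≠ 0 ∧ ∃ D₁ p₀ : ℕ, ∀ (p f : ℕ) [Fact p.Prime] (k : Type) [Field k]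
      [IsAlgClosed k] [CharP k p], Q p₀ p f → ∀ ψ : A →+* k, ψ ν ≠ 0 →
      ∀ i : ι, (∀ a, ψ a ^ p ^ f = ψ (τ i a)) →
      ∀ (Bad : Set (R ≃ₐ[A[X]] R)) (S : Set k), (∀ x ∈ S, x ^ p ^ f = x) →
      (∀ x ∈ S, ∀ φ : R →+* k, φ (algebraMap A[X] R X) = x →
        (∀ a, φ (algebraMap A[X] R (C a)) = ψ a) →
        ∀ g : R ≃ₐ[A[X]] R, (∀ r, φ r ^ p ^ f = φ (g (θ i r))) → g ∈ Bad) →
      Nat.card (R ≃ₐ[A[X]] R) * S.ncard ≤
        10 * p ^ f * Bad.ncard + Nat.card (R ≃ₐ[A[X]] R) * D₁ := by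
  classical
  have := Fintype.ofFinite (R ≃ₐ[A[X]] R)
  have hB : Function.Injective (algebraMap A B) :=
    IsLocalization.injective B (powers_le_nonZeroDivisors_of_noZeroDivisors hΔ)
  have hinj : Function.Injective (algebraMap A[X] R) := fun a b h => ext fun n => hB (by
    have h1 : algebraMap A[X] (PowerSeries B) a = algebraMap A[X] (PowerSeries B) b :=
      congrArg Subtype.val h
    simpa [PowerSeries.algebraMap_apply'] using congrArg (PowerSeries.coeff n) h1)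
  obtain ⟨y, H, hy, hm, hd, hH⟩ := exists_poly hinj hfix
  obtain ⟨D, hD0, hD, hsep⟩ := exists_den hinj (R.fg_top.2 hfg) hfix hy
  have hv : ∀ P : A[X][X], aeval (y : PowerSeries B) P = ((aeval y P : R) : PowerSeries B) :=
    fun P => aeval_algHom_apply R.val y P
  obtain ⟨ν, hν, hirr⟩ := irred A B Δ hΔ y H hm (hd ▸ Fintype.card_pos)
    (by rw [hv, root_zero hH]; rfl) fun P h1 h2 =>
      small_zero hinj hy (Subtype.ext ((hv P).symm.trans h1)) (hd ▸ h2)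
  have hD' := hD
  choose N P hP using hD'
  choose bd hbd1 hbd2 using exists_bd (A := A)
  obtain ⟨D₁, hD₁⟩ := (Set.finite_range fun t : (R ≃ₐ[A[X]] R) × ι =>
    max (bd (P (t.1 (θ t.2 y)))) (D ^ N (t.1 (θ t.2 y))).natDegree).bddAbove
  obtain ⟨p₀, hp₀⟩ := step H.natDegree (max D₁ (bd H))
  refine ⟨ν * D.leadingCoeff, mul_ne_zero hν (leadingCoeff_ne_zero.2 hD0), D.natDegree, p₀,
    fun p f _ k _ _ _ hp ψ hψ i hi Bad S hS hB => ?_⟩
  rw [map_mul, mul_ne_zero_iff] at hψ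
  have hq : 1 < p ^ f := hQ _ _ _ Fact.out hp
  obtain ⟨T, hT⟩ : ∃ T : (R ≃ₐ[A[X]] R) → Set (k × k), ∀ g, T g = {Q : k × k |
      Q.1 ^ p ^ f = Q.1 ∧ (H.map (mapRingHom ψ)).evalEval Q.1 Q.2 = 0 ∧
      ((H.map (mapRingHom ψ)).map (evalRingHom Q.1)).Separable ∧
      ((D ^ N (g (θ i y))).map ψ).eval Q.1 ≠ 0 ∧
      ((D ^ N (g (θ i y))).map ψ).eval Q.1 * Q.2 ^ p ^ f =
        ((P (g (θ i y))).map (mapRingHom ψ)).evalEval Q.1 Q.2} := ⟨_, fun _ => rfl⟩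
  have hT1 : ∀ g, (T g).ncard ≤ 10 * p ^ f := by
    intro g
    have h1 := (hD₁ ⟨(g, i), rfl⟩).trans (le_max_left D₁ (bd H))
    rw [max_le_iff] at h1
    rw [hT]
    refine hp₀ p f k hp _ _ _ (hm.map _) (hm.natDegree_map _) (hirr k ψ hψ.1) (fun j => ?_)
      (natDegree_map_le.trans ((hbd1 _).trans h1.1)) (fun j => ?_) (natDegree_map_le.trans h1.2)
    · rw [coeff_map]
      exact natDegree_map_le.trans ((hbd2 H j).trans (le_max_right _ _))
    · rw [coeff_map]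
      exact natDegree_map_le.trans ((hbd2 _ j).trans h1.1)
  have key : ∀ x ∈ S, eval₂RingHom ψ x D ≠ 0 → ∀ φ : R →+* k,
      (∀ a, φ (algebraMap A[X] R a) = eval₂RingHom ψ x a) → ∃ g ∈ Bad, (x, φ y) ∈ T g := by
    intro x hx h0 φ hφ
    have hX : φ (algebraMap A[X] R X) = x := by simp [hφ]
    have hC : ∀ a, φ (algebraMap A[X] R (C a)) = ψ a := fun a => by simp [hφ]
    obtain ⟨φ', hφ'⟩ : ∃ φ' : R →+* k, ∀ r, φ' (θ i r) = φ r ^ p ^ f :=
      ⟨(iterateFrobenius k p f).comp (φ.comp (θ i).symm), fun r => by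
        simp [iterateFrobenius_def]⟩
    have h1 : ∀ a, φ' (algebraMap A[X] R a) = eval₂RingHom ψ x a := by
      refine RingHom.congr_fun (f := φ'.comp (algebraMap A[X] R)) (ringHom_ext (fun a => ?_) ?_)
      · obtain ⟨a, rfl⟩ := (τ i).surjective a
        rw [RingHom.comp_apply, ← hθC, hφ', hC, hi]
        simp
      · rw [RingHom.comp_apply, ← hθX i, hφ', hX, hS x hx]
        simp
    have hr : ∀ χ : R →+* k, (∀ a, χ (algebraMap A[X] R a) = eval₂RingHom ψ x a) →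
        H.eval₂ (eval₂RingHom ψ x) (χ y) = 0 := fun χ hχ => by
      rw [← hom_aeval hχ, root_zero hH, map_zero]
    have h2 := hr φ' h1
    rw [← eval_map, map_split hH hφ, eval_prod, Finset.prod_eq_zero_iff] at h2
    obtain ⟨g, -, hg⟩ := h2
    rw [eval_sub, eval_X, eval_C, sub_eq_zero] at hg
    have h3 : ∀ r, φ r ^ p ^ f = φ (g (θ i r)) := fun r => by
      rw [← hφ']
      exact hom_uniq hD h0 (φ' := φ.comp (g : R →+* R)) h1 (fun a => by simp [hφ]) hg _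
    refine ⟨g, hB x hx φ hX hC g h3, ?_⟩
    have h4 : ((D ^ N (g (θ i y))).map ψ).eval x = eval₂RingHom ψ x D ^ N (g (θ i y)) := by
      rw [eval_map, ← map_pow]
      rfl
    rw [hT]
    refine ⟨hS x hx, ?_, ?_, ?_, ?_⟩
    · rw [evalEval_map]
      exact hr φ hφ
    · rw [map_ev, map_split hH hφ, separable_prod_X_sub_C_iff]
      exact hsep k φ (by rwa [hφ])
    · rw [h4]
      exact pow_ne_zero _ h0
    · rw [h4, evalEval_map, ← hom_aeval hφ, ← hP, map_mul, map_pow, hφ, h3]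
  obtain ⟨S', hS'⟩ : ∃ S' : Set k, S' = {x ∈ S | eval₂RingHom ψ x D ≠ 0} := ⟨_, rfl⟩
  have hex : ∀ x : S', ∃ φ : R →+* k, ∀ a, φ (algebraMap A[X] R a) = eval₂RingHom ψ x a := by
    rintro ⟨x, hx⟩
    rw [hS'] at hx
    obtain ⟨z, hz⟩ := IsAlgClosed.exists_root (H.map (eval₂RingHom ψ x)) (by
      rw [hm.degree_map, degree_eq_natDegree hm.ne_zero, hd]
      exact_mod_cast Fintype.card_pos.ne')
    obtain ⟨φ, hφ, -⟩ := hom_extend hD (fun Q => ker_dvd hinj hy hm hd hH) hx.2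
      (by rwa [← eval_map])
    exact ⟨φ, hφ⟩
  choose Φ hΦ using hex
  have hx : ∀ x : S', x.1 ∈ S ∧ eval₂RingHom ψ x D ≠ 0 := fun x => hS'.subset x.2
  have hF : Function.Injective fun t : (R ≃ₐ[A[X]] R) × S' => (t.2.1, Φ t.2 (t.1 y)) := by
    rintro ⟨g, x⟩ ⟨g', x'⟩ h
    simp only [Prod.mk.injEq] at h
    obtain rfl : x = x' := Subtype.ext h.1
    rw [hsep k (Φ x) (by rw [hΦ]; exact (hx x).2) h.2]
  have h1 : Nat.card (R ≃ₐ[A[X]] R) * S'.ncard ≤ 10 * p ^ f * Bad.ncard := by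
    rw [← Nat.card_coe_set_eq, ← Nat.card_prod, ← Nat.card_range_of_injective hF,
      Nat.card_coe_set_eq]
    refine (Set.ncard_le_ncard (t := ⋃ g ∈ Bad.toFinset, T g) ?_ ?_).trans
      ((Finset.set_ncard_biUnion_le _ _).trans ?_)
    · rintro _ ⟨⟨g, x⟩, rfl⟩
      obtain ⟨g', h1, h2⟩ := key x (hx x).1 (hx x).2 ((Φ x).comp (g : R →+* R))
        fun a => by simp [hΦ]
      exact Set.mem_biUnion (Set.mem_toFinset.2 h1) h2
    · refine (fin_pts hq (hm.map (mapRingHom ψ))).subset (Set.iUnion₂_subset fun g _ => ?_)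
      rw [hT]
      exact fun Q hQ => ⟨hQ.1, hQ.2.1⟩
    · refine (Finset.sum_le_card_nsmul _ _ _ fun g _ => hT1 g).trans (le_of_eq ?_)
      rw [smul_eq_mul, mul_comm, Set.ncard_eq_toFinset_card']
  have h2 : S.ncard ≤ S'.ncard + D.natDegree := by
    have h0 : D.map ψ ≠ 0 := fun e => hψ.2 (by rw [leadingCoeff, ← coeff_map, e, coeff_zero])
    refine (Set.ncard_le_ncard (t := S' ∪ (D.map ψ).roots.toFinset) (fun x hx => ?_)
      ((((fin_fix k hq).subset hS).subset fun x h => (hx ⟨x, h⟩).1).union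
        (Finset.finite_toSet _))).trans ((Set.ncard_union_le _ _).trans ?_)
    · by_cases c : eval₂RingHom ψ x D = 0
      · exact Or.inr (by simpa [h0, eval_map] using c)
      · exact Or.inl (hS' ▸ ⟨hx, c⟩)
    · rw [Set.ncard_coe_finset]
      exact Nat.add_le_add_left ((Multiset.toFinset_card_le _).trans
        ((card_roots' _).trans natDegree_map_le)) _
  calc _ ≤ Nat.card (R ≃ₐ[A[X]] R) * (S'.ncard + D.natDegree) := Nat.mul_le_mul_left _ h2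
    _ ≤ _ := by
      rw [mul_add]
      exact Nat.add_le_add_right h1 _

end ZCheb


/-- The count in any characteristic of `A`, for `q₀ ≤ p ^ f`, from the same form of the point bound. -/
theorem chebq_of
    (step : ∀ m D₀ : ℕ, ∃ q₀ : ℕ, ∀ (p f : ℕ) [Fact p.Prime] (k : Type) [Field k]
      [IsAlgClosed k] [CharP k p], q₀ ≤ p ^ f → ∀ (H h : k[X][X]) (D : k[X]),
      H.Monic → H.natDegree = m → Irreducible H → (∀ i, (H.coeff i).natDegree ≤ D₀) →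
      h.natDegree ≤ D₀ → (∀ i, (h.coeff i).natDegree ≤ D₀) → D.natDegree ≤ D₀ →
      {P : k × k | P.1 ^ p ^ f = P.1 ∧ H.evalEval P.1 P.2 = 0 ∧
        (H.map (evalRingHom P.1)).Separable ∧ D.eval P.1 ≠ 0 ∧
        D.eval P.1 * P.2 ^ p ^ f = h.evalEval P.1 P.2}.ncard ≤ 10 * p ^ f)
    (A B : Type) [CommRing A] [IsDomain A] [CommRing B] [IsDomain B]
    [Algebra A B] (Δ : A) (hΔ : Δ ≠ 0) [IsLocalization.Away Δ B]
    (R : Subalgebra A[X] (PowerSeries B)) (hfg : R.FG) [Finite (R ≃ₐ[A[X]] R)]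
    (hfix : ∀ r : R, (∀ g : R ≃ₐ[A[X]] R, g r = r) →
      ∃ a b : A[X], a ≠ 0 ∧ a • r = algebraMap A[X] R b)
    (ι : Type) [Finite ι] (θ : ι → R ≃+* R) (τ : ι → A ≃+* A)
    (hθX : ∀ i, θ i (algebraMap A[X] R X) = algebraMap A[X] R X)
    (hθC : ∀ i a, θ i (algebraMap A[X] R (C a)) = algebraMap A[X] R (C (τ i a))) :
    ∃ ν : A, ν ≠ 0 ∧ ∃ D₁ q₀ : ℕ, ∀ (p f : ℕ) [Fact p.Prime] (k : Type) [Field k]
      [IsAlgClosed k] [CharP k p], q₀ ≤ p ^ f → ∀ ψ : A →+* k, ψ ν ≠ 0 →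
      ∀ i : ι, (∀ a, ψ a ^ p ^ f = ψ (τ i a)) →
      ∀ (Bad : Set (R ≃ₐ[A[X]] R)) (S : Set k), (∀ x ∈ S, x ^ p ^ f = x) →
      (∀ x ∈ S, ∀ φ : R →+* k, φ (algebraMap A[X] R X) = x →
        (∀ a, φ (algebraMap A[X] R (C a)) = ψ a) →
        ∀ g : R ≃ₐ[A[X]] R, (∀ r, φ r ^ p ^ f = φ (g (θ i r))) → g ∈ Bad) →
      Nat.card (R ≃ₐ[A[X]] R) * S.ncard ≤
        10 * p ^ f * Bad.ncard + Nat.card (R ≃ₐ[A[X]] R) * D₁ := by
  obtain ⟨ν, hν, D₁, q₀, h⟩ := ZCheb.cheb_gen (fun q₀ p f => max q₀ 2 ≤ p ^ f)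
    (fun _ _ _ _ h => (le_max_right _ _).trans h) (fun m D₀ => by
      obtain ⟨q₀, h⟩ := step m D₀
      exact ⟨q₀, fun p f _ k _ _ _ hq => h p f k ((le_max_left _ _).trans hq)⟩)
    A B Δ hΔ R hfg hfix ι θ τ hθX hθC
  exact ⟨ν, hν, D₁, max q₀ 2, h⟩

end Pool.Agent.MP_9b2bac_nt.Z
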