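import Mathlib

/- Weighted degree bounds and the zero count for the auxiliary function argument. -/

set_option autoImplicit false

namespace Pool.Agent.MP_9b2bac_nt.Z.ZStep

open Polynomial

variable {k : Type} [Field k]

/-- Weighted degree at most `N`, inner variable of weight one, outer variable of weight `c`. -/
def WB (c N : ℕ) (g : k[X][X]) : Prop := ∀ i j, (g.coeff i).coeff j ≠ 0 → j + c * i ≤ N

variable {c : ℕ}

theorem WB.mono {N N' : ℕ} {g : k[X][X]} (h : WB c N g) (hN : N ≤ N') : WB c N' g :=
  fun i j hij => (h i j hij).trans hN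

theorem WB.zero (N : ℕ) : WB c N (0 : k[X][X]) := fun i j h => by simp at h

theorem WB.add {N : ℕ} {g g' : k[X][X]} (h : WB c N g) (h' : WB c N g') : WB c N (g + g') :=
  fun i j hij => by
    by_cases h0 : (g.coeff i).coeff j = 0
    · exact h' i j (by simpa [h0] using hij)
    · exact h i j h0

theorem WB.neg {N : ℕ} {g : k[X][X]} (h : WB c N g) : WB c N (-g) :=
  fun i j hij => h i j (by simpa using hij)

theorem WB.sub {N : ℕ} {g g' : k[X][X]} (h : WB c N g) (h' : WB c N g') : WB c N (g - g') := by
  rw [sub_eq_add_neg]; exact h.add h'.neg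

theorem WB.sum {ι : Type} {N : ℕ} (s : Finset ι) (f : ι → k[X][X]) (h : ∀ i ∈ s, WB c N (f i)) :
    WB c N (∑ i ∈ s, f i) :=
  Finset.sum_induction f (WB c N) (fun _ _ => WB.add) (WB.zero N) h

theorem WB.mul {N N' : ℕ} {g g' : k[X][X]} (h : WB c N g) (h' : WB c N' g') :
    WB c (N + N') (g * g') := fun i j hij => by
  rw [coeff_mul, finsetSum_coeff] at hij
  obtain ⟨x, hx, h1⟩ := Finset.exists_ne_zero_of_sum_ne_zero hij
  rw [coeff_mul] at h1
  obtain ⟨y, hy, h2⟩ := Finset.exists_ne_zero_of_sum_ne_zero h1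
  have h3 := h _ _ (left_ne_zero_of_mul h2)
  have h4 := h' _ _ (right_ne_zero_of_mul h2)
  rw [Finset.HasAntidiagonal.mem_antidiagonal] at hx hy
  rw [← hx, ← hy, mul_add]
  omega

theorem WB.C {N : ℕ} {f : k[X]} (h : f.natDegree ≤ N) : WB c N (C f) := fun i j hij => by
  rw [coeff_C] at hij
  split_ifs at hij with hi
  · subst hi; simpa using (le_natDegree_of_ne_zero hij).trans h
  · simp at hij

theorem WB.one : WB c 0 (1 : k[X][X]) := WB.C (f := 1) (by simp)

theorem WB.pow {N : ℕ} {g : k[X][X]} (h : WB c N g) (e : ℕ) : WB c (e * N) (g ^ e) := by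
  induction e with
  | zero => simpa using WB.one
  | succ e ih => rw [pow_succ, Nat.succ_mul]; exact ih.mul h

theorem WB.of_le {a b : ℕ} {g : k[X][X]} (hb : g.natDegree ≤ b)
    (ha : ∀ i, (g.coeff i).natDegree ≤ a) : WB c (a + c * b) g := fun i j hij => by
  have h1 : g.coeff i ≠ 0 := fun h => by simp [h] at hij
  exact add_le_add ((le_natDegree_of_ne_zero hij).trans (ha i))
    (Nat.mul_le_mul_left c ((le_natDegree_of_ne_zero h1).trans hb))

theorem WB.X : WB c c (X : k[X][X]) := by
  simpa using WB.of_le (c := c) (a := 0) (b := 1) (g := (Polynomial.X : k[X][X])) natDegree_X_le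
    fun i => by rw [coeff_X]; split_ifs <;> simp

theorem WB.deg {N : ℕ} {g : k[X][X]} (h : WB c N g) (i : ℕ) : (g.coeff i).natDegree ≤ N :=
  natDegree_le_iff_coeff_eq_zero.2 fun j hj => by
    by_contra h0
    have := h i j h0
    omega

theorem WB.derivative {N : ℕ} {g : k[X][X]} (h : WB c N g) : WB c N (derivative g) :=
  fun i j hij => by
    rw [coeff_derivative, show ((i : k[X]) + 1) = Polynomial.C ((i : k) + 1) by simp,
      coeff_mul_C] at hij
    have := h _ _ (left_ne_zero_of_mul hij)
    rw [mul_add] at this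
    omega

theorem WB.of_monic {H : k[X][X]} (hm : H.Monic) (hc : ∀ i, (H.coeff i).natDegree ≤ c) :
    WB c (c * H.natDegree) H := fun i j hij => by
  have h1 : H.coeff i ≠ 0 := fun h => by simp [h] at hij
  rcases (le_natDegree_of_ne_zero h1).lt_or_eq with h2 | rfl
  · have h3 := (le_natDegree_of_ne_zero hij).trans (hc i)
    have := Nat.mul_le_mul_left c (Nat.succ_le_of_lt h2)
    rw [Nat.mul_succ] at this
    omega
  · rw [hm.coeff_natDegree] at hij
    have := le_natDegree_of_ne_zero hij
    simp at this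
    omega

theorem WB.mod {H : k[X][X]} (hm : H.Monic) (hH : WB c (c * H.natDegree) H) {N : ℕ} :
    ∀ (e : ℕ) (g : k[X][X]), g.natDegree = e → WB c N g → WB c N (g %ₘ H) := by
  intro e
  induction e using Nat.strong_induction_on with
  | _ e ih =>
  intro g he hg
  by_cases hd : g.degree < H.degree
  · rwa [(modByMonic_eq_self_iff hm).2 hd]
  have hg0 : g ≠ 0 := by
    rintro rfl
    exact hd (by simpa [bot_lt_iff_ne_bot] using hm.ne_zero)
  have hle : H.natDegree ≤ g.natDegree := natDegree_le_natDegree (not_lt.1 hd)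
  set z : k[X][X] := Polynomial.C g.leadingCoeff * Polynomial.X ^ (g.natDegree - H.natDegree)
    with hz
  have hlt : (g - H * z).degree < g.degree := div_wf_lemma ⟨not_lt.1 hd, hg0⟩ hm
  have hmod : g %ₘ H = (g - H * z) %ₘ H := by
    rw [sub_modByMonic, self_mul_modByMonic hm, sub_zero]
  obtain ⟨j0, hj0⟩ : ∃ j0, g.leadingCoeff.coeff j0 ≠ 0 :=
    ⟨_, leadingCoeff_ne_zero.2 (leadingCoeff_ne_zero.2 hg0)⟩
  have h0 := hg _ _ hj0
  have h1 := Nat.mul_le_mul_left c hle
  have hw : WB c (N - c * H.natDegree) z := fun i j hij => by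
    rw [hz, coeff_C_mul_X_pow] at hij
    split_ifs at hij with hi
    · have := hg _ _ hij
      rw [hi, Nat.mul_sub]
      omega
    · simp at hij
  have hw' : WB c N (g - H * z) := hg.sub ((hH.mul hw).mono (by omega))
  rw [hmod]
  by_cases h2 : g - H * z = 0
  · rw [h2, zero_modByMonic]; exact WB.zero N
  · exact ih _ (he ▸ natDegree_lt_natDegree h2 hlt) _ rfl hw'

/-- All coefficients of a power series have weighted degree at most `N`. -/
def GB (c N : ℕ) (G : PowerSeries k[X][X]) : Prop := ∀ r, WB c N (PowerSeries.coeff r G)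

theorem GB.mono {N N' : ℕ} {G : PowerSeries k[X][X]} (h : GB c N G) (hN : N ≤ N') : GB c N' G :=
  fun r => (h r).mono hN

theorem GB.add {N : ℕ} {G G' : PowerSeries k[X][X]} (h : GB c N G) (h' : GB c N G') :
    GB c N (G + G') := fun r => by rw [map_add]; exact (h r).add (h' r)

theorem GB.sub {N : ℕ} {G G' : PowerSeries k[X][X]} (h : GB c N G) (h' : GB c N G') :
    GB c N (G - G') := fun r => by rw [map_sub]; exact (h r).sub (h' r)

theorem GB.sum {ι : Type} {N : ℕ} (s : Finset ι) (f : ι → PowerSeries k[X][X])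
    (h : ∀ i ∈ s, GB c N (f i)) : GB c N (∑ i ∈ s, f i) :=
  Finset.sum_induction f (GB c N) (fun _ _ => GB.add) (fun r => by simpa using WB.zero N) h

theorem GB.mul {N N' : ℕ} {G G' : PowerSeries k[X][X]} (h : GB c N G) (h' : GB c N' G') :
    GB c (N + N') (G * G') := fun r => by
  rw [PowerSeries.coeff_mul]
  exact WB.sum _ _ fun x _ => (h _).mul (h' _)

theorem GB.C {N : ℕ} {g : k[X][X]} (h : WB c N g) : GB c N (PowerSeries.C g) := fun r => by
  rw [PowerSeries.coeff_C]
  split_ifs
  exacts [h, WB.zero N]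

theorem GB.pow {N : ℕ} {G : PowerSeries k[X][X]} (h : GB c N G) (e : ℕ) :
    GB c (e * N) (G ^ e) := by
  induction e with
  | zero => simpa using GB.C (WB.one (k := k) (c := c))
  | succ e ih => rw [pow_succ, Nat.succ_mul]; exact ih.mul h

theorem GB.X : GB c 0 (PowerSeries.X : PowerSeries k[X][X]) := fun r => by
  rw [PowerSeries.coeff_X]
  split_ifs
  exacts [WB.one, WB.zero 0]

/-- Expansion of polynomials at `x`. -/
noncomputable def tau (x : k) : k[X] →+* PowerSeries k :=
  eval₂RingHom PowerSeries.C (PowerSeries.C x + PowerSeries.X)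

/-- Expansion of polynomials at the generic point. -/
noncomputable def tauG : k[X] →+* PowerSeries k[X][X] :=
  eval₂RingHom (PowerSeries.C.comp (Polynomial.C.comp Polynomial.C))
    (PowerSeries.C (Polynomial.C X) + PowerSeries.X)

theorem map_tauG (x y : k) (f : k[X]) :
    PowerSeries.map (evalEvalRingHom x y) (tauG f) = tau x f := by
  have : (PowerSeries.map (evalEvalRingHom x y)).comp tauG = tau x :=
    Polynomial.ringHom_ext (fun a => by simp [tauG, tau]) (by simp [tauG, tau])
  exact RingHom.congr_fun this f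

theorem GB.tauG {N : ℕ} {f : k[X]} (h : f.natDegree ≤ N) : GB c N (tauG f) := by
  rw [Z.ZStep.tauG, coe_eval₂RingHom, eval₂_eq_sum_range]
  refine GB.sum _ _ fun i hi => ?_
  have h1 : GB c 1 (PowerSeries.C (Polynomial.C (Polynomial.X : k[X])) + PowerSeries.X) :=
    (GB.C (WB.C natDegree_X_le)).add (GB.X.mono zero_le_one)
  have := (GB.C (WB.C (c := c) (f := Polynomial.C (f.coeff i)) (N := 0) (by simp))).mul (h1.pow i)
  exact this.mono (by have := Finset.mem_range.1 hi; omega)

theorem const_tau (x : k) (f : k[X]) : PowerSeries.constantCoeff (tau x f) = f.eval x := by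
  have : PowerSeries.constantCoeff.comp (tau x) = evalRingHom x :=
    Polynomial.ringHom_ext (fun a => by simp [tau]) (by simp [tau])
  exact RingHom.congr_fun this f

theorem dvd_of_tau (x : k) (f : k[X]) (e : ℕ) (h : PowerSeries.X ^ e ∣ tau x f) :
    (X - C x) ^ e ∣ f := by
  have h1 : tau x = coeToPowerSeries.ringHom.comp (compRingHom (C x + X)) :=
    Polynomial.ringHom_ext (fun a => by simp [tau]) (by simp [tau])
  have h2 : X ^ e ∣ f.comp (C x + X) := by
    rw [X_pow_dvd_iff]
    intro d hd
    have := PowerSeries.X_pow_dvd_iff.1 h d hd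
    simpa [h1] using this
  have h3 := map_dvd (compRingHom (X - C x)) h2
  simpa [comp_assoc] using h3

/-- Expansion along the branch `η` above `x`. -/
noncomputable def br (x : k) (η : PowerSeries k) : k[X][X] →+* PowerSeries k :=
  eval₂RingHom (tau x) η

theorem br_eq (x : k) (η : PowerSeries k) (g : k[X][X]) : br x η g = (g.map (tau x)).eval η := by
  simp [br, eval_map]

theorem const_br (x : k) (η : PowerSeries k) (g : k[X][X]) :
    PowerSeries.constantCoeff (br x η g) = g.evalEval x (PowerSeries.constantCoeff η) := by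
  have : PowerSeries.constantCoeff.comp (br x η) =
      evalEvalRingHom x (PowerSeries.constantCoeff η) :=
    Polynomial.ringHom_ext (fun a => by simp [br, const_tau]) (by simp [br])
  exact RingHom.congr_fun this g

theorem natDegree_det_le {n : Type} [Fintype n] [DecidableEq n] (A : Matrix n n k[X]) (d : n → ℕ)
    (h : ∀ i j, (A i j).natDegree ≤ d j) : A.det.natDegree ≤ ∑ j, d j := by
  rw [Matrix.det_apply']
  refine natDegree_sum_le_of_forall_le _ _ fun σ _ => natDegree_mul_le.trans ?_
  rw [natDegree_intCast, zero_add]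
  exact (natDegree_prod_le _ _).trans (Finset.sum_le_sum fun j _ => h _ _)

theorem zero_count {H : k[X][X]} (hm : H.Monic) (hi : Irreducible H)
    (hc : ∀ i, (H.coeff i).natDegree ≤ c) {N : ℕ} {f : k[X][X]} (hf : WB c N f) (hn : ¬ H ∣ f)
    (Z : Finset (k × k)) (η : k × k → PowerSeries k) (M : ℕ)
    (h0 : ∀ P ∈ Z, PowerSeries.constantCoeff (η P) = P.2) (h1 : ∀ P ∈ Z, br P.1 (η P) H = 0)
    (h2 : ∀ P ∈ Z, PowerSeries.X ^ M ∣ br P.1 (η P) f) : Z.card * M ≤ H.natDegree * (N + c) := by
  classical
  set n := H.natDegree with hn'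
  set g := f %ₘ H with hg
  have hgw : WB c N g := WB.mod hm (WB.of_monic hm hc) _ f rfl hf
  have hg0 : g ≠ 0 := fun h => hn ((modByMonic_eq_zero_iff_dvd hm).1 h)
  have hgd : g.degree < H.degree := degree_modByMonic_lt f hm
  have hgn : g.natDegree ≤ n := (natDegree_lt_natDegree hg0 hgd).le
  set R := resultant H g n n with hR
  have hRd : R.natDegree ≤ n * (N + c) := by
    refine (natDegree_det_le _ (fun j => j.addCases (fun _ => N) fun _ => c) ?_).trans ?_
    · intro i j
      refine j.addCases (fun j => ?_) fun j => ?_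
      · simp only [sylvester, Matrix.of_apply, Fin.addCases_left]
        split_ifs
        exacts [hgw.deg _, by simp]
      · simp only [sylvester, Matrix.of_apply, Fin.addCases_right]
        split_ifs
        exacts [hc _, by simp]
    · rw [Fin.sum_univ_add]
      simp only [Fin.addCases_left, Fin.addCases_right]
      simp [mul_add]
  have hR0 : R ≠ 0 := by
    let K := FractionRing k[X]
    have hinj := IsFractionRing.injective k[X] K
    have hi' := (hm.irreducible_iff_irreducible_map_fraction_map (K := K)).1 hi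
    have hco : IsCoprime (H.map (algebraMap k[X] K)) (g.map (algebraMap k[X] K)) := by
      rw [hi'.coprime_iff_not_dvd]
      intro h
      have := degree_le_of_dvd h ((Polynomial.map_ne_zero_iff hinj).2 hg0)
      rw [degree_map_eq_of_injective hinj, degree_map_eq_of_injective hinj] at this
      exact absurd hgd (not_lt.2 this)
    have := resultant_ne_zero _ _ hco
    rw [natDegree_map_eq_of_injective hinj, natDegree_map_eq_of_injective hinj,
      resultant_map_map] at this
    obtain ⟨a, ha⟩ := Nat.exists_eq_add_of_le hgn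
    intro h
    apply this
    rw [hR] at h
    conv_lhs at h => rw [ha]
    rw [← ha] at h
    have h3 := resultant_add_right_deg H g n g.natDegree a le_rfl
    rw [← ha, h, hm.coeff_natDegree, one_pow, one_mul] at h3
    rw [← h3, map_zero]
  have hdiv : ∀ x : k, (X - C x) ^ ((Z.filter fun P => P.1 = x).card * M) ∣ R := by
    intro x
    apply dvd_of_tau
    set Zx := Z.filter fun P => P.1 = x with hZx
    have hm' := hm.map (tau x)
    have hinj : Set.InjOn η Zx := fun P hP Q hQ h => by
      rw [Finset.mem_coe, hZx, Finset.mem_filter] at hP hQ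
      exact Prod.ext (hP.2.trans hQ.2.symm) (by rw [← h0 P hP.1, ← h0 Q hQ.1, h])
    have hd : ∏ P ∈ Zx, (X - C (η P)) ∣ H.map (tau x) := by
      rw [← Finset.prod_image (f := fun a => X - C a) hinj]
      refine (Multiset.prod_X_sub_C_dvd_iff_le_roots hm'.ne_zero _).2 ?_
      refine (Multiset.le_iff_subset (Finset.nodup _)).2 fun a ha => ?_
      obtain ⟨P, hP, rfl⟩ := Finset.mem_image.1 ha
      rw [hZx, Finset.mem_filter] at hP
      rw [mem_roots hm'.ne_zero, IsRoot.def, ← hP.2, ← br_eq, h1 P hP.1]
    obtain ⟨H2, hH2⟩ := hd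
    have hmp : (∏ P ∈ Zx, (X - C (η P))).Monic := monic_prod_of_monic _ _ fun _ _ => monic_X_sub_C _
    have hgn' : (g.map (tau x)).natDegree ≤ n := natDegree_map_le.trans hgn
    have hdeg : n = (∏ P ∈ Zx, (X - C (η P))).natDegree + H2.natDegree := by
      rw [← hmp.natDegree_mul' (by rintro rfl; exact hm'.ne_zero (by simpa using hH2)), ← hH2,
        hm.natDegree_map]
    rw [hR, ← resultant_map_map, hH2]
    conv => enter [2, 3]; rw [hdeg]
    rw [resultant_mul_left _ _ _ _ hgn', resultant_prod_left _ _ _ _ (by simp) hgn']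
    refine Dvd.dvd.mul_right ?_ _
    rw [mul_comm, pow_mul, ← Finset.prod_const]
    refine Finset.prod_dvd_prod_of_dvd _ _ fun P hP => ?_
    rw [hZx, Finset.mem_filter] at hP
    rw [natDegree_X_sub_C, resultant_X_sub_C_left _ _ _ hgn', ← hP.2, ← br_eq]
    have := h2 P hP.1
    rwa [← modByMonic_add_div f H, map_add, map_mul, h1 P hP.1, zero_mul, add_zero] at this
  have hle : (Z.val.map Prod.fst).bind (Multiset.replicate M) ≤ R.roots := by
    rw [Multiset.le_iff_count]
    intro x
    rw [count_roots]
    refine le_trans (le_of_eq ?_) ((le_rootMultiplicity_iff hR0).2 (hdiv x))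
    rw [Multiset.count_bind, Multiset.map_map, Finset.card_filter, Finset.sum_mul]
    refine Finset.sum_congr rfl fun P _ => ?_
    simp [Multiset.count_replicate]
  have := (Multiset.card_le_card hle).trans ((card_roots' R).trans hRd)
  simpa using this

end Pool.Agent.MP_9b2bac_nt.Z.ZStep
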