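import Mathlib
import Pool.Agent.MP_9b2bac_nt.ZStep1

set_option autoImplicit false

namespace Pool.Agent.MP_9b2bac_nt.Z

open Polynomial

namespace ZStep

theorem newton (n c M : ℕ) : ∃ N B : ℕ, ∀ (k : Type) [Field k] (H : k[X][X]), H.Monic →
    H.natDegree = n + 1 → (∀ i, (H.coeff i).natDegree ≤ c) →
    ∃ ξ : PowerSeries k[X][X], GB c B ξ ∧ ∀ (x y : k) (η : PowerSeries k),
      PowerSeries.constantCoeff η = y → br x η H = 0 → (derivative H).evalEval x y ≠ 0 →
      PowerSeries.X ^ (M + 1) ∣ PowerSeries.map (evalEvalRingHom x y) ξ -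
        PowerSeries.C ((derivative H).evalEval x y) ^ N * η := by
  induction M with
  | zero =>
    refine ⟨0, c, fun k _ H _ _ _ => ⟨PowerSeries.C X, GB.C WB.X, fun x y η h0 _ _ => ?_⟩⟩
    rw [zero_add, pow_one, PowerSeries.X_dvd_iff]
    simp [h0]
  | succ M ih =>
    obtain ⟨N, B, ih⟩ := ih
    refine ⟨(n + 1) * N + 1, (n * N + 1) * (c * (n + 1)) + B +
      (c + (n + 1) * B + (n + 1) * (N * (c * (n + 1)))), fun k _ H hm hn hc => ?_⟩
    obtain ⟨ξ, hξ, h⟩ := ih k H hm hn hc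
    have hδ : GB c (c * (n + 1)) (PowerSeries.C (derivative H)) :=
      GB.C (hn ▸ (WB.of_monic hm hc).derivative)
    refine ⟨PowerSeries.C (derivative H) ^ (n * N + 1) * ξ - ∑ i ∈ Finset.range (n + 2),
      tauG (H.coeff i) * ξ ^ i * (PowerSeries.C (derivative H) ^ N) ^ (n + 1 - i), ?_, ?_⟩
    · refine (((hδ.pow _).mul hξ).mono (by omega)).sub (GB.sum _ _ fun i hi => ?_)
      refine (((GB.tauG (hc i)).mul (hξ.pow i)).mul ((hδ.pow N).pow _)).mono ?_
      have h1 : i * B ≤ (n + 1) * B :=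
        Nat.mul_le_mul_right _ (by have := Finset.mem_range.1 hi; omega)
      have h2 : (n + 1 - i) * (N * (c * (n + 1))) ≤ (n + 1) * (N * (c * (n + 1))) :=
        Nat.mul_le_mul_right _ (by omega)
      omega
    intro x y η h0 h1 h2
    obtain ⟨b, hb⟩ := h x y η h0 h1 h2
    have h3 : PowerSeries.X ∣ br x η (derivative H) -
        PowerSeries.C ((derivative H).evalEval x y) := by
      rw [PowerSeries.X_dvd_iff, map_sub, const_br, h0]; simp
    obtain ⟨e, he⟩ := h3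
    simp only [map_sub, map_mul, map_pow, map_sum, map_tauG, PowerSeries.map_C,
      coe_evalEvalRingHom]
    generalize (derivative H).evalEval x y = d at h2 hb he
    set u := PowerSeries.X ^ (M + 1) * (PowerSeries.C d⁻¹ ^ N * b) with hu
    have hd : (PowerSeries.C d ^ N * PowerSeries.C d⁻¹ ^ N : PowerSeries k) = 1 := by
      rw [← mul_pow, ← map_mul, mul_inv_cancel₀ h2, map_one, one_pow]
    have h4 : PowerSeries.map (evalEvalRingHom x y) ξ = PowerSeries.C d ^ N * (η + u) := by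
      rw [hu]; linear_combination hb - PowerSeries.X ^ (M + 1) * b * hd
    obtain ⟨κ, hκ⟩ := binomExpansion (H.map (tau x)) η u
    rw [derivative_map, ← br_eq x η H, ← br_eq x η (derivative H), h1, ← br_eq] at hκ
    have h5 : ∑ i ∈ Finset.range (n + 2), tau x (H.coeff i) *
        (PowerSeries.C d ^ N * (η + u)) ^ i * (PowerSeries.C d ^ N) ^ (n + 1 - i) =
        (PowerSeries.C d ^ N) ^ (n + 1) * br x (η + u) H := by
      rw [br, coe_eval₂RingHom, eval₂_eq_sum_range, hn, Finset.mul_sum]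
      refine Finset.sum_congr rfl fun i hi => ?_
      obtain ⟨j, hj⟩ : ∃ j, n + 1 = i + j := ⟨n + 1 - i, by have := Finset.mem_range.1 hi; omega⟩
      rw [hj, Nat.add_sub_cancel_left, mul_pow]; ring
    rw [h4, h5, hκ, sub_eq_iff_eq_add.1 he]
    refine ⟨-(PowerSeries.C d ^ N) ^ (n + 1) * (PowerSeries.C d⁻¹ ^ N * b) *
      (e + κ * PowerSeries.X ^ M * (PowerSeries.C d⁻¹ ^ N * b)), ?_⟩
    rw [hu]; ring

variable {k : Type} [Field k]

theorem exists_br {H : k[X][X]} (hm : H.Monic) {x y : k} (h0 : H.evalEval x y = 0)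
    (h1 : (derivative H).evalEval x y ≠ 0) :
    ∃ η : PowerSeries k, PowerSeries.constantCoeff η = y ∧ br x η H = 0 := by
  obtain ⟨η, h2, h3⟩ := HenselianRing.is_henselian
    (I := Ideal.span {(PowerSeries.X : PowerSeries k)}) (H.map (tau x)) (hm.map _)
    (PowerSeries.C y) (by
      rw [Ideal.mem_span_singleton, PowerSeries.X_dvd_iff, ← br_eq, const_br]; simpa using h0) (by
      refine IsUnit.map _ ?_
      rw [PowerSeries.isUnit_iff_constantCoeff, derivative_map, ← br_eq, const_br]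
      simpa using h1)
  rw [Ideal.mem_span_singleton, PowerSeries.X_dvd_iff] at h3
  exact ⟨η, by simpa [sub_eq_zero] using h3, by rw [br_eq]; exact h2⟩

theorem frob_ps {p : ℕ} [Fact p.Prime] [CharP k p] (f : ℕ) (g : PowerSeries k) :
    PowerSeries.X ^ p ^ f ∣ g ^ p ^ f - PowerSeries.C (PowerSeries.constantCoeff g ^ p ^ f) := by
  haveI : CharP (PowerSeries k) p := charP_of_injective_ringHom PowerSeries.C_injective p
  obtain ⟨g', hg'⟩ : PowerSeries.X ∣ g - PowerSeries.C (PowerSeries.constantCoeff g) := by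
    rw [PowerSeries.X_dvd_iff]; simp
  rw [map_pow, ← sub_pow_char_pow, hg', mul_pow]
  exact Dvd.intro _ rfl

theorem indep [IsAlgClosed k] {p : ℕ} [Fact p.Prime] [CharP k p] (f : ℕ) {σ σ' : Type}
    [Fintype σ] [Fintype σ'] (U : σ → PowerSeries k) (W : σ' → PowerSeries k)
    (hu : ∀ a : σ → k, PowerSeries.X ^ p ^ f ∣ ∑ s, PowerSeries.C (a s) * U s → a = 0)
    (hw : ∀ b : σ' → k, ∑ s, PowerSeries.C (b s) * W s = 0 → b = 0) (e : σ × σ' → k)
    (h : ∑ z, PowerSeries.C (e z) * (U z.1 * W z.2 ^ p ^ f) = 0) : e = 0 := by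
  haveI : CharP (PowerSeries k) p := charP_of_injective_ringHom PowerSeries.C_injective p
  have hq : 0 < p ^ f := pow_pos (Fact.out : p.Prime).pos f
  choose ε hε using fun z => IsAlgClosed.exists_pow_nat_eq (e z) hq
  set g : σ → PowerSeries k := fun s => ∑ s', PowerSeries.C (ε (s, s')) * W s' with hg
  have h1 : ∑ s, U s * g s ^ p ^ f = 0 := by
    rw [← h, Fintype.sum_prod_type]
    refine Finset.sum_congr rfl fun s _ => ?_
    rw [hg, sum_pow_char_pow, Finset.mul_sum]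
    refine Finset.sum_congr rfl fun s' _ => ?_
    rw [mul_pow, ← map_pow, hε]; ring
  have h2 : ∀ K : ℕ, ∀ s, PowerSeries.X ^ K ∣ g s := by
    intro K
    induction K with
    | zero => simp
    | succ K ih =>
      choose g' hg' using ih
      have h3 : ∑ s, U s * g' s ^ p ^ f = 0 := by
        refine mul_left_cancel₀ (a := (PowerSeries.X ^ K) ^ p ^ f)
          (by simp [PowerSeries.X_ne_zero]) ?_
        rw [mul_zero, ← h1, Finset.mul_sum]
        exact Finset.sum_congr rfl fun s _ => by rw [hg' s]; ring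
      have h4 := hu (fun s => PowerSeries.constantCoeff (g' s) ^ p ^ f) (by
        have : ∑ s, PowerSeries.C (PowerSeries.constantCoeff (g' s) ^ p ^ f) * U s =
            -∑ s, U s * (g' s ^ p ^ f -
              PowerSeries.C (PowerSeries.constantCoeff (g' s) ^ p ^ f)) := by
          simp only [mul_sub, Finset.sum_sub_distrib, h3, zero_sub, neg_neg, mul_comm]
        rw [this]
        exact (Finset.dvd_sum fun s _ => (frob_ps f _).mul_left _).neg_right)
      intro s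
      rw [hg' s, pow_succ]
      exact mul_dvd_mul_left _ (PowerSeries.X_dvd_iff.2 (pow_eq_zero_iff hq.ne' |>.1
        (congrFun h4 s)))
  funext z
  have h5 : g z.1 = 0 := PowerSeries.ext fun r =>
    PowerSeries.X_pow_dvd_iff.1 (h2 (r + 1) z.1) r (Nat.lt_succ_self r)
  have h6 : ε z = 0 := congrFun (hw _ h5) z.2
  rw [← hε, h6, zero_pow hq.ne']; rfl

/-- The monomials. -/
noncomputable def mon (k : Type) [Field k] (i a : ℕ) : k[X][X] := C (X ^ i) * X ^ a

theorem wb_mon (c : ℕ) {l n : ℕ} (s : Fin l × Fin n) : WB c (l + c * n) (mon k s.1 s.2) :=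
  ((WB.C (N := l) (by simp)).mul (WB.X.pow _)).mono (by
    have := Nat.mul_le_mul_left c s.2.2.le
    rw [mul_comm c] at this
    omega)

theorem not_dvd_comb {H : k[X][X]} (hm : H.Monic) {l : ℕ} (a : Fin l × Fin H.natDegree → k)
    (h : H ∣ ∑ s, C (C (a s)) * mon k s.1 s.2) : a = 0 := by
  have h0 : ∑ s, C (C (a s)) * mon k s.1 s.2 = 0 := by
    by_contra h0
    refine hm.not_dvd_of_degree_lt h0 ?_ h
    rw [degree_eq_natDegree hm.ne_zero]
    refine (degree_sum_le _ _).trans_lt ((Finset.sup_lt_iff (WithBot.bot_lt_coe _)).2 fun s _ => ?_)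
    rw [mon, ← mul_assoc, ← C_mul]
    exact (degree_C_mul_X_pow_le _ _).trans_lt (by exact_mod_cast s.2.2)
  funext s
  have := congrArg (fun g : k[X][X] => (g.coeff s.2).coeff s.1) h0
  simp only [mon, finsetSum_coeff, coeff_C_mul, coeff_X_pow, coeff_zero] at this
  rw [Finset.sum_eq_single s] at this
  · simpa using this
  · intro t _ hts
    by_cases h2 : (s.2 : ℕ) = t.2
    · have h1 : (s.1 : ℕ) ≠ t.1 := fun h1 => hts (Prod.ext (Fin.ext h1.symm) (Fin.ext h2.symm))
      simp [h2, h1, coeff_X_pow]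
    · simp [h2]
  · simp

theorem br_CC (x : k) (η : PowerSeries k) (a : k) : br x η (C (C a)) = PowerSeries.C a := by
  simp [br, tau]

theorem comb_zero {c : ℕ} {H : k[X][X]} (hm : H.Monic) (hi : Irreducible H)
    (hc : ∀ i, (H.coeff i).natDegree ≤ c) {x : k} {η : PowerSeries k} (h : br x η H = 0)
    {l M : ℕ} (hM : H.natDegree * (l + c * H.natDegree + c) < M)
    (a : Fin l × Fin H.natDegree → k)
    (ha : PowerSeries.X ^ M ∣ ∑ s, PowerSeries.C (a s) * br x η (mon k s.1 s.2)) : a = 0 := by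
  refine not_dvd_comb hm a (by_contra fun hn => ?_)
  have := zero_count hm hi hc (N := l + c * H.natDegree) (WB.sum _ _ fun s _ => by
    simpa using (WB.C (N := 0) (by simp)).mul (wb_mon c s)) hn
    {(x, PowerSeries.constantCoeff η)} (fun _ => η) M (by simp) (by simpa using h)
    (by simpa [br_CC] using ha)
  rw [Finset.card_singleton] at this
  omega

theorem exists_comb {c : ℕ} {H : k[X][X]} (hm : H.Monic) (hc : ∀ i, (H.coeff i).natDegree ≤ c)
    {ι : Type} [Fintype ι] (Φ : ι → PowerSeries k[X][X]) {K M : ℕ} (hΦ : ∀ z, GB c K (Φ z))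
    (hcard : M * (H.natDegree * (K + 1)) < Fintype.card ι) :
    ∃ e : ι → k, e ≠ 0 ∧ ∀ x y : k, H.evalEval x y = 0 → PowerSeries.X ^ M ∣
      ∑ z, PowerSeries.C (e z) * PowerSeries.map (evalEvalRingHom x y) (Φ z) := by
  let T : (ι → k) →ₗ[k] (Fin M × Fin H.natDegree × Fin (K + 1) → k) :=
    { toFun := fun e w => ∑ z, e z *
        (((PowerSeries.coeff w.1 (Φ z)) %ₘ H).coeff w.2.1).coeff w.2.2
      map_add' := fun a b => by ext w; simp [add_mul, Finset.sum_add_distrib]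
      map_smul' := fun c a => by ext w; simp [Finset.mul_sum, mul_assoc] }
  have hker : LinearMap.ker T ≠ ⊥ := LinearMap.ker_ne_bot_of_finrank_lt (by simpa using hcard)
  obtain ⟨e, he, he0⟩ := Submodule.exists_mem_ne_zero_of_ne_bot hker
  rw [LinearMap.mem_ker] at he
  refine ⟨e, he0, fun x y h0 => PowerSeries.X_pow_dvd_iff.2 fun r hr => ?_⟩
  have h1 : ∑ z, C (C (e z)) * (PowerSeries.coeff r (Φ z) %ₘ H) = 0 := by
    ext a j
    simp only [finsetSum_coeff, coeff_C_mul, coeff_zero]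
    by_cases ha : a < H.natDegree
    · by_cases hj : j < K + 1
      · exact congrFun he (⟨r, hr⟩, ⟨a, ha⟩, ⟨j, hj⟩)
      · refine Finset.sum_eq_zero fun z _ => ?_
        have := (WB.mod hm (WB.of_monic hm hc) _ _ rfl (hΦ z r)).deg a
        rw [coeff_eq_zero_of_natDegree_lt (by omega), mul_zero]
    · refine Finset.sum_eq_zero fun z _ => ?_
      have := degree_modByMonic_lt (PowerSeries.coeff r (Φ z)) hm
      rw [degree_eq_natDegree hm.ne_zero] at this
      rw [coeff_eq_zero_of_degree_lt (this.trans_le (by exact_mod_cast not_lt.1 ha))]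
      simp
  have h2 := congrArg (evalEvalRingHom x y) h1
  rw [map_sum, map_zero] at h2
  rw [map_sum, ← h2]
  refine Finset.sum_congr rfl fun z _ => ?_
  rw [PowerSeries.coeff_C_mul, PowerSeries.coeff_map, map_mul]
  conv_lhs => rw [← modByMonic_add_div (PowerSeries.coeff r (Φ z)) H]
  simp [h0]

end ZStep

open ZStep in
theorem stepanov3 (m D₀ : ℕ) : ∃ q₀ : ℕ, ∀ (p f : ℕ) [Fact p.Prime] (k : Type) [Field k]
    [IsAlgClosed k] [CharP k p], q₀ ≤ p ^ f → ∀ (H h : k[X][X]) (D : k[X]),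
    H.Monic → H.natDegree = m → Irreducible H → (∀ i, (H.coeff i).natDegree ≤ D₀) →
    h.natDegree ≤ D₀ → (∀ i, (h.coeff i).natDegree ≤ D₀) → D.natDegree ≤ D₀ →
    {P : k × k | P.1 ^ p ^ f = P.1 ∧ H.evalEval P.1 P.2 = 0 ∧
      (H.map (evalRingHom P.1)).Separable ∧ D.eval P.1 ≠ 0 ∧
      D.eval P.1 * P.2 ^ p ^ f = h.evalEval P.1 P.2}.ncard ≤ 3 * p ^ f := by
  classical
  rcases m with _ | n
  · refine ⟨0, fun p f _ k _ _ _ _ H h D hm hn hi _ _ _ _ => ?_⟩
    exact absurd (hm.natDegree_eq_zero.1 hn ▸ isUnit_one) hi.not_isUnit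
  set c := D₀
  set m0 := c * (n + 1) + 1 with hm0
  set M := (n + 1) * m0 with hM
  obtain ⟨N, B, hN⟩ := newton n c M
  set K0 := (n + 1) * (N * (c * (n + 1))) + (n + 1) * B +
    (2 * m0 + (n + 1) * (c + c * c) + (n + 1) * c) with hK0
  refine ⟨(n + 1) * (K0 + 2 + c * (n + 1) + c) + 1 + M,
    fun p f _ k _ _ _ hq H h D hm hn hi hc hh hh' hD => ?_⟩
  set q := p ^ f with hq'
  set S := {P : k × k | P.1 ^ q = P.1 ∧ H.evalEval P.1 P.2 = 0 ∧
      (H.map (evalRingHom P.1)).Separable ∧ D.eval P.1 ≠ 0 ∧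
      D.eval P.1 * P.2 ^ q = h.evalEval P.1 P.2} with hS
  by_cases hfin : S.Finite
  swap
  · rw [Set.Infinite.ncard hfin]; exact Nat.zero_le _
  rcases S.eq_empty_or_nonempty with h0 | ⟨P0, hP0⟩
  · simp [h0]
  have hδ : ∀ P ∈ S, (derivative H).evalEval P.1 P.2 ≠ 0 := fun P hP => by
    have := hP.2.2.1.eval₂_derivative_ne_zero (RingHom.id k) (x := P.2)
      (by rw [eval₂_id, map_evalRingHom_eval]; exact hP.2.1)
    rwa [eval₂_id, derivative_map, map_evalRingHom_eval] at this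
  have hη : ∀ P : k × k, ∃ η : PowerSeries k, P ∈ S →
      PowerSeries.constantCoeff η = P.2 ∧ br P.1 η H = 0 := fun P => by
    by_cases hP : P ∈ S
    · obtain ⟨η, h⟩ := exists_br hm hP.2.1 (hδ P hP)
      exact ⟨η, fun _ => h⟩
    · exact ⟨0, fun h => absurd h hP⟩
  choose η hη using hη
  obtain ⟨ξ, hξ, hξ'⟩ := hN k H hm hn hc
  have hδw : GB c (c * (n + 1)) (PowerSeries.C (derivative H)) :=
    GB.C (hn ▸ (WB.of_monic hm hc).derivative)
  obtain ⟨e, he0, he⟩ := exists_comb hm hc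
    (ι := (Fin (K0 + 2) × Fin H.natDegree) × (Fin (2 * m0) × Fin H.natDegree))
    (fun z => (PowerSeries.C (derivative H) ^ N) ^ (n + 1 - z.1.2) * tauG (X ^ (z.1.1 : ℕ)) *
      ξ ^ (z.1.2 : ℕ) * PowerSeries.C (C (X ^ (z.2.1 : ℕ)) * h ^ (z.2.2 : ℕ) *
        C D ^ (n + 1 - z.2.2))) (K := K0 + 2 + K0) (M := M) (fun z => by
      refine (((((hδw.pow N).pow _).mul (GB.tauG (N := K0 + 2) (by simp))).mul (hξ.pow _)).mul
        (GB.C (((WB.C (N := 2 * m0) (by simp)).mul ((WB.of_le hh hh').pow _)).mul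
          ((WB.C hD).pow _)))).mono ?_
      have h1 := Nat.mul_le_mul_right (N * (c * (n + 1))) (Nat.sub_le (n + 1) z.1.2)
      have h2 := Nat.mul_le_mul_right B (z.1.2.2.le.trans hn.le)
      have h3 := Nat.mul_le_mul_right (c + c * c) (z.2.2.2.le.trans hn.le)
      have h4 := Nat.mul_le_mul_right c (Nat.sub_le (n + 1) z.2.2)
      omega) (by
      simp only [Fintype.card_prod, Fintype.card_fin, hn, hM]
      have : 0 < (n + 1) * m0 * (n + 1) := by positivity
      nlinarith)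
  set Ψ : k[X][X] := ∑ z, C (C (e z)) * (mon k z.1.1 z.1.2 * mon k z.2.1 z.2.2 ^ q) with hΨ
  have hΨw : WB c (K0 + 2 + c * H.natDegree + q * (2 * m0 + c * H.natDegree)) Ψ :=
    WB.sum _ _ fun z _ => by
      simpa using (WB.C (N := 0) (by simp)).mul ((wb_mon c z.1).mul ((wb_mon c z.2).pow q))
  have hbr : ∀ x η, br x η Ψ = ∑ z, PowerSeries.C (e z) *
      (br x η (mon k z.1.1 z.1.2) * br x η (mon k z.2.1 z.2.2) ^ q) := fun x η => by
    simp only [hΨ, map_sum, map_mul, map_pow, br_CC]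
  have hnd : ¬ H ∣ Ψ := by
    rintro ⟨g, hg⟩
    have h1 := (hη P0 hP0).2
    refine he0 (indep f (fun s : Fin (K0 + 2) × Fin H.natDegree => br P0.1 (η P0) (mon k s.1 s.2))
      (fun s : Fin (2 * m0) × Fin H.natDegree => br P0.1 (η P0) (mon k s.1 s.2))
      (comb_zero hm hi hc h1 (by rw [hn]; omega))
      (fun b hb => comb_zero hm hi hc h1 (Nat.lt_succ_self _) b (by simp [hb])) e ?_)
    rw [← hbr, hg, map_mul, h1, zero_mul]
  have key := zero_count hm hi hc hΨw hnd hfin.toFinset η M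
    (fun P hP => (hη P (hfin.mem_toFinset.1 hP)).1)
    (fun P hP => (hη P (hfin.mem_toFinset.1 hP)).2) (fun P hP => by
      rw [hfin.mem_toFinset] at hP
      obtain ⟨h1, h2⟩ := hη P hP
      have h3 := hδ P hP
      have h4 := (pow_dvd_pow _ (Nat.le_succ M)).trans (hξ' _ _ _ h1 h2 h3)
      have h5 := he _ _ hP.2.1
      have hu : IsUnit (PowerSeries.C (((derivative H).evalEval P.1 P.2 ^ N) ^ (n + 1) *
          D.eval P.1 ^ (n + 1)) : PowerSeries k) :=
        IsUnit.map _ (mul_ne_zero (pow_ne_zero _ (pow_ne_zero _ h3))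
          (pow_ne_zero _ hP.2.2.2.1)).isUnit
      rw [← hu.dvd_mul_left, hbr, Finset.mul_sum]
      rw [← Ideal.mem_span_singleton, ← Ideal.Quotient.eq_zero_iff_mem] at h5 ⊢
      rw [← Ideal.mem_span_singleton, ← Ideal.Quotient.eq] at h4
      rw [← h5, map_sum, map_sum]
      refine Finset.sum_congr rfl fun z _ => ?_
      have h6 := (pow_dvd_pow _ (show M ≤ q by omega)).trans
        (frob_ps (p := p) f (br P.1 (η P) (mon k z.2.1 z.2.2)))
      rw [← Ideal.mem_span_singleton, ← Ideal.Quotient.eq, const_br, h1] at h6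
      have h7 : D.eval P.1 ^ (n + 1) * (mon k z.2.1 z.2.2).evalEval P.1 P.2 ^ q =
          evalEvalRingHom P.1 P.2 (C (X ^ (z.2.1 : ℕ)) * h ^ (z.2.2 : ℕ) *
            C D ^ (n + 1 - z.2.2)) := by
        obtain ⟨j, hj⟩ := Nat.exists_eq_add_of_le (z.2.2.2.le.trans hn.le)
        simp only [mon, map_mul, map_pow, coe_evalEvalRingHom, evalEval_C, eval_X, evalEval_mul,
          evalEval_pow, evalEval_X, ← hP.2.2.2.2]
        rw [hj, Nat.add_sub_cancel_left, mul_pow, pow_right_comm P.1, hP.1]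
        ring
      obtain ⟨j, hj⟩ := Nat.exists_eq_add_of_le (z.1.2.2.le.trans hn.le)
      rw [map_mul (PowerSeries.map _), PowerSeries.map_C, ← h7]
      simp only [map_mul, map_pow, h4, map_tauG, PowerSeries.map_C, coe_evalEvalRingHom] at h6 ⊢
      rw [h6]
      simp only [mon, br, map_mul, map_pow, coe_eval₂RingHom, eval₂_C, eval₂_X]
      rw [hj, Nat.add_sub_cancel_left]
      ring)
  rw [Set.ncard_eq_toFinset_card S hfin]
  rw [hn, hM, mul_left_comm] at key
  have h1 := Nat.le_of_mul_le_mul_left key (Nat.succ_pos n)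
  refine Nat.le_of_mul_le_mul_right (c := m0) (h1.trans ?_) (by omega)
  have h2 : K0 + 2 + c * (n + 1) + c ≤ q := by nlinarith
  have h3 : 3 * q * m0 = q + q * (2 * m0 + c * (n + 1)) := by rw [hm0]; ring
  omega

theorem stepanovq (m D₀ : ℕ) : ∃ q₀ : ℕ, ∀ (p f : ℕ) [Fact p.Prime] (k : Type) [Field k]
    [IsAlgClosed k] [CharP k p], q₀ ≤ p ^ f → ∀ (H h : k[X][X]) (D : k[X]),
    H.Monic → H.natDegree = m → Irreducible H → (∀ i, (H.coeff i).natDegree ≤ D₀) →
    h.natDegree ≤ D₀ → (∀ i, (h.coeff i).natDegree ≤ D₀) → D.natDegree ≤ D₀ →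
    {P : k × k | P.1 ^ p ^ f = P.1 ∧ H.evalEval P.1 P.2 = 0 ∧
      (H.map (evalRingHom P.1)).Separable ∧ D.eval P.1 ≠ 0 ∧
      D.eval P.1 * P.2 ^ p ^ f = h.evalEval P.1 P.2}.ncard ≤ 10 * p ^ f := by
  obtain ⟨q₀, h⟩ := stepanov3 m D₀
  refine ⟨q₀, fun p f _ k _ _ _ hp H h' D h1 h2 h3 h4 h5 h6 h7 => ?_⟩
  exact (h p f k hp H h' D h1 h2 h3 h4 h5 h6 h7).trans (Nat.mul_le_mul_right _ (by norm_num))

theorem stepanov (m D₀ : ℕ) : ∃ p₀ : ℕ, ∀ (p f : ℕ) [Fact p.Prime] (k : Type) [Field k]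
    [IsAlgClosed k] [CharP k p], p₀ ≤ p → 0 < f → ∀ (H h : k[X][X]) (D : k[X]),
    H.Monic → H.natDegree = m → Irreducible H → (∀ i, (H.coeff i).natDegree ≤ D₀) →
    h.natDegree ≤ D₀ → (∀ i, (h.coeff i).natDegree ≤ D₀) → D.natDegree ≤ D₀ →
    {P : k × k | P.1 ^ p ^ f = P.1 ∧ H.evalEval P.1 P.2 = 0 ∧
      (H.map (evalRingHom P.1)).Separable ∧ D.eval P.1 ≠ 0 ∧
      D.eval P.1 * P.2 ^ p ^ f = h.evalEval P.1 P.2}.ncard ≤ 10 * p ^ f := by
  obtain ⟨q₀, h⟩ := stepanovq m D₀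
  refine ⟨q₀, fun p f _ k _ _ _ hp hf H h' D h1 h2 h3 h4 h5 h6 h7 => ?_⟩
  exact h p f k (hp.trans (Nat.le_self_pow hf.ne' p)) H h' D h1 h2 h3 h4 h5 h6 h7

end Pool.Agent.MP_9b2bac_nt.Z
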