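import Mathlib
import Pool.Agent.MP_9b2bac_nt.ZChebq

set_option autoImplicit false

namespace Pool.Agent.MP_9b2bac_nt.Z

open Polynomial

open ZStep in
theorem stepanovL (L : ℕ) (hL : 0 < L) (m D₀ : ℕ) : ∃ q₀ : ℕ, ∀ (p f : ℕ) [Fact p.Prime] (k : Type) [Field k]
    [IsAlgClosed k] [CharP k p], q₀ ≤ p ^ f → ∀ (H h : k[X][X]) (D : k[X]),
    H.Monic → H.natDegree = m → Irreducible H → (∀ i, (H.coeff i).natDegree ≤ D₀) →
    h.natDegree ≤ D₀ → (∀ i, (h.coeff i).natDegree ≤ D₀) → D.natDegree ≤ D₀ →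
    {P : k × k | P.1 ^ p ^ f = P.1 ∧ H.evalEval P.1 P.2 = 0 ∧
      (H.map (evalRingHom P.1)).Separable ∧ D.eval P.1 ≠ 0 ∧
      D.eval P.1 * P.2 ^ p ^ f = h.evalEval P.1 P.2}.ncard ≤ (L + 3) * p ^ f / L := by
  classical
  rcases m with _ | n
  · refine ⟨0, fun p f _ k _ _ _ _ H h D hm hn hi _ _ _ _ => ?_⟩
    exact absurd (hm.natDegree_eq_zero.1 hn ▸ isUnit_one) hi.not_isUnit
  set c := D₀
  set m0 := c * (n + 1) + 1 with hm0
  set M := (n + 1) * (L * m0) with hM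
  obtain ⟨N, B, hN⟩ := newton n c M
  set K0 := (n + 1) * (N * (c * (n + 1))) + (n + 1) * B +
    ((L + 1) * m0 + (n + 1) * (c + c * c) + (n + 1) * c) with hK0
  set A := L * (K0 + 1) + 1 with hA
  refine ⟨(n + 1) * (A + c * (n + 1) + c) + 1 + M,
    fun p f _ k _ _ _ hq H h D hm hn hi hc hh hh' hD => ?_⟩
  set q := p ^ f with hq'
  set S := {P : k × k | P.1 ^ q = P.1 ∧ H.evalEval P.1 P.2 = 0 ∧
      (H.map (evalRingHom P.1)).Separable ∧ D.eval P.1 ≠ 0 ∧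
      D.eval P.1 * P.2 ^ q = h.evalEval P.1 P.2} with hS
  by_cases hfin : S.Finite
  swap
  · rw [Set.Infinite.ncard hfin]; exact Nat.zero_le _
  rcases S.eq_empty_or_nonempty with h0 | ⟨P0, hP0⟩
  · simp [h0]
  have hδ : ∀ P ∈ S, (derivative H).evalEval P.1 P.2 ≠ 0 := fun P hP => by
    have := hP.2.2.1.eval₂_derivative_ne_zero (RingHom.id k) (x := P.2)
      (by rw [eval₂_id, map_evalRingHom_eval]; exact hP.2.1)
    rwa [eval₂_id, derivative_map, map_evalRingHom_eval] at this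
  have hη : ∀ P : k × k, ∃ η : PowerSeries k, P ∈ S →
      PowerSeries.constantCoeff η = P.2 ∧ br P.1 η H = 0 := fun P => by
    by_cases hP : P ∈ S
    · obtain ⟨η, h⟩ := exists_br hm hP.2.1 (hδ P hP)
      exact ⟨η, fun _ => h⟩
    · exact ⟨0, fun h => absurd h hP⟩
  choose η hη using hη
  obtain ⟨ξ, hξ, hξ'⟩ := hN k H hm hn hc
  have hδw : GB c (c * (n + 1)) (PowerSeries.C (derivative H)) :=
    GB.C (hn ▸ (WB.of_monic hm hc).derivative)
  obtain ⟨e, he0, he⟩ := exists_comb hm hc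
    (ι := (Fin (A) × Fin H.natDegree) × (Fin ((L + 1) * m0) × Fin H.natDegree))
    (fun z => (PowerSeries.C (derivative H) ^ N) ^ (n + 1 - z.1.2) * tauG (X ^ (z.1.1 : ℕ)) *
      ξ ^ (z.1.2 : ℕ) * PowerSeries.C (C (X ^ (z.2.1 : ℕ)) * h ^ (z.2.2 : ℕ) *
        C D ^ (n + 1 - z.2.2))) (K := A + K0) (M := M) (fun z => by
      refine (((((hδw.pow N).pow _).mul (GB.tauG (N := A) (by simp))).mul (hξ.pow _)).mul
        (GB.C (((WB.C (N := (L + 1) * m0) (by simp)).mul ((WB.of_le hh hh').pow _)).mul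
          ((WB.C hD).pow _)))).mono ?_
      have h1 := Nat.mul_le_mul_right (N * (c * (n + 1))) (Nat.sub_le (n + 1) z.1.2)
      have h2 := Nat.mul_le_mul_right B (z.1.2.2.le.trans hn.le)
      have h3 := Nat.mul_le_mul_right (c + c * c) (z.2.2.2.le.trans hn.le)
      have h4 := Nat.mul_le_mul_right c (Nat.sub_le (n + 1) z.2.2)
      omega) (by
      simp only [Fintype.card_prod, Fintype.card_fin, hn, hM]
      have : 0 < (n + 1) * m0 * (n + 1) := by positivity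
      calc _ = (n + 1) * m0 * (n + 1) * (L * A + L * (K0 + 1)) := by ring
        _ < (n + 1) * m0 * (n + 1) * (L * A + A) := Nat.mul_lt_mul_of_pos_left (by omega) this
        _ = _ := by ring)
  set Ψ : k[X][X] := ∑ z, C (C (e z)) * (mon k z.1.1 z.1.2 * mon k z.2.1 z.2.2 ^ q) with hΨ
  have hΨw : WB c (A + c * H.natDegree + q * ((L + 1) * m0 + c * H.natDegree)) Ψ :=
    WB.sum _ _ fun z _ => by
      simpa using (WB.C (N := 0) (by simp)).mul ((wb_mon c z.1).mul ((wb_mon c z.2).pow q))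
  have hbr : ∀ x η, br x η Ψ = ∑ z, PowerSeries.C (e z) *
      (br x η (mon k z.1.1 z.1.2) * br x η (mon k z.2.1 z.2.2) ^ q) := fun x η => by
    simp only [hΨ, map_sum, map_mul, map_pow, br_CC]
  have hnd : ¬ H ∣ Ψ := by
    rintro ⟨g, hg⟩
    have h1 := (hη P0 hP0).2
    refine he0 (indep f (fun s : Fin (A) × Fin H.natDegree => br P0.1 (η P0) (mon k s.1 s.2))
      (fun s : Fin ((L + 1) * m0) × Fin H.natDegree => br P0.1 (η P0) (mon k s.1 s.2))
      (comb_zero hm hi hc h1 (by rw [hn]; omega))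
      (fun b hb => comb_zero hm hi hc h1 (Nat.lt_succ_self _) b (by simp [hb])) e ?_)
    rw [← hbr, hg, map_mul, h1, zero_mul]
  have key := zero_count hm hi hc hΨw hnd hfin.toFinset η M
    (fun P hP => (hη P (hfin.mem_toFinset.1 hP)).1)
    (fun P hP => (hη P (hfin.mem_toFinset.1 hP)).2) (fun P hP => by
      rw [hfin.mem_toFinset] at hP
      obtain ⟨h1, h2⟩ := hη P hP
      have h3 := hδ P hP
      have h4 := (pow_dvd_pow _ (Nat.le_succ M)).trans (hξ' _ _ _ h1 h2 h3)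
      have h5 := he _ _ hP.2.1
      have hu : IsUnit (PowerSeries.C (((derivative H).evalEval P.1 P.2 ^ N) ^ (n + 1) *
          D.eval P.1 ^ (n + 1)) : PowerSeries k) :=
        IsUnit.map _ (mul_ne_zero (pow_ne_zero _ (pow_ne_zero _ h3))
          (pow_ne_zero _ hP.2.2.2.1)).isUnit
      rw [← hu.dvd_mul_left, hbr, Finset.mul_sum]
      rw [← Ideal.mem_span_singleton, ← Ideal.Quotient.eq_zero_iff_mem] at h5 ⊢
      rw [← Ideal.mem_span_singleton, ← Ideal.Quotient.eq] at h4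
      rw [← h5, map_sum, map_sum]
      refine Finset.sum_congr rfl fun z _ => ?_
      have h6 := (pow_dvd_pow _ (show M ≤ q by omega)).trans
        (frob_ps (p := p) f (br P.1 (η P) (mon k z.2.1 z.2.2)))
      rw [← Ideal.mem_span_singleton, ← Ideal.Quotient.eq, const_br, h1] at h6
      have h7 : D.eval P.1 ^ (n + 1) * (mon k z.2.1 z.2.2).evalEval P.1 P.2 ^ q =
          evalEvalRingHom P.1 P.2 (C (X ^ (z.2.1 : ℕ)) * h ^ (z.2.2 : ℕ) *
            C D ^ (n + 1 - z.2.2)) := by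
        obtain ⟨j, hj⟩ := Nat.exists_eq_add_of_le (z.2.2.2.le.trans hn.le)
        simp only [mon, map_mul, map_pow, coe_evalEvalRingHom, evalEval_C, eval_X, evalEval_mul,
          evalEval_pow, evalEval_X, ← hP.2.2.2.2]
        rw [hj, Nat.add_sub_cancel_left, mul_pow, pow_right_comm P.1, hP.1]
        ring
      obtain ⟨j, hj⟩ := Nat.exists_eq_add_of_le (z.1.2.2.le.trans hn.le)
      rw [map_mul (PowerSeries.map _), PowerSeries.map_C, ← h7]
      simp only [map_mul, map_pow, h4, map_tauG, PowerSeries.map_C, coe_evalEvalRingHom] at h6 ⊢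
      rw [h6]
      simp only [mon, br, map_mul, map_pow, coe_eval₂RingHom, eval₂_C, eval₂_X]
      rw [hj, Nat.add_sub_cancel_left]
      ring)
  rw [Set.ncard_eq_toFinset_card S hfin, Nat.le_div_iff_mul_le hL]
  rw [hn, hM, mul_left_comm] at key
  have h1 := Nat.le_of_mul_le_mul_left key (Nat.succ_pos n)
  refine Nat.le_of_mul_le_mul_right (c := m0) ((mul_assoc _ _ _).le.trans (h1.trans ?_)) (by omega)
  have h2 : A + c * (n + 1) + c ≤ q := by nlinarith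
  have h3 : (L + 3) * q * m0 = q * m0 + q + q * ((L + 1) * m0 + c * (n + 1)) := by rw [hm0]; ring
  omega

namespace ZCheb

theorem cheb_gen' (β : ℕ → ℕ) (Q : ℕ → ℕ → ℕ → Prop) (hQ : ∀ p₀ p f, p.Prime → Q p₀ p f → 1 < p ^ f)
    (step : ∀ m D₀ : ℕ, ∃ p₀ : ℕ, ∀ (p f : ℕ) [Fact p.Prime] (k : Type) [Field k]
      [IsAlgClosed k] [CharP k p], Q p₀ p f → ∀ (H h : k[X][X]) (D : k[X]),
      H.Monic → H.natDegree = m → Irreducible H → (∀ i, (H.coeff i).natDegree ≤ D₀) →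
      h.natDegree ≤ D₀ → (∀ i, (h.coeff i).natDegree ≤ D₀) → D.natDegree ≤ D₀ →
      {P : k × k | P.1 ^ p ^ f = P.1 ∧ H.evalEval P.1 P.2 = 0 ∧
        (H.map (evalRingHom P.1)).Separable ∧ D.eval P.1 ≠ 0 ∧
        D.eval P.1 * P.2 ^ p ^ f = h.evalEval P.1 P.2}.ncard ≤ β (p ^ f))
    (A B : Type) [CommRing A] [IsDomain A] [CommRing B] [IsDomain B]
    [Algebra A B] (Δ : A) (hΔ : Δ ≠ 0) [IsLocalization.Away Δ B]
    (R : Subalgebra A[X] (PowerSeries B)) (hfg : R.FG) [Finite (R ≃ₐ[A[X]] R)]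
    (hfix : ∀ r : R, (∀ g : R ≃ₐ[A[X]] R, g r = r) →
      ∃ a b : A[X], a ≠ 0 ∧ a • r = algebraMap A[X] R b)
    (ι : Type) [Finite ι] (θ : ι → R ≃+* R) (τ : ι → A ≃+* A)
    (hθX : ∀ i, θ i (algebraMap A[X] R X) = algebraMap A[X] R X)
    (hθC : ∀ i a, θ i (algebraMap A[X] R (C a)) = algebraMap A[X] R (C (τ i a))) :
    ∃ ν : A, ν ≠ 0 ∧ ∃ D₁ p₀ : ℕ, ∀ (p f : ℕ) [Fact p.Prime] (k : Type) [Field k]
      [IsAlgClosed k] [CharP k p], Q p₀ p f → ∀ ψ : A →+* k, ψ ν ≠ 0 →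
      ∀ i : ι, (∀ a, ψ a ^ p ^ f = ψ (τ i a)) →
      ∀ (Bad : Set (R ≃ₐ[A[X]] R)) (S : Set k), (∀ x ∈ S, x ^ p ^ f = x) →
      (∀ x ∈ S, ∀ φ : R →+* k, φ (algebraMap A[X] R X) = x →
        (∀ a, φ (algebraMap A[X] R (C a)) = ψ a) →
        ∀ g : R ≃ₐ[A[X]] R, (∀ r, φ r ^ p ^ f = φ (g (θ i r))) → g ∈ Bad) →
      Nat.card (R ≃ₐ[A[X]] R) * S.ncard ≤
        β (p ^ f) * Bad.ncard + Nat.card (R ≃ₐ[A[X]] R) * D₁ := by
  classical
  have := Fintype.ofFinite (R ≃ₐ[A[X]] R)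
  have hB : Function.Injective (algebraMap A B) :=
    IsLocalization.injective B (powers_le_nonZeroDivisors_of_noZeroDivisors hΔ)
  have hinj : Function.Injective (algebraMap A[X] R) := fun a b h => ext fun n => hB (by
    have h1 : algebraMap A[X] (PowerSeries B) a = algebraMap A[X] (PowerSeries B) b :=
      congrArg Subtype.val h
    simpa [PowerSeries.algebraMap_apply'] using congrArg (PowerSeries.coeff n) h1)
  obtain ⟨y, H, hy, hm, hd, hH⟩ := exists_poly hinj hfix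
  obtain ⟨D, hD0, hD, hsep⟩ := exists_den hinj (R.fg_top.2 hfg) hfix hy
  have hv : ∀ P : A[X][X], aeval (y : PowerSeries B) P = ((aeval y P : R) : PowerSeries B) :=
    fun P => aeval_algHom_apply R.val y P
  obtain ⟨ν, hν, hirr⟩ := irred A B Δ hΔ y H hm (hd ▸ Fintype.card_pos)
    (by rw [hv, root_zero hH]; rfl) fun P h1 h2 =>
      small_zero hinj hy (Subtype.ext ((hv P).symm.trans h1)) (hd ▸ h2)
  have hD' := hD
  choose N P hP using hD'
  choose bd hbd1 hbd2 using exists_bd (A := A)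
  obtain ⟨D₁, hD₁⟩ := (Set.finite_range fun t : (R ≃ₐ[A[X]] R) × ι =>
    max (bd (P (t.1 (θ t.2 y)))) (D ^ N (t.1 (θ t.2 y))).natDegree).bddAbove
  obtain ⟨p₀, hp₀⟩ := step H.natDegree (max D₁ (bd H))
  refine ⟨ν * D.leadingCoeff, mul_ne_zero hν (leadingCoeff_ne_zero.2 hD0), D.natDegree, p₀,
    fun p f _ k _ _ _ hp ψ hψ i hi Bad S hS hB => ?_⟩
  rw [map_mul, mul_ne_zero_iff] at hψ
  have hq : 1 < p ^ f := hQ _ _ _ Fact.out hp
  obtain ⟨T, hT⟩ : ∃ T : (R ≃ₐ[A[X]] R) → Set (k × k), ∀ g, T g = {Q : k × k |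
      Q.1 ^ p ^ f = Q.1 ∧ (H.map (mapRingHom ψ)).evalEval Q.1 Q.2 = 0 ∧
      ((H.map (mapRingHom ψ)).map (evalRingHom Q.1)).Separable ∧
      ((D ^ N (g (θ i y))).map ψ).eval Q.1 ≠ 0 ∧
      ((D ^ N (g (θ i y))).map ψ).eval Q.1 * Q.2 ^ p ^ f =
        ((P (g (θ i y))).map (mapRingHom ψ)).evalEval Q.1 Q.2} := ⟨_, fun _ => rfl⟩
  have hT1 : ∀ g, (T g).ncard ≤ β (p ^ f) := by
    intro g
    have h1 := (hD₁ ⟨(g, i), rfl⟩).trans (le_max_left D₁ (bd H))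
    rw [max_le_iff] at h1
    rw [hT]
    refine hp₀ p f k hp _ _ _ (hm.map _) (hm.natDegree_map _) (hirr k ψ hψ.1) (fun j => ?_)
      (natDegree_map_le.trans ((hbd1 _).trans h1.1)) (fun j => ?_) (natDegree_map_le.trans h1.2)
    · rw [coeff_map]
      exact natDegree_map_le.trans ((hbd2 H j).trans (le_max_right _ _))
    · rw [coeff_map]
      exact natDegree_map_le.trans ((hbd2 _ j).trans h1.1)
  have key : ∀ x ∈ S, eval₂RingHom ψ x D ≠ 0 → ∀ φ : R →+* k,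
      (∀ a, φ (algebraMap A[X] R a) = eval₂RingHom ψ x a) → ∃ g ∈ Bad, (x, φ y) ∈ T g := by
    intro x hx h0 φ hφ
    have hX : φ (algebraMap A[X] R X) = x := by simp [hφ]
    have hC : ∀ a, φ (algebraMap A[X] R (C a)) = ψ a := fun a => by simp [hφ]
    obtain ⟨φ', hφ'⟩ : ∃ φ' : R →+* k, ∀ r, φ' (θ i r) = φ r ^ p ^ f :=
      ⟨(iterateFrobenius k p f).comp (φ.comp (θ i).symm), fun r => by
        simp [iterateFrobenius_def]⟩
    have h1 : ∀ a, φ' (algebraMap A[X] R a) = eval₂RingHom ψ x a := by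
      refine RingHom.congr_fun (f := φ'.comp (algebraMap A[X] R)) (ringHom_ext (fun a => ?_) ?_)
      · obtain ⟨a, rfl⟩ := (τ i).surjective a
        rw [RingHom.comp_apply, ← hθC, hφ', hC, hi]
        simp
      · rw [RingHom.comp_apply, ← hθX i, hφ', hX, hS x hx]
        simp
    have hr : ∀ χ : R →+* k, (∀ a, χ (algebraMap A[X] R a) = eval₂RingHom ψ x a) →
        H.eval₂ (eval₂RingHom ψ x) (χ y) = 0 := fun χ hχ => by
      rw [← hom_aeval hχ, root_zero hH, map_zero]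
    have h2 := hr φ' h1
    rw [← eval_map, map_split hH hφ, eval_prod, Finset.prod_eq_zero_iff] at h2
    obtain ⟨g, -, hg⟩ := h2
    rw [eval_sub, eval_X, eval_C, sub_eq_zero] at hg
    have h3 : ∀ r, φ r ^ p ^ f = φ (g (θ i r)) := fun r => by
      rw [← hφ']
      exact hom_uniq hD h0 (φ' := φ.comp (g : R →+* R)) h1 (fun a => by simp [hφ]) hg _
    refine ⟨g, hB x hx φ hX hC g h3, ?_⟩
    have h4 : ((D ^ N (g (θ i y))).map ψ).eval x = eval₂RingHom ψ x D ^ N (g (θ i y)) := by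
      rw [eval_map, ← map_pow]
      rfl
    rw [hT]
    refine ⟨hS x hx, ?_, ?_, ?_, ?_⟩
    · rw [evalEval_map]
      exact hr φ hφ
    · rw [map_ev, map_split hH hφ, separable_prod_X_sub_C_iff]
      exact hsep k φ (by rwa [hφ])
    · rw [h4]
      exact pow_ne_zero _ h0
    · rw [h4, evalEval_map, ← hom_aeval hφ, ← hP, map_mul, map_pow, hφ, h3]
  obtain ⟨S', hS'⟩ : ∃ S' : Set k, S' = {x ∈ S | eval₂RingHom ψ x D ≠ 0} := ⟨_, rfl⟩
  have hex : ∀ x : S', ∃ φ : R →+* k, ∀ a, φ (algebraMap A[X] R a) = eval₂RingHom ψ x a := by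
    rintro ⟨x, hx⟩
    rw [hS'] at hx
    obtain ⟨z, hz⟩ := IsAlgClosed.exists_root (H.map (eval₂RingHom ψ x)) (by
      rw [hm.degree_map, degree_eq_natDegree hm.ne_zero, hd]
      exact_mod_cast Fintype.card_pos.ne')
    obtain ⟨φ, hφ, -⟩ := hom_extend hD (fun Q => ker_dvd hinj hy hm hd hH) hx.2
      (by rwa [← eval_map])
    exact ⟨φ, hφ⟩
  choose Φ hΦ using hex
  have hx : ∀ x : S', x.1 ∈ S ∧ eval₂RingHom ψ x D ≠ 0 := fun x => hS'.subset x.2
  have hF : Function.Injective fun t : (R ≃ₐ[A[X]] R) × S' => (t.2.1, Φ t.2 (t.1 y)) := by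
    rintro ⟨g, x⟩ ⟨g', x'⟩ h
    simp only [Prod.mk.injEq] at h
    obtain rfl : x = x' := Subtype.ext h.1
    rw [hsep k (Φ x) (by rw [hΦ]; exact (hx x).2) h.2]
  have h1 : Nat.card (R ≃ₐ[A[X]] R) * S'.ncard ≤ β (p ^ f) * Bad.ncard := by
    rw [← Nat.card_coe_set_eq, ← Nat.card_prod, ← Nat.card_range_of_injective hF,
      Nat.card_coe_set_eq]
    refine (Set.ncard_le_ncard (t := ⋃ g ∈ Bad.toFinset, T g) ?_ ?_).trans
      ((Finset.set_ncard_biUnion_le _ _).trans ?_)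
    · rintro _ ⟨⟨g, x⟩, rfl⟩
      obtain ⟨g', h1, h2⟩ := key x (hx x).1 (hx x).2 ((Φ x).comp (g : R →+* R))
        fun a => by simp [hΦ]
      exact Set.mem_biUnion (Set.mem_toFinset.2 h1) h2
    · refine (fin_pts hq (hm.map (mapRingHom ψ))).subset (Set.iUnion₂_subset fun g _ => ?_)
      rw [hT]
      exact fun Q hQ => ⟨hQ.1, hQ.2.1⟩
    · refine (Finset.sum_le_card_nsmul _ _ _ fun g _ => hT1 g).trans (le_of_eq ?_)
      rw [smul_eq_mul, mul_comm, Set.ncard_eq_toFinset_card']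
  have h2 : S.ncard ≤ S'.ncard + D.natDegree := by
    have h0 : D.map ψ ≠ 0 := fun e => hψ.2 (by rw [leadingCoeff, ← coeff_map, e, coeff_zero])
    refine (Set.ncard_le_ncard (t := S' ∪ (D.map ψ).roots.toFinset) (fun x hx => ?_)
      ((((fin_fix k hq).subset hS).subset fun x h => (hx ⟨x, h⟩).1).union
        (Finset.finite_toSet _))).trans ((Set.ncard_union_le _ _).trans ?_)
    · by_cases c : eval₂RingHom ψ x D = 0
      · exact Or.inr (by simpa [h0, eval_map] using c)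
      · exact Or.inl (hS' ▸ ⟨hx, c⟩)
    · rw [Set.ncard_coe_finset]
      exact Nat.add_le_add_left ((Multiset.toFinset_card_le _).trans
        ((card_roots' _).trans natDegree_map_le)) _
  calc _ ≤ Nat.card (R ≃ₐ[A[X]] R) * (S'.ncard + D.natDegree) := Nat.mul_le_mul_left _ h2
    _ ≤ _ := by
      rw [mul_add]
      exact Nat.add_le_add_right h1 _

end ZCheb

theorem chebs (A B : Type) [CommRing A] [IsDomain A] [CommRing B] [IsDomain B]
    [Algebra A B] (Δ : A) (hΔ : Δ ≠ 0) [IsLocalization.Away Δ B]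
    (R : Subalgebra A[X] (PowerSeries B)) (hfg : R.FG) [Finite (R ≃ₐ[A[X]] R)]
    (hfix : ∀ r : R, (∀ g : R ≃ₐ[A[X]] R, g r = r) →
      ∃ a b : A[X], a ≠ 0 ∧ a • r = algebraMap A[X] R b)
    (ι : Type) [Finite ι] (θ : ι → R ≃+* R) (τ : ι → A ≃+* A)
    (hθX : ∀ i, θ i (algebraMap A[X] R X) = algebraMap A[X] R X)
    (hθC : ∀ i a, θ i (algebraMap A[X] R (C a)) = algebraMap A[X] R (C (τ i a)))
    (δ : ℝ) (hδ : 0 < δ) :
    ∃ ν : A, ν ≠ 0 ∧ ∃ D₁ q₀ : ℕ, ∀ (p f : ℕ) [Fact p.Prime] (k : Type) [Field k]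
      [IsAlgClosed k] [CharP k p], q₀ ≤ p ^ f → ∀ ψ : A →+* k, ψ ν ≠ 0 →
      ∀ i : ι, (∀ a, ψ a ^ p ^ f = ψ (τ i a)) →
      ∀ (Bad : Set (R ≃ₐ[A[X]] R)) (S : Set k), (∀ x ∈ S, x ^ p ^ f = x) →
      (∀ x ∈ S, ∀ φ : R →+* k, φ (algebraMap A[X] R X) = x →
        (∀ a, φ (algebraMap A[X] R (C a)) = ψ a) →
        ∀ g : R ≃ₐ[A[X]] R, (∀ r, φ r ^ p ^ f = φ (g (θ i r))) → g ∈ Bad) →
      (Nat.card (R ≃ₐ[A[X]] R) : ℝ) * S.ncard ≤
        (1 + δ) * (p : ℝ) ^ f * Bad.ncard + Nat.card (R ≃ₐ[A[X]] R) * D₁ := by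
  obtain ⟨L, hL⟩ := exists_nat_gt (3 / δ)
  have hL0 : (0 : ℝ) < L := lt_trans (by positivity) hL
  obtain ⟨ν, hν, D₁, q₀, h⟩ := ZCheb.cheb_gen' (fun q => (L + 3) * q / L)
    (fun q₀ p f => max q₀ 2 ≤ p ^ f) (fun _ _ _ _ h => (le_max_right _ _).trans h) (fun m D₀ => by
      obtain ⟨q₀, h⟩ := stepanovL L (by exact_mod_cast hL0) m D₀
      exact ⟨q₀, fun p f _ k _ _ _ hq => h p f k ((le_max_left _ _).trans hq)⟩)
    A B Δ hΔ R hfg hfix ι θ τ hθX hθC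
  refine ⟨ν, hν, D₁, max q₀ 2, fun p f _ k _ _ _ hq ψ h1 i h2 Bad S h3 h4 => ?_⟩
  have h5 := (Nat.cast_le (α := ℝ)).2 (h p f k hq ψ h1 i h2 Bad S h3 h4)
  rw [Nat.cast_add, Nat.cast_mul, Nat.cast_mul, Nat.cast_mul] at h5
  refine h5.trans (add_le_add_left (mul_le_mul_of_nonneg_right (Nat.cast_div_le.trans ?_)
    (Nat.cast_nonneg _)) _)
  rw [div_lt_iff₀ hδ] at hL
  rw [div_le_iff₀ hL0]
  push_cast
  nlinarith [mul_le_mul_of_nonneg_left hL.le (show (0 : ℝ) ≤ (p : ℝ) ^ f by positivity)]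

end Pool.Agent.MP_9b2bac_nt.Z
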