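import Mathlib
import Pool.Agent.MP_9b2bac_nt.ZDefs

/- The universal power series solution attached to every word. -/

set_option autoImplicit false

namespace Pool.Agent.MP_9b2bac_nt.Z

open PowerSeries Finset

variable {d : ℕ}

/-- The normal form of the system. -/
structure NF {C : Type} [CommRing C] (t : Fin d → Fin d → C) (w : Seq d → Fin d → C)
    (ξ : Seq d → C) : Prop where
  off : ∀ s j, j ≠ s 0 → w s j = t j (s 0) * (w (sh s) j + ξ s * w s j)
  sum : ∀ s, ∑ j, w s j = 1
  diag : ∀ s, ξ s * w s (s 0) = - w (sh s) (s 0)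

theorem NF.map {C C' : Type} [CommRing C] [CommRing C'] (f : C →+* C')
    {t : Fin d → Fin d → C} {w : Seq d → Fin d → C} {ξ : Seq d → C} (h : NF t w ξ) :
    NF (fun j k => f (t j k)) (fun s j => f (w s j)) (fun s => f (ξ s)) where
  off s j hj := by simpa using congrArg f (h.off s j hj)
  sum s := by rw [← map_sum, h.sum, map_one]
  diag s := by rw [← map_mul, h.diag, map_neg]

theorem NF.diag_eq {C : Type} [CommRing C] {t : Fin d → Fin d → C} {w : Seq d → Fin d → C}
    {ξ : Seq d → C} (h : NF t w ξ) (s : Seq d) :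
    w s (s 0) = 1 - ∑ j ∈ univ.erase (s 0), w s j := by
  rw [← h.sum s, ← add_sum_erase _ _ (mem_univ (s 0))]; ring

theorem NF.unique {C : Type} [CommRing C] (π : C) (hH : ∀ x : C, (∀ n, π ^ n ∣ x) → x = 0)
    {t : Fin d → Fin d → C} (ht : ∀ j k, j ≠ k → π ∣ t j k) {w w' : Seq d → Fin d → C}
    {ξ ξ' : Seq d → C} (h : NF t w ξ) (h' : NF t w' ξ') : w = w' ∧ ξ = ξ' := by
  have key : ∀ n, (∀ s j, π ^ n ∣ w s j - w' s j) ∧ ∀ s, π ^ n ∣ ξ s - ξ' s := by
    intro n
    induction n with
    | zero => simp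
    | succ n ih =>
      have h1 : ∀ s j, j ≠ s 0 → π ^ (n + 1) ∣ w s j - w' s j := by
        intro s j hj
        have : w s j - w' s j = t j (s 0) * ((w (sh s) j - w' (sh s) j) +
            ξ s * (w s j - w' s j) + (ξ s - ξ' s) * w' s j) := by
          linear_combination h.off s j hj - h'.off s j hj
        rw [this, pow_succ']
        exact mul_dvd_mul (ht _ _ hj) (dvd_add (dvd_add (ih.1 _ _) ((ih.1 _ _).mul_left _))
          ((ih.2 _).mul_right _))
      have h2 : ∀ s j, π ^ (n + 1) ∣ w s j - w' s j := by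
        intro s j
        by_cases hj : j = s 0
        · subst hj
          rw [h.diag_eq, h'.diag_eq, sub_sub_sub_cancel_left, ← neg_sub, dvd_neg,
            ← sum_sub_distrib]
          exact dvd_sum fun j hj => h1 s j (ne_of_mem_erase hj)
        · exact h1 s j hj
      refine ⟨h2, fun s => ?_⟩
      have h3 : π ∣ ∑ j ∈ univ.erase (s 0), w s j := dvd_sum fun j hj => by
        rw [h.off s j (ne_of_mem_erase hj)]
        exact (ht _ _ (ne_of_mem_erase hj)).mul_right _
      have : ξ s - ξ' s = -(w (sh s) (s 0) - w' (sh s) (s 0)) - ξ' s * (w s (s 0) - w' s (s 0)) +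
          (ξ s - ξ' s) * ∑ j ∈ univ.erase (s 0), w s j := by
        linear_combination h.diag s - h'.diag s - (ξ s - ξ' s) * h.diag_eq s
      rw [this]
      refine dvd_add (dvd_sub (dvd_neg.2 (h2 _ _)) ((h2 _ _).mul_left _)) ?_
      rw [pow_succ]; exact mul_dvd_mul (ih.2 s) h3
  exact ⟨funext fun s => funext fun j => sub_eq_zero.1 (hH _ fun n => (key n).1 s j),
    funext fun s => sub_eq_zero.1 (hH _ fun n => (key n).2 s)⟩

theorem ps_haus {B : Type} [CommRing B] (x : B⟦X⟧) (h : ∀ n, (X : B⟦X⟧) ^ n ∣ x) : x = 0 := by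
  ext n
  exact X_pow_dvd_iff.1 (h (n + 1)) n (Nat.lt_succ_self n)

theorem exists_fixed {B ι : Type} [CommRing B] (T : (ι → B⟦X⟧) → ι → B⟦X⟧)
    (hT : ∀ n x y, (∀ i, (X : B⟦X⟧) ^ n ∣ x i - y i) → ∀ i, (X : B⟦X⟧) ^ (n + 1) ∣ T x i - T y i) :
    ∃ x, T x = x := by
  let u : ℕ → ι → B⟦X⟧ := fun n => T^[n] 0
  have hu : ∀ n, u (n + 1) = T (u n) := fun n => Function.iterate_succ_apply' _ _ _
  have h1 : ∀ n i, (X : B⟦X⟧) ^ n ∣ u (n + 1) i - u n i := by
    intro n
    induction n with
    | zero => simp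
    | succ n ih => intro i; rw [hu (n + 1)]; nth_rewrite 2 [hu n]; exact hT n _ _ ih i
  have h2 : ∀ n k i, (X : B⟦X⟧) ^ n ∣ u (n + k) i - u n i := by
    intro n k i
    induction k with
    | zero => simp
    | succ k ih =>
      have := dvd_add ((pow_dvd_pow X (Nat.le_add_right n k)).trans (h1 (n + k) i)) ih
      rwa [sub_add_sub_cancel] at this
  let x : ι → B⟦X⟧ := fun i => PowerSeries.mk fun k => coeff k (u (k + 1) i)
  have h3 : ∀ n i, (X : B⟦X⟧) ^ n ∣ x i - u n i := by
    intro n i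
    refine X_pow_dvd_iff.2 fun k hk => ?_
    obtain ⟨c, rfl⟩ := Nat.exists_eq_add_of_lt hk
    have := X_pow_dvd_iff.1 (h2 (k + 1) c i) k (Nat.lt_succ_self k)
    rw [map_sub] at this ⊢
    rw [coeff_mk, show k + c + 1 = k + 1 + c by ring]
    linear_combination -this
  refine ⟨x, funext fun i => sub_eq_zero.1 (ps_haus _ fun n => ?_)⟩
  have := dvd_sub (hT n _ _ (h3 n) i) (h3 (n + 1) i)
  rw [← hu, sub_sub_sub_cancel_right] at this
  exact (pow_dvd_pow X n.le_succ).trans this

theorem exists_NF {B : Type} [CommRing B] (t : Fin d → Fin d → B⟦X⟧)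
    (ht : ∀ j k, j ≠ k → X ∣ t j k) : ∃ w ξ, NF t w ξ := by
  classical
  let o : (Seq d × Option (Fin d) → B⟦X⟧) → Seq d → Fin d → B⟦X⟧ := fun z s j =>
    t j (s 0) * (z (sh s, some j) + z (s, none) * z (s, some j))
  let v : (Seq d × Option (Fin d) → B⟦X⟧) → Seq d → Fin d → B⟦X⟧ := fun z s j =>
    if j = s 0 then 1 - ∑ j ∈ univ.erase (s 0), o z s j else o z s j
  let T : (Seq d × Option (Fin d) → B⟦X⟧) → Seq d × Option (Fin d) → B⟦X⟧ := fun z i =>
    i.2.elim (-v z (sh i.1) (i.1 0) + z (i.1, none) * ∑ j ∈ univ.erase (i.1 0), o z i.1 j)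
      (v z i.1)
  obtain ⟨z, hz⟩ := exists_fixed T (by
    intro n x y h
    have h1 : ∀ s j, j ≠ s 0 → (X : B⟦X⟧) ^ (n + 1) ∣ o x s j - o y s j := by
      intro s j hj
      have : o x s j - o y s j = t j (s 0) * ((x (sh s, some j) - y (sh s, some j)) +
          x (s, none) * (x (s, some j) - y (s, some j)) +
          (x (s, none) - y (s, none)) * y (s, some j)) := by simp only [o]; ring
      rw [this, pow_succ']
      exact mul_dvd_mul (ht _ _ hj) (dvd_add (dvd_add (h _) ((h _).mul_left _))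
        ((h _).mul_right _))
    have h1' : ∀ s, (X : B⟦X⟧) ^ (n + 1) ∣
        ∑ j ∈ univ.erase (s 0), o x s j - ∑ j ∈ univ.erase (s 0), o y s j := fun s => by
      rw [← sum_sub_distrib]; exact dvd_sum fun j hj => h1 s j (ne_of_mem_erase hj)
    have h2 : ∀ s j, (X : B⟦X⟧) ^ (n + 1) ∣ v x s j - v y s j := by
      intro s j
      simp only [v]
      split_ifs with hj
      · rw [sub_sub_sub_cancel_left, ← neg_sub, dvd_neg]; exact h1' s
      · exact h1 s j hj
    rintro ⟨s, _ | j⟩
    · have h3 : X ∣ ∑ j ∈ univ.erase (s 0), o y s j := dvd_sum fun j hj =>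
        (ht _ _ (ne_of_mem_erase hj)).mul_right _
      have : T x (s, none) - T y (s, none) = -(v x (sh s) (s 0) - v y (sh s) (s 0)) +
          x (s, none) * (∑ j ∈ univ.erase (s 0), o x s j - ∑ j ∈ univ.erase (s 0), o y s j) +
          (x (s, none) - y (s, none)) * ∑ j ∈ univ.erase (s 0), o y s j := by
        simp only [T, Option.elim]; ring
      rw [this]
      refine dvd_add (dvd_add (dvd_neg.2 (h2 _ _)) ((h1' s).mul_left _)) ?_
      rw [pow_succ]; exact mul_dvd_mul (h _) h3
    · exact h2 s j)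
  have e1 : ∀ s j, z (s, some j) = v z s j := fun s j => (congrFun hz (s, some j)).symm
  have e2 : ∀ s j, j ≠ s 0 → z (s, some j) = o z s j := fun s j hj => by
    rw [e1]; simp only [v, if_neg hj]
  have e3 : ∀ s, z (s, some (s 0)) = 1 - ∑ j ∈ univ.erase (s 0), o z s j := fun s => by
    rw [e1]; simp only [v, if_true]
  refine ⟨fun s j => z (s, some j), fun s => z (s, none), fun s j hj => e2 s j hj, fun s => ?_,
    fun s => ?_⟩
  · rw [← add_sum_erase _ _ (mem_univ (s 0)), e3,
      sum_congr rfl fun j hj => e2 s j (ne_of_mem_erase hj)]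
    ring
  · have := congrFun hz (s, none)
    simp only [T, Option.elim] at this
    rw [← e1] at this
    rw [e3]
    linear_combination -this

end Pool.Agent.MP_9b2bac_nt.Z
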