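import Mathlib
import Pool.Agent.MP_9b2bac_nt.ZSer

/- Periodic solutions in a valued field are classified by their words. -/

set_option autoImplicit false

namespace Pool.Agent.MP_9b2bac_nt.Z

open Finset

variable {d : ℕ}

/-- The system. -/
structure Sys {C : Type} [CommRing C] (lam : Fin d → C) (ε : C) (x : ℤ → C)
    (w : ℤ → Fin d → C) : Prop where
  step : ∀ i j, ε * w (i + 1) j = (lam j - x i) * w i j
  sum : ∀ i, ∑ j, w i j = 1

theorem Sys.map {C C' : Type} [CommRing C] [CommRing C'] (f : C →+* C') {lam : Fin d → C}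
    {ε : C} {x : ℤ → C} {w : ℤ → Fin d → C} (h : Sys lam ε x w) :
    Sys (fun j => f (lam j)) (f ε) (fun i => f (x i)) (fun i j => f (w i j)) where
  step i j := by simpa using congrArg f (h.step i j)
  sum i := by rw [← map_sum, h.sum, map_one]

theorem zper {α : Type} {n : ℕ} {f : ℤ → α} (h : ∀ i, f (i + n) = f i) (i k : ℤ) :
    f (i + k * n) = f i := by
  induction k using Int.induction_on with
  | zero => simp
  | succ k ih => rw [show i + ((k : ℤ) + 1) * n = i + k * n + n by ring, h, ih]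
  | pred k ih => rw [← h, show i + (-(k : ℤ) - 1) * n + n = i + -k * n by ring, ih]

theorem exists_max_per {α β : Type} [LinearOrder α] [Finite β] [Nonempty β] {n : ℕ} (hn : 0 < n)
    (f : ℤ → β → α) (h : ∀ i, f (i + n) = f i) : ∃ i₀ j₀, ∀ i j, f i j ≤ f i₀ j₀ := by
  haveI : Nonempty (Fin n) := ⟨⟨0, hn⟩⟩
  obtain ⟨⟨a, b⟩, hab⟩ := Finite.exists_max fun p : Fin n × β => f (p.1 : ℕ) p.2
  refine ⟨(a : ℕ), b, fun i j => ?_⟩
  have hn' : (0 : ℤ) < n := by exact_mod_cast hn
  have h0 := Int.emod_nonneg i hn'.ne'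
  have h1 := Int.emod_lt_of_pos i hn'
  have := hab (⟨(i % n).toNat, by omega⟩, j)
  simp only [Int.toNat_of_nonneg h0] at this
  rwa [← zper h (i % n) (i / n), Int.emod_add_ediv_mul] at this

section val

variable {Ω Γ : Type} [Field Ω] [LinearOrderedCommGroupWithZero Γ] (v : Valuation Ω Γ)
  {lam : Fin d → Ω} {ε : Ω} {n : ℕ}

theorem eq_zero_of_le_mul {a e : Γ} (he : e < 1) (h : a ≤ e * a) : a = 0 := by
  by_contra ha
  exact absurd h (not_le.2 (mul_lt_of_lt_one_left (zero_lt_iff.2 ha) he))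

theorem far_one (hl : ∀ j k, j ≠ k → v (lam j - lam k) = 1) {y : Ω} {a j : Fin d}
    (ha : v (lam a - y) < 1) (hj : j ≠ a) : v (lam j - y) = 1 := by
  rw [show lam j - y = (lam j - lam a) + (lam a - y) by ring,
    v.map_add_eq_of_lt_left (by rw [hl j a hj]; exact ha), hl j a hj]

theorem Sys.far {x : ℤ → Ω} {w : ℤ → Fin d → Ω} (h : Sys lam ε x w) {i : ℤ} {j : Fin d}
    (hj : 1 ≤ v (lam j - x i)) : v (w i j) ≤ v ε * v (w (i + 1) j) := by
  rw [← v.map_mul, h.step, v.map_mul]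
  exact le_mul_of_one_le_left zero_le hj

theorem Sys.exists_word (hε : v ε < 1) (hl : ∀ j k, j ≠ k → v (lam j - lam k) = 1) (hn : 0 < n)
    {x : ℤ → Ω} {w : ℤ → Fin d → Ω} (h : Sys lam ε x w) (hw : ∀ i, w (i + n) = w i) :
    (∀ i j, v (w i j) ≤ 1) ∧ ∃ s : Seq d, ∀ i, v (lam (s i) - x i) < 1 := by
  classical
  have hne : Nonempty (Fin d) := by
    by_contra hc
    have := h.sum 0
    rw [not_nonempty_iff] at hc
    simp at this
  obtain ⟨i₀, j₀, hm⟩ := exists_max_per hn (fun i j => v (w i j)) fun i => by simp only [hw]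
  have hle : ∀ i j, v (w i j) ≤ 1 := by
    by_contra hc
    push Not at hc
    obtain ⟨i, j, hij⟩ := hc
    have h1 : 1 < v (w i₀ j₀) := hij.trans_le (hm i j)
    have h0 : v (w i₀ j₀) ≠ 0 := (zero_lt_one.trans h1).ne'
    have hf : ∀ j, 1 ≤ v (lam j - x i₀) → v (w i₀ j) < v (w i₀ j₀) := fun j hj =>
      (h.far v hj).trans_lt ((mul_le_mul_right (hm _ _) _).trans_lt
        (mul_lt_of_lt_one_left (zero_lt_iff.2 h0) hε))
    have hn0 : v (lam j₀ - x i₀) < 1 := by
      by_contra hc; exact lt_irrefl _ (hf j₀ (not_lt.1 hc))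
    have h2 : v (∑ j ∈ univ.erase j₀, w i₀ j) < v (w i₀ j₀) :=
      v.map_sum_lt h0 fun j hj => hf j (far_one v hl hn0 (ne_of_mem_erase hj)).ge
    have h3 := v.map_add_eq_of_lt_left h2
    rw [add_sum_erase _ _ (mem_univ j₀), h.sum, v.map_one] at h3
    exact h1.ne h3
  refine ⟨hle, ?_⟩
  have : ∀ i, ∃ a, v (lam a - x i) < 1 := by
    intro i
    by_contra hc
    push Not at hc
    have h2 : v (∑ j, w i j) < 1 := v.map_sum_lt one_ne_zero fun j _ =>
      (h.far v (hc j)).trans_lt ((mul_le_of_le_one_right' (hle _ _)).trans_lt hε)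
    rw [h.sum, v.map_one] at h2
    exact lt_irrefl _ h2
  choose s hs using this
  exact ⟨s, hs⟩

theorem Sys.near_one (hε : v ε < 1) (hl : ∀ j k, j ≠ k → v (lam j - lam k) = 1)
    {x : ℤ → Ω} {w : ℤ → Fin d → Ω} (h : Sys lam ε x w) (hle : ∀ i j, v (w i j) ≤ 1)
    {i : ℤ} {a : Fin d} (ha : v (lam a - x i) < 1) : v (w i a) = 1 := by
  classical
  have h2 : v (∑ j ∈ univ.erase a, w i j) < 1 := v.map_sum_lt one_ne_zero fun j hj =>
    (h.far v (far_one v hl ha (ne_of_mem_erase hj)).ge).trans_lt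
      ((mul_le_of_le_one_right' (hle _ _)).trans_lt hε)
  have h3 : w i a = 1 + -∑ j ∈ univ.erase a, w i j := by
    rw [← h.sum i, ← add_sum_erase _ _ (mem_univ a)]; ring
  rw [h3, v.map_add_eq_of_lt_left (by rwa [v.map_neg, v.map_one]), v.map_one]

theorem Sys.unique (hε : v ε < 1) (hl : ∀ j k, j ≠ k → v (lam j - lam k) = 1) (hn : 0 < n)
    {x x' : ℤ → Ω} {w w' : ℤ → Fin d → Ω} (h : Sys lam ε x w) (h' : Sys lam ε x' w')
    (hw : ∀ i, w (i + n) = w i) (hw' : ∀ i, w' (i + n) = w' i) {s : Seq d}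
    (hs : ∀ i, v (lam (s i) - x i) < 1) (hs' : ∀ i, v (lam (s i) - x' i) < 1) :
    x = x' ∧ w = w' := by
  classical
  haveI : Nonempty (Fin d) := ⟨s 0⟩
  have hle' := (h'.exists_word v hε hl hn hw').1
  obtain ⟨i₀, j₀, hm⟩ := exists_max_per hn (fun i j => v (w i j - w' i j))
    fun i => by simp only [hw, hw']
  set D := v (w i₀ j₀ - w' i₀ j₀) with hD
  have e : ∀ i j, (x i - x' i) * w' i j = (lam j - x i) * (w i j - w' i j) -
      ε * (w (i + 1) j - w' (i + 1) j) := fun i j => by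
    linear_combination h.step i j - h'.step i j
  have hx : ∀ i, v (x i - x' i) ≤ D := fun i => by
    have := congrArg v (e i (s i))
    rw [v.map_mul, h'.near_one v hε hl hle' (hs' i), mul_one] at this
    rw [this]
    refine v.map_sub_le ?_ ?_ <;> rw [v.map_mul]
    · exact (mul_le_of_le_one_left' (hs i).le).trans (hm _ _)
    · exact (mul_le_of_le_one_left' hε.le).trans (hm _ _)
  have h1 : ∀ i j, j ≠ s i → v (w i j - w' i j) ≤ v ε * D := fun i j hj => by
    have e2 : (lam j - x i) * (w i j - w' i j) =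
        (x i - x' i) * w' i j + ε * (w (i + 1) j - w' (i + 1) j) := by rw [e]; ring
    have := congrArg v e2
    rw [v.map_mul, far_one v hl (hs i) hj, one_mul] at this
    rw [this]
    refine v.map_add_le ?_ ?_ <;> rw [v.map_mul]
    · rw [mul_comm]
      exact mul_le_mul' ((h'.far v (far_one v hl (hs' i) hj).ge).trans
        (mul_le_of_le_one_right' (hle' _ _))) (hx i)
    · exact mul_le_mul_right (hm _ _) _
  have h2 : ∀ i j, v (w i j - w' i j) ≤ v ε * D := fun i j => by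
    by_cases hj : j = s i
    · have : w i j - w' i j = -∑ k ∈ univ.erase j, (w i k - w' i k) := by
        have h3 := h.sum i
        have h4 := h'.sum i
        rw [← add_sum_erase _ _ (mem_univ j)] at h3 h4
        rw [sum_sub_distrib]; linear_combination h3 - h4
      rw [this, v.map_neg]
      exact v.map_sum_le fun k hk => h1 i k (hj ▸ ne_of_mem_erase hk)
    · exact h1 i j hj
  have hD0 : D = 0 := eq_zero_of_le_mul hε (h2 i₀ j₀)
  refine ⟨funext fun i => sub_eq_zero.1 (v.zero_iff.1 (le_zero_iff.1 (hD0 ▸ hx i))),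
    funext fun i => funext fun j => sub_eq_zero.1 (v.zero_iff.1 (le_zero_iff.1 (hD0 ▸ hm i j)))⟩

theorem Sys.surj (hε : v ε < 1) (hl : ∀ j k, j ≠ k → v (lam j - lam k) = 1) (hn : 0 < n)
    {x : ℤ → Ω} {w : ℤ → Fin d → Ω} (h : Sys lam ε x w) (hw : ∀ i, w (i + n) = w i) {s : Seq d}
    (hs : ∀ i, v (lam (s i) - x i) < 1) (hne : ∀ j, ∃ i, w i j ≠ 0) : Function.Surjective s := by
  intro j
  by_contra hc
  push Not at hc
  obtain ⟨i₀, _, hm⟩ := exists_max_per (β := Unit) hn (fun i _ => v (w i j))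
    fun i => by simp only [hw]
  have h0 : v (w i₀ j) = 0 := eq_zero_of_le_mul hε
    ((h.far v (far_one v hl (hs i₀) (hc i₀).symm).ge).trans (mul_le_mul_right (hm _ ()) _))
  obtain ⟨i, hi⟩ := hne j
  exact hi (v.zero_iff.1 (le_zero_iff.1 (h0 ▸ hm i ())))

theorem word_per (hl : ∀ j k, j ≠ k → v (lam j - lam k) = 1) {x : ℤ → Ω}
    (hx : ∀ i, x (i + n) = x i) {s : Seq d} (hs : ∀ i, v (lam (s i) - x i) < 1) (i : ℤ) :
    s (i + n) = s i := by
  by_contra hc
  have := hs (i + n)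
  rw [hx, far_one v hl (hs i) hc] at this
  exact lt_irrefl _ this

end val

end Pool.Agent.MP_9b2bac_nt.Z
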