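import Mathlib
import Pool.Agent.MP_9b2bac_nt.ZClass
import Pool.Agent.MP_9b2bac_nt.Carlitz

/- A Frobenius orbit solving the system gives a small prime factor. -/

set_option autoImplicit false

namespace Pool.Agent.MP_9b2bac_nt.Z

open Finset Polynomial

variable {d : ℕ} {F k : Type} [Field F] [Fintype F] [Field k] [Algebra F k]

theorem sys_root {lam : Fin d → k} {ε : k} (hε : ε ≠ 0) (hq : ε ^ Fintype.card F = ε) {x : ℤ → k}
    {w : ℤ → Fin d → k} (h : Sys lam ε x w) (hx : ∀ i, x i ^ Fintype.card F = x (i + 1))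
    {P : F[X]} (hP : ∀ j, aeval (ε⁻¹ * lam j) P = 0) : carlitz (ε⁻¹ * x 0) P 1 = 0 := by
  let Y : ℕ → ℤ → k := fun m i => ∑ j, (ε⁻¹ * lam j) ^ m * w i j
  have h0 : ∀ i, Y 0 i = 1 := fun i => by simp [Y, h.sum]
  have h1 : ∀ m i, Y (m + 1) i = ε⁻¹ * x i * Y m i + Y m (i + 1) := fun m i => by
    simp only [Y, mul_sum, ← sum_add_distrib]
    refine sum_congr rfl fun j _ => ?_
    have : w (i + 1) j = ε⁻¹ * ((lam j - x i) * w i j) := by
      rw [← h.step, inv_mul_cancel_left₀ hε]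
    rw [this]; ring
  have h2 : ∀ m i, Y m i ^ Fintype.card F = Y m (i + 1) := fun m => by
    induction m with
    | zero => simp [h0]
    | succ m ih =>
      intro i
      have := map_add (FiniteField.frobeniusAlgHom F k) (ε⁻¹ * x i * Y m i) (Y m (i + 1))
      simp only [FiniteField.coe_frobeniusAlgHom] at this
      rw [h1, this, mul_pow, mul_pow, inv_pow, hq, hx, ih, ih, h1]
  have h3 : ∀ m, (fun y => ε⁻¹ * x 0 * y + y ^ Fintype.card F)^[m] 1 = Y m 0 := fun m => by
    induction m with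
    | zero => simp [h0]
    | succ m ih => rw [Function.iterate_succ_apply', ih, h2, h1]
  simp only [carlitz, h3, Y, Polynomial.sum, smul_sum]
  rw [sum_comm]
  refine sum_eq_zero fun j _ => ?_
  have := hP j
  rw [aeval_def, eval₂_eq_sum, Polynomial.sum] at this
  simp only [Algebra.smul_def, ← mul_assoc]
  rw [← sum_mul, this, zero_mul]

theorem deg_one (hq : 2 < Fintype.card F) {P : F[X]} (hP : P.Monic) (hd : P.natDegree = d + 1) :
    (carlitz X P (1 : F[X])).natDegree = Fintype.card F ^ d := by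
  have h1 : P.divX.natDegree = d := by rw [natDegree_divX_eq_natDegree_tsub_one, hd]; rfl
  have h2 : P.divX.Monic := by
    rw [Monic, leadingCoeff, h1, coeff_divX, ← hd]; exact hP
  have h3 : carlitz X (X : F[X]) (1 : F[X]) = X + C 1 := by
    simpa [carlitz_one] using carlitz_X_mul (X : F[X]) (1 : F[X]) 1
  have h4 := (carlitz_degree (θ := X) (x := X + C (1 : F)) (X_add_C_ne_zero 1)
    (by rw [natDegree_X_add_C, natDegree_X]; omega) h2).1
  rw [← divX_mul_X_add P, carlitz_add, carlitz_mul, h3, carlitz_C, smul_eq_C_mul, mul_one,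
    natDegree_add_C, h4, h1, natDegree_X_add_C, mul_one]

/-- `C_P(1)` is composite with a prime factor of degree at most `N`. -/
def Sm (N : ℕ) (P : F[X]) : Prop := ∃ Q M : F[X], Irreducible Q ∧ Q.natDegree ≤ N ∧
  0 < M.natDegree ∧ carlitz X P 1 = Q * M

theorem Sm.mono {N N' : ℕ} {P : F[X]} (h : Sm N P) (hN : N ≤ N') : Sm N' P :=
  let ⟨Q, M, h1, h2, h3⟩ := h; ⟨Q, M, h1, h2.trans hN, h3⟩

theorem sm_of_root (hq : 2 < Fintype.card F) {P : F[X]} (hP : P.Monic) (hd : 2 ≤ P.natDegree)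
    {n N : ℕ} (hn : 0 < n) (hN : n ≤ N) (hN' : N < Fintype.card F) {θ : k}
    (hθ : θ ^ Fintype.card F ^ n = θ) (h : carlitz θ P 1 = 0) : Sm N P := by
  have h1 : aeval θ (X ^ Nat.card F ^ n - X : F[X]) = 0 := by simp [hθ]
  have hi : IsIntegral F θ := isAlgebraic_iff_isIntegral.1 ⟨_, by
    rw [Nat.card_eq_fintype_card]
    exact FiniteField.X_pow_card_pow_sub_X_ne_zero F hn.ne' (by omega), h1⟩
  have h2 := Nat.le_of_dvd hn
    ((minpoly.irreducible hi).natDegree_dvd_of_dvd_X_pow_card_pow_sub_X (minpoly.dvd F θ h1))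
  obtain ⟨M, hM⟩ := minpoly.dvd F θ (p := carlitz X P 1) (by rw [map_carlitz]; simpa using h)
  refine ⟨_, M, minpoly.irreducible hi, h2.trans hN, Nat.pos_of_ne_zero fun h0 => ?_, hM⟩
  obtain ⟨e, he⟩ := Nat.exists_eq_add_of_le' hd
  have h3 := deg_one hq hP (d := e + 1) he
  have h4 := natDegree_mul_le (p := minpoly F θ) (q := M)
  have h5 : Fintype.card F ≤ Fintype.card F ^ (e + 1) := Nat.le_self_pow (by omega) _
  rw [← hM] at h4
  omega

end Pool.Agent.MP_9b2bac_nt.Z
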