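import Mathlib
import Pool.Agent.MP_9b2bac_nt.ZRoot

/- A root of `C_P(1)` gives a periodic solution of the system. -/

set_option autoImplicit false

namespace Pool.Agent.MP_9b2bac_nt.Z

open Finset Polynomial

variable {d : ℕ} {F k : Type} [Field F] [Fintype F] [Field k] [Algebra F k]

theorem frob_trans {P : F[X]} (hm : P.Monic) (hi : Irreducible P) {μ : Fin d → k}
    (hμ : Function.Injective μ) (hP : P.map (algebraMap F k) = ∏ j, (X - C (μ j)))
    {π : Equiv.Perm (Fin d)} (hπ : ∀ j, μ j ^ Fintype.card F = μ (π j)) (j j' : Fin d) :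
    ∃ m : ℕ, π^[m] j = j' := by
  have h1 : ∀ j, (P.map (algebraMap F k)).eval (μ j) = 0 := fun j => by
    rw [hP, eval_prod]; exact prod_eq_zero (mem_univ j) (by simp)
  have h2 := h1 j'
  rw [map_eq_prod hm hi (z := μ j) (by rw [← eval_map_algebraMap, h1]), eval_prod,
    prod_eq_zero_iff] at h2
  obtain ⟨m, -, h2⟩ := h2
  refine ⟨m, hμ ?_⟩
  have : ∀ m : ℕ, μ (π^[m] j) = μ j ^ Fintype.card F ^ m := fun m => by
    induction m with
    | zero => simp
    | succ m ih => rw [Function.iterate_succ_apply', ← hπ, ih, ← pow_mul, pow_succ]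
  rw [this]
  simpa [sub_eq_zero, eq_comm] using h2

theorem root_sys [Algebra.IsAlgebraic F k] {P : F[X]} (hm : P.Monic) (hi : Irreducible P)
    {μ : Fin d → k} (hμ : Function.Injective μ) (hP : P.map (algebraMap F k) = ∏ j, (X - C (μ j)))
    {π : Equiv.Perm (Fin d)} (hπ : ∀ j, μ j ^ Fintype.card F = μ (π j)) {θ : k} {n : ℕ}
    (hθ : θ ^ Fintype.card F ^ n = θ) (h : carlitz θ P 1 = 0) :
    ∃ (x : ℤ → k) (w : ℤ → Fin d → k), Sys μ 1 x w ∧ x 0 = θ ∧ (∀ i, w (i + n) = w i) ∧
      (∀ j, ∃ i, w i j ≠ 0) ∧ ∀ j, w 0 j ^ Fintype.card F = w 1 (π j) := by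
  classical
  let Φ := FiniteField.frobeniusAlgEquivOfAlgebraic F k
  have hΦ : ∀ y, Φ y = y ^ Fintype.card F := fun _ => rfl
  let ev : ℤ → k[X] →ₗ[k] k := fun i =>
    lsum fun m => LinearMap.smulRight LinearMap.id ((Φ ^ i) ((lin F θ ^ m) 1))
  have e0 : ∀ i m c, ev i (monomial m c) = c * (Φ ^ i) ((lin F θ ^ m) 1) := fun i m c => by
    simp [ev, lsum_apply, sum_monomial_index]
  have e1 : ∀ i R, ev i (X * R) = (Φ ^ i) θ * ev i R + ev (i + 1) R := fun i R => by
    induction R using Polynomial.induction_on' with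
    | add p q hp hq => simp only [mul_add, map_add, hp, hq]; ring
    | monomial m c =>
      rw [X_mul_monomial, e0, e0, e0, pow_succ', Module.End.mul_apply, lin_apply, ← hΦ, map_add,
        map_mul, zpow_add_one, AlgEquiv.mul_apply]
      ring
  have e2 : ∀ i R, Φ (ev i R) = ev (i + 1) (R.map (Φ : k →+* k)) := fun i R => by
    induction R using Polynomial.induction_on' with
    | add p q hp hq => simp only [Polynomial.map_add, map_add, hp, hq]
    | monomial m c =>
      rw [map_monomial, e0, e0, map_mul, add_comm, zpow_one_add, AlgEquiv.mul_apply]; rfl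
  have e3 : ∀ i (R : F[X]), ev i (R.map (algebraMap F k)) = (Φ ^ i) (carlitz θ R 1) := fun i R => by
    induction R using Polynomial.induction_on' with
    | add p q hp hq => simp only [Polynomial.map_add, map_add, hp, hq, carlitz_add]
    | monomial m c =>
      rw [map_monomial, e0, carlitz_eq, aeval_monomial, Module.End.mul_apply,
        Module.algebraMap_end_apply, map_smul, Algebra.smul_def]
  have e4 : ∀ m, (Φ ^ n) ((lin F θ ^ m) 1) = (lin F θ ^ m) 1 := fun m => by
    have : (Φ ^ n) θ = θ := by
      rw [AlgEquiv.coe_pow, FiniteField.coe_frobeniusAlgEquivOfAlgebraic_iterate]; exact hθ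
    induction m with
    | zero => simp
    | succ m ih => rw [pow_succ', Module.End.mul_apply, lin_apply, map_add, map_mul, map_pow, ih, this]
  have e5 : ∀ i j, ev i (Lagrange.basis univ μ j) ^ Fintype.card F =
      ev (i + 1) (Lagrange.basis univ μ (π j)) := fun i j => by
    rw [← hΦ, e2, Lagrange.basis, Lagrange.basis, Polynomial.map_prod]
    congr 1
    refine prod_equiv π (by simp) fun l _ => ?_
    simp [Lagrange.basisDivisor, ← hΦ, ← hπ]
  have hs : ∀ i, ∑ j, ev i (Lagrange.basis univ μ j) = 1 := fun i => by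
    have : (univ : Finset (Fin d)).Nonempty := by
      by_contra hc
      rw [not_nonempty_iff_eq_empty.1 hc, prod_empty, ← Polynomial.map_one (algebraMap F k)] at hP
      exact hi.ne_one (map_injective _ (algebraMap F k).injective hP)
    rw [← map_sum, Lagrange.sum_basis hμ.injOn this, ← monomial_zero_one, e0]; simp
  refine ⟨fun i => (Φ ^ i) θ, fun i j => ev i (Lagrange.basis univ μ j), ⟨fun i j => ?_, hs⟩,
    by simp, fun i => funext fun j => ?_, fun j => ?_, fun j => e5 0 j⟩
  · have h1 : X * Lagrange.basis univ μ j = μ j • Lagrange.basis univ μ j +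
        Lagrange.nodalWeight univ μ j • P.map (algebraMap F k) := by
      rw [hP, ← Lagrange.nodal_eq, Lagrange.nodal_eq_mul_nodal_erase (mem_univ j),
        Lagrange.basis_eq_prod_sub_inv_mul_nodal_div (mem_univ j),
        ← Lagrange.nodal_erase_eq_nodal_div (mem_univ j), smul_eq_C_mul, smul_eq_C_mul]
      ring
    have h2 := e1 i (Lagrange.basis univ μ j)
    rw [h1, map_add, map_smul, map_smul, e3, h, map_zero, smul_zero, add_zero, smul_eq_mul] at h2
    linear_combination -h2
  · simp only [ev, zpow_add, zpow_natCast, AlgEquiv.mul_apply, e4]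
  · by_contra hc
    push Not at hc
    have h1 : ∀ (m : ℕ) i, ev i (Lagrange.basis univ μ (π^[m] j)) = 0 := fun m => by
      induction m with
      | zero => exact hc
      | succ m ih =>
        intro i
        rw [Function.iterate_succ_apply', ← sub_add_cancel i 1, ← e5, ih,
          zero_pow Fintype.card_ne_zero]
    have h2 := hs 0
    rw [sum_eq_zero fun j' _ => by
      obtain ⟨m, rfl⟩ := frob_trans hm hi hμ hP hπ j j'; exact h1 m 0] at h2
    exact zero_ne_one h2

end Pool.Agent.MP_9b2bac_nt.Z
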