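import Mathlib
import Pool.Agent.MP_9b2bac_nt.ZClass

/- The ring generated by the solutions. -/

set_option autoImplicit false

namespace Pool.Agent.MP_9b2bac_nt.Z

open Finset

variable {d : ℕ}

/-- Shift by `i`. -/
def shf (s : Seq d) (i : ℤ) : Seq d := fun k => s (k + i)

theorem sh_shf (s : Seq d) (i : ℤ) : sh (shf s i) = shf s (i + 1) :=
  funext fun k => congrArg s (by ring)

@[simp] theorem shf_apply_zero (s : Seq d) (i : ℤ) : shf s i 0 = s i := by simp [shf]

@[simp] theorem shf_zero (s : Seq d) : shf s 0 = s := funext fun k => by simp [shf]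

theorem shf_per {n : ℕ} {s : Seq d} (h : Per n s) (i : ℤ) : shf s (i + n) = shf s i :=
  funext fun k => by simp only [shf]; rw [← add_assoc, h.2.1]

theorem shW_zpow {I : Finset ℕ} (s : W d I) (i : ℤ) : ((shW d I ^ i) s).1 = shf s.1 i := by
  induction i using Int.induction_on with
  | zero => simp
  | succ k ih => rw [add_comm, zpow_one_add, Equiv.Perm.mul_apply, shW_val, ih, sh_shf, add_comm]
  | pred k ih =>
    have : (shW d I ^ (-(k : ℤ))) s = shW d I ((shW d I ^ (-(k : ℤ) - 1)) s) := by
      rw [← Equiv.Perm.mul_apply, ← zpow_one_add, add_sub_cancel]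
    rw [this, shW_val] at ih
    funext x
    have := congrFun ih (x - 1)
    simp only [sh, shf, sub_add_cancel] at this ⊢
    rw [this]; exact congrArg s.1 (by ring)

theorem NF.sys {C : Type} [CommRing C] {t : Fin d → Fin d → C} {w : Seq d → Fin d → C}
    {ξ : Seq d → C} (h : NF t w ξ) {lam : Fin d → C} {ε : C}
    (ht : ∀ j k, j ≠ k → (lam j - lam k) * t j k = ε) (s : Seq d) :
    Sys lam ε (fun i => lam (s i) + ε * ξ (shf s i)) (fun i => w (shf s i)) where
  step i j := by
    rw [← sh_shf]
    by_cases hj : j = s i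
    · have := h.diag (shf s i)
      rw [shf_apply_zero, ← hj] at this
      rw [← hj]; linear_combination ε * this
    · have := h.off (shf s i) j (by simpa using hj)
      rw [shf_apply_zero] at this
      linear_combination (-(lam j - lam (s i))) * this -
        (w (sh (shf s i)) j + ξ (shf s i) * w (shf s i) j) * ht j (s i) hj
  sum i := h.sum _

theorem Sys.x_eq {C : Type} [CommRing C] {lam : Fin d → C} {ε : C} {x : ℤ → C}
    {w : ℤ → Fin d → C} (h : Sys lam ε x w) (i : ℤ) : x i = ∑ j, lam j * w i j - ε := by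
  have h1 : ∑ j, ε * w (i + 1) j = ∑ j, (lam j - x i) * w i j := sum_congr rfl fun j _ => h.step i j
  simp only [sub_mul, sum_sub_distrib, ← mul_sum, h.sum] at h1
  linear_combination h1

theorem NF.const {B : Type} [CommRing B] {t : Fin d → Fin d → PowerSeries B}
    (ht : ∀ j k, j ≠ k → PowerSeries.X ∣ t j k) {w : Seq d → Fin d → PowerSeries B}
    {ξ : Seq d → PowerSeries B} (h : NF t w ξ) (s : Seq d) (j : Fin d) :
    PowerSeries.constantCoeff (w s j) = if j = s 0 then 1 else 0 := by
  have h1 : ∀ j, j ≠ s 0 → PowerSeries.constantCoeff (w s j) = 0 := fun j hj => by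
    rw [h.off s j hj, map_mul, PowerSeries.X_dvd_iff.1 (ht _ _ hj), zero_mul]
  split_ifs with hj
  · rw [hj, h.diag_eq, map_sub, map_sum, sum_eq_zero fun j hj => h1 j (ne_of_mem_erase hj)]
    simp
  · exact h1 j hj

variable {A : Type} [CommRing A] [IsDomain A]

variable (A) in
/-- Generic roots. -/
abbrev AA (d : ℕ) := MvPolynomial (Fin d) A

variable (A) in
/-- The discriminant. -/
noncomputable def Dl (d : ℕ) : AA A d :=
  ∏ p ∈ (univ : Finset (Fin d)).offDiag, (MvPolynomial.X p.1 - MvPolynomial.X p.2)

theorem Dl_ne : Dl A d ≠ 0 := prod_ne_zero_iff.2 fun p hp =>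
  sub_ne_zero.2 fun h => (mem_offDiag.1 hp).2.2 (MvPolynomial.X_injective h)

variable (A) in
/-- The coefficient ring. -/
abbrev BB (d : ℕ) := Localization.Away (Dl A d)

instance : IsDomain (BB A d) :=
  IsLocalization.isDomain_localization (powers_le_nonZeroDivisors_of_noZeroDivisors Dl_ne)

theorem AB_inj : Function.Injective (algebraMap (AA A d) (BB A d)) :=
  IsLocalization.injective _ (powers_le_nonZeroDivisors_of_noZeroDivisors Dl_ne)

theorem dvd_Dl {j k : Fin d} (h : j ≠ k) : MvPolynomial.X j - MvPolynomial.X k ∣ Dl A d :=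
  dvd_prod_of_mem (fun p : Fin d × Fin d => (MvPolynomial.X p.1 - MvPolynomial.X p.2 : AA A d))
    (a := (j, k)) (mem_offDiag.2 ⟨mem_univ _, mem_univ _, h⟩)

variable (A) in
/-- The roots in the coefficient ring. -/
noncomputable def lB (j : Fin d) : BB A d := algebraMap (AA A d) (BB A d) (MvPolynomial.X j)

theorem lB_unit {j k : Fin d} (h : j ≠ k) : IsUnit (lB A j - lB A k : BB A d) := by
  rw [lB, lB, ← map_sub]
  exact isUnit_of_dvd_unit (map_dvd _ (dvd_Dl h)) (IsLocalization.Away.algebraMap_isUnit _)

variable (A) in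
/-- The coefficients of the normal form. -/
noncomputable def t0 (j k : Fin d) : PowerSeries (BB A d) :=
  PowerSeries.X * PowerSeries.C (Ring.inverse (lB A j - lB A k))

variable (A) in
theorem t0_dvd (j k : Fin d) (_ : j ≠ k) : PowerSeries.X ∣ t0 A j k := Dvd.intro _ rfl

variable (A) in
theorem t0_spec (j k : Fin d) (h : j ≠ k) :
    (PowerSeries.C (lB A j) - PowerSeries.C (lB A k)) * t0 A j k = PowerSeries.X := by
  rw [t0, mul_left_comm, ← map_sub, ← map_mul, Ring.mul_inverse_cancel _ (lB_unit h)]; simp

variable (A) in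
/-- The generic solution. -/
noncomputable def w0 : Seq d → Fin d → PowerSeries (BB A d) := (exists_NF (t0 A) (t0_dvd A)).choose

variable (A) in
/-- The generic solution. -/
noncomputable def xi0 : Seq d → PowerSeries (BB A d) := (exists_NF (t0 A) (t0_dvd A)).choose_spec.choose

variable (A) in
theorem nf0 : NF (t0 A) (w0 A (d := d)) (xi0 A) := (exists_NF (t0 A) (t0_dvd A)).choose_spec.choose_spec

variable (A) in
theorem sys0 (s : Seq d) : Sys (fun j => PowerSeries.C (lB A j)) PowerSeries.X
    (fun i => PowerSeries.C (lB A (s i)) + PowerSeries.X * xi0 A (shf s i)) (fun i => w0 A (shf s i)) :=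
  (nf0 A).sys (t0_spec A) s

theorem w0_step {s s' : Seq d} (h : w0 A s = w0 A s') : w0 A (sh s) = w0 A (sh s') := by
  funext j
  have h1 := (sys0 A s).step 0 j
  have h2 := (sys0 A s').step 0 j
  have h3 := (sys0 A s).x_eq 0
  have h4 := (sys0 A s').x_eq 0
  simp only [← sh_shf, shf_zero] at h1 h2 h3 h4
  rw [h3] at h1; rw [h4, ← h, ← h1] at h2
  exact (mul_left_cancel₀ PowerSeries.X_ne_zero h2).symm

theorem w0_zero {s s' : Seq d} (h : w0 A s = w0 A s') : s 0 = s' 0 := by
  have h1 := (nf0 A).const (t0_dvd A) s (s 0)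
  rw [h, (nf0 A).const (t0_dvd A), if_pos rfl] at h1
  by_contra hc
  rw [if_neg hc] at h1
  exact zero_ne_one h1

theorem w0_inj {n n' : ℕ} {s s' : Seq d} (hs : Per n s) (hs' : Per n' s') (h : w0 A s = w0 A s') :
    s = s' := by
  have h1 : ∀ k : ℕ, w0 A (shf s k) = w0 A (shf s' k) := by
    intro k
    induction k with
    | zero => simpa using h
    | succ k ih => simpa only [sh_shf, Nat.cast_succ] using w0_step ih
  funext i
  have hn : (0 : ℤ) < n * n' := by have := hs.1; have := hs'.1; positivity
  have h0 := Int.emod_nonneg i hn.ne'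
  have := w0_zero (h1 (i % (n * n')).toNat)
  rw [shf_apply_zero, shf_apply_zero, Int.toNat_of_nonneg h0] at this
  have e := Int.emod_add_ediv_mul i (n * n')
  rw [← hs.zper _ (i / (n * n') * n'), ← hs'.zper _ (i / (n * n') * n)] at this
  convert this using 2 <;> linarith

variable (A) in
theorem w0_ne {s : Seq d} (hs : Function.Surjective s) (j : Fin d) : ∃ i, w0 A (shf s i) j ≠ 0 := by
  obtain ⟨i, hi⟩ := hs j
  refine ⟨i, fun h => ?_⟩
  have := (nf0 A).const (t0_dvd A) (shf s i) j
  rw [h, if_pos (by simp [hi])] at this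
  simp at this

variable (A) in
/-- The ring generated by the solutions attached to the words of the levels in `I`. -/
noncomputable def RR (d : ℕ) (I : Finset ℕ) :
    Subalgebra (Polynomial (AA A d)) (PowerSeries (BB A d)) :=
  Algebra.adjoin _ (Set.range fun p : W d I × Fin d => w0 A p.1.1 p.2)

variable {I : Finset ℕ}

variable (A) in
/-- The generators. -/
noncomputable def zw (s : W d I) (j : Fin d) : RR A d I :=
  ⟨w0 A s.1 j, Algebra.subset_adjoin ⟨(s, j), rfl⟩⟩

variable (A) in
/-- The roots. -/
noncomputable def lR (I : Finset ℕ) (j : Fin d) : RR A d I :=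
  algebraMap (Polynomial (AA A d)) _ (Polynomial.C (MvPolynomial.X j))

variable (A) in
/-- The scaling variable. -/
noncomputable def eR (d : ℕ) (I : Finset ℕ) : RR A d I :=
  algebraMap (Polynomial (AA A d)) _ Polynomial.X

theorem alg_C (a : AA A d) : algebraMap (Polynomial (AA A d)) (PowerSeries (BB A d)) (Polynomial.C a) =
    PowerSeries.C (algebraMap (AA A d) (BB A d) a) := by
  change Polynomial.coeToPowerSeries.algHom (BB A d) (Polynomial.C a) = _
  simp [Polynomial.coeToPowerSeries.algHom_apply]

theorem alg_X : algebraMap (Polynomial (AA A d)) (PowerSeries (BB A d)) Polynomial.X =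
    PowerSeries.X := by
  change Polynomial.coeToPowerSeries.algHom (BB A d) Polynomial.X = _
  simp [Polynomial.coeToPowerSeries.algHom_apply]

theorem lR_val (j : Fin d) : (lR A I j : PowerSeries (BB A d)) = PowerSeries.C (lB A j) := alg_C _

theorem eR_val : (eR A d I : PowerSeries (BB A d)) = PowerSeries.X := alg_X

theorem zw_inj {s s' : W d I} (h : zw A s = zw A s') : s = s' := by
  obtain ⟨n, -, hn⟩ := s.2
  obtain ⟨n', -, hn'⟩ := s'.2
  exact Subtype.ext (w0_inj hn hn' (funext fun j => congrArg Subtype.val (congrFun h j)))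

variable (A) in
/-- The root coordinate. -/
noncomputable def zx (s : W d I) : RR A d I := ∑ j, lR A I j * zw A s j - eR A d I

theorem zx_val (s : W d I) : (zx A s : PowerSeries (BB A d)) =
    PowerSeries.C (lB A (s.1 0)) + PowerSeries.X * xi0 A s.1 := by
  have := (sys0 A s.1).x_eq 0
  simp only [shf_zero] at this
  rw [this, zx]
  simp [lR_val, eR_val, zw]

variable (A) in
theorem sysR (s : W d I) : Sys (lR A I) (eR A d I) (fun i => zx A ((shW d I ^ i) s))
    (fun i => zw A ((shW d I ^ i) s)) where
  step i j := Subtype.ext (by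
    have := (sys0 A s.1).step i j
    simpa [zx_val, lR_val, eR_val, zw, shW_zpow] using this)
  sum i := Subtype.ext (by
    have := (sys0 A s.1).sum i
    simpa [zw, shW_zpow] using this)

theorem alg_inj : Function.Injective (algebraMap (Polynomial (AA A d)) (PowerSeries (BB A d))) := by
  intro a b h
  change Polynomial.coeToPowerSeries.algHom (BB A d) a =
    Polynomial.coeToPowerSeries.algHom (BB A d) b at h
  rw [Polynomial.coeToPowerSeries.algHom_apply, Polynomial.coeToPowerSeries.algHom_apply] at h
  exact Polynomial.coe_injective _ (PowerSeries.map_injective _ AB_inj h)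

theorem RR_fg : (RR A d I).FG := Subalgebra.fg_def.2 ⟨_, Set.finite_range _, rfl⟩

end Pool.Agent.MP_9b2bac_nt.Z
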