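import Mathlib
import Pool.Agent.MP_9b2bac_nt.ZRing

/- The automorphism group of the ring of solutions permutes the words. -/

set_option autoImplicit false

namespace Pool.Agent.MP_9b2bac_nt.Z

open Finset

variable {d : ℕ} {I : Finset ℕ}
variable {A : Type} [CommRing A] [IsDomain A]

variable (A) in
/-- A big algebraically closed field. -/
abbrev Om (d : ℕ) := AlgebraicClosure (FractionRing (PowerSeries (BB A d)))

variable (A) in
/-- The embedding of the power series. -/
noncomputable abbrev io (d : ℕ) : PowerSeries (BB A d) →+* Om A d := algebraMap _ _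

theorem io_inj : Function.Injective (io A d) := by
  rw [io, IsScalarTower.algebraMap_eq _ (FractionRing (PowerSeries (BB A d))) (Om A d)]
  exact (algebraMap (FractionRing (PowerSeries (BB A d))) (Om A d)).injective.comp
    (IsFractionRing.injective (PowerSeries (BB A d)) (FractionRing (PowerSeries (BB A d))))

theorem exists_val : ∃ V : ValuationSubring (Om A d), (∀ c, V.valuation (io A d c) ≤ 1) ∧
    V.valuation (io A d PowerSeries.X) < 1 := by
  have hI : (Ideal.span {⟨io A d PowerSeries.X, _, rfl⟩} : Ideal (io A d).range) ≠ ⊤ := by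
    rw [Ne, Ideal.span_singleton_eq_top, isUnit_iff_exists_inv]
    rintro ⟨⟨_, c, rfl⟩, h⟩
    have h1 : io A d (PowerSeries.X * c) = io A d 1 := by
      rw [map_mul, map_one]; exact congrArg Subtype.val h
    have := congrArg PowerSeries.constantCoeff (io_inj h1)
    simp at this
  obtain ⟨V, h1, h2⟩ := Ideal.image_subset_nonunits_valuationSubring _ hI
  exact ⟨V, fun c => (V.valuation_le_one_iff _).2 (h1 ⟨c, rfl⟩),
    V.mem_nonunits_iff.1 (h2 ⟨_, Ideal.subset_span rfl, rfl⟩)⟩

theorem classify (f : RR A d I →+* Om A d) (hf : Function.Injective f)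
    (hl : ∀ j, f (lR A I j) = io A d (lR A I j)) (he : f (eR A d I) = io A d (eR A d I)) (s : W d I) :
    ∃ s' : W d I, ∀ (i : ℤ) j, f (zw A ((shW d I ^ i) s) j) = io A d (zw A ((shW d I ^ i) s') j) := by
  obtain ⟨V, h1, h2⟩ := exists_val (d := d) (A := A)
  obtain ⟨n, hnI, hn⟩ := s.2
  have hS := (sysR A s).map f
  simp only [hl, he, lR_val, eR_val] at hS
  have hv : ∀ j k, j ≠ k → V.valuation (io A d (PowerSeries.C (lB A j)) -
      io A d (PowerSeries.C (lB A k))) = 1 := fun j k h => by
    obtain ⟨u, hu⟩ := isUnit_iff_exists_inv.1 (lB_unit (A := A) h)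
    have e : V.valuation (io A d (PowerSeries.C (lB A j - lB A k))) *
        V.valuation (io A d (PowerSeries.C u)) = 1 := by
      rw [← map_mul, ← map_mul, ← map_mul, hu]; simp
    rw [← map_sub, ← map_sub]
    exact le_antisymm (h1 _) (e ▸ mul_le_of_le_one_right' (h1 _))
  have hp : ∀ i : ℤ, (shW d I ^ (i + n)) s = (shW d I ^ i) s := fun i =>
    Subtype.ext (by rw [shW_zpow, shW_zpow, shf_per hn])
  obtain ⟨-, t, ht⟩ := hS.exists_word V.valuation h2 hv hn.1 fun i => by simp only [hp]
  have htp : Per n t := ⟨hn.1, word_per V.valuation hv (fun i => by simp only [hp]) ht,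
    hS.surj V.valuation h2 hv hn.1 (fun i => by simp only [hp]) ht fun j => by
      obtain ⟨i, hi⟩ := w0_ne A hn.2.2 j
      refine ⟨i, fun h => hi ?_⟩
      have := congrArg Subtype.val (hf (h.trans (map_zero f).symm))
      simpa [zw, shW_zpow] using this⟩
  have hT := (sys0 A t).map (io A d)
  have := (hS.unique V.valuation h2 hv hn.1 hT (fun i => by simp only [hp])
    (fun i => by simp only [shf_per htp]) ht fun i => by
      rw [map_add, sub_add_cancel_left, Valuation.map_neg, map_mul, map_mul]
      exact (mul_le_of_le_one_right' (h1 _)).trans_lt h2).2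
  refine ⟨⟨t, n, hnI, htp⟩, fun i j => ?_⟩
  have := congrFun (congrFun this i) j
  simpa [zw, shW_zpow] using this

variable (A) in
/-- The automorphism group. -/
abbrev GG (d : ℕ) (I : Finset ℕ) := RR A d I ≃ₐ[Polynomial (AA A d)] RR A d I

theorem exists_act (g : GG A d I) (s : W d I) : ∃ s' : W d I,
    ∀ i : ℤ, ∀ j, g (zw A ((shW d I ^ i) s) j) = zw A ((shW d I ^ i) s') j := by
  obtain ⟨s', h⟩ := classify (((io A d).comp (RR A d I).val.toRingHom).comp (g : RR A d I →+* RR A d I))
    ((io_inj.comp Subtype.val_injective).comp g.injective)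
    (fun j => congrArg (fun r : RR A d I => io A d r) (g.commutes _))
    (congrArg (fun r : RR A d I => io A d r) (g.commutes _)) s
  exact ⟨s', fun i j => Subtype.ext (io_inj (h i j))⟩

noncomputable instance : SMul (GG A d I) (W d I) := ⟨fun g s => (exists_act g s).choose⟩

theorem act_zw (g : GG A d I) (s : W d I) (j : Fin d) : g (zw A s j) = zw A (g • s) j := by
  have := (exists_act g s).choose_spec 0 j
  rwa [zpow_zero] at this

noncomputable instance : MulAction (GG A d I) (W d I) where
  one_smul s := zw_inj (funext fun j => by rw [← act_zw]; rfl)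
  mul_smul g h s := zw_inj (funext fun j => by rw [← act_zw, ← act_zw, ← act_zw]; rfl)

theorem act_sh (g : GG A d I) (s : W d I) : g • shW d I s = shW d I (g • s) :=
  zw_inj (funext fun j => by
    have := (exists_act g s).choose_spec 1 j
    rw [zpow_one] at this
    rw [← act_zw]; exact this)

theorem RR_ext {S : Type} [Semiring S] [Algebra (Polynomial (AA A d)) S]
    {f g : RR A d I →ₐ[Polynomial (AA A d)] S} (h : ∀ s j, f (zw A s j) = g (zw A s j)) : f = g :=
  AlgHom.adjoin_ext (by rintro _ ⟨⟨s, j⟩, rfl⟩; exact h s j)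

instance : Finite (GG A d I) := by
  refine Finite.of_injective (fun (g : GG A d I) (s : W d I) => g • s) fun g h e => ?_
  have : g.toAlgHom = h.toAlgHom := RR_ext (f := g.toAlgHom) (g := h.toAlgHom) fun s j => by
    have := congrFun e s
    simp only at this
    change g _ = h _
    rw [act_zw, act_zw, this]
  exact AlgEquiv.ext fun r => DFunLike.congr_fun this r

theorem RR_surj (f : RR A d I →ₐ[Polynomial (AA A d)] RR A d I) (p : W d I → W d I)
    (hp : ∀ s j, f (zw A s j) = zw A (p s) j) (hf : Function.Injective f) : Function.Surjective f := by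
  have h1 : Function.Surjective p := Finite.injective_iff_surjective.1 fun s s' h =>
    zw_inj (funext fun j => hf (by rw [hp, hp, h]))
  rintro ⟨r, hr⟩
  induction hr using Algebra.adjoin_induction with
  | mem x hx =>
    obtain ⟨⟨s, j⟩, rfl⟩ := hx
    obtain ⟨s', rfl⟩ := h1 s
    exact ⟨zw A s' j, hp s' j⟩
  | algebraMap a => exact ⟨_, f.commutes a⟩
  | add x y _ _ hx hy =>
    obtain ⟨a, ha⟩ := hx; obtain ⟨b, hb⟩ := hy
    exact ⟨a + b, by rw [map_add, ha, hb]; rfl⟩
  | mul x y _ _ hx hy =>
    obtain ⟨a, ha⟩ := hx; obtain ⟨b, hb⟩ := hy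
    exact ⟨a * b, by rw [map_mul, ha, hb]; rfl⟩

theorem exists_aut (f : RR A d I →ₐ[Polynomial (AA A d)] Om A d) (hf : Function.Injective f) :
    ∃ g : GG A d I, ∀ r, f r = io A d (g r) := by
  have hc : ∀ a, f (algebraMap _ _ a) = io A d (algebraMap (Polynomial (AA A d)) (RR A d I) a) :=
    fun a => by
      rw [f.commutes]
      exact IsScalarTower.algebraMap_apply _ (PowerSeries (BB A d)) (Om A d) a
  choose p hp using classify f.toRingHom hf (fun j => hc _) (hc _)
  have hp0 : ∀ s j, f (zw A s j) = io A d (zw A (p s) j) := fun s j => by simpa using hp s 0 j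
  let e : RR A d I →ₐ[Polynomial (AA A d)] Om A d :=
    (IsScalarTower.toAlgHom _ (PowerSeries (BB A d)) (Om A d)).comp (RR A d I).val
  have he : Function.Injective e := io_inj.comp Subtype.val_injective
  have hm : ∀ r, f r ∈ e.range := by
    rintro ⟨r, hr⟩
    induction hr using Algebra.adjoin_induction with
    | mem x hx => obtain ⟨⟨s, j⟩, rfl⟩ := hx; exact ⟨zw A (p s) j, (hp0 s j).symm⟩
    | algebraMap a => exact ⟨algebraMap _ _ a, (hc a).symm⟩
    | add x y _ _ hx hy => exact map_add f ⟨x, _⟩ ⟨y, _⟩ ▸ add_mem hx hy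
    | mul x y _ _ hx hy => exact map_mul f ⟨x, _⟩ ⟨y, _⟩ ▸ mul_mem hx hy
  let g : RR A d I →ₐ[Polynomial (AA A d)] RR A d I :=
    ((AlgEquiv.ofInjective e he).symm : e.range →ₐ[_] RR A d I).comp (f.codRestrict _ hm)
  have hg : ∀ r, e (g r) = f r := fun r =>
    congrArg Subtype.val ((AlgEquiv.ofInjective e he).apply_symm_apply ⟨f r, hm r⟩)
  have hgi : Function.Injective g := fun a b h => hf (by rw [← hg, ← hg, h])
  exact ⟨AlgEquiv.ofBijective g ⟨hgi, RR_surj g p (fun s j => he ((hg _).trans (hp0 s j))) hgi⟩,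
    fun r => (hg r).symm⟩

end Pool.Agent.MP_9b2bac_nt.Z
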