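import Mathlib
import Pool.Agent.MP_9b2bac_nt.ZGal

/- Elements fixed by all automorphisms are fractions, in every characteristic. -/

set_option autoImplicit false

namespace Pool.Agent.MP_9b2bac_nt.Z

open Polynomial

namespace ZFixP

theorem fix_field {F L Ω : Type} [Field F] [Field L] [Algebra F L] [Algebra.IsSeparable F L]
    [Field Ω] [IsAlgClosed Ω] [Algebra F Ω] [Algebra L Ω] [IsScalarTower F L Ω]
    (r : L) (hr : ∀ f : L →ₐ[F] Ω, f r = algebraMap L Ω r) : ∃ c : F, algebraMap F L c = r := by
  have hi : IsIntegral F r := Algebra.IsIntegral.isIntegral r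
  have hs : (minpoly F r).Separable := Algebra.IsSeparable.isSeparable F r
  have h1 := card_rootSet_eq_natDegree (K := Ω) hs (IsAlgClosed.splits _)
  have h2 : Fintype.card ((minpoly F r).rootSet Ω) ≤ 1 := Fintype.card_le_one_iff.2 (by
    have : ∀ y : (minpoly F r).rootSet Ω, (y : Ω) = algebraMap L Ω r := fun y => by
      obtain ⟨φ, hφ⟩ := IntermediateField.exists_algHom_of_splits_of_aeval (x := r) (y := (y : Ω))
        (fun s => ⟨Algebra.IsIntegral.isIntegral s, IsAlgClosed.splits _⟩)
        (aeval_eq_zero_of_mem_rootSet y.2)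
      rw [← hφ, hr]
    exact fun a b => Subtype.ext ((this a).trans (this b).symm))
  have h3 : (minpoly F r).natDegree = 1 :=
    le_antisymm (h1 ▸ h2) (minpoly.natDegree_pos hi)
  exact minpoly.natDegree_eq_one_iff.1 h3

theorem sep_of_der {F L : Type} [Field F] [Field L] [Algebra F L] [Algebra.EssFiniteType F L]
    (h : ∀ D : Derivation F L L, D = 0) : Algebra.IsSeparable F L := by
  haveI : Algebra.FormallyUnramified F L := ⟨subsingleton_of_forall_eq 0 fun x =>
    (Module.forall_dual_apply_eq_zero_iff L x).1 fun φ => by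
      have := h (KaehlerDifferential.linearMapEquivDerivation F L φ)
      rw [LinearEquiv.map_eq_zero_iff] at this
      simp [this]⟩
  exact Algebra.FormallyUnramified.isSeparable F L

theorem fix_abs {A R Ω : Type} [CommRing A] [IsDomain A] [CommRing R] [IsDomain R]
    [Algebra A R] [Algebra.FiniteType A R] (hinj : Function.Injective (algebraMap A R)) [Field Ω]
    [IsAlgClosed Ω] [Algebra A Ω] (e : R →ₐ[A] Ω) (he : Function.Injective e)
    (hD : ∀ D : R →+ Ω, (∀ a, D (algebraMap A R a) = 0) →
      (∀ x y, D (x * y) = e x * D y + e y * D x) → ∀ r, D r = 0)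
    (h : ∀ f : R →ₐ[A] Ω, Function.Injective f → ∃ g : R ≃ₐ[A] R, ∀ r, f r = e (g r))
    (r : R) (hr : ∀ g : R ≃ₐ[A] R, g r = r) :
    ∃ a b : A, a ≠ 0 ∧ a • r = algebraMap A R b := by
  letI : Algebra R Ω := e.toRingHom.toAlgebra
  haveI : IsScalarTower A R Ω := IsScalarTower.of_algebraMap_eq fun a => (e.commutes a).symm
  haveI : FaithfulSMul A R := (faithfulSMul_iff_algebraMap_injective _ _).2 hinj
  haveI : FaithfulSMul R Ω := (faithfulSMul_iff_algebraMap_injective _ _).2 he
  haveI : FaithfulSMul A Ω := FaithfulSMul.trans A R Ω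
  haveI : FaithfulSMul A (FractionRing R) := FaithfulSMul.trans A R _
  letI := FractionRing.liftAlgebra A (FractionRing R)
  letI := FractionRing.liftAlgebra A Ω
  letI := FractionRing.liftAlgebra R Ω
  haveI : IsScalarTower A (FractionRing R) Ω := IsScalarTower.of_algebraMap_eq fun a => by
    rw [IsScalarTower.algebraMap_apply A R (FractionRing R),
      ← IsScalarTower.algebraMap_apply R (FractionRing R) Ω, ← IsScalarTower.algebraMap_apply]
  haveI : IsScalarTower (FractionRing A) (FractionRing R) Ω :=
    IsScalarTower.of_algebraMap_eq' (IsFractionRing.ringHom_ext (A := A) fun a => by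
      rw [RingHom.comp_apply, ← IsScalarTower.algebraMap_apply,
        ← IsScalarTower.algebraMap_apply, ← IsScalarTower.algebraMap_apply])
  haveI : Algebra.EssFiniteType A (FractionRing R) := by
    haveI := Algebra.EssFiniteType.of_isLocalization (FractionRing R) (nonZeroDivisors R)
    exact Algebra.EssFiniteType.comp A R _
  haveI : Algebra.EssFiniteType (FractionRing A) (FractionRing R) :=
    Algebra.EssFiniteType.of_comp A _ _
  haveI : Algebra.IsSeparable (FractionRing A) (FractionRing R) := sep_of_der fun D => by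
    have h1 := hD ((algebraMap (FractionRing R) Ω).toAddMonoidHom.comp
      (D.toLinearMap.toAddMonoidHom.comp (algebraMap R (FractionRing R)).toAddMonoidHom))
      (fun a => by
        change algebraMap _ Ω (D (algebraMap R _ (algebraMap A R a))) = 0
        rw [← IsScalarTower.algebraMap_apply, IsScalarTower.algebraMap_apply A (FractionRing A),
          D.map_algebraMap, map_zero])
      (fun x y => by
        change algebraMap _ Ω (D (algebraMap R _ (x * y))) =
          algebraMap R Ω x * algebraMap _ Ω (D (algebraMap R _ y)) +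
            algebraMap R Ω y * algebraMap _ Ω (D (algebraMap R _ x))
        rw [map_mul, D.leibniz, smul_eq_mul, smul_eq_mul, map_add, map_mul, map_mul,
          ← IsScalarTower.algebraMap_apply, ← IsScalarTower.algebraMap_apply])
    have h2 : ∀ r : R, D (algebraMap R _ r) = 0 := fun r =>
      (algebraMap (FractionRing R) Ω).injective ((h1 r).trans (map_zero _).symm)
    ext x
    obtain ⟨b, a, ha, rfl⟩ := IsFractionRing.div_surjective (A := R) x
    simp [Derivation.leibniz_div, h2]
  have hres : ∀ f : FractionRing R →ₐ[FractionRing A] Ω, ∃ g : R ≃ₐ[A] R,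
      ∀ r, f (algebraMap R _ r) = e (g r) := fun f =>
    h ((f.restrictScalars A).comp (IsScalarTower.toAlgHom A R _))
      (f.injective.comp (IsFractionRing.injective R (FractionRing R)))
  choose G hG using hres
  obtain ⟨c, hc⟩ := fix_field (F := FractionRing A) (Ω := Ω) (algebraMap R (FractionRing R) r)
    fun f => by rw [hG, hr, ← IsScalarTower.algebraMap_apply]; rfl
  obtain ⟨b, a, ha, rfl⟩ := IsFractionRing.div_surjective (A := A) c
  have ha0 : a ≠ 0 := nonZeroDivisors.ne_zero ha
  refine ⟨a, b, ha0, IsFractionRing.injective R (FractionRing R) ?_⟩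
  have h0 : algebraMap A (FractionRing R) a ≠ 0 :=
    (map_ne_zero_iff _ (FaithfulSMul.algebraMap_injective A _)).2 ha0
  rw [map_div₀, ← IsScalarTower.algebraMap_apply, ← IsScalarTower.algebraMap_apply] at hc
  rw [Algebra.smul_def, map_mul, ← hc, ← IsScalarTower.algebraMap_apply,
    ← IsScalarTower.algebraMap_apply, mul_div_cancel₀ _ h0]

open Finset in
theorem tangent {d : ℕ} {Ω Γ : Type} [Field Ω] [LinearOrderedCommGroupWithZero Γ]
    (v : Valuation Ω Γ) {lam : Fin d → Ω} {ε : Ω} {n : ℕ} (hε : v ε < 1)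
    (hl : ∀ j k, j ≠ k → v (lam j - lam k) = 1) (hn : 0 < n) {x : ℤ → Ω} {w : ℤ → Fin d → Ω}
    (h : Sys lam ε x w) (hw : ∀ i, w (i + n) = w i) {a : ℤ → Ω} {b : ℤ → Fin d → Ω}
    (hb : ∀ i, b (i + n) = b i) (e : ∀ i j, a i * w i j = (lam j - x i) * b i j - ε * b (i + 1) j)
    (hs : ∀ i, ∑ j, b i j = 0) (i : ℤ) (j : Fin d) : b i j = 0 := by
  classical
  obtain ⟨hle, s, hs'⟩ := h.exists_word v hε hl hn hw
  haveI : Nonempty (Fin d) := ⟨j⟩
  obtain ⟨i₀, j₀, hm⟩ := exists_max_per hn (fun i j => v (b i j)) fun i => by simp only [hb]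
  set D := v (b i₀ j₀) with hD
  have hx : ∀ i, v (a i) ≤ D := fun i => by
    have := congrArg v (e i (s i))
    rw [v.map_mul, h.near_one v hε hl hle (hs' i), mul_one] at this
    rw [this]
    refine v.map_sub_le ?_ ?_ <;> rw [v.map_mul]
    · exact (mul_le_of_le_one_left' (hs' i).le).trans (hm _ _)
    · exact (mul_le_of_le_one_left' hε.le).trans (hm _ _)
  have h1 : ∀ i j, j ≠ s i → v (b i j) ≤ v ε * D := fun i j hj => by
    have e2 : (lam j - x i) * b i j = a i * w i j + ε * b (i + 1) j := by rw [e]; ring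
    have := congrArg v e2
    rw [v.map_mul, far_one v hl (hs' i) hj, one_mul] at this
    rw [this]
    refine v.map_add_le ?_ ?_ <;> rw [v.map_mul]
    · rw [mul_comm]
      exact mul_le_mul' ((h.far v (far_one v hl (hs' i) hj).ge).trans
        (mul_le_of_le_one_right' (hle _ _))) (hx i)
    · exact mul_le_mul_right (hm _ _) _
  have h2 : ∀ i j, v (b i j) ≤ v ε * D := fun i j => by
    by_cases hj : j = s i
    · have : b i j = -∑ k ∈ univ.erase j, b i k := by
        have h3 := hs i
        rw [← add_sum_erase _ _ (mem_univ j)] at h3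
        linear_combination h3
      rw [this, v.map_neg]
      exact v.map_sum_le fun k hk => h1 i k (hj ▸ ne_of_mem_erase hk)
    · exact h1 i j hj
  have hD0 : D = 0 := eq_zero_of_le_mul hε (h2 i₀ j₀)
  exact v.zero_iff.1 (le_zero_iff.1 (hD0 ▸ hm i j))

theorem der_zero {d : ℕ} {I : Finset ℕ} {A : Type} [CommRing A] [IsDomain A]
    (D : RR A d I →+ Om A d) (h0 : ∀ a, D (algebraMap (AA A d)[X] _ a) = 0)
    (hm : ∀ x y : RR A d I, D (x * y) = io A d x * D y + io A d y * D x) (r : RR A d I) :
    D r = 0 := by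
  have hz : ∀ (s : W d I) j, D (zw A s j) = 0 := by
    intro s j
    obtain ⟨V, h1, h2⟩ := exists_val (d := d) (A := A)
    obtain ⟨n, hnI, hn⟩ := s.2
    set E : RR A d I →+* Om A d := (io A d).comp (RR A d I).val.toRingHom with hE
    have hm' : ∀ x y : RR A d I, D (x * y) = E x * D y + E y * D x := hm
    have hS := (sysR A s).map E
    have hv : ∀ j k, j ≠ k → V.valuation (E (lR A I j) - E (lR A I k)) = 1 :=
      fun j k h => by
      obtain ⟨u, hu⟩ := isUnit_iff_exists_inv.1 (lB_unit (A := A) h)
      have e : V.valuation (io A d (PowerSeries.C (lB A j - lB A k))) *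
          V.valuation (io A d (PowerSeries.C u)) = 1 := by
        rw [← map_mul, ← map_mul, ← map_mul, hu]; simp
      have e' : ∀ j, E (lR A I j) = io A d (PowerSeries.C (lB A j)) := fun j =>
        congrArg (io A d) (lR_val (I := I) j)
      rw [e', e', ← map_sub, ← map_sub]
      exact le_antisymm (h1 _) (e ▸ mul_le_of_le_one_right' (h1 _))
    have hp : ∀ i : ℤ, (shW d I ^ (i + n)) s = (shW d I ^ i) s := fun i =>
      Subtype.ext (by rw [shW_zpow, shW_zpow, shf_per hn])
    have := tangent V.valuation (ε := E (eR A d I)) (by rw [← eR_val (I := I)] at h2; exact h2) hv hn.1 hS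
      (fun i => by simp only [hp]) (a := fun i => D (zx A ((shW d I ^ i) s)))
      (b := fun i j => D (zw A ((shW d I ^ i) s) j)) (fun i => by simp only [hp])
      (fun i j => by
        have := congrArg D ((sysR A s).step i j)
        rw [hm', hm', map_sub, map_sub, show D (eR A d I) = 0 from h0 _,
          show D (lR A I j) = 0 from h0 _] at this
        linear_combination this)
      (fun i => by
        rw [← map_sum, (sysR A s).sum i, ← map_one (algebraMap (AA A d)[X] (RR A d I)), h0]) 0 j
    rwa [zpow_zero] at this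
  obtain ⟨r, hr⟩ := r
  induction hr using Algebra.adjoin_induction with
  | mem x hx => obtain ⟨⟨s, j⟩, rfl⟩ := hx; exact hz s j
  | algebraMap a => exact h0 a
  | add x y _ _ hx hy => exact (map_add D ⟨x, _⟩ ⟨y, _⟩).trans (by rw [hx, hy, add_zero])
  | mul x y _ _ hx hy => exact (hm ⟨x, _⟩ ⟨y, _⟩).trans (by rw [hx, hy]; simp)

end ZFixP

theorem hfixP {d : ℕ} {I : Finset ℕ} {A : Type} [CommRing A] [IsDomain A]
    (r : RR A d I) (hr : ∀ g : GG A d I, g r = r) :
    ∃ a b : (AA A d)[X], a ≠ 0 ∧ a • r = algebraMap _ (RR A d I) b :=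
  haveI : Algebra.FiniteType (AA A d)[X] (RR A d I) := (Subalgebra.fg_iff_finiteType _).1 RR_fg
  ZFixP.fix_abs (Ω := Om A d) (fun _ _ h => alg_inj (congrArg Subtype.val h))
    ((IsScalarTower.toAlgHom _ (PowerSeries (BB A d)) (Om A d)).comp (RR A d I).val)
    (io_inj.comp Subtype.val_injective) ZFixP.der_zero exists_aut r hr

end Pool.Agent.MP_9b2bac_nt.Z
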