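import Mathlib
import Pool.Agent.MP_9b2bac_nt.ZFixP

set_option autoImplicit false

namespace Pool.Agent.MP_9b2bac_nt.Z

open Polynomial

namespace YSpread

/-- A property of ring maps to fields holds outside a proper closed subset. -/
def Gen (R : Type) [CommRing R] (P : ∀ (k : Type) [Field k], (R →+* k) → Prop) : Prop :=
  ∃ δ : R, δ ≠ 0 ∧ ∀ (k : Type) [Field k] (φ : R →+* k), φ δ ≠ 0 → P k φ

section gen

variable {R : Type} [CommRing R] [IsDomain R]

omit [IsDomain R] in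
theorem Gen.mono {P Q : ∀ (k : Type) [Field k], (R →+* k) → Prop} (h : Gen R P)
    (hPQ : ∀ (k : Type) [Field k] (φ : R →+* k), P k φ → Q k φ) : Gen R Q :=
  let ⟨δ, h0, h1⟩ := h
  ⟨δ, h0, fun k _ φ hφ => hPQ k φ (h1 k φ hφ)⟩

theorem Gen.all {ι : Type} [Finite ι] {P : ι → ∀ (k : Type) [Field k], (R →+* k) → Prop}
    (h : ∀ i, Gen R (P i)) : Gen R fun k _ φ => ∀ i, P i k φ := by
  haveI := Fintype.ofFinite ι
  choose δ h0 h1 using h
  refine ⟨∏ i, δ i, Finset.prod_ne_zero_iff.2 fun i _ => h0 i, fun k _ φ hφ i => h1 i k φ ?_⟩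
  rw [map_prod] at hφ
  exact Finset.prod_ne_zero_iff.1 hφ i (Finset.mem_univ i)

theorem Gen.and {P Q : ∀ (k : Type) [Field k], (R →+* k) → Prop} (h : Gen R P) (h' : Gen R Q) :
    Gen R fun k _ φ => P k φ ∧ Q k φ := by
  obtain ⟨a, a0, a1⟩ := h
  obtain ⟨b, b0, b1⟩ := h'
  refine ⟨a * b, mul_ne_zero a0 b0, fun k _ φ hφ => ?_⟩
  rw [map_mul] at hφ
  exact ⟨a1 k φ (left_ne_zero_of_mul hφ), b1 k φ (right_ne_zero_of_mul hφ)⟩

theorem Gen.imp {H : Prop} {P : ∀ (k : Type) [Field k], (R →+* k) → Prop} (h : H → Gen R P) :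
    Gen R fun k _ φ => H → P k φ := by
  by_cases hH : H
  · exact (h hH).mono fun k _ φ hP _ => hP
  · exact ⟨1, one_ne_zero, fun k _ φ _ h' => absurd h' hH⟩

theorem Gen.eq (a b : R) : Gen R fun _ _ φ => φ a = φ b → a = b := by
  by_cases h : a = b
  · exact ⟨1, one_ne_zero, fun k _ φ _ _ => h⟩
  · exact ⟨a - b, sub_ne_zero.2 h, fun k _ φ hφ h' => absurd (by rw [map_sub, h', sub_self]) hφ⟩

theorem spread {Ω V ι : Type} [Field Ω] [IsAlgClosed Ω] [Finite V] (e : R →+* Ω)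
    (he : Function.Injective e) (F : ι → MvPolynomial V R) (g : MvPolynomial V R)
    (h : ∀ p : V → Ω, (∀ i, MvPolynomial.eval₂Hom e p (F i) = 0) →
      MvPolynomial.eval₂Hom e p g = 0) :
    Gen R fun k _ φ => ∀ p : V → k, (∀ i, MvPolynomial.eval₂Hom φ p (F i) = 0) →
      MvPolynomial.eval₂Hom φ p g = 0 := by
  letI : Algebra R Ω := e.toAlgebra
  haveI : FaithfulSMul R Ω := (faithfulSMul_iff_algebraMap_injective _ _).2 he
  letI := FractionRing.liftAlgebra R Ω
  letI : Algebra (MvPolynomial V R) (MvPolynomial V (FractionRing R)) :=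
    MvPolynomial.algebraMvPolynomial
  have key : ∀ (p : V → Ω) (f : MvPolynomial V R),
      MvPolynomial.aeval p (algebraMap _ (MvPolynomial V (FractionRing R)) f) =
        MvPolynomial.eval₂Hom e p f := fun p f => by
    rw [MvPolynomial.algebraMap_def, MvPolynomial.aeval_map_algebraMap]
    rfl
  have h1 : algebraMap _ (MvPolynomial V (FractionRing R)) g ∈
      ((Ideal.span (Set.range F)).map (algebraMap _ (MvPolynomial V (FractionRing R)))).radical := by
    rw [← MvPolynomial.vanishingIdeal_zeroLocus_eq_radical (K := Ω)]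
    intro p hp
    rw [key]
    refine h p fun i => ?_
    rw [← key]
    exact hp _ (Ideal.mem_map_of_mem _ (Ideal.subset_span ⟨i, rfl⟩))
  obtain ⟨m, hm⟩ := h1
  rw [← map_pow, IsLocalization.algebraMap_mem_map_algebraMap_iff
    ((nonZeroDivisors R).map (MvPolynomial.C (σ := V)))] at hm
  obtain ⟨_, ⟨δ, hδ, rfl⟩, hm⟩ := hm
  refine ⟨δ, nonZeroDivisors.ne_zero hδ, fun k _ φ hφ p hp => ?_⟩
  have h2 : Ideal.span (Set.range F) ≤ RingHom.ker (MvPolynomial.eval₂Hom φ p) :=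
    Ideal.span_le.2 (by rintro _ ⟨i, rfl⟩; exact hp i)
  have h3 := h2 hm
  rw [RingHom.mem_ker, map_mul, map_pow, MvPolynomial.eval₂Hom_C] at h3
  exact eq_zero_of_pow_eq_zero ((mul_eq_zero.1 h3).resolve_left hφ)

end gen

section sys

variable {d : ℕ} {I : Finset ℕ} {A : Type} [CommRing A] [IsDomain A]

theorem generic {n : ℕ} (hnI : n ∈ I) (hn : 0 < n) {x : ℤ → Om A d} {w : ℤ → Fin d → Om A d}
    (hS : Sys (fun j => io A d (lR A I j)) (io A d (eR A d I)) x w) (hw : ∀ i, w (i + n) = w i)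
    (hne : ∀ j, ∃ i, w i j ≠ 0) : ∃ s : W d I, Per n s.1 ∧ ∀ j, w 0 j = io A d (zw A s j) := by
  obtain ⟨V, h1, h2⟩ := exists_val (d := d) (A := A)
  simp only [lR_val, eR_val] at hS
  have hv : ∀ j k, j ≠ k → V.valuation (io A d (PowerSeries.C (lB A j)) -
      io A d (PowerSeries.C (lB A k))) = 1 := fun j k h => by
    obtain ⟨u, hu⟩ := isUnit_iff_exists_inv.1 (lB_unit (A := A) h)
    have e : V.valuation (io A d (PowerSeries.C (lB A j - lB A k))) *
        V.valuation (io A d (PowerSeries.C u)) = 1 := by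
      rw [← map_mul, ← map_mul, ← map_mul, hu]; simp
    rw [← map_sub, ← map_sub]
    exact le_antisymm (h1 _) (e ▸ mul_le_of_le_one_right' (h1 _))
  have hx : ∀ i, x (i + n) = x i := fun i => by rw [hS.x_eq, hS.x_eq i, hw]
  obtain ⟨-, t, ht⟩ := hS.exists_word V.valuation h2 hv hn hw
  have htp : Per n t := ⟨hn, word_per V.valuation hv hx ht,
    hS.surj V.valuation h2 hv hn hw ht hne⟩
  have hT := (sys0 A t).map (io A d)
  have := (hS.unique V.valuation h2 hv hn hT hw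
    (fun i => by simp only [shf_per htp]) ht fun i => by
      rw [map_add, sub_add_cancel_left, Valuation.map_neg, map_mul, map_mul]
      exact (mul_le_of_le_one_right' (h1 _)).trans_lt h2).2
  refine ⟨⟨t, n, hnI, htp⟩, htp, fun j => ?_⟩
  have := congrFun (congrFun this 0) j
  simpa [zw] using this

/-- The equations of the periodic system. -/
noncomputable def eqs {R : Type} [CommRing R] (lam : Fin d → R) (ε : R) (n : ℕ) :
    (ZMod n × Fin d) ⊕ ZMod n → MvPolynomial (ZMod n × Fin d) R :=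
  Sum.elim (fun q => MvPolynomial.C ε * MvPolynomial.X (q.1 + 1, q.2) -
      (MvPolynomial.C (lam q.2) - (∑ l, MvPolynomial.C (lam l) * MvPolynomial.X (q.1, l) -
        MvPolynomial.C ε)) * MvPolynomial.X q)
    fun a => ∑ l, MvPolynomial.X (a, l) - 1

theorem eqs_iff {R k : Type} [CommRing R] [CommRing k] (φ : R →+* k) (lam : Fin d → R) (ε : R)
    (n : ℕ) (p : ZMod n × Fin d → k) :
    (∀ i, MvPolynomial.eval₂Hom φ p (eqs lam ε n i) = 0) ↔
      Sys (fun j => φ (lam j)) (φ ε) (fun i => ∑ l, φ (lam l) * p ((i : ZMod n), l) - φ ε)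
        fun i j => p ((i : ZMod n), j) := by
  simp only [Sum.forall, eqs, Sum.elim_inl, Sum.elim_inr, map_sub, map_mul, map_sum, map_one,
    MvPolynomial.eval₂Hom_C, MvPolynomial.eval₂Hom_X', Prod.forall, sub_eq_zero]
  constructor
  · rintro ⟨h1, h2⟩
    exact ⟨fun i j => by rw [Int.cast_add, Int.cast_one]; exact h1 _ j, fun i => h2 _⟩
  · intro h
    refine ⟨fun a j => ?_, fun a => ?_⟩
    · obtain ⟨i, rfl⟩ := ZMod.intCast_surjective a
      have := h.step i j
      rwa [Int.cast_add, Int.cast_one] at this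
    · obtain ⟨i, rfl⟩ := ZMod.intCast_surjective a
      exact h.sum i

theorem exists_point {α : Type} {n : ℕ} {w : ℤ → α} (hw : ∀ i, w (i + n) = w i) :
    ∃ p : ZMod n → α, ∀ i : ℤ, p (i : ZMod n) = w i := by
  refine ⟨fun a => w (ZMod.cast a), fun i => ?_⟩
  obtain ⟨c, hc⟩ := (ZMod.intCast_eq_intCast_iff_dvd_sub i (ZMod.cast (i : ZMod n)) n).1
    (ZMod.intCast_zmod_cast _).symm
  show w _ = _
  rw [sub_eq_iff_eq_add'.1 hc, mul_comm, zper hw]

theorem level_abs {R Ω S : Type} [CommRing R] [IsDomain R] [Field Ω] [IsAlgClosed Ω] [Finite S]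
    (e : R →+* Ω) (he : Function.Injective e) (lam : Fin d → R) (ε : R) (z : S → Fin d → R)
    {n : ℕ} (hn : 0 < n) (H : ∀ (x : ℤ → Ω) (w : ℤ → Fin d → Ω),
      Sys (fun j => e (lam j)) (e ε) x w → (∀ i, w (i + n) = w i) →
      (∀ j, ∃ i, w i j ≠ 0) → ∃ s, ∀ j, w 0 j = e (z s j)) :
    Gen R fun k _ φ => ∀ (x : ℤ → k) (w : ℤ → Fin d → k),
      Sys (fun j => φ (lam j)) (φ ε) x w → (∀ i, w (i + n) = w i) →
      (∀ j, ∃ i, w i j ≠ 0) → ∃ s, ∀ j, w 0 j = φ (z s j) := by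
  haveI : NeZero n := ⟨hn.ne'⟩
  haveI := Fintype.ofFinite S
  have h := Gen.all fun c : (Fin d → ZMod n) × (S → Fin d) =>
    spread e he (eqs lam ε n) ((∏ j, MvPolynomial.X (c.1 j, j)) *
        ∏ s, (MvPolynomial.X (0, c.2 s) - MvPolynomial.C (z s (c.2 s)))) (fun p hp => by
      simp only [map_mul, map_prod, map_sub, MvPolynomial.eval₂Hom_C, MvPolynomial.eval₂Hom_X']
      by_contra hc
      obtain ⟨s, hs⟩ := H _ _ ((eqs_iff _ _ _ _ _).1 hp)
        (fun i => by simp) fun j => by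
          obtain ⟨i, hi⟩ := ZMod.intCast_surjective (c.1 j)
          exact ⟨i, hi ▸ Finset.prod_ne_zero_iff.1 (left_ne_zero_of_mul hc) j (Finset.mem_univ _)⟩
      refine Finset.prod_ne_zero_iff.1 (right_ne_zero_of_mul hc) s (Finset.mem_univ _) ?_
      have := hs (c.2 s)
      rw [Int.cast_zero] at this
      exact sub_eq_zero.2 this)
  refine h.mono fun k _ φ h x w hS hw hne => ?_
  by_contra hc
  push Not at hc
  choose c hc using hc
  choose i hi using hne
  obtain ⟨p, hp⟩ := exists_point hw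
  have h1 := h (fun j => (i j : ZMod n), c) (fun q => p q.1 q.2) ((eqs_iff _ _ _ _ _).2 (by
    simp only [hp]
    convert hS using 2 with i
    exact (hS.x_eq i).symm))
  simp only [map_mul, map_prod, map_sub, MvPolynomial.eval₂Hom_C, MvPolynomial.eval₂Hom_X',
    hp] at h1
  refine mul_ne_zero (Finset.prod_ne_zero_iff.2 fun j _ => hi j)
    (Finset.prod_ne_zero_iff.2 fun s _ => sub_ne_zero.2 ?_) h1
  rw [← Int.cast_zero, hp]
  exact hc s

theorem level {n : ℕ} (hnI : n ∈ I) (hn : 0 < n) :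
    Gen (RR A d I) fun k _ φ => ∀ (x : ℤ → k) (w : ℤ → Fin d → k),
      Sys (fun j => φ (lR A I j)) (φ (eR A d I)) x w → (∀ i, w (i + n) = w i) →
      (∀ j, ∃ i, w i j ≠ 0) → ∃ s : W d I, Per n s.1 ∧ ∀ j, w 0 j = φ (zw A s j) :=
  (level_abs ((io A d).comp (RR A d I).val.toRingHom) (io_inj.comp Subtype.val_injective)
    (lR A I) (eR A d I) (fun s : {s : W d I // Per n s.1} => zw A s.1) hn fun _ _ hS hw hne =>
      let ⟨s, hs, h⟩ := generic hnI hn hS hw hne
      ⟨⟨s, hs⟩, h⟩).mono fun _ _ _ h x w hS hw hne =>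
    let ⟨s, h⟩ := h x w hS hw hne
    ⟨s.1, s.2, h⟩

theorem zx_zero {s s' : W d I} (h : zx A s = zx A s') : s.1 0 = s'.1 0 := by
  by_contra hc
  have h1 := congrArg (fun r : RR A d I => PowerSeries.constantCoeff (r : PowerSeries (BB A d))) h
  simp only [zx_val, map_add, map_mul, PowerSeries.constantCoeff_C, PowerSeries.constantCoeff_X,
    zero_mul, add_zero] at h1
  exact (lB_unit (A := A) hc).ne_zero (sub_eq_zero.2 h1)

theorem descend {P : ∀ (k : Type) [Field k], (RR A d I →+* k) → Prop} (h : Gen (RR A d I) P) :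
    ∃ b : (AA A d)[X], b ≠ 0 ∧ ∀ (k : Type) [Field k] (φ : RR A d I →+* k),
      φ (algebraMap _ (RR A d I) b) ≠ 0 → P k φ := by
  obtain ⟨δ, h0, h1⟩ := h
  haveI := Fintype.ofFinite (GG A d I)
  have hN : ∏ g : GG A d I, g δ ≠ 0 :=
    Finset.prod_ne_zero_iff.2 fun g _ => (map_ne_zero_iff g g.injective).2 h0
  obtain ⟨a, b, ha, hab⟩ := hfixP (∏ g : GG A d I, g δ) fun g => by
    rw [map_prod]
    exact Fintype.prod_equiv (Equiv.mulLeft g) _ _ fun g' => rfl
  rw [Algebra.smul_def] at hab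
  refine ⟨b, fun hb => ?_, fun k _ φ hφ => h1 k φ ?_⟩
  · rw [hb, map_zero] at hab
    refine mul_ne_zero (fun h => ha (alg_inj ?_)) hN hab
    rw [map_zero]
    exact congrArg Subtype.val h
  · rw [← hab, map_mul, map_prod] at hφ
    exact Finset.prod_ne_zero_iff.1 (right_ne_zero_of_mul hφ) 1 (Finset.mem_univ _)

end sys

end YSpread

theorem complete (d : ℕ) (I : Finset ℕ) (A : Type) [CommRing A] [IsDomain A] :
    ∃ b : (AA A d)[X], b ≠ 0 ∧ ∀ (k : Type) [Field k] (φ : RR A d I →+* k),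
      φ (algebraMap _ (RR A d I) b) ≠ 0 →
      (∀ s s' : W d I, φ (zx A s) = φ (zx A s') → s.1 0 = s'.1 0) ∧
      (∀ s s' : W d I, (∀ j, φ (zw A s j) = φ (zw A s' j)) → s = s') ∧
      ∀ n ∈ I, 0 < n → ∀ (x : ℤ → k) (w : ℤ → Fin d → k),
        Sys (fun j => φ (lR A I j)) (φ (eR A d I)) x w → (∀ i, w (i + n) = w i) →
        (∀ j, ∃ i, w i j ≠ 0) → ∃ s : W d I, Per n s.1 ∧ ∀ j, w 0 j = φ (zw A s j) := by
  have h1 := YSpread.Gen.all fun s : W d I => YSpread.Gen.all fun s' : W d I =>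
    YSpread.Gen.eq (zx A s) (zx A s')
  have h2 := YSpread.Gen.all fun s : W d I => YSpread.Gen.all fun s' : W d I =>
    YSpread.Gen.all fun j : Fin d => YSpread.Gen.eq (zw A s j) (zw A s' j)
  have h3 := YSpread.Gen.all fun n : I => YSpread.Gen.imp fun hn : 0 < n.1 =>
    YSpread.level (A := A) (d := d) n.2 hn
  exact YSpread.descend ((h1.and (h2.and h3)).mono fun k _ φ h =>
    ⟨fun s s' e => YSpread.zx_zero (h.1 s s' e),
      fun s s' e => zw_inj (funext fun j => h.2.1 s s' j (e j)),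
      fun n hn => h.2.2 ⟨n, hn⟩⟩)

end Pool.Agent.MP_9b2bac_nt.Z
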