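import Mathlib

/- Transfer of automorphisms between algebraically closed fields, and the odd root lemma. -/

set_option autoImplicit false

namespace Pool.Agent.MP_9b2bac_nt.Z.ZTree

open Polynomial

theorem ext_equiv {O Ω : Type} [Field O] [Field Ω] [IsAlgClosed Ω] (ψ : O →+* Ω)
    (γ0 : O ≃+* O) : ∃ γ : Ω ≃+* Ω, ∀ x, γ (ψ x) = ψ (γ0 x) := by
  letI := ψ.toAlgebra
  obtain ⟨B, hB⟩ := exists_isTranscendenceBasis O Ω
  haveI := IsAlgClosed.isAlgClosure_of_transcendence_basis _ hB
  let e := hB.1.aevalEquiv.toRingEquiv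
  let h := e.symm.trans ((MvPolynomial.mapEquiv B γ0).trans e)
  refine ⟨IsAlgClosure.equivOfEquiv Ω Ω h, fun x => ?_⟩
  have h1 : ∀ y : O, ψ y = algebraMap _ Ω (e (MvPolynomial.C y)) := fun y => by
    have := hB.1.aevalEquiv.commutes y
    change e (MvPolynomial.C y) = _ at this
    rw [this]
    rfl
  rw [h1, h1, IsAlgClosure.equivOfEquiv_algebraMap]
  congr 1
  simp [h]

theorem lift_hom {R S T : Type} [CommRing R] [IsDomain R] [Field S] [Field T] [IsAlgClosed T]
    [Algebra R S] [Algebra.IsAlgebraic R S] (hi : Function.Injective (algebraMap R S))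
    (f : R →+* T) (hf : Function.Injective f) :
    ∃ g : S →+* T, ∀ r, g (algebraMap R S r) = f r := by
  letI := f.toAlgebra
  haveI : FaithfulSMul R S := (faithfulSMul_iff_algebraMap_injective R S).2 hi
  haveI : FaithfulSMul R T := (faithfulSMul_iff_algebraMap_injective R T).2 hf
  exact ⟨(IsAlgClosed.lift (R := R) (S := S) (M := T)).toRingHom, fun r =>
    (IsAlgClosed.lift (R := R) (S := S) (M := T)).commutes r⟩

theorem transfer (k Ω Ω' : Type) [Field k] [Field Ω] [IsAlgClosed Ω] [Field Ω'] [IsAlgClosed Ω']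
    (a : k[X] →+* Ω) (a' : k[X] →+* Ω') (ha : Function.Injective a)
    (ha' : Function.Injective a') (θ : Ω' →+* Ω') (hθ : ∀ f, θ (a' f) = a' f) :
    ∃ (O : Type) (_ : Field O) (_ : IsAlgClosed O) (a0 : k[X] →+* O) (ψ : O →+* Ω)
      (ψ' : O →+* Ω') (γ0 : O → O) (γ : Ω ≃+* Ω), (∀ f, ψ (a0 f) = a f) ∧
      (∀ f, ψ' (a0 f) = a' f) ∧ (∀ f, γ (a f) = a f) ∧ (∀ x, γ (ψ x) = ψ (γ0 x)) ∧
      ∀ x, θ (ψ' x) = ψ' (γ0 x) := by
  let F := FractionRing k[X]
  let O := AlgebraicClosure F
  have hi : Function.Injective (algebraMap k[X] O) := by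
    rw [IsScalarTower.algebraMap_eq k[X] F O, RingHom.coe_comp]
    exact (algebraMap F O).injective.comp (IsFractionRing.injective k[X] F)
  haveI : Algebra.IsAlgebraic k[X] O := by
    haveI : Algebra.IsAlgebraic k[X] F := IsLocalization.isAlgebraic _ (nonZeroDivisors k[X])
    exact Algebra.IsAlgebraic.trans k[X] F O
  obtain ⟨ψ, hψ⟩ := lift_hom hi a ha
  obtain ⟨ψ', hψ'⟩ := lift_hom hi a' ha'
  letI : Algebra O Ω' := ψ'.toAlgebra
  letI : Algebra F Ω' := (ψ'.comp (algebraMap F O)).toAlgebra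
  haveI : IsScalarTower F O Ω' := IsScalarTower.of_algebraMap_eq fun _ => rfl
  have hF : θ.comp (algebraMap F Ω') = algebraMap F Ω' := by
    refine IsLocalization.ringHom_ext (nonZeroDivisors k[X]) ?_
    refine RingHom.ext fun f => ?_
    have : algebraMap F Ω' (algebraMap k[X] F f) = a' f := by
      rw [← hψ', IsScalarTower.algebraMap_apply k[X] F O]; rfl
    simp only [RingHom.comp_apply, this, hθ]
  let θF : Ω' →ₐ[F] Ω' := { θ with commutes' := fun c => RingHom.congr_fun hF c }
  let γ0 := θF.restrictNormal' O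
  obtain ⟨γ, hγ⟩ := ext_equiv ψ γ0.toRingEquiv
  refine ⟨O, inferInstance, inferInstance, algebraMap k[X] O, ψ, ψ', γ0, γ, hψ, hψ', fun f => ?_,
    hγ, fun x => ?_⟩
  · rw [← hψ, hγ, IsScalarTower.algebraMap_apply k[X] F O]
    congr 1
    exact γ0.commutes _
  · exact (θF.restrictNormal_commutes O x).symm

theorem odd_or_sq {k : Type} [Field k] [IsAlgClosed k] (b : k) : ∀ (n : ℕ) (f : k[X]),
    f.natDegree = n → f ≠ 0 →
    (∃ (r : k) (e : ℕ) (f1 : k[X]), r ≠ b ∧ Odd e ∧ f = (X - C r) ^ e * f1 ∧ f1.eval r ≠ 0) ∨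
      ∃ H : k[X], f = H ^ 2 ∨ f = (X - C b) * H ^ 2 := by
  intro n
  induction n using Nat.strong_induction_on with
  | _ n ih =>
  intro f hn hf
  by_cases h0 : n = 0
  · right
    obtain ⟨c, hc⟩ := IsAlgClosed.exists_pow_nat_eq (f.coeff 0) two_pos
    refine ⟨C c, Or.inl ?_⟩
    rw [← C_pow, hc]
    exact eq_C_of_natDegree_eq_zero (hn.trans h0)
  obtain ⟨r, hr⟩ := IsAlgClosed.exists_root f (by
    rw [degree_eq_natDegree hf, hn]; exact_mod_cast h0)
  obtain ⟨f1, h1, h2⟩ := exists_eq_pow_rootMultiplicity_mul_and_not_dvd f hf r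
  have he : 0 < rootMultiplicity r f := (rootMultiplicity_pos hf).2 hr
  generalize rootMultiplicity r f = e at h1 he
  rw [dvd_iff_isRoot, IsRoot.def] at h2
  have hf1 : f1 ≠ 0 := by rintro rfl; simp at h2
  by_cases hc : r ≠ b ∧ Odd e
  · exact Or.inl ⟨r, e, f1, hc.1, hc.2, h1, h2⟩
  have hlt : f1.natDegree < n := by
    rw [← hn, h1, natDegree_mul (pow_ne_zero _ (X_sub_C_ne_zero r)) hf1, natDegree_pow,
      natDegree_X_sub_C]
    omega
  rcases ih _ hlt f1 rfl hf1 with ⟨r', e', f2, hr', he', h3, h4⟩ | ⟨H, hH | hH⟩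
  · refine Or.inl ⟨r', e', (X - C r) ^ e * f2, hr', he', by rw [h1, h3]; ring, ?_⟩
    have : r' - r ≠ 0 := by
      intro h
      obtain rfl := sub_eq_zero.1 h
      rw [h3] at h2
      simp [he'.pos.ne'] at h2
    simp [this, h4]
  · rcases Nat.even_or_odd e with ⟨j, rfl⟩ | ⟨j, rfl⟩
    · exact Or.inr ⟨(X - C r) ^ j * H, Or.inl (by rw [h1, hH]; ring)⟩
    · have : r = b := by
        by_contra h
        exact hc ⟨h, j, rfl⟩
      subst this
      exact Or.inr ⟨(X - C r) ^ j * H, Or.inr (by rw [h1, hH]; ring)⟩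
  · have hrb : r ≠ b := by
      rintro rfl
      rw [hH] at h2
      simp at h2
    rcases Nat.even_or_odd e with ⟨j, rfl⟩ | ho
    · exact Or.inr ⟨(X - C r) ^ j * H, Or.inr (by rw [h1, hH]; ring)⟩
    · exact absurd ⟨hrb, ho⟩ hc

theorem pell {k : Type} [Field k] (h2 : (2 : k) ≠ 0) (H Q : k[X])
    (h1 : X ^ 2 * Q - 1 = (X - 1) * H ^ 2)
    (hP : (X - 2) * (H.comp (2 - X)) ^ 2 - X * H ^ 2 = 1) : (3 : k) = 0 := by
  set T := H.comp (2 - X) with hT
  have hH : H ≠ 0 := by
    rintro rfl
    simpa using congrArg (eval 0) h1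
  have hd : T.natDegree = H.natDegree := by
    have : (2 - X : k[X]).natDegree = 1 := by
      rw [show (2 - X : k[X]) = -(X - C 2) by rw [neg_sub]; rfl, natDegree_neg, natDegree_X_sub_C]
    rw [hT, natDegree_comp, this, mul_one]
  have hD := congrArg derivative hP
  have hD1 := congrArg derivative h1
  simp only [derivative_sub, derivative_mul, derivative_X, derivative_sq, derivative_one,
    derivative_ofNat, map_ofNat] at hD hD1
  have hco : IsCoprime T H := ⟨(X - 2) * T, -(X * H), by linear_combination hP⟩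
  have hdv : T ∣ H + 2 * X * derivative H := by
    refine hco.dvd_of_dvd_mul_left ⟨T + 2 * (X - 2) * derivative T, ?_⟩
    linear_combination -hD
  obtain ⟨q, hq⟩ := hdv
  have hT0 : T ≠ 0 := by
    intro h
    rw [h] at hP
    simpa using congrArg (eval 0) hP
  have hqd : q.natDegree = 0 := by
    by_cases hq0 : q = 0
    · simp [hq0]
    have h3 : (H + 2 * X * derivative H).natDegree ≤ H.natDegree := by
      refine natDegree_add_le_of_degree_le le_rfl ?_
      by_cases hH0 : H.natDegree = 0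
      · rw [natDegree_eq_zero] at hH0
        obtain ⟨c, rfl⟩ := hH0
        simp
      · have h4 := natDegree_derivative_le H
        have h5 : (2 * X : k[X]).natDegree ≤ 1 := by compute_degree
        have := natDegree_mul_le (p := (2 * X : k[X])) (q := derivative H)
        omega
    rw [hq, natDegree_mul hT0 hq0] at h3
    omega
  obtain ⟨c, rfl⟩ := natDegree_eq_zero.1 hqd
  have hq' := congrArg derivative hq
  simp only [derivative_add, derivative_mul, derivative_X, derivative_ofNat, derivative_C] at hq'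
  have e1 := congrArg (eval 0) h1
  have e2 := congrArg (eval 0) hD1
  have e3 := congrArg (eval 0) hP
  have e4 := congrArg (eval 0) hD
  have e5 := congrArg (eval 0) hq
  have e6 := congrArg (eval 0) hq'
  simp only [eval_sub, eval_mul, eval_add, eval_pow, eval_X, eval_one, eval_ofNat, eval_C,
    eval_zero] at e1 e2 e3 e4 e5 e6
  generalize eval 0 H = a at *
  generalize eval 0 (derivative H) = a' at *
  generalize eval 0 T = t at *
  generalize eval 0 (derivative T) = t' at *
  have f1 : a ^ 2 = 1 := by linear_combination e1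
  have f2 : 2 * a * a' = 1 := by linear_combination e2 + f1
  have f3 : -2 * t ^ 2 = 1 := by linear_combination e3
  have f4 : t ^ 2 - 4 * t * t' = 1 := by linear_combination e4 + f1
  have f5 : a = t * c := by linear_combination e5
  have f6 : 3 * a' = t' * c := by linear_combination e6
  have f7 : c ^ 2 = -2 := by
    have : c ^ 2 * t ^ 2 = 1 := by rw [← f1, f5]; ring
    linear_combination (-c ^ 2) * f3 - 2 * this
  have f8 : a ^ 2 - 4 * a * (3 * a') = c ^ 2 := by
    rw [f6, f5]; linear_combination c ^ 2 * f4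
  linear_combination -f8 - f7 + f1 - 6 * f2

end Pool.Agent.MP_9b2bac_nt.Z.ZTree
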