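import Mathlib
import Pool.Agent.MP_9b2bac_nt.ZTree1

set_option autoImplicit false

namespace Pool.Agent.MP_9b2bac_nt.Z

/-- The quadratic map with fixed points `0` and `μ`. -/
def gq {R : Type} [CommRing R] (μ v : R) : R := v * (μ + 1 - v)

/-- Vertices of level `m` of the two preimage trees with roots `μ + 1` and `1`. -/
def Vert {R : Type} [CommRing R] (μ : R) (m : ℕ) (v : R) : Prop :=
  (gq μ)^[m] v = μ + 1 ∨ (gq μ)^[m] v = 1

namespace ZTree

section basic

variable {R S : Type} [CommRing R] [CommRing S]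

theorem map_gq (φ : R →+* S) (μ v : R) : φ (gq μ v) = gq (φ μ) (φ v) := by simp [gq]

theorem map_it (φ : R →+* S) (μ : R) (m : ℕ) (v : R) :
    φ ((gq μ)^[m] v) = (gq (φ μ))^[m] (φ v) := by
  induction m generalizing v with
  | zero => rfl
  | succ m ih => rw [Function.iterate_succ_apply, Function.iterate_succ_apply, ih, map_gq]

theorem vert_map (φ : R →+* S) {μ : R} {m : ℕ} {v : R} (h : Vert μ m v) :
    Vert (φ μ) m (φ v) := by
  rcases h with h | h
  · left; rw [← map_it, h]; simp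
  · right; rw [← map_it, h]; simp

theorem vert_of_map (φ : R →+* S) (hφ : Function.Injective φ) {μ : R} {m : ℕ} {v : R}
    (h : Vert (φ μ) m (φ v)) : Vert μ m v := by
  rcases h with h | h
  · left; apply hφ; rw [map_it, h]; simp
  · right; apply hφ; rw [map_it, h]; simp

theorem vert_succ {μ : R} {m : ℕ} {v : R} : Vert μ (m + 1) v ↔ Vert μ m (gq μ v) := Iff.rfl

theorem gq_sib (μ v : R) : gq μ (μ + 1 - v) = gq μ v := by simp only [gq]; ring

theorem it_neg (μ : R) (m : ℕ) (v : R) : (gq (-μ))^[m] (v - μ) = (gq μ)^[m] v - μ := by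
  induction m generalizing v with
  | zero => rfl
  | succ m ih =>
    rw [Function.iterate_succ_apply, Function.iterate_succ_apply, ← ih]
    congr 1
    simp only [gq]; ring

theorem vert_neg {μ : R} {m : ℕ} {v : R} (h : Vert μ m v) : Vert (-μ) m (v - μ) := by
  rcases h with h | h
  · right; rw [it_neg, h]; ring
  · left; rw [it_neg, h]; ring

theorem eq_or_sib [IsDomain R] {μ v w : R} (h : gq μ v = gq μ w) : v = w ∨ v = μ + 1 - w := by
  have : (v - w) * (v - (μ + 1 - w)) = 0 := by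
    simp only [gq] at h; linear_combination -h
  rcases mul_eq_zero.1 this with h | h
  · exact Or.inl (sub_eq_zero.1 h)
  · exact Or.inr (sub_eq_zero.1 h)

theorem it_fix {μ v : R} (h : gq μ v = v) (m : ℕ) : (gq μ)^[m] v = v :=
  Function.iterate_fixed h m

end basic

open Polynomial

section poly

variable {k : Type} [Field k]

/-- The orbit of the critical value. -/
noncomputable def PP (k : Type) [Field k] (m : ℕ) : k[X] :=
  (gq (X - 1 : k[X]))^[m] (C 4⁻¹ * X ^ 2)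

theorem PP_succ (m : ℕ) : PP k (m + 1) = PP k m * (X - PP k m) := by
  rw [PP, Function.iterate_succ_apply', gq, sub_add_cancel]; rfl

theorem four_ne (h2 : (2 : k) ≠ 0) : (4 : k) ≠ 0 := by
  rw [show (4 : k) = 2 * 2 by norm_num]; exact mul_ne_zero h2 h2

theorem PP_deg (h2 : (2 : k) ≠ 0) (m : ℕ) : ∃ j, (PP k m).natDegree = 2 * (j + 1) := by
  induction m with
  | zero =>
    refine ⟨0, ?_⟩
    show (C 4⁻¹ * X ^ 2 : k[X]).natDegree = _
    rw [natDegree_C_mul_X_pow 2 _ (inv_ne_zero (four_ne h2))]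
  | succ m ih =>
    obtain ⟨j, hj⟩ := ih
    have h1 : (X - PP k m).natDegree = 2 * (j + 1) := by
      rw [natDegree_sub_eq_right_of_natDegree_lt (by rw [hj, natDegree_X]; omega), hj]
    have h3 : PP k m ≠ 0 := by intro h; simp [h] at hj
    have h4 : X - PP k m ≠ 0 := by intro h; simp [h] at h1
    exact ⟨2 * j + 1, by rw [PP_succ, natDegree_mul h3 h4, hj, h1]; ring⟩

theorem PP_dvd (m : ℕ) : ∃ Q, PP k m = X ^ (m + 2) * Q := by
  induction m with
  | zero => exact ⟨C 4⁻¹, mul_comm _ _⟩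
  | succ m ih =>
    obtain ⟨Q, hQ⟩ := ih
    exact ⟨Q * (1 - X ^ (m + 1) * Q), by rw [PP_succ, hQ]; ring⟩

theorem PP_map {S : Type} [CommRing S] (φ : k[X] →+* S) (m : ℕ) :
    φ (PP k m) = (gq (φ X - 1))^[m] (φ (C 4⁻¹) * φ X ^ 2) := by
  rw [PP, map_it]; simp

theorem PP_eval (r : k) (m : ℕ) : (PP k m).eval r = (gq (r - 1))^[m] (4⁻¹ * r ^ 2) := by
  simpa using PP_map (evalRingHom r) m

theorem odd_root [IsAlgClosed k] (h2 : (2 : k) ≠ 0) (M : ℕ) : ∃ (r : k) (e : ℕ) (f1 : k[X]),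
    Odd e ∧ PP k M - X = (X - C r) ^ e * f1 ∧ f1.eval r ≠ 0 ∧ r ≠ 1 ∧
      ∀ m < M, ¬ Vert (r - 1) m (4⁻¹ * r ^ 2) := by
  rcases M with _ | M
  · refine ⟨0, 1, C 4⁻¹ * X - 1, odd_one, ?_, by simp, zero_ne_one, by simp⟩
    show C 4⁻¹ * X ^ 2 - X = _
    simp only [map_zero]; ring
  obtain ⟨Q, hQ⟩ := PP_dvd (k := k) (M + 1)
  obtain ⟨j, hj⟩ := PP_deg h2 (M + 1)
  set D : k[X] := X ^ 2 * (X ^ M * Q) - 1 with hD
  have hXD : PP k (M + 1) - X = X * D := by rw [hQ, hD]; ring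
  have hD0 : D.eval 0 = -1 := by simp [hD]
  have hDne : D ≠ 0 := by intro h; simp [h] at hD0
  have hdeg : D.natDegree = 2 * j + 1 := by
    have := congrArg natDegree hXD
    rw [natDegree_sub_eq_left_of_natDegree_lt (by rw [hj, natDegree_X]; omega), hj,
      natDegree_mul X_ne_zero hDne, natDegree_X] at this
    omega
  rcases odd_or_sq 1 _ D rfl hDne with ⟨r, e, f1, hr, he, h1, h3⟩ | ⟨H, hH | hH⟩
  · have hr0 : r ≠ 0 := by
      rintro rfl
      rw [h1] at hD0
      simp [he.pos.ne'] at hD0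
    have hM : (gq (r - 1))^[M + 1] (4⁻¹ * r ^ 2) = r := by
      have := congrArg (eval r) hXD
      rw [h1, eval_sub, PP_eval] at this
      simpa [he.pos.ne', sub_eq_zero] using this
    refine ⟨r, e, X * f1, he, by rw [hXD, h1]; ring, by simp [hr0, h3], hr, fun m hm hv => ?_⟩
    obtain ⟨i, hi⟩ : ∃ i, M + 1 = i + 1 + m := ⟨M - m, by omega⟩
    rw [hi, Function.iterate_add_apply, Function.iterate_succ_apply] at hM
    rcases hv with hv | hv
    · rw [hv, show gq (r - 1) (r - 1 + 1) = 0 by simp [gq], it_fix (by simp [gq])] at hM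
      exact hr0 hM.symm
    · rw [hv, show gq (r - 1) 1 = r - 1 by simp [gq], it_fix (by simp [gq])] at hM
      simp at hM
  · have := congrArg natDegree hH
    rw [hdeg, natDegree_pow] at this
    omega
  · exfalso
    rw [map_one] at hH
    have h4 : (C 4⁻¹ * 4 : k[X]) = 1 := by
      rw [show (4 : k[X]) = C 4 from rfl, ← C_mul, inv_mul_cancel₀ (four_ne h2), C_1]
    have hs : (PP k (M + 1)).comp (2 - X) = PP k (M + 1) - (X - 1) := by
      have := PP_map (compRingHom (2 - X : k[X])) (M + 1)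
      simp only [coe_compRingHom_apply, X_comp, C_comp] at this
      rw [this, PP, ← it_neg]
      congr 1
      · congr 1; ring
      · linear_combination (1 - X) * h4
    have h5 := congrArg (fun f => f.comp (2 - X : k[X])) hXD
    simp only [hH, sub_comp, mul_comp, X_comp, pow_comp, one_comp, hs] at h5
    have hP : (X - 2) * (H.comp (2 - X)) ^ 2 - X * H ^ 2 = 1 := by
      refine mul_left_cancel₀ (a := X - 1) (by simpa using X_sub_C_ne_zero (1 : k)) ?_
      rw [hH] at hXD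
      linear_combination hXD - h5
    have h3 := pell h2 H _ (hD.symm.trans hH) hP
    have h6 := congrArg (eval 1) hXD
    rw [hH, eval_sub, PP_eval, Function.iterate_succ_apply] at h6
    have h7 : (4⁻¹ : k) = 1 := by
      rw [show (4 : k) = 1 by linear_combination h3, inv_one]
    rw [h7, show gq (1 - 1 : k) (1 * 1 ^ 2) = 0 by simp [gq], it_fix (by simp [gq])] at h6
    simp at h6

end poly

/-- `γ` fixes the levels up to `M` and exchanges exactly the children of `y`. -/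
def Swap {Ω : Type} [CommRing Ω] (μ : Ω) (M : ℕ) (S : Set Ω) (γ : Ω → Ω) : Prop :=
  (∀ m ≤ M, ∀ v, Vert μ m v → γ v = v) ∧
    ∀ v, Vert μ (M + 1) v → (gq μ v ∈ S → γ v = μ + 1 - v) ∧ (gq μ v ∉ S → γ v = v)

section series

variable {k : Type} [Field k]

open PowerSeries in
theorem sqrt_ps [IsAlgClosed k] (h2 : (2 : k) ≠ 0) (u : PowerSeries k)
    (hu : PowerSeries.constantCoeff u ≠ 0) (hθ : rescale (-1) u = u) :
    ∃ w : PowerSeries k, w ^ 2 = u ∧ rescale (-1) w = w := by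
  obtain ⟨c, hc⟩ := IsAlgClosed.exists_pow_nat_eq (PowerSeries.constantCoeff u) two_pos
  have hc0 : c ≠ 0 := by rintro rfl; exact hu (by simpa using hc.symm)
  obtain ⟨w, hw, -⟩ := HenselianRing.is_henselian (I := Ideal.span {(PowerSeries.X : k⟦X⟧)})
    (Polynomial.X ^ 2 - Polynomial.C u) (Polynomial.monic_X_pow_sub_C u two_ne_zero)
    (PowerSeries.C c) (by
      rw [Ideal.mem_span_singleton, PowerSeries.X_dvd_iff]; simp [hc]) (by
      refine IsUnit.map _ ?_
      rw [isUnit_iff_constantCoeff]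
      simp [one_add_one_eq_two, map_ofNat, h2, hc0])
  have hw2 : w ^ 2 = u := by simpa [sub_eq_zero] using hw
  refine ⟨w, hw2, ?_⟩
  have h1 : (rescale (-1) w) ^ 2 = w ^ 2 := by rw [← map_pow, hw2, hθ]
  rcases sq_eq_sq_iff_eq_or_eq_neg.1 h1 with h | h
  · exact h
  · exfalso
    have h3 := congrArg (PowerSeries.coeff 0) h
    simp only [coeff_rescale, pow_zero, one_mul, map_neg, coeff_zero_eq_constantCoeff_apply] at h3
    have h4 : PowerSeries.constantCoeff w = 0 := by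
      have : 2 * PowerSeries.constantCoeff w = 0 := by linear_combination h3
      exact (mul_eq_zero.1 this).resolve_left h2
    exact hu (by rw [← hw2, map_pow, h4]; simp)

theorem child {R Ω : Type} [CommRing R] [CommRing Ω] [IsDomain Ω] (ι : R →+* Ω) {μ h x w : R}
    (hh : 2 * h = μ + 1) (hw : w ^ 2 = h ^ 2 - x) {v : Ω} (hv : gq (ι μ) v = ι x) :
    v = ι (h + w) ∨ v = ι (h - w) := by
  have h1 : gq μ (h + w) = x := by
    simp only [gq]; linear_combination -hw - (h + w) * hh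
  rw [← h1, map_gq] at hv
  rcases eq_or_sib hv with h2 | h2
  · exact Or.inl h2
  · right
    rw [h2, show h - w = μ + 1 - (h + w) by linear_combination hh]; simp

open PowerSeries in
theorem swap_ps [IsAlgClosed k] (h2 : (2 : k) ≠ 0) (M : ℕ) : ∃ r : k,
    ∀ (Ω : Type) [Field Ω] (ι : k⟦X⟧ →+* Ω) (θ : Ω →+* Ω), Function.Injective ι →
      (∀ x, θ (ι x) = ι (rescale (-1) x)) →
      ∃ y, (gq (ι (PowerSeries.C r + PowerSeries.X ^ 2 - 1)))^[M] y =
          ι (PowerSeries.C r + PowerSeries.X ^ 2 - 1) + 1 ∧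
        Swap (ι (PowerSeries.C r + PowerSeries.X ^ 2 - 1)) M {y} θ := by
  obtain ⟨r, e, f1, he, hP, hf1, hr1, hb⟩ := odd_root h2 M
  refine ⟨r, fun Ω _ ι θ hι hθ => ?_⟩
  have hM : (gq (r - 1))^[M] (4⁻¹ * r ^ 2) = r := by
    have := congrArg (eval r) hP
    rw [eval_sub, PP_eval] at this
    simpa [he.pos.ne', sub_eq_zero] using this
  set μ : k⟦X⟧ := PowerSeries.C r + PowerSeries.X ^ 2 - 1 with hμ
  set h : k⟦X⟧ := PowerSeries.C 2⁻¹ * (μ + 1) with hh
  have hC : ∀ c : k, rescale (-1 : k) (PowerSeries.C c) = PowerSeries.C c := fun c => by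
    ext n; rw [coeff_rescale, PowerSeries.coeff_C]; split_ifs with h <;> simp [h]
  have hX : rescale (-1 : k) (PowerSeries.X : k⟦X⟧) = -PowerSeries.X := by simp [rescale_X]
  have hθμ : rescale (-1 : k) μ = μ := by simp [hμ, hC, hX]
  have hθh : rescale (-1 : k) h = h := by simp [hh, hC, hθμ]
  have hh2 : 2 * h = μ + 1 := by
    rw [hh, ← mul_assoc, show (2 : k⟦X⟧) = PowerSeries.C 2 from (map_ofNat _ 2).symm, ← map_mul,
      mul_inv_cancel₀ h2, map_one, one_mul]
  have hπμ : PowerSeries.constantCoeff μ = r - 1 := by simp [hμ]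
  have hπh : PowerSeries.constantCoeff h = 2⁻¹ * r := by simp [hh, hπμ]
  have h4 : (2⁻¹ * r) ^ 2 = 4⁻¹ * r ^ 2 := by
    rw [show (4 : k) = 2 ^ 2 by norm_num, mul_pow, inv_pow]
  have hg0 : ∀ a : k, 2 * a = r → gq (r - 1) a = 4⁻¹ * r ^ 2 := fun a ha => by
    rw [← ha, gq]; field_simp [four_ne h2]; ring
  have hsq : ∀ x : k⟦X⟧, rescale (-1) x = x → PowerSeries.constantCoeff x ≠ 4⁻¹ * r ^ 2 →
      ∃ w : k⟦X⟧, w ^ 2 = h ^ 2 - x ∧ rescale (-1) w = w := fun x hx hx' =>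
    sqrt_ps h2 _ (by rw [map_sub, map_pow, hπh, h4]; exact sub_ne_zero.2 hx'.symm)
      (by simp [hθh, hx])
  have hv0 : ∀ m < M, ∀ x : k⟦X⟧, Vert μ m x → PowerSeries.constantCoeff x ≠ 4⁻¹ * r ^ 2 :=
    fun m hm x hx h' => hb m hm (by simpa only [hπμ, h'] using vert_map PowerSeries.constantCoeff hx)
  have hA : ∀ m ≤ M, ∀ v, Vert (ι μ) m v → ∃ x : k⟦X⟧, rescale (-1) x = x ∧ ι x = v := by
    intro m
    induction m with
    | zero =>
      rintro - v (hv | hv)
      · exact ⟨μ + 1, by simp [hθμ], by simpa using hv.symm⟩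
      · exact ⟨1, by simp, by simpa using hv.symm⟩
    | succ m ih =>
      intro hm v hv
      obtain ⟨x, hx, hxv⟩ := ih (by omega) _ (vert_succ.1 hv)
      obtain ⟨w, hw, hw'⟩ := hsq x hx (hv0 m (by omega) x
        (vert_of_map ι hι (hxv ▸ vert_succ.1 hv)))
      rcases child ι hh2 hw hxv.symm with h1 | h1
      · exact ⟨h + w, by simp [hθh, hw'], h1.symm⟩
      · exact ⟨h - w, by simp [hθh, hw'], h1.symm⟩
  have hE : ∀ j i, i + j = M → ∃ x : k⟦X⟧, rescale (-1) x = x ∧ (gq μ)^[j] x = μ + 1 ∧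
      PowerSeries.constantCoeff x = (gq (r - 1))^[i] (4⁻¹ * r ^ 2) := by
    intro j
    induction j with
    | zero =>
      intro i hi
      obtain rfl : i = M := hi
      exact ⟨μ + 1, by simp [hθμ], rfl, by simp [hπμ, hM]⟩
    | succ j ih =>
      intro i hi
      obtain ⟨x, hx, hx1, hx2⟩ := ih (i + 1) (by omega)
      obtain ⟨w, hw, hw'⟩ := hsq x hx (hv0 j (by omega) x (Or.inl hx1))
      rw [Function.iterate_succ_apply', ← hπμ] at hx2
      have h1 : ∀ w' : k⟦X⟧, w' ^ 2 = h ^ 2 - x → gq μ (h + w') = x := fun w' hw => by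
        simp only [gq]; linear_combination -hw - (h + w') * hh2
      rcases child PowerSeries.constantCoeff hh2 hw hx2.symm with h3 | h3
      · exact ⟨h + w, by simp [hθh, hw'], by rw [Function.iterate_succ_apply, h1 w hw, hx1],
          by rw [← hπμ, h3]⟩
      · exact ⟨h - w, by simp [hθh, hw'], by
          rw [Function.iterate_succ_apply, sub_eq_add_neg, h1 (-w) (by rw [neg_sq, hw]), hx1],
          by rw [← hπμ, h3]⟩
  have hU : ∀ m ≤ M, ∀ x x' : k⟦X⟧, (gq μ)^[m] x = μ + 1 → (gq μ)^[m] x' = μ + 1 →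
      PowerSeries.constantCoeff x = PowerSeries.constantCoeff x' → x = x' := by
    intro m
    induction m with
    | zero => intro _ x x' hx hx' _; exact hx.trans hx'.symm
    | succ m ih =>
      intro hm x x' hx hx' hc
      have h1 := ih (by omega) _ _ hx hx' (by rw [map_gq, map_gq, hc])
      refine (eq_or_sib h1).resolve_right fun h3 => hv0 m (by omega) _ (Or.inl hx) ?_
      rw [map_gq, hπμ]
      refine hg0 _ ?_
      have := congrArg PowerSeries.constantCoeff h3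
      simp only [map_sub, map_add, hπμ, map_one, ← hc] at this
      linear_combination this
  obtain ⟨y, hy, hy1, hy2⟩ := hE M 0 (zero_add M)
  replace hy2 : PowerSeries.constantCoeff y = 4⁻¹ * r ^ 2 := hy2
  have hV : ∀ i ≤ M, ∃ u : k⟦X⟧, PowerSeries.constantCoeff u ≠ 0 ∧
      (gq μ)^[i] (h ^ 2) - (gq μ)^[i] y = (h ^ 2 - y) * u := by
    intro i
    induction i with
    | zero => exact fun _ => ⟨1, by simp, by simp⟩
    | succ i ih =>
      intro hi
      obtain ⟨u, hu, hu'⟩ := ih (by omega)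
      refine ⟨u * (μ + 1 - (gq μ)^[i] (h ^ 2) - (gq μ)^[i] y), ?_, ?_⟩
      · rw [map_mul]
        refine mul_ne_zero hu fun h0 => ?_
        simp only [map_sub, map_add, map_it, hπμ, map_pow, hπh, h4, hy2, map_one] at h0
        have h1 := hg0 ((gq (r - 1))^[i] (4⁻¹ * r ^ 2)) (by linear_combination -h0)
        obtain ⟨j, hj⟩ : ∃ j, M = j + (i + 1) := ⟨M - (i + 1), by omega⟩
        have h3 := hM
        rw [hj, Function.iterate_add_apply, Function.iterate_succ_apply', h1] at h3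
        exact hb j (by omega) (Or.inl (by rw [h3]; ring))
      · rw [Function.iterate_succ_apply', Function.iterate_succ_apply', ← mul_assoc, ← hu']
        simp only [gq]; ring
  obtain ⟨u, hu, hu'⟩ := hV M le_rfl
  have hP' := congrArg (aeval (μ + 1) : k[X] →ₐ[k] k⟦X⟧) hP
  have hPP := PP_map (aeval (μ + 1) : k[X] →ₐ[k] k⟦X⟧).toRingHom M
  simp only [AlgHom.toRingHom_eq_coe, RingHom.coe_coe, aeval_X, aeval_C, add_sub_cancel_right]
    at hPP
  have hk : algebraMap k k⟦X⟧ 4⁻¹ * (μ + 1) ^ 2 = h ^ 2 := by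
    rw [hh, mul_pow, ← map_pow, show (2⁻¹ : k) ^ 2 = 4⁻¹ by
      rw [show (4 : k) = 2 ^ 2 by norm_num, inv_pow]]
    rfl
  rw [map_sub, hPP, hk, aeval_X, map_mul, map_pow, map_sub, aeval_X, aeval_C,
    show μ + 1 - algebraMap k k⟦X⟧ r = PowerSeries.X ^ 2 by
      rw [hμ, show algebraMap k k⟦X⟧ r = PowerSeries.C r from rfl]; ring] at hP'
  have hu1 : PowerSeries.constantCoeff (aeval (μ + 1) f1 : k⟦X⟧) ≠ 0 := by
    have : (PowerSeries.constantCoeff : k⟦X⟧ →+* k).comp (aeval (μ + 1) : k[X] →ₐ[k] k⟦X⟧).toRingHom =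
        evalRingHom r := by
      refine Polynomial.ringHom_ext (fun a => ?_) ?_
      · simp [show algebraMap k k⟦X⟧ a = PowerSeries.C a from rfl]
      · simp [hπμ]
    rw [← coe_evalRingHom, ← this] at hf1
    exact hf1
  set u1 : k⟦X⟧ := aeval (μ + 1) f1 * u⁻¹ with hu1'
  have hy3 : h ^ 2 - y = (PowerSeries.X ^ 2) ^ e * u1 := by
    rw [hu1', ← mul_assoc, ← hP', ← hy1, hu', mul_assoc, PowerSeries.mul_inv_cancel _ hu, mul_one]
  have hθu : rescale (-1 : k) u1 = u1 := by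
    have := congrArg (rescale (-1 : k)) hy3
    rw [map_sub, map_pow, hθh, hy, hy3, map_mul, map_pow, map_pow, hX, neg_sq] at this
    exact (mul_left_cancel₀ (by simp [PowerSeries.X_ne_zero]) this).symm
  obtain ⟨w1, hw1, hw1'⟩ := sqrt_ps h2 u1 (by simp [hu1', hu1, hu]) hθu
  have hw : (PowerSeries.X ^ e * w1) ^ 2 = h ^ 2 - y := by rw [hy3, ← hw1]; ring
  have hw' : rescale (-1 : k) (PowerSeries.X ^ e * w1) = -(PowerSeries.X ^ e * w1) := by
    rw [map_mul, map_pow, hX, hw1', he.neg_pow]; ring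
  refine ⟨ι y, by rw [← map_it, hy1]; simp, fun m hm v hv => ?_, fun v hv => ?_⟩
  · obtain ⟨x, hx, rfl⟩ := hA m hm v hv
    rw [hθ, hx]
  obtain ⟨x, hx, hxv⟩ := hA M le_rfl _ (vert_succ.1 hv)
  rw [← hxv, Set.mem_singleton_iff, hι.eq_iff]
  refine ⟨fun hxy => ?_, fun hxy => ?_⟩
  · subst hxy
    rw [← map_one ι, ← map_add, ← hh2]
    rcases child ι hh2 hw hxv.symm with h1 | h1 <;>
    · rw [h1, hθ, ← map_sub]
      congr 1
      simp only [map_add, map_sub, hθh, hw']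
      ring
  · have hx0 : PowerSeries.constantCoeff x ≠ 4⁻¹ * r ^ 2 := fun h0 => by
      rcases vert_of_map ι hι (hxv ▸ vert_succ.1 hv) with h1 | h1
      · exact hxy (hU M le_rfl _ _ h1 hy1 (h0.trans hy2.symm))
      · have := congrArg PowerSeries.constantCoeff h1
        rw [map_it, hπμ, h0, hM, map_one] at this
        exact hr1 this
    obtain ⟨w, hw, hw'⟩ := hsq x hx hx0
    rcases child ι hh2 hw hxv.symm with h1 | h1 <;>
    · rw [h1, hθ]; simp [hθh, hw']

end series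

theorem pull {O Ω : Type} [Field O] [IsAlgClosed O] [Field Ω] (ψ : O →+* Ω) (μ : O) (m : ℕ) :
    ∀ v, Vert (ψ μ) m v → ∃ v0, ψ v0 = v := by
  induction m with
  | zero =>
    rintro v (hv | hv)
    · exact ⟨μ + 1, by simpa using hv.symm⟩
    · exact ⟨1, by simpa using hv.symm⟩
  | succ m ih =>
    intro v hv
    obtain ⟨x, hx⟩ := ih _ (vert_succ.1 hv)
    obtain ⟨z, hz⟩ := IsAlgClosed.exists_root (C 1 * X ^ 2 + C (-(μ + 1)) * X + C x : O[X])
      (by rw [degree_quadratic one_ne_zero]; simp)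
    have h1 : gq μ z = x := by
      simp only [IsRoot.def, eval_add, eval_mul, eval_C, eval_pow, eval_X] at hz
      simp only [gq]; linear_combination -hz
    rw [← h1, map_gq] at hx
    rcases eq_or_sib hx.symm with h | h
    · exact ⟨z, h.symm⟩
    · exact ⟨μ + 1 - z, by simp [h]⟩

variable (k : Type) {Ω : Type} [Field k] [Field Ω] [Algebra k Ω]

/-- Automorphisms over `k (μ)`. -/
def Fix (μ : Ω) (γ : Ω ≃+* Ω) : Prop :=
  (∀ c : k, γ (algebraMap k Ω c) = algebraMap k Ω c) ∧ γ μ = μ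

variable {k}

theorem Fix.refl (μ : Ω) : Fix k μ (RingEquiv.refl Ω) := ⟨fun _ => rfl, rfl⟩

theorem Fix.trans {μ : Ω} {γ δ : Ω ≃+* Ω} (h : Fix k μ γ) (h' : Fix k μ δ) :
    Fix k μ (γ.trans δ) := ⟨fun c => by simp [h.1, h'.1], by simp [h.2, h'.2]⟩

theorem Fix.symm {μ : Ω} {γ : Ω ≃+* Ω} (h : Fix k μ γ) : Fix k μ γ.symm :=
  ⟨fun c => γ.symm_apply_eq.2 (h.1 c).symm, γ.symm_apply_eq.2 h.2.symm⟩

theorem Fix.gq {μ : Ω} {γ : Ω ≃+* Ω} (h : Fix k μ γ) (v : Ω) : γ (gq μ v) = gq μ (γ v) := by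
  simp [Z.gq, h.2]

theorem Fix.vert {μ : Ω} {γ : Ω ≃+* Ω} (h : Fix k μ γ) {m : ℕ} {v : Ω} (hv : Vert μ m v) :
    Vert μ m (γ v) := by
  simpa [h.2] using vert_map γ.toRingHom hv

theorem inj_aeval {μ : Ω} (hμ : Transcendental k μ) :
    Function.Injective (aeval (μ + 1) : k[X] →ₐ[k] Ω) := by
  refine transcendental_iff_injective.1 fun h => hμ ?_
  simpa using h.sub (isAlgebraic_one (R := k) (A := Ω))

theorem swap_one [IsAlgClosed k] [IsAlgClosed Ω] (h2 : (2 : k) ≠ 0) {μ : Ω}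
    (hμ : Transcendental k μ) (M : ℕ) :
    ∃ y γ, Fix k μ γ ∧ (gq μ)^[M] y = μ + 1 ∧ Swap μ M {y} γ := by
  obtain ⟨r, hr⟩ := swap_ps h2 M
  let F := FractionRing (PowerSeries k)
  let Ω' := AlgebraicClosure F
  have hi : Function.Injective (algebraMap (PowerSeries k) Ω') := by
    rw [IsScalarTower.algebraMap_eq (PowerSeries k) F Ω', RingHom.coe_comp]
    exact (algebraMap F Ω').injective.comp (IsFractionRing.injective _ F)
  haveI : Algebra.IsAlgebraic (PowerSeries k) Ω' := by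
    haveI : Algebra.IsAlgebraic (PowerSeries k) F :=
      IsLocalization.isAlgebraic _ (nonZeroDivisors _)
    exact Algebra.IsAlgebraic.trans (PowerSeries k) F Ω'
  obtain ⟨θ, hθ⟩ := lift_hom hi ((algebraMap _ Ω').comp (PowerSeries.rescale (-1)))
    (hi.comp (PowerSeries.rescale_injective (by simp)))
  obtain ⟨y', hy', hS⟩ := hr Ω' _ θ hi hθ
  let a1 : k[X] →+* PowerSeries k :=
    coeToPowerSeries.ringHom.comp (compRingHom (C r + X ^ 2))
  have ha1 : Function.Injective a1 := by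
    rw [injective_iff_map_eq_zero]
    intro f hf
    have : f.comp (C r + X ^ 2) = 0 := by simpa [a1] using hf
    refine (comp_eq_zero_iff.1 this).resolve_right fun h => ?_
    have := congrArg (coeff · 2) h.2
    simp [coeff_C] at this
  have ha2 : (PowerSeries.rescale (-1)).comp a1 = a1 := by
    refine Polynomial.ringHom_ext (fun a => ?_) ?_
    · ext n
      simp only [a1, RingHom.comp_apply, coe_compRingHom_apply, C_comp,
        coeToPowerSeries.ringHom_apply, PowerSeries.coeff_rescale, coeff_coe, coeff_C]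
      split_ifs with h <;> simp [h]
    · ext n
      simp only [a1, RingHom.comp_apply, coe_compRingHom_apply, X_comp,
        coeToPowerSeries.ringHom_apply, PowerSeries.coeff_rescale, coeff_coe, coeff_C, coeff_add,
        coeff_X_pow]
      split_ifs with h h' h' <;> simp_all
  obtain ⟨O, _, _, a0, ψ, ψ', γ0, γ, h1, h3, h4, h5, h6⟩ := transfer k Ω Ω'
    (aeval (μ + 1) : k[X] →ₐ[k] Ω).toRingHom ((algebraMap _ Ω').comp a1) (inj_aeval hμ)
    (hi.comp ha1) θ (fun f => by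
      rw [RingHom.comp_apply, hθ, RingHom.comp_apply, ← RingHom.comp_apply _ a1, ha2])
  have e1 : ψ (a0 (X - 1)) = μ := by rw [h1]; simp
  have e2 : ψ' (a0 (X - 1)) =
      algebraMap _ Ω' (PowerSeries.C r + PowerSeries.X ^ 2 - 1 : PowerSeries k) := by
    rw [h3]; simp [a1]
  rw [← e2] at hy' hS
  generalize a0 (X - 1) = μ0 at e1 hy' hS
  obtain ⟨y0, rfl⟩ := pull ψ' μ0 M y' (Or.inl hy')
  have hy0 : (gq μ0)^[M] y0 = μ0 + 1 := ψ'.injective (by rw [map_it, hy']; simp)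
  refine ⟨ψ y0, γ, ⟨fun c => by simpa using h4 (C c), by simpa using h4 X⟩,
    by rw [← e1, ← map_it, hy0]; simp, fun m hm v hv => ?_, fun v hv => ?_⟩
  · rw [← e1] at hv
    obtain ⟨v0, rfl⟩ := pull ψ μ0 m v hv
    have := hS.1 m hm _ (vert_map ψ' (vert_of_map ψ ψ.injective hv))
    rw [h6, ψ'.injective.eq_iff] at this
    rw [h5, this]
  · rw [← e1] at hv ⊢
    obtain ⟨v0, rfl⟩ := pull ψ μ0 _ v hv
    have := hS.2 _ (vert_map ψ' (vert_of_map ψ ψ.injective hv))
    rw [h6, ← map_gq, Set.mem_singleton_iff, ← map_one ψ', ← map_add, ← map_sub] at this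
    rw [h5, ← map_gq, Set.mem_singleton_iff, ← map_one ψ, ← map_add, ← map_sub]
    simpa only [ψ.injective.eq_iff, ψ'.injective.eq_iff] using this

theorem swap_root [IsAlgClosed k] [IsAlgClosed Ω] (h2 : (2 : k) ≠ 0) {μ : Ω}
    (hμ : Transcendental k μ) (M : ℕ) {c : Ω} (hc : c = μ + 1 ∨ c = 1) :
    ∃ y γ, Fix k μ γ ∧ (gq μ)^[M] y = c ∧ Swap μ M {y} γ := by
  rcases hc with rfl | rfl
  · exact swap_one h2 hμ M
  obtain ⟨y, γ, hγ, hy, hS⟩ := swap_one h2 (μ := -μ) (fun h => hμ (by simpa using h.neg)) M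
  have hγμ : γ μ = μ := by simpa using hγ.2
  refine ⟨y + μ, γ, ⟨hγ.1, hγμ⟩, ?_, fun m hm v hv => ?_, fun v hv => ?_⟩
  · have := it_neg μ M (y + μ)
    rw [add_sub_cancel_right, hy] at this
    linear_combination -this
  · simpa [hγμ] using hS.1 m hm _ (vert_neg hv)
  · have := hS.2 _ (vert_neg hv)
    have h1 : gq (-μ) (v - μ) = gq μ v - μ := it_neg μ 1 v
    rw [h1, map_sub, hγμ, Set.mem_singleton_iff, sub_eq_iff_eq_add] at this
    exact ⟨fun h => by linear_combination this.1 h, fun h => by linear_combination this.2 h⟩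

theorem conj {μ : Ω} {M : ℕ} {y : Ω} {γ δ : Ω ≃+* Ω} (hδ : Fix k μ δ) (hS : Swap μ M {y} γ) :
    Swap μ M {δ y} (δ.symm.trans (γ.trans δ)) := by
  refine ⟨fun m hm v hv => ?_, fun v hv => ?_⟩
  · simp [hS.1 m hm _ (hδ.symm.vert hv)]
  · have := hS.2 _ (hδ.symm.vert hv)
    rw [← hδ.symm.gq, Set.mem_singleton_iff, RingEquiv.symm_apply_eq] at this
    exact ⟨fun h => by simp [this.1 h, hδ.2], fun h => by simp [this.2 h]⟩

theorem trans_level [IsAlgClosed k] [IsAlgClosed Ω] (h2 : (2 : k) ≠ 0) {μ : Ω}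
    (hμ : Transcendental k μ) {c : Ω} (hc : c = μ + 1 ∨ c = 1) (M : ℕ) :
    ∀ y y', (gq μ)^[M] y = c → (gq μ)^[M] y' = c → ∃ γ, Fix k μ γ ∧ γ y = y' := by
  induction M with
  | zero => exact fun y y' h h' => ⟨_, Fix.refl μ, h.trans h'.symm⟩
  | succ M ih =>
    intro y y' h h'
    obtain ⟨γ, hγ, h1⟩ := ih _ _ h h'
    rw [hγ.gq] at h1
    rcases eq_or_sib h1 with h3 | h3
    · exact ⟨γ, hγ, h3⟩
    obtain ⟨z, σ, hσ, hz, hS⟩ := swap_root h2 hμ M hc
    obtain ⟨δ, hδ, h4⟩ := ih _ _ hz h'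
    refine ⟨γ.trans _, hγ.trans (hδ.symm.trans (hσ.trans hδ)), ?_⟩
    have hv : Vert μ (M + 1) (γ y) := hγ.vert (by rcases hc with rfl | rfl; exacts [.inl h, .inr h])
    rw [RingEquiv.trans_apply, ((conj hδ hS).2 _ hv).1 (by rw [h1, h4]; rfl), h3]
    ring

theorem swap_set [IsAlgClosed k] [IsAlgClosed Ω] (h2 : (2 : k) ≠ 0) {μ : Ω}
    (hμ : Transcendental k μ) (M : ℕ) {S : Set Ω} (hS : S.Finite) :
    (∀ y ∈ S, Vert μ M y) → ∃ γ, Fix k μ γ ∧ Swap μ M S γ := by
  induction S, hS using Set.Finite.induction_on with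
  | empty => exact fun _ => ⟨_, Fix.refl μ, fun _ _ _ _ => rfl, fun _ _ => ⟨by simp, fun _ => rfl⟩⟩
  | @insert y S hy _ ih =>
    intro h
    obtain ⟨γ, hγ, h1⟩ := ih fun z hz => h z (Set.mem_insert_of_mem _ hz)
    obtain ⟨c, hc, hyc⟩ : ∃ c, (c = μ + 1 ∨ c = 1) ∧ (gq μ)^[M] y = c :=
      ⟨_, h y (Set.mem_insert _ _), rfl⟩
    obtain ⟨z, σ, hσ, hz, hS⟩ := swap_root h2 hμ M hc
    obtain ⟨δ, hδ, rfl⟩ := trans_level h2 hμ hc M _ _ hz hyc
    have h3 := conj hδ hS
    have h4 := hδ.symm.trans (hσ.trans hδ)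
    generalize δ.symm.trans (σ.trans δ) = τ at h3 h4
    refine ⟨γ.trans τ, hγ.trans h4, fun m hm v hv => ?_, fun v hv => ⟨fun hv' => ?_, fun hv' => ?_⟩⟩
    · rw [RingEquiv.trans_apply, h1.1 m hm v hv, h3.1 m hm v hv]
    · rcases hv' with h5 | h5
      · rw [RingEquiv.trans_apply, (h1.2 v hv).2 (h5 ▸ hy), (h3.2 v hv).1 h5]
      · rw [RingEquiv.trans_apply, (h1.2 v hv).1 h5, (h3.2 _ (by rwa [vert_succ, gq_sib])).2]
        rw [gq_sib]
        exact fun h6 => hy ((show gq μ v = δ z from h6) ▸ h5)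
    · rw [Set.mem_insert_iff, not_or] at hv'
      rw [RingEquiv.trans_apply, (h1.2 v hv).2 hv'.2, (h3.2 v hv).2 hv'.1]

theorem finite_vert (μ : Ω) (m : ℕ) : {v | Vert μ m v}.Finite := by
  induction m with
  | zero => exact (Set.toFinite {μ + 1, 1}).subset fun v hv => hv
  | succ m ih =>
    refine ih.preimage' (f := gq μ) fun b _ => ?_
    by_cases h : ∃ w, gq μ w = b
    · obtain ⟨w, rfl⟩ := h
      exact (Set.toFinite {w, μ + 1 - w}).subset fun v hv => eq_or_sib hv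
    · exact Set.finite_empty.subset fun v hv => h ⟨v, hv⟩

theorem ne_sib (h2 : (2 : k) ≠ 0) {μ : Ω} (hμ : Transcendental k μ) {m : ℕ} {v : Ω}
    (hv : Vert μ (m + 1) v) : v ≠ μ + 1 - v := by
  intro h
  have hP := PP_map (aeval (μ + 1) : k[X] →ₐ[k] Ω).toRingHom m
  simp only [AlgHom.toRingHom_eq_coe, RingHom.coe_coe, aeval_X, aeval_C, add_sub_cancel_right]
    at hP
  have h4 : algebraMap k Ω 4⁻¹ * 4 = 1 := by
    rw [← map_ofNat (algebraMap k Ω) 4, ← map_mul, inv_mul_cancel₀ (four_ne h2), map_one]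
  have h1 : gq μ v = algebraMap k Ω 4⁻¹ * (μ + 1) ^ 2 := by
    rw [show μ + 1 = 2 * v by linear_combination -h, gq, ← h]
    linear_combination -v ^ 2 * h4
  obtain ⟨j, hj⟩ := PP_deg h2 m
  rw [vert_succ, Vert, h1, ← hP] at hv
  rcases hv with hv | hv
  · have : PP k m = X := inj_aeval hμ (by rw [hv]; simp)
    rw [this, natDegree_X] at hj
    omega
  · have : PP k m = 1 := inj_aeval hμ (by rw [hv]; simp)
    rw [this, natDegree_one] at hj
    omega

end ZTree

open ZTree in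
theorem tree_odd (k Ω : Type) [Field k] [IsAlgClosed k] (h2 : (2 : k) ≠ 0) [Field Ω]
    [IsAlgClosed Ω] [Algebra k Ω] (μ : Ω) (hμ : Transcendental k μ) (M : ℕ) (lab : Ω → Bool)
    (hlab : ∀ m v v', Vert μ (m + 1) v → gq μ v = gq μ v' → v ≠ v' → lab v ≠ lab v')
    (flip : Ω → Bool) :
    ∃ γ : Ω ≃+* Ω, (∀ c : k, γ (algebraMap k Ω c) = algebraMap k Ω c) ∧ γ μ = μ ∧
      ∀ m, m < M → ∀ v, Vert μ (m + 1) v → lab (γ v) = xor (lab v) (flip (gq μ v)) := by
  suffices h : ∃ γ : Ω ≃+* Ω, Fix k μ γ ∧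
      ∀ m, m < M → ∀ v, Vert μ (m + 1) v → lab (γ v) = xor (lab v) (flip (gq μ v)) by
    obtain ⟨γ, hγ, h⟩ := h
    exact ⟨γ, hγ.1, hγ.2, h⟩
  have hs : ∀ m v, Vert μ (m + 1) v → lab (μ + 1 - v) = !lab v := fun m v hv => by
    have := hlab m v _ hv (gq_sib μ v).symm (ne_sib h2 hμ hv)
    revert this
    cases lab v <;> cases lab (μ + 1 - v) <;> simp
  induction M with
  | zero => exact ⟨_, Fix.refl μ, by simp⟩
  | succ M ih =>
    obtain ⟨γ, hγ, h⟩ := ih
    obtain ⟨σ, hσ, hS⟩ := swap_set h2 hμ M (S := {x | Vert μ M x ∧ ∃ v, gq μ v = x ∧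
      lab (γ v) ≠ xor (lab v) (flip x)}) ((finite_vert μ M).subset fun _ h => h.1) fun _ h => h.1
    refine ⟨σ.trans γ, hσ.trans hγ, fun m hm v hv => ?_⟩
    rw [RingEquiv.trans_apply]
    rcases Nat.lt_succ_iff_lt_or_eq.1 hm with hm | rfl
    · rw [hS.1 _ hm v hv, h m hm v hv]
    have h1 : lab (γ (μ + 1 - v)) = !lab (γ v) := by
      rw [map_sub, map_add, map_one, hγ.2, hs m _ (hγ.vert hv)]
    by_cases hw : lab (γ v) = xor (lab v) (flip (gq μ v))
    · rw [(hS.2 v hv).2, hw]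
      rintro ⟨-, w, hw1, hw2⟩
      rcases eq_or_sib hw1 with rfl | rfl
      · exact hw2 hw
      · rw [h1, hs m v hv, hw] at hw2
        simp at hw2
    · rw [(hS.2 v hv).1 ⟨hv, v, rfl, hw⟩, h1]
      revert hw
      cases lab (γ v) <;> cases xor (lab v) (flip (gq μ v)) <;> simp

theorem tree (k Ω : Type) [Field k] [IsAlgClosed k] [CharZero k] [Field Ω] [IsAlgClosed Ω]
    [Algebra k Ω] (μ : Ω) (hμ : Transcendental k μ) (M : ℕ) (lab : Ω → Bool)
    (hlab : ∀ m v v', Vert μ (m + 1) v → gq μ v = gq μ v' → v ≠ v' → lab v ≠ lab v')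
    (flip : Ω → Bool) :
    ∃ γ : Ω →+* Ω, (∀ c : k, γ (algebraMap k Ω c) = algebraMap k Ω c) ∧ γ μ = μ ∧
      ∀ m, m < M → ∀ v, Vert μ (m + 1) v → lab (γ v) = xor (lab v) (flip (gq μ v)) := by
  obtain ⟨γ, h⟩ := tree_odd k Ω two_ne_zero μ hμ M lab hlab flip
  exact ⟨γ.toRingHom, h⟩

end Pool.Agent.MP_9b2bac_nt.Z
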