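import Mathlib
import Pool.Agent.MP_9b2bac_nt.ZRing

/- Uniqueness of lifts in the degeneration where two roots collide. -/

set_option autoImplicit false

namespace Pool.Agent.MP_9b2bac_nt.Z

open Finset PowerSeries

variable {d : ℕ} {K : Type} [Field K]

theorem unit_of_c0 {f : K⟦X⟧} (h : constantCoeff f ≠ 0) : IsUnit f :=
  isUnit_iff_constantCoeff.2 (Ne.isUnit h)

theorem sum_two {C : Type} [AddCommMonoid C] {a b : Fin d} (hab : a ≠ b) (f : Fin d → C) :
    ∑ j, f j = f a + f b + ∑ j ∈ (univ.erase a).erase b, f j := by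
  rw [← add_sum_erase _ _ (mem_univ a), ← add_sum_erase _ _ (mem_erase.2 ⟨hab.symm, mem_univ b⟩),
    add_assoc]

theorem u2 {a b : Fin d} (hab : a ≠ b) {lam : Fin d → K⟦X⟧} {ν : K} (hν : ν ≠ 0)
    (hb : lam b = lam a + X)
    (hl : ∀ j k, j ≠ k → k ≠ a → k ≠ b → constantCoeff (lam j) ≠ constantCoeff (lam k))
    {x x' : ℤ → K⟦X⟧} {w w' : ℤ → Fin d → K⟦X⟧} (h : Sys lam (X * C ν) x w)
    (h' : Sys lam (X * C ν) x' w') (s : Seq d)
    (hs : ∀ i, ∃ k : ℕ, s (i + k) ≠ a ∧ s (i + k) ≠ b)
    (he : ∀ i, s i ≠ a → s i ≠ b → X ∣ x i - lam (s i) ∧ X ∣ x' i - lam (s i))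
    (hx : ∀ i, s i = a ∨ s i = b → X ∣ x i - lam a ∧ X ∣ x' i - lam a)
    (hw : ∀ i j, X ∣ w i j - w' i j)
    (hnd : ∀ i, s i = a ∨ s i = b →
      constantCoeff (w i a - w i b + C ν * (w (i + 1) a + w (i + 1) b)) ≠ 0) : w = w' := by
  classical
  have e : ∀ i j, (lam j - x i) * (w i j - w' i j) =
      X * C ν * (w (i + 1) j - w' (i + 1) j) + (x i - x' i) * w' i j := fun i j => by
    linear_combination h'.step i j - h.step i j
  have hu : ∀ {y : K⟦X⟧} {j k : Fin d}, X ∣ y - lam k →
      constantCoeff (lam j) ≠ constantCoeff (lam k) → IsUnit (lam j - y) := fun {y j k} h1 h2 => by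
    refine unit_of_c0 ?_
    have := X_dvd_iff.1 h1
    rw [map_sub, sub_eq_zero] at this
    rw [map_sub, this]; exact sub_ne_zero.2 h2
  have hfar : ∀ i j, IsUnit (lam j - x' i) → X ∣ w' i j := fun i j hj =>
    hj.dvd_mul_left.1 (h'.step i j ▸ (dvd_mul_right _ _).mul_right _)
  have key : ∀ r, (∀ i j, X ^ (r + 1) ∣ w i j - w' i j) ∧ ∀ i, X ^ (r + 1) ∣ x i - x' i := by
    intro r
    induction r with
    | zero =>
      refine ⟨by simpa using hw, fun i => ?_⟩
      rw [zero_add, pow_one]
      by_cases hi : s i = a ∨ s i = b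
      · simpa using dvd_sub (hx i hi).1 (hx i hi).2
      · push Not at hi
        simpa using dvd_sub (he i hi.1 hi.2).1 (he i hi.1 hi.2).2
    | succ r ih =>
      have hoff : ∀ i j, IsUnit (lam j - x i) → IsUnit (lam j - x' i) →
          X ^ (r + 1 + 1) ∣ w i j - w' i j := fun i j h1 h2 => by
        refine h1.dvd_mul_left.1 (e i j ▸ dvd_add ?_ ?_)
        · rw [pow_succ', mul_assoc]; exact mul_dvd_mul_left _ ((ih.1 _ _).mul_left _)
        · rw [pow_succ]; exact mul_dvd_mul (ih.2 i) (hfar i j h2)
      have hE : ∀ i, s i ≠ a → s i ≠ b → ∀ j, X ^ (r + 1 + 1) ∣ w i j - w' i j := by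
        intro i h1 h2
        have h3 : ∀ j, j ≠ s i → X ^ (r + 1 + 1) ∣ w i j - w' i j := fun j hj =>
          hoff i j (hu (he i h1 h2).1 (hl _ _ hj h1 h2)) (hu (he i h1 h2).2 (hl _ _ hj h1 h2))
        intro j
        by_cases hj : j = s i
        · have : w i j - w' i j = -∑ k ∈ univ.erase j, (w i k - w' i k) := by
            have h3 := h.sum i
            have h4 := h'.sum i
            rw [← add_sum_erase _ _ (mem_univ j)] at h3 h4
            rw [sum_sub_distrib]; linear_combination h3 - h4
          rw [this, dvd_neg]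
          exact dvd_sum fun k hk => h3 k (hj ▸ ne_of_mem_erase hk)
        · exact h3 j hj
      have hA : ∀ i, s i = a ∨ s i = b → (∀ j, X ^ (r + 1 + 1) ∣ w (i + 1) j - w' (i + 1) j) →
          ∀ j, X ^ (r + 1 + 1) ∣ w i j - w' i j := by
        intro i hi hn
        have h3 : ∀ j, j ≠ a → j ≠ b → IsUnit (lam j - x i) ∧ IsUnit (lam j - x' i) :=
          fun j h1 h2 => ⟨hu (hx i hi).1 (hl _ _ h1.symm h1 h2).symm,
            hu (hx i hi).2 (hl _ _ h1.symm h1 h2).symm⟩
        have h4 : ∀ j, j ≠ a → j ≠ b → X ^ (r + 1 + 1) ∣ w i j - w' i j := fun j h1 h2 =>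
          hoff i j (h3 j h1 h2).1 (h3 j h1 h2).2
        obtain ⟨η, hη⟩ := (hx i hi).1
        obtain ⟨η', hη'⟩ := (hx i hi).2
        set S := ∑ j ∈ (univ.erase a).erase b, w i j
        set S' := ∑ j ∈ (univ.erase a).erase b, w' i j
        have hS : X ^ (r + 1 + 1) ∣ S - S' := by
          rw [← sum_sub_distrib]
          exact dvd_sum fun j hj => h4 j (ne_of_mem_erase (mem_of_mem_erase hj)) (ne_of_mem_erase hj)
        have hS' : X ∣ S' := dvd_sum fun j hj => hfar i j
          (h3 j (ne_of_mem_erase (mem_of_mem_erase hj)) (ne_of_mem_erase hj)).2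
        have s1 := h.sum i
        have s2 := h'.sum i
        rw [sum_two hab] at s1 s2
        have ea : C ν * w (i + 1) a = -η * w i a := mul_left_cancel₀ X_ne_zero (by
          linear_combination h.step i a - w i a * hη)
        have eb : C ν * w (i + 1) b = (1 - η) * w i b := mul_left_cancel₀ X_ne_zero (by
          linear_combination h.step i b - w i b * hη + w i b * hb)
        have ea' : C ν * w' (i + 1) a = -η' * w' i a := mul_left_cancel₀ X_ne_zero (by
          linear_combination h'.step i a - w' i a * hη')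
        have eb' : C ν * w' (i + 1) b = (1 - η') * w' i b := mul_left_cancel₀ X_ne_zero (by
          linear_combination h'.step i b - w' i b * hη' + w' i b * hb)
        have hdet : IsUnit (w' i a - η * (1 - S')) := by
          refine unit_of_c0 ?_
          have h5 := hnd i hi
          have h6 := X_dvd_iff.1 (hw i a)
          have h7 := X_dvd_iff.1 hS'
          have h8 := X_dvd_iff.1 ((dvd_pow_self X (Nat.succ_ne_zero _)).trans hS)
          have h9 := congrArg constantCoeff s1
          rw [mul_add, ea, eb] at h5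
          simp only [map_sub, map_add, map_mul, map_neg, map_one] at h5 h6 h8 h9 ⊢
          intro hc
          apply h5
          linear_combination hc + h6 - constantCoeff η * h9 +
            constantCoeff η * h8
        have hb2 : X ^ (r + 1 + 1) ∣ w i b - w' i b := by
          refine hdet.dvd_mul_left.1 ?_
          have : (w' i a - η * (1 - S')) * (w i b - w' i b) =
              w' i a * (C ν * (w (i + 1) b - w' (i + 1) b)) -
              w' i b * (C ν * (w (i + 1) a - w' (i + 1) a)) + η * w' i b * (S - S') := by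
            linear_combination (-(w' i a)) * (eb - eb') + w' i b * (ea - ea') -
              η * w' i b * (s1 - s2) + η * (w i b - w' i b) * s2
          rw [this]
          exact dvd_add (dvd_sub (((hn b).mul_left _).mul_left _) (((hn a).mul_left _).mul_left _))
            (hS.mul_left _)
        intro j
        by_cases h1 : j = a
        · have : w i a - w' i a = -(w i b - w' i b) - (S - S') := by linear_combination s1 - s2
          rw [h1, this]; exact dvd_sub (dvd_neg.2 hb2) hS
        · by_cases h2 : j = b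
          · exact h2 ▸ hb2
          · exact h4 j h1 h2
      have hall : ∀ k : ℕ, ∀ i, s (i + k) ≠ a ∧ s (i + k) ≠ b →
          ∀ j, X ^ (r + 1 + 1) ∣ w i j - w' i j := by
        intro k
        induction k with
        | zero => intro i hi; simp only [Nat.cast_zero, add_zero] at hi; exact hE i hi.1 hi.2
        | succ k ihk =>
          intro i hi
          by_cases hc : s i = a ∨ s i = b
          · exact hA i hc (ihk (i + 1) (by rwa [Nat.cast_succ, add_comm (k : ℤ), ← add_assoc] at hi))
          · push Not at hc; exact hE i hc.1 hc.2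
      have h2 : ∀ i j, X ^ (r + 1 + 1) ∣ w i j - w' i j := fun i =>
        let ⟨k, hk⟩ := hs i; hall k i hk
      refine ⟨h2, fun i => ?_⟩
      rw [h.x_eq, h'.x_eq, sub_sub_sub_cancel_right, ← sum_sub_distrib]
      exact dvd_sum fun j _ => by rw [← mul_sub]; exact (h2 i j).mul_left _
  exact funext fun i => funext fun j => sub_eq_zero.1
    (ps_haus _ fun r => (pow_dvd_pow X r.le_succ).trans ((key r).1 i j))

end Pool.Agent.MP_9b2bac_nt.Z
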