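import Mathlib
import Pool.Agent.MP_9b2bac_nt.ZU2
import Pool.Agent.MP_9b2bac_nt.ZTree

/- The reduced system when two roots collide: preimage trees of a quadratic map. -/

set_option autoImplicit false

namespace Pool.Agent.MP_9b2bac_nt.Z

open Finset PowerSeries

variable {d : ℕ} {k : Type} [Field k] {a b : Fin d}

/-- The reduced coefficients. -/
noncomputable def tb (k : Type) [Field k] (a b j i : Fin d) : k⟦X⟧ :=
  if j = b ∧ i = a then X else if j = a ∧ i = b then -X else 0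

theorem tb_dvd (j i : Fin d) (_ : j ≠ i) : X ∣ tb k a b j i := by
  unfold tb; split_ifs <;> simp

section red

variable (hab : a ≠ b) {w : Seq d → Fin d → k⟦X⟧} {ξ : Seq d → k⟦X⟧} (h : NF (tb k a b) w ξ)
include hab h

theorem red_off {s : Seq d} {j : Fin d} (hj : j ≠ s 0)
    (h1 : ¬((s 0 = a ∨ s 0 = b) ∧ (j = a ∨ j = b))) : w s j = 0 := by
  rw [h.off s j hj, tb, if_neg (by tauto), if_neg (by tauto), zero_mul]

theorem red_out {s : Seq d} (ha : s 0 ≠ a) (hb : s 0 ≠ b) (j : Fin d) :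
    w s j = if j = s 0 then 1 else 0 := by
  split_ifs with hj
  · rw [hj, h.diag_eq, sum_eq_zero fun j hj => red_off hab h (ne_of_mem_erase hj) (by tauto)]
    simp
  · exact red_off hab h hj (by tauto)

theorem red_in {s : Seq d} (hs : s 0 = a ∨ s 0 = b) {j : Fin d} (ha : j ≠ a) (hb : j ≠ b) :
    w s j = 0 :=
  red_off hab h (by rcases hs with hs | hs <;> rwa [hs]) (by tauto)

theorem red_sum {s : Seq d} (hs : s 0 = a ∨ s 0 = b) : w s a + w s b = 1 := by
  rw [← h.sum s, sum_two hab, sum_eq_zero fun j hj =>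
    red_in hab h hs (ne_of_mem_erase (mem_of_mem_erase hj)) (ne_of_mem_erase hj), add_zero]

theorem red_eq {s : Seq d} (hs : s 0 = a ∨ s 0 = b) : ∃ e : k⟦X⟧,
    constantCoeff e = (if s 0 = b then 1 else 0) ∧
    X * w (sh s) a = -e * w s a ∧ X * w (sh s) b = (1 - e) * w s b := by
  have h2 := h.diag s
  rcases hs with hs | hs
  · have h1 := h.off s b (hs ▸ hab.symm)
    rw [hs] at h1 h2
    rw [tb, if_pos ⟨rfl, rfl⟩] at h1
    exact ⟨X * ξ s, by simp [hs, hab], by linear_combination X * h2, by linear_combination -h1⟩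
  · have h1 := h.off s a (hs ▸ hab)
    rw [hs] at h1 h2
    rw [tb, if_neg fun h => hab h.1, if_pos ⟨rfl, rfl⟩] at h1
    exact ⟨X * ξ s + 1, by simp [hs], by linear_combination h1, by linear_combination X * h2⟩

theorem red_end {s : Seq d} (hs : s 0 = a ∨ s 0 = b) (ha : s 1 ≠ a) (hb : s 1 ≠ b) :
    w s b = if s 0 = b then 1 else 0 := by
  obtain ⟨e, he, h1, h2⟩ := red_eq hab h hs
  have h3 := red_sum hab h hs
  have ha' : sh s 0 ≠ a := by simpa [sh] using ha
  have hb' : sh s 0 ≠ b := by simpa [sh] using hb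
  rw [red_out hab h ha' hb', if_neg ha'.symm, mul_zero] at h1
  rw [red_out hab h ha' hb', if_neg hb'.symm, mul_zero] at h2
  split_ifs at he ⊢ with h4
  · have : e ≠ 0 := fun h => by simp [h] at he
    rw [(mul_eq_zero.1 h1.symm).resolve_left (neg_ne_zero.2 this), zero_add] at h3
    exact h3
  · have : 1 - e ≠ 0 := fun h => by simpa [he] using congrArg constantCoeff h
    exact (mul_eq_zero.1 h2.symm).resolve_left this

theorem red_step {s : Seq d} (hs : s 0 = a ∨ s 0 = b) (hs' : s 1 = a ∨ s 1 = b) :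
    X * w (sh s) b = w s b * (1 + X - w s b) := by
  obtain ⟨e, -, h1, h2⟩ := red_eq hab h hs
  have h3 := red_sum hab h hs
  have h4 := red_sum hab h (s := sh s) (by simpa [sh] using hs')
  have : e = w s b - X := by linear_combination h1 + h2 - X * h4 - e * h3
  rw [h2, this]; ring

theorem red_nd {s : Seq d} (hs : s 0 = a ∨ s 0 = b) :
    w s a - w s b + X * (w (sh s) a + w (sh s) b) ≠ 0 := by
  intro h0
  have := congrArg constantCoeff h0
  rw [map_add, map_sub, h.const tb_dvd, h.const tb_dvd] at this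
  rcases hs with hs | hs <;> simp [hs, hab, hab.symm] at this

end red

section lab

variable {Ω : Type} [Field Ω] (κ : k⟦X⟧ →+* Ω) (hκ : Function.Injective κ)

open Classical in
/-- The label of a vertex. -/
noncomputable def lab (z : Ω) : Bool :=
  decide (∃ f : k⟦X⟧, constantCoeff f = 1 ∧ z = (κ X)⁻¹ * κ f)

include hκ

theorem kX_ne : κ X ≠ 0 := (map_ne_zero_iff _ hκ).2 X_ne_zero

theorem lab_iff (f : k⟦X⟧) : lab κ ((κ X)⁻¹ * κ f) = true ↔ constantCoeff f = 1 := by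
  classical
  rw [lab, decide_eq_true_iff]
  refine ⟨fun ⟨g, hg, e⟩ => ?_, fun h => ⟨f, h, rfl⟩⟩
  rwa [hκ (mul_left_cancel₀ (inv_ne_zero (kX_ne κ hκ)) e)]

theorem gq_form {f g : k⟦X⟧} (h : X * g = f * (1 + X - f)) :
    gq (κ X)⁻¹ ((κ X)⁻¹ * κ f) = (κ X)⁻¹ * κ g := by
  have h1 := congrArg κ h
  have h0 := kX_ne κ hκ
  simp only [map_mul, map_sub, map_add, map_one] at h1
  rw [gq]; field_simp; linear_combination -h1

theorem children (g : k⟦X⟧) : ∃ f f' : k⟦X⟧, constantCoeff f = 0 ∧ constantCoeff f' = 1 ∧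
    ∀ z, gq (κ X)⁻¹ z = (κ X)⁻¹ * κ g → z = (κ X)⁻¹ * κ f ∨ z = (κ X)⁻¹ * κ f' := by
  obtain ⟨u, hu⟩ := exists_fixed (ι := Unit) (fun u _ => g - X * u () + X * u () ^ 2)
    fun n x y h _ => by
      have : g - X * x () + X * x () ^ 2 - (g - X * y () + X * y () ^ 2) =
        X * ((x () - y ()) * (x () + y () - 1)) := by ring
      rw [this, pow_succ']; exact mul_dvd_mul_left _ ((h ()).mul_right _)
  have h1 := congrFun hu ()
  have h2 := gq_form κ hκ (f := X * u ()) (g := g) (by linear_combination X * h1)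
  refine ⟨X * u (), 1 + X - X * u (), by simp, by simp, fun z hz => ?_⟩
  have h0 := kX_ne κ hκ
  have : (z - (κ X)⁻¹ * κ (X * u ())) * (z - (κ X)⁻¹ * κ (1 + X - X * u ())) = 0 := by
    rw [map_sub, map_add, map_one, mul_sub (κ X)⁻¹, mul_add, inv_mul_cancel₀ h0, mul_one]
    unfold gq at hz h2
    linear_combination h2 - hz
  exact (mul_eq_zero.1 this).imp sub_eq_zero.1 sub_eq_zero.1

theorem sib (g : k⟦X⟧) {z z' : Ω} (hz : gq (κ X)⁻¹ z = (κ X)⁻¹ * κ g)
    (hz' : gq (κ X)⁻¹ z' = (κ X)⁻¹ * κ g) (hl : lab κ z = lab κ z') : z = z' := by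
  obtain ⟨f, f', h0, h1, h⟩ := children κ hκ g
  have e0 : lab κ ((κ X)⁻¹ * κ f) = false := by
    rw [← Bool.not_eq_true, lab_iff κ hκ, h0]; exact zero_ne_one
  have e1 := (lab_iff κ hκ f').2 h1
  rcases h z hz with rfl | rfl <;> rcases h z' hz' with rfl | rfl
  · rfl
  · simp [e0, e1] at hl
  · simp [e0, e1] at hl
  · rfl

theorem vert_form {m : ℕ} {z : Ω} (hz : Vert (κ X)⁻¹ m z) : ∃ f, z = (κ X)⁻¹ * κ f := by
  have h0 := kX_ne κ hκ
  induction m generalizing z with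
  | zero =>
    rcases hz with hz | hz
    · exact ⟨1 + X, by rw [map_add, map_one, mul_add, inv_mul_cancel₀ h0, mul_one]; exact hz⟩
    · exact ⟨X, by rw [inv_mul_cancel₀ h0]; exact hz⟩
  | succ m ih =>
    obtain ⟨g, hg⟩ := ih (z := gq (κ X)⁻¹ z) hz
    obtain ⟨f, f', -, -, h⟩ := children κ hκ g
    exact (h z hg).elim (fun h => ⟨f, h⟩) fun h => ⟨f', h⟩

theorem lab_sib (m : ℕ) (v v' : Ω) (hv : Vert (κ X)⁻¹ (m + 1) v)
    (h : gq (κ X)⁻¹ v = gq (κ X)⁻¹ v') (hne : v ≠ v') : lab κ v ≠ lab κ v' := by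
  obtain ⟨g, hg⟩ := vert_form κ hκ (m := m) (z := gq (κ X)⁻¹ v) hv
  exact fun hl => hne (sib κ hκ g hg (h ▸ hg) hl)

end lab

end Pool.Agent.MP_9b2bac_nt.Z
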