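import Mathlib
import Pool.Agent.MP_9b2bac_nt.ZRed

/- The tree automorphism acts on the reduced solutions as the marker. -/

set_option autoImplicit false

namespace Pool.Agent.MP_9b2bac_nt.Z

open Finset PowerSeries

variable {d : ℕ} {k : Type} [Field k] {a b : Fin d}

/-- A block of letters `a`, `b` of length `L + 1` starts at `0`. -/
def Blk (a b : Fin d) (s : Seq d) (L : ℕ) : Prop :=
  (∀ i : ℕ, i ≤ L → s i = a ∨ s i = b) ∧ s (L + 1) ≠ a ∧ s (L + 1) ≠ b

theorem Blk.zero {s : Seq d} {L : ℕ} (h : Blk a b s L) : s 0 = a ∨ s 0 = b := h.1 0 L.zero_le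

theorem Blk.sh {s : Seq d} {L : ℕ} (h : Blk a b s (L + 1)) : Blk a b (sh s) L :=
  ⟨fun i hi => by simpa [Z.sh] using h.1 (i + 1) (by omega), by simpa [Z.sh] using h.2⟩

theorem mk_in {s : Seq d} {J : ℕ} {i : ℤ} :
    (mk a b J s i = a ∨ mk a b J s i = b) ↔ (s i = a ∨ s i = b) := by
  unfold mk
  split_ifs
  · rw [Equiv.swap_apply_eq_iff, Equiv.swap_apply_eq_iff]; simp [or_comm]
  · rfl

theorem mk_out {s : Seq d} {J : ℕ} {i : ℤ} (ha : s i ≠ a) (hb : s i ≠ b) : mk a b J s i = s i := by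
  unfold mk
  split_ifs
  · exact Equiv.swap_apply_of_ne_of_ne ha hb
  · rfl

theorem Blk.mk {s : Seq d} {L : ℕ} (h : Blk a b s L) (J : ℕ) : Blk a b (mk a b J s) L :=
  ⟨fun i hi => mk_in.2 (h.1 i hi), by rw [mk_out h.2.1 h.2.2]; exact h.2⟩

theorem mk_shf (s : Seq d) (J : ℕ) (i : ℤ) : mk a b J (shf s i) = shf (mk a b J s) i := by
  funext x
  have : Hit a b J (shf s i) x ↔ Hit a b J s (x + i) := by
    simp only [Hit, shf]
    rw [show x + J + 1 + i = x + i + J + 1 by ring]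
    simp only [fun k : ℕ => show x + k + i = x + i + k by ring]
  simp only [mk, shf] at this ⊢
  rw [this]

theorem mk_sh' (s : Seq d) (J : ℕ) : mk a b J (sh s) = sh (mk a b J s) := mk_shf s J 1

theorem exists_blk {s : Seq d} {M : ℕ} (h0 : s 0 = a ∨ s 0 = b)
    (h : ∃ i : ℕ, i ≤ M ∧ s i ≠ a ∧ s i ≠ b) : ∃ L, L ≤ M ∧ Blk a b s L := by
  classical
  have h1 := Nat.find_spec h
  have h2 : Nat.find h ≠ 0 := fun e => by rw [e] at h1; tauto
  obtain ⟨L, hL⟩ := Nat.exists_eq_succ_of_ne_zero h2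
  refine ⟨L, by omega, fun i hi => ?_, by rw [hL] at h1; exact_mod_cast h1.2⟩
  have := Nat.find_min h (m := i) (by omega)
  have : i ≤ M := by omega
  tauto

variable (hab : a ≠ b) {w : Seq d → Fin d → k⟦X⟧} {ξ : Seq d → k⟦X⟧} (h : NF (tb k a b) w ξ)
  {Ω : Type} [Field Ω] (κ : k⟦X⟧ →+* Ω) (hκ : Function.Injective κ)
include hab h hκ

theorem v_lab {s : Seq d} (hs : s 0 = a ∨ s 0 = b) :
    lab κ ((κ X)⁻¹ * κ (w s b)) = decide (s 0 = b) := by
  rw [Bool.eq_iff_iff, lab_iff κ hκ, h.const tb_dvd, decide_eq_true_iff]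
  rcases hs with hs | hs <;> simp [hs, hab, hab.symm]

theorem v_step {s : Seq d} {L : ℕ} (hs : Blk a b s (L + 1)) :
    gq (κ X)⁻¹ ((κ X)⁻¹ * κ (w s b)) = (κ X)⁻¹ * κ (w (sh s) b) :=
  gq_form κ hκ (red_step hab h hs.zero (by simpa using hs.1 1 (by omega)))

theorem v_end {s : Seq d} (hs : Blk a b s 0) :
    (κ X)⁻¹ * κ (w s b) = if s 0 = b then (κ X)⁻¹ else 0 := by
  rw [red_end hab h hs.zero (by simpa using hs.2.1) (by simpa using hs.2.2)]
  split_ifs <;> simp

theorem v_addr {L : ℕ} {s : Seq d} (hs : Blk a b s L) (i : ℕ) :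
    lab κ ((gq (κ X)⁻¹)^[i] ((κ X)⁻¹ * κ (w s b))) = decide (s (min i L : ℕ) = b) := by
  induction L generalizing s i with
  | zero =>
    rw [Function.iterate_fixed, v_lab hab h κ hκ hs.zero]
    · simp
    · rw [v_end hab h κ hκ hs]; split_ifs <;> simp [gq]
  | succ L ih =>
    cases i with
    | zero => simpa using v_lab hab h κ hκ hs.zero
    | succ i =>
      rw [Function.iterate_succ_apply, v_step hab h κ hκ hs, ih hs.sh, Nat.succ_min_succ]
      simp [sh]

theorem hit_iff {L J : ℕ} (hJ : 1 ≤ J) {s : Seq d} (hs : Blk a b s (L + 1)) :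
    Hit a b J s 0 ↔ (∀ i < J, lab κ ((gq (κ X)⁻¹)^[i] ((κ X)⁻¹ * κ (w (sh s) b))) = false) ∧
      lab κ ((gq (κ X)⁻¹)^[J] ((κ X)⁻¹ * κ (w (sh s) b))) = true := by
  simp only [v_addr hab h κ hκ hs.sh, decide_eq_false_iff_not, decide_eq_true_eq, Hit, sh,
    zero_add]
  constructor
  · rintro ⟨h1, h2⟩
    have hJL : J ≤ L := by
      by_contra hc
      rcases (show L + 1 = J ∨ L + 2 ≤ J by omega) with e | e
      · exact hs.2.2 (by rw [e]; exact h2)
      · exact hs.2.1 (by simpa [add_assoc] using h1 (L + 1 + 1) (by omega) e)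
    refine ⟨fun i hi => ?_, by rwa [min_eq_left hJL]⟩
    rw [min_eq_left (by omega)]
    have := h1 (i + 1) (by omega) hi
    push_cast at this
    rw [this]; exact hab
  · rintro ⟨h1, h2⟩
    have hJL : J ≤ L := by
      by_contra hc
      have := h1 (J - 1) (by omega)
      rw [min_eq_right (by omega)] at this h2
      exact this h2
    refine ⟨fun i hi hi' => ?_, by rwa [min_eq_left hJL] at h2⟩
    obtain ⟨i, rfl⟩ := Nat.exists_eq_add_of_le' hi
    have := h1 i hi'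
    rw [min_eq_left (by omega)] at this
    exact (hs.1 (i + 1) (by omega)).resolve_right (by exact_mod_cast this)

theorem red_match [IsAlgClosed k] (h2 : (2 : k) ≠ 0) [IsAlgClosed Ω] [Algebra k Ω]
    (hC : ∀ c, κ (C c) = algebraMap k Ω c) {J : ℕ} (hJ : 1 ≤ J) (M : ℕ) :
    ∃ γ : Ω ≃+* Ω, (∀ c : k, γ (algebraMap k Ω c) = algebraMap k Ω c) ∧ γ (κ X) = κ X ∧
      ∀ s : Seq d, (∃ i : ℕ, i ≤ M ∧ s i ≠ a ∧ s i ≠ b) →
        ∀ j, γ (κ (w s j)) = κ (w (mk a b J s) j) := by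
  classical
  have h0 := kX_ne κ hκ
  have htr : Transcendental k (κ X)⁻¹ := by
    rw [Transcendental, IsAlgebraic.inv_iff]
    rintro ⟨p, hp, e⟩
    have : (Polynomial.aeval (κ X) : Polynomial k →ₐ[k] Ω).toRingHom =
        κ.comp Polynomial.coeToPowerSeries.ringHom :=
      Polynomial.ringHom_ext (fun c => by simp [hC]) (by simp)
    have h1 : κ p = κ 0 := by rw [map_zero, ← e]; exact (DFunLike.congr_fun this p).symm
    exact hp (Polynomial.coe_eq_zero_iff.1 (hκ h1))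
  obtain ⟨γ, hk, hμ, hγ⟩ := tree_odd k Ω h2 _ htr M (lab κ) (lab_sib κ hκ) fun x => decide
    ((∀ i < J, lab κ ((gq (κ X)⁻¹)^[i] x) = false) ∧ lab κ ((gq (κ X)⁻¹)^[J] x) = true)
  have hν : γ (κ X) = κ X := by rwa [map_inv₀, inv_inj] at hμ
  have main : ∀ L, L ≤ M → ∀ s, Blk a b s L →
      γ ((κ X)⁻¹ * κ (w s b)) = (κ X)⁻¹ * κ (w (mk a b J s) b) ∧
      ((κ X)⁻¹ * κ (w s b) = 0 ∨ (κ X)⁻¹ * κ (w s b) = (κ X)⁻¹ ∨
        ∃ m < L, Vert (κ X)⁻¹ m ((κ X)⁻¹ * κ (w s b))) := by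
    intro L
    induction L with
    | zero =>
      intro _ s hs
      have : mk a b J s 0 = s 0 := if_neg fun hh => hs.2.1 (by simpa using hh.1 1 le_rfl hJ)
      rw [v_end hab h κ hκ hs, v_end hab h κ hκ (hs.mk J), this]
      split_ifs <;> simp [hμ]
    | succ L ih =>
      intro hL s hs
      obtain ⟨i1, i2⟩ := ih (by omega) _ hs.sh
      have e1 := v_step hab h κ hκ hs
      have e2 := v_step hab h κ hκ (hs.mk J)
      have e3 : gq (κ X)⁻¹ (γ ((κ X)⁻¹ * κ (w s b))) = (κ X)⁻¹ * κ (w (sh (mk a b J s)) b) := by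
        rw [← mk_sh', ← i1, ← e1]; simp only [gq, map_mul, map_sub, map_add, map_one, hμ]
      have e4 := hit_iff hab h κ hκ hJ hs
      have l1 := v_lab hab h κ hκ hs.zero
      have l2 := v_lab hab h κ hκ (hs.mk J).zero
      have fixd : gq (κ X)⁻¹ ((κ X)⁻¹ * κ (w (sh s) b)) = (κ X)⁻¹ * κ (w (sh s) b) →
          γ ((κ X)⁻¹ * κ (w s b)) = (κ X)⁻¹ * κ (w s b) →
          γ ((κ X)⁻¹ * κ (w s b)) = (κ X)⁻¹ * κ (w (mk a b J s) b) := fun f1 f2 => by
        have : mk a b J s 0 = s 0 := if_neg fun hh => by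
          have := e4.1 hh
          simp only [Function.iterate_fixed f1] at this
          simpa [this.2] using this.1 0 hJ
        exact sib κ hκ _ e3 e2 (by rw [f2, l1, l2, this])
      rcases i2 with i2 | i2 | ⟨m, hm, i2⟩
      · rw [i2] at e1
        rcases mul_eq_zero.1 e1 with e | e
        · exact ⟨fixd (by rw [i2]; simp [gq]) (by rw [e, map_zero]), Or.inl e⟩
        · rw [sub_eq_zero] at e
          exact ⟨fixd (by rw [i2]; simp [gq]) (by rw [← e, map_add, hμ, map_one]),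
            Or.inr (Or.inr ⟨0, by omega, Or.inl e.symm⟩)⟩
      · rw [i2] at e1
        have : ((κ X)⁻¹ * κ (w s b) - (κ X)⁻¹) * ((κ X)⁻¹ * κ (w s b) - 1) = 0 := by
          unfold gq at e1; linear_combination -e1
        rcases mul_eq_zero.1 this with e | e <;> rw [sub_eq_zero] at e
        · exact ⟨fixd (by rw [i2]; simp [gq]) (by rw [e, hμ]), Or.inr (Or.inl e)⟩
        · exact ⟨fixd (by rw [i2]; simp [gq]) (by rw [e, map_one]),
            Or.inr (Or.inr ⟨0, by omega, Or.inr e⟩)⟩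
      · have hV : Vert (κ X)⁻¹ (m + 1) ((κ X)⁻¹ * κ (w s b)) := by
          rw [← e1] at i2; exact i2
        refine ⟨sib κ hκ _ e3 e2 ?_, Or.inr (Or.inr ⟨m + 1, by omega, hV⟩)⟩
        rw [hγ m (by omega) _ hV, l1, l2, e1, mk]
        by_cases hh : Hit a b J s 0
        · rw [decide_eq_true (e4.1 hh)]
          rcases hs.zero with e | e <;> simp [hh, e, hab]
        · rw [decide_eq_false (mt e4.2 hh)]
          simp [hh]
  refine ⟨γ, hk, hν, fun s hs j => ?_⟩
  by_cases h1 : s 0 = a ∨ s 0 = b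
  · obtain ⟨L, hL, hB⟩ := exists_blk h1 hs
    have hb := (main L hL s hB).1
    rw [map_mul, hμ] at hb
    replace hb := mul_left_cancel₀ (inv_ne_zero h0) hb
    have h1' := (hB.mk J).zero
    by_cases hja : j = a
    · rw [hja, eq_sub_of_add_eq (red_sum hab h h1), eq_sub_of_add_eq (red_sum hab h h1')]
      simp [hb]
    · by_cases hjb : j = b
      · rwa [hjb]
      · simp [red_in hab h h1 hja hjb, red_in hab h h1' hja hjb]
  · push Not at h1
    have e := mk_out (J := J) h1.1 h1.2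
    rw [red_out hab h h1.1 h1.2, red_out hab h (e ▸ h1.1) (e ▸ h1.2), e]
    split_ifs <;> simp

end Pool.Agent.MP_9b2bac_nt.Z
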