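import Mathlib
import Pool.Agent.MP_9b2bac_nt.ZGal

/- Permuting the roots. -/

set_option autoImplicit false

namespace Pool.Agent.MP_9b2bac_nt.Z

open Finset

variable {d : ℕ} {I : Finset ℕ}
variable {A : Type} [CommRing A] [IsDomain A]

variable (A) in
/-- Permuting the variables. -/
noncomputable def tauA (π : Equiv.Perm (Fin d)) : AA A d ≃+* AA A d :=
  (MvPolynomial.renameEquiv A π).toRingEquiv

theorem tauA_X (π : Equiv.Perm (Fin d)) (j : Fin d) :
    tauA A π (MvPolynomial.X j) = MvPolynomial.X (π j) := by simp [tauA]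

theorem tauA_Dl (π : Equiv.Perm (Fin d)) : tauA A π (Dl A d) = Dl A d := by
  rw [Dl, map_prod]
  refine prod_equiv (π.prodCongr π) (fun p => ?_) fun p _ => ?_
  · simp [mem_offDiag]
  · simp [tauA_X]

variable (A) in
/-- The induced map on the coefficient ring. -/
noncomputable def tauB (π : Equiv.Perm (Fin d)) : BB A d ≃+* BB A d :=
  IsLocalization.ringEquivOfRingEquiv (M := Submonoid.powers (Dl A d))
    (T := Submonoid.powers (Dl A d)) _ _ (tauA A π) (by
      rw [Submonoid.map_powers]; exact congrArg _ (tauA_Dl π))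

theorem tauB_alg (π : Equiv.Perm (Fin d)) (a : AA A d) :
    tauB A π (algebraMap _ _ a) = algebraMap _ _ (tauA A π a) :=
  IsLocalization.ringEquivOfRingEquiv_eq _ a

theorem map_inverse_of_unit {B B' : Type} [CommRing B] [CommRing B'] (f : B →+* B') {u : B}
    (hu : IsUnit u) : f (Ring.inverse u) = Ring.inverse (f u) := by
  obtain ⟨u, rfl⟩ := hu
  rw [Ring.inverse_unit, show f u = Units.map (f : B →* B') u from rfl, Ring.inverse_unit]
  rfl

theorem NF.congr {C : Type} [CommRing C] {t t' : Fin d → Fin d → C} {w : Seq d → Fin d → C}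
    {ξ : Seq d → C} (h : NF t w ξ) (e : ∀ j k, j ≠ k → t j k = t' j k) : NF t' w ξ :=
  ⟨fun s j hj => e _ _ hj ▸ h.off s j hj, h.sum, h.diag⟩

theorem w0_perm (π : Equiv.Perm (Fin d)) (s : Seq d) (j : Fin d) :
    PowerSeries.map (tauB A π : BB A d →+* BB A d) (w0 A s j) = w0 A (π ∘ s) (π j) := by
  have h1 := ((nf0 A).map (PowerSeries.map (tauB A π : BB A d →+* BB A d))).congr
    (t' := fun j k => t0 A (π j) (π k)) fun j k h => by
      simp only [t0, map_mul, PowerSeries.map_X, PowerSeries.map_C]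
      rw [map_inverse_of_unit _ (lB_unit h), map_sub]
      simp only [lB, RingHom.coe_coe, tauB_alg, tauA_X]
  have h2 : NF (fun j k => t0 A (π j) (π k)) (fun s j => w0 A (π ∘ s) (π j))
      (fun s => xi0 A (π ∘ s)) :=
    ⟨fun s j hj => (nf0 A).off (π ∘ s) (π j) (π.injective.ne hj),
      fun s => (Equiv.sum_comp π _).trans ((nf0 A).sum _), fun s => (nf0 A).diag (π ∘ s)⟩
  exact congrFun (congrFun (NF.unique PowerSeries.X ps_haus
    (fun j k h => (t0_dvd A) _ _ (π.injective.ne h)) h1 h2).1 s) j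

theorem Per.comp {n : ℕ} {s : Seq d} (h : Per n s) (π : Equiv.Perm (Fin d)) : Per n (π ∘ s) :=
  ⟨h.1, fun i => congrArg π (h.2.1 i), π.surjective.comp h.2.2⟩

/-- Relabelling the letters. -/
def relW (I : Finset ℕ) (π : Equiv.Perm (Fin d)) : Equiv.Perm (W d I) where
  toFun s := ⟨π ∘ s.1, let ⟨n, hn, h⟩ := s.2; ⟨n, hn, h.comp π⟩⟩
  invFun s := ⟨π.symm ∘ s.1, let ⟨n, hn, h⟩ := s.2; ⟨n, hn, h.comp π.symm⟩⟩
  left_inv s := Subtype.ext (funext fun i => by simp)
  right_inv s := Subtype.ext (funext fun i => by simp)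

theorem relW_sh (π : Equiv.Perm (Fin d)) (s : W d I) :
    relW I π (shW d I s) = shW d I (relW I π s) := rfl

theorem tauC_alg (π : Equiv.Perm (Fin d)) (a : Polynomial (AA A d)) :
    PowerSeries.map (tauB A π : BB A d →+* BB A d) (algebraMap _ _ a) =
      algebraMap _ _ (a.map (tauA A π : AA A d →+* AA A d)) := by
  have : (PowerSeries.map (tauB A π : BB A d →+* BB A d)).comp (algebraMap (Polynomial (AA A d)) _) =
      (algebraMap _ _).comp (Polynomial.mapRingHom (tauA A π : AA A d →+* AA A d)) :=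
    Polynomial.ringHom_ext (fun a => by simp [alg_C, tauB_alg]) (by simp [alg_X])
  exact DFunLike.congr_fun this a

theorem tauC_mem (π : Equiv.Perm (Fin d)) (r : RR A d I) :
    PowerSeries.map (tauB A π : BB A d →+* BB A d) r ∈ RR A d I := by
  obtain ⟨r, hr⟩ := r
  induction hr using Algebra.adjoin_induction with
  | mem x hx =>
    obtain ⟨⟨s, j⟩, rfl⟩ := hx
    exact (w0_perm (A := A) π s.1 j).symm ▸ (zw A (relW I π s) (π j)).2
  | algebraMap a => exact (tauC_alg π a).symm ▸ Subalgebra.algebraMap_mem _ _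
  | add x y _ _ hx hy => rw [map_add]; exact add_mem hx hy
  | mul x y _ _ hx hy => rw [map_mul]; exact mul_mem hx hy

variable (A) in
/-- The induced map on the ring of solutions. -/
noncomputable def th0 (I : Finset ℕ) (π : Equiv.Perm (Fin d)) : RR A d I →+* RR A d I :=
  ((PowerSeries.map (tauB A π : BB A d →+* BB A d)).comp (RR A d I).val.toRingHom).codRestrict
    (RR A d I).toSubring (tauC_mem π)

theorem th0_zw (π : Equiv.Perm (Fin d)) (s : W d I) (j : Fin d) :
    th0 A I π (zw A s j) = zw A (relW I π s) (π j) := Subtype.ext (w0_perm π s.1 j)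

theorem th0_alg (π : Equiv.Perm (Fin d)) (a : Polynomial (AA A d)) :
    th0 A I π (algebraMap _ _ a) = algebraMap _ _ (a.map (tauA A π : AA A d →+* AA A d)) :=
  Subtype.ext (tauC_alg π a)

theorem th0_bij (π : Equiv.Perm (Fin d)) : Function.Bijective (th0 A I π) := by
  refine ⟨fun a b h => Subtype.ext (PowerSeries.map_injective _ (tauB A π).injective
    (congrArg Subtype.val h)), ?_⟩
  rintro ⟨r, hr⟩
  induction hr using Algebra.adjoin_induction with
  | mem x hx =>
    obtain ⟨⟨s, j⟩, rfl⟩ := hx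
    refine ⟨zw A ((relW I π).symm s) (π.symm j), ?_⟩
    rw [th0_zw, Equiv.apply_symm_apply, Equiv.apply_symm_apply]; rfl
  | algebraMap a =>
    obtain ⟨b, rfl⟩ := Polynomial.map_surjective (tauA A π : AA A d →+* AA A d) (tauA A π).surjective a
    exact ⟨_, th0_alg π b⟩
  | add x y _ _ hx hy =>
    obtain ⟨a, ha⟩ := hx; obtain ⟨b, hb⟩ := hy
    exact ⟨a + b, by rw [map_add, ha, hb]; rfl⟩
  | mul x y _ _ hx hy =>
    obtain ⟨a, ha⟩ := hx; obtain ⟨b, hb⟩ := hy
    exact ⟨a * b, by rw [map_mul, ha, hb]; rfl⟩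

variable (A) in
/-- The induced automorphism of the ring of solutions. -/
noncomputable def th (I : Finset ℕ) (π : Equiv.Perm (Fin d)) : RR A d I ≃+* RR A d I :=
  RingEquiv.ofBijective _ (th0_bij π)

theorem th_zw (π : Equiv.Perm (Fin d)) (s : W d I) (j : Fin d) :
    th A I π (zw A s j) = zw A (relW I π s) (π j) := th0_zw π s j

theorem th_alg (π : Equiv.Perm (Fin d)) (a : Polynomial (AA A d)) :
    th A I π (algebraMap _ _ a) = algebraMap _ _ (a.map (tauA A π : AA A d →+* AA A d)) := th0_alg π a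

theorem relW_norm (π : Equiv.Perm (Fin d)) (g : GG A d I) :
    ∃ g' : GG A d I, ∀ w, relW I π (g • w) = g' • relW I π w := by
  let g' : GG A d I := AlgEquiv.ofRingEquiv (f := ((th A I π).symm.trans g.toRingEquiv).trans (th A I π))
    fun a => by
      obtain ⟨b, rfl⟩ := Polynomial.map_surjective (tauA A π : AA A d →+* AA A d) (tauA A π).surjective a
      rw [← th_alg]
      change th A I π (g ((th A I π).symm _)) = _
      rw [RingEquiv.symm_apply_apply, g.commutes]
  refine ⟨g', fun w => zw_inj (A := A) (funext fun j => ?_)⟩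
  obtain ⟨j, rfl⟩ := π.surjective j
  rw [← act_zw, ← th_zw, ← th_zw, ← act_zw]
  change _ = th A I π (g ((th A I π).symm _))
  rw [RingEquiv.symm_apply_apply]

theorem zx_add (s : W d I) : zx A s + eR A d I = ∑ j, lR A I j * zw A s j := by
  rw [zx]; exact Subtype.ext (by simp)

theorem th_zx (π : Equiv.Perm (Fin d)) (s : W d I) : th A I π (zx A s) = zx A (relW I π s) := by
  have h := congrArg (th A I π) (zx_add s)
  rw [map_add, map_sum] at h
  simp only [map_mul, th_zw, lR, eR, th_alg, Polynomial.map_C, Polynomial.map_X,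
    RingHom.coe_coe, tauA_X] at h
  refine add_right_cancel (b := eR A d I) ?_
  rw [zx_add, ← Equiv.sum_comp π]
  exact h

theorem act_zx (g : GG A d I) (s : W d I) : g (zx A s) = zx A (g • s) := by
  have h := congrArg g (zx_add s)
  rw [map_add, map_sum] at h
  simp only [map_mul, act_zw, lR, eR, AlgEquiv.commutes] at h
  refine add_right_cancel (b := eR A d I) ?_
  rw [zx_add]
  exact h

end Pool.Agent.MP_9b2bac_nt.Z
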