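import Mathlib
import Pool.Agent.MP_9b2bac_nt.ZRed2
import Pool.Agent.MP_9b2bac_nt.ZSym

/- The marker acts on the solutions of the family in which two roots collide. -/

set_option autoImplicit false

namespace Pool.Agent.MP_9b2bac_nt.Z

open Finset PowerSeries

variable {d : ℕ} {k : Type} [Field k] {a b : Fin d}

/-- Exchange of the two variables. -/
noncomputable def swp (k : Type) [CommRing k] : k⟦X⟧⟦X⟧ →+* k⟦X⟧⟦X⟧ where
  toFun f := PowerSeries.mk fun i => PowerSeries.mk fun j => coeff i (coeff j f)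
  map_one' := by
    ext i j
    simp only [coeff_mk, coeff_one]
    split_ifs <;> simp [coeff_one, *]
  map_mul' f g := by
    ext i j
    simp only [coeff_mk, coeff_mul, map_sum]
    exact sum_comm
  map_zero' := by ext i j; simp
  map_add' f g := by ext i j; simp

theorem coeff_swp (f : k⟦X⟧⟦X⟧) (i j : ℕ) :
    coeff j (coeff i (swp k f)) = coeff i (coeff j f) := by simp [swp]

theorem swp_swp (f : k⟦X⟧⟦X⟧) : swp k (swp k f) = f := by
  ext i j; rw [coeff_swp, coeff_swp]

theorem swp_inj : Function.Injective (swp k) := Function.LeftInverse.injective swp_swp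

theorem swp_C (f : k⟦X⟧) : swp k (C f) = PowerSeries.map C f := by
  ext i j
  rw [coeff_swp, coeff_map, coeff_C, coeff_C]
  split_ifs <;> simp

theorem swp_X : swp k X = C X := by
  rw [← swp_swp (C X), swp_C, map_X]

theorem const_swp (f : k⟦X⟧⟦X⟧) : constantCoeff (swp k f) = PowerSeries.map constantCoeff f := by
  ext j
  rw [← coeff_zero_eq_constantCoeff_apply, coeff_swp, coeff_map, coeff_zero_eq_constantCoeff_apply]

/-- The roots along the collision. -/
noncomputable def lamD (a b : Fin d) (l : Fin d → k) (j : Fin d) : k⟦X⟧ :=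
  if j = b then C (l a) + X else C (l j)

theorem exists_cD (hab : a ≠ b) {l : Fin d → k} (hl : Function.Injective l) (j i : Fin d) :
    ∃ c : k⟦X⟧, j ≠ i → (lamD a b l j - lamD a b l i) * c = X ∧
      X * C (constantCoeff c) = tb k a b j i := by
  by_cases h1 : j = b ∧ i = a
  · exact ⟨1, fun _ => by simp [lamD, tb, h1, hab]⟩
  by_cases h2 : j = a ∧ i = b
  · exact ⟨-1, fun _ => by simp [lamD, tb, h2, hab]⟩
  by_cases h3 : j = i
  · exact ⟨0, fun h => absurd h3 h⟩
  have : constantCoeff (lamD a b l j - lamD a b l i) ≠ 0 := by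
    unfold lamD
    split_ifs with e1 e2 e2 <;> simp [sub_eq_zero, hl.eq_iff] <;> grind
  refine ⟨X * (lamD a b l j - lamD a b l i)⁻¹, fun _ => ⟨?_, ?_⟩⟩
  · rw [mul_left_comm, PowerSeries.mul_inv_cancel _ this, mul_one]
  · simp [tb, h1, h2]

theorem core [IsAlgClosed k] (h2 : (2 : k) ≠ 0) (hab : a ≠ b) {l : Fin d → k}
    (hl : Function.Injective l) {c : Fin d → Fin d → k⟦X⟧}
    (hc : ∀ j i, j ≠ i → (lamD a b l j - lamD a b l i) * c j i = X ∧
      X * C (constantCoeff (c j i)) = tb k a b j i)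
    {w : Seq d → Fin d → k⟦X⟧⟦X⟧} {ξ : Seq d → k⟦X⟧⟦X⟧} (h : NF (fun j i => X * C (c j i)) w ξ)
    {J : ℕ} (hJ : 1 ≤ J) (M : ℕ) :
    ∃ (S : Type) (_ : CommRing S) (β β' : k⟦X⟧⟦X⟧ →+* S), Function.Injective β ∧
      Function.Injective β' ∧ (∀ x, β' (C (C x)) = β (C (C x))) ∧ β' (C X) = β (C X) ∧
      β' X = β X ∧ ∀ s : Seq d, (∀ i : ℤ, ∃ m : ℕ, m ≤ M ∧ s (i + m) ≠ a ∧ s (i + m) ≠ b) →
        ∀ j, β' (w s j) = β (w (mk a b J s) j) := by
  let K := AlgebraicClosure (FractionRing k⟦X⟧)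
  let κ : k⟦X⟧ →+* K := algebraMap _ _
  have hκ : Function.Injective κ :=
    (algebraMap (FractionRing k⟦X⟧) K).injective.comp (IsFractionRing.injective k⟦X⟧ _)
  have hC : ∀ x, κ (C x) = algebraMap k K x := fun x =>
    (IsScalarTower.algebraMap_apply k k⟦X⟧ K x).symm
  have hr := (h.map (PowerSeries.map constantCoeff)).congr (t' := tb k a b) fun j i hji => by
    simpa using (hc j i hji).2
  obtain ⟨γ, g1, g2, g3⟩ := red_match hab hr κ hκ h2 hC hJ M
  let β : k⟦X⟧⟦X⟧ →+* K⟦X⟧ := (PowerSeries.map κ).comp (swp k)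
  let G : K⟦X⟧ →+* K⟦X⟧ := PowerSeries.map (γ : K →+* K)
  have hβ : Function.Injective β := (PowerSeries.map_injective _ hκ).comp swp_inj
  have b1 : ∀ x, β (C (C x)) = C (algebraMap k K x) := fun x => by simp [β, swp_C, hC]
  have b2 : β (C X) = X := by simp [β, swp_C]
  have b3 : β X = C (κ X) := by simp [β, swp_X]
  have b4 : ∀ f, constantCoeff (β f) = κ (PowerSeries.map constantCoeff f) := fun f => by
    rw [← const_swp]; rfl
  have b5 : ∀ f, constantCoeff (G f) = γ (constantCoeff f) := fun f => rfl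
  have c1 : ∀ x, G (β (C (C x))) = β (C (C x)) := fun x => by simp [b1, G, g1]
  have c2 : G (β (C X)) = β (C X) := by simp [b2, G]
  have c3 : G (β X) = β X := by simp [b3, G, g2]
  have c4 : ∀ j, G (β (C (lamD a b l j))) = β (C (lamD a b l j)) := fun j => by
    unfold lamD; split_ifs <;> simp only [map_add, c1, c2]
  refine ⟨K⟦X⟧, inferInstance, β, G.comp β, hβ,
    (PowerSeries.map_injective (γ : K →+* K) γ.injective).comp hβ, c1, c2, c3, fun s hs j => ?_⟩
  have hsys := fun s => (h.sys (lam := fun j => C (lamD a b l j)) (ε := C X * X)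
    (fun j i hji => by rw [mul_left_comm, ← map_sub, ← map_mul, (hc j i hji).1, mul_comm]) s).map β
  have he : β (C X * X) = X * C (κ X) := by rw [map_mul, b2, b3]
  have he' : G (X * C (κ X)) = X * C (κ X) := by rw [← he, map_mul, map_mul, c2, c3]
  have hba : β (C (lamD a b l b)) = β (C (lamD a b l a)) + X := by simp [lamD, hab, b2]
  have s1 := hsys (mk a b J s)
  have s2 := (hsys s).map G
  simp only [he, he', c4] at s1 s2
  have hin : ∀ (t : Fin d), t = a ∨ t = b → ∀ y : K⟦X⟧,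
      X ∣ β (C (lamD a b l t)) + X * C (κ X) * y - β (C (lamD a b l a)) := by
    rintro t (rfl | rfl) y
    · exact ⟨C (κ X) * y, by ring⟩
    · exact ⟨C (κ X) * y + 1, by rw [hba]; ring⟩
  have := u2 hab (kX_ne κ hκ) hba (fun j i hji hia hib => ?_) s1 s2 s
    (fun i => let ⟨m, hm⟩ := hs i; ⟨m, hm.2⟩) (fun i ha hb => ?_) (fun i hi => ?_)
    (fun i j => ?_) (fun i hi => ?_)
  · simpa using (congrFun (congrFun this 0) j).symm
  · simp only [b4, map_C]
    refine hκ.ne (C_injective.ne ?_)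
    unfold lamD
    split_ifs <;> simp [hl.eq_iff] <;> grind
  · simp only [mk_out ha hb, map_add, map_mul β, map_mul G, b2, b3, c4, add_sub_cancel_left]
    rw [← map_mul G, he']
    exact ⟨⟨_, mul_assoc _ _ _⟩, ⟨_, mul_assoc _ _ _⟩⟩
  · simp only [map_add, map_mul β _ (ξ _), map_mul G _ (β _), he, he', c4]
    exact ⟨hin _ (mk_in.2 hi) _, hin _ hi _⟩
  · rw [X_dvd_iff, map_sub, b5, b4, b4, g3 _ (by simpa [shf, add_comm] using hs i), mk_shf, sub_self]
  · have := hκ.ne (red_nd hab hr (s := shf (mk a b J s) i) (by simpa using mk_in.2 hi))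
    simpa [b4, sh_shf] using this

end Pool.Agent.MP_9b2bac_nt.Z
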