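import Mathlib
import Pool.Agent.MP_9b2bac_nt.ZSwap
import Pool.Agent.MP_9b2bac_nt.ZSweep

/- The markers are induced by automorphisms of the ring of solutions. -/

set_option autoImplicit false

namespace Pool.Agent.MP_9b2bac_nt.Z

open Finset PowerSeries

variable {d : ℕ} {I : Finset ℕ} {A : Type} [CommRing A] [IsDomain A]

theorem exists_fac {R D E : Type} [NonAssocSemiring R] [NonAssocSemiring D] [NonAssocSemiring E]
    (f : R →+* E) (ι : D →+* E) (hι : Function.Injective ι) (h : ∀ r, ∃ y, ι y = f r) :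
    ∃ α : R →+* D, ∀ r, ι (α r) = f r := by
  choose α hα using h
  exact ⟨⟨⟨⟨α, hι (by simp [hα])⟩, fun x y => hι (by simp [hα])⟩, hι (by simp [hα]),
    fun x y => hι (by simp [hα])⟩, hα⟩

theorem RR_mem {E : Type} [CommRing E] (f : RR A d I →+* E) (T : Subsemiring E)
    (h1 : ∀ a, f (algebraMap (Polynomial (AA A d)) _ a) ∈ T) (h2 : ∀ s j, f (zw A s j) ∈ T)
    (r : RR A d I) : f r ∈ T := by
  obtain ⟨r, hr⟩ := r
  induction hr using Algebra.adjoin_induction with
  | mem x hx => obtain ⟨⟨s, j⟩, rfl⟩ := hx; exact h2 s j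
  | algebraMap a => exact h1 a
  | add x y _ _ hx hy => exact map_add f ⟨x, _⟩ ⟨y, _⟩ ▸ add_mem hx hy
  | mul x y _ _ hx hy => exact map_mul f ⟨x, _⟩ ⟨y, _⟩ ▸ mul_mem hx hy

theorem aut_of_pair {E : Type} [CommRing E] (f f' : RR A d I →+* E) (hf : Function.Injective f)
    (hf' : Function.Injective f')
    (h1 : ∀ a, f' (algebraMap (Polynomial (AA A d)) _ a) = f (algebraMap (Polynomial (AA A d)) _ a))
    (p : W d I → W d I) (h2 : ∀ s j, f' (zw A s j) = f (zw A (p s) j)) :
    ∃ g : GG A d I, ∀ s, g • s = p s := by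
  obtain ⟨α, hα⟩ := exists_fac f' f hf
    (RR_mem f' f.rangeS (fun a => ⟨_, (h1 a).symm⟩) fun s j => ⟨_, (h2 s j).symm⟩)
  let g : RR A d I →ₐ[Polynomial (AA A d)] RR A d I := ⟨α, fun a => hf ((hα _).trans (h1 a))⟩
  have hp : ∀ s j, g (zw A s j) = zw A (p s) j := fun s j => hf ((hα _).trans (h2 s j))
  have hg : Function.Injective g := fun x y e => hf' (by rw [← hα, ← hα]; exact congrArg f e)
  exact ⟨AlgEquiv.ofBijective g ⟨hg, RR_surj g p hp hg⟩, fun s => zw_inj (A := A)
    (funext fun j => by rw [← act_zw]; exact hp s j)⟩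

variable {k : Type} [Field k] {a b : Fin d}

/-- Specialisation of the generic roots to the collision family. -/
noncomputable def phiD (a b : Fin d) (e : AA A d →+* k) : AA A d →+* k⟦X⟧ :=
  MvPolynomial.eval₂Hom (C.comp (e.comp MvPolynomial.C)) (lamD a b fun j => e (MvPolynomial.X j))

theorem phiD_inj (hab : a ≠ b) {e : AA A d →+* k} (he : Function.Injective e) :
    Function.Injective (phiD a b e) := by
  let q : AA A d →+* Polynomial k := MvPolynomial.eval₂Hom (Polynomial.C.comp (e.comp MvPolynomial.C))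
    fun j => if j = b then Polynomial.C (e (MvPolynomial.X a)) + Polynomial.X
      else Polynomial.C (e (MvPolynomial.X j))
  have h1 : phiD a b e = Polynomial.coeToPowerSeries.ringHom.comp q :=
    MvPolynomial.ringHom_ext (fun r => by simp [phiD, q]) fun j => by
      simp only [phiD, q, lamD, MvPolynomial.eval₂Hom_X', RingHom.comp_apply]
      split_ifs <;> simp
  have h2 : (Polynomial.evalRingHom (e (MvPolynomial.X b) - e (MvPolynomial.X a))).comp q = e :=
    MvPolynomial.ringHom_ext (fun r => by simp [q]) fun j => by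
      simp only [q, MvPolynomial.eval₂Hom_X', RingHom.comp_apply]
      split_ifs with h <;> simp [h]
  intro x y h
  rw [h1] at h
  apply he
  have h3 : q x = q y := Polynomial.coe_injective _ h
  rw [← h2, RingHom.comp_apply, RingHom.comp_apply, h3]

theorem exists_alpha (hab : a ≠ b) {e : AA A d →+* k} (he : Function.Injective e)
    {c : Fin d → Fin d → k⟦X⟧}
    (hc : ∀ j i, j ≠ i → (phiD a b e (MvPolynomial.X j) - phiD a b e (MvPolynomial.X i)) * c j i = X)
    {w : Seq d → Fin d → k⟦X⟧⟦X⟧} {ξ : Seq d → k⟦X⟧⟦X⟧} (h : NF (fun j i => X * C (c j i)) w ξ) :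
    ∃ α : RR A d I →+* k⟦X⟧⟦X⟧, Function.Injective α ∧
      (∀ x, α (algebraMap (Polynomial (AA A d)) _ (Polynomial.C x)) = C (phiD a b e x)) ∧
      α (algebraMap (Polynomial (AA A d)) _ Polynomial.X) = C X * X ∧
      ∀ s j, α (zw A s j) = w s.1 j := by
  let K := FractionRing k⟦X⟧
  let κ : k⟦X⟧ →+* K := algebraMap _ _
  have hκ : Function.Injective κ := IsFractionRing.injective k⟦X⟧ _
  have hφ : Function.Injective (κ.comp (phiD a b e)) := hκ.comp (phiD_inj hab he)
  have hu : ∀ y : Submonoid.powers (Dl A d), IsUnit (κ.comp (phiD a b e) y) := fun y =>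
    ((map_ne_zero_iff _ hφ).2 (nonZeroDivisors.ne_zero
      (powers_le_nonZeroDivisors_of_noZeroDivisors Dl_ne y.2))).isUnit
  let Φ : BB A d →+* K := IsLocalization.lift hu
  have hΦ : Function.Injective Φ := (IsLocalization.lift_injective_iff hu).2 fun x y => by
    rw [AB_inj.eq_iff, hφ.eq_iff]
  have hΦa : ∀ x, Φ (algebraMap _ _ x) = κ (phiD a b e x) := IsLocalization.lift_eq hu
  have hX : κ X ≠ 0 := (map_ne_zero_iff _ hκ).2 X_ne_zero
  let J : (BB A d)⟦X⟧ →+* K⟦X⟧ := (rescale (κ X)).comp (PowerSeries.map Φ)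
  have hJ : Function.Injective J := (rescale_injective hX).comp (PowerSeries.map_injective _ hΦ)
  have j1 : ∀ x, J (C x) = C (Φ x) := fun x => by
    ext n
    rw [RingHom.comp_apply, map_C, coeff_rescale, coeff_C]
    split_ifs with h <;> simp [h]
  have j2 : J X = C (κ X) * X := by simp [J, rescale_X]
  have hι : Function.Injective (PowerSeries.map κ) := PowerSeries.map_injective _ hκ
  have hw := (NF.unique X ps_haus (fun j i _ => ⟨C (κ (c j i)), by simp⟩)
    (h.map (PowerSeries.map κ)) (((nf0 A).map J).congr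
      (t' := fun j i => PowerSeries.map κ (X * C (c j i))) fun j i hji => by
      simp only [t0, map_mul, j1, j2, map_X, map_C]
      rw [map_inverse_of_unit _ (lB_unit hji), map_sub, lB, lB, hΦa, hΦa, ← hc j i hji, map_mul κ,
        map_sub, mul_right_comm, ← map_mul, mul_right_comm, Ring.mul_inverse_cancel, one_mul,
        mul_comm]
      rw [← hΦa, ← hΦa, ← map_sub]
      exact (lB_unit hji).map Φ)).1
  let f : RR A d I →+* K⟦X⟧ := J.comp (RR A d I).val.toRingHom
  have f1 : ∀ x, f (algebraMap (Polynomial (AA A d)) _ (Polynomial.C x)) =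
      PowerSeries.map κ (C (phiD a b e x)) := fun x => by
    rw [map_C, ← hΦa, ← j1, ← alg_C]; rfl
  have f2 : f (algebraMap (Polynomial (AA A d)) _ Polynomial.X) = PowerSeries.map κ (C X * X) := by
    rw [map_mul, map_C, map_X, ← j2, ← alg_X]; rfl
  have f3 : ∀ s j, f (zw A s j) = PowerSeries.map κ (w s.1 j) := fun s j =>
    (congrFun (congrFun hw s.1) j).symm
  obtain ⟨α, hα⟩ := exists_fac f _ hι (RR_mem f (PowerSeries.map κ).rangeS (fun p => by
    induction p using Polynomial.induction_on with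
    | C x => exact ⟨_, (f1 x).symm⟩
    | add p q hp hq => rw [map_add, map_add]; exact add_mem hp hq
    | monomial n x hp => rw [pow_succ, ← mul_assoc, map_mul, map_mul]; exact mul_mem hp ⟨_, f2.symm⟩)
    fun s j => ⟨_, (f3 s j).symm⟩)
  exact ⟨α, fun x y e => Subtype.ext (hJ ((hα x).symm.trans (e ▸ hα y))),
    fun x => hι ((hα _).trans (f1 x)), hι ((hα _).trans f2), fun s j => hι ((hα _).trans (f3 s j))⟩

theorem marker (hd : 3 ≤ d) (h2 : (2 : A) ≠ 0) (hab : a ≠ b) {J : ℕ} (hJ : 1 ≤ J) :
    ∃ g : GG A d I, ∀ s : W d I, (g • s).1 = mk a b J s.1 := by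
  let k := AlgebraicClosure (FractionRing (AA A d))
  let e : AA A d →+* k := algebraMap _ _
  have he : Function.Injective e :=
    (algebraMap (FractionRing (AA A d)) k).injective.comp (IsFractionRing.injective (AA A d) _)
  have hk : (2 : k) ≠ 0 := fun h => h2 (MvPolynomial.C_injective (Fin d) A (he (by
    rw [map_ofNat, map_ofNat, h, map_zero, map_zero])))
  have hl : Function.Injective fun j => e (MvPolynomial.X j) := he.comp MvPolynomial.X_injective
  choose c hc using exists_cD hab hl
  obtain ⟨w, ξ, h⟩ := exists_NF (fun j i => X * C (c j i)) fun _ _ _ => Dvd.intro _ rfl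
  obtain ⟨S, _, β, β', hβ, hβ', b1, b2, b3, b4⟩ := core hk hab hl hc h hJ (I.sup id)
  obtain ⟨α, hα, a1, a2, a3⟩ := exists_alpha (I := I) hab he
    (fun j i hji => by simpa [phiD] using (hc j i hji).1) h
  let p : W d I → W d I := fun s => ⟨mk a b J s.1, let ⟨n, hn, h⟩ := s.2; ⟨n, hn, mk_per hd h hab hJ⟩⟩
  obtain ⟨g, hg⟩ := aut_of_pair (β.comp α) (β'.comp α) (hβ.comp hα) (hβ'.comp hα) (fun x => by
    have e1 : (β'.comp C).comp (phiD a b e) = (β.comp C).comp (phiD a b e) :=
      MvPolynomial.ringHom_ext (fun r => by simp [phiD, b1]) fun j => by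
        simp only [phiD, lamD, MvPolynomial.eval₂Hom_X', RingHom.comp_apply]
        split_ifs <;> simp only [map_add, b1, b2]
    have : (β'.comp α).comp (algebraMap (Polynomial (AA A d)) _) =
        (β.comp α).comp (algebraMap (Polynomial (AA A d)) _) :=
      Polynomial.ringHom_ext (fun x => by
        simp only [RingHom.comp_apply, a1]; exact DFunLike.congr_fun e1 x)
        (by simp only [RingHom.comp_apply, a2, map_mul, b2, b3])
    exact DFunLike.congr_fun this x) p fun s j => by
      simp only [RingHom.comp_apply, a3]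
      refine b4 _ (fun i => ?_) j
      obtain ⟨n, hn, h⟩ := s.2
      obtain ⟨t, ht⟩ : ∃ t : Fin d, t ≠ a ∧ t ≠ b := by
        by_contra hc
        push Not at hc
        have : (univ : Finset (Fin d)) ⊆ {a, b} := fun t _ => by
          by_cases h : t = a
          · simp [h]
          · simp [hc t h]
        have := (card_le_card this).trans card_le_two
        simp at this; omega
      obtain ⟨x, rfl⟩ := h.2.2 t
      have hn' : (0 : ℤ) < n := by exact_mod_cast h.1
      have h0 := Int.emod_nonneg (x - i) hn'.ne'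
      have h1 := Int.emod_lt_of_pos (x - i) hn'
      have h3 : n ≤ I.sup id := le_sup (f := id) hn
      refine ⟨((x - i) % n).toNat, by omega, ?_⟩
      rwa [Int.toNat_of_nonneg h0, ← h.zper _ ((x - i) / n), add_assoc, Int.emod_add_ediv_mul,
        add_sub_cancel]
  exact ⟨g, fun s => congrArg Subtype.val (hg s)⟩

end Pool.Agent.MP_9b2bac_nt.Z
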