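import Mathlib
import Pool.Agent.MP_9b2bac_nt.ZRoot
import Pool.Agent.MP_9b2bac_nt.ZMark
import Pool.Agent.MP_9b2bac_nt.ZGrp
import Pool.Agent.MP_9b2bac_nt.ZChebq
import Pool.Agent.MP_9b2bac_nt.ZFixP

/- The count along one scaling line. -/

set_option autoImplicit false

namespace Pool.Agent.MP_9b2bac_nt.Z

open Finset Polynomial

variable {d : ℕ}

theorem exists_frob {F k : Type} [Field F] [Fintype F] [Field k] [Algebra F k] {P : F[X]}
    {l : Fin d → k} (hl : Function.Injective l)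
    (hP : P.map (algebraMap F k) = ∏ j, (X - C (l j))) :
    ∃ π : Equiv.Perm (Fin d), ∀ j, l j ^ Fintype.card F = l (π j) := by
  have h1 : ∀ x : k, aeval x P = 0 ↔ ∃ j, x = l j := fun x => by
    rw [← eval_map_algebraMap, hP, eval_prod, prod_eq_zero_iff]; simp [sub_eq_zero]
  have h2 : ∀ j, ∃ i, l j ^ Fintype.card F = l i := fun j => (h1 _).1 (by
    have := aeval_algHom_apply (FiniteField.frobeniusAlgHom F k) (l j) P
    rwa [(h1 _).2 ⟨j, rfl⟩, map_zero] at this)
  choose f hf using h2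
  have : Function.Injective f := fun i j h => hl ((FiniteField.frobeniusAlgHom F k).injective
    ((hf i).trans (h ▸ (hf j).symm)))
  exact ⟨Equiv.ofBijective f (Finite.injective_iff_bijective.1 this), hf⟩

theorem one_line (hd : 3 ≤ d) (η : ℝ) (hη : 0 < η) : ∃ N : ℕ, ∀ (A : Type) [CommRing A]
    [IsDomain A], (2 : A) ≠ 0 → ∃ ν : AA A d, ν ≠ 0 ∧ ∃ D q₀ : ℕ, ∀ (F : Type) [Field F]
      [Fintype F], q₀ ≤ Fintype.card F → ∀ (ρ : A →+* F) (P : F[X])
      (l : Fin d → AlgebraicClosure F), P.map (algebraMap F _) = ∏ j, (X - C (l j)) →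
      MvPolynomial.eval₂Hom ((algebraMap F _).comp ρ) l ν ≠ 0 →
      ({ε : F | ε ≠ 0 ∧ ¬ Sm N (P.scaleRoots ε⁻¹)}.ncard : ℝ) ≤ 10 * Fintype.card F * η + D := by
  obtain ⟨I, hI⟩ := grp d hd η hη
  refine ⟨I.sup id, fun A _ _ h2 => ?_⟩
  obtain ⟨ν, hν, D, q₀, h⟩ := chebq (AA A d) (BB A d) (Dl A d) Dl_ne (RR A d I) RR_fg hfixP
    (Equiv.Perm (Fin d)) (th A I) (tauA A) (fun π => by simp [th_alg]) fun π a => by simp [th_alg]
  refine ⟨ν * Dl A d, mul_ne_zero hν Dl_ne, D, max q₀ (max 3 (I.sup id + 1)),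
    fun F _ _ hq ρ P l hP h0 => ?_⟩
  simp only [max_le_iff] at hq
  let k := AlgebraicClosure F
  let ψ : AA A d →+* k := MvPolynomial.eval₂Hom ((algebraMap F _).comp ρ) l
  obtain ⟨p, _, f, hp, hf⟩ := FiniteField.card' F
  haveI := Fact.mk hp
  rw [map_mul, mul_ne_zero_iff] at h0
  have hl : Function.Injective l := fun i j e => by
    by_contra hij
    refine h0.2 (zero_dvd_iff.1 ?_)
    simpa [ψ, e] using map_dvd ψ (dvd_Dl (A := A) hij)
  obtain ⟨π, hπ⟩ := exists_frob hl hP
  have hψ : ∀ a, ψ a ^ p ^ (f : ℕ) = ψ (tauA A π a) := fun a => by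
    have : (FiniteField.frobeniusAlgHom F k : k →+* k).comp ψ = ψ.comp (tauA A π : _ →+* _) :=
      MvPolynomial.ringHom_ext (fun r => by
        simp [ψ, tauA, ← map_pow, FiniteField.pow_card]) fun j => by simp [ψ, tauA_X, hπ]
    rw [← hf]
    exact DFunLike.congr_fun this a
  have hm : P.Monic ∧ P.natDegree = d := by
    rw [← natDegree_map (algebraMap F k), ← (algebraMap F k).injective.monic_map_iff.symm, hP]
    exact ⟨monic_prod_of_monic _ _ fun j _ => monic_X_sub_C _, by
      rw [natDegree_prod_of_monic _ _ fun j _ => monic_X_sub_C _]; simp⟩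
  have h3 := h p f k (hf ▸ hq.1) ψ h0.1 π hψ {g | ∀ w, g • relW I π w ≠ shW d I w}
    (algebraMap F k '' {ε : F | ε ≠ 0 ∧ ¬ Sm (I.sup id) (P.scaleRoots ε⁻¹)})
    (by rintro _ ⟨ε, -, rfl⟩; rw [← hf, ← map_pow, FiniteField.pow_card]) (by
      rintro _ ⟨ε, ⟨hε, hS⟩, rfl⟩ φ hX hC g hg s hs
      refine hS ?_
      have e1 : ∀ w, φ (zx A w) ^ Fintype.card F = φ (zx A (g • relW I π w)) := fun w => by
        rw [hf, hg, th_zx, act_zx]
      have hc : Commute (MulAction.toPerm g * relW I π) (shW d I) := Equiv.ext fun w => by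
        simp [relW_sh, act_sh]
      have e2 : ∀ i : ℤ, φ (zx A ((shW d I ^ i) s)) ^ Fintype.card F =
          φ (zx A ((shW d I ^ (i + 1)) s)) := fun i => by
        have := DFunLike.congr_fun (hc.zpow_right i).eq s
        simp only [Equiv.Perm.mul_apply, MulAction.toPerm_apply] at this
        rw [e1, this, hs, zpow_add_one, Equiv.Perm.mul_apply]
      have hsys := (sysR A s).map φ
      simp only [eR, lR, hX, hC, ψ, MvPolynomial.eval₂Hom_X'] at hsys
      have hq' : algebraMap F k ε ^ Fintype.card F = algebraMap F k ε := by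
        rw [← map_pow, FiniteField.pow_card]
      have := sys_root ((_root_.map_ne_zero _).2 hε) hq' hsys e2 (P := P.scaleRoots ε⁻¹) fun j => by
        rw [← map_inv₀]
        refine scaleRoots_aeval_eq_zero ?_
        rw [← eval_map_algebraMap, hP, eval_prod]
        exact prod_eq_zero (mem_univ j) (by simp)
      obtain ⟨n, hn, hper⟩ := s.2
      refine sm_of_root (by omega) ((monic_scaleRoots_iff _).2 hm.1)
        (by rw [natDegree_scaleRoots]; omega) hper.1 (le_sup (f := id) hn) (by omega) ?_ this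
      have e3 : ∀ m : ℕ, φ (zx A ((shW d I ^ (0 : ℤ)) s)) ^ Fintype.card F ^ m =
          φ (zx A ((shW d I ^ (m : ℤ)) s)) := fun m => by
        induction m with
        | zero => simp
        | succ m ih => rw [pow_succ, pow_mul, ih, e2, Nat.cast_succ]
      have e4 : (shW d I ^ (n : ℤ)) s = (shW d I ^ (0 : ℤ)) s := Subtype.ext (by
        rw [shW_zpow, shW_zpow, ← shf_per hper 0, zero_add])
      rw [mul_pow, e3, e4, ← map_inv₀, ← map_pow, FiniteField.pow_card_pow])
  have h4 := hI (GG A d I) act_sh (fun u v j huv hj => marker hd h2 huv hj) (relW I π) (relW_sh π)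
    (relW_norm π)
  rw [Set.ncard_image_of_injective _ (algebraMap F k).injective, ← hf] at h3
  have h5 : (0 : ℝ) < Nat.card (GG A d I) := by exact_mod_cast Nat.card_pos
  have h6 := (Nat.cast_le (α := ℝ)).2 h3
  push_cast at h6
  refine le_of_mul_le_mul_left (h6.trans ?_) h5
  have h7 := mul_le_mul_of_nonneg_left h4 (show (0 : ℝ) ≤ 10 * Fintype.card F by positivity)
  linarith

end Pool.Agent.MP_9b2bac_nt.Z
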