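import Mathlib
import Pool.Agent.MP_9b2bac_nt.YRoot
import Pool.Agent.MP_9b2bac_nt.YDefs
import Pool.Agent.MP_9b2bac_nt.YCheb
import Pool.Agent.MP_9b2bac_nt.YSpread
import Pool.Agent.MP_9b2bac_nt.ZOne

/- Prime factors of degree `n` correspond to twisted fixed words of least period `n`. -/

set_option autoImplicit false

namespace Pool.Agent.MP_9b2bac_nt.Z

open Finset Polynomial

variable {d : ℕ} {I : Finset ℕ} {A : Type} [CommRing A] [IsDomain A]
  {F k : Type} [Field F] [Fintype F] [Field k] [Algebra F k]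

/-- `C_P(1)` has no prime factor of degree in `[M, N]`. -/
def NoF (M N : ℕ) (P : F[X]) : Prop :=
  ∀ Q : F[X], Irreducible Q → Q ∣ carlitz X P 1 → Q.natDegree < M ∨ N < Q.natDegree

theorem fix_pow (φ : RR A d I →+* k) (g : GG A d I) (π : Equiv.Perm (Fin d)) {q : ℕ}
    (hg : ∀ r, φ r ^ q = φ (g (th A I π r))) {s : W d I} (hs : g • relW I π s = shW d I s) (i : ℤ) :
    φ (zx A ((shW d I ^ i) s)) ^ q = φ (zx A ((shW d I ^ (i + 1)) s)) := by
  have hc : Commute (MulAction.toPerm g * relW I π) (shW d I) := Equiv.ext fun w => by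
    simp [relW_sh, act_sh]
  have := DFunLike.congr_fun (hc.zpow_right i).eq s
  simp only [Equiv.Perm.mul_apply, MulAction.toPerm_apply] at this
  rw [hg, th_zx, act_zx, this, hs, zpow_add_one, Equiv.Perm.mul_apply]

theorem fix_pow' (φ : RR A d I →+* k) (g : GG A d I) (π : Equiv.Perm (Fin d)) {q : ℕ}
    (hg : ∀ r, φ r ^ q = φ (g (th A I π r))) {s : W d I} (hs : g • relW I π s = shW d I s) (i : ℤ)
    (m : ℕ) : φ (zx A ((shW d I ^ i) s)) ^ q ^ m = φ (zx A ((shW d I ^ (i + m)) s)) := by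
  induction m with
  | zero => simp
  | succ m ih => rw [pow_succ, pow_mul, ih, fix_pow φ g π hg hs, Nat.cast_succ, add_assoc]

theorem per_pow {n : ℕ} {s : W d I} (h : Per n s.1) (i : ℤ) :
    (shW d I ^ (i + n)) s = (shW d I ^ i) s :=
  Subtype.ext (by rw [shW_zpow, shW_zpow, shf_per h])

theorem noF_iff [IsAlgClosed k] [Algebra.IsAlgebraic F k] {M N : ℕ}
    (hI : ∀ n, M ≤ n → n ≤ N → n ∈ I) {P : F[X]} (hm : P.Monic) (hi : Irreducible P)
    (φ : RR A d I →+* k) {ε : F} (hε : ε ≠ 0) (he : φ (eR A d I) = algebraMap F k ε)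
    (hl : Function.Injective fun j => φ (lR A I j))
    (hP : P.map (algebraMap F k) = ∏ j, (X - C ((algebraMap F k ε)⁻¹ * φ (lR A I j))))
    (π : Equiv.Perm (Fin d)) (hπ : ∀ j, φ (lR A I j) ^ Fintype.card F = φ (lR A I (π j)))
    (g : GG A d I) (hg : ∀ r, φ r ^ Fintype.card F = φ (g (th A I π r)))
    (c1 : ∀ s s' : W d I, φ (zx A s) = φ (zx A s') → s.1 0 = s'.1 0)
    (c2 : ∀ s s' : W d I, (∀ j, φ (zw A s j) = φ (zw A s' j)) → s = s')
    (c3 : ∀ n ∈ I, 0 < n → ∀ (x : ℤ → k) (w : ℤ → Fin d → k),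
        Sys (fun j => φ (lR A I j)) (φ (eR A d I)) x w → (∀ i, w (i + n) = w i) →
        (∀ j, ∃ i, w i j ≠ 0) → ∃ s : W d I, Per n s.1 ∧ ∀ j, w 0 j = φ (zw A s j)) :
    NoF M N P ↔ ∀ (w : W d I) (n : ℕ), M ≤ n → n ≤ N → Prim n w.1 →
      g • relW I π w ≠ shW d I w := by
  set e := algebraMap F k ε
  have he0 : e ≠ 0 := (_root_.map_ne_zero _).2 hε
  have heq : ∀ m, e ^ Fintype.card F ^ m = e := fun m => by
    rw [← map_pow, FiniteField.pow_card_pow]
  have heq1 : e ^ Fintype.card F = e := by simpa using heq 1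
  have hsys := fun s => (sysR A s).map φ
  have hper : ∀ {s : W d I} {m : ℕ}, g • relW I π s = shW d I s → Per m s.1 →
      (e⁻¹ * φ (zx A s)) ^ Fintype.card F ^ m = e⁻¹ * φ (zx A s) := fun {s m} hs h => by
    have := fix_pow' φ g π hg hs 0 m
    rw [per_pow h] at this
    simp only [zpow_zero, Equiv.Perm.one_apply] at this
    rw [mul_pow, inv_pow, heq, this]
  refine ⟨fun h s n h1 h2 hn hs => ?_, fun h Q hQ hd => ?_⟩
  · have h3 := sys_root (F := F) (he ▸ he0) (he ▸ heq1) (hsys s) (fix_pow φ g π hg hs) (P := P)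
      fun j => by
        rw [← eval_map_algebraMap, hP, eval_prod, he]
        exact prod_eq_zero (mem_univ j) (by simp)
    simp only [zpow_zero, Equiv.Perm.one_apply, he] at h3
    have h4 : IsIntegral F (e⁻¹ * φ (zx A s)) := Algebra.IsIntegral.isIntegral _
    have h5 := pow_card_pow_eq (minpoly.irreducible h4) (minpoly.aeval F _)
    have h6 := Nat.le_of_dvd hn.1.1 ((h5 n).1 (hper hs hn.1))
    have h7 := h _ (minpoly.irreducible h4) (minpoly.dvd F _ (by rw [map_carlitz]; simpa using h3))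
    have h8 := (h5 _).2 dvd_rfl
    generalize hmm : (minpoly F (e⁻¹ * φ (zx A s))).natDegree = m at *
    refine hn.2 m (by omega) ⟨hmm ▸ minpoly.natDegree_pos h4, fun i => ?_, hn.1.2.2⟩
    rw [mul_pow, inv_pow, heq, mul_right_inj' (inv_ne_zero he0)] at h8
    have h9 : ∀ j : ℕ, s.1 (j + m) = s.1 j := fun j => by
      have a1 := fix_pow' φ g π hg hs 0 j
      have a2 := fix_pow' φ g π hg hs 0 (m + j)
      simp only [zpow_zero, Equiv.Perm.one_apply] at a1 a2
      rw [pow_add, pow_mul, h8, a1] at a2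
      have := (c1 _ _ a2).symm
      rw [shW_zpow, shW_zpow] at this
      simpa [add_comm] using this
    have hn' : (0 : ℤ) < n := by exact_mod_cast hn.1.1
    have := h9 (i % n).toNat
    rwa [Int.toNat_of_nonneg (Int.emod_nonneg _ hn'.ne'), hn.1.emod, ← hn.1.emod,
      Int.emod_add_emod, hn.1.emod] at this
  · by_contra hc
    push Not at hc
    obtain ⟨θ, hθ⟩ := IsAlgClosed.exists_aeval_eq_zero k Q (degree_pos_of_irreducible hQ).ne'
    have h5 := pow_card_pow_eq hQ hθ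
    have h1 : carlitz θ P 1 = 0 := by
      obtain ⟨R, hR⟩ := hd
      have := congrArg (aeval θ) hR
      rw [map_carlitz, map_mul, hθ, zero_mul] at this
      simpa using this
    obtain ⟨x, w, s1, s2, s3, s4, s5⟩ := root_sys hm hi (μ := fun j => e⁻¹ * φ (lR A I j))
      ((mul_right_injective₀ (inv_ne_zero he0)).comp hl) hP (π := π)
      (fun j => by simp only [mul_pow, inv_pow, heq1, hπ]) ((h5 _).2 dvd_rfl) h1
    have s6 : Sys (fun j => φ (lR A I j)) (φ (eR A d I)) (fun i => e * x i) w :=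
      ⟨fun i j => by
        have := s1.step i j
        rw [he, ← mul_inv_cancel_left₀ he0 (φ (lR A I j))]
        linear_combination e * this, s1.sum⟩
    obtain ⟨s, t1, t2⟩ := c3 _ (hI _ hc.1 hc.2) hQ.natDegree_pos _ w s6 s3 s4
    have t3 : e * θ = φ (zx A s) := by
      have a1 := s6.x_eq 0
      have a2 := (hsys s).x_eq 0
      simp only [zpow_zero, Equiv.Perm.one_apply, ← t2, s2] at a1 a2
      rw [a1, a2]
    have t4 : g • relW I π s = shW d I s := c2 _ _ fun j => by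
      obtain ⟨j, rfl⟩ := π.surjective j
      have a1 := s6.step 0 (π j)
      have a2 := (hsys s).step 0 (π j)
      simp only [zpow_zero, Equiv.Perm.one_apply, ← t2, s2, t3, zero_add, zpow_one, he] at a1 a2
      rw [← act_zw, ← th_zw, ← hg, ← t2, s5]
      exact mul_left_cancel₀ he0 (a1.trans a2.symm)
    refine h s _ hc.1 hc.2 ⟨t1, fun m hm hm' => ?_⟩ t4
    have := hper t4 hm'
    rw [← t3, inv_mul_cancel_left₀ he0, h5] at this
    exact absurd (Nat.le_of_dvd hm'.1 this) (not_le.2 hm)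

omit [Fintype F] in
theorem irr_scale {P : F[X]} (h : Irreducible P) {u : F} (hu : u ≠ 0) :
    Irreducible (P.scaleRoots u) := by
  have e : ∀ (Q : F[X]) (v : F), IsUnit (Q.scaleRoots v) ↔ IsUnit Q := fun Q v => by
    rw [isUnit_iff_degree_eq_zero, isUnit_iff_degree_eq_zero, degree_scaleRoots]
  refine ⟨fun hu => h.not_isUnit ((e _ _).1 hu), fun a b hab => ?_⟩
  have := congrArg (scaleRoots · u⁻¹) hab
  simp only [← scaleRoots_mul, mul_inv_cancel₀ hu, scaleRoots_one,
    mul_scaleRoots_of_noZeroDivisors] at this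
  simpa only [e] using h.isUnit_or_isUnit this

theorem prod_scale (l : Fin d → k) (u : k) (s : Finset (Fin d)) :
    (∏ j ∈ s, (X - C (l j))).scaleRoots u = ∏ j ∈ s, (X - C (u * l j)) := by
  induction s using Finset.induction_on with
  | empty => simp
  | insert a s ha ih =>
    rw [prod_insert ha, prod_insert ha, mul_scaleRoots_of_noZeroDivisors, ih, X_sub_C_scaleRoots,
      mul_comm u]

theorem two_sided {M N : ℕ} (hI : ∀ n, M ≤ n → n ≤ N → n ∈ I) {lo hi δ : ℝ} (hδ : 0 < δ)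
    (hgrp : ∀ π : Equiv.Perm (Fin d), lo * Nat.card (GG A d I) ≤
      {g : GG A d I | ∀ (w : W d I) (n : ℕ), M ≤ n → n ≤ N → Prim n w.1 →
        g • relW I π w ≠ shW d I w}.ncard ∧
      ({g : GG A d I | ∀ (w : W d I) (n : ℕ), M ≤ n → n ≤ N → Prim n w.1 →
        g • relW I π w ≠ shW d I w}.ncard : ℝ) ≤ hi * Nat.card (GG A d I)) :
    ∃ ν : AA A d, ν ≠ 0 ∧ ∃ D q₀ : ℕ, ∀ (F : Type) [Field F]
      [Fintype F], q₀ ≤ Fintype.card F → ∀ (ρ : A →+* F) (P : F[X]), Irreducible P →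
      ∀ l : Fin d → AlgebraicClosure F, P.map (algebraMap F _) = ∏ j, (X - C (l j)) →
      MvPolynomial.eval₂Hom ((algebraMap F _).comp ρ) l ν ≠ 0 →
      ({ε : F | ε ≠ 0 ∧ NoF M N (P.scaleRoots ε⁻¹)}.ncard : ℝ) ≤
        (1 + δ) * Fintype.card F * hi + D ∧
      ({ε : F | ε ≠ 0 ∧ ¬ NoF M N (P.scaleRoots ε⁻¹)}.ncard : ℝ) ≤
        (1 + δ) * Fintype.card F * (1 - lo) + D := by
  classical
  obtain ⟨ν, hν, D, q₀, h⟩ := chebs (AA A d) (BB A d) (Dl A d) Dl_ne (RR A d I) RR_fg hfixP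
    (Equiv.Perm (Fin d)) (th A I) (tauA A) (fun π => by simp [th_alg]) (fun π a => by simp [th_alg])
    δ hδ
  obtain ⟨b, hb, hc⟩ := complete d I A
  refine ⟨ν * Dl A d * b.leadingCoeff, mul_ne_zero (mul_ne_zero hν Dl_ne) (by simpa using hb),
    D + b.natDegree, q₀, fun F _ _ hq ρ P hir l hP h0 => ?_⟩
  let k := AlgebraicClosure F
  let ψ : AA A d →+* k := MvPolynomial.eval₂Hom ((algebraMap F _).comp ρ) l
  obtain ⟨p, _, f, hp, hf⟩ := FiniteField.card' F
  haveI := Fact.mk hp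
  rw [map_mul, map_mul, mul_ne_zero_iff, mul_ne_zero_iff] at h0
  have hl : Function.Injective l := fun i j e => by
    by_contra hij
    refine h0.1.2 (zero_dvd_iff.1 ?_)
    simpa [ψ, e] using map_dvd ψ (dvd_Dl (A := A) hij)
  obtain ⟨π, hπ⟩ := exists_frob hl hP
  have hψ : ∀ a, ψ a ^ p ^ (f : ℕ) = ψ (tauA A π a) := fun a => by
    have : (FiniteField.frobeniusAlgHom F k : k →+* k).comp ψ = ψ.comp (tauA A π : _ →+* _) :=
      MvPolynomial.ringHom_ext (fun r => by
        simp [ψ, tauA, ← map_pow, FiniteField.pow_card]) fun j => by simp [ψ, tauA_X, hπ]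
    rw [← hf]
    exact DFunLike.congr_fun this a
  have hm : P.Monic := by
    rw [← (algebraMap F k).injective.monic_map_iff.symm, hP]
    exact monic_prod_of_monic _ _ fun j _ => monic_X_sub_C _
  have hbψ : b.map ψ ≠ 0 := fun e => h0.2 (by
    have := congrArg (fun p => p.coeff b.natDegree) e
    simpa [ψ] using this)
  have h5 : (0 : ℝ) < Nat.card (GG A d I) := by exact_mod_cast Nat.card_pos
  have key : ∀ (Q : Prop → Prop) (β : ℝ), ({g : GG A d I | Q (∀ (w : W d I) (n : ℕ), M ≤ n →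
      n ≤ N → Prim n w.1 → g • relW I π w ≠ shW d I w)}.ncard : ℝ) ≤ β * Nat.card (GG A d I) →
      ({ε : F | ε ≠ 0 ∧ Q (NoF M N (P.scaleRoots ε⁻¹))}.ncard : ℝ) ≤
        (1 + δ) * Fintype.card F * β + (D + b.natDegree : ℕ) := fun Q β hβ => by
    have h3 := h p f k (hf ▸ hq) ψ h0.1.1 π hψ {g : GG A d I | Q (∀ (w : W d I) (n : ℕ), M ≤ n →
      n ≤ N → Prim n w.1 → g • relW I π w ≠ shW d I w)}
      (algebraMap F k '' {ε : F | ε ≠ 0 ∧ Q (NoF M N (P.scaleRoots ε⁻¹))} \ (b.map ψ).roots.toFinset)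
      (by rintro _ ⟨⟨ε, -, rfl⟩, -⟩; rw [← hf, ← map_pow, FiniteField.pow_card]) (by
        rintro _ ⟨⟨ε, ⟨hε, hS⟩, rfl⟩, hr⟩ φ hX hC g hg
        have e1 : φ.comp (algebraMap (AA A d)[X] _) = eval₂RingHom ψ (algebraMap F k ε) :=
          Polynomial.ringHom_ext (fun a => by simp [hC]) (by simp [hX])
        obtain ⟨c1, c2, c3⟩ := hc k φ fun e => hr (by
          have := DFunLike.congr_fun e1 b
          rw [RingHom.comp_apply, e] at this
          rw [Finset.mem_coe, Multiset.mem_toFinset, mem_roots hbψ, IsRoot, eval_map]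
          exact this.symm)
        have e2 : ∀ j, φ (lR A I j) = l j := fun j => by simp [lR, hC, ψ]
        rw [Set.mem_setOf_eq, ← noF_iff hI (P := P.scaleRoots ε⁻¹) ((monic_scaleRoots_iff _).2 hm)
          (irr_scale hir (inv_ne_zero hε)) φ hε hX (by simpa only [e2] using hl) ?_ π (by simpa only [e2] using hπ) g
          (hf ▸ hg) c1 c2 c3]
        · exact hS
        · rw [map_scaleRoots _ _ _ (by simp [hm]), hP, prod_scale, map_inv₀]
          simp only [e2])
    have h4 : {ε : F | ε ≠ 0 ∧ Q (NoF M N (P.scaleRoots ε⁻¹))}.ncard ≤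
        (algebraMap F k '' {ε : F | ε ≠ 0 ∧ Q (NoF M N (P.scaleRoots ε⁻¹))} \
          (b.map ψ).roots.toFinset).ncard + b.natDegree := by
      rw [← Set.ncard_image_of_injective _ (algebraMap F k).injective]
      refine (Set.ncard_le_ncard_diff_add_ncard _ _ (b.map ψ).roots.toFinset.finite_toSet).trans
        (Nat.add_le_add_left ?_ _)
      rw [Set.ncard_coe_finset]
      exact (Multiset.toFinset_card_le _).trans ((card_roots' _).trans natDegree_map_le)
    have h6 := (Nat.cast_le (α := ℝ)).2 h4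
    have h7 := mul_le_mul_of_nonneg_left hβ (show (0 : ℝ) ≤ (1 + δ) * (p : ℝ) ^ (f : ℕ) by positivity)
    have h8 := mul_le_mul_of_nonneg_left h6 h5.le
    refine le_of_mul_le_mul_left ?_ h5
    rw [hf]
    push_cast at h8 ⊢
    linarith
  refine ⟨key id hi (hgrp π).2, key Not (1 - lo) ?_⟩
  have := Set.ncard_add_ncard_compl {g : GG A d I | ∀ (w : W d I) (n : ℕ), M ≤ n → n ≤ N →
    Prim n w.1 → g • relW I π w ≠ shW d I w}
  have h9 := (hgrp π).1
  have h10 := congrArg (Nat.cast : ℕ → ℝ) this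
  rw [Nat.cast_add, Set.compl_setOf] at h10
  linarith

end Pool.Agent.MP_9b2bac_nt.Z
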