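import Mathlib
import Pool.Agent.MP_9b2bac_nt.ZOne
import Pool.Agent.MP_9b2bac_nt.PntAp

/- The global count. -/

set_option autoImplicit false

namespace Pool.Agent.MP_9b2bac_nt.Z

open Finset Polynomial Pnt Classical

variable {d : ℕ}

theorem exists_sym {A : Type} [CommRing A] [IsDomain A] {ν : AA A d} (hν : ν ≠ 0) :
    ∃ μ : MvPolynomial (Fin d) A, μ ≠ 0 ∧
      ν ∣ MvPolynomial.aeval (fun i : Fin d => MvPolynomial.esymm (Fin d) A (i + 1)) μ := by
  have hs : (∏ π : Equiv.Perm (Fin d), MvPolynomial.rename π ν).IsSymmetric := fun e => by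
    rw [map_prod]
    refine Fintype.prod_equiv (Equiv.mulLeft e) _ _ fun π => ?_
    rw [MvPolynomial.rename_rename]; rfl
  obtain ⟨μ, hμ⟩ := MvPolynomial.esymmAlgHom_surjective A (σ := Fin d) (n := d) (by simp) ⟨_, hs⟩
  have h1 := congrArg Subtype.val hμ
  rw [MvPolynomial.esymmAlgHom_apply] at h1
  refine ⟨μ, fun h => ?_, ?_⟩
  · rw [h, map_zero] at h1
    obtain ⟨π, -, h2⟩ := prod_eq_zero_iff.1 h1.symm
    exact hν (MvPolynomial.rename_injective _ π.injective (by rw [h2, map_zero]))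
  · rw [h1]
    simpa using dvd_prod_of_mem (fun π : Equiv.Perm (Fin d) => MvPolynomial.rename π ν) (mem_univ 1)

theorem exists_lin {k : Type} [Field k] [IsAlgClosed k] {P : k[X]} (hP : P.Monic)
    (hd : P.natDegree = d) : ∃ l : Fin d → k, P = ∏ j, (X - C (l j)) := by
  have h1 := (IsAlgClosed.splits P).eq_prod_roots_of_monic hP
  have h2 := (IsAlgClosed.splits P).natDegree_eq_card_roots
  obtain ⟨L, hL⟩ := Quotient.exists_rep P.roots
  rw [← hL] at h1 h2
  obtain rfl : d = L.length := hd.symm.trans h2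
  exact ⟨fun j => L[j], h1.trans (Fin.prod_univ_fun_getElem L fun a => X - C a).symm⟩

/-- The elementary symmetric functions of the roots. -/
noncomputable def esy {F : Type} [Field F] (d : ℕ) (P : F[X]) (i : Fin d) : F :=
  (-1) ^ (i + 1 : ℕ) * P.coeff (d - (i + 1))

theorem esy_inj {F : Type} [Field F] [Fintype F] : Set.InjOn (esy (F := F) d) (mon F d) := by
  intro P hP Q hQ h
  obtain ⟨h1, h2⟩ := mem_mon.1 hP
  obtain ⟨h3, h4⟩ := mem_mon.1 hQ
  ext n
  rcases lt_trichotomy n d with hn | rfl | hn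
  · have := congrFun h ⟨d - (n + 1), by omega⟩
    simp only [esy, show d - (d - (n + 1) + 1) = n by omega] at this
    exact mul_left_cancel₀ (by simp) this
  · rw [← h2, h1.coeff_natDegree, h2, ← h4, h3.coeff_natDegree]
  · rw [coeff_eq_zero_of_natDegree_lt (by omega), coeff_eq_zero_of_natDegree_lt (by omega)]

theorem esy_eval {A F k : Type} [CommRing A] [Field F] [Field k] [Algebra F k] (ρ : A →+* F)
    {P : F[X]} {l : Fin d → k} (hP : P.map (algebraMap F k) = ∏ j, (X - C (l j)))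
    (μ : MvPolynomial (Fin d) A) :
    MvPolynomial.eval₂Hom ((algebraMap F k).comp ρ) l
      (MvPolynomial.aeval (fun i : Fin d => MvPolynomial.esymm (Fin d) A (i + 1)) μ) =
      algebraMap F k (MvPolynomial.eval (esy d P) (μ.map ρ)) := by
  have : (MvPolynomial.eval₂Hom ((algebraMap F k).comp ρ) l).comp
      (MvPolynomial.aeval (fun i : Fin d => MvPolynomial.esymm (Fin d) A (i + 1))).toRingHom =
      ((algebraMap F k).comp (MvPolynomial.eval (esy d P))).comp (MvPolynomial.map ρ) :=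
    MvPolynomial.ringHom_ext (fun r => by simp) fun i => by
      letI := ((algebraMap F k).comp ρ).toAlgebra
      have h1 := MvPolynomial.aeval_esymm_eq_multiset_esymm (Fin d) A (i + 1) l
      have h2 := Multiset.prod_X_sub_C_coeff (univ.val.map l) (k := d - (i + 1)) (by simp)
      rw [Multiset.map_map, Multiset.card_map, card_val, card_fin,
        show d - (d - (i + 1)) = i + 1 by omega, ← h1] at h2
      have h3 := congrArg (fun p => p.coeff (d - (i + 1))) hP
      simp only [coeff_map] at h3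
      simp only [RingHom.comp_apply, AlgHom.toRingHom_eq_coe, RingHom.coe_coe, MvPolynomial.aeval_X,
        MvPolynomial.map_X, MvPolynomial.eval_X, esy, map_mul, map_pow, map_neg, map_one, h3]
      rw [prod_eq_multiset_prod]
      erw [h2]
      rw [← mul_assoc, ← mul_pow]
      simp only [mul_neg, mul_one, neg_neg, one_pow, one_mul]
      rfl
  exact DFunLike.congr_fun this μ

theorem count_base (hd : 3 ≤ d) (η : ℝ) (hη : 0 < η) : ∃ N : ℕ, ∀ (A : Type) [CommRing A]
    [IsDomain A], (2 : A) ≠ 0 → ∃ c : A, c ≠ 0 ∧ ∃ q₀ : ℕ, ∀ (F : Type) [Field F]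
      [Fintype F], q₀ ≤ Fintype.card F → ∀ ρ : A →+* F, ρ c ≠ 0 →
      (#{P ∈ mon F d | ¬ Sm N P} : ℝ) ≤ 21 * η * Fintype.card F ^ d := by
  obtain ⟨N, h⟩ := one_line hd η hη
  refine ⟨N, fun A _ _ h2 => ?_⟩
  obtain ⟨ν, hν, D, q₀, h⟩ := h A h2
  obtain ⟨μ, hμ, hνμ⟩ := exists_sym hν
  obtain ⟨m, hm⟩ := MvPolynomial.ne_zero_iff.1 hμ
  refine ⟨_, hm, max q₀ (max 2 ⌈2 * (D + μ.totalDegree : ℝ) / η⌉₊), fun F _ _ hq ρ hρ => ?_⟩
  simp only [max_le_iff, Nat.ceil_le] at hq
  obtain ⟨hq0, hq1, hq2⟩ := hq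
  have hq3 : (2 : ℝ) ≤ Fintype.card F := by exact_mod_cast hq1
  have hμ' : μ.map ρ ≠ 0 := MvPolynomial.ne_zero_iff.2 ⟨m, by rwa [MvPolynomial.coeff_map]⟩
  have hZ : (#{P ∈ mon F d | MvPolynomial.eval (esy d P) (μ.map ρ) = 0} : ℝ) * Fintype.card F ≤
      μ.totalDegree * Fintype.card F ^ d := by
    have h1 := MvPolynomial.schwartz_zippel_totalDegree hμ' univ
    rw [card_univ, div_le_div_iff₀ (by positivity) (by positivity)] at h1
    have h3 : #{P ∈ mon F d | MvPolynomial.eval (esy d P) (μ.map ρ) = 0} ≤ _ :=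
      card_le_card_of_injOn (t := {f ∈ Fintype.piFinset fun _ : Fin d => (univ : Finset F) |
        MvPolynomial.eval f (μ.map ρ) = 0}) (esy d) (fun P hP => by
          simpa using (mem_filter.1 hP).2) (esy_inj.mono fun P hP => (mem_filter.1 hP).1)
    have h4 : (μ.map ρ).totalDegree ≤ μ.totalDegree :=
      Finset.sup_mono (MvPolynomial.support_map_subset _ _)
    norm_cast at h1 ⊢
    exact (Nat.mul_le_mul_right _ h3).trans (h1.trans (Nat.mul_le_mul_right _ h4))
  have h1 : ∀ P ∈ mon F d, (#{ε ∈ univ.erase (0 : F) | ¬ Sm N (P.scaleRoots ε⁻¹)} : ℝ) ≤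
      10 * Fintype.card F * η + D +
        if MvPolynomial.eval (esy d P) (μ.map ρ) = 0 then (Fintype.card F : ℝ) else 0 := by
    intro P hP
    split_ifs with h0
    · have : (#{ε ∈ univ.erase (0 : F) | ¬ Sm N (P.scaleRoots ε⁻¹)} : ℝ) ≤ Fintype.card F := by
        exact_mod_cast card_le_univ _
      exact this.trans (le_add_of_nonneg_left (by positivity))
    · obtain ⟨l, hl⟩ := exists_lin ((mem_mon.1 hP).1.map (algebraMap F (AlgebraicClosure F)))
        ((natDegree_map _).trans (mem_mon.1 hP).2)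
      have := h F hq0 ρ P l hl fun h3 => h0 (by
        have := map_dvd (MvPolynomial.eval₂Hom ((algebraMap F _).comp ρ) l) hνμ
        rwa [h3, zero_dvd_iff, esy_eval ρ hl, map_eq_zero] at this)
      rw [add_zero, ← Set.ncard_coe_finset]
      convert this
      ext ε; simp
  have h3 : ∀ ε ∈ univ.erase (0 : F), #{P ∈ mon F d | ¬ Sm N P} ≤
      #{P ∈ mon F d | ¬ Sm N (P.scaleRoots ε⁻¹)} := fun ε hε => by
    have e : ∀ P : F[X], (P.scaleRoots ε).scaleRoots ε⁻¹ = P := fun P => by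
      rw [← scaleRoots_mul, mul_inv_cancel₀ (ne_of_mem_erase hε), scaleRoots_one]
    refine card_le_card_of_injOn (fun P => P.scaleRoots ε) (fun P hP => ?_)
      fun P _ Q _ h => by rw [← e P, ← e Q]; exact congrArg (scaleRoots · ε⁻¹) h
    simpa [mem_mon, monic_scaleRoots_iff, e] using hP
  have h4 := card_nsmul_le_sum _ _ _ h3
  simp only [card_filter _ (mon F d)] at h4
  rw [sum_comm] at h4
  simp only [← card_filter] at h4
  rw [card_erase_of_mem (mem_univ _), card_univ, smul_eq_mul] at h4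
  have h5 := (Nat.cast_le (α := ℝ)).2 h4
  rw [Nat.cast_mul, Nat.cast_sub (by omega), Nat.cast_sum] at h5
  have h6 := h5.trans (sum_le_sum h1)
  rw [sum_add_distrib, sum_const, card_mon, ← sum_filter, sum_const, nsmul_eq_mul, nsmul_eq_mul,
    Nat.cast_pow, Nat.cast_one] at h6
  rw [div_le_iff₀ hη] at hq2
  have h7 : (0 : ℝ) < Fintype.card F ^ d := by positivity
  have h8 := mul_le_mul_of_nonneg_left hq2 h7.le
  have h9 := mul_le_mul_of_nonneg_left hq3 (Nat.cast_nonneg (α := ℝ) #{P ∈ mon F d | ¬ Sm N P})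
  refine le_of_mul_le_mul_left ?_ (show (0 : ℝ) < Fintype.card F by positivity)
  nlinarith

theorem irr_lower {F : Type} [Field F] [Fintype F] (hd : 2 ≤ d) (hq : 2 * d ≤ Fintype.card F) :
    (Fintype.card F : ℝ) ^ d ≤ 2 * d * #(irr F d) := by
  have h1 := norm_cS_sub_le (1 : F[X] →* ℂ) (by simp) (d := d) (by omega)
  rw [cS_one (by omega)] at h1
  simp only [MonoidHom.one_apply, sum_const, nsmul_eq_mul, mul_one] at h1
  have h2 : |(Fintype.card F : ℝ) ^ d - d * #(irr F d)| ≤ d * (Fintype.card F : ℝ) ^ (d / 2) := by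
    rw [← Real.norm_eq_abs, ← Complex.norm_real]; push_cast; exact h1
  have h3 : (2 * d : ℝ) ≤ Fintype.card F := by exact_mod_cast hq
  have h4 : (1 : ℝ) ≤ Fintype.card F := by exact_mod_cast Fintype.card_pos
  have h5 := pow_le_pow_right₀ h4 (show d / 2 + 1 ≤ d by omega)
  have h6 := mul_le_mul_of_nonneg_left h3 (show (0 : ℝ) ≤ Fintype.card F ^ (d / 2) by positivity)
  rw [pow_succ] at h5
  linarith [(abs_le.1 h2).2]

theorem density (hd : 3 ≤ d) (η : ℝ) (hη : 0 < η) : ∃ N q₀ : ℕ, ∀ (F : Type) [Field F]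
    [Fintype F], Odd (Fintype.card F) → q₀ ≤ Fintype.card F →
      (#{P ∈ mon F d | ¬ Sm N P} : ℝ) ≤ η * #(irr F d) := by
  have hd0 : (0 : ℝ) < d := by exact_mod_cast (by omega : 0 < d)
  obtain ⟨N, h⟩ := count_base hd (η / (42 * d)) (by positivity)
  obtain ⟨c, hc, q₀, h0⟩ := h ℤ two_ne_zero
  have h1 : ∀ p : ℕ, ∃ q₁ : ℕ, p.Prime → p ≠ 2 → ∀ (F : Type) [Field F] [Fintype F] [CharP F p],
      q₁ ≤ Fintype.card F →
      (#{P ∈ mon F d | ¬ Sm N P} : ℝ) ≤ 21 * (η / (42 * d)) * Fintype.card F ^ d := fun p => by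
    by_cases hp : p.Prime ∧ p ≠ 2
    · haveI := Fact.mk hp.1
      obtain ⟨c, hc, q₁, h1⟩ := h (ZMod p) (Ring.two_ne_zero (by rw [ZMod.ringChar_zmod_n]; exact hp.2))
      exact ⟨q₁, fun _ _ F _ _ _ hq => h1 F hq (ZMod.castHom (dvd_refl p) F)
        ((_root_.map_ne_zero _).2 hc)⟩
    · exact ⟨0, fun a b => absurd ⟨a, b⟩ hp⟩
  choose Q hQ using h1
  refine ⟨N, max (max q₀ (2 * d)) ((range (c.natAbs + 1)).sup Q), fun F _ _ ho hq => ?_⟩
  simp only [max_le_iff] at hq
  have h2 : (#{P ∈ mon F d | ¬ Sm N P} : ℝ) ≤ 21 * (η / (42 * d)) * Fintype.card F ^ d := by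
    by_cases hcF : (c : F) = 0
    · obtain ⟨p, _, f, hp, hf⟩ := FiniteField.card' F
      have h3 : p ≤ c.natAbs := Nat.le_of_dvd (Int.natAbs_pos.2 hc)
        (Int.natCast_dvd.1 ((CharP.intCast_eq_zero_iff F p c).1 hcF))
      refine hQ p hp ?_ F ((le_sup (f := Q) (mem_range.2 (by omega))).trans hq.2)
      rintro rfl
      rw [hf, Nat.odd_pow_iff f.ne_zero] at ho
      exact absurd ho (by decide)
    · exact h0 F hq.1.1 (Int.castRingHom F) hcF
  refine h2.trans ((mul_le_mul_of_nonneg_left (irr_lower (by omega) hq.1.2)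
    (by positivity)).trans_eq ?_)
  field_simp
  ring

end Pool.Agent.MP_9b2bac_nt.Z
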