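import Mathlib
import Pool.Agent.MP_9b2bac_nt.YOne
import Pool.Agent.MP_9b2bac_nt.YGrp
import Pool.Agent.MP_9b2bac_nt.ZFinal

/- The sharp sieve law for cubic exponents. -/

set_option autoImplicit false

namespace Pool.Agent.MP_9b2bac_nt.Z

open Finset Polynomial Pnt Classical

variable {d : ℕ}

theorem all_odd (Φ : ∀ (F : Type) [Field F] [Fintype F], Prop)
    (h : ∀ (A : Type) [CommRing A] [IsDomain A], (2 : A) ≠ 0 → ∃ c : A, c ≠ 0 ∧ ∃ q₀ : ℕ,
      ∀ (F : Type) [Field F] [Fintype F], q₀ ≤ Fintype.card F → ∀ ρ : A →+* F, ρ c ≠ 0 → Φ F) :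
    ∃ q₀ : ℕ, ∀ (F : Type) [Field F] [Fintype F], Odd (Fintype.card F) → q₀ ≤ Fintype.card F →
      Φ F := by
  obtain ⟨c, hc, q₀, h0⟩ := h ℤ two_ne_zero
  have h1 : ∀ p : ℕ, ∃ q₁ : ℕ, p.Prime → p ≠ 2 → ∀ (F : Type) [Field F] [Fintype F] [CharP F p],
      q₁ ≤ Fintype.card F → Φ F := fun p => by
    by_cases hp : p.Prime ∧ p ≠ 2
    · haveI := Fact.mk hp.1
      obtain ⟨c, hc, q₁, h1⟩ := h (ZMod p) (Ring.two_ne_zero (by rw [ZMod.ringChar_zmod_n]; exact hp.2))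
      exact ⟨q₁, fun _ _ F _ _ _ hq => h1 F hq (ZMod.castHom (dvd_refl p) F)
        ((_root_.map_ne_zero _).2 hc)⟩
    · exact ⟨0, fun a b => absurd ⟨a, b⟩ hp⟩
  choose Q hQ using h1
  refine ⟨max q₀ ((range (c.natAbs + 1)).sup Q), fun F _ _ ho hq => ?_⟩
  simp only [max_le_iff] at hq
  by_cases hcF : (c : F) = 0
  · obtain ⟨p, _, f, hp, hf⟩ := FiniteField.card' F
    have h3 : p ≤ c.natAbs := Nat.le_of_dvd (Int.natAbs_pos.2 hc)
      (Int.natCast_dvd.1 ((CharP.intCast_eq_zero_iff F p c).1 hcF))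
    refine hQ p hp ?_ F ((le_sup (f := Q) (mem_range.2 (by omega))).trans hq.2)
    rintro rfl
    rw [hf, Nat.odd_pow_iff f.ne_zero] at ho
    exact absurd ho (by decide)
  · exact h0 F hq.1 (Int.castRingHom F) hcF

theorem zero_count {F : Type} [Field F] [Fintype F] {μ : MvPolynomial (Fin d) F} (hμ : μ ≠ 0) :
    #{P ∈ mon F d | MvPolynomial.eval (esy d P) μ = 0} * Fintype.card F ≤
      μ.totalDegree * Fintype.card F ^ d := by
  have h1 := MvPolynomial.schwartz_zippel_totalDegree hμ univ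
  rw [card_univ, div_le_div_iff₀ (by positivity) (by positivity)] at h1
  have h3 : #{P ∈ mon F d | MvPolynomial.eval (esy d P) μ = 0} ≤ _ :=
    card_le_card_of_injOn (t := {f ∈ Fintype.piFinset fun _ : Fin d => (univ : Finset F) |
      MvPolynomial.eval f μ = 0}) (esy d) (fun P hP => by
        simpa using (mem_filter.1 hP).2) (esy_inj.mono fun P hP => (mem_filter.1 hP).1)
  norm_cast at h1
  exact (Nat.mul_le_mul_right _ h3).trans h1

theorem count_irr {F : Type} [Field F] [Fintype F] (hd : 2 ≤ d) {μ : MvPolynomial (Fin d) F}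
    (hμ : μ ≠ 0) (R : F[X] → Prop) {β δ : ℝ} {D E : ℕ} (hβ : 0 ≤ β) (hβ' : β ≤ 1) (hδ : 0 < δ)
    (hE : μ.totalDegree ≤ E) (hq : 2 * d ≤ Fintype.card F)
    (hq' : 2 * (D + 2 * d * E + 1 + δ) / δ ≤ Fintype.card F)
    (h : ∀ P ∈ irr F d, MvPolynomial.eval (esy d P) μ ≠ 0 →
      ({ε : F | ε ≠ 0 ∧ R (P.scaleRoots ε⁻¹)}.ncard : ℝ) ≤ (1 + δ / 2) * Fintype.card F * β + D) :
    (#{P ∈ irr F d | R P} : ℝ) ≤ (β + δ) * #(irr F d) := by
  have h1 : ∀ P ∈ irr F d, (#{ε ∈ univ.erase (0 : F) | R (P.scaleRoots ε⁻¹)} : ℝ) ≤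
      (1 + δ / 2) * Fintype.card F * β + D +
        if MvPolynomial.eval (esy d P) μ = 0 then (Fintype.card F : ℝ) else 0 := by
    intro P hP
    split_ifs with h0
    · have : (#{ε ∈ univ.erase (0 : F) | R (P.scaleRoots ε⁻¹)} : ℝ) ≤ Fintype.card F := by
        exact_mod_cast card_le_univ _
      exact this.trans (le_add_of_nonneg_left (by positivity))
    · rw [add_zero, ← Set.ncard_coe_finset]
      convert h P hP h0
      ext ε; simp
  have h3 : ∀ ε ∈ univ.erase (0 : F), #{P ∈ irr F d | R P} ≤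
      #{P ∈ irr F d | R (P.scaleRoots ε⁻¹)} := fun ε hε => by
    have e : ∀ P : F[X], (P.scaleRoots ε).scaleRoots ε⁻¹ = P := fun P => by
      rw [← scaleRoots_mul, mul_inv_cancel₀ (ne_of_mem_erase hε), scaleRoots_one]
    refine card_le_card_of_injOn (fun P => P.scaleRoots ε) (fun P hP => ?_)
      fun P _ Q _ h => by rw [← e P, ← e Q]; exact congrArg (scaleRoots · ε⁻¹) h
    simp only [coe_filter, mem_irr, Set.mem_setOf_eq, monic_scaleRoots_iff, natDegree_scaleRoots,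
      e] at hP ⊢
    exact ⟨⟨hP.1.1, irr_scale hP.1.2.1 (ne_of_mem_erase hε), hP.1.2.2⟩, hP.2⟩
  have h4 := card_nsmul_le_sum _ _ _ h3
  simp only [card_filter _ (irr F d)] at h4
  rw [sum_comm] at h4
  simp only [← card_filter] at h4
  rw [card_erase_of_mem (mem_univ _), card_univ, smul_eq_mul] at h4
  have h5 := (Nat.cast_le (α := ℝ)).2 h4
  rw [Nat.cast_mul, Nat.cast_sub (by omega), Nat.cast_sum] at h5
  have h6 := h5.trans (sum_le_sum h1)
  rw [sum_add_distrib, sum_const, ← sum_filter, sum_const, nsmul_eq_mul, nsmul_eq_mul,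
    Nat.cast_one] at h6
  have h7 : (#{P ∈ irr F d | MvPolynomial.eval (esy d P) μ = 0} : ℝ) * Fintype.card F ≤
      E * Fintype.card F ^ d := by
    exact_mod_cast (Nat.mul_le_mul_right _ (card_le_card (filter_subset_filter _
      (filter_subset _ _)))).trans ((zero_count hμ).trans (Nat.mul_le_mul_right _ hE))
  have h8 := mul_le_mul_of_nonneg_left (irr_lower hd hq) (Nat.cast_nonneg (α := ℝ) E)
  rw [div_le_iff₀ hδ] at hq'
  have h9 : (1 : ℝ) < Fintype.card F := by exact_mod_cast Fintype.one_lt_card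
  have h10 : (1 + δ / 2) * Fintype.card F * β + D + 2 * d * E ≤ (Fintype.card F - 1) * (β + δ) := by
    nlinarith [mul_le_mul_of_nonneg_left hβ' (show 0 ≤ δ * Fintype.card F by positivity)]
  have h11 := mul_le_mul_of_nonneg_right h10 (Nat.cast_nonneg (α := ℝ) #(irr F d))
  refine le_of_mul_le_mul_left ?_ (sub_pos.2 h9)
  linarith

theorem law3 {M N : ℕ} (hM : 8 ≤ M) (hMN : M ≤ N) (δ : ℝ) (hδ : 0 < δ) : ∃ q₀ : ℕ,
    ∀ (F : Type) [Field F] [Fintype F], Odd (Fintype.card F) → q₀ ≤ Fintype.card F →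
      ((M - 1 : ℝ) / N - δ) * #(irr F 3) ≤ #{P ∈ irr F 3 | NoF M N P} ∧
      (#{P ∈ irr F 3 | NoF M N P} : ℝ) ≤ (M / (N + 1) + δ) * #(irr F 3) := by
  refine all_odd _ fun A _ _ h2 => ?_
  have hI : ∀ n, M ≤ n → n ≤ N → n ∈ Icc M N := fun n a b => mem_Icc.2 ⟨a, b⟩
  obtain ⟨ν, hν, D, q₀, h⟩ := two_sided (A := A) hI (half_pos hδ) fun π =>
    grp3 hM hMN _ hI (GG A 3 (Icc M N)) act_sh (fun u v j huv hj => marker le_rfl h2 huv hj)
      (relW _ π) (relW_sh π)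
  obtain ⟨μ, hμ, hνμ⟩ := exists_sym hν
  obtain ⟨m, hm⟩ := MvPolynomial.ne_zero_iff.1 hμ
  refine ⟨_, hm, max q₀ (max (2 * 3) ⌈2 * (D + 2 * (3 : ℕ) * μ.totalDegree + 1 + δ) / δ⌉₊),
    fun F _ _ hq ρ hρ => ?_⟩
  simp only [max_le_iff, Nat.ceil_le] at hq
  have hμ' : μ.map ρ ≠ 0 := MvPolynomial.ne_zero_iff.2 ⟨m, by rwa [MvPolynomial.coeff_map]⟩
  have h4 : (μ.map ρ).totalDegree ≤ μ.totalDegree :=
    Finset.sup_mono (MvPolynomial.support_map_subset _ _)
  have h1 := fun P (hP : P ∈ irr F 3) (h0 : MvPolynomial.eval (esy 3 P) (μ.map ρ) ≠ 0) =>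
    let ⟨l, hl⟩ := exists_lin ((mem_irr.1 hP).1.map (algebraMap F (AlgebraicClosure F)))
      ((natDegree_map _).trans (mem_irr.1 hP).2.2)
    h F hq.1 ρ P (mem_irr.1 hP).2.1 l hl fun h3 => h0 (by
      have := map_dvd (MvPolynomial.eval₂Hom ((algebraMap F _).comp ρ) l) hνμ
      rwa [h3, zero_dvd_iff, esy_eval ρ hl, map_eq_zero] at this)
  have a1 : (8 : ℝ) ≤ M := by exact_mod_cast hM
  have a2 : (M : ℝ) ≤ N := by exact_mod_cast hMN
  refine ⟨?_, count_irr (by omega) hμ' _ (by positivity) ((div_le_one (by linarith)).2 (by linarith))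
    hδ h4 hq.2.1 hq.2.2 fun P hP h0 => (h1 P hP h0).1⟩
  have h2 := count_irr (by omega) hμ' (fun P => ¬ NoF M N P)
    (sub_nonneg.2 ((div_le_one (by linarith)).2 (by linarith)))
    (sub_le_self _ (div_nonneg (by linarith) (by linarith))) hδ h4 hq.2.1 hq.2.2
    fun P hP h0 => (h1 P hP h0).2
  have h3 := congrArg (Nat.cast : ℕ → ℝ) (card_filter_add_card_filter_not (s := irr F 3) (NoF M N))
  rw [Nat.cast_add] at h3
  have h5 : (#{P ∈ irr F 3 | ¬ NoF M N P} : ℝ) ≤ (1 - (M - 1) / N + δ) * #(irr F 3) := by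
    convert h2
  linarith

end Pool.Agent.MP_9b2bac_nt.Z
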