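import Mathlib
import Pool.Agent.MP_9b2bac_nt.YPair

set_option autoImplicit false

namespace Pool.Agent.MP_9b2bac_nt.Z

namespace YPois

open Finset Classical YPair

variable {X K : Type} [Group K] [MulAction K X] {σ : Equiv.Perm X}

/-- the entries lie in pairwise different cycles -/
def Sep (σ : Equiv.Perm X) {j : ℕ} (a : Fin j → X) : Prop :=
  ∀ i i', σ.SameCycle (a i) (a i') → i = i'

lemma spare {j r : ℕ} (hj : j < r) {c : Fin r → X} (hc : Sep σ c) (b : Fin j → X) :
    ∃ z, ∀ i, ¬ σ.SameCycle (b i) z := by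
  by_contra h
  push Not at h
  choose f hf using fun l => h (c l)
  have : Function.Injective f := fun l l' e =>
    hc l l' ((hf l).symm.trans (e ▸ hf l'))
  have := Fintype.card_le_of_injective f this
  simp only [Fintype.card_fin] at this
  omega

lemma trj (hc : ∀ (k : K) (x : X), k • σ x = σ (k • x))
    (hE : ∀ x y, ¬ σ.SameCycle x y → E K σ x y) {j r : ℕ} (hj : j < r) {c : Fin r → X}
    (hcs : Sep σ c) {a b : Fin j → X} (ha : Sep σ a) (hb : Sep σ b) : ∃ k : K, k • a = b := by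
  have mv : ∀ (s : Finset (Fin j)) (u v : X), ¬ σ.SameCycle u v →
      (∀ i ∈ s, ¬ σ.SameCycle u (b i)) → (∀ i ∈ s, ¬ σ.SameCycle v (b i)) →
      ∃ h : K, h • u = v ∧ ∀ i ∈ s, h • b i = b i := by
    intro s u v h1 h2 h3
    obtain ⟨-, h, k1, -, k2⟩ := hE u v h1
    exact ⟨h, k1, fun i hi => k2 _ (h2 i hi) (h3 i hi)⟩
  have key : ∀ s : Finset (Fin j), ∃ k : K, ∀ i ∈ s, k • a i = b i := by
    intro s
    induction s using Finset.induction_on with
    | empty => exact ⟨1, by simp⟩
    | insert i₀ s hi ih =>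
      obtain ⟨g, hg⟩ := ih
      have hu : ∀ i ∈ s, ¬ σ.SameCycle (g • a i₀) (b i) := fun i h e => by
        rw [← hg i h, sk hc] at e
        exact hi (ha _ _ e ▸ h)
      have hv : ∀ i ∈ s, ¬ σ.SameCycle (b i₀) (b i) := fun i h e => hi (hb _ _ e ▸ h)
      obtain ⟨h, h1, h2⟩ : ∃ h : K, h • g • a i₀ = b i₀ ∧ ∀ i ∈ s, h • b i = b i := by
        by_cases e : σ.SameCycle (g • a i₀) (b i₀)
        · obtain ⟨z, hz⟩ := spare hj hcs b
          obtain ⟨h, h1, h2⟩ := mv s _ z (fun e' => hz i₀ (e.symm.trans e')) hu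
            fun i _ e' => hz i e'.symm
          obtain ⟨h', h3, h4⟩ := mv s z (b i₀) (fun e' => hz i₀ e'.symm)
            (fun i _ e' => hz i e'.symm) hv
          exact ⟨h' * h, by rw [mul_smul, h1, h3], fun i hi => by rw [mul_smul, h2 i hi, h4 i hi]⟩
        · exact mv s _ _ e hu hv
      refine ⟨h * g, fun i hi' => ?_⟩
      rcases mem_insert.1 hi' with rfl | hi'
      · rw [mul_smul, h1]
      · rw [mul_smul, hg i hi', h2 i hi']
  obtain ⟨k, hk⟩ := key univ
  exact ⟨k, funext fun i => hk i (mem_univ _)⟩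

variable [Fintype X] {n : ℕ}

lemma clo_rem {A : Finset X} (hA : ∀ x ∈ A, ∀ y, σ.SameCycle x y → y ∈ A) (x : X) :
    ∀ z ∈ A.filter fun y => ¬ σ.SameCycle x y, ∀ y, σ.SameCycle z y →
      y ∈ A.filter fun y => ¬ σ.SameCycle x y := fun z hz y h =>
  mem_filter.2 ⟨hA z (mem_filter.1 hz).1 y h, fun e => (mem_filter.1 hz).2 (e.trans h.symm)⟩

lemma card_rem (hn : 0 < n) (hσ : ∀ (x : X) (k : ℤ), (σ ^ k) x = x ↔ (n : ℤ) ∣ k) {A : Finset X}
    (hA : ∀ x ∈ A, ∀ y, σ.SameCycle x y → y ∈ A) {x : X} (hx : x ∈ A) :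
    (A.filter fun y => ¬ σ.SameCycle x y).card + n = A.card := by
  rw [← card_filter_add_card_filter_not (s := A) (fun y => σ.SameCycle x y), add_comm,
    ← cyc hn hσ x]
  congr 2
  ext y
  simp only [mem_filter, mem_univ, true_and, iff_and_self]
  exact hA x hx y

lemma card_dvd (hn : 0 < n) (hσ : ∀ (x : X) (k : ℤ), (σ ^ k) x = x ↔ (n : ℤ) ∣ k) (N : ℕ) :
    ∀ A : Finset X, A.card = N → (∀ x ∈ A, ∀ y, σ.SameCycle x y → y ∈ A) → ∃ m, N = n * m := by
  induction N using Nat.strong_induction_on with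
  | _ N ih =>
  intro A hN hA
  rcases A.eq_empty_or_nonempty with rfl | ⟨x, hx⟩
  · exact ⟨0, by simp [← hN]⟩
  · have h := card_rem hn hσ hA hx
    obtain ⟨m, hm⟩ := ih _ ((Nat.lt_add_of_pos_right hn).trans_eq (h.trans hN)) _ rfl (clo_rem hA x)
    exact ⟨m + 1, by rw [← hN, ← h, hm, mul_add, mul_one]⟩

lemma card_tup (hn : 0 < n) (hσ : ∀ (x : X) (k : ℤ), (σ ^ k) x = x ↔ (n : ℤ) ∣ k) (j : ℕ) :
    ∀ (m : ℕ) (A : Finset X), A.card = n * m → (∀ x ∈ A, ∀ y, σ.SameCycle x y → y ∈ A) →
      (univ.filter fun a : Fin j → X => Sep σ a ∧ ∀ i, a i ∈ A).card =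
        n ^ j * m.descFactorial j := by
  induction j with
  | zero =>
    intro m A _ _
    rw [filter_true_of_mem fun a _ => ⟨fun i => i.elim0, fun i => i.elim0⟩]
    simp
  | succ j ih =>
    intro m A hm hA
    rw [card_eq_sum_card_fiberwise (t := A) (f := fun a : Fin (j + 1) → X => a 0)
      fun a ha => (mem_filter.1 ha).2.2 0]
    rcases m with _ | m
    · rw [mul_zero, card_eq_zero] at hm
      simp [hm]
    have key : ∀ x ∈ A, ((univ.filter fun a : Fin (j + 1) → X => Sep σ a ∧ ∀ i, a i ∈ A).filter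
        fun a => a 0 = x).card = n ^ j * m.descFactorial j := by
      intro x hx
      have h := card_rem hn hσ hA hx
      rw [hm, mul_add, mul_one] at h
      rw [← ih m _ (Nat.add_right_cancel h) (clo_rem hA x)]
      refine card_bij (fun a _ => Fin.tail a) (fun a ha => ?_) (fun a ha b hb e => ?_)
        fun b hb => ⟨Fin.cons x b, ?_, by simp⟩
      · simp only [mem_filter, mem_univ, true_and] at ha ⊢
        obtain ⟨⟨h1, h2⟩, rfl⟩ := ha
        exact ⟨fun i i' e => Fin.succ_injective _ (h1 _ _ e),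
          fun i => ⟨h2 _, fun e => (Fin.succ_ne_zero i).symm (h1 _ _ e)⟩⟩
      · rw [← Fin.cons_self_tail a, ← Fin.cons_self_tail b, (mem_filter.1 ha).2,
          (mem_filter.1 hb).2, e]
      · simp only [mem_filter, mem_univ, true_and] at hb ⊢
        refine ⟨⟨fun i i' => ?_, fun i => ?_⟩, by simp⟩
        · refine Fin.cases ?_ (fun i => ?_) i <;> refine Fin.cases ?_ (fun i' => ?_) i'
          · exact fun _ => rfl
          · exact fun e => ((hb.2 i').2 e).elim
          · exact fun e => ((hb.2 i).2 e.symm).elim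
          · exact fun e => congrArg Fin.succ (hb.1 _ _ e)
        · refine Fin.cases hx (fun i => (hb.2 i).1) i
    rw [sum_congr rfl key, sum_const, hm, smul_eq_mul, Nat.succ_descFactorial_succ]
    ring

lemma bonf (m k J : ℕ) (hJ : 1 ≤ J) :
    |(if m = k then (1 : ℝ) else 0) -
        ∑ i ∈ range J, (-1 : ℝ) ^ i * ((k + i).choose k * m.choose (k + i) : ℕ)| ≤
      ((k + J).choose k * m.choose (k + J) : ℕ) := by
  have e : ∀ i, (k + i).choose k * m.choose (k + i) = m.choose k * (m - k).choose i := fun i => by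
    rw [mul_comm, Nat.choose_mul (Nat.le_add_right k i), Nat.add_sub_cancel_left]
  simp only [e]
  obtain ⟨J, rfl⟩ : ∃ J', J = J' + 1 := ⟨J - 1, by omega⟩
  rcases lt_trichotomy m k with h | rfl | h
  · simp [Nat.choose_eq_zero_of_lt h, h.ne]
  · simp [sum_range_succ']
  · obtain ⟨a, ha⟩ : ∃ a, m - k = a + 1 := ⟨m - k - 1, by omega⟩
    have h1 : (∑ i ∈ range (J + 1), ((-1) ^ i * (a + 1).choose i : ℝ)) = (-1) ^ J * a.choose J := by
      exact_mod_cast Int.alternating_sum_range_choose_eq_choose (n := a) (m := J)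
    have h2 : ∑ i ∈ range (J + 1), (-1 : ℝ) ^ i * (m.choose k * (a + 1).choose i : ℕ) =
        m.choose k * ((-1) ^ J * a.choose J) := by
      rw [← h1, mul_sum]
      refine sum_congr rfl fun i _ => ?_
      push_cast
      ring
    rw [ha, h2, if_neg h.ne', zero_sub, abs_neg, abs_mul, abs_mul, abs_pow, abs_neg, abs_one,
      one_pow, one_mul, Nat.abs_cast, Nat.abs_cast, Nat.choose_succ_succ']
    push_cast
    gcongr
    exact le_add_of_nonneg_right (Nat.cast_nonneg _)

end YPois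

open YPair YPois Finset in
theorem pois (n : ℕ) (hn : 0 < n) (X : Type) [Finite X] (K : Type) [Group K] [Finite K]
    [MulAction K X] (σ : Equiv.Perm X) (T : Set K)
    (hσ : ∀ (x : X) (k : ℤ), (σ ^ k) x = x ↔ (n : ℤ) ∣ k)
    (hc : ∀ (k : K) (x : X), k • σ x = σ (k • x))
    (htr : ∀ x y : X, ∃ k ∈ Subgroup.closure T, k • x = y)
    (hsw : ∀ t ∈ T, ∃ x y : X, ¬ σ.SameCycle x y ∧ t • x = y ∧ t • y = x ∧
      ∀ w, ¬ σ.SameCycle x w → ¬ σ.SameCycle y w → t • w = w)
    (k J : ℕ) (hJ : 2 ≤ J)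
    (hr : ∃ c : Fin (k + J + 1) → X, ∀ i j, σ.SameCycle (c i) (c j) → i = j)
    (F : Equiv.Perm X) (hF : ∀ x, F (σ x) = σ (F x)) :
    |({g : K | {x | g • F x = σ x}.ncard = n * k}.ncard : ℝ) -
        Real.exp (-1 / n) / (n ^ k * k.factorial) * Nat.card K| ≤
      3 / (n ^ (k + J) * k.factorial * J.factorial) * Nat.card K := by
  classical
  let _ := Fintype.ofFinite X
  let _ := Fintype.ofFinite K
  obtain ⟨c, hcs⟩ := hr
  have h3 : ∃ x y z : X, ¬ σ.SameCycle x y ∧ ¬ σ.SameCycle x z ∧ ¬ σ.SameCycle y z :=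
    ⟨c ⟨0, by omega⟩, c ⟨1, by omega⟩, c ⟨2, by omega⟩, fun e => by simpa using hcs _ _ e,
      fun e => by simpa using hcs _ _ e, fun e => by simpa using hcs _ _ e⟩
  have hE : ∀ x y, ¬ σ.SameCycle x y → E K σ x y := fun x y => all_E hc (fun x y => by
    obtain ⟨k, hk, rfl⟩ := htr x y
    exact conn hc hsw hk x) h3
  let A : K → Finset X := fun g => univ.filter fun z => g • F z = σ z
  have hA : ∀ g, ∀ x ∈ A g, ∀ y, σ.SameCycle x y → y ∈ A g := by
    rintro g w hw _ ⟨j, rfl⟩
    simp only [A, mem_filter, mem_univ, true_and] at hw ⊢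
    rw [zp hF, zk hc, hw, zp (P := σ) fun _ => rfl]
  choose m hm using fun g => card_dvd hn hσ _ (A g) rfl (hA g)
  have hn' : (0 : ℝ) < n := by exact_mod_cast hn
  have mom : ∀ j, j ≤ k + J → ∑ g, ((m g).choose j : ℝ) =
      Fintype.card K / (n ^ j * j.factorial) := by
    intro j hj
    let Y : Finset (Fin j → X) := univ.filter fun a => Sep σ a
    have hY : ∀ a, a ∈ Y ↔ Sep σ a := fun a => by simp [Y]
    have h1 : ∑ g : K, (Y.filter fun a => g • (F ∘ a) = σ ∘ a).card = Fintype.card K := by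
      convert cnt (K := K) Y ⟨fun i => c (i.castLE (hj.trans (Nat.le_succ _))), (hY _).2 fun i i' e =>
          Fin.castLE_injective (hj.trans (Nat.le_succ _)) (hcs _ _ e)⟩
        (fun g a ha => (hY _).2 fun i i' e => (hY _).1 ha i i' ((sk hc g).1 e))
        (fun a ha b hb => trj hc hE (Nat.lt_succ_of_le hj) hcs ((hY _).1 ha) ((hY _).1 hb))
        (f := fun a => F ∘ a) (g := fun a => σ ∘ a)
        (fun a ha => (hY _).2 fun i i' e => (hY _).1 ha i i' ((sc hF).1 e))
        fun a ha => (hY _).2 fun i i' e => (hY _).1 ha i i' ((sc fun _ => rfl).1 e)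
    have h2 : ∀ g : K, (Y.filter fun a => g • (F ∘ a) = σ ∘ a).card =
        n ^ j * j.factorial * (m g).choose j := by
      intro g
      rw [mul_assoc, ← Nat.descFactorial_eq_factorial_mul_choose,
        ← card_tup hn hσ j (m g) (A g) (hm g) (hA g)]
      congr 1
      ext a
      simp [Y, A, funext_iff]
    rw [eq_div_iff (by positivity), ← h1, sum_congr rfl fun g _ => h2 g, ← mul_sum]
    push_cast
    ring
  have mom' : ∀ i, i ≤ J → ∑ g, (((k + i).choose k * (m g).choose (k + i) : ℕ) : ℝ) =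
      Fintype.card K / (n ^ (k + i) * k.factorial * i.factorial) := by
    intro i hi
    push_cast
    have h1 : ((k + i).factorial : ℝ) = (k + i).choose k * i.factorial * k.factorial := by
      rw [add_comm k i]
      exact_mod_cast (Nat.add_choose_mul_factorial_mul_factorial i k).symm
    have h2 : (0 : ℝ) < (k + i).choose k := by
      exact_mod_cast Nat.choose_pos (Nat.le_add_right k i)
    rw [← mul_sum, mom _ (by omega), h1]
    field_simp
  have hN : ({g : K | {x | g • F x = σ x}.ncard = n * k}.ncard : ℝ) =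
      ∑ g, if m g = k then (1 : ℝ) else 0 := by
    rw [sum_boole, ← Set.ncard_coe_finset]
    congr 2
    ext g
    have : {x | g • F x = σ x} = (A g : Set X) := by
      ext x
      simp [A]
    simp [this, hm g, hn.ne']
  have hb : |(∑ g, if m g = k then (1 : ℝ) else 0) -
      (∑ i ∈ range J, (-1 / n : ℝ) ^ i / i.factorial) / (n ^ k * k.factorial) * Fintype.card K| ≤
      Fintype.card K / (n ^ (k + J) * k.factorial * J.factorial) := by
    have e : (∑ i ∈ range J, (-1 / n : ℝ) ^ i / i.factorial) / (n ^ k * k.factorial) *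
        Fintype.card K = ∑ g, ∑ i ∈ range J,
          (-1 : ℝ) ^ i * ((k + i).choose k * (m g).choose (k + i) : ℕ) := by
      rw [sum_comm, sum_div, sum_mul]
      refine sum_congr rfl fun i hi => ?_
      rw [← mul_sum, mom' i (mem_range.1 hi).le, div_pow, pow_add]
      field_simp
    rw [e, ← sum_sub_distrib, ← mom' J le_rfl]
    exact (abs_sum_le_sum_abs _ _).trans (sum_le_sum fun g _ => bonf _ _ _ (by omega))
  have he : |Real.exp (-1 / n) - ∑ i ∈ range J, (-1 / n : ℝ) ^ i / i.factorial| ≤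
      2 / (n ^ J * J.factorial) := by
    have h1 : |(-1 / n : ℝ)| = 1 / n := by
      rw [abs_div, abs_neg, abs_one, abs_of_pos hn']
    have h2 : (1 : ℝ) ≤ n := by exact_mod_cast hn
    have h4 : (1 : ℝ) ≤ J := by exact_mod_cast (by omega : 1 ≤ J)
    refine (Real.exp_bound (by rw [h1, div_le_one hn']; exact h2) (by omega : 0 < J)).trans ?_
    rw [h1, div_pow, one_pow, div_mul_div_comm, one_mul, ← mul_assoc,
      div_le_div_iff₀ (by positivity) (by positivity)]
    push_cast
    have : (0 : ℝ) < n ^ J * J.factorial := by positivity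
    nlinarith
  rw [hN, Nat.card_eq_fintype_card]
  set S := ∑ i ∈ range J, (-1 / n : ℝ) ^ i / i.factorial
  set N := ∑ g, if m g = k then (1 : ℝ) else 0
  have h5 : |S / (n ^ k * k.factorial) * Fintype.card K -
      Real.exp (-1 / n) / (n ^ k * k.factorial) * Fintype.card K| ≤
      2 * (Fintype.card K / (n ^ (k + J) * k.factorial * J.factorial)) := by
    rw [← sub_mul, ← sub_div, abs_mul, abs_div, abs_sub_comm, Nat.abs_cast,
      abs_of_pos (by positivity : (0 : ℝ) < n ^ k * k.factorial)]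
    calc _ ≤ 2 / (n ^ J * J.factorial) / (n ^ k * k.factorial) * (Fintype.card K : ℝ) := by gcongr
      _ = _ := by
        rw [pow_add]
        field_simp
  refine (abs_sub_le _ _ _).trans ((add_le_add hb h5).trans_eq ?_)
  ring

end Pool.Agent.MP_9b2bac_nt.Z
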