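import Mathlib
import Pool.Agent.MP_9b2bac_nt.YGrp
import Pool.Agent.MP_9b2bac_nt.YPois

set_option autoImplicit false

namespace Pool.Agent.MP_9b2bac_nt.Z

open Classical

namespace YGrpPX

open ZSweep YGrpX

theorem abs_stepP (n : ℕ) (hn : 0 < n) {G X : Type} [Group G] [Finite G] [Finite X] [MulAction G X]
    (σ : Equiv.Perm X) (hσ : ∀ (x : X) (k : ℤ), (σ ^ k) x = x ↔ (n : ℤ) ∣ k)
    (hc : ∀ (g : G) (x : X), g • σ x = σ (g • x)) (K : Subgroup G) (hK : K.Normal) (t : G)
    (ht : t ∈ K) (htr : ∀ x y : X, ∃ k ∈ Subgroup.normalClosure ({t} : Set G), k • x = y)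
    (hsw : ∃ x y : X, ¬ σ.SameCycle x y ∧ t • x = y ∧ t • y = x ∧
      ∀ w, ¬ σ.SameCycle x w → ¬ σ.SameCycle y w → t • w = w)
    (k J : ℕ) (hJ : 2 ≤ J)
    (hr : ∃ c : Fin (k + J + 1) → X, ∀ i j, σ.SameCycle (c i) (c j) → i = j)
    (F : Equiv.Perm X) (hF : ∀ x, F (σ x) = σ (F x)) :
    |({g : K | {x | g • F x = σ x}.ncard = n * k}.ncard : ℝ) -
        Real.exp (-1 / n) / (n ^ k * k.factorial) * Nat.card K| ≤
      3 / (n ^ (k + J) * k.factorial * J.factorial) * Nat.card K := by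
  let T : Set K := {k | ∃ g : G, (k : G) = g * t * g⁻¹}
  have hNT : Subgroup.normalClosure ({t} : Set G) ≤ (Subgroup.closure T).map K.subtype := by
    refine (Subgroup.closure_le _).2 fun a ha => ?_
    obtain ⟨b, hb, hab⟩ := Group.mem_conjugatesOfSet_iff.1 ha
    obtain rfl : b = t := hb
    obtain ⟨g, rfl⟩ := isConj_iff.1 hab
    exact ⟨⟨_, hK.conj_mem _ ht g⟩, Subgroup.subset_closure ⟨g, rfl⟩, rfl⟩
  refine pois n hn X K σ T hσ (fun k x => hc k x) ?_ ?_ k J hJ hr F hF
  · intro x y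
    obtain ⟨k, hk, rfl⟩ := htr x y
    obtain ⟨k', hk', rfl⟩ := hNT hk
    exact ⟨k', hk', rfl⟩
  · rintro s ⟨g, hg⟩
    obtain ⟨x, y, h1, h2, h3, h4⟩ := hsw
    have e : ∀ w : X, s • w = g • t • g⁻¹ • w := fun w => by
      rw [Subgroup.smul_def, hg, mul_smul, mul_smul]
    refine ⟨g • x, g • y, fun h => h1 ?_, ?_, ?_, fun w a b => ?_⟩
    · simpa using sc_smul hc g⁻¹ h
    · rw [e, inv_smul_smul, h2]
    · rw [e, inv_smul_smul, h3]
    · rw [e, h4 (g⁻¹ • w) (fun h => a (by simpa using sc_smul hc g h))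
        (fun h => b (by simpa using sc_smul hc g h)), smul_inv_smul]

/-- The word with a single `2` whose other letters are the binary digits of `l + 1`. -/
def yy (n l : ℕ) : Seq 3 := fun i =>
  if i % n = n - 1 then 2 else if (l + 1).testBit (i % n).toNat then 1 else 0

theorem lt_pow {n l : ℕ} (hn : 8 ≤ n) (hl : l ≤ 2 * n) : l + 1 < 2 ^ (n - 2) := by
  obtain ⟨m, rfl⟩ : ∃ m, n = m + 8 := ⟨n - 8, by omega⟩
  have := Nat.lt_two_pow_self (n := m)
  rw [show m + 8 - 2 = m + 6 by omega, pow_add]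
  omega

theorem bit_lt {n l p : ℕ} (hn : 8 ≤ n) (hl : l ≤ 2 * n) (hp : n - 2 ≤ p) :
    (l + 1).testBit p = false :=
  Nat.testBit_lt_two_pow ((lt_pow hn hl).trans_le (Nat.pow_le_pow_right (by omega) hp))

theorem yy_two {n l : ℕ} (i : ℤ) : yy n l i = 2 ↔ i % n = n - 1 := by
  unfold yy
  split_ifs with h1 h2
  · exact ⟨fun _ => h1, fun _ => rfl⟩
  · exact ⟨fun h => absurd h (by decide), fun h => absurd h h1⟩
  · exact ⟨fun h => absurd h (by decide), fun h => absurd h h1⟩

theorem yy_nat {n l p : ℕ} (hp : p + 1 < n) :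
    yy n l p = if (l + 1).testBit p then 1 else 0 := by
  unfold yy
  rw [small (p : ℤ) (by omega) (by omega), if_neg (by omega), Int.toNat_natCast]

theorem yy_prim {n l : ℕ} (hn : 8 ≤ n) (hl : l ≤ 2 * n) : Prim n (yy n l) := by
  have h2 : yy n l (n - 1) = 2 := (yy_two _).2 (small _ (by omega) (by omega))
  refine ⟨⟨by omega, fun i => by simp [yy], fun c => ?_⟩, fun m hm h => ?_⟩
  · fin_cases c
    · refine ⟨((n - 2 : ℕ) : ℤ), ?_⟩
      rw [yy_nat (by omega), bit_lt hn hl le_rfl]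
      rfl
    · obtain ⟨p, hp⟩ := Nat.exists_testBit_of_ne_zero (x := l + 1) (by omega)
      have : p < n - 2 := by
        by_contra hc
        rw [bit_lt hn hl (not_lt.1 hc)] at hp
        exact absurd hp (by decide)
      refine ⟨(p : ℤ), ?_⟩
      rw [yy_nat (by omega), hp]
      rfl
    · exact ⟨n - 1, h2⟩
  · have h0 := h.1
    have e := h.2.1 (n - 1 - m)
    rw [sub_add_cancel, h2] at e
    have := (yy_two _).1 e.symm
    rw [small _ (by omega) (by omega)] at this
    omega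

theorem yy_inj {n l l' : ℕ} (hn : 8 ≤ n) (hl : l ≤ 2 * n) (hl' : l' ≤ 2 * n) (k : ℤ)
    (h : ∀ i, yy n l (i + k) = yy n l' i) : l = l' := by
  have e := h (n - 1)
  rw [(yy_two _).2 (small _ (by omega) (by omega)), add_comm] at e
  have e1 := (yy_two _).1 e
  have a := addmod (n := n) (by omega) k (n - 1) (by omega) (by omega)
  have e2 : k % n = 0 := by omega
  have e3 : ∀ i, yy n l i = yy n l' i := fun i => by
    rw [← h i]
    unfold yy
    rw [Int.add_emod i k, e2, add_zero, Int.emod_emod_of_dvd _ dvd_rfl]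
  have e4 : l + 1 = l' + 1 := Nat.eq_of_testBit_eq fun p => by
    by_cases hp : n - 2 ≤ p
    · rw [bit_lt hn hl hp, bit_lt hn hl' hp]
    · have := e3 p
      rw [yy_nat (by omega), yy_nat (by omega)] at this
      revert this
      cases (l + 1).testBit p <;> cases (l' + 1).testBit p <;> simp
  omega

theorem stepP {I : Finset ℕ} {n : ℕ} (hn : 8 ≤ n) (hI : n ∈ I) (q : ℕ) (hq : q ≤ n) (G : Type) [Group G] [Finite G]
    [MulAction G (W 3 I)] (hsh : ∀ (g : G) (w : W 3 I), g • shW 3 I w = shW 3 I (g • w))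
    (hmk : ∀ (u v : Fin 3) (j : ℕ), u ≠ v → 1 ≤ j → ∃ g : G, ∀ w : W 3 I, (g • w).1 = mk u v j w.1)
    (F : Equiv.Perm (W 3 I)) (hF : ∀ w, F (shW 3 I w) = shW 3 I (F w)) :
    |({k : low I G n | {w : W 3 I | Prim n w.1 ∧ (k : G) • F w = shW 3 I w}.ncard = n * q}.ncard
        : ℝ) - Real.exp (-1 / n) / (n ^ q * q.factorial) * Nat.card (low I G n)| ≤
      3 / (n ^ (q + n) * q.factorial * n.factorial) * Nat.card (low I G n) := by
  have hper : ∀ {m : ℕ} (g : G) {w : W 3 I}, Per m w.1 → Per m (g • w).1 := fun g w hw =>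
    ZGrp.per_map (fun w => g • w) (hsh g) hw
  let X : SubMulAction G (W 3 I) := ⟨{w | Prim n w.1}, fun g w hw =>
    (prim_map (MulAction.toPerm g) (hsh g) w).2 hw⟩
  let σ : Equiv.Perm X := (shW 3 I).subtypePerm fun w => prim_map (shW 3 I) (fun _ => rfl) w
  let F' : Equiv.Perm X := F.subtypePerm fun w => prim_map F hF w
  have hv : ∀ (k : ℤ) (x : X) (i : ℤ), ((σ ^ k) x).1.1 i = x.1.1 (i + k) :=
    zpow_val (fun x : X => x.1.1) σ fun _ _ => rfl
  have hK : (low I G n).Normal := ⟨fun k hk g m hm w hw => by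
    rw [mul_smul, mul_smul, hk m hm _ (hper _ hw), smul_inv_smul]⟩
  obtain ⟨t, ht⟩ := hmk 0 1 (n - 3) (by decide) (by omega)
  obtain ⟨c, hc⟩ := hmk 2 1 1 (by decide) le_rfl
  have htK : t ∈ low I G n := fun m hm w hw => Subtype.ext (by
    rw [ht]
    by_contra hne
    have := (hit_two hn hm.le hw hne).1
    omega)
  let z : X := ⟨⟨zz n 0 1, n, hI, (zz_prim hn).1⟩, zz_prim hn⟩
  have e1 : (t • z).1.1 = zz n 1 1 := by
    have := mk_z hn 0
    rw [Equiv.swap_apply_left] at this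
    exact (ht z.1).trans this
  have e0 : t • t • z = z := Subtype.ext (Subtype.ext (by
    have := mk_z hn 1
    rw [Equiv.swap_apply_right] at this
    refine (ht (t • z).1).trans ?_
    rw [e1]
    exact this))
  have e2 : (c • t • z).1.1 = zz n 1 2 := by
    refine (hc (t • z).1).trans ?_
    rw [e1]
    exact mk_z1 hn
  have n01 : ¬σ.SameCycle z (t • z) := by
    rintro ⟨k, hk⟩
    exact nc01 hn k fun i => by rw [← e1, ← hk, hv]
  set N := Subgroup.normalClosure ({t} : Set G) with hN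
  have hNn : N.Normal := Subgroup.normalClosure_normal
  have hall : ∀ x : X, x.1 ∈ MulAction.orbit N z.1 := by
    let Q : Seq 3 → Prop := fun s => ∃ w ∈ MulAction.orbit N z.1, w.1 = s
    have hQ : ∀ w : W 3 I, Q w.1 ↔ w ∈ MulAction.orbit N z.1 := fun w =>
      ⟨fun ⟨w', h1, h2⟩ => by rwa [← (Subtype.ext h2 : w' = w)], fun h => ⟨w, h, rfl⟩⟩
    have q0 : z.1 ∈ MulAction.orbit N z.1 := MulAction.mem_orbit_self _
    have q1 : t • z.1 ∈ MulAction.orbit N z.1 := ⟨⟨t, Subgroup.subset_normalClosure rfl⟩, rfl⟩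
    have q2 : c • t • z.1 ∈ MulAction.orbit N z.1 :=
      (ZGiant.orbit_iff N hNn z.1 q0 (Subtype.ext ((hc z.1).trans
        (fix_z hn (by decide) (by decide) le_rfl))) _).1 q1
    have hrel : ∀ s r, RelA n s r → (Q s ↔ Q r) := by
      intro s r h
      induction h with
      | rel s r h =>
        obtain ⟨hs, u, v, j, huv, hj, rfl⟩ := h
        obtain ⟨g, hg⟩ := hmk u v j huv hj
        let w : W 3 I := ⟨s, n, hI, hs⟩
        show Q w.1 ↔ Q (mk u v j w.1)
        rw [← hg, hQ, hQ]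
        by_cases h01 : u = 0 ∧ v = 1
        · obtain ⟨rfl, rfl⟩ := h01
          refine ZGiant.orbit_iff N hNn z.1 q2 (Subtype.ext ((hg _).trans ?_)) w
          have e3 : (c • t • z.1).1 = zz n 1 2 := e2
          rw [e3]
          exact fix_z2 hn hj
        · exact ZGiant.orbit_iff N hNn z.1 q0 (Subtype.ext ((hg _).trans (fix_z hn huv h01 hj))) w
      | refl s => rfl
      | symm s t _ ih => exact ih.symm
      | trans s t r _ _ ih1 ih2 => exact ih1.trans ih2
    exact fun x => (hQ _).1 ((hrel _ _ (trans3 hn z.2 x.2)).1 ((hQ _).2 q0))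
  have key := abs_stepP n (by omega) σ (fun x k => ?_) (fun g x => Subtype.ext (hsh g x.1))
    (low I G n) hK t htK (fun x y => ?_) ⟨z, t • z, n01, rfl, e0, fun w a b => ?_⟩ q n (by omega)
    ⟨fun l => ⟨⟨yy n l, n, hI, (yy_prim hn (by omega)).1⟩, yy_prim hn (by omega)⟩, ?_⟩
    F' fun x => Subtype.ext (hF x.1)
  · have e : ∀ k : low I G n, {w : W 3 I | Prim n w.1 ∧ (k : G) • F w = shW 3 I w}.ncard =
        {x | k • F' x = σ x}.ncard := fun k => by
      rw [← Set.ncard_image_of_injective {x | k • F' x = σ x} Subtype.val_injective]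
      congr 1
      ext w
      constructor
      · rintro ⟨h1, h2⟩
        exact ⟨⟨w, h1⟩, Subtype.ext h2, rfl⟩
      · rintro ⟨x, h1, rfl⟩
        exact ⟨x.2, congrArg Subtype.val h1⟩
    simp only [e]
    exact key
  · have hp : Prim n x.1.1 := x.2
    have a := addmod (n := n) (by omega) k 0 le_rfl (by omega)
    constructor
    · intro h
      by_contra hd
      have h0 : k % n ≠ 0 := fun e => hd (Int.dvd_of_emod_eq_zero e)
      refine hp.2 (k % n).toNat (by omega) ⟨by omega, fun i => ?_, hp.1.2.2⟩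
      rw [Int.toNat_of_nonneg a.2.2.1, ← hp.1.zper _ (k / n), add_assoc, Int.emod_add_ediv_mul,
        ← hv, h]
    · rintro ⟨l, rfl⟩
      exact Subtype.ext (Subtype.ext (funext fun i => by rw [hv, mul_comm, hp.1.zper]))
  · obtain ⟨a, ha⟩ := hall x
    obtain ⟨b, hb⟩ := hall y
    refine ⟨b * a⁻¹, N.mul_mem b.2 (N.inv_mem a.2), Subtype.ext ?_⟩
    show ((b : G) * (a : G)⁻¹) • x.1 = y.1
    rw [← ha, ← hb, mul_smul]
    show (b : G) • (a : G)⁻¹ • (a : G) • z.1 = (b : G) • z.1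
    rw [inv_smul_smul]
  · refine Subtype.ext (Subtype.ext ((ht w.1).trans ?_))
    by_contra hne
    have hp : Prim n w.1.1 := w.2
    obtain ⟨-, i, l, rfl | rfl, hl⟩ := hit_two hn le_rfl hp.1 hne
    · exact a ⟨i, Subtype.ext (Subtype.ext (funext fun x => by rw [hv, hl]))⟩
    · exact b ⟨i, Subtype.ext (Subtype.ext (funext fun x => by rw [hv, hl, e1]))⟩
  · rintro l l' ⟨k, hk⟩
    refine Fin.ext (yy_inj hn (l := l) (l' := l') (by omega) (by omega) k fun i => ?_)
    have := hv k ⟨⟨yy n l, n, hI, (yy_prim hn (by omega)).1⟩, yy_prim hn (by omega)⟩ i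
    rw [hk] at this
    exact this.symm

theorem err_le {n : ℕ} (hn : 8 ≤ n) (q : ℕ) :
    3 / ((n : ℝ) ^ (q + n) * q.factorial * n.factorial) ≤
      256 / 10 ^ 11 * (1 / 2) ^ n * (Real.exp (-1 / n) / (n ^ q * q.factorial)) := by
  have hn' : (8 : ℝ) ≤ n := by exact_mod_cast hn
  have h1 : (3 / 4 : ℝ) ≤ Real.exp (-1 / n) := by
    refine le_trans ?_ (Real.add_one_le_exp _)
    have : (1 : ℝ) / n ≤ 1 / 8 := one_div_le_one_div_of_le (by norm_num) hn'
    rw [neg_div]
    linarith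
  have h2 : (40320 : ℝ) ≤ n.factorial := by exact_mod_cast Nat.factorial_le hn
  have h3 : (4 : ℝ) ^ 8 * 2 ^ n ≤ (n : ℝ) ^ n := by
    refine le_trans ?_ (pow_le_pow_left₀ (by norm_num) hn' n)
    rw [show (8 : ℝ) = 4 * 2 by norm_num, mul_pow]
    gcongr
    norm_num
  have h4 : (0 : ℝ) < 2 ^ n := by positivity
  have h5 : (4 : ℝ) ^ 8 * 2 ^ n * 40320 ≤ (n : ℝ) ^ n * n.factorial := by gcongr
  have h6 : (0 : ℝ) < n ^ q * q.factorial := by positivity
  have h7 : 3 / ((n : ℝ) ^ n * n.factorial) ≤ 256 / 10 ^ 11 * (1 / 2) ^ n * (3 / 4) := by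
    refine (div_le_div_of_nonneg_left (by norm_num) (by positivity) h5).trans ?_
    rw [one_div_pow, div_le_iff₀ (by positivity)]
    field_simp
    norm_num
  calc _ = 3 / ((n : ℝ) ^ n * n.factorial) / (n ^ q * q.factorial) := by
        rw [pow_add]
        field_simp
    _ ≤ 256 / 10 ^ 11 * (1 / 2) ^ n * Real.exp (-1 / n) / (n ^ q * q.factorial) := by
        gcongr
        exact h7.trans (by gcongr)
    _ = _ := by ring

end YGrpPX

open YGrpX YGrpPX in
theorem grpP (S : Finset ℕ) (hS : ∀ n ∈ S, 8 ≤ n) (k : ℕ → ℕ) (hk : ∀ n ∈ S, k n ≤ n)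
    (I : Finset ℕ) (hI : S ⊆ I) (G : Type) [Group G] [Finite G] [MulAction G (W 3 I)]
    (hsh : ∀ (g : G) (w : W 3 I), g • shW 3 I w = shW 3 I (g • w))
    (hmk : ∀ (u v : Fin 3) (j : ℕ), u ≠ v → 1 ≤ j → ∃ g : G, ∀ w : W 3 I, (g • w).1 = mk u v j w.1)
    (F : Equiv.Perm (W 3 I)) (hF : ∀ w, F (shW 3 I w) = shW 3 I (F w)) :
    |({g : G | ∀ n ∈ S,
        {w : W 3 I | Prim n w.1 ∧ g • F w = shW 3 I w}.ncard = n * k n}.ncard : ℝ) -
        (∏ n ∈ S, Real.exp (-1 / n) / (n ^ k n * (k n).factorial)) * Nat.card G| ≤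
      1 / 10 ^ 10 * (∏ n ∈ S, Real.exp (-1 / n) / (n ^ k n * (k n).factorial)) * Nat.card G := by
  let p : ℕ → ℝ := fun n => Real.exp (-1 / n) / (n ^ k n * (k n).factorial)
  let e : ℕ → ℝ := fun n => 256 / 10 ^ 11 * (1 / 2) ^ n
  let Good : ℕ → Set G := fun n =>
    {g | {w : W 3 I | Prim n w.1 ∧ g • F w = shW 3 I w}.ncard = n * k n}
  have he0 : ∀ n, 0 < e n := fun n => by positivity
  have he1 : ∀ a b, a ≤ b → e b ≤ e a := fun a b h =>
    mul_le_mul_of_nonneg_left (pow_le_pow_of_le_one (by norm_num) (by norm_num) h) (by norm_num)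
  have he2 : ∀ a, e (a + 1) = e a / 2 := fun a => by
    simp only [e, pow_succ]
    ring
  have he3 : e 8 = 1 / 10 ^ 11 := by
    simp only [e]
    norm_num
  have hp0 : ∀ n, 0 ≤ p n := fun n => by positivity
  have key : ∀ S : Finset ℕ, (∀ n ∈ S, 8 ≤ n) → (∀ n ∈ S, k n ≤ n) → S ⊆ I → ∀ b, 8 ≤ b →
      (∀ n ∈ S, n < b) →
      (1 - (2 / 10 ^ 11 - 2 * e b)) * ((∏ n ∈ S, p n) * Nat.card G) ≤
        {g : G | ∀ n ∈ S, g ∈ Good n}.ncard ∧
      ({g : G | ∀ n ∈ S, g ∈ Good n}.ncard : ℝ) ≤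
        (1 + 2 * (2 / 10 ^ 11 - 2 * e b)) * ((∏ n ∈ S, p n) * Nat.card G) := by
    intro S
    induction S using Finset.induction_on_max with
    | empty =>
      intro _ _ _ b hb _
      have h1 := he1 8 b hb
      have h2 : (0 : ℝ) ≤ Nat.card G := Nat.cast_nonneg _
      have e0 : {g : G | ∀ n ∈ (∅ : Finset ℕ), g ∈ Good n} = Set.univ :=
        Set.eq_univ_of_forall fun g n h => absurd h (Finset.notMem_empty n)
      rw [he3] at h1
      have h3 := mul_nonneg (sub_nonneg.2 h1) h2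
      rw [e0, Set.ncard_univ, Finset.prod_empty, one_mul]
      constructor <;> linarith
    | insert a S ha ih =>
      intro h8 hk hI b hb hlt
      have ha8 := h8 a (Finset.mem_insert_self a S)
      obtain ⟨i1, i2⟩ := ih (fun n h => h8 n (Finset.mem_insert_of_mem h))
        (fun n h => hk n (Finset.mem_insert_of_mem h))
        ((Finset.subset_insert a S).trans hI) a ha8 ha
      have e0 : {g : G | ∀ n ∈ insert a S, g ∈ Good n} =
          {g : G | ∀ n ∈ S, g ∈ Good n} ∩ Good a := by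
        ext g
        simp only [Finset.forall_mem_insert, Set.mem_inter_iff, Set.mem_ofPred_eq]
        exact and_comm
      obtain ⟨c1, c2⟩ := count2 (low I G a) {g : G | ∀ n ∈ S, g ∈ Good n} (Good a)
        ((1 - e a) * p a) ((1 + e a) * p a)
        (fun g hg c hc n hn => by
          have := hg n hn
          simp only [Good, Set.mem_ofPred_eq] at this ⊢
          rw [← this]
          congr 1
          ext w
          refine and_congr_right fun hw => ?_
          rw [mul_smul, hc n (ha n hn) _ (ZGrp.per_map (fun w => g • w) (hsh g)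
            (ZGrp.per_map F hF hw.1))])
        fun h => by
          have := stepP ha8 (hI (Finset.mem_insert_self a S)) (k a)
            (hk a (Finset.mem_insert_self a S)) G hsh hmk (F.trans (MulAction.toPerm h))
            fun w => by
              show h • F (shW 3 I w) = shW 3 I (h • F w)
              rw [hF, hsh]
          have e2 : {c : low I G a | c * h ∈ Good a} = {c : low I G a | {w : W 3 I | Prim a w.1 ∧
              (c : G) • (F.trans (MulAction.toPerm h)) w = shW 3 I w}.ncard = a * k a} := by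
            ext c
            show {w : W 3 I | Prim a w.1 ∧ ((c : G) * h) • F w = shW 3 I w}.ncard = a * k a ↔ _
            simp only [mul_smul]
            rfl
          rw [e2]
          have h2 : (0 : ℝ) ≤ Nat.card (low I G a) := Nat.cast_nonneg _
          have h3 := abs_le.1 (this.trans (mul_le_mul_of_nonneg_right (err_le ha8 (k a)) h2))
          simp only [e, p]
          constructor
          · linarith [h3.1]
          · linarith [h3.2]
      rw [e0, Finset.prod_insert fun h => lt_irrefl a (ha a h)]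
      have h1 := he1 8 a ha8
      have h2 := he1 (a + 1) b (hlt a (Finset.mem_insert_self a S))
      have h3 := he0 a
      have h4 := he0 b
      rw [he2] at h2
      rw [he3] at h1
      have h5 : 0 ≤ (∏ n ∈ S, p n) * Nat.card G :=
        mul_nonneg (Finset.prod_nonneg fun n _ => hp0 n) (Nat.cast_nonneg _)
      have h6 : 0 ≤ p a * ((∏ n ∈ S, p n) * Nat.card G) := mul_nonneg (hp0 a) h5
      have f1 : 0 ≤ (1 - e a) * p a := mul_nonneg (by linarith) (hp0 a)
      have f2 : 0 ≤ (1 + e a) * p a := mul_nonneg (by linarith) (hp0 a)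
      constructor
      · refine le_trans ?_ ((mul_le_mul_of_nonneg_left i1 f1).trans c1)
        calc _ = (1 - (2 / 10 ^ 11 - 2 * e b)) * (p a * ((∏ n ∈ S, p n) * Nat.card G)) := by ring
          _ ≤ ((1 - e a) * (1 - (2 / 10 ^ 11 - 2 * e a))) *
              (p a * ((∏ n ∈ S, p n) * Nat.card G)) :=
            mul_le_mul_of_nonneg_right (by nlinarith) h6
          _ = _ := by ring
      · refine (c2.trans (mul_le_mul_of_nonneg_left i2 f2)).trans ?_
        calc _ = ((1 + e a) * (1 + 2 * (2 / 10 ^ 11 - 2 * e a))) *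
              (p a * ((∏ n ∈ S, p n) * Nat.card G)) := by ring
          _ ≤ (1 + 2 * (2 / 10 ^ 11 - 2 * e b)) * (p a * ((∏ n ∈ S, p n) * Nat.card G)) :=
            mul_le_mul_of_nonneg_right (by nlinarith) h6
          _ = _ := by ring
  obtain ⟨h1, h2⟩ := key S hS hk hI (S.sup id + 8) (by omega) fun n h => by
    have : n ≤ S.sup id := Finset.le_sup (f := id) h
    omega
  have h3 := he0 (S.sup id + 8)
  have h5 : 0 ≤ (∏ n ∈ S, p n) * Nat.card G :=
    mul_nonneg (Finset.prod_nonneg fun n _ => hp0 n) (Nat.cast_nonneg _)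
  show |({g : G | ∀ n ∈ S, g ∈ Good n}.ncard : ℝ) - (∏ n ∈ S, p n) * Nat.card G| ≤
    1 / 10 ^ 10 * (∏ n ∈ S, p n) * Nat.card G
  rw [abs_le, mul_assoc]
  constructor <;> nlinarith

end Pool.Agent.MP_9b2bac_nt.Z
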