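import Mathlib
import Pool.Agent.MP_9b2bac_nt.YOne
import Pool.Agent.MP_9b2bac_nt.PntAp

/- The number of prime factors of degree `n` and the number of twisted fixed words. -/

set_option autoImplicit false

namespace Pool.Agent.MP_9b2bac_nt.Z

open Finset Polynomial

variable {d : ℕ} {I : Finset ℕ} {A : Type} [CommRing A] [IsDomain A]
  {F k : Type} [Field F] [Fintype F] [Field k] [Algebra F k]

theorem card_roots [IsAlgClosed k] [Algebra.IsAlgebraic F k] (f : F[X]) (n : ℕ) :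
    {θ : k | aeval θ f = 0 ∧ (minpoly F θ).natDegree = n}.ncard =
      n * {Q : F[X] | Q.Monic ∧ Irreducible Q ∧ Q.natDegree = n ∧ Q ∣ f}.ncard := by
  classical
  have h1 : {Q : F[X] | Q.Monic ∧ Irreducible Q ∧ Q.natDegree = n ∧ Q ∣ f}.Finite :=
    (Pnt.finite_mon n).subset fun Q h => ⟨h.1, h.2.2.1⟩
  have h2 : {θ : k | aeval θ f = 0 ∧ (minpoly F θ).natDegree = n} =
      (h1.toFinset.biUnion fun Q => (Q.rootSet k).toFinset) := by
    ext θ
    have hi : IsIntegral F θ := Algebra.IsIntegral.isIntegral θ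
    simp only [Set.mem_setOf_eq, coe_biUnion, Set.Finite.coe_toFinset, Set.coe_toFinset,
      Set.mem_iUnion, mem_rootSet]
    refine ⟨fun h => ⟨_, ⟨minpoly.monic hi, minpoly.irreducible hi, h.2, minpoly.dvd F θ h.1⟩,
      minpoly.ne_zero hi, minpoly.aeval F θ⟩, ?_⟩
    rintro ⟨Q, ⟨a, b, c, R, rfl⟩, -, e⟩
    exact ⟨by rw [map_mul, e, zero_mul], by rw [← minpoly.eq_of_irreducible_of_monic b e a, c]⟩
  rw [h2, Set.ncard_coe_finset, card_biUnion, Set.ncard_eq_toFinset_card _ h1, mul_comm,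
    ← smul_eq_mul, ← sum_const]
  · refine sum_congr rfl fun Q hQ => ?_
    obtain ⟨a, b, c, -⟩ := h1.mem_toFinset.1 hQ
    rw [Set.toFinset_card, card_rootSet_eq_natDegree (PerfectField.separable_of_irreducible b)
      (IsAlgClosed.splits _), c]
  · intro Q hQ R hR hne
    obtain ⟨a, b, -⟩ := h1.mem_toFinset.1 hQ
    obtain ⟨a', b', -⟩ := h1.mem_toFinset.1 hR
    refine disjoint_left.2 fun θ t1 t2 => hne ?_
    rw [Set.mem_toFinset, mem_rootSet] at t1 t2
    rw [minpoly.eq_of_irreducible_of_monic b t1.2 a, minpoly.eq_of_irreducible_of_monic b' t2.2 a']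

/-- The number of monic prime factors of degree `n` of `C_P(1)`. -/
noncomputable def nf (n : ℕ) (P : F[X]) : ℕ :=
  {Q : F[X] | Q.Monic ∧ Irreducible Q ∧ Q.natDegree = n ∧ Q ∣ carlitz X P 1}.ncard

theorem count_eq [IsAlgClosed k] [Algebra.IsAlgebraic F k] {n : ℕ}
    (hI : n ∈ I) {P : F[X]} (hm : P.Monic) (hi : Irreducible P)
    (φ : RR A d I →+* k) {ε : F} (hε : ε ≠ 0) (he : φ (eR A d I) = algebraMap F k ε)
    (hl : Function.Injective fun j => φ (lR A I j))
    (hP : P.map (algebraMap F k) = ∏ j, (X - C ((algebraMap F k ε)⁻¹ * φ (lR A I j))))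
    (π : Equiv.Perm (Fin d)) (hπ : ∀ j, φ (lR A I j) ^ Fintype.card F = φ (lR A I (π j)))
    (g : GG A d I) (hg : ∀ r, φ r ^ Fintype.card F = φ (g (th A I π r)))
    (c1 : ∀ s s' : W d I, φ (zx A s) = φ (zx A s') → s.1 0 = s'.1 0)
    (c2 : ∀ s s' : W d I, (∀ j, φ (zw A s j) = φ (zw A s' j)) → s = s')
    (c3 : ∀ n ∈ I, 0 < n → ∀ (x : ℤ → k) (w : ℤ → Fin d → k),
        Sys (fun j => φ (lR A I j)) (φ (eR A d I)) x w → (∀ i, w (i + n) = w i) →
        (∀ j, ∃ i, w i j ≠ 0) → ∃ s : W d I, Per n s.1 ∧ ∀ j, w 0 j = φ (zw A s j)) :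
    {w : W d I | Prim n w.1 ∧ g • relW I π w = shW d I w}.ncard = n * nf n P := by
  set e := algebraMap F k ε
  have he0 : e ≠ 0 := (_root_.map_ne_zero _).2 hε
  have heq : ∀ m, e ^ Fintype.card F ^ m = e := fun m => by
    rw [← map_pow, FiniteField.pow_card_pow]
  have heq1 : e ^ Fintype.card F = e := by simpa using heq 1
  have hsys := fun s => (sysR A s).map φ
  have hpow : ∀ {s : W d I} (m : ℕ), g • relW I π s = shW d I s →
      (e⁻¹ * φ (zx A s)) ^ Fintype.card F ^ m = e⁻¹ * φ (zx A ((shW d I ^ (m : ℤ)) s)) :=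
    fun {s} m hs => by
      have := fix_pow' φ g π hg hs 0 m
      simp only [zpow_zero, Equiv.Perm.one_apply, zero_add] at this
      rw [mul_pow, inv_pow, heq, this]
  have hper : ∀ {s : W d I} {m : ℕ}, g • relW I π s = shW d I s → Per m s.1 →
      (e⁻¹ * φ (zx A s)) ^ Fintype.card F ^ m = e⁻¹ * φ (zx A s) := fun {s m} hs h => by
    have := per_pow h 0
    rw [zero_add] at this
    rw [hpow m hs, this, zpow_zero, Equiv.Perm.one_apply]
  have hinj : ∀ {s s' : W d I}, g • relW I π s = shW d I s → g • relW I π s' = shW d I s' →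
      Per n s.1 → Per n s'.1 → e⁻¹ * φ (zx A s) = e⁻¹ * φ (zx A s') → s = s' :=
    fun {s s'} hs hs' h h' h1 => Subtype.ext (funext fun i => by
      have hn' : (0 : ℤ) < n := by exact_mod_cast h.1
      have a1 := hpow (i % n).toNat hs
      rw [h1, hpow _ hs', mul_right_inj' (inv_ne_zero he0)] at a1
      have := c1 _ _ a1
      rw [shW_zpow, shW_zpow, shf_apply_zero, shf_apply_zero,
        Int.toNat_of_nonneg (Int.emod_nonneg _ hn'.ne'), h.emod, h'.emod] at this
      exact this.symm)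
  have hev : ∀ θ : k, aeval θ (carlitz X P (1 : F[X])) = carlitz θ P 1 := fun θ => by
    rw [map_carlitz]; simp
  rw [nf, ← card_roots (k := k)]
  refine Set.ncard_congr (fun s _ => e⁻¹ * φ (zx A s)) (fun s ⟨hn, hs⟩ => ?_)
    (fun s s' h h' => hinj h.2 h'.2 h.1.1 h'.1.1) fun θ ⟨h1, hd⟩ => ?_
  · have h3 := sys_root (F := F) (he ▸ he0) (he ▸ heq1) (hsys s) (fix_pow φ g π hg hs) (P := P)
      fun j => by
        rw [← eval_map_algebraMap, hP, eval_prod, he]
        exact prod_eq_zero (mem_univ j) (by simp)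
    simp only [zpow_zero, Equiv.Perm.one_apply, he] at h3
    have h4 : IsIntegral F (e⁻¹ * φ (zx A s)) := Algebra.IsIntegral.isIntegral _
    have h5 := pow_card_pow_eq (minpoly.irreducible h4) (minpoly.aeval F _)
    have h6 := Nat.le_of_dvd hn.1.1 ((h5 n).1 (hper hs hn.1))
    have h8 := (h5 _).2 dvd_rfl
    refine ⟨(hev _).trans h3, le_antisymm h6 (not_lt.1 fun h7 => hn.2 _ h7
      ⟨minpoly.natDegree_pos h4, fun i => ?_, hn.1.2.2⟩)⟩
    rw [hpow _ hs] at h8
    have hc : Commute (MulAction.toPerm g * relW I π) (shW d I) := Equiv.ext fun w => by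
      simp [relW_sh, act_sh]
    generalize (minpoly F (e⁻¹ * φ (zx A s))).natDegree = m at *
    have a := DFunLike.congr_fun (hc.zpow_right m).eq s
    simp only [Equiv.Perm.mul_apply, MulAction.toPerm_apply] at a
    have := hinj (s := (shW d I ^ (m : ℤ)) s) (by
      rw [a, hs, ← Equiv.Perm.mul_apply, ← Equiv.Perm.mul_apply, ← zpow_add_one, ← zpow_one_add,
        add_comm]) hs ⟨hn.1.1, fun i => by rw [shW_zpow, shf, shf, add_right_comm, hn.1.2.1],
      fun c => by
        obtain ⟨x, hx⟩ := hn.1.2.2 c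
        exact ⟨x - m, by rwa [shW_zpow, shf, sub_add_cancel]⟩⟩ hn.1 h8
    have := congrFun (congrArg Subtype.val this) i
    rwa [shW_zpow] at this
  · have h4 : IsIntegral F θ := Algebra.IsIntegral.isIntegral _
    have h5 := pow_card_pow_eq (minpoly.irreducible h4) (minpoly.aeval F _)
    rw [hd] at h5
    obtain ⟨x, w, s1, s2, s3, s4, s5⟩ := root_sys hm hi (μ := fun j => e⁻¹ * φ (lR A I j))
      ((mul_right_injective₀ (inv_ne_zero he0)).comp hl) hP (π := π)
      (fun j => by simp only [mul_pow, inv_pow, heq1, hπ]) ((h5 _).2 dvd_rfl) ((hev θ).symm.trans h1)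
    have s6 : Sys (fun j => φ (lR A I j)) (φ (eR A d I)) (fun i => e * x i) w :=
      ⟨fun i j => by
        have := s1.step i j
        rw [he, ← mul_inv_cancel_left₀ he0 (φ (lR A I j))]
        linear_combination e * this, s1.sum⟩
    obtain ⟨s, t1, t2⟩ := c3 _ hI (hd ▸ minpoly.natDegree_pos h4) _ w s6 s3 s4
    have t3 : e * θ = φ (zx A s) := by
      have a1 := s6.x_eq 0
      have a2 := (hsys s).x_eq 0
      simp only [zpow_zero, Equiv.Perm.one_apply, ← t2, s2] at a1 a2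
      rw [a1, a2]
    have t4 : g • relW I π s = shW d I s := c2 _ _ fun j => by
      obtain ⟨j, rfl⟩ := π.surjective j
      have a1 := s6.step 0 (π j)
      have a2 := (hsys s).step 0 (π j)
      simp only [zpow_zero, Equiv.Perm.one_apply, ← t2, s2, t3, zero_add, zpow_one, he] at a1 a2
      rw [← act_zw, ← th_zw, ← hg, ← t2, s5]
      exact mul_left_cancel₀ he0 (a1.trans a2.symm)
    refine ⟨s, ⟨⟨t1, fun m hm hm' => ?_⟩, t4⟩, by rw [← t3, inv_mul_cancel_left₀ he0]⟩
    have := hper t4 hm'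
    rw [← t3, inv_mul_cancel_left₀ he0, h5] at this
    exact absurd (Nat.le_of_dvd hm'.1 this) (not_le.2 hm)

/-- Prescribed numbers of twisted fixed words. -/
def EvG (A : Type) [CommRing A] [IsDomain A] (I S : Finset ℕ) (κ : ℕ → ℕ) (π : Equiv.Perm (Fin d))
    (g : GG A d I) : Prop :=
  ∀ n ∈ S, {w : W d I | Prim n w.1 ∧ g • relW I π w = shW d I w}.ncard = n * κ n

theorem two_sidedP {S : Finset ℕ} (hI : S ⊆ I) (hS0 : ∀ n ∈ S, 0 < n) (κ : ℕ → ℕ) {lo hi δ : ℝ} (hδ : 0 < δ)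
    (hgrp : ∀ π : Equiv.Perm (Fin d), lo * Nat.card (GG A d I) ≤
      {g : GG A d I | EvG A I S κ π g}.ncard ∧
      ({g : GG A d I | EvG A I S κ π g}.ncard : ℝ) ≤ hi * Nat.card (GG A d I)) :
    ∃ ν : AA A d, ν ≠ 0 ∧ ∃ D q₀ : ℕ, ∀ (F : Type) [Field F]
      [Fintype F], q₀ ≤ Fintype.card F → ∀ (ρ : A →+* F) (P : F[X]), Irreducible P →
      ∀ l : Fin d → AlgebraicClosure F, P.map (algebraMap F _) = ∏ j, (X - C (l j)) →
      MvPolynomial.eval₂Hom ((algebraMap F _).comp ρ) l ν ≠ 0 →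
      ({ε : F | ε ≠ 0 ∧ (∀ n ∈ S, nf n (P.scaleRoots ε⁻¹) = κ n)}.ncard : ℝ) ≤
        (1 + δ) * Fintype.card F * hi + D ∧
      ({ε : F | ε ≠ 0 ∧ ¬ (∀ n ∈ S, nf n (P.scaleRoots ε⁻¹) = κ n)}.ncard : ℝ) ≤
        (1 + δ) * Fintype.card F * (1 - lo) + D := by
  classical
  obtain ⟨ν, hν, D, q₀, h⟩ := chebs (AA A d) (BB A d) (Dl A d) Dl_ne (RR A d I) RR_fg hfixP
    (Equiv.Perm (Fin d)) (th A I) (tauA A) (fun π => by simp [th_alg]) (fun π a => by simp [th_alg])
    δ hδ
  obtain ⟨b, hb, hc⟩ := complete d I A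
  refine ⟨ν * Dl A d * b.leadingCoeff, mul_ne_zero (mul_ne_zero hν Dl_ne) (by simpa using hb),
    D + b.natDegree, q₀, fun F _ _ hq ρ P hir l hP h0 => ?_⟩
  let k := AlgebraicClosure F
  let ψ : AA A d →+* k := MvPolynomial.eval₂Hom ((algebraMap F _).comp ρ) l
  obtain ⟨p, _, f, hp, hf⟩ := FiniteField.card' F
  haveI := Fact.mk hp
  rw [map_mul, map_mul, mul_ne_zero_iff, mul_ne_zero_iff] at h0
  have hl : Function.Injective l := fun i j e => by
    by_contra hij
    refine h0.1.2 (zero_dvd_iff.1 ?_)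
    simpa [ψ, e] using map_dvd ψ (dvd_Dl (A := A) hij)
  obtain ⟨π, hπ⟩ := exists_frob hl hP
  have hψ : ∀ a, ψ a ^ p ^ (f : ℕ) = ψ (tauA A π a) := fun a => by
    have : (FiniteField.frobeniusAlgHom F k : k →+* k).comp ψ = ψ.comp (tauA A π : _ →+* _) :=
      MvPolynomial.ringHom_ext (fun r => by
        simp [ψ, tauA, ← map_pow, FiniteField.pow_card]) fun j => by simp [ψ, tauA_X, hπ]
    rw [← hf]
    exact DFunLike.congr_fun this a
  have hm : P.Monic := by
    rw [← (algebraMap F k).injective.monic_map_iff.symm, hP]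
    exact monic_prod_of_monic _ _ fun j _ => monic_X_sub_C _
  have hbψ : b.map ψ ≠ 0 := fun e => h0.2 (by
    have := congrArg (fun p => p.coeff b.natDegree) e
    simpa [ψ] using this)
  have h5 : (0 : ℝ) < Nat.card (GG A d I) := by exact_mod_cast Nat.card_pos
  have key : ∀ (Q : Prop → Prop) (β : ℝ), ({g : GG A d I | Q (EvG A I S κ π g)}.ncard : ℝ) ≤ β * Nat.card (GG A d I) →
      ({ε : F | ε ≠ 0 ∧ Q ((∀ n ∈ S, nf n (P.scaleRoots ε⁻¹) = κ n))}.ncard : ℝ) ≤
        (1 + δ) * Fintype.card F * β + (D + b.natDegree : ℕ) := fun Q β hβ => by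
    have h3 := h p f k (hf ▸ hq) ψ h0.1.1 π hψ {g : GG A d I | Q (EvG A I S κ π g)}
      (algebraMap F k '' {ε : F | ε ≠ 0 ∧ Q ((∀ n ∈ S, nf n (P.scaleRoots ε⁻¹) = κ n))} \ (b.map ψ).roots.toFinset)
      (by rintro _ ⟨⟨ε, -, rfl⟩, -⟩; rw [← hf, ← map_pow, FiniteField.pow_card]) (by
        rintro _ ⟨⟨ε, ⟨hε, hS⟩, rfl⟩, hr⟩ φ hX hC g hg
        have e1 : φ.comp (algebraMap (AA A d)[X] _) = eval₂RingHom ψ (algebraMap F k ε) :=
          Polynomial.ringHom_ext (fun a => by simp [hC]) (by simp [hX])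
        obtain ⟨c1, c2, c3⟩ := hc k φ fun e => hr (by
          have := DFunLike.congr_fun e1 b
          rw [RingHom.comp_apply, e] at this
          rw [Finset.mem_coe, Multiset.mem_toFinset, mem_roots hbψ, IsRoot, eval_map]
          exact this.symm)
        have e2 : ∀ j, φ (lR A I j) = l j := fun j => by simp [lR, hC, ψ]
        have e3 : EvG A I S κ π g ↔ ∀ n ∈ S, nf n (P.scaleRoots ε⁻¹) = κ n :=
          forall₂_congr fun n hn => by
            rw [count_eq (hI hn) (P := P.scaleRoots ε⁻¹) ((monic_scaleRoots_iff _).2 hm)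
              (irr_scale hir (inv_ne_zero hε)) φ hε hX (by simpa only [e2] using hl) ?_ π
              (by simpa only [e2] using hπ) g (hf ▸ hg) c1 c2 c3, Nat.mul_right_inj (hS0 n hn).ne']
            rw [map_scaleRoots _ _ _ (by simp [hm]), hP, prod_scale, map_inv₀]
            simp only [e2]
        rw [Set.mem_setOf_eq, e3]
        exact hS)
    have h4 : {ε : F | ε ≠ 0 ∧ Q ((∀ n ∈ S, nf n (P.scaleRoots ε⁻¹) = κ n))}.ncard ≤
        (algebraMap F k '' {ε : F | ε ≠ 0 ∧ Q ((∀ n ∈ S, nf n (P.scaleRoots ε⁻¹) = κ n))} \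
          (b.map ψ).roots.toFinset).ncard + b.natDegree := by
      rw [← Set.ncard_image_of_injective _ (algebraMap F k).injective]
      refine (Set.ncard_le_ncard_diff_add_ncard _ _ (b.map ψ).roots.toFinset.finite_toSet).trans
        (Nat.add_le_add_left ?_ _)
      rw [Set.ncard_coe_finset]
      exact (Multiset.toFinset_card_le _).trans ((card_roots' _).trans natDegree_map_le)
    have h6 := (Nat.cast_le (α := ℝ)).2 h4
    have h7 := mul_le_mul_of_nonneg_left hβ (show (0 : ℝ) ≤ (1 + δ) * (p : ℝ) ^ (f : ℕ) by positivity)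
    have h8 := mul_le_mul_of_nonneg_left h6 h5.le
    refine le_of_mul_le_mul_left ?_ h5
    rw [hf]
    push_cast at h8 ⊢
    linarith
  refine ⟨key id hi (hgrp π).2, key Not (1 - lo) ?_⟩
  have := Set.ncard_add_ncard_compl {g : GG A d I | EvG A I S κ π g}
  have h9 := (hgrp π).1
  have h10 := congrArg (Nat.cast : ℕ → ℝ) this
  rw [Nat.cast_add, Set.compl_setOf] at h10
  linarith

end Pool.Agent.MP_9b2bac_nt.Z
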