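import Mathlib
import Pool.Agent.MP_9b2bac_nt.ZFinal

set_option autoImplicit false

namespace Pool.Agent.MP_9b2bac_nt.KeptDensityZero

open Polynomial Pool.Agent.MP_9b2bac_nt

theorem result (d : ℕ) (hd : 3 ≤ d) (η : ℝ) (hη : 0 < η) :
    ∃ N q₀ : ℕ, ∀ (F : Type) [Field F] [Fintype F], Odd (Fintype.card F) → q₀ ≤ Fintype.card F →
      ({P : F[X] | P.Monic ∧ P.natDegree = d ∧ ¬ ∃ Q M : F[X], Irreducible Q ∧ Q.natDegree ≤ N ∧
          0 < M.natDegree ∧ carlitz (X : F[X]) P 1 = Q * M}.ncard : ℝ) ≤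
        η * {P : F[X] | P.Monic ∧ P.natDegree = d ∧ Irreducible P}.ncard := by
  obtain ⟨N, q₀, h⟩ := Z.density hd η hη
  refine ⟨N, q₀, fun F _ _ ho hq => ?_⟩
  have := h F ho hq
  rw [← Set.ncard_coe_finset, ← Set.ncard_coe_finset] at this
  convert this using 3
  · ext P; simp [Pnt.mem_mon, Z.Sm, and_assoc]
  · congr 1; ext P; simp only [Set.mem_setOf_eq, Finset.mem_coe, Pnt.mem_irr]; tauto

end Pool.Agent.MP_9b2bac_nt.KeptDensityZero
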