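import Mathlib
import Pool.Agent.Mg.F43e117.Gbe8f40

set_option autoImplicit false

namespace Pool.Agent.MP_9b2bac_nt.KeptHalf

open Polynomial Filter Pool.Agent.MP_9b2bac_nt

theorem result (F : Type*) [Field F] [Fintype F] (p : ℕ) [CharP F p] (hp : p ≠ 2)
    (j : ℕ) (hj : 1 ≤ j) (b : F[X]) (hb : b ≠ 0) (ε : ℝ) (hε : 0 < ε) :
    ∃ d₀ : ℕ, ∀ d : ℕ, d₀ ≤ d →
      ({P : F[X] | P.Monic ∧ Irreducible P ∧ P.natDegree = d ∧
          ∃ M : F[X], Irreducible M ∧ carlitz ((X : F[X]) ^ p ^ j) P b = b * M}.ncard : ℝ) ≤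
        (1 / 2 + ε) * {P : F[X] | P.Monic ∧ Irreducible P ∧ P.natDegree = d}.ncard := by
  have : Fact p.Prime := ⟨CharP.char_is_prime F p⟩
  obtain ⟨d₀, h⟩ := eventually_atTop.1 (Insep.half_composite p hp (j := j) (by omega) hb hε)
  refine ⟨d₀, fun d hd => le_trans (Nat.cast_le.2 (Set.ncard_le_ncard ?_
    ((Pnt.finite_mon d).subset fun P hP => ⟨hP.1, hP.2.2.1⟩))) (h d hd)⟩
  rintro P ⟨h1, h2, h3, M, hM, hE⟩
  refine ⟨h1, h2, h3, ?_⟩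
  rwa [hE, mul_div_cancel_left₀ _ hb]

end Pool.Agent.MP_9b2bac_nt.KeptHalf
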