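import Mathlib
import Pool.Agent.MP_9b2bac_nt.Parity

set_option autoImplicit false

namespace Pool.Agent.MP_9b2bac_nt.KeptNoPrimes

open Polynomial Finset Pool.Agent.MP_9b2bac_nt Pool.Agent.MP_4fffd4_nt

theorem result (F : Type*) [Field F] [Fintype F] (p : ℕ) [CharP F p] (hp : p ≠ 2)
    (P : F[X]) (hP : P.Monic) (hPi : Irreducible P) :
    ∃ M₁ M₂ : F[X], 0 < M₁.natDegree ∧ 0 < M₂.natDegree ∧
      carlitz ((X : F[X]) ^ (2 * p)) P ((X - 1) * (X + 1) ^ (2 * p - 1)) =
        (X - 1) * (X + 1) ^ (2 * p - 1) * (M₁ * M₂) := by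
  have hpp : p.Prime := CharP.char_is_prime F p
  have h2 : ringChar F ≠ 2 := by rwa [ringChar.eq F p]
  have hq : Odd (Fintype.card F) := Nat.odd_iff.2 (FiniteField.odd_card_of_char_ne_two h2)
  have hq1 := Fintype.one_lt_card (α := F)
  have hq3 : 3 ≤ Fintype.card F := by obtain ⟨k, hk⟩ := hq; omega
  obtain ⟨s, rfl⟩ : ∃ s, p = s + 1 := ⟨p - 1, by have := hpp.pos; omega⟩
  have e0 : 2 * (s + 1) - 1 = 2 * s + 1 := by omega
  rw [e0]
  have hp0 : ((s : F[X]) + 1) = 0 := by exact_mod_cast CharP.cast_eq_zero F[X] (s + 1)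
  have m1 : (X - 1 : F[X]).Monic := monic_X_sub_C 1
  have m2 : (X + 1 : F[X]).Monic := monic_X_add_C 1
  have d1 : (X - 1 : F[X]).natDegree = 1 := natDegree_X_sub_C 1
  have d2 : (X + 1 : F[X]).natDegree = 1 := natDegree_X_add_C 1
  set b : F[X] := (X - 1) * (X + 1) ^ (2 * s + 1) with hb
  have hbd : b.natDegree = 2 * (s + 1) := by
    rw [hb, m1.natDegree_mul (m2.pow _), natDegree_pow, d1, d2]; ring
  have hθ : derivative ((X : F[X]) ^ (2 * (s + 1))) = 0 := by
    rw [derivative_X_pow]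
    simp only [map_natCast]
    push_cast
    rw [hp0]; simp
  have hb' : derivative b = 2 * (X + 1) ^ (2 * s) := by
    simp only [hb, derivative_mul, derivative_sub, derivative_add, derivative_X, derivative_one,
      derivative_pow, map_natCast, Nat.add_sub_cancel]
    push_cast
    linear_combination (2 * (X - 1) * (X + 1) ^ (2 * s)) * hp0
  obtain ⟨M, hM, hMd, hE, hD⟩ := quot_data (θ := (X : F[X]) ^ (2 * (s + 1))) (b := b)
    (by rw [natDegree_X_pow, hbd]; nlinarith) hP
  obtain ⟨m, hm⟩ : Odd (Fintype.card F ^ P.natDegree) := hq.pow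
  have hm0 : 0 < m := by
    have := Nat.one_lt_pow hPi.natDegree_pos.ne' hq1
    omega
  have hn : M.natDegree = 4 * (m * (s + 1)) := by
    rw [hMd, hm, hbd, Nat.add_sub_cancel]; ring
  have hpos : 0 < m * (s + 1) := by positivity
  suffices h : ¬ Irreducible M by
    obtain ⟨M₁, M₂, h1, h2, h3⟩ := exists_split (by omega) h
    exact ⟨M₁, M₂, h1, h2, by rw [hE, h3]⟩
  intro hi
  have ev : ∀ c : F, eval c b = 0 → c ^ 2 = 1 → eval c M = eval 1 P := by
    intro c hc hc2
    obtain ⟨k, hk⟩ := hD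
    have := congrArg (eval c) hk
    rw [eval_mul, hc, zero_mul, eval_sub, sub_eq_zero, ← comp_eq_aeval, eval_comp, eval_pow,
      eval_X, pow_mul, hc2, one_pow] at this
    exact this
  have ev1 := ev 1 (by simp [hb]) (by simp)
  have ev2 := ev (-1) (by simp [hb]) (by simp)
  have hy : eval 1 P ≠ 0 := by
    intro h
    have := degree_eq_one_of_irreducible_of_root hi (show M.IsRoot 1 by rw [IsRoot, ev1, h])
    have h3 : M.natDegree = 1 := natDegree_eq_of_degree_eq_some this
    omega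
  let K := AlgebraicClosure F
  obtain ⟨α, hα, hMα⟩ := exists_roots (K := K) hM (PerfectField.separable_of_irreducible hi) hn
  have lin : ∀ c : F, ∏ i, aeval (α i) (X - C c) = algebraMap F K (eval c M) := by
    intro c
    rw [recip ⟨2 * (m * (s + 1)), by ring⟩ α hMα]
    simp [aeval_algebraMap_apply]
  have l1 := lin 1
  have l2 := lin (-1)
  rw [C_1, ev1] at l1
  rw [C_neg, C_1, sub_neg_eq_add, ev2] at l2
  refine core h2 hθ hP hPi hM hi hE hD ⟨_, rfl⟩ α hα hMα (y := eval 1 P ^ (s + 1))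
    (z := 2 ^ (2 * (m * (s + 1))) * eval 1 P ^ s) (pow_ne_zero _ hy) ?_ ?_
  · simp only [hb, map_mul, map_pow]
    rw [Finset.prod_mul_distrib, Finset.prod_pow, l1, l2]; ring
  · simp only [hb', map_mul, map_pow, map_ofNat]
    rw [Finset.prod_mul_distrib, Finset.prod_pow, l2, Finset.prod_const, card_univ,
      Fintype.card_fin]
    ring

end Pool.Agent.MP_9b2bac_nt.KeptNoPrimes
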