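import Mathlib
import Pool.Agent.MP_9b2bac_nt.Parity

set_option autoImplicit false

namespace Pool.Agent.MP_9b2bac_nt

open Polynomial Finset Pool.Agent.MP_4fffd4_nt

theorem exists_ann {F : Type*} [Field F] {g : F[X]} (hg : g ≠ 0) (f : F[X] →ₗ[F] F[X]) :
    ∃ N : F[X], N ≠ 0 ∧ g ∣ f N := by
  have : Module.Finite F (AdjoinRoot g) := (AdjoinRoot.powerBasis hg).finite
  by_contra h
  push Not at h
  have hinj : Function.Injective ((AdjoinRoot.mkₐ g).toLinearMap ∘ₗ f) := by
    rw [injective_iff_map_eq_zero]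
    intro N hN
    by_contra h0
    exact h N h0 (AdjoinRoot.mk_eq_zero.1 hN)
  exact Polynomial.not_finite (Module.Finite.of_injective _ hinj)

theorem periodic_composite (F : Type*) [Field F] [Fintype F] (h2 : ringChar F ≠ 2) (θ b : F[X])
    (hθ : derivative θ = 0) (hb : derivative b ≠ 0)
    (hdeg : θ.natDegree + b.natDegree < Fintype.card F * b.natDegree) :
    ∃ N : F[X], N ≠ 0 ∧ ∀ P : F[X], P.Monic → Irreducible P → Even P.natDegree → N ∣ P - 1 →
      ∃ M₁ M₂ : F[X], 0 < M₁.natDegree ∧ 0 < M₂.natDegree ∧ carlitz θ P b = b * (M₁ * M₂) := by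
  have hb0 : b ≠ 0 := by rintro rfl; simp at hb
  have hbd : 0 < b.natDegree := by
    rcases Nat.eq_zero_or_pos b.natDegree with h | h
    · rw [h] at hdeg; omega
    · exact h
  obtain ⟨N₁, hN₁, h₁⟩ := exists_ann hb0 (aeval θ).toLinearMap
  obtain ⟨N₂, hN₂, h₂⟩ := exists_ann hb
    ((LinearMap.applyₗ b).comp (aeval (lin F θ)).toLinearMap)
  have h₁' : b ∣ aeval θ N₁ := h₁
  have h₂' : derivative b ∣ carlitz θ N₂ b := by rw [carlitz_eq]; exact h₂
  refine ⟨N₁ * N₂, mul_ne_zero hN₁ hN₂, fun P hP hPi hev ⟨k, hk⟩ => ?_⟩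
  obtain ⟨M, hM, hMd, hE, hD⟩ := quot_data hdeg hP
  have hq1 := Fintype.one_lt_card (α := F)
  obtain ⟨r, hr⟩ : Odd (Fintype.card F ^ (P.natDegree / 2)) :=
    (Nat.odd_iff.2 (FiniteField.odd_card_of_char_ne_two h2)).pow
  have hr0 : 0 < r := by
    have := hPi.natDegree_pos
    obtain ⟨j, hj⟩ := hev
    have := Nat.one_lt_pow (show P.natDegree / 2 ≠ 0 by omega) hq1
    omega
  have hn : M.natDegree = 4 * ((r * r + r) * b.natDegree) := by
    have : Fintype.card F ^ P.natDegree = 4 * (r * r + r) + 1 := by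
      rw [← Nat.div_two_mul_two_of_even hev, pow_mul, hr]; ring
    rw [hMd, this, Nat.add_sub_cancel]; ring
  have hpos : 0 < (r * r + r) * b.natDegree := by positivity
  suffices h : ¬ Irreducible M by
    obtain ⟨M₁, M₂, h1, h2, h3⟩ := exists_split (by omega) h
    exact ⟨M₁, M₂, h1, h2, by rw [hE, h3]⟩
  intro hi
  let K := AlgebraicClosure F
  obtain ⟨α, hα, hMα⟩ := exists_roots (K := K) hM (PerfectField.separable_of_irreducible hi) hn
  have hPk : P = 1 + k * N₁ * N₂ := by linear_combination hk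
  have a1 : ∀ β : K, aeval β b = 0 → aeval β M = 1 := by
    intro β hβ
    obtain ⟨u, hu⟩ := hD
    obtain ⟨v, hv⟩ := h₁'
    have e1 := congrArg (aeval β) hu
    have e2 := congrArg (aeval β) hv
    rw [hPk] at e1
    simp only [map_sub, map_mul, map_add, map_one, hβ, zero_mul] at e1 e2
    rw [e2] at e1
    linear_combination e1
  have a2 : ∀ β : K, aeval β (derivative b) = 0 → aeval β M = 1 := by
    intro β hβ
    by_cases h : aeval β b = 0
    · exact a1 β h
    obtain ⟨v, hv⟩ := h₂'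
    have e1 := congrArg (aeval β) hE
    rw [hPk, carlitz_add, carlitz_one, carlitz_mul, map_add, map_carlitz, hv, map_mul, hβ,
      zero_mul, carlitz_zero_right, add_zero, map_mul] at e1
    exact mul_left_cancel₀ h (by rw [← e1, mul_one])
  have key : ∀ g : F[X], (∀ β : K, aeval β g = 0 → aeval β M = 1) → ∏ i, aeval (α i) g =
      algebraMap F K (g.leadingCoeff ^ (2 * ((r * r + r) * b.natDegree))) ^ 2 := by
    intro g hg
    rw [recip ⟨2 * ((r * r + r) * b.natDegree), by ring⟩ α hMα, Multiset.prod_eq_one, map_pow]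
    · ring
    · intro x hx
      obtain ⟨β, hβ, rfl⟩ := Multiset.mem_map.1 hx
      exact hg β (by rw [← eval_map_algebraMap]; exact (mem_roots'.1 hβ).2)
  exact core h2 hθ hP hPi hM hi hE hD ⟨_, rfl⟩ α hα hMα
    (pow_ne_zero _ (leadingCoeff_ne_zero.2 hb0)) (key b a1) (key _ a2)

end Pool.Agent.MP_9b2bac_nt
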