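import Mathlib
import Pool.Agent.MP_9b2bac_nt.Periodic
import Pool.Agent.MP_9b2bac_nt.PntAp

set_option autoImplicit false

namespace Pool.Agent.MP_9b2bac_nt.KeptPeriodic

open Polynomial Finset Filter Topology Pool.Agent.MP_9b2bac_nt Pool.Agent.MP_9b2bac_nt.Pnt

theorem result (F : Type*) [Field F] [Fintype F] (h2 : ringChar F ≠ 2) (θ b : F[X])
    (hθ : derivative θ = 0) (hb : derivative b ≠ 0)
    (hdeg : θ.natDegree + b.natDegree < Fintype.card F * b.natDegree) :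
    ∃ c : ℝ, 0 < c ∧ ∃ d₀ : ℕ, ∀ d : ℕ, d₀ ≤ d → Even d →
      c * (Fintype.card F : ℝ) ^ d / d ≤
        {P : F[X] | P.Monic ∧ Irreducible P ∧ P.natDegree = d ∧ ∃ M₁ M₂ : F[X],
          0 < M₁.natDegree ∧ 0 < M₂.natDegree ∧ carlitz θ P b = b * (M₁ * M₂)}.ncard := by
  classical
  obtain ⟨m, hm, hper⟩ := periodic_composite F h2 θ b hθ hb hdeg
  have := finite_adj hm
  have : Fintype (AdjoinRoot m)ˣ := Fintype.ofFinite _
  have hq : (0 : ℝ) < Fintype.card F := by exact_mod_cast Fintype.card_pos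
  have hφ : (0 : ℝ) < Fintype.card (AdjoinRoot m)ˣ := by exact_mod_cast Fintype.card_pos
  have h1 : Tendsto (fun d : ℕ => ∑ c : (AdjoinRoot m)ˣ,
      (d * ((cnt m d c : ℝ) - cnt m d (1 : (AdjoinRoot m)ˣ))) / (Fintype.card F : ℝ) ^ d)
      atTop (𝓝 (∑ _c : (AdjoinRoot m)ˣ, 0)) :=
    tendsto_finsetSum _ fun c _ => tendsto_cnt_sub hm c 1
  rw [Finset.sum_const_zero] at h1
  obtain ⟨d₀, hd₀⟩ := eventually_atTop.1 ((h1.eventually (gt_mem_nhds (show (0 : ℝ) < 1 / 4 by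
    norm_num))).and (((tendsto_card_irr (F := F)).eventually
      (lt_mem_nhds (show (1 / 2 : ℝ) < 1 by norm_num))).and (eventually_gt_atTop m.natDegree)))
  refine ⟨1 / (4 * Fintype.card (AdjoinRoot m)ˣ), by positivity, d₀, fun d hd hev => ?_⟩
  obtain ⟨h3, h4, h5⟩ := hd₀ d hd
  have hd0 : (0 : ℝ) < d := by exact_mod_cast (show 0 < d by omega)
  have h6 : (irr F d).card ≤ ∑ c : (AdjoinRoot m)ˣ, cnt m d c := by
    unfold cnt
    refine le_trans (Finset.card_le_card fun P hP => ?_) card_biUnion_le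
    obtain ⟨-, hi, hdeg⟩ := mem_irr.1 hP
    obtain ⟨c, hc⟩ := isUnit_mk_iff.2 (hi.coprime_iff_not_dvd.2 fun h => by
      have := natDegree_le_of_dvd h hm; omega)
    exact mem_biUnion.2 ⟨c, mem_univ _, mem_filter.2 ⟨hP, hc.symm⟩⟩
  have h7 : cnt m d (1 : (AdjoinRoot m)ˣ) ≤
      {P : F[X] | P.Monic ∧ Irreducible P ∧ P.natDegree = d ∧ ∃ M₁ M₂ : F[X],
        0 < M₁.natDegree ∧ 0 < M₂.natDegree ∧ carlitz θ P b = b * (M₁ * M₂)}.ncard := by
    unfold cnt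
    rw [← Set.ncard_coe_finset]
    refine Set.ncard_le_ncard (fun P hP => ?_)
      ((finite_mon d).subset fun P hP => ⟨hP.1, hP.2.2.1⟩)
    obtain ⟨h8, h9⟩ := mem_filter.1 (mem_coe.1 hP)
    obtain ⟨hM, hi, hdeg⟩ := mem_irr.1 h8
    refine ⟨hM, hi, hdeg, hper P hM hi (hdeg ▸ hev) ?_⟩
    rwa [Units.val_one, ← map_one (AdjoinRoot.mk m), AdjoinRoot.mk_eq_mk] at h9
  refine le_trans ?_ (Nat.cast_le.2 h7)
  rw [← Finset.sum_div, ← Finset.mul_sum, Finset.sum_sub_distrib, Finset.sum_const, card_univ,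
    nsmul_eq_mul, div_lt_iff₀ (by positivity)] at h3
  rw [lt_div_iff₀ (by positivity)] at h4
  have h6' : ((irr F d).card : ℝ) ≤ ∑ c : (AdjoinRoot m)ˣ, (cnt m d c : ℝ) := by exact_mod_cast h6
  rw [div_le_iff₀ hd0, div_mul_eq_mul_div, div_le_iff₀ (by positivity)]
  nlinarith [mul_le_mul_of_nonneg_left h6' hd0.le]

end Pool.Agent.MP_9b2bac_nt.KeptPeriodic
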