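import Mathlib

/- The limit law of the number of prime factors of a given degree. -/

set_option autoImplicit false

namespace Pool.Agent.MP_9b2bac_nt

/-- The probability of exactly `k` prime factors of degree `n` for exponents of degree `d`:
none if `n < d`, one with probability `1 / d` if `n = d`, Poisson of mean `1 / n` if `n > d`. -/
noncomputable def plaw (d n k : ℕ) : ℝ :=
  if n < d then (if k = 0 then 1 else 0)
  else if n = d then (if k = 0 then 1 - 1 / (d : ℝ) else if k = 1 then 1 / (d : ℝ) else 0)
  else Real.exp (-1 / n) / (n ^ k * k.factorial)

end Pool.Agent.MP_9b2bac_nt
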