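import Mathlib
import Pool.Agent.MP_9b2bac_nt.YDefs
import Pool.Agent.MP_9b2bac_nt.ZRing

/- Blocks of letters of a cluster and admissible changes of words. -/

set_option autoImplicit false

namespace Pool.Agent.MP_9b2bac_nt.Z

variable {d : ℕ} {C C' : Finset (Fin d)} {s t r : Seq d}

/-- The letter `j` occurs in the block of letters of `C` that starts at position `i`. -/
def Occ (C : Finset (Fin d)) (s : Seq d) (i : ℤ) (j : Fin d) : Prop :=
  ∃ i', i ≤ i' ∧ s i' = j ∧ ∀ k, i ≤ k → k ≤ i' → s k ∈ C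

/-- Same letters outside `C`, same letters in every tail of every block. -/
def Adm (C : Finset (Fin d)) (s t : Seq d) : Prop :=
  ∀ i, (s i ∉ C → t i = s i) ∧ ∀ j, Occ C s i j ↔ Occ C t i j

/-- Every block ends. -/
def Term (C : Finset (Fin d)) (s : Seq d) : Prop := ∀ i : ℤ, ∃ m : ℕ, s (i + m) ∉ C

/-- The rest of the block after position `i` is unchanged. -/
def Kp (C : Finset (Fin d)) (s t : Seq d) (i : ℤ) : Prop :=
  ∀ i', i < i' → (∀ k, i ≤ k → k ≤ i' → s k ∈ C) → t i' = s i'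

/-- The word `1 2 ... (d-1) 0 ... 0` of period `n`. -/
def zd (d : ℕ) [NeZero d] (n : ℕ) : Seq d := fun i => L d (min (i % n).toNat (d - 1))

/-- The elements that fix all words having a period below `n`. -/
def lowD (I : Finset ℕ) (G : Type) [Group G] [MulAction G (W d I)] (n : ℕ) : Subgroup G where
  carrier := {g | ∀ m, m < n → ∀ w : W d I, Per m w.1 → g • w = w}
  mul_mem' := fun {a b} ha hb m h w hw => by rw [mul_smul, hb m h w hw, ha m h w hw]
  one_mem' := fun _ _ w _ => one_smul G w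
  inv_mem' := fun {a} ha m h w hw => by rw [inv_smul_eq_iff, ha m h w hw]

/-- Every active letter of a block can be replaced by every letter occurring later in the block,
without leaving or entering `O`. -/
def MvO (n : ℕ) (O : Set (Seq d)) (C : Finset (Fin d)) : Prop :=
  ∀ s i x, Prim n s → s i ∈ C → Occ C s (i + 1) (s i) → Occ C s (i + 1) x →
    ∃ t, Prim n t ∧ Adm C s t ∧ t i = x ∧ Kp C s t i ∧ (s ∈ O ↔ t ∈ O)

/-- The same moves inside a group acting on the words. -/
def MvG (I : Finset ℕ) (G : Type) [Group G] [MulAction G (W d I)] : Prop :=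
  ∀ (C : Finset (Fin d)) (w : W d I) (i : ℤ) (x : Fin d), C ≠ Finset.univ → w.1 i ∈ C →
    Occ C w.1 (i + 1) (w.1 i) → Occ C w.1 (i + 1) x →
    ∃ g : G, (∀ w' : W d I, Adm C w'.1 (g • w').1) ∧ (g • w).1 i = x ∧ Kp C w.1 (g • w).1 i

theorem Occ.mem {i : ℤ} {j : Fin d} (h : Occ C s i j) : s i ∈ C :=
  let ⟨_, h1, _, h3⟩ := h; h3 i le_rfl h1

theorem Occ.mem' {i : ℤ} {j : Fin d} (h : Occ C s i j) : j ∈ C :=
  let ⟨i', h1, h2, h3⟩ := h; h2 ▸ h3 i' h1 le_rfl

theorem occ_self {i : ℤ} (h : s i ∈ C) : Occ C s i (s i) :=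
  ⟨i, le_rfl, rfl, fun k h1 h2 => by rwa [le_antisymm h2 h1]⟩

theorem occ_iff {i : ℤ} {j : Fin d} : Occ C s i j ↔ s i ∈ C ∧ (s i = j ∨ Occ C s (i + 1) j) := by
  refine ⟨fun h => ⟨h.mem, ?_⟩, ?_⟩
  · obtain ⟨i', h1, h2, h3⟩ := h
    rcases h1.eq_or_lt with rfl | h4
    · exact .inl h2
    · exact .inr ⟨i', h4, h2, fun k a b => h3 k (by omega) b⟩
  · rintro ⟨h, rfl | ⟨i', h1, h2, h3⟩⟩
    · exact occ_self h
    · refine ⟨i', by omega, h2, fun k a b => ?_⟩
      rcases a.eq_or_lt with rfl | h4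
      · exact h
      · exact h3 k h4 b

theorem occ_shf {i a : ℤ} {j : Fin d} : Occ C (shf s a) i j ↔ Occ C s (i + a) j :=
  ⟨fun ⟨i', h1, h2, h3⟩ => ⟨i' + a, by omega, h2, fun k b c => by
      simpa [shf] using h3 (k - a) (by omega) (by omega)⟩,
    fun ⟨i', h1, h2, h3⟩ => ⟨i' - a, by omega, by simpa [shf] using h2, fun k b c =>
      h3 (k + a) (by omega) (by omega)⟩⟩

theorem Adm.refl (C : Finset (Fin d)) (s : Seq d) : Adm C s s := fun _ => ⟨fun _ => rfl, fun _ => Iff.rfl⟩

theorem Adm.mem_iff (h : Adm C s t) (i : ℤ) : t i ∈ C ↔ s i ∈ C :=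
  ⟨fun a => by_contra fun b => b ((h i).1 b ▸ a), fun a => (((h i).2 _).1 (occ_self a)).mem⟩

theorem Adm.symm (h : Adm C s t) : Adm C t s := fun i =>
  ⟨fun a => ((h i).1 fun b => a ((h.mem_iff i).2 b)).symm, fun j => ((h i).2 j).symm⟩

theorem Adm.trans (h : Adm C s t) (h' : Adm C t r) : Adm C s r := fun i =>
  ⟨fun a => ((h' i).1 fun b => a ((h.mem_iff i).1 b)).trans ((h i).1 a),
    fun j => ((h i).2 j).trans ((h' i).2 j)⟩

/-- A letter that does not occur later in its block is fixed. -/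
theorem Adm.fix (h : Adm C s t) {i : ℤ} (hi : ¬ Occ C s (i + 1) (s i)) : t i = s i := by
  by_cases a : s i ∈ C
  · rcases (occ_iff.1 (((h i).2 _).1 (occ_self a))).2 with b | b
    · exact b
    · exact absurd (((h (i + 1)).2 _).2 b) hi
  · exact (h i).1 a

theorem Adm.occ (h : Adm C s t) {i : ℤ} (hi : s i ∈ C) : Occ C s i (t i) :=
  ((h i).2 _).2 (occ_self ((h.mem_iff i).2 hi))

theorem Adm.mono (hC : C' ⊆ C) (h : Adm C' s t) : Adm C s t := by
  have key : ∀ {s t : Seq d}, Adm C' s t → ∀ i j, Occ C s i j → Occ C t i j := by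
    rintro s t h i j ⟨i', h1, h2, h3⟩
    have hm : ∀ k, s k ∈ C → t k ∈ C := fun k a => by
      by_cases b : s k ∈ C'
      · exact hC ((h.mem_iff k).2 b)
      · rwa [(h k).1 b]
    by_cases b : s i' ∈ C'
    · obtain ⟨i'', a1, a2, a3⟩ := ((h i').2 _).1 (occ_self b)
      refine ⟨i'', h1.trans a1, a2.trans h2, fun k c1 c2 => ?_⟩
      by_cases c : k ≤ i'
      · exact hm k (h3 k c1 c)
      · exact hC (a3 k (by omega) c2)
    · exact ⟨i', h1, ((h i').1 b).trans h2, fun k c1 c2 => hm k (h3 k c1 c2)⟩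
  refine fun i => ⟨fun a => (h i).1 fun b => a (hC b), fun j => ⟨key h i j, key h.symm i j⟩⟩

theorem Adm.shf (h : Adm C s t) (a : ℤ) : Adm C (shf s a) (shf t a) := fun i =>
  ⟨(h (i + a)).1, fun j => by rw [occ_shf, occ_shf]; exact (h (i + a)).2 j⟩

theorem Term.mono (hC : C' ⊆ C) (h : Term C s) : Term C' s := fun i =>
  let ⟨m, hm⟩ := h i; ⟨m, fun a => hm (hC a)⟩

theorem Term.adm (h : Term C s) (h' : Adm C s t) : Term C t := fun i =>
  let ⟨m, hm⟩ := h i; ⟨m, fun a => hm ((h'.mem_iff _).1 a)⟩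

theorem Term.shf (h : Term C s) (a : ℤ) : Term C (shf s a) := fun i =>
  let ⟨m, hm⟩ := h (i + a); ⟨m, by simpa [Z.shf, add_right_comm] using hm⟩

theorem Term.update (h : Term C s) (a : ℤ) (b : Fin d) : Term C (Function.update s a b) := by
  intro i
  obtain ⟨m, hm⟩ := h (max i (a + 1))
  refine ⟨(max i (a + 1) - i).toNat + m, ?_⟩
  rw [Function.update_of_ne (by omega)]
  rwa [show i + (((max i (a + 1) - i).toNat + m : ℕ) : ℤ) = max i (a + 1) + m by omega]

theorem Per.term {n : ℕ} (h : Per n s) (hC : C ≠ Finset.univ) : Term C s := by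
  obtain ⟨o, ho⟩ : ∃ o, o ∉ C := by
    by_contra hc
    push Not at hc
    exact hC (Finset.eq_univ_of_forall hc)
  intro i
  obtain ⟨x, rfl⟩ := h.2.2 o
  have hn : (0 : ℤ) < n := by exact_mod_cast h.1
  refine ⟨((x - i) % n).toNat, ?_⟩
  rwa [Int.toNat_of_nonneg (Int.emod_nonneg _ hn.ne'), ← h.zper _ ((x - i) / n), add_assoc,
    Int.emod_add_ediv_mul, add_sub_cancel]

/-- Markers are admissible for their two letters. -/
theorem mk_adm {u v : Fin d} (huv : u ≠ v) {j : ℕ} (hj : 1 ≤ j) (hs : Term {u, v} s) :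
    Adm {u, v} s (mk u v j s) := by
  have hm : ∀ i, mk u v j s i ∈ ({u, v} : Finset (Fin d)) ↔ s i ∈ ({u, v} : Finset (Fin d)) := by
    intro i
    unfold mk
    split_ifs
    · simp only [Finset.mem_insert, Finset.mem_singleton, Equiv.swap_apply_eq_iff,
        Equiv.swap_apply_left, Equiv.swap_apply_right, or_comm]
    · rfl
  have key : ∀ m : ℕ, ∀ i, s (i + m) ∉ ({u, v} : Finset (Fin d)) →
      ∀ a, Occ {u, v} s i a ↔ Occ {u, v} (mk u v j s) i a := by
    intro m
    induction m with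
    | zero =>
      intro i hi a
      rw [Nat.cast_zero, add_zero] at hi
      exact ⟨fun h => absurd h.mem hi, fun h => absurd ((hm i).1 h.mem) hi⟩
    | succ m ih =>
      intro i hi a
      have ih' := ih (i + 1) (by rwa [Nat.cast_succ, add_comm (m : ℤ), ← add_assoc] at hi)
      rw [occ_iff, occ_iff (s := mk u v j s), hm, ← ih']
      refine and_congr_right fun h0 => ?_
      by_cases hh : Hit u v j s i
      · have hk : ∀ k, i + 1 ≤ k → k ≤ i + j → s k = u := fun k a b => by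
          have := hh.1 (k - i).toNat (by omega) (by omega)
          rwa [show i + ((k - i).toNat : ℤ) = k by omega] at this
        have hu : Occ {u, v} s (i + 1) u := ⟨i + 1, le_rfl, hk _ le_rfl (by omega),
          fun k a b => by simp [hk k a (by omega)]⟩
        have hv : Occ {u, v} s (i + 1) v := ⟨i + j + 1, by omega, hh.2, fun k a b => by
          rcases b.eq_or_lt with rfl | c
          · simp [hh.2]
          · simp [hk k a (by omega)]⟩
        have : ∀ b ∈ ({u, v} : Finset (Fin d)), Occ {u, v} s (i + 1) b := fun b hb => by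
          simp only [Finset.mem_insert, Finset.mem_singleton] at hb
          rcases hb with rfl | rfl
          exacts [hu, hv]
        exact ⟨fun h => .inr (h.elim (fun e => this a (e ▸ h0)) id),
          fun h => .inr (h.elim (fun e => this a (e ▸ (hm i).2 h0)) id)⟩
      · rw [ZSweep.mk_not hh]
  refine fun i => ⟨fun a => ?_, let ⟨m, hm⟩ := hs i; key m i hm⟩
  simp only [Finset.mem_insert, Finset.mem_singleton, not_or] at a
  exact ZSweep.mk_oth a.1 a.2

end Pool.Agent.MP_9b2bac_nt.Z
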