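import Mathlib
import Pool.Agent.MP_9b2bac_nt.VDefs
import Pool.Agent.MP_9b2bac_nt.ZGal

/- The solutions attached to the blocks of a cluster. -/

set_option autoImplicit false

namespace Pool.Agent.MP_9b2bac_nt.Z

open Finset

variable {d : ℕ}

/-- Coefficients of the normal form of a cluster `C`. -/
structure Clu {R : Type} [CommRing R] (C : Finset (Fin d)) (lam : Fin d → R) (ε π : R)
    (t : Fin d → Fin d → R) : Prop where
  mem : ∀ j k, j ∈ C → k ∈ C → j ≠ k → (lam j - lam k) * t j k = ε
  out : ∀ j k, ¬(j ∈ C ∧ k ∈ C) → t j k = 0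
  dvd : ∀ j k, j ≠ k → π ∣ t j k
  haus : ∀ x : R, (∀ n, π ^ n ∣ x) → x = 0
  inj : Function.Injective lam
  eps : ε ≠ 0

/-- A state `w` with root `x` above the state `w'`. -/
structure Stp {R : Type} [CommRing R] (C : Finset (Fin d)) (lam : Fin d → R) (ε : R)
    (w' : Fin d → R) (x : R) (w : Fin d → R) : Prop where
  step : ∀ j ∈ C, ε * w' j = (lam j - x) * w j
  out : ∀ j, j ∉ C → w j = 0
  sum : ∑ j, w j = 1

/-- The polynomial whose roots lie above the state `w'`. -/
noncomputable def GP {R : Type} [CommRing R] (C : Finset (Fin d)) (lam : Fin d → R) (ε : R)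
    (w' : Fin d → R) : Polynomial R :=
  ∏ j ∈ C, (Polynomial.X - Polynomial.C (lam j)) + Polynomial.C ε *
    ∑ j ∈ C, Polynomial.C (w' j) * ∏ k ∈ C.erase j, (Polynomial.X - Polynomial.C (lam k))

section Abs

variable {R : Type} [CommRing R] {C : Finset (Fin d)} {lam : Fin d → R} {ε π : R}
  {t : Fin d → Fin d → R} {w : Seq d → Fin d → R} {ξ : Seq d → R} {s s' : Seq d}

theorem Stp.map {R' : Type} [CommRing R'] (f : R →+* R') {a b : Fin d → R} {x : R}
    (h : Stp C lam ε a x b) :
    Stp C (fun j => f (lam j)) (f ε) (fun j => f (a j)) (f x) (fun j => f (b j)) where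
  step j hj := by simpa using congrArg f (h.step j hj)
  out j hj := by simp [h.out j hj]
  sum := by rw [← map_sum, h.sum, map_one]

theorem Stp.sumC {a b : Fin d → R} {x : R} (h : Stp C lam ε a x b) : ∑ j ∈ C, b j = 1 := by
  rw [← h.sum]; exact sum_subset (subset_univ _) fun j _ hj => h.out j hj

theorem Stp.root {a b : Fin d → R} {x : R} (h : Stp C lam ε a x b) :
    (GP C lam ε a).eval x = 0 := by
  simp only [GP, Polynomial.eval_add, Polynomial.eval_mul, Polynomial.eval_prod,
    Polynomial.eval_finset_sum, Polynomial.eval_sub, Polynomial.eval_X, Polynomial.eval_C, mul_sum]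
  rw [sum_congr rfl (g := fun j => -(b j * ∏ k ∈ C, (x - lam k))) fun j hj => by
    rw [← mul_prod_erase C _ hj, ← mul_assoc, h.step j hj]; ring, sum_neg_distrib, ← sum_mul,
    h.sumC]
  ring

theorem Stp.x_eq {a b : Fin d → R} {x : R} (h : Stp C lam ε a x b) :
    x = ∑ j ∈ C, lam j * b j - ε * ∑ j ∈ C, a j := by
  have h1 : ∑ j ∈ C, ε * a j = ∑ j ∈ C, (lam j - x) * b j := sum_congr rfl h.step
  simp only [sub_mul, sum_sub_distrib, ← mul_sum, h.sumC] at h1
  linear_combination h1

theorem Stp.det [IsDomain R] (hl : Function.Injective lam) {a b b' : Fin d → R} {x : R}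
    (h : Stp C lam ε a x b) (h' : Stp C lam ε a x b') : b = b' := by
  have h1 : ∀ j, lam j ≠ x → b j = b' j := fun j hj => by
    by_cases hC : j ∈ C
    · exact mul_left_cancel₀ (sub_ne_zero.2 hj) ((h.step j hC).symm.trans (h'.step j hC))
    · rw [h.out j hC, h'.out j hC]
  funext j
  by_cases hj : lam j = x
  · have e := h.sum.trans h'.sum.symm
    rw [← add_sum_erase _ _ (mem_univ j), ← add_sum_erase _ b' (mem_univ j),
      sum_congr rfl fun k hk => h1 k fun e => ne_of_mem_erase hk (hl (e.trans hj.symm))] at e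
    exact add_right_cancel e
  · exact h1 j hj

theorem GP_map {R' : Type} [CommRing R'] (f : R →+* R') (a : Fin d → R) :
    (GP C lam ε a).map f = GP C (fun j => f (lam j)) (f ε) (fun j => f (a j)) := by
  simp [GP, Polynomial.map_prod, Polynomial.map_sum]

theorem GP_congr {a b : Fin d → R} (h : ∀ j ∈ C, a j = b j) : GP C lam ε a = GP C lam ε b := by
  unfold GP
  rw [sum_congr rfl fun j hj => by rw [h j hj]]

theorem GP_monic [Nontrivial R] (a : Fin d → R) :
    (GP C lam ε a).Monic ∧ (GP C lam ε a).natDegree = #C := by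
  have hm : ∀ D : Finset (Fin d), (∏ j ∈ D, (Polynomial.X - Polynomial.C (lam j))).Monic :=
    fun D => Polynomial.monic_prod_of_monic _ _ fun _ _ => Polynomial.monic_X_sub_C _
  have hd : ∀ D : Finset (Fin d), (∏ j ∈ D, (Polynomial.X - Polynomial.C (lam j))).natDegree = #D :=
    fun D => by rw [Polynomial.natDegree_prod_of_monic _ _ fun _ _ => Polynomial.monic_X_sub_C _]; simp
  have hlt : (Polynomial.C ε * ∑ j ∈ C, Polynomial.C (a j) *
      ∏ k ∈ C.erase j, (Polynomial.X - Polynomial.C (lam k))).degree <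
      (∏ j ∈ C, (Polynomial.X - Polynomial.C (lam j))).degree := by
    rw [Polynomial.degree_eq_natDegree (hm C).ne_zero, hd, mul_sum]
    refine (Polynomial.degree_sum_le _ _).trans_lt
      ((Finset.sup_lt_iff (WithBot.bot_lt_coe _)).2 fun j hj => ?_)
    rw [← mul_assoc, ← Polynomial.C_mul]
    refine Polynomial.degree_le_natDegree.trans_lt ?_
    exact_mod_cast (Polynomial.natDegree_C_mul_le _ _).trans_lt
      (by rw [hd]; exact card_erase_lt_of_mem hj)
  exact ⟨(hm C).add_of_left hlt, (Polynomial.natDegree_add_eq_left_of_degree_lt hlt).trans (hd C)⟩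

variable [IsDomain R] (h : Clu C lam ε π t) (nf : NF t w ξ)
include h nf

theorem Clu.out_val (hs : s 0 ∉ C) (j : Fin d) : w s j = if j = s 0 then 1 else 0 := by
  have h1 : ∀ j, j ≠ s 0 → w s j = 0 := fun j hj => by
    rw [nf.off s j hj, h.out j _ fun e => hs e.2, zero_mul]
  split_ifs with hj
  · rw [hj, nf.diag_eq, sum_eq_zero fun j hj => h1 j (ne_of_mem_erase hj), sub_zero]
  · exact h1 j hj

theorem Clu.stp (hs : s 0 ∈ C) : Stp C lam ε (w (sh s)) (lam (s 0) + ε * ξ s) (w s) where
  step j hC := by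
    by_cases hj : j = s 0
    · rw [hj]; linear_combination ε * nf.diag s
    · linear_combination (-(lam j - lam (s 0))) * nf.off s j hj -
        (w (sh s) j + ξ s * w s j) * h.mem j (s 0) hC hs hj
  out j hj := by rw [nf.off s j fun e => hj (e ▸ hs), h.out j _ fun e => hj e.1, zero_mul]
  sum := nf.sum s

theorem Clu.const (s : Seq d) (j : Fin d) : π ∣ w s j - if j = s 0 then 1 else 0 := by
  have h1 : ∀ j, j ≠ s 0 → π ∣ w s j := fun j hj => by
    rw [nf.off s j hj]; exact (h.dvd _ _ hj).mul_right _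
  split_ifs with hj
  · rw [hj, nf.diag_eq, sub_sub_cancel_left, dvd_neg]
    exact dvd_sum fun j hj => h1 j (ne_of_mem_erase hj)
  · rw [sub_zero]; exact h1 j hj

omit nf in
theorem Clu.nu : ¬ π ∣ 1 := fun e =>
  one_ne_zero (h.haus 1 fun n => by simpa using pow_dvd_pow_of_dvd e n)

theorem Clu.zero_eq (e : w s = w s') : s 0 = s' 0 := by
  by_contra hc
  have h1 := h.const nf s (s 0)
  have h2 := h.const nf s' (s 0)
  rw [if_pos rfl, e] at h1
  rw [if_neg hc] at h2
  exact h.nu (by simpa using dvd_sub h2 h1)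

theorem Clu.x_ne {a b : Fin d} (ha : a ∈ C) (hb : b ∈ C) (hab : a ≠ b) (x y : R) :
    lam a + ε * x ≠ lam b + ε * y := fun e => by
  have h1 : (lam a - lam b) * (1 + t a b * (x - y)) = 0 := by
    linear_combination e + (x - y) * h.mem a b ha hb hab
  have h2 := (mul_eq_zero.1 h1).resolve_left (sub_ne_zero.2 fun e => hab (h.inj e))
  exact h.nu (by
    rw [show (1 : R) = t a b * (y - x) by linear_combination h2]
    exact (h.dvd a b hab).mul_right _)

theorem Clu.step_eq (e0 : s 0 = s' 0) (e : ∀ j ∈ C, w (sh s) j = w (sh s') j) :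
    w s = w s' ∧ (s 0 ∈ C → ξ s = ξ s') := by
  by_cases hs : s 0 ∈ C
  swap
  · exact ⟨funext fun j => by rw [h.out_val nf hs, h.out_val nf (e0 ▸ hs), e0], fun a => absurd a hs⟩
  have key : ∀ n, (∀ j, π ^ n ∣ w s j - w s' j) ∧ π ^ n ∣ ξ s - ξ s' := by
    intro n
    induction n with
    | zero => simp
    | succ n ih =>
      have h1 : ∀ j, j ≠ s 0 → π ^ (n + 1) ∣ w s j - w s' j := by
        intro j hj
        by_cases hC : j ∈ C
        · have a := nf.off s' j (e0 ▸ hj)
          rw [← e0, ← e j hC] at a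
          have : w s j - w s' j = t j (s 0) * (ξ s * (w s j - w s' j) + (ξ s - ξ s') * w s' j) := by
            linear_combination nf.off s j hj - a
          rw [this, pow_succ']
          exact mul_dvd_mul (h.dvd _ _ hj) (dvd_add ((ih.1 _).mul_left _) (ih.2.mul_right _))
        · rw [(h.stp nf hs).out j hC, (h.stp nf (e0 ▸ hs)).out j hC]; simp
      have h2 : π ^ (n + 1) ∣ w s (s 0) - w s' (s 0) := by
        have a := nf.diag_eq s'
        rw [← e0] at a
        rw [a, nf.diag_eq s, sub_sub_sub_cancel_left, ← sum_sub_distrib]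
        exact dvd_sum fun j hj => dvd_sub_comm.1 (h1 j (ne_of_mem_erase hj))
      refine ⟨fun j => by by_cases hj : j = s 0; exacts [hj ▸ h2, h1 j hj], ?_⟩
      have a := nf.diag s'
      rw [← e0, ← e _ hs] at a
      have b := h.const nf s (s 0)
      rw [if_pos rfl] at b
      have : ξ s - ξ s' = -((ξ s - ξ s') * (w s (s 0) - 1)) - ξ s' * (w s (s 0) - w s' (s 0)) := by
        linear_combination nf.diag s - a
      rw [this, pow_succ]
      exact dvd_sub (dvd_neg.2 (mul_dvd_mul ih.2 b)) (by rw [← pow_succ]; exact h2.mul_left _)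
  exact ⟨funext fun j => sub_eq_zero.1 (h.haus _ fun n => (key n).1 j),
    fun _ => sub_eq_zero.1 (h.haus _ fun n => (key n).2)⟩

theorem Clu.loc (m : ℕ) (e : ∀ k : ℕ, k ≤ m → s k = s' k) (hs : s (m + 1) ∉ C)
    (hs' : s' (m + 1) ∉ C) : w s = w s' ∧ (s 0 ∈ C → ξ s = ξ s') := by
  induction m generalizing s s' with
  | zero =>
    refine h.step_eq nf (by simpa using e 0 le_rfl) fun j hj => ?_
    have a : sh s 0 ∉ C := by simpa [sh] using hs
    have b : sh s' 0 ∉ C := by simpa [sh] using hs'
    rw [h.out_val nf a, h.out_val nf b, if_neg fun e : j = sh s 0 => a (e ▸ hj),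
      if_neg fun e : j = sh s' 0 => b (e ▸ hj)]
  | succ m ih =>
    have := ih (s := sh s) (s' := sh s') (fun k hk => by simpa [sh] using e (k + 1) (by omega))
      (by simpa [sh] using hs) (by simpa [sh] using hs')
    exact h.step_eq nf (by simpa using e 0 (by omega)) fun j _ => by rw [this.1]

theorem Clu.sh_update (hs : Term C s) (b : Fin d) :
    w (sh (Function.update s 0 b)) = w (sh s) := by
  obtain ⟨m, hm⟩ := hs 2
  have a : ∀ k : ℤ, 0 ≤ k → sh (Function.update s 0 b) k = sh s k := fun k hk =>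
    Function.update_of_ne (by omega) _ _
  have c : sh s (m + 1) ∉ C := by rwa [sh, show (m : ℤ) + 1 + 1 = 2 + m by ring]
  exact (h.loc nf m (fun k _ => a k (by omega)) (by rwa [a _ (by omega)]) c).1

theorem Clu.stp_update (hs : Term C s) {b : Fin d} (hb : b ∈ C) : Stp C lam ε (w (sh s))
    (lam b + ε * ξ (Function.update s 0 b)) (w (Function.update s 0 b)) := by
  have := h.stp nf (s := Function.update s 0 b) (by simpa using hb)
  rwa [h.sh_update nf hs, Function.update_self] at this

theorem Clu.fac (hs : Term C s) : GP C lam ε (w (sh s)) =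
    ∏ b ∈ C, (Polynomial.X - Polynomial.C (lam b + ε * ξ (Function.update s 0 b))) := by
  have hm : (∏ b ∈ C, (Polynomial.X - Polynomial.C (lam b + ε * ξ (Function.update s 0 b)))).Monic :=
    Polynomial.monic_prod_of_monic _ _ fun _ _ => Polynomial.monic_X_sub_C _
  have hd : (∏ b ∈ C, (Polynomial.X - Polynomial.C (lam b + ε * ξ (Function.update s 0 b)))).natDegree
      = #C := by
    rw [Polynomial.natDegree_prod_of_monic _ _ fun _ _ => Polynomial.monic_X_sub_C _]
    simp only [Polynomial.natDegree_X_sub_C, sum_const, smul_eq_mul, mul_one]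
  obtain ⟨g1, g2⟩ := GP_monic (C := C) (lam := lam) (ε := ε) (w (sh s))
  refine Polynomial.eq_of_degree_sub_lt_of_eval_index_eq C
    (v := fun b => lam b + ε * ξ (Function.update s 0 b))
    (fun a ha b hb e => by_contra fun c => h.x_ne nf ha hb c _ _ e) ?_ fun b hb => ?_
  · rw [← g2, ← Polynomial.degree_eq_natDegree g1.ne_zero]
    refine Polynomial.degree_sub_lt ?_ g1.ne_zero (g1.leadingCoeff.trans hm.leadingCoeff.symm)
    rw [Polynomial.degree_eq_natDegree g1.ne_zero, Polynomial.degree_eq_natDegree hm.ne_zero, g2, hd]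
  · rw [(h.stp_update nf hs hb).root, Polynomial.eval_prod, prod_eq_zero hb (by simp)]

theorem Clu.occ (hs : Term C s) (j : Fin d) (hj : j ∈ C) : w s j ≠ 0 ↔ Occ C s 0 j := by
  obtain ⟨m, hm⟩ := hs 0
  rw [zero_add] at hm
  clear hs
  have h0 : ∀ s : Seq d, s 0 ∉ C → (w s j ≠ 0 ↔ Occ C s 0 j) := fun s a => by
    rw [h.out_val nf a, if_neg fun e : j = s 0 => a (e ▸ hj)]
    exact ⟨fun b => absurd rfl b, fun b => absurd b.mem a⟩
  induction m generalizing s with
  | zero => exact h0 s hm
  | succ m ih =>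
    by_cases a : s 0 ∈ C
    swap
    · exact h0 s a
    rw [occ_iff]
    by_cases b : s 0 = j
    · refine iff_of_true (fun e => h.nu ?_) ⟨a, .inl b⟩
      simpa [e, b] using h.const nf s j
    have c := (h.stp nf a).step j hj
    have c' : lam j - (lam (s 0) + ε * ξ s) ≠ 0 :=
      sub_ne_zero.2 (by simpa using h.x_ne nf hj a (Ne.symm b) 0 (ξ s))
    have i1 : w (sh s) j ≠ 0 ↔ Occ C (sh s) 0 j := ih (s := sh s) (by simpa [sh] using hm)
    have i2 : Occ C (sh s) 0 j ↔ Occ C s (0 + 1) j := occ_shf (s := s) (a := 1)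
    rw [← i2, ← i1]
    simp only [a, b, true_and, false_or]
    refine not_congr ⟨fun e => ?_, fun e => ?_⟩
    · rw [e, mul_zero] at c; exact (mul_eq_zero.1 c).resolve_left h.eps
    · rw [e, mul_zero] at c; exact (mul_eq_zero.1 c.symm).resolve_left c'

theorem Clu.fw (e : w s = w s') (h0 : s 0 ∈ C) (h1 : s 1 ∈ C) (h1' : s' 1 ∈ C) :
    w (sh s) = w (sh s') := by
  have e0 := h.zero_eq nf e
  have a := h.stp nf h0
  have b := h.stp nf (e0 ▸ h0)
  have a1 := h.stp nf (s := sh s) (by simpa [sh] using h1)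
  have b1 := h.stp nf (s := sh s') (by simpa [sh] using h1')
  have x := a.x_eq
  have y := b.x_eq
  rw [a1.sumC] at x
  rw [b1.sumC, ← e, ← x] at y
  rw [y, ← e] at b
  funext j
  by_cases hj : j ∈ C
  · exact mul_left_cancel₀ h.eps ((a.step j hj).trans (b.step j hj).symm)
  · rw [a1.out j hj, b1.out j hj]

end Abs

variable (A : Type) [CommRing A] [IsDomain A]

/-- The coefficients of the generic cluster. -/
noncomputable def tC (C : Finset (Fin d)) (j k : Fin d) : PowerSeries (BB A d) :=
  if j ∈ C ∧ k ∈ C then t0 A j k else 0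

theorem tC_dvd (C : Finset (Fin d)) (j k : Fin d) (h : j ≠ k) : PowerSeries.X ∣ tC A C j k := by
  unfold tC; split_ifs
  exacts [t0_dvd A j k h, dvd_zero _]

/-- The generic solution of a cluster. -/
noncomputable def wC (C : Finset (Fin d)) : Seq d → Fin d → PowerSeries (BB A d) :=
  (exists_NF (tC A C) (tC_dvd A C)).choose

/-- The generic solution of a cluster. -/
noncomputable def xiC (C : Finset (Fin d)) : Seq d → PowerSeries (BB A d) :=
  (exists_NF (tC A C) (tC_dvd A C)).choose_spec.choose

theorem nfC (C : Finset (Fin d)) : NF (tC A C) (wC A C) (xiC A C) :=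
  (exists_NF (tC A C) (tC_dvd A C)).choose_spec.choose_spec

theorem cluC (C : Finset (Fin d)) : Clu C (fun j => PowerSeries.C (lB A j)) PowerSeries.X
    PowerSeries.X (tC A C) where
  mem j k hj hk e := by rw [tC, if_pos ⟨hj, hk⟩, t0_spec A j k e]
  out j k e := if_neg e
  dvd := tC_dvd A C
  haus x hx := PowerSeries.ext fun n => by
    simpa using PowerSeries.X_pow_dvd_iff.1 (hx (n + 1)) n (by omega)
  inj j k e := by_contra fun c =>
    (lB_unit (A := A) c).ne_zero (sub_eq_zero.2 (PowerSeries.C_injective e))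
  eps := PowerSeries.X_ne_zero

theorem wC_univ : wC A (univ : Finset (Fin d)) = w0 A := by
  have e : tC A (univ : Finset (Fin d)) = t0 A := by funext j k; simp [tC]
  exact (NF.unique PowerSeries.X (cluC A (univ : Finset (Fin d))).haus (t0_dvd A)
    (e ▸ nfC A univ) (nf0 A)).1

/-- The ring generated by the solutions of a cluster. -/
noncomputable def RC (C : Finset (Fin d)) :
    Subalgebra (Polynomial (AA A d)) (PowerSeries (BB A d)) :=
  Algebra.adjoin _ (Set.range fun p : Seq d × Fin d => wC A C p.1 p.2)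

/-- The generators. -/
noncomputable def zC (C : Finset (Fin d)) (s : Seq d) (j : Fin d) : RC A C :=
  ⟨wC A C s j, Algebra.subset_adjoin ⟨(s, j), rfl⟩⟩

/-- Automorphisms over the generic roots and the scaling variable. -/
abbrev Gam (d : ℕ) := Om A d ≃ₐ[Polynomial (AA A d)] Om A d

/-- The states in the big field. -/
noncomputable def st (C : Finset (Fin d)) (s : Seq d) (j : Fin d) : Om A d := io A d (wC A C s j)

variable {A}

/-- `γ` maps the states of the word `s` to the states of the word `t`. -/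
def Act (C : Finset (Fin d)) (γ : Gam A d) (s t : Seq d) : Prop :=
  ∀ i j, γ (st A C (shf s i) j) = st A C (shf t i) j

variable {C : Finset (Fin d)} {γ δ : Gam A d} {s t r s' t' : Seq d}

theorem shf_shf (s : Seq d) (a i : ℤ) : Z.shf (Z.shf s a) i = Z.shf s (i + a) :=
  funext fun k => congrArg s (add_assoc _ _ _)

theorem gam_X (γ : Gam A d) : γ (io A d PowerSeries.X) = io A d PowerSeries.X := by
  rw [← alg_X, ← IsScalarTower.algebraMap_apply]; exact γ.commutes _

theorem gam_l (γ : Gam A d) (j : Fin d) :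
    γ (io A d (PowerSeries.C (lB A j))) = io A d (PowerSeries.C (lB A j)) := by
  rw [lB, ← alg_C, ← IsScalarTower.algebraMap_apply]; exact γ.commutes _

theorem st_inj (e : ∀ j, st A C s j = st A C t j) : wC A C s = wC A C t :=
  funext fun j => io_inj (e j)

theorem gam_out (γ : Gam A d) (hs : s 0 ∉ C) (j : Fin d) : γ (st A C s j) = st A C s j := by
  rw [st, (cluC A C).out_val (nfC A C) hs]
  split_ifs <;> simp

theorem alg_wC (hs : Term C s) (j : Fin d) : IsAlgebraic (Polynomial (AA A d)) (wC A C s j) := by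
  obtain ⟨m, hm⟩ := hs 0
  rw [zero_add] at hm
  clear hs
  have h := cluC A C
  have nf := nfC A C
  have h0 : ∀ s : Seq d, s 0 ∉ C → ∀ j, IsAlgebraic (Polynomial (AA A d)) (wC A C s j) :=
    fun s a j => by
      rw [h.out_val nf a]; split_ifs
      exacts [isAlgebraic_one, isAlgebraic_zero]
  induction m generalizing s j with
  | zero => exact h0 s hm j
  | succ m ih =>
    by_cases a : s 0 ∈ C
    swap
    · exact h0 s a j
    have i1 : ∀ j, IsAlgebraic (Polynomial (AA A d)) (wC A C (sh s) j) := fun j =>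
      ih (s := sh s) j (by simpa [sh] using hm)
    let T := Subalgebra.algebraicClosure (Polynomial (AA A d)) (PowerSeries (BB A d))
    have hX : PowerSeries.X ∈ T := alg_X (A := A) (d := d) ▸ T.algebraMap_mem _
    have hl : ∀ j, PowerSeries.C (lB A j) ∈ T := fun j => by
      rw [lB, ← alg_C]; exact T.algebraMap_mem _
    have b := h.stp nf a
    set x := PowerSeries.C (lB A (s 0)) + PowerSeries.X * xiC A C s with hx
    have c : x ∈ T := by
      refine IsIntegral.trans_isAlgebraic (S := T) _ ⟨GP C (fun j => ⟨_, hl j⟩) ⟨_, hX⟩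
        fun j => ⟨_, i1 j⟩, (GP_monic _).1, ?_⟩
      rw [← Polynomial.eval_map, GP_map]
      exact b.root
    have h1 : ∀ j, j ≠ s 0 → wC A C s j ∈ T := fun j hj => by
      by_cases hC : j ∈ C
      · have c' : PowerSeries.C (lB A j) - x ≠ 0 :=
          sub_ne_zero.2 (by simpa using h.x_ne nf hC a hj 0 (xiC A C s))
        exact IsAlgebraic.of_mul (mem_nonZeroDivisors_of_ne_zero c') (T.sub_mem (hl j) c)
          (b.step j hC ▸ T.mul_mem hX (i1 j))
      · rw [b.out j hC]; exact T.zero_mem
    by_cases hj : j = s 0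
    · rw [hj, nf.diag_eq]
      exact T.sub_mem T.one_mem (T.sum_mem fun j hj => h1 j (ne_of_mem_erase hj))
    · exact h1 j hj

theorem exists_actC (γ : Gam A d) (hs : Term C s) : ∃ t, Act C γ s t := by
  classical
  have h := cluC A C
  have nf := nfC A C
  let t : Seq d := fun i =>
    if e : ∃ u, ∀ j, γ (st A C (Z.shf s i) j) = st A C u j then e.choose 0 else s i
  have k1 : ∀ i u, (∀ j, γ (st A C (Z.shf s i) j) = st A C u j) → t i = u 0 := fun i u e => by
    have e' : ∃ u, ∀ j, γ (st A C (Z.shf s i) j) = st A C u j := ⟨u, e⟩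
    simp only [t, dif_pos e']
    exact h.zero_eq nf (st_inj fun j => (e'.choose_spec j).symm.trans (e j))
  have k2 : ∀ i, s i ∉ C → t i = s i := fun i a =>
    (k1 i _ (gam_out γ (by simpa using a))).trans (by simp)
  have ht : Term C t := fun i => let ⟨m, hm⟩ := hs i; ⟨m, by rwa [k2 _ hm]⟩
  have h0 : ∀ i, s i ∉ C → ∀ j, γ (st A C (Z.shf s i) j) = st A C (Z.shf t i) j := fun i a j => by
    rw [gam_out γ (by simpa using a), st, st, h.out_val nf (by simpa using a),
      h.out_val nf (by simpa [k2 i a] using a)]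
    simp [k2 i a]
  have key : ∀ m : ℕ, ∀ i, s (i + m) ∉ C →
      ∀ j, γ (st A C (Z.shf s i) j) = st A C (Z.shf t i) j := by
    intro m
    induction m with
    | zero => exact fun i a => h0 i (by simpa using a)
    | succ m ih =>
      intro i a
      by_cases b : s i ∈ C
      swap
      · exact h0 i b
      have i1 := ih (i + 1) (by rwa [Nat.cast_succ, add_comm (m : ℤ), ← add_assoc] at a)
      have c := ((h.stp nf (s := Z.shf s i) (by simpa using b)).map (io A d)).map
        (γ : Om A d →+* Om A d)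
      simp only [sh_shf, RingHom.coe_coe, gam_X, gam_l] at c
      have i2 : (fun j => γ (io A d (wC A C (Z.shf s (i + 1)) j))) =
        fun j => io A d (wC A C (sh (Z.shf t i)) j) := funext fun j => by rw [sh_shf]; exact i1 j
      rw [i2] at c
      have r := c.root
      rw [← GP_map, h.fac nf (ht.shf i), Polynomial.map_prod, Polynomial.eval_prod,
        prod_eq_zero_iff] at r
      obtain ⟨x, hx, r⟩ := r
      rw [Polynomial.map_sub, Polynomial.map_X, Polynomial.map_C, Polynomial.eval_sub,
        Polynomial.eval_X, Polynomial.eval_C, sub_eq_zero] at r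
      rw [r] at c
      have e := congrFun (Stp.det (io_inj.comp h.inj) c
        ((h.stp_update nf (ht.shf i) hx).map (io A d)))
      have f := k1 i _ e
      rw [Function.update_self] at f
      rw [← f, ← shf_apply_zero t i, Function.update_eq_self] at e
      exact e
  exact ⟨t, fun i => let ⟨m, hm⟩ := hs i; key m i hm⟩

theorem Act.adm (hs : Term C s) (h : Act C γ s t) : Adm C s t := by
  have hc := cluC A C
  have nf := nfC A C
  have k2 : ∀ i, s i ∉ C → t i = s i := fun i a => by
    simpa using hc.zero_eq nf (st_inj fun j => (h i j).symm.trans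
      (gam_out (s := Z.shf s i) γ (by simpa using a) j))
  have ht : Term C t := fun i => let ⟨m, hm⟩ := hs i; ⟨m, by rwa [k2 _ hm]⟩
  refine fun i => ⟨k2 i, fun j => ?_⟩
  by_cases hj : j ∈ C
  · have a := hc.occ nf (hs.shf i) j hj
    have b := hc.occ nf (ht.shf i) j hj
    rw [occ_shf, zero_add] at a b
    rw [← a, ← b, ← map_ne_zero_iff _ (io_inj (A := A) (d := d)), ← map_ne_zero_iff γ γ.injective,
      ← map_ne_zero_iff (x := wC A C (Z.shf t i) j) _ (io_inj (A := A) (d := d))]
    exact iff_of_eq (congrArg (· ≠ 0) (h i j))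
  · exact iff_of_false (fun a => hj a.mem') fun a => hj a.mem'

theorem Act.refl (C : Finset (Fin d)) (s : Seq d) : Act C (1 : Gam A d) s s := fun _ _ => rfl

theorem Act.symm (h : Act C γ s t) : Act C γ⁻¹ t s := fun i j =>
  (AlgEquiv.symm_apply_eq γ).2 (h i j).symm

theorem Act.trans (h : Act C γ s t) (h' : Act C δ t r) : Act C (δ * γ) s r := fun i j => by
  rw [AlgEquiv.mul_apply, h, h']

theorem Act.shf (h : Act C γ s t) (a : ℤ) : Act C γ (Z.shf s a) (Z.shf t a) := fun i j => by
  rw [shf_shf, shf_shf, h]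

theorem Act.eq (h : Act C γ s t) (h' : Act C γ s' t') {i i' : ℤ}
    (e : wC A C (Z.shf s i) = wC A C (Z.shf s' i')) : t i = t' i' := by
  simpa using (cluC A C).zero_eq (nfC A C) (s := Z.shf t i) (s' := Z.shf t' i')
    (st_inj fun j => by rw [← h i j, ← h' i' j, st, st, e])

/-- Locality: words with the same block have images with the same block. -/
theorem Act.loc (h : Act C γ s t) (h' : Act C γ s' t') (i : ℤ) (m : ℕ)
    (e : ∀ k : ℕ, k ≤ m → s (i + k) = s' (i + k)) (hs : s (i + m + 1) ∉ C)
    (hs' : s' (i + m + 1) ∉ C) : t i = t' i :=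
  h.eq h' ((cluC A C).loc (nfC A C) m (fun k hk => by simpa [Z.shf, add_comm] using e k hk)
    (by rwa [Z.shf, show (m : ℤ) + 1 + i = i + m + 1 by ring])
    (by rwa [Z.shf, show (m : ℤ) + 1 + i = i + m + 1 by ring])).1

theorem Act.of_eq (h : Act C γ s t) (hs : Term C s) (e : ∀ j, γ (st A C s j) = st A C s' j)
    (i : ℕ) (hi : ∀ k : ℕ, k ≤ i → s k ∈ C ∧ s' k ∈ C) : t i = s' i := by
  have a := h.adm hs
  have key : ∀ k : ℕ, k ≤ i → wC A C (Z.shf t k) = wC A C (Z.shf s' k) := by
    intro k
    induction k with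
    | zero => exact fun _ => st_inj fun j => by simpa using (h 0 j).symm.trans (by simpa using e j)
    | succ k ih =>
      intro hk
      have := (cluC A C).fw (nfC A C) (ih (by omega))
        (by simpa using (a.mem_iff _).2 (hi k (by omega)).1)
        (by simpa [Z.shf, add_comm] using (a.mem_iff _).2 (hi (k + 1) hk).1)
        (by simpa [Z.shf, add_comm] using (hi (k + 1) hk).2)
      simpa only [sh_shf, Nat.cast_succ] using this
  simpa using (cluC A C).zero_eq (nfC A C) (key i le_rfl)

end Pool.Agent.MP_9b2bac_nt.Z
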