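import Mathlib
import Pool.Agent.MP_9b2bac_nt.VTree
import Pool.Agent.MP_9b2bac_nt.ZTree1
import Pool.Agent.MP_9b2bac_nt.ZMark

/- Extension of isomorphisms between subrings, and specialisation of the solutions of a cluster. -/

set_option autoImplicit false

namespace Pool.Agent.MP_9b2bac_nt.Z

open PowerSeries

variable {d : ℕ} {A : Type} [CommRing A] [IsDomain A]

theorem vext_two {P D Ω : Type} [CommRing P] [IsDomain P] [CommRing D] [IsDomain D] [Field Ω]
    [IsAlgClosed Ω] [Algebra P D] [Algebra.IsAlgebraic P D]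
    (hP : Function.Injective (algebraMap P D)) (f g : D →+* Ω) (hf : Function.Injective f)
    (hg : Function.Injective g) (h : ∀ p, f (algebraMap P D p) = g (algebraMap P D p)) :
    ∃ γ : Ω ≃+* Ω, ∀ x, γ (f x) = g x := by
  let O := AlgebraicClosure (FractionRing D)
  have hi : Function.Injective (algebraMap D O) := by
    rw [IsScalarTower.algebraMap_eq D (FractionRing D) O, RingHom.coe_comp]
    exact (algebraMap (FractionRing D) O).injective.comp (IsFractionRing.injective D _)
  have : Algebra.IsAlgebraic D O := by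
    have : Algebra.IsAlgebraic D (FractionRing D) := IsLocalization.isAlgebraic _ (nonZeroDivisors D)
    exact Algebra.IsAlgebraic.trans D (FractionRing D) O
  have : Algebra.IsAlgebraic P O := Algebra.IsAlgebraic.trans P D O
  have hPO : Function.Injective (algebraMap P O) := by
    rw [IsScalarTower.algebraMap_eq P D O, RingHom.coe_comp]; exact hi.comp hP
  have : FaithfulSMul P O := (faithfulSMul_iff_algebraMap_injective P O).2 hPO
  let F := FractionRing P
  let : Algebra F O := FractionRing.liftAlgebra P O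
  have : IsScalarTower P F O := FractionRing.isScalarTower_liftAlgebra P O
  have : Algebra.IsAlgebraic F O :=
    Algebra.IsAlgebraic.extendScalars (R := P) (IsFractionRing.injective P F)
  have : IsAlgClosure F O := ⟨inferInstance, inferInstance⟩
  obtain ⟨ψ, hψ⟩ := ZTree.lift_hom hi f hf
  obtain ⟨ψ', hψ'⟩ := ZTree.lift_hom hi g hg
  let : Algebra O Ω := ψ.toAlgebra
  let : Algebra F Ω := (ψ.comp (algebraMap F O)).toAlgebra
  have : IsScalarTower F O Ω := IsScalarTower.of_algebraMap_eq fun _ => rfl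
  have hF : ψ'.comp (algebraMap F O) = algebraMap F Ω := by
    refine IsLocalization.ringHom_ext (nonZeroDivisors P) (RingHom.ext fun p => ?_)
    change ψ' (algebraMap F O (algebraMap P F p)) = ψ (algebraMap F O (algebraMap P F p))
    rw [← IsScalarTower.algebraMap_apply P F O, IsScalarTower.algebraMap_apply P D O, hψ, hψ', h]
  let θ : O →ₐ[F] Ω := { ψ' with commutes' := fun c => RingHom.congr_fun hF c }
  obtain ⟨γ, hγ⟩ := ZTree.ext_equiv ψ (θ.restrictNormal' O).toRingEquiv
  refine ⟨γ, fun x => ?_⟩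
  rw [← hψ, hγ, ← hψ']
  exact θ.restrictNormal_commutes O _

theorem vext_pair {P R S Ω ι : Type} [CommRing P] [IsDomain P] [CommRing R] [IsDomain R]
    [CommRing S] [Field Ω] [IsAlgClosed Ω] [Algebra P R] (hP : Function.Injective (algebraMap P R))
    (e : R →+* Ω) (he : Function.Injective e) (β β' : R →+* S) (hβ : Function.Injective β)
    (hβ' : Function.Injective β') (hb : ∀ p, β' (algebraMap P R p) = β (algebraMap P R p))
    (a b : ι → R) (hab : ∀ j, β' (a j) = β (b j)) (halg : ∀ j, IsAlgebraic P (a j)) :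
    ∃ γ : Ω ≃+* Ω, (∀ p, γ (e (algebraMap P R p)) = e (algebraMap P R p)) ∧
      ∀ j, γ (e (a j)) = e (b j) := by
  let D : Subalgebra P R := Algebra.adjoin _ (Set.range a)
  have : Algebra.IsAlgebraic P D := (Subalgebra.isAlgebraic_iff _).1
    (Algebra.isAlgebraic_adjoin_iff.2 (by rintro _ ⟨j, rfl⟩; exact halg j))
  obtain ⟨α, hα⟩ := exists_fac (β'.comp D.val.toRingHom) β hβ (by
    rintro ⟨r, hr⟩
    induction hr using Algebra.adjoin_induction with
    | mem x hx => obtain ⟨j, rfl⟩ := hx; exact ⟨b j, (hab j).symm⟩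
    | algebraMap p => exact ⟨_, (hb p).symm⟩
    | add x y _ _ hx hy =>
      obtain ⟨u, hu⟩ := hx; obtain ⟨v, hv⟩ := hy
      exact ⟨u + v, by rw [map_add, hu, hv, ← map_add]; rfl⟩
    | mul x y _ _ hx hy =>
      obtain ⟨u, hu⟩ := hx; obtain ⟨v, hv⟩ := hy
      exact ⟨u * v, by rw [map_mul, hu, hv, ← map_mul]; rfl⟩)
  have hαi : Function.Injective α := fun x y h =>
    Subtype.ext (hβ' ((hα x).symm.trans (h ▸ hα y)))
  have h1 : ∀ p, α (algebraMap P D p) = algebraMap P R p := fun p => hβ ((hα _).trans (hb p))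
  obtain ⟨γ, hγ⟩ := vext_two (P := P) (D := D) (fun x y h => hP (congrArg Subtype.val h))
    (e.comp D.val.toRingHom) (e.comp α) (he.comp Subtype.val_injective) (he.comp hαi)
    fun p => congrArg e (h1 p).symm
  refine ⟨γ, fun p => (hγ (algebraMap P D p)).trans (congrArg e (h1 p)), fun j => ?_⟩
  exact (hγ ⟨a j, Algebra.subset_adjoin ⟨j, rfl⟩⟩).trans (congrArg e (hβ ((hα _).trans (hab j))))

theorem ext_gam {S ι : Type} [CommRing S]
    (R : Subalgebra (Polynomial (AA A d)) (PowerSeries (BB A d))) (β β' : R →+* S)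
    (hβ : Function.Injective β) (hβ' : Function.Injective β')
    (hb : ∀ a, β' (algebraMap (Polynomial (AA A d)) R a) = β (algebraMap (Polynomial (AA A d)) R a))
    (a b : ι → R) (hab : ∀ j, β' (a j) = β (b j))
    (halg : ∀ j, IsAlgebraic (Polynomial (AA A d)) (a j : PowerSeries (BB A d))) :
    ∃ γ : Gam A d, ∀ j, γ (io A d (a j)) = io A d (b j) := by
  let e : R →+* Om A d := (io A d).comp R.val.toRingHom
  have h2 : ∀ p, e (algebraMap (Polynomial (AA A d)) R p) = algebraMap _ (Om A d) p := fun p =>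
    (IsScalarTower.algebraMap_apply _ (PowerSeries (BB A d)) (Om A d) p).symm
  obtain ⟨γ, h1, h3⟩ := vext_pair (P := Polynomial (AA A d)) (R := R)
    (fun x y h => alg_inj (congrArg Subtype.val h)) e (io_inj.comp Subtype.val_injective)
    β β' hβ hβ' hb a b hab fun j => Subalgebra.isAlgebraic_iff_isAlgebraic_val.2 (halg j)
  exact ⟨{ γ with commutes' := fun p => by rw [← h2]; exact h1 p }, h3⟩

theorem conj_root {F Ω : Type} [Field F] [Field Ω] [IsAlgClosed Ω] [Algebra F Ω] {S P : F}
    {a b : Ω} (hs : a + b = algebraMap F Ω S) (hp : a * b = algebraMap F Ω P)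
    (ha : a ∉ Set.range (algebraMap F Ω)) :
    ∃ γ : Ω ≃+* Ω, (∀ c, γ (algebraMap F Ω c) = algebraMap F Ω c) ∧ γ a = b := by
  let q : Polynomial F := Polynomial.X ^ 2 - Polynomial.C S * Polynomial.X + Polynomial.C P
  have hq : q.Monic := by simp only [q]; monicity!
  have hq2 : q.natDegree ≤ 2 := by simp only [q]; compute_degree
  have qa : Polynomial.aeval a q = 0 := by simp [q, ← hs, ← hp]; ring
  have qb : Polynomial.aeval b q = 0 := by simp [q, ← hs, ← hp]; ring
  have hi : IsIntegral F a := ⟨q, hq, qa⟩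
  have hm : q = minpoly F a := Polynomial.eq_of_monic_of_dvd_of_natDegree_le (minpoly.monic hi) hq
    (minpoly.dvd F a qa) (hq2.trans ((minpoly.two_le_natDegree_iff hi).2 ha))
  have : Fact (Irreducible q) := ⟨hm ▸ minpoly.irreducible hi⟩
  have := (AdjoinRoot.powerBasis hq.ne_zero).finite
  obtain ⟨γ, hγ⟩ := vext_two (P := F) (D := AdjoinRoot q) (RingHom.injective _)
    (AdjoinRoot.lift (algebraMap F Ω) a qa) (AdjoinRoot.lift (algebraMap F Ω) b qb)
    (RingHom.injective _) (RingHom.injective _) fun p => by simp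
  exact ⟨γ, fun c => by simpa using hγ (AdjoinRoot.of q c), by simpa using hγ (AdjoinRoot.root q)⟩

theorem vext_RC_mem {E : Type} [CommRing E] {C : Finset (Fin d)} (f : RC A C →+* E) (T : Subsemiring E)
    (h1 : ∀ a, f (algebraMap (Polynomial (AA A d)) _ a) ∈ T) (h2 : ∀ s j, f (zC A C s j) ∈ T)
    (r : RC A C) : f r ∈ T := by
  obtain ⟨r, hr⟩ := r
  induction hr using Algebra.adjoin_induction with
  | mem x hx => obtain ⟨⟨s, j⟩, rfl⟩ := hx; exact h2 s j
  | algebraMap a => exact h1 a
  | add x y _ _ hx hy => exact map_add f ⟨x, _⟩ ⟨y, _⟩ ▸ add_mem hx hy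
  | mul x y _ _ hx hy => exact map_mul f ⟨x, _⟩ ⟨y, _⟩ ▸ mul_mem hx hy

theorem exists_alphaC {k : Type} [Field k] (C : Finset (Fin d)) (φ : AA A d →+* k⟦X⟧)
    (hφ : Function.Injective φ) {c : Fin d → Fin d → k⟦X⟧}
    (hc : ∀ j i, j ∈ C → i ∈ C → j ≠ i →
      (φ (MvPolynomial.X j) - φ (MvPolynomial.X i)) * c j i = X)
    {w : Seq d → Fin d → k⟦X⟧⟦X⟧} {ξ : Seq d → k⟦X⟧⟦X⟧}
    (h : NF (fun j i => if j ∈ C ∧ i ∈ C then X * PowerSeries.C (c j i) else 0) w ξ) :
    ∃ α : RC A C →+* k⟦X⟧⟦X⟧, Function.Injective α ∧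
      (∀ x, α (algebraMap (Polynomial (AA A d)) _ (Polynomial.C x)) = PowerSeries.C (φ x)) ∧
      α (algebraMap (Polynomial (AA A d)) _ Polynomial.X) = PowerSeries.C X * X ∧
      ∀ s j, α (zC A C s j) = w s j := by
  let K := FractionRing k⟦X⟧
  let κ : k⟦X⟧ →+* K := algebraMap _ _
  have hκ : Function.Injective κ := IsFractionRing.injective k⟦X⟧ _
  have hφ' : Function.Injective (κ.comp φ) := hκ.comp hφ
  have hu : ∀ y : Submonoid.powers (Dl A d), IsUnit (κ.comp φ y) := fun y =>
    ((map_ne_zero_iff _ hφ').2 (nonZeroDivisors.ne_zero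
      (powers_le_nonZeroDivisors_of_noZeroDivisors Dl_ne y.2))).isUnit
  let Φ : BB A d →+* K := IsLocalization.lift hu
  have hΦ : Function.Injective Φ := (IsLocalization.lift_injective_iff hu).2 fun x y => by
    rw [AB_inj.eq_iff, hφ'.eq_iff]
  have hΦa : ∀ x, Φ (algebraMap _ _ x) = κ (φ x) := IsLocalization.lift_eq hu
  have hX : κ X ≠ 0 := (map_ne_zero_iff _ hκ).2 X_ne_zero
  let J : (BB A d)⟦X⟧ →+* K⟦X⟧ := (rescale (κ X)).comp (PowerSeries.map Φ)
  have hJ : Function.Injective J := (rescale_injective hX).comp (PowerSeries.map_injective _ hΦ)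
  have j1 : ∀ x, J (PowerSeries.C x) = PowerSeries.C (Φ x) := fun x => by
    ext n
    rw [RingHom.comp_apply, map_C, coeff_rescale, coeff_C]
    split_ifs with h <;> simp [h]
  have j2 : J X = PowerSeries.C (κ X) * X := by simp [J, rescale_X]
  have hι : Function.Injective (PowerSeries.map κ) := PowerSeries.map_injective _ hκ
  have hw := (NF.unique X ps_haus (fun j i _ => by
      split_ifs
      exacts [⟨PowerSeries.C (κ (c j i)), by simp⟩, by simp])
    (h.map (PowerSeries.map κ)) (((nfC A C).map J).congr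
      (t' := fun j i => PowerSeries.map κ
        (if j ∈ C ∧ i ∈ C then X * PowerSeries.C (c j i) else 0)) fun j i hji => by
      unfold tC
      split_ifs with hC
      swap
      · rw [map_zero, map_zero]
      simp only [t0, map_mul, j1, j2, map_X, map_C]
      rw [map_inverse_of_unit _ (lB_unit hji), map_sub, lB, lB, hΦa, hΦa, ← hc j i hC.1 hC.2 hji,
        map_mul κ, map_sub, mul_right_comm, ← map_mul, mul_right_comm, Ring.mul_inverse_cancel,
        one_mul, mul_comm]
      rw [← hΦa, ← hΦa, ← map_sub]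
      exact (lB_unit hji).map Φ)).1
  let f : RC A C →+* K⟦X⟧ := J.comp (RC A C).val.toRingHom
  have f1 : ∀ x, f (algebraMap (Polynomial (AA A d)) _ (Polynomial.C x)) =
      PowerSeries.map κ (PowerSeries.C (φ x)) := fun x => by
    rw [map_C, ← hΦa, ← j1, ← alg_C]; rfl
  have f2 : f (algebraMap (Polynomial (AA A d)) _ Polynomial.X) =
      PowerSeries.map κ (PowerSeries.C X * X) := by
    rw [map_mul, map_C, map_X, ← j2, ← alg_X]; rfl
  have f3 : ∀ s j, f (zC A C s j) = PowerSeries.map κ (w s j) := fun s j =>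
    (congrFun (congrFun hw s) j).symm
  obtain ⟨α, hα⟩ := exists_fac f _ hι (vext_RC_mem f (PowerSeries.map κ).rangeS (fun p => by
    induction p using Polynomial.induction_on with
    | C x => exact ⟨_, (f1 x).symm⟩
    | add p q hp hq => rw [map_add, map_add]; exact add_mem hp hq
    | monomial n x hp => rw [pow_succ, ← mul_assoc, map_mul, map_mul]; exact mul_mem hp ⟨_, f2.symm⟩)
    fun s j => ⟨_, (f3 s j).symm⟩)
  exact ⟨α, fun x y e => Subtype.ext (hJ ((hα x).symm.trans (e ▸ hα y))),
    fun x => hι ((hα _).trans (f1 x)), hι ((hα _).trans f2), fun s j => hι ((hα _).trans (f3 s j))⟩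

end Pool.Agent.MP_9b2bac_nt.Z
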