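import Mathlib
import Pool.Agent.MP_9b2bac_nt.VExt

/- One step of the normal form: existence, uniqueness, descent to a subring. -/

set_option autoImplicit false

namespace Pool.Agent.MP_9b2bac_nt.Z

open Finset

variable {d : ℕ}

theorem fn_one {B : Type} [CommRing B] (y : Fin d) (a : PowerSeries B)
    (b σ : Fin d → PowerSeries B) (hb : ∀ j, j ≠ y → PowerSeries.X ∣ b j)
    (hσ : ∀ j, j ≠ y → PowerSeries.X ∣ σ j) :
    ∃ (w : Fin d → PowerSeries B) (z : PowerSeries B), (∀ j, j ≠ y → w j = b j + σ j * z * w j) ∧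
      ∑ j, w j = 1 ∧ z * w y = -a := by
  classical
  let o : (Option (Fin d) → PowerSeries B) → Fin d → PowerSeries B := fun x j =>
    b j + σ j * x none * x (some j)
  let T : (Option (Fin d) → PowerSeries B) → Option (Fin d) → PowerSeries B := fun x i =>
    i.elim (-a + x none * ∑ j ∈ univ.erase y, o x j) fun j => if j = y then 0 else o x j
  obtain ⟨x, hx⟩ := exists_fixed T (by
    intro n x x' h
    have h1 : ∀ j, j ≠ y → (PowerSeries.X : PowerSeries B) ^ (n + 1) ∣ o x j - o x' j := by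
      intro j hj
      have : o x j - o x' j = σ j * (x none * (x (some j) - x' (some j)) +
          (x none - x' none) * x' (some j)) := by simp only [o]; ring
      rw [this, pow_succ']
      exact mul_dvd_mul (hσ _ hj) (dvd_add ((h _).mul_left _) ((h _).mul_right _))
    rintro (_ | j)
    · have h2 : (PowerSeries.X : PowerSeries B) ^ (n + 1) ∣
          ∑ j ∈ univ.erase y, o x j - ∑ j ∈ univ.erase y, o x' j := by
        rw [← sum_sub_distrib]; exact dvd_sum fun j hj => h1 j (ne_of_mem_erase hj)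
      have h3 : PowerSeries.X ∣ ∑ j ∈ univ.erase y, o x' j := dvd_sum fun j hj =>
        dvd_add (hb _ (ne_of_mem_erase hj))
          (((hσ _ (ne_of_mem_erase hj)).mul_right _).mul_right _)
      have : T x none - T x' none =
          x none * (∑ j ∈ univ.erase y, o x j - ∑ j ∈ univ.erase y, o x' j) +
          (x none - x' none) * ∑ j ∈ univ.erase y, o x' j := by
        simp only [T, Option.elim]; ring
      rw [this]
      refine dvd_add (h2.mul_left _) ?_
      rw [pow_succ]; exact mul_dvd_mul (h _) h3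
    · simp only [T, Option.elim]
      split_ifs with hj
      · simp
      · exact h1 j hj)
  have e1 : ∀ j, j ≠ y → x (some j) = o x j := fun j hj => by
    have := congrFun hx (some j)
    simp only [T, Option.elim, if_neg hj] at this
    exact this.symm
  have e2 : x none = -a + x none * ∑ j ∈ univ.erase y, o x j := (congrFun hx none).symm
  refine ⟨fun j => if j = y then 1 - ∑ j ∈ univ.erase y, o x j else x (some j), x none,
    fun j hj => ?_, ?_, ?_⟩
  · simp only [if_neg hj]; exact e1 j hj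
  · rw [← add_sum_erase _ _ (mem_univ y), if_pos rfl,
      sum_congr rfl fun j hj => (if_neg (ne_of_mem_erase hj)).trans (e1 j (ne_of_mem_erase hj))]
    ring
  · simp only [if_true]
    linear_combination e2

theorem fn_uniq {R : Type} [CommRing R] {π : R} (hH : ∀ x : R, (∀ n, π ^ n ∣ x) → x = 0)
    (y : Fin d) {τ w' w₁ w₂ : Fin d → R} {ξ₁ ξ₂ : R} (hτ : ∀ j, j ≠ y → π ∣ τ j)
    (o1 : ∀ j, j ≠ y → w₁ j = τ j * (w' j + ξ₁ * w₁ j)) (s1 : ∑ j, w₁ j = 1)
    (d1 : ξ₁ * w₁ y = - w' y)
    (o2 : ∀ j, j ≠ y → w₂ j = τ j * (w' j + ξ₂ * w₂ j)) (s2 : ∑ j, w₂ j = 1)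
    (d2 : ξ₂ * w₂ y = - w' y) : w₁ = w₂ ∧ ξ₁ = ξ₂ := by
  have t1 : w₁ y = 1 - ∑ j ∈ univ.erase y, w₁ j := by
    rw [← s1, ← add_sum_erase _ _ (mem_univ y)]; ring
  have t2 : w₂ y = 1 - ∑ j ∈ univ.erase y, w₂ j := by
    rw [← s2, ← add_sum_erase _ _ (mem_univ y)]; ring
  have key : ∀ n, (∀ j, π ^ n ∣ w₁ j - w₂ j) ∧ π ^ n ∣ ξ₁ - ξ₂ := by
    intro n
    induction n with
    | zero => simp
    | succ n ih =>
      have h1 : ∀ j, j ≠ y → π ^ (n + 1) ∣ w₁ j - w₂ j := by
        intro j hj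
        have : w₁ j - w₂ j = τ j * (ξ₁ * (w₁ j - w₂ j) + (ξ₁ - ξ₂) * w₂ j) := by
          linear_combination o1 j hj - o2 j hj
        rw [this, pow_succ']
        exact mul_dvd_mul (hτ _ hj) (dvd_add ((ih.1 _).mul_left _) (ih.2.mul_right _))
      have h2 : ∀ j, π ^ (n + 1) ∣ w₁ j - w₂ j := by
        intro j
        by_cases hj : j = y
        · subst hj
          rw [t1, t2, sub_sub_sub_cancel_left, ← neg_sub, dvd_neg, ← sum_sub_distrib]
          exact dvd_sum fun j hj => h1 j (ne_of_mem_erase hj)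
        · exact h1 j hj
      refine ⟨h2, ?_⟩
      have h3 : π ∣ ∑ j ∈ univ.erase y, w₁ j := dvd_sum fun j hj => by
        rw [o1 j (ne_of_mem_erase hj)]
        exact (hτ _ (ne_of_mem_erase hj)).mul_right _
      have : ξ₁ - ξ₂ = - ξ₂ * (w₁ y - w₂ y) + (ξ₁ - ξ₂) * ∑ j ∈ univ.erase y, w₁ j := by
        linear_combination d1 - d2 - (ξ₁ - ξ₂) * t1
      rw [this]
      refine dvd_add ((h2 _).mul_left _) ?_
      rw [pow_succ]; exact mul_dvd_mul ih.2 h3
  exact ⟨funext fun j => sub_eq_zero.1 (hH _ fun n => (key n).1 j),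
    sub_eq_zero.1 (hH _ fun n => (key n).2)⟩

section Ev

variable {R : Type} [CommRing R] [IsDomain R] {C : Finset (Fin d)} {lam : Fin d → R} {ε π : R}
  {t : Fin d → Fin d → R} {w : Seq d → Fin d → R} {ξ : Seq d → R} {s : Seq d}

/-- Evaluation of the factorisation at one of the roots. -/
theorem Clu.fn_ev (h : Clu C lam ε π t) (nf : NF t w ξ) (hs : Term C s) {a : Fin d} (ha : a ∈ C) :
    -ξ (Function.update s 0 a) * ∏ b ∈ C.erase a, (1 - t a b * ξ (Function.update s 0 b)) =
      w (sh s) a := by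
  have h1 := congrArg (Polynomial.eval (lam a)) (h.fac nf hs)
  simp only [GP, Polynomial.eval_add, Polynomial.eval_mul, Polynomial.eval_prod,
    Polynomial.eval_finsetSum, Polynomial.eval_sub, Polynomial.eval_X, Polynomial.eval_C] at h1
  rw [prod_eq_zero ha (sub_self _), zero_add, ← add_sum_erase _ _ ha,
    sum_eq_zero (s := C.erase a) fun j hj => by
      rw [prod_eq_zero (mem_erase.2 ⟨(ne_of_mem_erase hj).symm, ha⟩) (sub_self _), mul_zero],
    add_zero, ← mul_prod_erase _ _ ha,
    prod_congr (f := fun b => lam a - (lam b + ε * ξ (Function.update s 0 b)))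
      (g := fun b => (lam a - lam b) * (1 - t a b * ξ (Function.update s 0 b))) rfl
      fun b hb => by
        linear_combination ξ (Function.update s 0 b) *
          h.mem a b ha (mem_of_mem_erase hb) (ne_of_mem_erase hb).symm,
    prod_mul_distrib] at h1
  have h2 : ε * ∏ k ∈ C.erase a, (lam a - lam k) ≠ 0 := mul_ne_zero h.eps
    (prod_ne_zero_iff.2 fun k hk => sub_ne_zero.2 (h.inj.ne (ne_of_mem_erase hk).symm))
  apply mul_left_cancel₀ h2
  linear_combination -h1

end Ev

section Lift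

variable {P R : Type} [CommRing P] [CommRing R] (ι : P →+* R) {C : Finset (Fin d)}
  {lam : Fin d → R} {ε π : R} {t : Fin d → Fin d → P} {w : Seq d → Fin d → R} {ξ : Seq d → R}

theorem Clu.fn_lift (h : Clu C lam ε π fun j i => ι (t j i)) (nf : NF (fun j i => ι (t j i)) w ξ)
    (s : Seq d) {a' a : Fin d → P} {z : P} (ha' : ∀ j, ι (a' j) = w (sh s) j)
    (o : ∀ j, j ≠ s 0 → a j = t j (s 0) * (a' j + z * a j)) (hs : ∑ j, a j = 1)
    (hd : z * a (s 0) = - a' (s 0)) : (∀ j, ι (a j) = w s j) ∧ ι z = ξ s := by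
  have := fn_uniq h.haus (s 0) (τ := fun j => ι (t j (s 0))) (w' := w (sh s))
    (w₁ := fun j => ι (a j)) (w₂ := w s) (ξ₁ := ι z) (ξ₂ := ξ s) (fun j hj => h.dvd _ _ hj)
    (fun j hj => by rw [← ha', ← map_mul, ← map_add, ← map_mul, ← o j hj])
    (by rw [← map_sum, hs, map_one]) (by rw [← map_mul, hd, map_neg, ha'])
    (fun j hj => nf.off s j hj) (nf.sum s) (nf.diag s)
  exact ⟨congrFun this.1, this.2⟩

end Lift

end Pool.Agent.MP_9b2bac_nt.Z
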