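import Mathlib
import Pool.Agent.MP_9b2bac_nt.VFine1

/- Descent of the states of the word to the small ring along the collision of two roots. -/

set_option autoImplicit false

namespace Pool.Agent.MP_9b2bac_nt.Z

open Finset

variable {d : ℕ} {B R k : Type} [CommRing B] [CommRing R] [Field k]

/-- The shape of the coefficients along the collision. -/
structure FCol (C : Finset (Fin d)) (u v : Fin d) (ν : B) (e : B →+* k)
    (ι : PowerSeries B →+* R) (t : Fin d → Fin d → PowerSeries B) : Prop where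
  uv : t u v = PowerSeries.C ν
  vu : t v u = - PowerSeries.C ν
  oth : ∀ j i, j ≠ i → ¬(j = u ∧ i = v) → ¬(j = v ∧ i = u) → PowerSeries.X ∣ t j i
  nz : ∀ y ∈ C, y ≠ u → y ≠ v → ∃ p, t v y = PowerSeries.X * p ∧
    e (PowerSeries.constantCoeff p) ≠ 0
  ev : e ν = 1
  inj : Function.Injective ι
  dvd : ∀ a, ι PowerSeries.X ∣ ι a → PowerSeries.X ∣ a

/-- The leading coefficient does not vanish under `e`. -/
def FNz (e : B →+* k) (a : PowerSeries B) : Prop :=
  ∃ (K : ℕ) (p : PowerSeries B), a = PowerSeries.X ^ K * p ∧ e (PowerSeries.constantCoeff p) ≠ 0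

theorem FNz.mul {e : B →+* k} {a b : PowerSeries B} (ha : FNz e a) (hb : FNz e b) :
    FNz e (a * b) := by
  obtain ⟨K, p, rfl, hp⟩ := ha
  obtain ⟨L, q, rfl, hq⟩ := hb
  exact ⟨K + L, p * q, by ring, by rw [map_mul, map_mul]; exact mul_ne_zero hp hq⟩

theorem fn_unit {U : PowerSeries B} (hU : PowerSeries.X ∣ U - 1) :
    ∃ V, U * V = 1 ∧ PowerSeries.X ∣ V - 1 := by
  have h1 : PowerSeries.constantCoeff U = 1 := by
    have := PowerSeries.X_dvd_iff.1 hU
    rwa [map_sub, map_one, sub_eq_zero] at this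
  obtain ⟨V, hV⟩ := (PowerSeries.isUnit_iff_constantCoeff.2 (h1 ▸ isUnit_one)).exists_right_inv
  refine ⟨V, hV, PowerSeries.X_dvd_iff.2 ?_⟩
  have := congrArg PowerSeries.constantCoeff hV
  rw [map_mul, h1, one_mul] at this
  rw [map_sub, this, sub_self]

theorem FNz.of_one {e : B →+* k} {V : PowerSeries B} (hV : PowerSeries.X ∣ V - 1) : FNz e V := by
  have := PowerSeries.X_dvd_iff.1 hV
  rw [map_sub, map_one, sub_eq_zero] at this
  exact ⟨0, V, by simp, by simp [this]⟩

theorem FNz.cancel {e : B →+* k} {a U : PowerSeries B} (h : FNz e (a * U))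
    (hU : PowerSeries.X ∣ U - 1) : FNz e a := by
  obtain ⟨V, hV, hV'⟩ := fn_unit hU
  have := h.mul (FNz.of_one hV')
  rwa [mul_assoc, hV, mul_one] at this

/-- The quadratic polynomial has no root of the given shape. -/
theorem fn_noroot [IsDomain B] {e : B →+* k} {ν : B} (he : e ν = 1) {a b : PowerSeries B}
    (hs : PowerSeries.constantCoeff (a + b) = 1 - ν) (hp : PowerSeries.X ∣ a * b)
    (hz : FNz e (a * b)) (ha : PowerSeries.constantCoeff a ≠ 1 - ν) : False := by
  have h1 := PowerSeries.X_dvd_iff.1 hp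
  rw [map_mul] at h1
  rw [map_add] at hs
  have hb : PowerSeries.constantCoeff b ≠ 0 := fun h => ha (by rw [← hs, h, add_zero])
  have ha0 := (mul_eq_zero.1 h1).resolve_right hb
  rw [ha0, zero_add] at hs
  obtain ⟨K, p, hK, hp'⟩ := hz
  obtain ⟨a', rfl⟩ : PowerSeries.X ^ K ∣ a := PowerSeries.X_prime.pow_dvd_of_dvd_mul_right K
    (fun h => hb (PowerSeries.X_dvd_iff.1 h)) ⟨p, hK⟩
  rw [mul_assoc] at hK
  have := mul_left_cancel₀ (pow_ne_zero K PowerSeries.X_ne_zero) hK
  apply hp'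
  rw [← this, map_mul, map_mul, hs, map_sub, he, map_one, sub_self, mul_zero]

variable {C : Finset (Fin d)} {u v : Fin d} {ν : B} {e : B →+* k} {ι : PowerSeries B →+* R}
  {t : Fin d → Fin d → PowerSeries B} {lam : Fin d → R} {ε π : R} {w : Seq d → Fin d → R}
  {ξ : Seq d → R} (c : FCol C u v ν e ι t) (h : Clu C lam ε π fun j i => ι (t j i))
  (nf : NF (fun j i => ι (t j i)) w ξ)

include c h nf in
theorem fn_A (r : Seq d) (hw : ∀ j, ∃ a, ι a = w (sh r) j)
    (hτ : ∀ j, j ≠ r 0 → PowerSeries.X ∣ t j (r 0) ∨ w (sh r) j = 0) :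
    (∀ j, ∃ a, ι a = w r j) ∧ ∃ z, ι z = ξ r := by
  classical
  choose a' ha' using hw
  let τ : Fin d → PowerSeries B := fun j => if PowerSeries.X ∣ t j (r 0) then t j (r 0) else 0
  have hτ' : ∀ j, PowerSeries.X ∣ τ j := fun j => by
    simp only [τ]; split_ifs with hj
    exacts [hj, dvd_zero _]
  obtain ⟨a, z, h1, h2, h3⟩ := fn_one (r 0) (a' (r 0)) (fun j => τ j * a' j) τ
    (fun j _ => (hτ' j).mul_right _) fun j _ => hτ' j
  have := h.fn_lift ι nf r ha' (a := a) (z := z) (fun j hj => ?_) h2 h3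
  · exact ⟨fun j => ⟨_, this.1 j⟩, _, this.2⟩
  · have h4 := h1 j hj
    simp only [τ] at h4
    split_ifs at h4 with hj'
    · linear_combination h4
    · have h5 : a' j = 0 := c.inj (by rw [ha', (hτ j hj).resolve_left hj', map_zero])
      rw [zero_mul, zero_mul, zero_mul, add_zero] at h4
      rw [h4, h5]; ring

include c h nf in
theorem fn_B (r : Seq d) (hw : ∀ j, ∃ a, ι a = w (sh r) j) (h0 : w (sh r) (r 0) = 0) :
    (∀ j, ∃ a, ι a = w r j) ∧ ∃ z, ι (PowerSeries.X * z) = ξ r := by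
  classical
  choose a' ha' using hw
  have := h.fn_lift ι nf r ha' (z := 0)
    (a := fun j => if j = r 0 then 1 - ∑ j ∈ univ.erase (r 0), t j (r 0) * a' j
      else t j (r 0) * a' j) (fun j hj => by simp only [if_neg hj]; ring) (by
      rw [← add_sum_erase _ _ (mem_univ (r 0)), if_pos rfl,
        sum_congr rfl fun j hj => if_neg (ne_of_mem_erase hj)]
      ring) (by rw [c.inj (by rw [ha', h0, map_zero] : ι (a' (r 0)) = ι 0)]; ring)
  exact ⟨fun j => ⟨_, this.1 j⟩, 0, by rw [mul_zero]; exact this.2⟩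

include c h nf in
theorem fn_C (r : Seq d) (hw : ∀ j, ∃ a, ι a = w (sh r) j)
    (h0 : ι PowerSeries.X ∣ w (sh r) (r 0))
    (hτ : ∀ j, j ≠ r 0 → PowerSeries.X ∣ t j (r 0) ∨ ι PowerSeries.X ∣ w (sh r) j) :
    (∀ j, ∃ a, ι a = w r j) ∧ ∃ z, ι (PowerSeries.X * z) = ξ r := by
  choose a' ha' using hw
  obtain ⟨a0, ha0⟩ := c.dvd _ (ha' _ ▸ h0)
  obtain ⟨a, z, h1, h2, h3⟩ := fn_one (r 0) a0 (fun j => t j (r 0) * a' j)
    (fun j => t j (r 0) * PowerSeries.X)
    (fun j hj => (hτ j hj).elim (fun h => h.mul_right _) fun h => (c.dvd _ (ha' _ ▸ h)).mul_left _)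
    fun j _ => Dvd.intro_left _ rfl
  have := h.fn_lift ι nf r ha' (a := a) (z := PowerSeries.X * z)
    (fun j hj => by linear_combination h1 j hj) h2
    (by rw [ha0]; linear_combination PowerSeries.X * h3)
  exact ⟨fun j => ⟨_, this.1 j⟩, _, this.2⟩

include c nf in
theorem fn_dvd (r : Seq d) {j : Fin d} (hj : j ≠ r 0) (h1 : ¬(j = u ∧ r 0 = v))
    (h2 : ¬(j = v ∧ r 0 = u)) : ι PowerSeries.X ∣ w r j := by
  rw [nf.off r j hj]
  exact (map_dvd ι (c.oth _ _ hj h1 h2)).mul_right _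

variable [IsDomain R] {s : Seq d} {q : ℤ} (huv : u ≠ v) (hs : Term C s)
  (hC : ∀ i : ℤ, 1 ≤ i → i ≤ q → s i ∈ C) (hv : s q = v)
  (hv' : ∀ i : ℤ, 1 ≤ i → i < q → s i ≠ v) (hu : ¬ Occ C s q u)
  (huu : ∀ i : ℤ, 1 ≤ i → i < q → s i = u → s (i + 1) ≠ u) (hq : 3 ≤ q) (h1 : s 1 = u)

include h nf hs hu hq h1 hC in
theorem fn_occ {i : ℤ} (hi : q ≤ i) (hk : ∀ k, 1 ≤ k → k < i → s k ∈ C) : w (shf s i) u = 0 := by
  by_contra h0
  obtain ⟨i', a1, a2, a3⟩ := occ_shf.1
    ((h.occ nf (hs.shf i) u (h1 ▸ hC 1 le_rfl (by omega))).1 h0)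
  refine hu ⟨i', by omega, a2, fun k b1 b2 => ?_⟩
  by_cases b : k < i
  · exact hk k (by omega) b
  · exact a3 k (by omega) b2

include c h nf huv hs hC hv' hu huu hq h1 in
theorem fn_F1 (m : ℕ) : ∀ i : ℤ, 1 ≤ i → (∀ k, 1 ≤ k → k < i → s k ∈ C) → s (i + m) ∉ C →
    (∀ j, ∃ a, ι a = w (shf s i) j) ∧ (s i ∈ C → ∃ z, ι z = ξ (shf s i)) ∧
      (s i = u → ∃ z, ι (PowerSeries.X * z) = ξ (shf s i)) := by
  have huC : u ∈ C := h1 ▸ hC 1 le_rfl (by omega)
  have base : ∀ i : ℤ, s i ∉ C → (∀ j, ∃ a, ι a = w (shf s i) j) ∧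
      (s i ∈ C → ∃ z, ι z = ξ (shf s i)) ∧
      (s i = u → ∃ z, ι (PowerSeries.X * z) = ξ (shf s i)) := fun i hi => by
    refine ⟨fun j => ?_, fun a => absurd a hi, fun a => absurd (a ▸ huC) hi⟩
    rw [h.out_val nf (by simpa using hi)]
    split_ifs
    exacts [⟨1, map_one _⟩, ⟨0, map_zero _⟩]
  induction m with
  | zero => intro i _ _ hi; exact base i (by simpa using hi)
  | succ m ih =>
    intro i hi hk hm
    by_cases hiC : s i ∈ C
    swap
    · exact base i hiC
    have hk' : ∀ k, 1 ≤ k → k < i + 1 → s k ∈ C := fun k a b => by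
      rcases (Int.lt_add_one_iff.1 b).eq_or_lt with rfl | b'
      exacts [hiC, hk k a b']
    have hw := (ih (i + 1) (by omega) hk'
      (by rwa [Nat.cast_succ, add_comm (m : ℤ), ← add_assoc] at hm)).1
    have hz : q ≤ i + 1 → w (shf s (i + 1)) u = 0 := fun a => fn_occ h nf hs hC hu hq h1 a hk'
    rw [← sh_shf] at hw hz
    by_cases hy : s i = u
    · have hiq : i < q := by
        by_contra a
        exact hu ⟨i, by omega, hy, fun k b1 b2 => hk' k (by omega) (by omega)⟩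
      have : (∀ j, ∃ a, ι a = w (shf s i) j) ∧ ∃ z, ι (PowerSeries.X * z) = ξ (shf s i) := by
        by_cases hy' : s (i + 1) = v
        · refine fn_B c h nf _ hw ?_
          rw [shf_apply_zero, hy]
          exact hz (by by_contra a; exact hv' (i + 1) (by omega) (by omega) hy')
        · have hy'' := huu i hi hiq hy
          have e0 : sh (shf s i) 0 = s (i + 1) := by rw [sh_shf, shf_apply_zero]
          refine fn_C c h nf _ hw ?_ fun j hj => ?_
          · rw [shf_apply_zero, hy]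
            exact fn_dvd c nf _ (by rw [e0]; exact hy''.symm) (by rw [e0]; exact fun a => hy' a.2)
              fun a => huv a.1
          · rw [shf_apply_zero, hy] at hj ⊢
            by_cases hjv : j = v
            · right
              exact fn_dvd c nf _ (by rw [e0, hjv]; exact Ne.symm hy') (fun a => hj a.1)
                (by rw [e0]; exact fun a => hy'' a.2)
            · exact .inl (c.oth _ _ hj (fun a => hj a.1) fun a => hjv a.1)
      exact ⟨this.1, fun _ => let ⟨z, hz⟩ := this.2; ⟨_, hz⟩, fun _ => this.2⟩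
    · have := fn_A c h nf (shf s i) hw fun j hj => by
        rw [shf_apply_zero] at hj ⊢
        by_cases a : j = u ∧ s i = v
        · right
          rw [a.1]
          exact hz (by by_contra b; exact hv' i hi (by omega) a.2)
        · exact .inl (c.oth _ _ hj a fun b => hy b.2)
      exact ⟨this.1, fun _ => this.2, fun a => absurd a hy⟩

include c h nf huv hs hC hv' hu huu hq h1 in
theorem fn_F1' {i : ℤ} (hi : 1 ≤ i) (hi' : i ≤ q) :
    (∀ j, ∃ a, ι a = w (shf s i) j) ∧ (∃ z, ι z = ξ (shf s i)) ∧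
      (s i = u → ∃ z, ι (PowerSeries.X * z) = ξ (shf s i)) := by
  obtain ⟨m, hm⟩ := hs i
  have := fn_F1 c h nf huv hs hC hv' hu huu hq h1 m i hi (fun k a b => hC k a (by omega)) hm
  exact ⟨this.1, this.2.1 (hC i hi hi'), this.2.2⟩

include c h nf huv hs hC hv hv' hu huu hq h1 in
theorem fn_F2 (m : ℕ) : ∀ i : ℤ, 1 ≤ i → i + m = q → ∀ a, ι a = w (shf s i) v → FNz e a := by
  induction m with
  | zero =>
    intro i hi hm a ha
    obtain rfl : i = q := by simpa using hm
    refine FNz.of_one (c.dvd _ ?_)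
    have e0 : shf s i 0 = v := by rw [shf_apply_zero, hv]
    have := nf.diag_eq (shf s i)
    rw [e0] at this
    rw [map_sub, ha, this, map_one, sub_sub_cancel_left, dvd_neg]
    refine dvd_sum fun j hj => ?_
    by_cases hju : j = u
    · rw [hju, fn_occ h nf hs hC hu hq h1 le_rfl fun k a b => hC k a b.le]
      exact dvd_zero _
    · exact fn_dvd c nf _ (e0 ▸ ne_of_mem_erase hj) (fun a => hju a.1)
        fun a => ne_of_mem_erase hj a.1
  | succ m ih =>
    intro i hi hm a ha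
    push_cast at hm
    obtain ⟨a', ha'⟩ := (fn_F1' c h nf huv hs hC hv' hu huu hq h1 (i := i + 1) (by omega)
      (by omega)).1 v
    have hz := ih (i + 1) (by omega) (by omega) a' ha'
    obtain ⟨-, ⟨z, z1⟩, z2⟩ := fn_F1' c h nf huv hs hC hv' hu huu hq h1 hi (by omega)
    have hy := hv' i hi (by omega)
    have e1 := nf.off (shf s i) v (by rw [shf_apply_zero]; exact hy.symm)
    rw [shf_apply_zero, sh_shf, ← ha, ← ha', ← z1, ← map_mul, ← map_add, ← map_mul] at e1
    have e2 : a * (1 - t v (s i) * z) = t v (s i) * a' := by linear_combination c.inj e1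
    have e3 : FNz e (t v (s i)) ∧ PowerSeries.X ∣ t v (s i) * z := by
      by_cases hyu : s i = u
      · obtain ⟨z', hz'⟩ := z2 hyu
        rw [c.inj (z1.trans hz'.symm), hyu, c.vu]
        exact ⟨⟨0, - PowerSeries.C ν, by simp, by simp [c.ev]⟩, (Dvd.intro _ rfl).mul_left _⟩
      · obtain ⟨p, p1, p2⟩ := c.nz _ (hC i hi (by omega)) hyu hy
        rw [p1]
        exact ⟨⟨1, p, by simp, p2⟩, (Dvd.intro _ rfl).mul_right _⟩
    refine FNz.cancel (U := 1 - t v (s i) * z) (e2 ▸ e3.1.mul hz) ?_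
    rw [sub_sub_cancel_left, dvd_neg]
    exact e3.2

theorem fn_prod {T : Finset (Fin d)} {f : Fin d → PowerSeries B}
    (hf : ∀ b ∈ T, PowerSeries.X ∣ f b) : PowerSeries.X ∣ ∏ b ∈ T, (1 - f b) - 1 := by
  rw [PowerSeries.X_dvd_iff, map_sub, map_prod, prod_eq_one fun b hb => by
    rw [map_sub, PowerSeries.X_dvd_iff.1 (hf b hb), map_one, sub_zero], map_one, sub_self]

include c h nf huv hs hC hv hv' hu huu hq h1 in
theorem fn_F3 : (∀ j, ∃ a, ι a = w (sh s) j) ∧ ∃ S Q : PowerSeries B,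
    ι (PowerSeries.C ν) * ξ (Function.update s 0 v) +
      (1 + ι (PowerSeries.C ν) * ξ (Function.update s 0 u)) = ι S ∧
    ι (PowerSeries.C ν) * ξ (Function.update s 0 v) *
      (1 + ι (PowerSeries.C ν) * ξ (Function.update s 0 u)) = ι Q ∧
    PowerSeries.constantCoeff S = 1 - ν ∧ PowerSeries.X ∣ Q ∧ FNz e Q := by
  classical
  have huC : u ∈ C := h1 ▸ hC 1 le_rfl (by omega)
  have hvC : v ∈ C := hv ▸ hC q (by omega) le_rfl
  have e1 : sh s = shf s 1 := rfl
  have e2 : sh (sh s) = shf s 2 := by rw [e1, sh_shf]; rfl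
  have e3 : sh s 0 = u := by rw [e1, shf_apply_zero, h1]
  obtain ⟨hw, -, hξ⟩ := fn_F1' c h nf huv hs hC hv' hu huu hq h1 (i := 1) le_rfl (by omega)
  rw [← e1] at hw hξ
  refine ⟨hw, ?_⟩
  obtain ⟨z1, hz1⟩ := hξ h1
  have hx : ∀ b, ∃ z, b ≠ u → b ≠ v → ι z = ξ (Function.update s 0 b) := fun b => by
    by_cases hb : b ≠ u ∧ b ≠ v
    · obtain ⟨z, hz⟩ := (fn_A c h nf (Function.update s 0 b) (by rwa [h.sh_update nf hs])
        fun j hj => by
          rw [Function.update_self] at hj ⊢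
          exact .inl (c.oth _ _ hj (fun a => hb.2 a.2) fun a => hb.1 a.2)).2
      exact ⟨z, fun _ _ => hz⟩
    · exact ⟨0, fun a b => absurd ⟨a, b⟩ hb⟩
  choose x hx using hx
  choose a ha using hw
  have hnz : FNz e (a v) := fn_F2 c h nf huv hs hC hv hv' hu huu hq h1 (q - 1).toNat 1 le_rfl
    (by omega) _ (ha v)
  have d1 : PowerSeries.X ∣ a v := by
    have s2u : s 2 ≠ u := huu 1 le_rfl (by omega) h1
    have s2v : s 2 ≠ v := hv' 2 (by omega) (by omega)
    have d2 : ι PowerSeries.X ∣ w (sh (sh s)) v := by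
      rw [e2]
      exact fn_dvd c nf _ (by rw [shf_apply_zero]; exact s2v.symm) (fun a => huv a.1.symm)
        (by rw [shf_apply_zero]; exact fun a => s2u a.2)
    refine c.dvd _ ?_
    rw [ha, nf.off _ v (e3 ▸ huv.symm), ← hz1, map_mul]
    exact (dvd_add d2 ((Dvd.intro _ rfl).mul_right _)).mul_left _
  have d3 : PowerSeries.X ∣ a u - 1 := by
    refine c.dvd _ ?_
    have := nf.diag_eq (sh s)
    rw [e3] at this
    rw [map_sub, ha, this, map_one, sub_sub_cancel_left, dvd_neg]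
    refine dvd_sum fun j hj => ?_
    by_cases hjv : j = v
    · rw [hjv, ← ha]; exact map_dvd ι d1
    · exact fn_dvd c nf _ (e3 ▸ ne_of_mem_erase hj) (fun a => ne_of_mem_erase hj a.1)
        fun a => hjv a.1
  have ev : ∀ y y' : Fin d, y ∈ C → y' ∈ C → y ≠ y' → (y = u ∧ y' = v ∨ y = v ∧ y' = u) →
      ∃ V, PowerSeries.X ∣ V - 1 ∧ -ξ (Function.update s 0 y) *
        (1 - ι (t y y') * ξ (Function.update s 0 y')) = ι (a y * V) := by
    intro y y' hy hy' hyy' hor
    have f1 := h.fn_ev nf hs hy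
    have f2 : ∀ b ∈ (C.erase y).erase y', b ≠ u ∧ b ≠ v := fun b hb => by
      have b1 := ne_of_mem_erase hb
      have b2 := ne_of_mem_erase (mem_of_mem_erase hb)
      rcases hor with ⟨rfl, rfl⟩ | ⟨rfl, rfl⟩
      exacts [⟨b2, b1⟩, ⟨b1, b2⟩]
    rw [← mul_prod_erase _ _ (mem_erase.2 ⟨hyy'.symm, hy'⟩),
      prod_congr (s₁ := (C.erase y).erase y') (g := fun b => ι (1 - t y b * x b)) rfl
        fun b hb => by rw [map_sub, map_one, map_mul, hx b (f2 b hb).1 (f2 b hb).2],
      ← map_prod, ← ha] at f1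
    obtain ⟨V, V1, V2⟩ := fn_unit (fn_prod (T := (C.erase y).erase y') (f := fun b => t y b * x b)
      fun b hb => (c.oth _ _ (ne_of_mem_erase (mem_of_mem_erase hb)).symm
        (fun a => (f2 b hb).2 a.2) fun a => (f2 b hb).1 a.2).mul_right _)
    refine ⟨V, V2, ?_⟩
    rw [map_mul, ← f1, mul_assoc, mul_assoc, ← map_mul, V1, map_one, mul_one]
  obtain ⟨V, V1, V2⟩ := ev u v huC hvC huv (.inl ⟨rfl, rfl⟩)
  obtain ⟨W, W1, W2⟩ := ev v u hvC huC huv.symm (.inr ⟨rfl, rfl⟩)
  rw [c.uv] at V2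
  rw [c.vu, map_neg] at W2
  refine ⟨1 + - PowerSeries.C ν * (a v * W) - PowerSeries.C ν * (a u * V),
    - PowerSeries.C ν * (a v * W), ?_, ?_, ?_, (d1.mul_right _).mul_left _, ?_⟩
  · simp only [map_sub, map_add, map_one, map_mul ι (- PowerSeries.C ν), map_neg,
      map_mul ι (PowerSeries.C ν), ← V2, ← W2]
    ring
  · simp only [map_mul ι (- PowerSeries.C ν), map_neg, ← W2]
    ring
  · have g1 := PowerSeries.X_dvd_iff.1 d1
    have g2 := PowerSeries.X_dvd_iff.1 d3
    have g3 := PowerSeries.X_dvd_iff.1 V1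
    rw [map_sub, map_one, sub_eq_zero] at g2 g3
    simp [g1, g2, g3]
  · exact FNz.mul ⟨0, - PowerSeries.C ν, by simp, by simp [c.ev]⟩ (hnz.mul (FNz.of_one W1))

end Pool.Agent.MP_9b2bac_nt.Z
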