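import Mathlib
import Pool.Agent.MP_9b2bac_nt.VExt
import Pool.Agent.MP_9b2bac_nt.VFine2

/- The exchange of the next letter with a later letter. -/

set_option autoImplicit false

namespace Pool.Agent.MP_9b2bac_nt.Z

variable {d : ℕ} {A : Type} [CommRing A] [IsDomain A]

/-- A conjugation over the fraction field of an integrally closed subring. -/
theorem fn_conj {P E : Type} [CommRing P] [IsDomain P] [IsIntegrallyClosed P] [CommRing E]
    [IsDomain E] (ι : P →+* E) (hι : Function.Injective ι) {a b : E} {S Q : P}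
    (hs : a + b = ι S) (hp : a * b = ι Q) (ha : ∀ x, ι x ≠ a) :
    ∃ (Ω : Type) (_ : Field Ω) (κ : E →+* Ω) (γ : Ω ≃+* Ω), Function.Injective κ ∧
      (∀ x, γ (κ (ι x)) = κ (ι x)) ∧ γ (κ a) = κ b := by
  let Ω := AlgebraicClosure (FractionRing E)
  let κ : E →+* Ω := algebraMap _ _
  have hκ : Function.Injective κ :=
    (algebraMap (FractionRing E) Ω).injective.comp (IsFractionRing.injective E _)
  let F := FractionRing P
  have hg : Function.Injective (κ.comp ι) := hκ.comp hι
  let ψ : F →+* Ω := IsFractionRing.lift hg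
  have hψ : ∀ x, ψ (algebraMap P F x) = κ (ι x) := IsFractionRing.lift_algebraMap hg
  let _ : Algebra F Ω := ψ.toAlgebra
  have h1 : κ a + κ b = ψ (algebraMap P F S) := by rw [hψ, ← hs, map_add]
  have h2 : κ a * κ b = ψ (algebraMap P F Q) := by rw [hψ, ← hp, map_mul]
  obtain ⟨γ, g1, g2⟩ := conj_root (F := F) (Ω := Ω) h1 h2 (by
    rintro ⟨x, hx⟩
    have hx' : ψ x = κ a := hx
    have h3 : IsIntegral P x := by
      refine ⟨Polynomial.X ^ 2 - Polynomial.C S * Polynomial.X + Polynomial.C Q, by monicity!, ?_⟩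
      apply ψ.injective
      simp only [Polynomial.eval₂_add, Polynomial.eval₂_sub, Polynomial.eval₂_mul,
        Polynomial.eval₂_pow, Polynomial.eval₂_X, Polynomial.eval₂_C, map_add, map_sub, map_mul,
        map_pow, map_zero, hx', ← h1, ← h2]
      ring
    obtain ⟨y, rfl⟩ := IsIntegrallyClosed.algebraMap_eq_of_integral h3
    exact ha y (hκ (by rw [← hψ, hx'])))
  exact ⟨Ω, inferInstance, κ, γ, hκ, fun x => by rw [← hψ]; exact g1 _, g2⟩

theorem fn_core {k : Type} [Field k] {C : Finset (Fin d)} {u v : Fin d} (huv : u ≠ v)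
    {l : Fin d → k} (hl : Function.Injective l) {c : Fin d → Fin d → PowerSeries k}
    (hc : ∀ j i, j ≠ i → (lamD v u l j - lamD v u l i) * c j i = PowerSeries.X ∧
      PowerSeries.X * PowerSeries.C (PowerSeries.constantCoeff (c j i)) = tb k v u j i)
    {w : Seq d → Fin d → PowerSeries (PowerSeries k)} {ξ : Seq d → PowerSeries (PowerSeries k)}
    (nf0 : NF (fun j i => if j ∈ C ∧ i ∈ C then PowerSeries.X * PowerSeries.C (c j i) else 0) w ξ)
    {s : Seq d} {q : ℤ} (hs : Term C s)
    (hC : ∀ i : ℤ, 1 ≤ i → i ≤ q → s i ∈ C) (hv : s q = v)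
    (hv' : ∀ i : ℤ, 1 ≤ i → i < q → s i ≠ v) (hu : ¬ Occ C s q u)
    (huu : ∀ i : ℤ, 1 ≤ i → i < q → s i = u → s (i + 1) ≠ u) (hq : 3 ≤ q) (h1 : s 1 = u) :
    ∃ (S : Type) (_ : CommRing S) (β β' : PowerSeries (PowerSeries k) →+* S),
      Function.Injective β ∧ Function.Injective β' ∧
      (∀ x, β' (PowerSeries.C x) = β (PowerSeries.C x)) ∧ β' PowerSeries.X = β PowerSeries.X ∧
      ∀ j, β' (w (Function.update s 0 u) j) = β (w (Function.update s 0 v) j) := by
  have huC : u ∈ C := h1 ▸ hC 1 le_rfl (by omega)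
  have hvC : v ∈ C := hv ▸ hC q (by omega) le_rfl
  let ι : PowerSeries (Polynomial k) →+* PowerSeries (PowerSeries k) :=
    PowerSeries.map Polynomial.coeToPowerSeries.ringHom
  have hι : Function.Injective ι := PowerSeries.map_injective _ (Polynomial.coe_injective k)
  have i1 : ι PowerSeries.X = PowerSeries.X := PowerSeries.map_X _
  have i2 : ι (PowerSeries.C Polynomial.X) = PowerSeries.C PowerSeries.X := by simp [ι]
  have i3 : ∀ x : PowerSeries k, ι (PowerSeries.map Polynomial.C x) =
      swp k (PowerSeries.C x) := fun x => by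
    rw [swp_C]; ext n; simp [ι]
  have i4 : ∀ a, PowerSeries.constantCoeff (ι a) =
      ((PowerSeries.constantCoeff a : Polynomial k) : PowerSeries k) := fun a => rfl
  let t : Fin d → Fin d → PowerSeries (Polynomial k) := fun j i =>
    if j ∈ C ∧ i ∈ C then PowerSeries.C Polynomial.X * PowerSeries.map Polynomial.C (c j i) else 0
  have ht : ∀ j i, swp k (if j ∈ C ∧ i ∈ C then PowerSeries.X * PowerSeries.C (c j i) else 0) =
      ι (t j i) := fun j i => by
    simp only [t]
    split_ifs
    · rw [map_mul, map_mul, i2, i3, swp_X]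
    · rw [map_zero, map_zero]
  have nf := nf0.map (swp k)
  simp only [ht] at nf
  have l1 : lamD v u l u - lamD v u l v = PowerSeries.X := by simp [lamD, huv.symm]
  have col : FCol C u v Polynomial.X (Polynomial.evalRingHom (1 : k)) ι t := by
    refine ⟨?_, ?_, fun j i hji a b => ?_, fun y hy a b => ?_, by simp, hι, fun a ha => ?_⟩
    · have := (hc u v huv).1
      rw [l1, mul_right_eq_self₀] at this
      simp [t, huC, hvC, this.resolve_right PowerSeries.X_ne_zero]
    · have : c v u = -1 := mul_left_cancel₀ PowerSeries.X_ne_zero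
        (by linear_combination - (hc v u huv.symm).1 - c v u * l1)
      simp [t, huC, hvC, this]
    · simp only [t]
      split_ifs
      · have := (hc j i hji).2
        rw [tb, if_neg a, if_neg b, mul_eq_zero, or_iff_right PowerSeries.X_ne_zero,
          map_eq_zero] at this
        have h2 := map_dvd (PowerSeries.map (Polynomial.C : k →+* Polynomial k))
          (PowerSeries.X_dvd_iff.2 this)
        rw [PowerSeries.map_X] at h2
        exact h2.mul_left _
      · exact dvd_zero _
    · have h2 : l v - l y ≠ 0 := sub_ne_zero.2 (hl.ne (Ne.symm b))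
      have h3 := (hc v y (Ne.symm b)).1
      rw [lamD, lamD, if_neg huv.symm, if_neg a, ← map_sub] at h3
      have h4 : c v y = PowerSeries.X * PowerSeries.C (l v - l y)⁻¹ := by
        rw [← h3, mul_right_comm, ← map_mul, mul_inv_cancel₀ h2, map_one, one_mul]
      refine ⟨PowerSeries.C (Polynomial.X * Polynomial.C (l v - l y)⁻¹), ?_, by simpa using h2⟩
      simp only [t, hvC, hy, and_self, if_true, h4, map_mul, PowerSeries.map_X, PowerSeries.map_C]
      ring
    · rw [i1, PowerSeries.X_dvd_iff, i4] at ha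
      exact PowerSeries.X_dvd_iff.2 (Polynomial.coe_eq_zero_iff.1 ha)
  have clu : Clu C (fun j => swp k (PowerSeries.C (lamD v u l j)))
      (PowerSeries.X * PowerSeries.C PowerSeries.X) (PowerSeries.C PowerSeries.X)
      fun j i => ι (t j i) := by
    refine ⟨fun j i hj hi hji => ?_, fun j i a => ?_, fun j i _ => ?_, fun x hx => ?_,
      fun j i a => ?_, ?_⟩
    · rw [← ht, if_pos ⟨hj, hi⟩, ← map_sub, ← map_mul, mul_left_comm, ← map_sub, ← map_mul,
        (hc j i hji).1, map_mul, swp_X, swp_C, PowerSeries.map_X, mul_comm]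
    · rw [← ht, if_neg a, map_zero]
    · simp only [t]
      split_ifs
      · rw [map_mul, i2]; exact Dvd.intro _ rfl
      · rw [map_zero]; exact dvd_zero _
    · refine swp_inj ((ps_haus _ fun n => ?_).trans (map_zero _).symm)
      have := map_dvd (swp k) (hx n)
      rwa [map_pow, swp_C, PowerSeries.map_X] at this
    · by_contra b
      have := (hc j i b).1
      rw [PowerSeries.C_injective (swp_inj a), sub_self, zero_mul] at this
      exact PowerSeries.X_ne_zero this.symm
    · exact mul_ne_zero PowerSeries.X_ne_zero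
        ((map_ne_zero_iff _ PowerSeries.C_injective).2 PowerSeries.X_ne_zero)
  obtain ⟨hw, S, Q, f1, f2, f3, f4, f5⟩ := fn_F3 col clu nf huv hs hC hv hv' hu huu hq h1
  obtain ⟨Ω, _, κ, γ, hκ, g1, g2⟩ := fn_conj ι hι f1 f2 fun a ha => by
    have e1 : a * (S - a) = Q := hι (by rw [map_mul, map_sub, ← f1, ← f2, ha]; ring)
    refine fn_noroot (e := Polynomial.evalRingHom (1 : k)) (ν := Polynomial.X) (a := a)
      (b := S - a) (by simp) (by rw [add_sub_cancel, f3]) (e1 ▸ f4) (e1 ▸ f5) fun e2 => ?_
    have := congrArg (fun x => PowerSeries.constantCoeff (PowerSeries.constantCoeff x)) ha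
    simp only [i4, i2, e2] at this
    simp at this
  let G : PowerSeries (PowerSeries k) →+* Ω := (γ : Ω →+* Ω).comp κ
  have G1 : ∀ x, G (swp k (PowerSeries.C x)) = κ (swp k (PowerSeries.C x)) := fun x => by
    rw [← i3]; exact g1 _
  have G2 : G (PowerSeries.C PowerSeries.X) = κ (PowerSeries.C PowerSeries.X) := by
    rw [← i2]; exact g1 _
  have G3 : G PowerSeries.X = κ PowerSeries.X := by rw [← i1]; exact g1 _
  refine ⟨Ω, inferInstance, G.comp (swp k), κ.comp (swp k),
    (γ.injective.comp hκ).comp swp_inj, hκ.comp swp_inj, fun x => (G1 x).symm,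
    by simp only [RingHom.comp_apply, swp_X, G2], fun j => ?_⟩
  have s1 := (clu.stp nf (s := Function.update s 0 u) (by simpa using huC)).map κ
  have s2 := (clu.stp nf (s := Function.update s 0 v) (by simpa using hvC)).map G
  have up : ∀ b j, swp k (w (sh (Function.update s 0 b)) j) = swp k (w (sh s) j) :=
    fun b => congrFun (clu.sh_update nf hs b)
  simp only [up, Function.update_self] at s1 s2
  have G4 : ∀ j, G (swp k (w (sh s) j)) = κ (swp k (w (sh s) j)) := fun j => by
    obtain ⟨a, ha⟩ := hw j
    rw [← ha]; exact g1 _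
  have G5 : G (swp k (PowerSeries.C (lamD v u l v)) + PowerSeries.X * PowerSeries.C PowerSeries.X *
      swp k (ξ (Function.update s 0 v))) = κ (swp k (PowerSeries.C (lamD v u l u)) +
      PowerSeries.X * PowerSeries.C PowerSeries.X * swp k (ξ (Function.update s 0 u))) := by
    have : G _ = _ := g2
    rw [i2] at this
    rw [map_add, G1, mul_assoc, map_mul, G3, this, ← map_mul, ← map_add, eq_add_of_sub_eq l1,
      map_add PowerSeries.C, map_add (swp k), swp_C PowerSeries.X, PowerSeries.map_X]
    congr 1; ring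
  simp only [G1, G4, G5, map_mul G PowerSeries.X, G2, G3, ← map_mul κ] at s2
  exact congrFun (Stp.det (hκ.comp clu.inj) s1 s2) j

theorem fine {C : Finset (Fin d)} {u v : Fin d} (huv : u ≠ v) {s : Seq d} (hs : Term C s)
    (q : ℕ) (hq : 3 ≤ q) (h1 : s 1 = u) (hC : ∀ i : ℕ, 1 ≤ i → i ≤ q → s i ∈ C) (hv : s q = v)
    (hv' : ∀ i : ℕ, 1 ≤ i → i < q → s i ≠ v) (hu : ¬ Occ C s q u)
    (huu : ∀ i : ℕ, 1 ≤ i → i < q → s i = u → s (i + 1) ≠ u) :
    ∃ γ : Gam A d, ∀ j, γ (st A C (Function.update s 0 u) j) =
      st A C (Function.update s 0 v) j := by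
  let k := FractionRing (AA A d)
  let e : AA A d →+* k := algebraMap _ _
  have he : Function.Injective e := IsFractionRing.injective (AA A d) _
  have hl : Function.Injective fun j => e (MvPolynomial.X j) := he.comp MvPolynomial.X_injective
  choose c hc using exists_cD huv.symm hl
  obtain ⟨w, ξ, h⟩ := exists_NF
    (fun j i => if j ∈ C ∧ i ∈ C then PowerSeries.X * PowerSeries.C (c j i) else 0) fun _ _ _ => by
      split_ifs
      exacts [Dvd.intro _ rfl, dvd_zero _]
  obtain ⟨α, hα, a1, a2, a3⟩ := exists_alphaC C (phiD v u e) (phiD_inj huv.symm he)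
    (fun j i _ _ hji => by simpa [phiD] using (hc j i hji).1) h
  obtain ⟨S, _, β, β', hβ, hβ', b1, b2, b3⟩ := fn_core huv hl hc h hs (q := q)
    (fun i a b => by lift i to ℕ using (by omega); exact hC i (by omega) (by omega)) hv
    (fun i a b => by lift i to ℕ using (by omega); exact hv' i (by omega) (by omega)) hu
    (fun i a b => by lift i to ℕ using (by omega); exact huu i (by omega) (by omega))
    (by omega) h1
  exact ext_gam (RC A C) (β.comp α) (β'.comp α) (hβ.comp hα) (hβ'.comp hα) (fun x => by
    have : (β'.comp α).comp (algebraMap (Polynomial (AA A d)) _) =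
        (β.comp α).comp (algebraMap (Polynomial (AA A d)) _) :=
      Polynomial.ringHom_ext (fun x => by simp only [RingHom.comp_apply, a1, b1])
        (by simp only [RingHom.comp_apply, a2, map_mul, b1, b2])
    exact DFunLike.congr_fun this x) (zC A C (Function.update s 0 u))
    (zC A C (Function.update s 0 v)) (fun j => by simp only [RingHom.comp_apply, a3, b3])
    fun j => alg_wC (hs.update 0 u) j

end Pool.Agent.MP_9b2bac_nt.Z
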