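import Mathlib
import Pool.Agent.MP_9b2bac_nt.VFine

/- Two roots of a perturbed product of linear factors are exchanged by an automorphism. -/

set_option autoImplicit false

namespace Pool.Agent.MP_9b2bac_nt.Z.TLevX

open Finset PowerSeries

variable {d : ℕ}

theorem deg_prod {R : Type} [CommRing R] [IsDomain R] (x : Fin d → R) :
    (∏ k, (Polynomial.X - Polynomial.C (x k))).degree = (d : WithBot ℕ) := by
  rw [Polynomial.degree_prod]
  simp

theorem mon_prod {R : Type} [CommRing R] (x : Fin d → R) :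
    (∏ k, (Polynomial.X - Polynomial.C (x k))).Monic :=
  Polynomial.monic_prod_of_monic _ _ fun _ _ => Polynomial.monic_X_sub_C _

theorem fac {R : Type} [CommRing R] [IsDomain R] (hd : 0 < d) {lam x : Fin d → R}
    (hl : Function.Injective lam) {c : R} (h : ∀ j, ∏ k, (lam j - x k) = c) :
    ∏ k, (Polynomial.X - Polynomial.C (x k)) =
      ∏ j, (Polynomial.X - Polynomial.C (lam j)) + Polynomial.C c := by
  refine Polynomial.eq_of_degree_sub_lt_of_eval_index_eq univ (v := lam) hl.injOn ?_ fun j _ => ?_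
  · rw [← sub_sub, card_univ, Fintype.card_fin]
    refine (Polynomial.degree_sub_le _ _).trans_lt (max_lt ?_ ?_)
    · exact (Polynomial.degree_sub_lt_left ((deg_prod x).trans (deg_prod lam).symm) (mon_prod x).ne_zero
        ((mon_prod x).leadingCoeff.trans (mon_prod lam).leadingCoeff.symm)).trans_eq (deg_prod x)
    · exact Polynomial.degree_C_le.trans_lt (by exact_mod_cast hd)
  · simp only [Polynomial.eval_add, Polynomial.eval_prod, Polynomial.eval_sub, Polynomial.eval_X,
      Polynomial.eval_C, h j]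
    rw [prod_eq_zero (mem_univ j) (sub_self _), zero_add]

theorem prod_eq {R : Type} [CommRing R] [IsDomain R] (hd : 0 < d) {lam x : Fin d → R}
    (hl : Function.Injective lam) {c : R} (h : ∀ j, ∏ k, (lam j - x k) = c) (y : R) :
    ∏ k, (y - x k) = ∏ j, (y - lam j) + c := by
  simpa [Polynomial.eval_prod] using congrArg (Polynomial.eval y) (fac hd hl h)

theorem sum_eq {R : Type} [CommRing R] [IsDomain R] (hd : 1 < d) {lam x : Fin d → R}
    (hl : Function.Injective lam) {c : R} (h : ∀ j, ∏ k, (lam j - x k) = c) :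
    ∑ k, x k = ∑ j, lam j := by
  have h1 := congrArg (fun p => Polynomial.coeff p (#(univ : Finset (Fin d)) - 1))
    (fac (by omega) hl h)
  have h2 : 0 < #(univ : Finset (Fin d)) := by simp; omega
  simp only [Polynomial.coeff_add, Polynomial.prod_X_sub_C_coeff_card_pred _ _ h2] at h1
  rw [Polynomial.coeff_C, if_neg (by simp; omega)] at h1
  linear_combination -h1

theorem hens {D : Type} [CommRing D] [IsDomain D] (l : Fin d → D) (j : Fin d)
    (hu : ∀ i, i ≠ j → IsUnit (l j - l i)) :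
    ∃ z : D⟦X⟧, constantCoeff z = l j ∧ ∏ i, (z - C (l i)) + X ^ d = 0 := by
  have hd : 0 < d := j.pos
  let f : Polynomial D⟦X⟧ := ∏ i, (Polynomial.X - Polynomial.C (C (l i))) + Polynomial.C (X ^ d)
  have hf : f.Monic := (mon_prod _).add_of_left (by
    rw [deg_prod]; exact Polynomial.degree_C_le.trans_lt (by exact_mod_cast hd))
  have e : ∀ z, f.eval z = ∏ i, (z - C (l i)) + X ^ d := fun z => by
    simp [f, Polynomial.eval_prod]
  obtain ⟨z, h1, h2⟩ := HenselianRing.is_henselian (I := Ideal.span {(X : D⟦X⟧)}) f hf (C (l j))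
    (by
      rw [e, prod_eq_zero (mem_univ j) (sub_self _), zero_add, Ideal.mem_span_singleton]
      exact dvd_pow_self _ hd.ne')
    (by
      refine IsUnit.map _ ?_
      simp only [f]
      rw [← mul_prod_erase _ _ (mem_univ j)]
      simp only [map_add, Polynomial.derivative_mul, Polynomial.derivative_C, add_zero,
        Polynomial.derivative_sub, Polynomial.derivative_X, sub_zero, one_mul, Polynomial.eval_add,
        Polynomial.eval_mul, Polynomial.eval_sub, Polynomial.eval_X, Polynomial.eval_C, sub_self,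
        zero_mul, Polynomial.eval_prod]
      refine IsUnit.prod_iff.2 fun i hi => ?_
      rw [← map_sub]
      exact (hu i (ne_of_mem_erase hi)).map _)
  refine ⟨z, ?_, by rw [← e]; exact h1⟩
  rw [Ideal.mem_span_singleton, X_dvd_iff, map_sub, constantCoeff_C, sub_eq_zero] at h2
  exact h2

theorem core0 {D K : Type} [CommRing D] [IsDomain D] [IsPrincipalIdealRing D] [Field K]
    (κ : D →+* K) (hκ : Function.Injective κ) {l : Fin d → D} (hl : Function.Injective l)
    {u v : Fin d} (huv : u ≠ v) (hu : ∀ j i, i ≠ j → j ≠ u → j ≠ v → IsUnit (l j - l i))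
    (hn : ¬ IsUnit (l u - l v)) {ρ : Fin d → K⟦X⟧} (h0 : ∀ j, constantCoeff (ρ j) = κ (l j))
    (h1 : ∀ j, ∏ i, (C (κ (l j)) - ρ i) = X ^ d) :
    ∃ (Ω : Type) (_ : Field Ω) (σ : K⟦X⟧ →+* Ω) (γ : Ω ≃+* Ω), Function.Injective σ ∧
      (∀ x, γ (σ (PowerSeries.map κ x)) = σ (PowerSeries.map κ x)) ∧
      ∀ j, γ (σ (ρ j)) = σ (ρ (Equiv.swap u v j)) := by
  have hd : 1 < d := by have := u.2; have := v.2; have := Fin.val_ne_of_ne huv; omega
  let ι : D⟦X⟧ →+* K⟦X⟧ := PowerSeries.map κ
  have hι : Function.Injective ι := PowerSeries.map_injective _ hκ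
  have i1 : ∀ x, ι (C x) = C (κ x) := fun x => map_C _ _
  have i2 : ι X = X := map_X _
  have i3 : ∀ x, constantCoeff (ι x) = κ (constantCoeff x) := fun _ => rfl
  have hl' : Function.Injective fun j => (C (κ (l j)) : K⟦X⟧) :=
    C_injective.comp (hκ.comp hl)
  have hz : ∀ j, ∃ z : D⟦X⟧, j ≠ u → j ≠ v → ι z = ρ j ∧ constantCoeff z = l j := fun j => by
    by_cases hj : j ≠ u ∧ j ≠ v
    swap
    · exact ⟨0, fun a b => absurd ⟨a, b⟩ hj⟩
    obtain ⟨z, z1, z2⟩ := hens l j fun i hi => hu j i hi hj.1 hj.2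
    refine ⟨z, fun _ _ => ⟨?_, z1⟩⟩
    have e := congrArg ι z2
    simp only [map_add, map_prod, map_sub, map_pow, i1, i2, map_zero] at e
    rw [← prod_eq (by omega) hl' h1, prod_eq_zero_iff] at e
    obtain ⟨i, -, e⟩ := e
    rw [sub_eq_zero] at e
    have e2 := congrArg constantCoeff e
    rw [i3, z1, h0] at e2
    rw [e, hl (hκ e2)]
  choose z hz using hz
  let T : Finset (Fin d) := (univ.erase u).erase v
  have hT : ∀ j ∈ T, j ≠ u ∧ j ≠ v := fun j hj =>
    ⟨ne_of_mem_erase (mem_of_mem_erase hj), ne_of_mem_erase hj⟩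
  have hv : v ∈ univ.erase u := mem_erase.2 ⟨huv.symm, mem_univ _⟩
  have s1 : (C (κ (l u)) - ρ u) + (C (κ (l u)) - ρ v) =
      ι (2 * C (l u) - ∑ j, C (l j) + ∑ j ∈ T, z j) := by
    have e := sum_eq hd hl' h1
    rw [← add_sum_erase _ _ (mem_univ u), ← add_sum_erase _ _ hv] at e
    simp only [map_add, map_sub, map_mul, map_sum, i1, map_ofNat]
    rw [sum_congr rfl fun j hj => (hz j (hT j hj).1 (hT j hj).2).1]
    linear_combination -e
  have hh : IsUnit (∏ j ∈ T, (C (l u) - z j)) := IsUnit.prod_iff.2 fun j hj => by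
    rw [isUnit_iff_constantCoeff, map_sub, constantCoeff_C, (hz j (hT j hj).1 (hT j hj).2).2,
      ← neg_sub]
    exact (hu j u (hT j hj).1.symm (hT j hj).1 (hT j hj).2).neg
  obtain ⟨c, hc⟩ := hh.exists_right_inv
  have s2 : (C (κ (l u)) - ρ u) * (C (κ (l u)) - ρ v) = ι (X ^ d * c) := by
    have e := h1 u
    rw [← mul_prod_erase _ _ (mem_univ u), ← mul_prod_erase _ _ hv] at e
    have e2 := congrArg ι hc
    simp only [map_mul, map_prod, map_sub, i1, map_one] at e2
    rw [prod_congr rfl fun j hj => by rw [(hz j (hT j hj).1 (hT j hj).2).1]] at e2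
    rw [map_mul, map_pow, i2, ← e]
    linear_combination -(C (κ (l u)) - ρ u) * (C (κ (l u)) - ρ v) * e2
  obtain ⟨Ω, _, σ, γ, hσ, g1, g2⟩ := fn_conj ι hι s1 s2 fun a ha => by
    obtain ⟨b, hb⟩ : ∃ b, ι b = C (κ (l u)) - ρ v :=
      ⟨_, by rw [map_sub ι _ a, ← s1, ha, add_sub_cancel_left]⟩
    have e1 : b * a = X ^ d * c := hι (by rw [map_mul, ha, hb, ← s2, mul_comm])
    have e2 : constantCoeff b = l u - l v := hκ (by
      rw [← i3, hb, map_sub, map_sub, constantCoeff_C, h0])
    have e3 : ¬ (X : D⟦X⟧) ∣ b := by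
      rw [X_dvd_iff, e2, sub_eq_zero]; exact hl.ne huv
    obtain ⟨a', rfl⟩ : (X : D⟦X⟧) ^ d ∣ a :=
      X_prime.pow_dvd_of_dvd_mul_left d e3 ⟨c, e1⟩
    have e4 : b * a' = c := mul_left_cancel₀ (pow_ne_zero d X_ne_zero) (by rw [← e1]; ring)
    have e5 : IsUnit b := isUnit_of_dvd_one ⟨a' * ∏ j ∈ T, (C (l u) - z j), by
      rw [← mul_assoc, e4, mul_comm, hc]⟩
    exact hn (e2 ▸ isUnit_iff_constantCoeff.1 e5)
  have g3 : γ (σ (C (κ (l u)))) = σ (C (κ (l u))) := by rw [← i1]; exact g1 _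
  have g4 := g1 (2 * C (l u) - ∑ j, C (l j) + ∑ j ∈ T, z j)
  rw [← s1] at g4
  simp only [map_add, map_sub, g3] at g2 g4
  refine ⟨Ω, inferInstance, σ, γ, hσ, g1, fun j => ?_⟩
  by_cases a : j = u
  · rw [a, Equiv.swap_apply_left]; linear_combination -g2
  by_cases b : j = v
  · rw [b, Equiv.swap_apply_right]; linear_combination g2 - g4
  rw [Equiv.swap_apply_of_ne_of_ne a b, ← (hz j a b).1]
  exact g1 _

end Pool.Agent.MP_9b2bac_nt.Z.TLevX
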