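import Mathlib
import Pool.Agent.MP_9b2bac_nt.VFine
import Pool.Agent.MP_9b2bac_nt.TLev1

/- The action on the words that use every letter once. -/

set_option autoImplicit false

namespace Pool.Agent.MP_9b2bac_nt.Z

variable {d : ℕ} {A : Type} [CommRing A] [IsDomain A]

namespace TLevX

open Finset PowerSeries

variable (A) in
/-- The root coordinate as a power series. -/
noncomputable def xs (s : Seq d) : (BB A d)⟦X⟧ := C (lB A (s 0)) + X * xi0 A s

theorem xs_const (s : Seq d) : constantCoeff (xs A s) = lB A (s 0) := by simp [xs]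

theorem lB_inj : Function.Injective (lB A : Fin d → BB A d) := fun _ _ h =>
  by_contra fun c => (lB_unit c).ne_zero (sub_eq_zero.2 h)

theorem lam_inj : Function.Injective fun j : Fin d => (C (lB A j) : (BB A d)⟦X⟧) :=
  C_injective.comp lB_inj

theorem iter (s : Seq d) (j : Fin d) (m : ℕ) : X ^ m * w0 A (shf s m) j =
    (∏ k ∈ range m, (C (lB A j) - xs A (shf s k))) * w0 A s j := by
  induction m with
  | zero => simp
  | succ m ih =>
    have := (sys0 A s).step m j
    rw [prod_range_succ, xs, shf_apply_zero, Nat.cast_succ]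
    linear_combination X ^ m * this + (C (lB A j) - (C (lB A (s m)) + X * xi0 A (shf s m))) * ih

theorem prod_per {s : Seq d} (hs : Per d s) (j : Fin d) :
    ∏ k : Fin d, (C (lB A j) - xs A (shf s (k : ℕ))) = X ^ d := by
  have h0 : w0 A s j ≠ 0 := fun h => by
    obtain ⟨i, hi⟩ := w0_ne A hs.2.2 j
    have hn : (0 : ℤ) < d := by exact_mod_cast hs.1
    have e := iter (A := A) s j (i % d).toNat
    rw [h, mul_zero, Int.toNat_of_nonneg (Int.emod_nonneg i hn.ne'),
      ← zper (f := shf s) (shf_per hs) (i % d) (i / d), Int.emod_add_ediv_mul] at e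
    exact hi ((mul_eq_zero.1 e).resolve_left (pow_ne_zero _ X_ne_zero))
  have e := iter (A := A) s j d
  have e2 := shf_per hs 0
  rw [zero_add, shf_zero] at e2
  rw [e2, prod_range] at e
  exact (mul_right_cancel₀ h0 e).symm

theorem exists_r {s : Seq d} (hs : Per d s) : ∃ r : Fin d → (BB A d)⟦X⟧,
    (∀ j, constantCoeff (r j) = lB A j) ∧ (∀ j, ∏ i, (C (lB A j) - r i) = X ^ d) ∧
      ∀ t, Per d t → xs A t = r (t 0) := by
  have hn : (0 : ℤ) < d := by exact_mod_cast hs.1
  have h1 : Function.Surjective fun k : Fin d => s (k : ℕ) := fun j => by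
    obtain ⟨i, rfl⟩ := hs.2.2 j
    have a := Int.emod_nonneg i hn.ne'
    have b := Int.emod_lt_of_pos i hn
    exact ⟨⟨(i % d).toNat, by omega⟩, by simp only [Int.toNat_of_nonneg a, hs.emod]⟩
  let e : Fin d ≃ Fin d := Equiv.ofBijective _ (Finite.surjective_iff_bijective.1 h1)
  have h2 : ∀ j, constantCoeff (xs A (shf s (e.symm j : ℕ))) = lB A j := fun j => by
    rw [xs_const, shf_apply_zero]
    exact congrArg _ (e.apply_symm_apply j)
  have h3 : ∀ j, ∏ i, (C (lB A j) - xs A (shf s (e.symm i : ℕ))) = X ^ d := fun j => by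
    rw [← prod_per hs j]
    exact e.symm.prod_comp fun k => C (lB A j) - xs A (shf s (k : ℕ))
  refine ⟨_, h2, h3, fun t ht => ?_⟩
  have hd : 0 < d := hs.1
  have h4 := prod_eq hd lam_inj h3 (xs A t)
  have h6 : ∏ k : Fin d, (xs A t - xs A (shf t (k : ℕ))) = 0 :=
    prod_eq_zero (mem_univ (⟨0, hd⟩ : Fin d)) (by simp)
  rw [← prod_eq hd lam_inj (prod_per ht), h6, prod_eq_zero_iff] at h4
  obtain ⟨i, -, h4⟩ := h4
  rw [sub_eq_zero] at h4
  have h5 := congrArg constantCoeff h4
  rw [xs_const, h2] at h5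
  rw [h4, lB_inj h5]

theorem core {u v : Fin d} (huv : u ≠ v) {r : Fin d → (BB A d)⟦X⟧}
    (h0 : ∀ j, constantCoeff (r j) = lB A j) (h1 : ∀ j, ∏ i, (C (lB A j) - r i) = X ^ d) :
    ∃ γ : Gam A d, ∀ j, γ (io A d (r j)) = io A d (r (Equiv.swap u v j)) := by
  let k := FractionRing (AA A d)
  let e : AA A d →+* k := algebraMap _ _
  have he : Function.Injective e := IsFractionRing.injective (AA A d) _
  have hl : Function.Injective fun j => e (MvPolynomial.X j) := he.comp MvPolynomial.X_injective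
  let φ := phiD v u e
  let l : Fin d → k⟦X⟧ := lamD v u fun j => e (MvPolynomial.X j)
  have f1 : ∀ j, φ (MvPolynomial.X j) = l j := fun j => by simp [φ, phiD, l]
  let K := FractionRing k⟦X⟧
  let κ : k⟦X⟧ →+* K := algebraMap _ _
  have hκ : Function.Injective κ := IsFractionRing.injective k⟦X⟧ _
  have hφ : Function.Injective (κ.comp φ) := hκ.comp (phiD_inj huv.symm he)
  have hu : ∀ y : Submonoid.powers (Dl A d), IsUnit (κ.comp φ y) := fun y =>
    ((map_ne_zero_iff _ hφ).2 (nonZeroDivisors.ne_zero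
      (powers_le_nonZeroDivisors_of_noZeroDivisors Dl_ne y.2))).isUnit
  let Φ : BB A d →+* K := IsLocalization.lift hu
  have hΦ : Function.Injective Φ := (IsLocalization.lift_injective_iff hu).2 fun x y => by
    rw [AB_inj.eq_iff, hφ.eq_iff]
  have hΦa : ∀ x, Φ (algebraMap _ _ x) = κ (φ x) := IsLocalization.lift_eq hu
  have f2 : ∀ j, Φ (lB A j) = κ (l j) := fun j => by rw [lB, hΦa, f1]
  let α : (BB A d)⟦X⟧ →+* K⟦X⟧ := PowerSeries.map Φ
  have hα : Function.Injective α := PowerSeries.map_injective _ hΦ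
  obtain ⟨Ω, _, σ, γ, hσ, g1, g2⟩ := core0 κ hκ (l := l)
    (fun i j h => MvPolynomial.X_injective (phiD_inj huv.symm he ((f1 i).trans (h.trans (f1 j).symm))))
    huv (fun j i a b c => by
      rw [isUnit_iff_constantCoeff, isUnit_iff_ne_zero]
      simp only [l, lamD, if_neg b]
      split_ifs with e1
      · simpa [sub_eq_zero, hl.eq_iff] using hl.ne c
      · simpa [sub_eq_zero, hl.eq_iff] using hl.ne a.symm)
    (by rw [isUnit_iff_constantCoeff]; simp [l, lamD, huv.symm]) (ρ := fun j => α (r j))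
    (fun j => by rw [← f2, ← h0]; rfl) fun j => by
      have := congrArg α (h1 j)
      simpa only [map_prod, map_sub, map_pow, α, map_C, map_X, f2] using this
  let G : K⟦X⟧ →+* Ω := (γ : Ω →+* Ω).comp σ
  let val : (⊤ : Subalgebra (Polynomial (AA A d)) (BB A d)⟦X⟧) →+* (BB A d)⟦X⟧ :=
    (Subalgebra.val _).toRingHom
  refine ext_gam ⊤ ((σ.comp α).comp val) ((G.comp α).comp val)
    ((hσ.comp hα).comp Subtype.val_injective)
    (((γ.injective.comp hσ).comp hα).comp Subtype.val_injective) (fun x => ?_)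
    (fun j => ⟨r j, trivial⟩) (fun j => ⟨r (Equiv.swap u v j), trivial⟩) g2 fun j => ?_
  · have : (G.comp α).comp (algebraMap (Polynomial (AA A d)) _) =
        (σ.comp α).comp (algebraMap (Polynomial (AA A d)) _) :=
      Polynomial.ringHom_ext (fun x => by
        have := g1 (C (φ x))
        simp only [RingHom.comp_apply, alg_C, α, map_C, hΦa] at this ⊢
        exact this) (by
        have := g1 X
        simp only [RingHom.comp_apply, alg_X, α, map_X] at this ⊢
        exact this)
    exact DFunLike.congr_fun this x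
  · refine ⟨∏ i, (Polynomial.X - Polynomial.C (Polynomial.C (MvPolynomial.X i))) +
      Polynomial.C (Polynomial.X ^ d), fun h => ?_, ?_⟩
    · have := congrArg (Polynomial.eval (Polynomial.C (MvPolynomial.X j))) h
      rw [Polynomial.eval_add, Polynomial.eval_prod, prod_eq_zero (mem_univ j) (by simp)] at this
      simp at this
    · have := prod_eq j.pos lam_inj h1 (r j)
      rw [prod_eq_zero (mem_univ j) (sub_self _)] at this
      simp only [map_add, map_prod, map_sub, Polynomial.aeval_X, Polynomial.aeval_C, alg_C,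
        map_pow, alg_X]
      exact this.symm

theorem act_zx {I : Finset ℕ} (g : GG A d I) (w : W d I) : g (zx A w) = zx A (g • w) := by
  have h1 : ∀ j, g (lR A I j) = lR A I j := fun j => g.commutes _
  have h2 : g (eR A d I) = eR A d I := g.commutes _
  rw [zx, zx, map_sub g, map_sum g, h2]
  exact congrArg (· - _) (sum_congr rfl fun j _ => by rw [map_mul g, h1, act_zw])

theorem zx_xs {I : Finset ℕ} (w : W d I) : (zx A w : (BB A d)⟦X⟧) = xs A w.1 := zx_val w

theorem act_pow {I : Finset ℕ} (g : GG A d I) (w : W d I) (i : ℤ) :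
    g • (shW d I ^ i) w = (shW d I ^ i) (g • w) := by
  have : Commute (MulAction.toPerm g) (shW d I) := Equiv.ext fun s => act_sh g s
  exact Equiv.congr_fun (this.zpow_right i).eq w

theorem per_pow {I : Finset ℕ} {w : W d I} (h : Per d w.1) (i : ℤ) :
    Per d ((shW d I ^ i) w).1 := by
  rw [shW_zpow]
  refine ⟨h.1, fun k => ?_, fun a => ?_⟩
  · simp only [shf]; rw [add_right_comm, h.2.1]
  · obtain ⟨k, hk⟩ := h.2.2 a
    exact ⟨k - i, by simpa [shf] using hk⟩

theorem all_of_zero {I : Finset ℕ} (g : GG A d I) (ρ : Fin d → Fin d)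
    (h : ∀ w : W d I, Per d w.1 → (g • w).1 0 = ρ (w.1 0)) (w : W d I) (hw : Per d w.1) :
    (g • w).1 = ρ ∘ w.1 := funext fun i => by
  have := h _ (per_pow hw i)
  rwa [act_pow, shW_zpow, shW_zpow, shf_apply_zero, shf_apply_zero] at this

end TLevX

theorem lev_rel (I : Finset ℕ) (g : GG A d I) :
    ∃ ρ : Fin d → Fin d, ∀ w : W d I, Per d w.1 → (g • w).1 = ρ ∘ w.1 := by
  classical
  refine ⟨fun j => if h : ∃ w : W d I, Per d w.1 ∧ w.1 0 = j then (g • h.choose).1 0 else j,
    TLevX.all_of_zero g _ fun w hw => ?_⟩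
  have h : ∃ w' : W d I, Per d w'.1 ∧ w'.1 0 = w.1 0 := ⟨w, hw, rfl⟩
  rw [dif_pos h]
  obtain ⟨r, -, -, hr⟩ := TLevX.exists_r (A := A) hw
  have e : zx A w = zx A h.choose := Subtype.ext (by
    rw [TLevX.zx_xs, TLevX.zx_xs, hr _ hw, hr _ h.choose_spec.1, h.choose_spec.2])
  have e2 := congrArg (fun x : RR A d I => PowerSeries.constantCoeff (g x : PowerSeries (BB A d))) e
  simp only [TLevX.act_zx, TLevX.zx_xs, TLevX.xs_const] at e2
  exact TLevX.lB_inj e2

theorem lev_swap (I : Finset ℕ) {u v : Fin d} (huv : u ≠ v) :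
    ∃ g : GG A d I, ∀ w : W d I, Per d w.1 → (g • w).1 = Equiv.swap u v ∘ w.1 := by
  by_cases h : ∃ w : W d I, Per d w.1
  swap
  · exact ⟨1, fun w hw => absurd ⟨w, hw⟩ h⟩
  obtain ⟨s, hs⟩ := h
  obtain ⟨r, h0, h1, hr⟩ := TLevX.exists_r (A := A) hs
  obtain ⟨γ, hγ⟩ := TLevX.core huv h0 h1
  obtain ⟨g, hg⟩ := exists_aut (I := I) (γ.toAlgHom.comp ((IsScalarTower.toAlgHom _
    (PowerSeries (BB A d)) (Om A d)).comp (RR A d I).val))
    (γ.injective.comp (io_inj.comp Subtype.val_injective))
  refine ⟨g, TLevX.all_of_zero g _ fun w hw => ?_⟩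
  have e : γ (io A d (zx A w)) = _ := hg (zx A w)
  rw [TLevX.act_zx, TLevX.zx_xs, TLevX.zx_xs, hr _ hw, hγ] at e
  have e2 := congrArg PowerSeries.constantCoeff (io_inj e)
  rw [h0, TLevX.xs_const] at e2
  exact (TLevX.lB_inj e2).symm

end Pool.Agent.MP_9b2bac_nt.Z
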