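import Mathlib

/- Isolation of a three-cycle by commutators. -/

set_option autoImplicit false

namespace Pool.Agent.MP_9b2bac_nt.Z

namespace VIsoX

open Equiv

theorem swap_of_pair {Y : Type} [DecidableEq Y] {x y x' y' : Y} (h : x ≠ y)
    (e : ({x, y} : Finset Y) = {x', y'}) : swap x y = swap x' y' := by
  have h1 : x ∈ ({x', y'} : Finset Y) := e ▸ by simp
  have h2 : y ∈ ({x', y'} : Finset Y) := e ▸ by simp
  simp only [Finset.mem_insert, Finset.mem_singleton] at h1 h2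
  rcases h1 with rfl | rfl <;> rcases h2 with rfl | rfl
  · exact absurd rfl h
  · rfl
  · exact swap_comm _ _
  · exact absurd rfl h

theorem pair_of_swap {Y : Type} [DecidableEq Y] {x y x' y' : Y} (h : x ≠ y)
    (e : swap x y = swap x' y') : ({x, y} : Finset Y) = {x', y'} := by
  have h1 : swap x' y' x = y := by rw [← e, swap_apply_left]
  by_cases a : x = x'
  · subst a
    rw [swap_apply_left] at h1
    rw [h1]
  by_cases b : x = y'
  · subst b
    rw [swap_apply_right] at h1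
    rw [h1, Finset.pair_comm]
  · rw [swap_apply_of_ne_of_ne a b] at h1
    exact absurd h1 h

theorem two_trans {M Y : Type} [Group M] (φ : M →* Perm Y) (K : Subgroup M) (Q : Y → Prop)
    (c : Y) (hc : Q c) (h0 : ∀ g ∈ K, ∀ x, Q x → Q (φ g x))
    (h1 : ∀ x y, Q x → Q y → ∃ g ∈ K, φ g x = y)
    (h2 : ∀ x y, Q x → Q y → x ≠ c → y ≠ c → ∃ g ∈ K, φ g c = c ∧ φ g x = y)
    {x x' y y' : Y} (hx : Q x) (hx' : Q x') (hy : Q y) (hy' : Q y') (a : x ≠ x') (b : y ≠ y') :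
    ∃ g ∈ K, φ g x = y ∧ φ g x' = y' := by
  obtain ⟨g1, k1, e1⟩ := h1 x c hx hc
  obtain ⟨g2, k2, e2⟩ := h1 y c hy hc
  obtain ⟨g3, k3, e3, e4⟩ := h2 (φ g1 x') (φ g2 y') (h0 g1 k1 _ hx') (h0 g2 k2 _ hy')
    (fun h => a ((φ g1).injective (e1.trans h.symm)))
    (fun h => b ((φ g2).injective (e2.trans h.symm)))
  refine ⟨g2⁻¹ * g3 * g1, K.mul_mem (K.mul_mem (K.inv_mem k2) k3) k1, ?_, ?_⟩
  · simp only [map_mul, map_inv, Perm.mul_apply, e1, e3]
    rw [← e2]
    exact (φ g2).symm_apply_apply y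
  · simp only [map_mul, map_inv, Perm.mul_apply, e4]
    exact (φ g2).symm_apply_apply y'

theorem sep {M Y : Type} [Group M] [DecidableEq Y] (φ0 φ : M →* Perm Y) (H K : Subgroup M)
    (hKH : K ≤ H) (P : Finset Y) (a o f1 f2 : Y) (ha : a ∉ P) (ho : o ∉ insert a P)
    (h1 : f1 ∈ P) (h2 : f2 ∈ P) (h12 : f1 ≠ f2) (μ : M) (hμ : μ ∈ H) (m0 : φ0 μ = swap f1 f2)
    (m1 : φ μ = swap f1 f2) (hK : ∀ g ∈ K, ∀ x ∈ P, φ g x ∈ P)
    (ht : ∀ x ∈ insert a P, ∀ y ∈ insert a P, x ≠ y → ∃ g ∈ K, φ0 g f1 = x ∧ φ0 g f2 = y) :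
    ∃ δ ∈ H, φ δ = 1 ∧ φ0 δ o = o ∧ ∃ q, φ0 δ q ≠ q := by
  have ex : ∀ T ∈ Finset.powersetCard 2 (insert a P), ∃ g ∈ K, {φ0 g f1, φ0 g f2} = T := by
    intro T hT
    obtain ⟨hs, hc⟩ := Finset.mem_powersetCard.1 hT
    obtain ⟨x, y, hxy, rfl⟩ := Finset.card_eq_two.1 hc
    obtain ⟨g, k, e1, e2⟩ := ht x (hs (by simp)) y (hs (by simp)) hxy
    exact ⟨g, k, by rw [e1, e2]⟩
  choose! g k e using ex
  have hcard : (Finset.powersetCard 2 P).card < (Finset.powersetCard 2 (insert a P)).card := by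
    rw [Finset.card_powersetCard, Finset.card_powersetCard, Finset.card_insert_of_notMem ha,
      Nat.choose_succ_succ', Nat.choose_one_right]
    exact Nat.lt_add_of_pos_left (Finset.card_pos.2 ⟨f1, h1⟩)
  obtain ⟨T, hT, T', hT', hne, heq⟩ := Finset.exists_ne_map_eq_of_card_lt_of_maps_to hcard
    (f := fun T => ({φ (g T) f1, φ (g T) f2} : Finset Y)) (fun T hT => by
      refine Finset.mem_coe.2 (Finset.mem_powersetCard.2 ⟨?_, Finset.card_pair
        fun h => h12 ((φ (g T)).injective h)⟩)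
      intro x hx
      simp only [Finset.mem_insert, Finset.mem_singleton] at hx
      rcases hx with rfl | rfl
      exacts [hK _ (k T hT) _ h1, hK _ (k T hT) _ h2])
  have c0 : ∀ u : M, φ0 (u * μ * u⁻¹) = swap (φ0 u f1) (φ0 u f2) := fun u => by
    rw [map_mul, map_mul, map_inv, m0, swap_apply_apply]
  have c1 : ∀ u : M, φ (u * μ * u⁻¹) = swap (φ u f1) (φ u f2) := fun u => by
    rw [map_mul, map_mul, map_inv, m1, swap_apply_apply]
  have hm : ∀ u ∈ K, u * μ * u⁻¹ ∈ H := fun u hu =>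
    H.mul_mem (H.mul_mem (hKH hu) hμ) (H.inv_mem (hKH hu))
  have fo : ∀ U ∈ Finset.powersetCard 2 (insert a P),
      swap (φ0 (g U) f1) (φ0 (g U) f2) o = o := by
    intro U hU
    have hs := (Finset.mem_powersetCard.1 hU).1
    rw [← e U hU] at hs
    exact swap_apply_of_ne_of_ne (fun h => ho (hs (by simp [h]))) fun h => ho (hs (by simp [h]))
  refine ⟨g T * μ * (g T)⁻¹ * (g T' * μ * (g T')⁻¹), H.mul_mem (hm _ (k T hT)) (hm _ (k T' hT')),
    ?_, ?_, ?_⟩
  · rw [map_mul, c1, c1, swap_of_pair (fun h => h12 ((φ (g T)).injective h)) heq, swap_mul_self]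
  · rw [map_mul, c0, c0, Perm.mul_apply, fo T' hT', fo T hT]
  · by_contra hq
    push Not at hq
    have h3 : φ0 (g T * μ * (g T)⁻¹ * (g T' * μ * (g T')⁻¹)) = 1 := Equiv.ext hq
    rw [map_mul, c0, c0, mul_eq_one_iff_eq_inv, swap_inv] at h3
    refine hne ?_
    rw [← e T hT, ← e T' hT']
    exact pair_of_swap (fun h => h12 ((φ0 (g T)).injective h)) h3

variable {G X ι Y : Type} [Group G] [MulAction G X]

variable (G) in
/-- The elements that preserve all the labelled families. -/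
def MM (B : ι → Y → X) : Subgroup G where
  carrier := {g | ∀ e, ∃ π : Perm Y, ∀ y, g • B e y = B e (π y)}
  mul_mem' := fun {a b} ha hb e => by
    obtain ⟨π, h⟩ := ha e
    obtain ⟨ρ, h'⟩ := hb e
    exact ⟨π * ρ, fun y => by rw [mul_smul, h', h, Perm.mul_apply]⟩
  one_mem' := fun _ => ⟨1, fun y => by simp⟩
  inv_mem' := fun {a} ha e => by
    obtain ⟨π, h⟩ := ha e
    exact ⟨π⁻¹, fun y => by rw [inv_smul_eq_iff, h]; simp⟩

theorem mem_MM [Finite Y] {B : ι → Y → X} (hB : ∀ e, Function.Injective (B e)) {g : G}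
    (h : ∀ e y, ∃ y', g • B e y = B e y') : g ∈ MM G B := by
  intro e
  choose f hf using h e
  have hi : Function.Injective f := fun x y hxy =>
    hB e (MulAction.injective g (by
      show g • B e x = g • B e y
      rw [hf, hf, hxy]))
  exact ⟨Equiv.ofBijective f (Finite.injective_iff_bijective.1 hi), hf⟩

variable (G) in
/-- The action on the labels. -/
noncomputable def psi {B : ι → Y → X} (hB : ∀ e, Function.Injective (B e)) (e : ι) :
    MM G B →* Perm Y :=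
  MonoidHom.mk' (fun g => (g.2 e).choose) fun a b => Equiv.ext fun y => hB e (by
    rw [← ((a * b).2 e).choose_spec, Perm.mul_apply, ← (a.2 e).choose_spec,
      ← (b.2 e).choose_spec, Subgroup.coe_mul, mul_smul])

theorem psi_spec {B : ι → Y → X} (hB : ∀ e, Function.Injective (B e)) (e : ι) (g : MM G B)
    (y : Y) : (g : G) • B e y = B e (psi G hB e g y) := (g.2 e).choose_spec y

theorem psi_eq {B : ι → Y → X} (hB : ∀ e, Function.Injective (B e)) {e : ι} {g : MM G B}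
    {y y' : Y} (h : (g : G) • B e y = B e y') : psi G hB e g y = y' :=
  hB e ((psi_spec hB e g y).symm.trans h)

theorem iso_abs [Finite ι] [DecidableEq Y] {B : ι → Y → X} (hB : ∀ e, Function.Injective (B e))
    (σ : Perm X) (hσ : ∀ (g : G) (x : X), g • σ x = σ (g • x)) (Pn : X → Prop)
    (hP : ∀ (g : G) x, Pn x → Pn (g • x)) (N : Subgroup G) (hN : N.Normal) (e0 : ι) (o x1 x2 : Y)
    (h1 : x1 ≠ o) (h2 : x2 ≠ o) (h12 : x1 ≠ x2) (t : MM G B) (htN : (t : G) ∈ N)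
    (ht : psi G hB e0 t = swap o x1)
    (ht' : ∀ w, Pn w → (∀ e y (k : ℤ), w ≠ (σ ^ k) (B e y)) → (t : G) • w = w)
    (H : Subgroup (MM G B)) (hH : ∀ g ∈ H, psi G hB e0 g o = o)
    (h2t : ∀ x x' y y', x ≠ o → x' ≠ o → y ≠ o → y' ≠ o → x ≠ x' → y ≠ y' →
      ∃ g ∈ H, psi G hB e0 g x = y ∧ psi G hB e0 g x' = y')
    (hsep : ∀ e, e ≠ e0 → ∃ δ ∈ H, psi G hB e δ = 1 ∧ ∃ p q, p ≠ o ∧ psi G hB e0 δ p = p ∧
      psi G hB e0 δ q ≠ q) :
    ∃ τ : MM G B, (τ : G) ∈ N ∧ ∃ y1 y2, y1 ≠ o ∧ y2 ≠ o ∧ y1 ≠ y2 ∧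
      psi G hB e0 τ = swap o y2 * swap o y1 ∧
      ∀ w, Pn w → (∀ y (k : ℤ), w ≠ (σ ^ k) (B e0 y)) → (τ : G) • w = w := by
  classical
  have := Fintype.ofFinite ι
  have hz : ∀ (g : G) (k : ℤ) (x : X), g • (σ ^ k) x = (σ ^ k) (g • x) := fun g k x => by
    have h : Commute (MulAction.toPerm g : Perm X) σ := Equiv.ext fun x => hσ g x
    exact DFunLike.congr_fun (h.zpow_right k).eq x
  have out : ∀ (g : MM G B) (w : X) (e : ι), (∀ y (k : ℤ), w ≠ (σ ^ k) (B e y)) →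
      ∀ y (k : ℤ), (g : G) • w ≠ (σ ^ k) (B e y) := by
    intro g w e h y k h'
    refine h (psi G hB e g⁻¹ y) k ?_
    rw [← psi_spec hB, ← hz, ← h', Subgroup.coe_inv, inv_smul_smul]
  have ind : ∀ S : Finset ι, e0 ∉ S → ∃ τ : MM G B, (τ : G) ∈ N ∧ ∃ y1 y2, y1 ≠ o ∧ y2 ≠ o ∧
      y1 ≠ y2 ∧ psi G hB e0 τ = swap o y2 * swap o y1 ∧
      ∀ w, Pn w → (∀ e, e ∉ S → ∀ y (k : ℤ), w ≠ (σ ^ k) (B e y)) → (τ : G) • w = w := by
    intro S
    induction S using Finset.induction_on with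
    | empty =>
      intro _
      obtain ⟨g, hg, e1, -⟩ := h2t x1 x2 x2 x1 h1 h2 h2 h1 h12 h12.symm
      refine ⟨t * (g * t * g⁻¹), N.mul_mem htN (hN.conj_mem _ htN g), x2, x1, h2, h1, h12.symm,
        ?_, fun w hw h => ?_⟩
      · rw [map_mul, map_mul, map_mul, map_inv, ht, ← swap_apply_apply, hH g hg, e1]
      · have h' := fun e => h e (Finset.notMem_empty e)
        simp only [Subgroup.coe_mul, mul_smul]
        rw [ht' _ (hP _ _ hw) fun e => out g⁻¹ w e (h' e), Subgroup.coe_inv, smul_inv_smul,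
          ht' w hw h']
    | insert e S _ ih =>
      intro h0
      obtain ⟨τ, hτ, y1, y2, a1, a2, a12, e1, e2⟩ := ih fun h => h0 (Finset.mem_insert_of_mem h)
      obtain ⟨δ0, d1, d2, p, q, d3, d4, d5⟩ := hsep e fun h => h0 (h ▸ Finset.mem_insert_self _ _)
      obtain ⟨g, hg, g1, g2⟩ := h2t p q y1 y2 d3 (fun h => d5 (h ▸ hH δ0 d1)) a1 a2
        (fun h => d5 (h ▸ d4)) a12
      set δ := g * δ0 * g⁻¹ with hδ
      have b0 : δ ∈ H := H.mul_mem (H.mul_mem hg d1) (H.inv_mem hg)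
      have b1 : psi G hB e δ = 1 := by
        rw [hδ, map_mul, map_mul, d2, mul_one, map_inv, mul_inv_cancel]
      have b2 : psi G hB e0 δ y1 = y1 := by
        rw [hδ, map_mul, map_mul, map_inv, ← g1]
        simp [d4]
      have b3 : psi G hB e0 δ y2 ≠ y2 := by
        rw [hδ, map_mul, map_mul, map_inv, ← g2]
        simpa using d5
      refine ⟨τ * (δ * τ⁻¹ * δ⁻¹), N.mul_mem hτ (hN.conj_mem _ (N.inv_mem hτ) δ),
        psi G hB e0 δ y2, y2, fun h => a2 ((psi G hB e0 δ).injective (h.trans (hH δ b0).symm)),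
        a2, b3, ?_, fun w hw h => ?_⟩
      · have c : psi G hB e0 (δ * τ⁻¹ * δ⁻¹) = swap o y1 * swap o (psi G hB e0 δ y2) := by
          conv_rhs => rw [← hH δ b0, ← b2, swap_apply_apply, swap_apply_apply]
          rw [map_mul, map_mul, map_inv, map_inv, e1, mul_inv_rev, swap_inv, swap_inv]
          group
        rw [map_mul, c, e1, mul_assoc, ← mul_assoc (swap o y1), swap_mul_self, one_mul]
      · by_cases hw' : ∀ y (k : ℤ), w ≠ (σ ^ k) (B e y)
        · have h' : ∀ e', e' ∉ S → ∀ y (k : ℤ), w ≠ (σ ^ k) (B e' y) := fun e' he' => by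
            by_cases c : e' = e
            · exact c ▸ hw'
            · exact h e' fun c' => (Finset.mem_insert.1 c').elim c he'
          have c := e2 _ (hP _ _ hw) fun e' he' => out δ⁻¹ w e' (h' e' he')
          simp only [Subgroup.coe_mul, mul_smul, Subgroup.coe_inv] at c ⊢
          rw [inv_smul_eq_iff.2 c.symm, smul_inv_smul, e2 w hw h']
        · push Not at hw'
          obtain ⟨y, k, rfl⟩ := hw'
          rw [hz, psi_spec hB, map_mul, map_mul, map_mul, map_inv, map_inv, b1]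
          simp
  obtain ⟨τ, hτ, y1, y2, a1, a2, a12, e1, e2⟩ := ind (Finset.univ.erase e0) (by simp)
  refine ⟨τ, hτ, y1, y2, a1, a2, a12, e1, fun w hw h => e2 w hw fun e he => ?_⟩
  obtain rfl : e = e0 := by simpa using he
  exact h

end VIsoX

end Pool.Agent.MP_9b2bac_nt.Z
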