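import Mathlib
import Pool.Agent.MP_9b2bac_nt.VDefs
import Pool.Agent.MP_9b2bac_nt.ZGrp
import Pool.Agent.MP_9b2bac_nt.VIso1

/- An aligned three-cycle on one level. -/

set_option autoImplicit false

namespace Pool.Agent.MP_9b2bac_nt.Z

variable {d : ℕ}

/-- The word `y 2 3 ... (d-1) 1 0 ... 0` of period `n`. -/
def ad (d : ℕ) [NeZero d] (n : ℕ) (y : Fin d) : Seq d := fun i =>
  if i % n = 0 then y else if i % n = ((d - 1 : ℕ) : ℤ) then L d 0 else zd d n i

namespace VIsoX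

open ZSweep Equiv

theorem addmod {n : ℕ} (hn : 0 < n) (i k : ℤ) (h0 : 0 ≤ k) (h1 : k ≤ n) :
    0 ≤ (i + k) % n ∧ (i + k) % n < n ∧ 0 ≤ i % n ∧ i % n < n ∧
      ((i + k) % n = i % n + k ∨ (i + k) % n = i % n + k - n) := by
  have hn' : (0 : ℤ) < n := by exact_mod_cast hn
  have a := Int.emod_nonneg i hn'.ne'
  have b := Int.emod_lt_of_pos i hn'
  refine ⟨Int.emod_nonneg _ hn'.ne', Int.emod_lt_of_pos _ hn', a, b, ?_⟩
  rw [← Int.emod_add_emod]
  by_cases h : i % n + k < n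
  · exact Or.inl (Int.emod_eq_of_lt (by omega) h)
  · right
    rw [← Int.sub_emod_right]
    exact Int.emod_eq_of_lt (by omega) (by omega)

theorem small {n : ℕ} (k : ℤ) (h0 : 0 ≤ k) (h1 : k < n) : k % n = k := Int.emod_eq_of_lt h0 h1

theorem mk_fix {u v : Fin d} {j : ℕ} {s : Seq d} (hj : 1 ≤ j)
    (h : ∀ y, s (y + 1) = u → s (y + 2) = v → s y ≠ u ∧ s y ≠ v) : mk u v j s = s := by
  funext i
  by_cases hh : Hit u v j s i
  · have a := h (i + j - 1) (by rw [sub_add_cancel]; exact hh.1 j hj le_rfl)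
      (by rw [show i + j - 1 + 2 = i + j + 1 by ring]; exact hh.2)
    rcases hj.eq_or_lt with rfl | h2
    · rw [show i + ((1 : ℕ) : ℤ) - 1 = i by push_cast; ring] at a
      exact mk_oth a.1 a.2
    · refine absurd ?_ a.1
      have := hh.1 (j - 1) (by omega) (by omega)
      rwa [show i + ((j - 1 : ℕ) : ℤ) = i + j - 1 by omega] at this
  · exact mk_not hh

theorem mk_comp (σ : Perm (Fin d)) (u v : Fin d) (j : ℕ) (s : Seq d) :
    mk (σ u) (σ v) j (fun i => σ (s i)) = fun i => σ (mk u v j s i) := by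
  funext i
  have h : Hit (σ u) (σ v) j (fun i => σ (s i)) i ↔ Hit u v j s i := by
    simp [Hit]
  by_cases hh : Hit u v j s i
  · rw [mk_hit (h.2 hh), mk_hit hh, σ.injective.swap_apply]
  · rw [mk_not fun a => hh (h.1 a), mk_not hh]

theorem per_comp {n : ℕ} {s : Seq d} (h : Per n s) (σ : Perm (Fin d)) :
    Per n fun i => σ (s i) :=
  ⟨h.1, fun i => congrArg σ (h.2.1 i), σ.surjective.comp h.2.2⟩

theorem per_shf {n : ℕ} {s : Seq d} (h : Per n s) (k : ℤ) : Per n (shf s k) :=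
  ⟨h.1, fun i => by
    show s (i + n + k) = s (i + k)
    rw [add_right_comm, h.2.1], fun c => by
    obtain ⟨y, hy⟩ := h.2.2 c
    exact ⟨y - k, by simpa [shf] using hy⟩⟩

variable [NeZero d] {n : ℕ}

theorem one_val (hd : 3 ≤ d) : (L d 0).val = 1 := L_val (m := d - 1) (by omega) (by omega)

theorem zd_spec (hd : 3 ≤ d) (hn : d < n) (i : ℤ) :
    (0 ≤ i % n ∧ i % n < d - 1 ∧ ((zd d n i).val : ℤ) = i % n + 1) ∨
      (d - 1 ≤ i % n ∧ i % n < n ∧ (zd d n i).val = 0) := by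
  have a := addmod (n := n) (by omega) i 0 le_rfl (by omega)
  unfold zd
  by_cases h : (i % n).toNat < d - 1
  · rw [min_eq_left h.le, L_val (m := d - 1) (by omega) h]
    omega
  · rw [min_eq_right (not_lt.1 h), L_top (m := d - 1) (by omega), Fin.val_zero]
    omega

theorem ad_spec (hd : 3 ≤ d) (hn : d < n) (y : Fin d) (i : ℤ) :
    (i % n = 0 ∧ (ad d n y i).val = y.val) ∨
      (0 < i % n ∧ i % n < d - 1 ∧ ((ad d n y i).val : ℤ) = i % n + 1) ∨
      (i % n = d - 1 ∧ (ad d n y i).val = 1) ∨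
      (d ≤ i % n ∧ i % n < n ∧ (ad d n y i).val = 0) := by
  have a := zd_spec hd hn i
  unfold ad
  split_ifs with h1 h2
  · exact Or.inl ⟨h1, rfl⟩
  · rw [one_val hd]
    omega
  · omega

theorem ad_zero (y : Fin d) : ad d n y 0 = y := by simp [ad]

theorem zd_per (hd : 3 ≤ d) (hn : d < n) : Per n (zd d n) := by
  refine ⟨by omega, fun i => by simp [zd], fun c => ?_⟩
  have hc := c.2
  by_cases c0 : c.val = 0
  · have s := zd_spec hd hn (n - 1)
    rw [small _ (by omega) (by omega)] at s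
    exact ⟨n - 1, Fin.ext (by omega)⟩
  · have s := zd_spec hd hn (c.val - 1)
    rw [small _ (by omega) (by omega)] at s
    exact ⟨c.val - 1, Fin.ext (by omega)⟩

theorem ad_per (hd : 3 ≤ d) (hn : d < n) (y : Fin d) : Per n (ad d n y) := by
  refine ⟨by omega, fun i => by simp [ad, zd], fun c => ?_⟩
  have hc := c.2
  by_cases c0 : c.val = 0
  · have s := ad_spec hd hn y (n - 1)
    rw [small _ (by omega) (by omega)] at s
    exact ⟨n - 1, Fin.ext (by omega)⟩
  by_cases c1 : c.val = 1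
  · have s := ad_spec hd hn y (d - 1)
    rw [small _ (by omega) (by omega)] at s
    exact ⟨d - 1, Fin.ext (by omega)⟩
  · have s := ad_spec hd hn y (c.val - 1)
    rw [small _ (by omega) (by omega)] at s
    exact ⟨c.val - 1, Fin.ext (by omega)⟩

theorem val_ne {y : Fin d} (hy : y ≠ 0) : y.val ≠ 0 := fun h => hy (Fin.ext h)

theorem no_zd (hd : 3 ≤ d) (hn : d < n) {i i' : ℤ} (h1 : i + 1 ≤ i') (h2 : zd d n i' = zd d n i)
    (h3 : ∀ k, i + 1 ≤ k → k ≤ i' → zd d n k ≠ 0) : False := by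
  have s0 := zd_spec hd hn i
  have s1 := zd_spec hd hn i'
  have n1 := val_ne (h3 i' h1 le_rfl)
  have e := congrArg Fin.val h2
  by_cases c : i + (d - 1 - i % n) ≤ i'
  · have a := addmod (n := n) (by omega) i (d - 1 - i % n) (by omega) (by omega)
    have s2 := zd_spec hd hn (i + (d - 1 - i % n))
    have n2 := val_ne (h3 _ (by omega) c)
    omega
  · have a := addmod (n := n) (by omega) i (i' - i) (by omega) (by omega)
    rw [add_sub_cancel] at a
    omega

theorem no_ad (hd : 3 ≤ d) (hn : d < n) {y : Fin d} {i i' : ℤ} (h0 : i % n ≠ 0) (h1 : i + 1 ≤ i')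
    (h2 : ad d n y i' = ad d n y i) (h3 : ∀ k, i + 1 ≤ k → k ≤ i' → ad d n y k ≠ 0) : False := by
  have s0 := ad_spec hd hn y i
  have s1 := ad_spec hd hn y i'
  have n1 := val_ne (h3 i' h1 le_rfl)
  have e := congrArg Fin.val h2
  by_cases c : i + (d - i % n) ≤ i'
  · have a := addmod (n := n) (by omega) i (d - i % n) (by omega) (by omega)
    have s2 := ad_spec hd hn y (i + (d - i % n))
    have n2 := val_ne (h3 _ (by omega) c)
    omega
  · have a := addmod (n := n) (by omega) i (i' - i) (by omega) (by omega)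
    rw [add_sub_cancel] at a
    omega

variable (d) in
/-- The arrangements of the letters other than `0` and `1`. -/
abbrev Arr : Type := {σ : Perm (Fin d) // σ 0 = 0 ∧ σ (L d 0) = L d 0}

/-- The labelled words of an arrangement. -/
def Bs (n : ℕ) (σ : Perm (Fin d)) (y : Fin d) : Seq d :=
  if y = 0 then fun i => σ (zd d n i) else fun i => σ (ad d n (σ.symm y) i)

theorem Bs_zero (σ : Perm (Fin d)) : Bs n σ 0 = fun i => σ (zd d n i) := if_pos rfl

theorem Bs_ne (σ : Perm (Fin d)) {y : Fin d} (hy : y ≠ 0) :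
    Bs n σ y = fun i => σ (ad d n (σ.symm y) i) := if_neg hy

theorem Bs_at (σ : Perm (Fin d)) {y : Fin d} (hy : y ≠ 0) : Bs n σ y 0 = y := by
  rw [Bs_ne σ hy]
  simp [ad_zero]

theorem Bs_per (hd : 3 ≤ d) (hn : d < n) (σ : Perm (Fin d)) (y : Fin d) : Per n (Bs n σ y) := by
  unfold Bs
  split_ifs
  exacts [per_comp (zd_per hd hn) σ, per_comp (ad_per hd hn _) σ]

theorem Bs_inj (hd : 3 ≤ d) (hn : d < n) (σ : Perm (Fin d)) : Function.Injective (Bs n σ) := by
  have key : ∀ y, y ≠ 0 → Bs n σ 0 ≠ Bs n σ y := fun y hy h => by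
    rw [Bs_zero, Bs_ne σ hy] at h
    have e := congrArg Fin.val (σ.injective (congrFun h (d - 1)))
    have s1 := zd_spec hd hn (d - 1)
    have s2 := ad_spec hd hn (σ.symm y) (d - 1)
    rw [small _ (by omega) (by omega)] at s1 s2
    omega
  intro x y h
  by_cases hx : x = 0 <;> by_cases hy : y = 0
  · rw [hx, hy]
  · exact absurd (hx ▸ h) (key y hy)
  · exact absurd (hy ▸ h).symm (key x hx)
  · rw [← Bs_at (n := n) σ hx, h, Bs_at σ hy]

theorem rigid (hd : 3 ≤ d) (hn : d < n) {σ : Perm (Fin d)} (h0 : σ 0 = 0) {C : Finset (Fin d)}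
    (hC : 0 ∉ C) {t : Seq d} (h : Adm C (Bs n σ 0) t) : t = Bs n σ 0 := by
  rw [Bs_zero] at h ⊢
  funext i
  refine h.fix ?_
  rintro ⟨i', h1, h2, h3⟩
  exact no_zd hd hn h1 (σ.injective h2) fun k a b c => hC (by simpa [c, h0] using h3 k a b)

theorem semi (hd : 3 ≤ d) (hn : d < n) {σ : Perm (Fin d)} (h0 : σ 0 = 0) {C : Finset (Fin d)}
    (hC : 0 ∉ C) {y : Fin d} (hy : y ≠ 0) {t : Seq d} (ht : Per n t) (h : Adm C (Bs n σ y) t) :
    t = Bs n σ (t 0) := by
  have hne : t 0 ≠ 0 := by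
    by_cases a : Bs n σ y 0 ∈ C
    · exact fun e => hC (e ▸ (h.mem_iff 0).2 a)
    · rwa [(h 0).1 a, Bs_at σ hy]
  rw [Bs_ne σ hy] at h
  rw [Bs_ne σ hne]
  funext i
  by_cases hi : i % n = 0
  · rw [← ht.emod, hi]
    simp [ad, hi]
  · rw [h.fix (i := i)]
    · simp only [ad, if_neg hi]
    · rintro ⟨i', h1, h2, h3⟩
      exact no_ad hd hn hi h1 (σ.injective h2) fun k a b c => hC (by simpa [c, h0] using h3 k a b)

theorem hit_conv (hd : 3 ≤ d) (hn : d < n) {s : Seq d} (h0 : ∀ x : ℤ, (d : ℤ) ≤ x % n → s x = 0)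
    (h1 : ∀ x : ℤ, x % n = 0 → s x = L d 0) {i : ℤ} (hi : i % n = d - 1) :
    Hit 0 (L d 0) (n - d) s i := by
  refine hit_of (fun y y1 y2 => h0 y ?_) (i + (n - d + 1)) (by omega) (h1 _ ?_)
  · have a := addmod (n := n) (by omega) i (y - i) (by omega) (by omega)
    rw [add_sub_cancel] at a
    omega
  · have a := addmod (n := n) (by omega) i (n - d + 1) (by omega) (by omega)
    omega

theorem hit_zd (hd : 3 ≤ d) (hn : d < n) (i : ℤ) :
    Hit 0 (L d 0) (n - d) (zd d n) i ↔ i % n = d - 1 := by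
  have o := one_val hd
  refine ⟨fun h => ?_, hit_conv hd hn (fun x hx => Fin.ext ?_) fun x hx => Fin.ext ?_⟩
  · have h2 := congrArg Fin.val h.2
    rw [show i + ((n - d : ℕ) : ℤ) + 1 = i + (n - d + 1) by omega] at h2
    have a := addmod (n := n) (by omega) i (n - d + 1) (by omega) (by omega)
    have s := zd_spec hd hn (i + (n - d + 1))
    omega
  · have s := zd_spec hd hn x
    rw [Fin.val_zero]
    omega
  · have s := zd_spec hd hn x
    omega

theorem hit_ad (hd : 3 ≤ d) (hn : d < n) {y : Fin d} (hy : y ≠ 0) (i : ℤ) :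
    Hit 0 (L d 0) (n - d) (ad d n y) i ↔ i % n = d - 1 ∧ y = L d 0 := by
  have o := one_val hd
  have hy' := val_ne hy
  refine ⟨fun h => ?_, fun h =>
    hit_conv hd hn (fun x hx => Fin.ext ?_) (fun x hx => Fin.ext ?_) h.1⟩
  · have h2 := congrArg Fin.val h.2
    have h3 := congrArg Fin.val (h.1 (n - d) (by omega) le_rfl)
    rw [show i + ((n - d : ℕ) : ℤ) + 1 = i + (n - d + 1) by omega] at h2
    rw [show i + ((n - d : ℕ) : ℤ) = i + (n - d) by omega, Fin.val_zero] at h3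
    have a := addmod (n := n) (by omega) i (n - d + 1) (by omega) (by omega)
    have b := addmod (n := n) (by omega) i (n - d) (by omega) (by omega)
    have s := ad_spec hd hn y (i + (n - d + 1))
    have s' := ad_spec hd hn y (i + (n - d))
    rw [Fin.ext_iff]
    omega
  · have s := ad_spec hd hn y x
    rw [Fin.val_zero]
    omega
  · have s := ad_spec hd hn y x
    have e := congrArg Fin.val h.2
    omega

theorem mk_zd (hd : 3 ≤ d) (hn : d < n) : mk 0 (L d 0) (n - d) (zd d n) = ad d n (L d 0) := by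
  funext i
  have o := one_val hd
  have s := zd_spec hd hn i
  have s' := ad_spec hd hn (L d 0) i
  by_cases h : i % n = d - 1
  · rw [mk_hit ((hit_zd hd hn i).2 h), show zd d n i = 0 from Fin.ext (by rw [Fin.val_zero]; omega),
      swap_apply_left]
    exact Fin.ext (by omega)
  · rw [mk_not fun a => h ((hit_zd hd hn i).1 a)]
    exact Fin.ext (by omega)

theorem one_ne (hd : 3 ≤ d) : L d 0 ≠ 0 := L_ne (m := d - 1) (by omega) (by omega)

theorem mk_ad (hd : 3 ≤ d) (hn : d < n) : mk 0 (L d 0) (n - d) (ad d n (L d 0)) = zd d n := by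
  funext i
  have o := one_val hd
  have s := zd_spec hd hn i
  have s' := ad_spec hd hn (L d 0) i
  by_cases h : i % n = d - 1
  · rw [mk_hit ((hit_ad hd hn (one_ne hd) i).2 ⟨h, rfl⟩),
      show ad d n (L d 0) i = L d 0 from Fin.ext (by omega), swap_apply_right]
    exact Fin.ext (by rw [Fin.val_zero]; omega)
  · rw [mk_not fun a => h ((hit_ad hd hn (one_ne hd) i).1 a).1]
    exact Fin.ext (by omega)

theorem mk_Bs (hd : 3 ≤ d) (hn : d < n) (σ : Arr d) (y : Fin d) :
    mk 0 (L d 0) (n - d) (Bs n σ.1 y) = Bs n σ.1 (swap 0 (L d 0) y) := by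
  have key : ∀ s : Seq d, mk 0 (L d 0) (n - d) (fun i => σ.1 (s i)) =
      fun i => σ.1 (mk 0 (L d 0) (n - d) s i) := fun s => by
    have := mk_comp σ.1 0 (L d 0) (n - d) s
    rwa [σ.2.1, σ.2.2] at this
  have e : σ.1.symm (L d 0) = L d 0 := by rw [symm_apply_eq, σ.2.2]
  by_cases h0 : y = 0
  · rw [h0, swap_apply_left, Bs_zero, Bs_ne _ (one_ne hd), key, mk_zd hd hn, e]
  by_cases h1 : y = L d 0
  · rw [h1, swap_apply_right, Bs_zero, Bs_ne _ (one_ne hd), key, e, mk_ad hd hn]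
  · rw [swap_apply_of_ne_of_ne h0 h1, Bs_ne _ h0, key]
    funext i
    rw [mk_not fun a => h1 ?_]
    have := ((hit_ad hd hn (fun b => h0 (by rwa [symm_apply_eq, σ.2.1] at b)) i).1 a).2
    rwa [symm_apply_eq, σ.2.2] at this

theorem hit_cls (hd : 3 ≤ d) (hn : d < n) {m : ℕ} (hm : m ≤ n) {s : Seq d} (h : Per m s)
    (hne : mk 0 (L d 0) (n - d) s ≠ s) :
    m = n ∧ ∃ (σ : Arr d) (y : Fin d) (k : ℤ), s = shf (Bs n σ.1 y) k := by
  obtain ⟨i, hi⟩ := Function.ne_iff.1 hne
  have hh : Hit 0 (L d 0) (n - d) s i := by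
    by_contra hno
    exact hi (mk_not hno)
  have ha : s i = 0 ∨ s i = L d 0 := by
    by_contra hno
    push Not at hno
    exact hi (mk_oth hno.1 hno.2)
  have o := one_val hd
  let f : Fin d → Fin d := fun x => if x = 0 then 0 else s (i + (n - d) + x.val)
  have f0 : f 0 = 0 := if_pos rfl
  have fv : ∀ x : Fin d, x.val ≠ 0 → f x = s (i + (n - d) + x.val) := fun x hx =>
    if_neg fun e => hx (by rw [e, Fin.val_zero])
  have f1 : f (L d 0) = L d 0 := by
    rw [fv _ (by omega), o, ← hh.2]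
    exact congrArg s (by omega)
  have key : ∀ c, c ≠ 0 → c ≠ L d 0 → ∃ x : Fin d, x.val + (n - d) < m ∧ f x = c := by
    intro c c0 c1
    obtain ⟨x, hx⟩ := h.2.2 c
    obtain ⟨k, k1, k2, -⟩ := ZGiant.per_shift h i x
    rw [hx] at k2
    have k3 : n - d + 2 ≤ k := by
      by_contra hk
      rcases Nat.eq_zero_or_pos k with rfl | k4
      · rw [Nat.cast_zero, add_zero] at k2
        exact ha.elim (fun e => c0 (k2 ▸ e)) fun e => c1 (k2 ▸ e)
      by_cases k5 : k ≤ n - d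
      · exact c0 (k2 ▸ hh.1 k k4 k5)
      · refine c1 ?_
        rw [← k2, ← hh.2]
        exact congrArg s (by omega)
    refine ⟨⟨k - (n - d), by omega⟩, by simp only; omega, ?_⟩
    rw [fv _ (by simp only; omega), ← k2]
    exact congrArg s (by simp only; omega)
  have hs : Function.Surjective f := fun c => by
    by_cases c0 : c = 0
    · exact ⟨0, c0 ▸ f0⟩
    by_cases c1 : c = L d 0
    · exact ⟨L d 0, c1 ▸ f1⟩
    · exact (key c c0 c1).imp fun _ hx => hx.2
  have hb := Finite.surjective_iff_bijective.1 hs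
  obtain rfl : m = n := by
    obtain ⟨x, hx, e⟩ := key (f ⟨d - 1, by omega⟩)
      (fun e => by
        have := congrArg Fin.val (hb.1 (e.trans f0.symm))
        simp only [Fin.val_zero] at this
        omega)
      (fun e => by
        have := congrArg Fin.val (hb.1 (e.trans f1.symm))
        simp only at this
        omega)
    have := congrArg Fin.val (hb.1 e)
    simp only at this
    omega
  refine ⟨rfl, ⟨ofBijective f hb, f0, f1⟩, s i, -(i + (m - d) + 1), ?_⟩
  refine ZGiant.window h (per_shf (Bs_per hd hn _ _) _) (i + (m - d) + 1) fun k hk => ?_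
  simp only [shf]
  rw [show i + (m - d) + 1 + k + -(i + (m - d) + 1) = k by ring]
  have gen : ∀ r : Seq d, (∀ x : ℤ, 0 ≤ x → x < d - 1 → ((r x).val : ℤ) = x + 1) →
      r (d - 1) = s i → (∀ x : ℤ, d ≤ x → x < m → r x = 0) →
      s (i + (m - d) + 1 + k) = f (r k) := by
    intro r r1 r2 r3
    rcases lt_trichotomy (k : ℤ) (d - 1) with c | c | c
    · have := r1 k (by omega) c
      rw [fv _ (by omega)]
      exact congrArg s (by omega)
    · rw [c, r2, show i + (m - d) + 1 + (d - 1) = i + m by ring, h.2.1]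
      rcases ha with e | e <;> rw [e]
      exacts [f0.symm, f1.symm]
    · rw [r3 k (by omega) (by omega), f0, ← hh.1 (k + 1 - d) (by omega) (by omega), ← h.2.1]
      rw [← h.2.1 (i + ((k + 1 - d : ℕ) : ℤ)), ← h.2.1 (i + ((k + 1 - d : ℕ) : ℤ) + m)]
      exact congrArg s (by omega)
  rcases ha with e | e
  · rw [e, Bs_zero]
    refine gen (zd d m) (fun x a b => ?_) (Eq.trans (Fin.ext ?_) e.symm) fun x a b => Fin.ext ?_
    · have s1 := zd_spec hd hn x
      rw [small _ a (by omega)] at s1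
      omega
    · have s1 := zd_spec hd hn (d - 1)
      rw [small _ (by omega) (by omega)] at s1
      rw [Fin.val_zero]
      omega
    · have s1 := zd_spec hd hn x
      rw [small _ (by omega) b] at s1
      rw [Fin.val_zero]
      omega
  · rw [e, Bs_ne _ (one_ne hd), show (ofBijective f hb).symm (L d 0) = L d 0 from
      (symm_apply_eq _).2 f1.symm]
    refine gen (ad d m (L d 0)) (fun x a b => ?_) (Eq.trans (Fin.ext ?_) e.symm) fun x a b => Fin.ext ?_
    · have s1 := ad_spec hd hn (L d 0) x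
      rw [small _ a (by omega)] at s1
      omega
    · have s1 := ad_spec hd hn (L d 0) (d - 1)
      rw [small _ (by omega) (by omega)] at s1
      omega
    · have s1 := ad_spec hd hn (L d 0) x
      rw [small _ (by omega) b] at s1
      rw [Fin.val_zero]
      omega

theorem occ_ad (hd : 3 ≤ d) (hn : d < n) {C : Finset (Fin d)} {x : Fin d} (hx : 2 ≤ x.val)
    (hC : ∀ u : Fin d, 2 ≤ u.val → u.val ≤ x.val → u ∈ C) (y : Fin d) :
    Occ C (ad d n y) (0 + 1) x := by
  have := x.2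
  refine ⟨x.val - 1, by omega, Fin.ext ?_, fun k a b => ?_⟩
  · have s := ad_spec hd hn y (x.val - 1)
    rw [small _ (by omega) (by omega)] at s
    omega
  · have s := ad_spec hd hn y k
    rw [small _ (by omega) (by omega)] at s
    exact hC _ (by omega) (by omega)

theorem occ_all (hd : 3 ≤ d) (hn : d < n) {x : Fin d} (hx : x ≠ 0) (y : Fin d) :
    Occ (Finset.univ.erase 0) (ad d n y) (0 + 1) x := by
  have h0 := val_ne hx
  have hm : ∀ u : Fin d, u.val ≠ 0 → u ∈ (Finset.univ.erase 0 : Finset (Fin d)) := fun u hu =>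
    Finset.mem_erase.2 ⟨fun e => hu (by rw [e, Fin.val_zero]), Finset.mem_univ _⟩
  by_cases h : 2 ≤ x.val
  · exact occ_ad hd hn h (fun u a _ => hm u (by omega)) y
  refine ⟨d - 1, by omega, Fin.ext ?_, fun k a b => ?_⟩
  · have s := ad_spec hd hn y (d - 1)
    rw [small _ (by omega) (by omega)] at s
    omega
  · have s := ad_spec hd hn y k
    rw [small _ (by omega) (by omega)] at s
    exact hm _ (by omega)

end VIsoX

open VIsoX ZSweep

theorem zd_prim [NeZero d] (hd : 3 ≤ d) {n : ℕ} (hn : d < n) : Prim n (zd d n) := by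
  refine ⟨zd_per hd hn, fun m hm h => ?_⟩
  have h0 := h.1
  have e := congrArg Fin.val (h.2.1 0)
  rw [zero_add] at e
  have s1 := zd_spec hd hn m
  have s2 := zd_spec hd hn 0
  rw [small _ (by omega) (by omega)] at s1 s2
  omega

theorem ad_prim [NeZero d] (hd : 3 ≤ d) {n : ℕ} (hn : d < n) {y : Fin d} (hy : y ≠ 0) :
    Prim n (ad d n y) := by
  refine ⟨ad_per hd hn y, fun m hm h => ?_⟩
  have h0 := h.1
  have hy' := val_ne hy
  have e1 := congrArg Fin.val (h.2.1 (d - 1))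
  have e2 := congrArg Fin.val (h.2.1 d)
  rw [add_comm] at e1 e2
  have a1 := addmod (n := n) (by omega) m (d - 1) (by omega) (by omega)
  have a2 := addmod (n := n) (by omega) m d (by omega) (by omega)
  rw [small (n := n) m (by omega) (by omega)] at a1 a2
  have s1 := ad_spec hd hn y (m + (d - 1))
  have s2 := ad_spec hd hn y (m + d)
  have s3 := ad_spec hd hn y (d - 1)
  have s4 := ad_spec hd hn y d
  rw [small _ (by omega) (by omega)] at s3 s4
  omega

theorem zd_rigid [NeZero d] (hd : 3 ≤ d) {n : ℕ} (hn : d < n) (t : Seq d)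
    (h : Adm (Finset.univ.erase 0) (zd d n) t) : t = zd d n := by
  have := rigid hd hn (σ := 1) rfl (Finset.notMem_erase 0 Finset.univ) (t := t)
  rw [Bs_zero] at this
  exact this h

theorem mk_fix_ad [NeZero d] (hd : 3 ≤ d) {n : ℕ} (hn : d < n) {u v : Fin d} (huv : u ≠ v) {j : ℕ}
    (hj : 1 ≤ j) : mk u v j (zd d n) = zd d n ∨ ∃ y, y ≠ 0 ∧ mk u v j (ad d n y) = ad d n y := by
  by_cases h : u.val = 0 ∧ v.val = 1
  · refine Or.inr ⟨⟨2, by omega⟩, fun e => by simpa using congrArg Fin.val e,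
      mk_fix hj fun y h1 h2 => ?_⟩
    have a1 := addmod (n := n) (by omega) y 1 (by omega) (by omega)
    have a2 := addmod (n := n) (by omega) y 2 (by omega) (by omega)
    have s1 := ad_spec hd hn ⟨2, by omega⟩ (y + 1)
    have s2 := ad_spec hd hn ⟨2, by omega⟩ (y + 2)
    rw [h1] at s1
    rw [h2] at s2
    simp only at s1 s2
    omega
  · refine Or.inl (mk_fix hj fun y h1 h2 => ?_)
    have a1 := addmod (n := n) (by omega) y 1 (by omega) (by omega)
    have a2 := addmod (n := n) (by omega) y 2 (by omega) (by omega)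
    have s0 := zd_spec hd hn y
    have s1 := zd_spec hd hn (y + 1)
    have s2 := zd_spec hd hn (y + 2)
    rw [h1] at s1
    rw [h2] at s2
    simp only [ne_eq, Fin.ext_iff] at huv ⊢
    omega

theorem ad_nc [NeZero d] (hd : 3 ≤ d) {n : ℕ} (hn : d < n) {y y' : Fin d} (hy : y ≠ 0) (hy' : y' ≠ 0)
    (k : ℤ) : shf (zd d n) k ≠ ad d n y ∧ (y ≠ y' → shf (ad d n y) k ≠ ad d n y') := by
  have h0 := val_ne hy
  refine ⟨fun h => ?_, fun hne h => hne (Fin.ext ?_)⟩
  · have e1 := congrArg Fin.val (congrFun h 0)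
    have e2 := congrArg Fin.val (congrFun h (d - 1 - k % n))
    simp only [shf] at e1 e2
    rw [zero_add, ad_zero] at e1
    rw [add_comm] at e2
    have s1 := zd_spec hd hn k
    have a := addmod (n := n) (by omega) k (d - 1 - k % n) (by omega) (by omega)
    have s2 := zd_spec hd hn (k + (d - 1 - k % n))
    have s3 := ad_spec hd hn y (d - 1 - k % n)
    rw [small _ (by omega) (by omega)] at s3
    omega
  · have e0 := congrArg Fin.val (congrFun h 0)
    have e1 := congrArg Fin.val (congrFun h (d - 1))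
    have e2 := congrArg Fin.val (congrFun h d)
    simp only [shf] at e0 e1 e2
    rw [zero_add, ad_zero] at e0
    rw [add_comm] at e1 e2
    have a1 := addmod (n := n) (by omega) k (d - 1) (by omega) (by omega)
    have a2 := addmod (n := n) (by omega) k d (by omega) (by omega)
    have s0 := ad_spec hd hn y k
    have s1 := ad_spec hd hn y (k + (d - 1))
    have s2 := ad_spec hd hn y (k + d)
    have s3 := ad_spec hd hn y' (d - 1)
    have s4 := ad_spec hd hn y' d
    rw [small _ (by omega) (by omega)] at s3 s4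
    omega

namespace VIsoX

open Equiv

variable [NeZero d] {n : ℕ} {I : Finset ℕ}

/-- The labelled words as points. -/
def Bw (hd : 3 ≤ d) (hn : d < n) (hI : n ∈ I) (σ : Arr d) (y : Fin d) : W d I :=
  ⟨Bs n σ.1 y, n, hI, Bs_per hd hn σ.1 y⟩

theorem Bw_inj (hd : 3 ≤ d) (hn : d < n) (hI : n ∈ I) (σ : Arr d) :
    Function.Injective (Bw hd hn hI σ) := fun _ _ h => Bs_inj hd hn σ.1 (congrArg Subtype.val h)

variable (d) in
/-- The standard arrangement. -/
def e0 : Arr d := ⟨1, rfl, rfl⟩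

theorem Bs_e0 {y : Fin d} (hy : y ≠ 0) : Bs n (e0 d).1 y = ad d n y := Bs_ne _ hy

/-- The admissible elements. -/
def HC {d : ℕ} (I : Finset ℕ) (G : Type) [Group G] [MulAction G (W d I)] (C : Finset (Fin d)) :
    Subgroup G where
  carrier := {g | ∀ w : W d I, Adm C w.1 (g • w).1}
  mul_mem' := fun {a b} ha hb w => by
    rw [mul_smul]
    exact (hb w).trans (ha _)
  one_mem' := fun w => by
    rw [one_smul]
    exact Adm.refl _ _
  inv_mem' := fun {a} ha w => by
    have := (ha (a⁻¹ • w)).symm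
    rwa [smul_inv_smul] at this

variable {G : Type} [Group G] [MulAction G (W d I)] {C C' : Finset (Fin d)}

omit [NeZero d] in
theorem HC_mono (h : C' ⊆ C) {g : G} (hg : g ∈ HC I G C') : g ∈ HC I G C := fun w => (hg w).mono h

variable (hd : 3 ≤ d) (hn : d < n) (hI : n ∈ I)
  (hsh : ∀ (g : G) (w : W d I), g • shW d I w = shW d I (g • w))

theorem hc_zero (hC : 0 ∉ C) {g : G} (hg : g ∈ HC I G C) (σ : Arr d) :
    g • Bw hd hn hI σ 0 = Bw hd hn hI σ 0 := 
  Subtype.ext (rigid hd hn σ.2.1 hC (hg (Bw hd hn hI σ 0)))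

include hsh

theorem hc_ne (hC : 0 ∉ C) {g : G} (hg : g ∈ HC I G C) (σ : Arr d) {y : Fin d} (hy : y ≠ 0) :
    g • Bw hd hn hI σ y = Bw hd hn hI σ ((g • Bw hd hn hI σ y).1 0) :=
  Subtype.ext (semi hd hn σ.2.1 hC hy
    (ZGrp.per_map (fun w => g • w) (hsh g) (w := Bw hd hn hI σ y) (Bs_per hd hn _ _))
    (hg (Bw hd hn hI σ y)))

theorem hc_MM (hC : 0 ∉ C) {g : G} (hg : g ∈ HC I G C) : g ∈ MM G (Bw hd hn hI) :=
  mem_MM (Bw_inj hd hn hI) fun σ y => by
    by_cases hy : y = 0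
    · exact ⟨0, hy ▸ hc_zero hd hn hI hC hg σ⟩
    · exact ⟨_, hc_ne hd hn hI hsh hC hg σ hy⟩

theorem pres (hC : 0 ∉ C) {g : MM G (Bw hd hn hI)} (hg : (g : G) ∈ HC I G C) (σ : Arr d)
    (y : Fin d) : (y ∉ C → psi G (Bw_inj hd hn hI) σ g y = y) ∧
      ∀ b : Fin d, 2 ≤ b.val → σ.1 b ∉ C → psi G (Bw_inj hd hn hI) σ g y = y ∨
        ∃ x : Fin d, 2 ≤ x.val ∧ x.val < b.val ∧ psi G (Bw_inj hd hn hI) σ g y = σ.1 x := by
  have h1 : y ∉ C → psi G (Bw_inj hd hn hI) σ g y = y := fun hy => by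
    by_cases h0 : y = 0
    · exact h0 ▸ psi_eq _ (hc_zero hd hn hI hC hg σ)
    · rw [psi_eq _ (hc_ne hd hn hI hsh hC hg σ h0)]
      have e : (Bw hd hn hI σ y).1 0 = y := Bs_at _ h0
      rw [(hg _ 0).1 (e.symm ▸ hy), e]
  refine ⟨h1, fun b hb hbC => ?_⟩
  by_cases hy : y ∈ C
  swap
  · exact Or.inl (h1 hy)
  have h0 : y ≠ 0 := fun e => hC (e ▸ hy)
  rw [psi_eq _ (hc_ne hd hn hI hsh hC hg σ h0)]
  have e : (Bw hd hn hI σ y).1 0 = y := Bs_at _ h0
  obtain ⟨i, i0, i1, i2⟩ := (hg (Bw hd hn hI σ y)).occ (i := 0) (e.symm ▸ hy)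
  rw [← i1]
  rcases i0.eq_or_lt with rfl | i3
  · exact Or.inl e
  have e' : (Bw hd hn hI σ y).1 = fun i => σ.1 (ad d n (σ.1.symm y) i) := Bs_ne _ h0
  have hb' := b.2
  have i4 : i < b.val - 1 := by
    by_contra c
    have := i2 (b.val - 1) (by omega) (by omega)
    have s := ad_spec hd hn (σ.1.symm y) (b.val - 1)
    rw [small _ (by omega) (by omega)] at s
    rw [e'] at this
    simp only at this
    rw [show ad d n (σ.1.symm y) (b.val - 1) = b from Fin.ext (by omega)] at this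
    exact hbC this
  have s := ad_spec hd hn (σ.1.symm y) i
  rw [small _ (by omega) (by omega)] at s
  exact Or.inr ⟨ad d n (σ.1.symm y) i, by omega, by omega, by rw [e']⟩

theorem mv (hmv : MvG (d := d) I G) (hC : 0 ∉ C) {x y : Fin d} (hy : y ∈ C)
    (ox : Occ C (ad d n y) (0 + 1) x) (oy : Occ C (ad d n y) (0 + 1) y) :
    ∃ g : MM G (Bw hd hn hI), (g : G) ∈ HC I G C ∧ psi G (Bw_inj hd hn hI) (e0 d) g y = x := by
  have h0 : y ≠ 0 := fun e => hC (e ▸ hy)
  have e : (Bw hd hn hI (e0 d) y).1 = ad d n y := Bs_e0 h0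
  obtain ⟨g, h1, h2, -⟩ := hmv C (Bw hd hn hI (e0 d) y) 0 x
    (fun h => hC (h ▸ Finset.mem_univ _)) (by rwa [e, ad_zero]) (by rwa [e, ad_zero])
    (by rwa [e])
  exact ⟨⟨g, hc_MM hd hn hI hsh hC h1⟩, h1,
    (psi_eq _ (hc_ne hd hn hI hsh hC h1 _ h0)).trans h2⟩

theorem mv2 (hmv : MvG (d := d) I G) (hC : 0 ∉ C) {r : ℕ}
    (hr : ∀ u : Fin d, 2 ≤ u.val → u.val < r → u ∈ C) {x y : Fin d}
    (hx : 2 ≤ x.val ∧ x.val < r) (hy : 2 ≤ y.val ∧ y.val < r) :
    ∃ g : MM G (Bw hd hn hI), (g : G) ∈ HC I G C ∧ psi G (Bw_inj hd hn hI) (e0 d) g x = y :=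
  mv hd hn hI hsh hmv hC (hr x hx.1 hx.2) (occ_ad hd hn hy.1 (fun u a b => hr u a (by omega)) x)
    (occ_ad hd hn hx.1 (fun u a b => hr u a (by omega)) x)

theorem psi_mu {f1 f2 : Fin d} (h1 : f1.val = 2) (h2 : f2.val = 3) {μ : G}
    (hμ : ∀ w : W d I, (μ • w).1 = mk f1 f2 1 w.1) :
    ∃ h : μ ∈ MM G (Bw hd hn hI), μ ∈ HC (d := d) I G (Finset.univ.erase 0) ∧ ∀ σ : Arr d,
      psi G (Bw_inj hd hn hI) σ ⟨μ, h⟩ = if σ.1 f1 = f1 ∧ σ.1 f2 = f2 then swap f1 f2 else 1 := by
  have n1 : f1 ≠ 0 := fun e => by simp [e] at h1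
  have n2 : f2 ≠ 0 := fun e => by simp [e] at h2
  have hC : (0 : Fin d) ∉ Finset.univ.erase 0 := Finset.notMem_erase _ _
  have hH : μ ∈ HC (d := d) I G (Finset.univ.erase 0) := fun w => by
    obtain ⟨m, -, hm⟩ := w.2
    rw [hμ]
    refine (mk_adm (fun e => by rw [e] at h1; omega) le_rfl (hm.term fun e => ?_)).mono ?_
    · have : (0 : Fin d) ∈ ({f1, f2} : Finset (Fin d)) := e ▸ Finset.mem_univ _
      simp [n1.symm, n2.symm] at this
    · intro x hx
      simp only [Finset.mem_insert, Finset.mem_singleton] at hx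
      rcases hx with rfl | rfl <;> simp [n1, n2]
  refine ⟨hc_MM hd hn hI hsh hC hH, hH, fun σ => Equiv.ext fun y => ?_⟩
  by_cases h0 : y = 0
  · rw [h0, psi_eq _ (hc_zero hd hn hI hC hH σ)]
    split_ifs
    · exact (swap_apply_of_ne_of_ne n1.symm n2.symm).symm
    · rfl
  rw [psi_eq _ (hc_ne hd hn hI hsh hC hH σ h0), hμ]
  have e : (Bw hd hn hI σ y).1 0 = y := Bs_at _ h0
  have e' : (Bw hd hn hI σ y).1 = fun i => σ.1 (ad d n (σ.1.symm y) i) := Bs_ne _ h0
  have hf := f2.2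
  have s1 := ad_spec hd hn (σ.1.symm y) 1
  have s2 := ad_spec hd hn (σ.1.symm y) 2
  rw [small _ (by omega) (by omega)] at s1 s2
  have e1 : (Bw hd hn hI σ y).1 1 = σ.1 f1 := by
    rw [e']
    exact congrArg σ.1 (Fin.ext (by omega))
  have e2 : (Bw hd hn hI σ y).1 2 = σ.1 f2 := by
    rw [e']
    exact congrArg σ.1 (Fin.ext (by omega))
  split_ifs with c
  · rw [mk_hit (hit_one 1 2 rfl rfl (e1.trans c.1) (e2.trans c.2)), e]
  · rw [mk_not fun a => c ⟨e1.symm.trans (a.1 1 le_rfl le_rfl), e2.symm.trans a.2⟩, e]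
    rfl

theorem sep_arr
    (hmk : ∀ (u v : Fin d) (j : ℕ), u ≠ v → 1 ≤ j → ∃ g : G, ∀ w : W d I, (g • w).1 = mk u v j w.1)
    (hmv : MvG (d := d) I G) (σ : Arr d) (hσ : σ ≠ e0 d) :
    ∃ δ ∈ (HC (d := d) I G (Finset.univ.erase 0)).subgroupOf (MM G (Bw hd hn hI)),
      psi G (Bw_inj hd hn hI) σ δ = 1 ∧ ∃ p q, p ≠ 0 ∧ psi G (Bw_inj hd hn hI) (e0 d) δ p = p ∧
        psi G (Bw_inj hd hn hI) (e0 d) δ q ≠ q := by
  have o := one_val hd
  obtain ⟨a, ha, hmin⟩ := Finset.exists_min_image (Finset.univ.filter fun x => σ.1 x ≠ x)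
    (fun x => x.val) (by
      by_contra h
      refine hσ (Subtype.ext (Equiv.ext fun x => ?_))
      by_contra c
      exact h ⟨x, Finset.mem_filter.2 ⟨Finset.mem_univ _, c⟩⟩)
  have ha' : σ.1 a ≠ a := (Finset.mem_filter.1 ha).2
  have hlt : ∀ x : Fin d, x.val < a.val → σ.1 x = x := fun x hx => by
    by_contra c
    exact absurd (hmin x (Finset.mem_filter.2 ⟨Finset.mem_univ _, c⟩)) (by omega)
  have a2 : 2 ≤ a.val := by
    by_contra c
    rcases (by omega : a.val = 0 ∨ a.val = 1) with e | e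
    · rw [show a = 0 from Fin.ext e] at ha'
      exact ha' σ.2.1
    · rw [show a = L d 0 from Fin.ext (by omega)] at ha'
      exact ha' σ.2.2
  set b := σ.1 a with hb
  have ab : a.val < b.val := by
    rcases lt_trichotomy a.val b.val with c | c | c
    · exact c
    · exact absurd (Fin.ext c.symm) ha'
    · exact absurd (σ.1.injective (hlt b c)) ha'
  have hb' := b.2
  let f1 : Fin d := ⟨2, by omega⟩
  let f2 : Fin d := ⟨3, by omega⟩
  have h12 : f1 ≠ f2 := fun e => by simpa [f1, f2] using congrArg Fin.val e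
  obtain ⟨μ, hμ⟩ := hmk f1 f2 1 h12 le_rfl
  obtain ⟨hM, hH, hp⟩ := psi_mu hd hn hI hsh (f1 := f1) (f2 := f2) rfl rfl hμ
  have m0 : psi G (Bw_inj hd hn hI) (e0 d) ⟨μ, hM⟩ = swap f1 f2 := by
    rw [hp, if_pos ⟨rfl, rfl⟩]
  by_cases c : a.val ≤ 3
  · refine ⟨⟨μ, hM⟩, hH, ?_, L d 0, f1, one_ne hd, ?_, ?_⟩
    · rw [hp, if_neg]
      rintro ⟨c1, c2⟩
      rcases (by omega : a.val = 2 ∨ a.val = 3) with e | e
      · exact ha' (by rw [hb, show a = f1 from Fin.ext e, c1])
      · exact ha' (by rw [hb, show a = f2 from Fin.ext e, c2])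
    · rw [m0]
      exact swap_apply_of_ne_of_ne (fun e => by simp [e, f1] at o) fun e => by simp [e, f2] at o
    · rw [m0, swap_apply_left]
      exact h12.symm
  have hC : (0 : Fin d) ∉ (Finset.univ.erase 0).erase b := by simp
  have hm : ∀ u : Fin d, 2 ≤ u.val → u.val < b.val → u ∈ (Finset.univ.erase 0).erase b :=
    fun u u1 u2 => by
      simp only [Finset.mem_erase, Finset.mem_univ, ne_eq, Fin.ext_iff, Fin.val_zero, and_true]
      omega
  obtain ⟨δ, d1, d2, d3, q, d4⟩ := sep (psi G (Bw_inj hd hn hI) (e0 d)) (psi G (Bw_inj hd hn hI) σ)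
    ((HC (d := d) I G (Finset.univ.erase 0)).subgroupOf (MM G (Bw hd hn hI)))
    ((HC I G ((Finset.univ.erase 0).erase b)).subgroupOf (MM G (Bw hd hn hI)))
    (fun g hg => HC_mono (Finset.erase_subset _ _) hg)
    (Finset.univ.filter fun x : Fin d => 2 ≤ x.val ∧ x.val < a.val) a (L d 0) f1 f2 (by simp)
    (by
      simp only [Finset.mem_insert, Finset.mem_filter, Finset.mem_univ, true_and, Fin.ext_iff]
      omega)
    (by simp only [Finset.mem_filter, Finset.mem_univ, true_and, f1]; omega)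
    (by simp only [Finset.mem_filter, Finset.mem_univ, true_and, f2]; omega) h12 ⟨μ, hM⟩ hH m0
    (by rw [hp, if_pos ⟨hlt f1 (by simp only [f1]; omega), hlt f2 (by simp only [f2]; omega)⟩])
    (fun g hg x hx => by
      rcases (pres hd hn hI hsh hC hg σ x).2 a a2 (by simp [hb]) with e | ⟨z, z1, z2, e⟩
      · rwa [e]
      · rw [e, hlt z z2]
        exact Finset.mem_filter.2 ⟨Finset.mem_univ _, z1, z2⟩)
    (fun x hx y hy hxy => by
      simp only [Finset.mem_insert, Finset.mem_filter, Finset.mem_univ, true_and,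
        Fin.ext_iff] at hx hy
      refine two_trans _ _ (fun x : Fin d => 2 ≤ x.val ∧ x.val < b.val) ⟨b.val - 1, by omega⟩
        (by simp only; omega) (fun g hg u hu => ?_)
        (fun u v hu hv => mv2 hd hn hI hsh hmv hC hm hu hv) (fun u v hu hv u1 v1 => ?_)
        (by simp only [f1]; omega) (by simp only [f2]; omega) (by omega) (by omega) h12 hxy
      · rcases (pres hd hn hI hsh hC hg (e0 d) u).2 b (by omega) (Finset.notMem_erase _ _) with
          e | ⟨z, z1, z2, e⟩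
        · rwa [e]
        · rw [e]
          exact ⟨z1, z2⟩
      · have hC' : (0 : Fin d) ∉ ((Finset.univ.erase 0).erase b).erase ⟨b.val - 1, by omega⟩ :=
          fun h => hC (Finset.mem_of_mem_erase h)
        simp only [ne_eq, Fin.ext_iff] at u1 v1
        obtain ⟨g, g1, g2⟩ := mv2 hd hn hI hsh hmv hC' (r := b.val - 1)
          (fun z z1 z2 => Finset.mem_erase.2 ⟨by simp only [ne_eq, Fin.ext_iff]; omega,
            hm z z1 (by omega)⟩) (x := u) (y := v) (by omega) (by omega)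
        exact ⟨g, HC_mono (Finset.erase_subset _ _) g1,
          (pres hd hn hI hsh hC' g1 (e0 d) _).1 (Finset.notMem_erase _ _), g2⟩)
  exact ⟨δ, d1, d2, L d 0, q, one_ne hd, d3, d4⟩

end VIsoX

theorem iso [NeZero d] (hd : 3 ≤ d) {n : ℕ} (hn' : d < n) {I : Finset ℕ} (hI : n ∈ I) (G : Type)
    [Group G] [Finite G] [MulAction G (W d I)]
    (hsh : ∀ (g : G) (w : W d I), g • shW d I w = shW d I (g • w))
    (hmk : ∀ (u v : Fin d) (j : ℕ), u ≠ v → 1 ≤ j → ∃ g : G, ∀ w : W d I, (g • w).1 = mk u v j w.1)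
    (hmv : MvG (d := d) I G) :
    ∃ τ ∈ lowD (d := d) I G n, ∃ y y' : Fin d, y ≠ 0 ∧ y' ≠ 0 ∧ y ≠ y' ∧ ∀ w : W d I, Per n w.1 →
      (w.1 = zd d n → (τ • w).1 = ad d n y) ∧ (w.1 = ad d n y → (τ • w).1 = ad d n y') ∧
      (w.1 = ad d n y' → (τ • w).1 = zd d n) ∧
      ((∀ k, w.1 ≠ shf (zd d n) k ∧ w.1 ≠ shf (ad d n y) k ∧ w.1 ≠ shf (ad d n y') k) →
        τ • w = w) := by
  have o := one_val hd
  have hP : ∀ (m : ℕ) (g : G) (w : W d I), Per m w.1 → Per m (g • w).1 := fun m g w hw =>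
    ZGrp.per_map (fun w => g • w) (hsh g) hw
  have hN : (lowD (d := d) I G n).Normal := ⟨fun k hk g m hm w hw => by
    rw [mul_smul, mul_smul, hk m hm _ (hP m g⁻¹ w hw), smul_inv_smul]⟩
  obtain ⟨t, ht⟩ := hmk 0 (L d 0) (n - d) (one_ne hd).symm (by omega)
  have t1 : ∀ σ y, t • Bw hd hn' hI σ y = Bw hd hn' hI σ (Equiv.swap 0 (L d 0) y) := fun σ y =>
    Subtype.ext ((ht _).trans (mk_Bs hd hn' σ y))
  have hC : (0 : Fin d) ∉ Finset.univ.erase 0 := Finset.notMem_erase _ _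
  have hH : ∀ g ∈ (HC (d := d) I G (Finset.univ.erase 0)).subgroupOf (MM G (Bw hd hn' hI)),
      psi G (Bw_inj hd hn' hI) (e0 d) g 0 = 0 := fun g hg => psi_eq _ (hc_zero hd hn' hI hC hg _)
  obtain ⟨τ, hτ, y, y', h1, h2, h3, h4, h5⟩ := iso_abs (Bw_inj hd hn' hI) (shW d I) hsh
    (fun w => Per n w.1) (hP n) _ hN (e0 d) 0 (L d 0) ⟨2, by omega⟩ (one_ne hd)
    (fun e => by simpa using congrArg Fin.val e) (fun e => by simp [e] at o)
    ⟨t, mem_MM (Bw_inj hd hn' hI) fun σ y => ⟨_, t1 σ y⟩⟩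
    (fun m hm w hw => Subtype.ext (by
      by_contra c
      rw [ht] at c
      exact absurd (hit_cls hd hn' hm.le hw c).1 hm.ne))
    (Equiv.ext fun y => psi_eq _ (t1 _ y))
    (fun w hw h => Subtype.ext (by
      by_contra c
      rw [ht] at c
      obtain ⟨-, σ, y, k, e⟩ := hit_cls hd hn' le_rfl hw c
      exact h σ y k (Subtype.ext (e.trans (shW_zpow (Bw hd hn' hI σ y) k).symm))))
    _ hH
    (fun x x' y y' a b c e f g => by
      refine two_trans _ _ (fun x : Fin d => x ≠ 0) (L d 0) (one_ne hd)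
        (fun g hg u hu e => hu ((psi G _ _ g).injective (e.trans (hH g hg).symm)))
        (fun u v hu hv => mv hd hn' hI hsh hmv hC (by simp [hu]) (occ_all hd hn' hv u)
          (occ_all hd hn' hu u)) (fun u v hu hv u1 v1 => ?_) a b c e f g
      have hC' : (0 : Fin d) ∉ (Finset.univ.erase 0).erase (L d 0) := by simp
      have := u.2
      have := v.2
      simp only [ne_eq, Fin.ext_iff, Fin.val_zero] at hu hv u1 v1
      obtain ⟨g, g1, g2⟩ := mv2 hd hn' hI hsh hmv hC' (r := d) (fun z z1 _ => by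
        simp only [Finset.mem_erase, Finset.mem_univ, ne_eq, Fin.ext_iff, Fin.val_zero, and_true]
        omega) (x := u) (y := v) (by omega) (by omega)
      exact ⟨g, HC_mono (Finset.erase_subset _ _) g1,
        (pres hd hn' hI hsh hC' g1 (e0 d) _).1 (Finset.notMem_erase _ _), g2⟩)
    (sep_arr hd hn' hI hsh hmk hmv)
  have z0 : (Bw hd hn' hI (e0 d) 0).1 = zd d n := Bs_zero _
  have z1 : ∀ u, u ≠ 0 → (Bw hd hn' hI (e0 d) u).1 = ad d n u := fun u hu => Bs_e0 hu
  refine ⟨τ, hτ, y, y', h1, h2, h3, fun w hw => ⟨fun e => ?_, fun e => ?_, fun e => ?_, fun h => ?_⟩⟩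
  · rw [show w = Bw hd hn' hI (e0 d) 0 from Subtype.ext (e.trans z0.symm),
      psi_spec (Bw_inj hd hn' hI), h4, Equiv.Perm.mul_apply, Equiv.swap_apply_left,
      Equiv.swap_apply_of_ne_of_ne h1 h3, z1 y h1]
  · rw [show w = Bw hd hn' hI (e0 d) y from Subtype.ext (e.trans (z1 y h1).symm),
      psi_spec (Bw_inj hd hn' hI), h4, Equiv.Perm.mul_apply, Equiv.swap_apply_right,
      Equiv.swap_apply_left, z1 y' h2]
  · rw [show w = Bw hd hn' hI (e0 d) y' from Subtype.ext (e.trans (z1 y' h2).symm),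
      psi_spec (Bw_inj hd hn' hI), h4, Equiv.Perm.mul_apply,
      Equiv.swap_apply_of_ne_of_ne h2 h3.symm, Equiv.swap_apply_right, z0]
  · by_cases c : ∀ u (k : ℤ), w ≠ (shW d I ^ k) (Bw hd hn' hI (e0 d) u)
    · exact h5 w hw c
    push Not at c
    obtain ⟨u, k, rfl⟩ := c
    obtain ⟨a1, a2, a3⟩ := h k
    rw [shW_zpow] at a1 a2 a3
    have b1 : u ≠ 0 := fun e => a1 (by rw [e, z0])
    have b2 : u ≠ y := fun e => a2 (by rw [e, z1 y h1])
    have b3 : u ≠ y' := fun e => a3 (by rw [e, z1 y' h2])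
    have hc : Commute (MulAction.toPerm (τ : G) : Equiv.Perm (W d I)) (shW d I) :=
      Equiv.ext fun x => hsh _ x
    refine (DFunLike.congr_fun (hc.zpow_right k).eq _).trans ?_
    show (shW d I ^ k) ((τ : G) • _) = _
    rw [psi_spec (Bw_inj hd hn' hI), h4, Equiv.Perm.mul_apply,
      Equiv.swap_apply_of_ne_of_ne b1 b2, Equiv.swap_apply_of_ne_of_ne b1 b3]

end Pool.Agent.MP_9b2bac_nt.Z
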