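import Mathlib
import Pool.Agent.MP_9b2bac_nt.VIso
import Pool.Agent.MP_9b2bac_nt.ZSym

/- Many cycles on the two lowest levels, and the count on the level of the letters. -/

set_option autoImplicit false

namespace Pool.Agent.MP_9b2bac_nt.Z

variable {d : ℕ}

namespace TManyX

open VIsoX

theorem shift_eq [NeZero d] (hd : 3 ≤ d) {n : ℕ} (hn : d < n) {σ τ : Equiv.Perm (Fin d)} {k : ℤ}
    (h : shf (σ ∘ zd d n) k = τ ∘ zd d n) : σ = τ := by
  have hk : k % n = 0 := by
    have p := zd_per hd hn
    have e : ∀ i j : ℤ, zd d n (k + i) = zd d n (k + j) ↔ zd d n i = zd d n j := fun i j => by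
      have a := congrFun h i
      have b := congrFun h j
      simp only [shf, Function.comp] at a b
      rw [add_comm k, add_comm k, ← σ.injective.eq_iff, a, b, τ.injective.eq_iff]
    have e1 := e (n - 1) (n - 2)
    have e2 := e (n - 1) 0
    have s1 := zd_spec hd hn (n - 1)
    have s2 := zd_spec hd hn (n - 2)
    have s3 := zd_spec hd hn 0
    rw [small _ (by omega) (by omega)] at s1 s2 s3
    have t1 := zd_spec hd hn (k + (n - 1))
    have t2 := zd_spec hd hn (k + (n - 2))
    have t3 := zd_spec hd hn (k + 0)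
    have a1 := addmod (n := n) (by omega) k (n - 1) (by omega) (by omega)
    have a2 := addmod (n := n) (by omega) k (n - 2) (by omega) (by omega)
    have a3 := addmod (n := n) (by omega) k 0 (by omega) (by omega)
    simp only [Fin.ext_iff] at e1 e2
    omega
  ext c
  obtain ⟨i, rfl⟩ := (zd_per hd hn).2.2 c
  have a := congrFun h i
  simp only [shf, Function.comp] at a
  rw [← a, ← (zd_per hd hn).emod (i + k), ← Int.add_emod_emod, hk, add_zero, (zd_per hd hn).emod]

theorem surj_fin {m : ℕ} {s : Seq d} (h : Per m s) :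
    Function.Surjective fun x : Fin m => s (x : ℕ) := fun c => by
  obtain ⟨x, rfl⟩ := h.2.2 c
  obtain ⟨k, k1, k2, -⟩ := ZGiant.per_shift h 0 x
  exact ⟨⟨k, k1⟩, by simpa using k2⟩

theorem prim_of {s : Seq d} (h : Per d s) : Prim d s :=
  ⟨h, fun m hm h' => by
    have := Fintype.card_le_of_surjective _ (surj_fin h')
    simp only [Fintype.card_fin] at this
    omega⟩

theorem exists_perm {s t : Seq d} (hs : Per d s) (ht : Per d t) :
    ∃ σ : Equiv.Perm (Fin d), t = σ ∘ s := by
  have bs := Finite.surjective_iff_bijective.1 (surj_fin hs)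
  have bt := Finite.surjective_iff_bijective.1 (surj_fin ht)
  refine ⟨(Equiv.ofBijective _ bs).symm.trans (Equiv.ofBijective _ bt),
    ZGiant.window ht (hs.comp _) 0 fun k hk => ?_⟩
  have := (Equiv.ofBijective _ bs).symm_apply_apply ⟨k, hk⟩
  simp only [Equiv.ofBijective_apply] at this
  simp only [zero_add, Function.comp, Equiv.trans_apply, this, Equiv.ofBijective_apply]

theorem sol_card {I : Finset ℕ} (hI : d ∈ I) (τ : Fin d → Fin d) :
    {w : W d I | Per d w.1 ∧ τ ∘ w.1 = sh w.1}.ncard = 0 ∨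
      {w : W d I | Per d w.1 ∧ τ ∘ w.1 = sh w.1}.ncard = d := by
  rcases Set.eq_empty_or_nonempty {w : W d I | Per d w.1 ∧ τ ∘ w.1 = sh w.1} with e | ⟨w, h1, h2⟩
  · left
    rw [e, Set.ncard_empty]
  right
  have hb : Set.BijOn (fun w : W d I => w.1 0) {w : W d I | Per d w.1 ∧ τ ∘ w.1 = sh w.1}
      Set.univ := by
    refine ⟨Set.mapsTo_univ _ _, fun a ha b hb e => Subtype.ext ?_, fun c _ => ?_⟩
    · refine ZGiant.window ha.1 hb.1 0 fun k hk => ?_
      clear hk
      induction k with
      | zero => simpa using e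
      | succ k ih =>
        have x := congrFun ha.2 (0 + k)
        have y := congrFun hb.2 (0 + k)
        simp only [Function.comp, sh] at x y
        push_cast
        rw [← add_assoc, ← x, ← y, ih]
    · obtain ⟨j, rfl⟩ := h1.2.2 c
      refine ⟨⟨shf w.1 j, d, hI, per_shf h1 j⟩, ⟨per_shf h1 j, funext fun i => ?_⟩, by simp⟩
      have x := congrFun h2 (i + j)
      simp only [Function.comp, sh, shf] at x ⊢
      rw [x, add_right_comm]
  rw [hb.ncard_eq, Set.ncard_univ, Nat.card_eq_fintype_card, Fintype.card_fin]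

theorem fiber_card {G Y : Type} [Group G] [Fintype G] [DecidableEq Y] [MulAction G Y]
    (X : Finset Y) (h1 : ∀ g : G, ∀ a ∈ X, g • a ∈ X) (h2 : ∀ a ∈ X, ∀ b ∈ X, ∃ g : G, g • a = b)
    {a b : Y} (ha : a ∈ X) (hb : b ∈ X) :
    X.card * (Finset.univ.filter fun g : G => g • a = b).card = Fintype.card G := by
  rw [← Finset.card_univ, Finset.card_eq_sum_card_fiberwise (s := Finset.univ)
    (f := fun g : G => g • a) (t := X) (fun g _ => h1 g a ha)]
  refine (Finset.sum_const_nat fun c hc => Eq.symm ?_).symm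
  obtain ⟨h, rfl⟩ := h2 b hb c hc
  refine Finset.card_nbij' (fun g => h * g) (fun g => h⁻¹ * g) (fun g hg => ?_) (fun g hg => ?_)
    (fun g _ => by simp) fun g _ => by simp
  · simp only [Finset.coe_filter, Finset.mem_univ, true_and, Set.mem_ofPred_eq] at hg ⊢
    rw [mul_smul, hg]
  · simp only [Finset.coe_filter, Finset.mem_univ, true_and, Set.mem_ofPred_eq] at hg ⊢
    rw [mul_smul, hg, inv_smul_smul]

theorem sum_card {G Y : Type} [Group G] [Fintype G] [DecidableEq Y] [MulAction G Y]
    (X : Finset Y) (h0 : X.Nonempty) (h1 : ∀ g : G, ∀ a ∈ X, g • a ∈ X)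
    (h2 : ∀ a ∈ X, ∀ b ∈ X, ∃ g : G, g • a = b) (p q : Y → Y) (hp : ∀ a ∈ X, p a ∈ X)
    (hq : ∀ a ∈ X, q a ∈ X) :
    ∑ g : G, (X.filter fun w => g • p w = q w).card = Fintype.card G := by
  have e : ∑ g : G, (X.filter fun w => g • p w = q w).card =
      ∑ w ∈ X, (Finset.univ.filter fun g : G => g • p w = q w).card := by
    simp only [Finset.card_filter]
    exact Finset.sum_comm
  refine Nat.eq_of_mul_eq_mul_left h0.card_pos ?_
  rw [e, Finset.mul_sum, Finset.sum_congr rfl fun w hw => fiber_card X h1 h2 (hp w hw) (hq w hw),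
    Finset.sum_const, smul_eq_mul]

theorem final {G : Type} [Fintype G] (hd : 2 ≤ d) (c : G → ℕ) (hc : ∀ g, c g = 0 ∨ c g = d)
    (hs : ∑ g, c g = Fintype.card G) (k : ℕ) :
    ({g : G | c g = d * k}.ncard : ℝ) =
      (if k = 0 then 1 - 1 / (d : ℝ) else if k = 1 then 1 / (d : ℝ) else 0) * Nat.card G := by
  classical
  have d0 : (d : ℝ) ≠ 0 := by
    have : d ≠ 0 := by omega
    exact_mod_cast this
  have hA : d * (Finset.univ.filter fun g => c g = d).card = Fintype.card G := by
    rw [← hs, Finset.card_filter, Finset.mul_sum]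
    refine Finset.sum_congr rfl fun g _ => ?_
    rcases hc g with e | e
    · rw [if_neg (by omega), e, mul_zero]
    · rw [if_pos e, e, mul_one]
  have hB : (Finset.univ.filter fun g => c g = d).card +
      (Finset.univ.filter fun g => ¬ c g = d).card = Fintype.card G := by
    rw [Finset.card_filter_add_card_filter_not, Finset.card_univ]
  have hA' : (d : ℝ) * (Finset.univ.filter fun g => c g = d).card = Fintype.card G := by
    exact_mod_cast hA
  have hB' : ((Finset.univ.filter fun g => c g = d).card : ℝ) +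
      (Finset.univ.filter fun g => ¬ c g = d).card = Fintype.card G := by
    exact_mod_cast hB
  rw [Nat.card_eq_fintype_card]
  split_ifs with k0 k1
  · have : {g : G | c g = d * k} = ↑(Finset.univ.filter fun g => ¬ c g = d) := by
      ext g
      have := hc g
      simp only [k0, mul_zero, Set.mem_ofPred_eq, Finset.coe_filter, Finset.mem_univ, true_and]
      omega
    rw [this, Set.ncard_coe_finset]
    field_simp
    linear_combination d * hB' - hA'
  · have : {g : G | c g = d * k} = ↑(Finset.univ.filter fun g => c g = d) := by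
      ext g
      simp [k1]
    rw [this, Set.ncard_coe_finset]
    field_simp
    linear_combination hA'
  · have : {g : G | c g = d * k} = ∅ := by
      ext g
      have h2 : d * 2 ≤ d * k := Nat.mul_le_mul_left _ (by omega)
      have := hc g
      simp only [Set.mem_ofPred_eq, Set.mem_empty_iff_false, iff_false]
      omega
    rw [this]
    simp

end TManyX

theorem manyE (hd : 6 ≤ d) {n : ℕ} (hn : d < n) (hn' : n ≤ d + 2) :
    ∃ c : Fin (2 * n + 3) → Seq d, (∀ i, Prim n (c i)) ∧ ∀ i j k, shf (c i) k = c j → i = j := by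
  have : NeZero d := ⟨by omega⟩
  have hc : Fintype.card (Fin (2 * n + 3)) ≤ Fintype.card (Equiv.Perm (Fin d)) := by
    rw [Fintype.card_perm, Fintype.card_fin, Fintype.card_fin]
    obtain ⟨m, rfl⟩ : ∃ m, d = m + 1 := ⟨d - 1, by omega⟩
    have h1 : Nat.factorial 3 ≤ m.factorial := Nat.factorial_le (by omega)
    have h2 : (m + 1) * 6 ≤ (m + 1) * m.factorial := Nat.mul_le_mul_left _ h1
    rw [Nat.factorial_succ]
    omega
  obtain ⟨e⟩ := Function.Embedding.nonempty_of_card_le hc
  have p := zd_prim (d := d) (by omega) hn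
  refine ⟨fun i => e i ∘ zd d n, fun i => ⟨p.1.comp _, fun m hm h => p.2 m hm ?_⟩,
    fun i j k h => e.injective (TManyX.shift_eq (by omega) hn h)⟩
  have := h.comp (e i).symm
  rwa [← Function.comp_assoc, Equiv.symm_comp_self, Function.id_comp] at this

theorem lev_count (hd : 2 ≤ d) {I : Finset ℕ} (hI : d ∈ I) (G : Type) [Group G] [Finite G]
    [MulAction G (W d I)]
    (hrel : ∀ g : G, ∃ ρ : Fin d → Fin d, ∀ w : W d I, Per d w.1 → (g • w).1 = ρ ∘ w.1)
    (hsw : ∀ u v : Fin d, u ≠ v → ∃ g : G, ∀ w : W d I, Per d w.1 →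
      (g • w).1 = Equiv.swap u v ∘ w.1) (π : Equiv.Perm (Fin d)) (k : ℕ) :
    ({g : G | {w : W d I | Prim d w.1 ∧ g • relW I π w = shW d I w}.ncard = d * k}.ncard : ℝ) =
      (if k = 0 then 1 - 1 / (d : ℝ) else if k = 1 then 1 / (d : ℝ) else 0) * Nat.card G := by
  classical
  have := Fintype.ofFinite G
  have := Fintype.ofFinite (W d I)
  have hP : ∀ (g : G) (w : W d I), Per d w.1 → Per d (g • w).1 := fun g w hw => by
    obtain ⟨ρ, hρ⟩ := hrel g
    obtain ⟨m, -, hm⟩ := (g • w).2
    refine ⟨hw.1, fun i => ?_, hm.2.2⟩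
    rw [hρ w hw]
    exact congrArg ρ (hw.2.1 i)
  have hall : ∀ σ : Equiv.Perm (Fin d), ∃ g : G, ∀ w : W d I, Per d w.1 → (g • w).1 = σ ∘ w.1 := by
    intro σ
    induction σ using Equiv.Perm.swap_induction_on with
    | one => exact ⟨1, fun w _ => by simp⟩
    | swap_mul σ u v huv ih =>
      obtain ⟨g, hg⟩ := ih
      obtain ⟨h, hh⟩ := hsw u v huv
      exact ⟨h * g, fun w hw => by rw [mul_smul, hh _ (hP g w hw), hg w hw]; rfl⟩
  have h0 : ∃ s : Seq d, Per d s := by
    have d0 : (0 : ℤ) < d := by omega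
    refine ⟨fun i => ⟨(i % d).toNat, by
      have := Int.emod_lt_of_pos i d0
      omega⟩, by omega, fun i => by simp, fun c => ⟨c.val, Fin.ext ?_⟩⟩
    have := c.2
    simp only
    rw [Int.emod_eq_of_lt (by omega) (by omega)]
    simp
  obtain ⟨s0, hs0⟩ := h0
  refine TManyX.final hd _ (fun g => ?_) ?_ k
  · obtain ⟨ρ, hρ⟩ := hrel g
    have e : {w : W d I | Prim d w.1 ∧ g • relW I π w = shW d I w} =
        {w : W d I | Per d w.1 ∧ (ρ ∘ π) ∘ w.1 = sh w.1} := by
      ext w
      simp only [Set.mem_ofPred_eq]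
      refine ⟨fun h => ⟨h.1.1, ?_⟩, fun h => ⟨TManyX.prim_of h.1, Subtype.ext ?_⟩⟩
      · have := congrArg Subtype.val h.2
        rwa [hρ _ (h.1.1.comp π)] at this
      · rw [hρ _ (h.1.comp π)]
        exact h.2
    rw [e]
    exact TManyX.sol_card hI _
  · rw [← TManyX.sum_card (G := G) (Finset.univ.filter fun w : W d I => Per d w.1)
      ⟨⟨s0, d, hI, hs0⟩, by simpa using hs0⟩ (fun g a ha => by simpa using hP g a (by simpa using ha))
      (fun a ha b hb => by
        simp only [Finset.mem_filter, Finset.mem_univ, true_and] at ha hb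
        obtain ⟨σ, hσ⟩ := TManyX.exists_perm ha hb
        obtain ⟨g, hg⟩ := hall σ
        exact ⟨g, Subtype.ext ((hg a ha).trans hσ.symm)⟩) (relW I π) (shW d I)
      (fun a ha => by
        simp only [Finset.mem_filter, Finset.mem_univ, true_and] at ha ⊢
        exact ha.comp π)
      (fun a ha => by
        simp only [Finset.mem_filter, Finset.mem_univ, true_and] at ha ⊢
        exact ha.sh)]
    refine Finset.sum_congr rfl fun g _ => ?_
    rw [← Set.ncard_coe_finset]
    congr 1
    ext w
    simp only [Set.mem_ofPred_eq, Finset.coe_filter, Finset.mem_filter, Finset.mem_univ, true_and]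
    exact ⟨fun h => ⟨h.1.1, h.2⟩, fun h => ⟨TManyX.prim_of h.1, h.2⟩⟩

end Pool.Agent.MP_9b2bac_nt.Z
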