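import Mathlib
import Pool.Agent.MP_9b2bac_nt.VDefs

/- Words with a single run of one letter. -/

set_option autoImplicit false

namespace Pool.Agent.MP_9b2bac_nt.Z

variable {d n : ℕ} {O : Set (Seq d)} {c : Fin d} {W W' : List (Fin d)} {p : ℤ}

/-- The block `W` at position `p`, the letter `c` elsewhere, period `n`. -/
def blk (n : ℕ) (c : Fin d) (W : List (Fin d)) (p : ℤ) : Seq d :=
  fun i => W.getD ((i - p) % n).toNat c

/-- The block uses exactly the letters other than `c` and is shorter than `n`. -/
def Gd (n : ℕ) (c : Fin d) (W : List (Fin d)) : Prop := (∀ y, y ∈ W ↔ y ≠ c) ∧ W.length < n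

theorem blk_at {i : ℤ} (k : ℕ) (q : ℤ) (hk : k < n) (h : i = p + k + q * n) :
    blk n c W p i = W.getD k c := by
  unfold blk
  rw [h, show p + k + q * n - p = k + q * n by ring, Int.add_mul_emod_self_right,
    Int.emod_eq_of_lt (by omega) (by omega), Int.toNat_natCast]

theorem pos_dec (hn : 0 < n) (p i : ℤ) : ∃ (k : ℕ) (q : ℤ), k < n ∧ i = p + k + q * n := by
  have h0 := Int.emod_nonneg (i - p) (show (n : ℤ) ≠ 0 by omega)
  have h1 := Int.emod_lt_of_pos (i - p) (show (0 : ℤ) < n by omega)
  refine ⟨((i - p) % n).toNat, (i - p) / n, by omega, ?_⟩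
  rw [Int.toNat_of_nonneg h0, add_assoc, Int.emod_add_ediv_mul]
  ring

theorem getD_mem {k : ℕ} (hk : k < W.length) : W.getD k c ∈ W := by
  rw [List.getD_eq_getElem _ _ hk]
  exact List.getElem_mem hk

theorem Gd.ne (h : Gd n c W) {k : ℕ} (hk : k < W.length) : W.getD k c ≠ c :=
  (h.1 _).1 (getD_mem hk)

theorem Gd.per (h : Gd n c W) (p : ℤ) : Per n (blk n c W p) := by
  have hn : 0 < n := by have := h.2; omega
  refine ⟨hn, fun i => ?_, fun y => ?_⟩
  · obtain ⟨k, q, hk, rfl⟩ := pos_dec hn p i
    rw [blk_at k q hk rfl, blk_at k (q + 1) hk (by ring)]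
  · by_cases hy : y = c
    · exact ⟨p + W.length, by
        rw [blk_at W.length 0 h.2 (by ring), List.getD_eq_default _ _ le_rfl, hy]⟩
    · obtain ⟨k, hk, rfl⟩ := List.getElem_of_mem ((h.1 y).2 hy)
      exact ⟨p + k, by rw [blk_at k 0 (hk.trans h.2) (by ring), List.getD_eq_getElem _ _ hk]⟩

theorem Gd.prim (h : Gd n c W) (hW : W ≠ []) (p : ℤ) : Prim n (blk n c W p) := by
  refine ⟨h.per p, fun m hm hp => ?_⟩
  have hl := h.2
  have h0 : 0 < W.length := List.length_pos_iff.2 hW
  have h1 := hp.2.1 p
  have h2 := hp.2.1 (p - 1)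
  have hm0 := hp.1
  rw [blk_at m 0 hm (by ring), blk_at 0 0 (by omega) (by simp)] at h1
  rw [blk_at (m - 1) 0 (by omega) (by omega), blk_at (n - 1) (-1) (by omega) (by omega),
    List.getD_eq_default W c (n := n - 1) (by omega)] at h2
  by_cases hc : m < W.length
  · exact h.ne (by omega) h2
  · rw [List.getD_eq_default _ _ (by omega)] at h1
    exact h.ne h0 h1.symm

theorem Gd.occ (h : Gd n c W) {i : ℤ} (k : ℕ) (q : ℤ) (hk : k < n) (hi : i = p + k + q * n)
    (j : Fin d) : Occ (Finset.univ.erase c) (blk n c W p) i j ↔ j ∈ W.drop k := by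
  have hl := h.2
  constructor
  · rintro ⟨i', h1, h2, h3⟩
    obtain ⟨r, rfl⟩ : ∃ r : ℕ, i' = i + r := ⟨(i' - i).toNat, by omega⟩
    have h4 : k + r < W.length := by
      by_contra hc
      have := h3 (p + (max k W.length : ℕ) + q * n) (by omega) (by omega)
      rw [blk_at (max k W.length) q (by omega) rfl, List.getD_eq_default _ _ (by omega)] at this
      simp at this
    rw [blk_at (k + r) q (by omega) (by push_cast; omega), List.getD_eq_getElem _ _ h4] at h2
    rw [← h2, List.mem_drop_iff_getElem]
    exact ⟨r, by omega, rfl⟩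
  · intro hj
    obtain ⟨r, h4, h5⟩ := List.mem_drop_iff_getElem.1 hj
    refine ⟨i + r, by omega, ?_, fun x a b => ?_⟩
    · rw [blk_at (k + r) q (by omega) (by push_cast; omega), List.getD_eq_getElem _ _ (by omega), h5]
    · rw [blk_at (k + (x - i).toNat) q (by omega) (by push_cast; omega)]
      simpa using h.ne (k := k + (x - i).toNat) (by omega)

/-- Two admissible words with a single block are equivalent. -/
theorem one_block {C : Finset (Fin d)} (hmv : MvO n O C) {s t : Seq d} (hs : Prim n s)
    (ht : Per n t) (h : Adm C s t) (L : ℕ) (h1 : ∀ k : ℕ, k < L → s (p + k) ∈ C)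
    (h2 : ∀ k : ℕ, L ≤ k → k < n → s (p + k) ∉ C) : s ∈ O ↔ t ∈ O := by
  have key : ∀ m : ℕ, m ≤ L → ∃ r, Prim n r ∧ Adm C r t ∧ (s ∈ O ↔ r ∈ O) ∧
      ∀ x, p + L - m ≤ x → x < p + L → r x = t x := by
    intro m
    induction m with
    | zero => exact fun _ => ⟨s, hs, h, Iff.rfl, fun x a b => by omega⟩
    | succ m ih =>
      intro hm
      obtain ⟨r, a1, a2, a3, a4⟩ := ih (by omega)
      have hC : ∀ x, p ≤ x → x < p + L → r x ∈ C := fun x a b => by
        rw [← a2.mem_iff, h.mem_iff, show x = p + ((x - p).toNat : ℕ) by omega]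
        exact h1 _ (by omega)
      set i := p + L - m - 1 with hi
      by_cases he : r i = t i
      · refine ⟨r, a1, a2, a3, fun x a b => ?_⟩
        by_cases hx : x = i
        · rw [hx, he]
        · exact a4 x (by push_cast at a; omega) b
      · have hri : r i ∈ C := hC i (by omega) (by omega)
        have b1 : Occ C r (i + 1) (r i) :=
          ((a2 (i + 1)).2 _).2 ((occ_iff.1 (((a2 i).2 _).1 (occ_self hri))).2.resolve_left
            fun e => he e.symm)
        have b2 : Occ C r (i + 1) (t i) := (occ_iff.1 (a2.occ hri)).2.resolve_left he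
        obtain ⟨r', c1, c2, c3, c4, c5⟩ := hmv r i (t i) a1 hri b1 b2
        refine ⟨r', c1, c2.symm.trans a2, a3.trans c5, fun x a b => ?_⟩
        by_cases hx : x = i
        · rw [hx, c3]
        · push_cast at a
          rw [c4 x (by omega) fun k e f => hC k (by omega) (by omega)]
          exact a4 x (by omega) b
  obtain ⟨r, a1, a2, a3, a4⟩ := key L le_rfl
  suffices r = t by rwa [this] at a3
  funext i
  obtain ⟨k, q, hk, rfl⟩ := pos_dec hs.1.1 p i
  rw [a1.1.zper, ht.zper]
  by_cases hc : k < L
  · exact a4 _ (by omega) (by omega)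
  · refine ((a2 _).1 ?_).symm
    rw [← a2.mem_iff, h.mem_iff]
    exact h2 k (by omega) hk

theorem Gd.r0 (hmv : MvO n O (Finset.univ.erase c)) (h : Gd n c W) (h' : Gd n c W') (hW : W ≠ [])
    (hl : W.length = W'.length) (hd : ∀ k j, j ∈ W.drop k ↔ j ∈ W'.drop k) :
    blk n c W p ∈ O ↔ blk n c W' p ∈ O := by
  have hn := h.2
  refine one_block (p := p) hmv (h.prim hW p) (h'.per p) (fun i => ?_) W.length (fun k hk => ?_)
    fun k a b => ?_
  · obtain ⟨k, q, hk, hi⟩ := pos_dec (show 0 < n by omega) p i
    refine ⟨fun a => ?_, fun j => by rw [h.occ k q hk hi, h'.occ k q hk hi, hd]⟩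
    rw [blk_at k q hk hi] at a ⊢
    rw [blk_at k q hk hi]
    by_cases hc : k < W.length
    · exact absurd (by simpa using h.ne hc) a
    · rw [List.getD_eq_default _ _ (by omega), List.getD_eq_default _ _ (by omega)]
  · rw [blk_at k 0 (by omega) (by ring)]
    simpa using h.ne hk
  · rw [blk_at k 0 b (by ring), List.getD_eq_default _ _ a]
    simp

/-- The part of a block before a complete tail is free. -/
theorem Gd.pre (hmv : MvO n O (Finset.univ.erase c)) {U U' G : List (Fin d)} (hG : Gd n c G)
    (hW : G ≠ []) (hU : c ∉ U) (hU' : c ∉ U') (hl : U.length = U'.length)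
    (hn : U.length + G.length < n) : blk n c (U ++ G) p ∈ O ↔ blk n c (U' ++ G) p ∈ O := by
  have g : ∀ V : List (Fin d), c ∉ V → ∀ y, y ∈ V ++ G ↔ y ≠ c := fun V hV y => by
    rw [List.mem_append, hG.1]
    exact ⟨fun a => a.elim (fun b e => hV (e ▸ b)) id, .inr⟩
  refine Gd.r0 hmv ⟨g U hU, by simpa using hn⟩ ⟨g U' hU', by simpa [← hl] using hn⟩ (by simp [hW])
    (by simp [hl]) fun k j => ?_
  rw [List.drop_append, List.drop_append, hl]
  by_cases hk : k ≤ U'.length
  · rw [Nat.sub_eq_zero_of_le hk, List.drop_zero, g _ fun a => hU (List.mem_of_mem_drop a),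
      g _ fun a => hU' (List.mem_of_mem_drop a)]
  · rw [List.drop_eq_nil_of_le (by omega), List.drop_eq_nil_of_le (as := U') (by omega)]

/-- A last letter equal to the first letter can be removed. -/
theorem Gd.r1
    (hmk : ∀ u v j s, u ≠ v → 1 ≤ j → Prim n s → Prim n (mk u v j s) ∧ (s ∈ O ↔ mk u v j s ∈ O))
    {x : Fin d} (h : Gd n c (x :: W ++ [x])) :
    blk n c (x :: W ++ [x]) p ∈ O ↔ blk n c (x :: W) p ∈ O := by
  have hl : W.length + 2 < n := by simpa using h.2
  have hx : x ≠ c := (h.1 x).1 (by simp)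
  obtain ⟨J, hJ⟩ : ∃ J, n = W.length + 2 + J := ⟨n - (W.length + 2), by omega⟩
  have hlen : (x :: W ++ [x]).length = W.length + 2 := by simp
  suffices e : mk c x J (blk n c (x :: W ++ [x]) p) = blk n c (x :: W) p by
    rw [← e]
    exact (hmk c x J _ hx.symm (by omega) (h.prim (by simp) p)).2
  funext i
  obtain ⟨k, q, hk, hi⟩ := pos_dec (show 0 < n by omega) p i
  have h0 : blk n c (x :: W ++ [x]) p (p + (q + 1) * n) = x := by
    rw [blk_at 0 (q + 1) (by omega) (by simp)]
    rfl
  rw [blk_at k q hk hi]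
  rcases lt_trichotomy k (W.length + 1) with hc | hc | hc
  · rw [ZSweep.mk_mid (i + 1) (by omega) (by omega), blk_at k q hk hi,
      List.getD_append _ _ _ _ (by simpa using hc)]
    rw [blk_at (k + 1) q (by omega) (by push_cast; omega)]
    exact h.ne (by omega)
  · rw [ZSweep.mk_hit, blk_at k q hk hi, List.getD_append_right _ _ _ _ (by simp [hc]),
      List.getD_eq_default (x :: W) _ (by simp [hc])]
    · simp [hc]
    · refine ⟨fun r a b => ?_, ?_⟩
      · rw [blk_at (k + r) q (by omega) (by push_cast; omega), List.getD_eq_default _ _ (by omega)]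
      · rw [show i + J + 1 = p + (q + 1) * n by rw [add_mul]; omega, h0]
  · rw [ZSweep.mk_mid (p + (q + 1) * n) (by rw [add_mul]; omega) (by rw [add_mul]; omega),
      blk_at k q hk hi, List.getD_eq_default _ _ (by omega),
      List.getD_eq_default _ _ (by simp; omega)]
    rw [h0]
    exact hx

/-- The same word read with another background letter. -/
theorem blk_turn {a : Fin d} {K J : ℕ} (hn : 0 < n) (h : n = K + W.length + J) :
    blk n c (List.replicate K a ++ W) p = blk n a (W ++ List.replicate J c) (p + K) := by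
  funext i
  obtain ⟨k, q, hk, hi⟩ := pos_dec hn p i
  rw [blk_at k q hk hi]
  by_cases hc : k < K
  · rw [blk_at (k + n - K) (q - 1) (by omega) (by rw [sub_mul]; omega),
      List.getD_append _ _ _ _ (by simpa using hc), List.getD_eq_default _ a (by simp; omega),
      List.getD_eq_getElem _ _ (by simpa using hc), List.getElem_replicate]
  · rw [blk_at (k - K) q (by omega) (by omega), List.getD_append_right _ _ _ _ (by simp; omega),
      List.length_replicate]
    by_cases hc' : k - K < W.length
    · rw [List.getD_append _ _ _ _ hc', List.getD_eq_getElem _ _ hc', List.getD_eq_getElem _ _ hc']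
    · rw [List.getD_eq_default _ _ (by omega), List.getD_append_right _ _ _ _ (by omega),
        List.getD_eq_getElem _ _ (by simp; omega), List.getElem_replicate]

/-- Rigid words. -/
theorem Gd.rigid {a : Fin d} {J : ℕ} (h : Gd n c (W ++ List.replicate J a)) (hW : W.Nodup)
    (ha : J = 0 ∨ a ∉ W) (t : Seq d)
    (ht : Adm (Finset.univ.erase c) (blk n c (W ++ List.replicate J a) p) t) :
    t = blk n c (W ++ List.replicate J a) p := by
  funext i
  have hl : W.length + J < n := by simpa using h.2
  obtain ⟨k, q, hk, hi⟩ := pos_dec (show 0 < n by omega) p i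
  by_cases h1 : k < W.length
  · refine ht.fix ?_
    rw [h.occ (k + 1) q (by omega) (by push_cast; omega), blk_at k q hk hi,
      List.getD_append _ _ _ _ h1, List.getD_eq_getElem _ _ h1, List.drop_append, List.mem_append]
    rintro (h2 | h2)
    · obtain ⟨r, h3, h4⟩ := List.mem_drop_iff_getElem.1 h2
      have := (hW.getElem_inj_iff).1 h4
      omega
    · have h3 := List.mem_replicate.1 (List.mem_of_mem_drop h2)
      rcases ha with ha | ha
      · exact h3.1 ha
      · exact ha (h3.2 ▸ List.getElem_mem h1)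
  · by_cases h2 : k < W.length + J
    · have h3 : blk n c (W ++ List.replicate J a) p i ∈ Finset.univ.erase c := by
        rw [blk_at k q hk hi]
        simpa using h.ne (k := k) (by simpa using h2)
      have h4 := (h.occ k q hk hi _).1 (ht.occ h3)
      have h5 := (h.occ k q hk hi _).1 (occ_self h3)
      rw [List.drop_append, List.drop_eq_nil_of_le (by omega), List.nil_append] at h4 h5
      rw [(List.mem_replicate.1 (List.mem_of_mem_drop h4)).2,
        (List.mem_replicate.1 (List.mem_of_mem_drop h5)).2]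
    · refine (ht i).1 ?_
      rw [blk_at k q hk hi, List.getD_eq_default _ _ (by simp; omega)]
      simp

end Pool.Agent.MP_9b2bac_nt.Z
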