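import Mathlib
import Pool.Agent.MP_9b2bac_nt.VCan1

/- Classes of words with a single block that ends with an arrangement of the letters. -/

set_option autoImplicit false

namespace Pool.Agent.MP_9b2bac_nt.Z

variable {d n : ℕ} {O : Set (Seq d)} {c a b f g : Fin d} {F F' U : List (Fin d)} {p : ℤ}

/-- An arrangement of the letters other than `c`. -/
def Arr (c : Fin d) (F : List (Fin d)) : Prop := F.Nodup ∧ ∀ y, y ∈ F ↔ y ≠ c

/-- A word whose block is `k` letters followed by `F` lies in `O`. -/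
def Cl (n : ℕ) (O : Set (Seq d)) (c : Fin d) (k : ℕ) (F : List (Fin d)) (p : ℤ) : Prop :=
  ∃ U : List (Fin d), U.length = k ∧ c ∉ U ∧ blk n c (U ++ F) p ∈ O

/-- The markers preserve `O`. -/
def HM (n : ℕ) (O : Set (Seq d)) : Prop :=
  ∀ u v j s, u ≠ v → 1 ≤ j → Prim n s → Prim n (mk u v j s) ∧ (s ∈ O ↔ mk u v j s ∈ O)

theorem Arr.len (h : Arr c F) : F.length + 1 = d := by
  have h1 : F.toFinset = Finset.univ.erase c := by
    ext y
    simp [h.2]
  have h2 := List.toFinset_card_of_nodup h.1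
  rw [h1, Finset.card_erase_of_mem (Finset.mem_univ _), Finset.card_univ, Fintype.card_fin] at h2
  have := c.pos
  omega

theorem Arr.perm (h : Arr c F) (e : F.Perm F') : Arr c F' :=
  ⟨e.nodup_iff.1 h.1, fun y => e.mem_iff.symm.trans (h.2 y)⟩

theorem Arr.ne (h : Arr c F) (ha : a ∈ F) : a ≠ c := (h.2 a).1 ha

theorem Arr.gd (h : Arr c F) {V : List (Fin d)} (hU : c ∉ U) (hV : c ∉ V)
    (hn : U.length + V.length + d ≤ n) : Gd n c (U ++ F ++ V) := by
  refine ⟨fun y => ?_, ?_⟩
  · rw [List.mem_append, List.mem_append, h.2]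
    exact ⟨fun a => a.elim (fun b => b.elim (fun b e => hU (e ▸ b)) id) fun b e => hV (e ▸ b),
      fun a => .inl (.inr a)⟩
  · have := h.len
    simp only [List.length_append]
    omega

theorem cl_iff (hd : 3 ≤ d) (hc : MvO n O (Finset.univ.erase c)) (h : Arr c F) (hU : c ∉ U) {k : ℕ}
    (hk : U.length = k) (hn : k + d ≤ n) : blk n c (U ++ F) p ∈ O ↔ Cl n O c k F p := by
  have hl := h.len
  refine ⟨fun a => ⟨U, hk, hU, a⟩, fun ⟨U', h1, h2, h3⟩ => ?_⟩
  refine (Gd.pre hc ⟨h.2, by omega⟩ ?_ hU h2 (hk.trans h1.symm) (by omega)).2 h3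
  rintro rfl
  simp at hl
  omega

theorem cl_rot (hd : 3 ≤ d) (hm : HM n O) (hc : MvO n O (Finset.univ.erase c)) (h : Arr c (f :: F))
    {k : ℕ} (hn : k + 2 + d ≤ n) :
    Cl n O c (k + 1) (f :: F) p ↔ Cl n O c (k + 2) (F ++ [f]) p := by
  have hf : c ≠ f := (h.ne (by simp)).symm
  have h' : Arr c (F ++ [f]) := h.perm (List.perm_append_singleton f F).symm
  rw [← cl_iff hd hc h (U := f :: List.replicate k f) (by simp [hf]) (by simp) (by omega),
    ← cl_iff hd hc h' (U := f :: List.replicate k f ++ [f]) (by simp [hf]) (by simp) (by omega),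
    List.cons_append, ← Gd.r1 hm]
  · simp
  · exact h.gd (U := f :: List.replicate k f) (by simp [hf]) (by simp [hf]) (by simp; omega)

theorem cl_swap (hd : 3 ≤ d) (hm : HM n O) (hc : MvO n O (Finset.univ.erase c))
    (h : Arr c (a :: b :: F)) (hn : d + 3 ≤ n) :
    Cl n O c 1 (a :: b :: F) p ↔ Cl n O c 1 (b :: a :: F) p := by
  have ha : c ≠ a := (h.ne (by simp)).symm
  have hb : c ≠ b := (h.ne (by simp)).symm
  have hl := h.len
  have h1 : Arr c (b :: a :: F) := h.perm (List.Perm.swap _ _ _)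
  have h2 : Arr c (a :: (F ++ [b])) := h1.perm (List.perm_append_singleton b (a :: F)).symm
  have h3 : Arr c (F ++ [b] ++ [a]) := h2.perm (List.perm_append_singleton a _).symm
  rw [cl_rot hd hm hc h1 (k := 0) (by omega), List.cons_append, cl_rot hd hm hc h2 (k := 1) (by omega),
    ← cl_iff hd hc h (U := [b]) (k := 1) (by simp [hb]) rfl (by omega),
    ← cl_iff hd hc h3 (U := [a, a, b]) (k := 1 + 2) (by simp [ha, hb]) rfl (by omega)]
  have e1 := Gd.r1 (p := p) (W := a :: b :: F) (x := b) hm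
    (h.gd (U := [b]) (V := [b]) (by simp [hb]) (by simp [hb]) (by simp; omega))
  have e2 := Gd.pre (p := p) hc (U := [b]) (U' := [a])
    (h.gd (U := []) (V := [b]) (by simp) (by simp [hb]) (by simp; omega)) (by simp) (by simp [hb])
    (by simp [ha]) rfl (by simp at hl ⊢; omega)
  have e3 := Gd.r1 (p := p) (W := a :: b :: F ++ [b]) (x := a) hm
    (by simpa using h.gd (U := [a]) (V := [b, a]) (n := n) (by simp [ha]) (by simp [ha, hb]) (by simp; omega))
  simp only [List.cons_append, List.nil_append, List.append_assoc] at e1 e2 e3 ⊢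
  rw [← e1, e2, e3]

theorem Arr.turn (h : Arr c (a :: F)) : Arr a (F ++ [c]) := by
  have h1 := List.nodup_cons.1 h.1
  have ha : a ≠ c := h.ne (by simp)
  refine ⟨List.nodup_append.2 ⟨h1.2, by simp, fun x hx y hy => ?_⟩, fun y => ?_⟩
  · rw [List.mem_singleton.1 hy]
    exact h.ne (List.mem_cons_of_mem _ hx)
  · have := h.2 y
    rw [List.mem_cons] at this
    rw [List.mem_append, List.mem_singleton]
    refine ⟨fun e => e.elim (fun e e' => h1.1 (e' ▸ e)) fun e => e ▸ ha.symm, fun e => ?_⟩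
    by_cases hy : y = c
    · exact .inr hy
    · exact .inl ((this.2 hy).resolve_left e)

theorem cl_short (hm : HM n O) (h : Arr a (F ++ [c])) (J : ℕ) (hn : J + 1 + d ≤ n) :
    blk n a (c :: (F ++ [c] ++ List.replicate J c)) p ∈ O ↔ blk n a (c :: (F ++ [c])) p ∈ O := by
  have hc : a ≠ c := (h.ne (by simp)).symm
  induction J with
  | zero => simp
  | succ J ih =>
    refine Iff.trans ?_ (ih (by omega))
    rw [List.replicate_succ', ← List.append_assoc, ← List.cons_append]
    refine Gd.r1 hm ?_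
    have := h.gd (U := [c]) (V := List.replicate J c ++ [c]) (n := n) (by simp [hc]) (by simp [hc])
      (by simp; omega)
    simpa using this

theorem cl_turn (hd : 3 ≤ d) (hm : HM n O) (hc : MvO n O (Finset.univ.erase c))
    (ha : MvO n O (Finset.univ.erase a)) (h : Arr c (a :: g :: F)) {k : ℕ} (hn : k + 2 + d ≤ n) :
    Cl n O c (k + 1) (a :: g :: F) p ↔ Cl n O a 1 (F ++ [g] ++ [c]) (p + (k + 2 : ℕ)) := by
  have hac : c ≠ a := (h.ne (by simp)).symm
  have hgc : c ≠ g := (h.ne (by simp)).symm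
  have hag : a ≠ g := by
    have := (List.nodup_cons.1 h.1).1
    rintro rfl
    simp at this
  have hl := h.len
  have h1 : Arr a (F ++ [g] ++ [c]) :=
    Arr.turn (h.perm (List.Perm.cons _ (List.perm_append_singleton g F).symm))
  obtain ⟨J, hJ⟩ : ∃ J, n = k + 2 + d + J := ⟨n - (k + 2 + d), by omega⟩
  rw [← cl_iff hd hc h (U := g :: List.replicate k a) (by simp [hac, hgc]) (by simp) (by omega),
    ← cl_iff hd ha h1 (U := [c]) (k := 1) (by simp [hac.symm]) rfl (by omega)]
  have e1 := Gd.r1 (p := p) (W := List.replicate k a ++ a :: g :: F) (x := g) hm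
    (h.gd (U := g :: List.replicate k a) (V := [g]) (by simp [hac, hgc]) (by simp [hgc])
      (by simp; omega))
  have e2 := Gd.pre (p := p) hc (U := [g]) (U' := [a])
    (h.gd (U := List.replicate k a) (V := [g]) (by simp [hac]) (by simp [hgc]) (by simp; omega))
    (by simp) (by simp [hgc]) (by simp [hac]) rfl (by simp at hl ⊢; omega)
  have e3 := blk_turn (n := n) (c := c) (p := p) (a := a) (W := g :: (F ++ [g])) (K := k + 2)
    (J := J + 1) (by omega) (by simp at hl ⊢; omega)
  have e4 := Gd.pre (p := p + (k + 2 : ℕ)) ha (U := [g]) (U' := [c])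
    (h1.gd (U := []) (V := List.replicate J c) (by simp) (by simp [hac.symm]) (by simp; omega))
    (by simp) (by simp [hag]) (by simp [hac.symm]) rfl (by simp at hl ⊢; omega)
  have e5 := cl_short (p := p + (k + 2 : ℕ)) hm h1 J (by omega)
  have e6 : List.replicate (k + 2) a ++ g :: (F ++ [g]) =
      a :: (List.replicate k a ++ a :: g :: (F ++ [g])) := by
    rw [List.replicate_succ, List.replicate_succ']
    simp
  rw [e6, List.replicate_succ] at e3
  simp only [List.cons_append, List.nil_append, List.append_assoc] at e1 e2 e3 e4 e5 ⊢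
  rw [← e1, e2, e3, e4, e5]

/-- Rigid words give the moves. -/
def HR (n : ℕ) (O : Set (Seq d)) : Prop :=
  ∀ o : Fin d, (∃ z ∈ O, Prim n z ∧ ∀ t, Adm (Finset.univ.erase o) z t → t = z) →
    ∀ C, o ∉ C → MvO n O C

theorem cl_head (hd : 3 ≤ d) (hn : d + 3 ≤ n) (hR : HR n O) (hc : MvO n O (Finset.univ.erase c))
    (h : Arr c (a :: F)) (h0 : Cl n O c 1 (a :: F) p) : ∀ C, a ∉ C → MvO n O C := by
  have hac : c ≠ a := (h.ne (by simp)).symm
  have hl := h.len
  obtain ⟨J, hJ⟩ : ∃ J, n = 1 + d + J := ⟨n - (1 + d), by omega⟩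
  rw [← cl_iff hd hc h (U := [a]) (k := 1) (by simp [hac]) rfl (by omega)] at h0
  have e := blk_turn (n := n) (c := c) (p := p) (a := a) (W := F) (K := 2) (J := J + 1) (by omega)
    (by simp at hl; omega)
  have g : Gd n a (F ++ List.replicate (J + 1) c) := by
    have := h.turn.gd (U := []) (V := List.replicate J c) (n := n) (by simp) (by simp [hac.symm])
      (by simp; omega)
    simpa [List.replicate_succ] using this
  refine hR a ⟨_, e ▸ h0, g.prim (by simp) _, g.rigid (List.nodup_cons.1 h.1).2 (.inr fun hF => ?_)⟩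
  exact h.ne (List.mem_cons_of_mem _ hF) rfl

theorem cl_step (hd : 3 ≤ d) (hn : d + 3 ≤ n) (hm : HM n O) (hR : HR n O)
    (hc : MvO n O (Finset.univ.erase c)) (h : Arr c (f :: F)) :
    Cl n O c 1 (f :: F) p ↔ Cl n O c 1 (F ++ [f]) (p + 1) := by
  have hl := h.len
  obtain ⟨a, F1, rfl⟩ := List.exists_cons_of_ne_nil (l := F) (by rintro rfl; simp at hl; omega)
  have h' : Arr c (a :: F1 ++ [f]) := h.perm (List.perm_append_singleton f _).symm
  have key : MvO n O (Finset.univ.erase a) →
      (Cl n O c 1 (f :: a :: F1) p ↔ Cl n O c 1 (a :: F1 ++ [f]) (p + 1)) := fun ha => by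
    rw [cl_rot hd hm hc h (k := 0) (by omega)]
    obtain ⟨g, F2, e⟩ := List.exists_cons_of_ne_nil (l := F1 ++ [f]) (by simp)
    rw [List.cons_append, e] at h' ⊢
    rw [cl_turn hd hm hc ha h' (k := 1) (by omega), cl_turn hd hm hc ha h' (k := 0) (by omega),
      add_assoc]
    rfl
  refine ⟨fun e => (key ?_).1 e, fun e => (key ?_).2 e⟩
  · exact cl_head hd hn hR hc (h.perm (List.Perm.swap _ _ _)) ((cl_swap hd hm hc h hn).1 e) _
      (by simp)
  · exact cl_head hd hn hR hc h' e _ (by simp)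

theorem cl_cyc (hd : 3 ≤ d) (hn : d + 3 ≤ n) (hm : HM n O) (hR : HR n O)
    (hc : MvO n O (Finset.univ.erase c)) (U : List (Fin d)) : ∀ (F : List (Fin d)) (p : ℤ),
    Arr c (U ++ F) → (Cl n O c 1 (U ++ F) p ↔ Cl n O c 1 (F ++ U) (p + U.length)) := by
  induction U with
  | nil => simp
  | cons u U ih =>
    intro F p h
    rw [List.cons_append] at h
    rw [List.cons_append, cl_step hd hn hm hR hc h, List.append_assoc,
      ih _ _ (by simpa using h.perm (List.perm_append_singleton u _).symm), List.length_cons,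
      show p + 1 + U.length = p + (U.length + 1 : ℕ) by push_cast; ring]
    simp

theorem cl_perm (hd : 3 ≤ d) (hn : d + 3 ≤ n) (hm : HM n O) (hR : HR n O)
    (hc : MvO n O (Finset.univ.erase c)) (e : F.Perm F') :
    ∀ U, Arr c (U ++ F) → (Cl n O c 1 (U ++ F) p ↔ Cl n O c 1 (U ++ F') p) := by
  induction e with
  | nil => exact fun _ _ => Iff.rfl
  | cons x _ ih =>
    intro U h
    simpa using ih (U ++ [x]) (by simpa using h)
  | swap x y l =>
    intro U h
    rw [cl_cyc hd hn hm hR hc _ _ _ h,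
      cl_cyc hd hn hm hR hc _ _ _ (h.perm ((List.Perm.swap _ _ _).append_left U))]
    exact cl_swap hd hm hc (h.perm List.perm_append_comm) hn
  | trans e1 _ ih1 ih2 => exact fun U h => (ih1 U h).trans (ih2 U (h.perm (e1.append_left U)))

theorem cl_all (hd : 3 ≤ d) (hn : d + 3 ≤ n) (hm : HM n O) (hR : HR n O)
    (hc : MvO n O (Finset.univ.erase c)) (h : Arr c F) (h' : Arr c F') (h0 : Cl n O c 1 F p)
    (q : ℤ) : Cl n O c 1 F' q := by
  have hl := h.len
  have s : ∀ q, Cl n O c 1 F q ↔ Cl n O c 1 F (q + 1) := fun q => by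
    obtain ⟨f, F1, rfl⟩ := List.exists_cons_of_ne_nil (l := F) (by rintro rfl; simp at hl; omega)
    rw [cl_step hd hn hm hR hc h]
    exact (cl_perm hd hn hm hR hc (List.perm_append_singleton f F1).symm [] h).symm
  have e : F.Perm F' := (List.perm_ext_iff_of_nodup h.1 h'.1).2 fun y => (h.2 y).trans (h'.2 y).symm
  refine (cl_perm hd hn hm hR hc e [] h).1 ?_
  induction q using Int.inductionOn' (b := p) with
  | zero => exact h0
  | succ k _ ih => exact (s k).1 ih
  | pred k _ ih => exact (s _).2 (by rwa [sub_add_cancel])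

end Pool.Agent.MP_9b2bac_nt.Z
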