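import Mathlib
import Pool.Agent.MP_9b2bac_nt.VDefs

/- Heads of words: the block after a longest run. -/

set_option autoImplicit false

namespace Pool.Agent.MP_9b2bac_nt.Z.VM

open Finset ZSweep

variable {d n J : ℕ} {t t' : Seq d} {c : Fin d} {p : ℤ} {T : Set (Seq d)}

theorem occE {y : Fin d} {i : ℤ} : Occ (univ.erase c) t i y ↔
    ∃ q, i ≤ q ∧ t q = y ∧ ∀ k, i ≤ k → k ≤ q → t k ≠ c := by simp [Occ]

theorem count {a b : ℤ} (hab : a < b) (hne : ∀ k, a < k → k < b → t k ≠ c)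
    (hinj : ∀ i j, a < i → i < j → j < b → t i ≠ t j)
    (hsur : ∀ y, y ≠ c → ∃ k, a < k ∧ k < b ∧ t k = y) : b = a + d := by
  have h : #(Ioo a b) = #(univ.erase c) := by
    refine card_bij (fun k _ => t k) (fun k hk => ?_) (fun i hi j hj e => ?_) (fun y hy => ?_)
    · rw [mem_Ioo] at hk
      exact mem_erase.2 ⟨hne k hk.1 hk.2, mem_univ _⟩
    · rw [mem_Ioo] at hi hj
      rcases lt_trichotomy i j with h | h | h
      · exact absurd e (hinj i j hi.1 h hj.2)
      · exact h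
      · exact absurd e.symm (hinj j i hj.1 h hi.2)
    · obtain ⟨k, h1, h2, h3⟩ := hsur y (mem_erase.1 hy).1
      exact ⟨k, mem_Ioo.2 ⟨h1, h2⟩, h3⟩
  rw [Int.card_Ioo, card_erase_of_mem (mem_univ _), card_univ, Fintype.card_fin] at h
  have := c.pos
  omega

theorem last_occ (h : Per n t) (c : Fin d) (i : ℤ) :
    ∃ p ≤ i, t (p - 1) = c ∧ ∀ k, p ≤ k → k < i → t k ≠ c := by
  classical
  have hex : ∃ m : ℕ, t (i - 1 - m) = c := by
    obtain ⟨x, rfl⟩ := h.2.2 c
    have hn : (0 : ℤ) < n := by exact_mod_cast h.1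
    refine ⟨((i - 1 - x) % n).toNat, ?_⟩
    rw [Int.toNat_of_nonneg (Int.emod_nonneg _ hn.ne'), ← h.zper x ((i - 1 - x) / n)]
    congr 1
    have := Int.emod_add_ediv_mul (i - 1 - x) n
    omega
  refine ⟨i - Nat.find hex, by omega, ?_, fun k h1 h2 e => ?_⟩
  · rw [show i - Nat.find hex - 1 = i - 1 - Nat.find hex by ring]
    exact Nat.find_spec hex
  · refine Nat.find_min hex (m := (i - 1 - k).toNat) (by omega) ?_
    rwa [show i - 1 - ((i - 1 - k).toNat : ℤ) = k by omega]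

theorem first_occ (h : Per n t) (c : Fin d) (i : ℤ) :
    ∃ e, i < e ∧ t e = c ∧ ∀ k, i < k → k < e → t k ≠ c := by
  classical
  have hex : ∃ m : ℕ, t (i + 1 + m) = c := by
    obtain ⟨m, hm⟩ := h.term (C := univ.erase c) (by simp) (i + 1)
    exact ⟨m, by simpa using hm⟩
  refine ⟨i + 1 + Nat.find hex, by omega, Nat.find_spec hex, fun k h1 h2 e => ?_⟩
  refine Nat.find_min hex (m := (k - i - 1).toNat) (by omega) ?_
  rwa [show i + 1 + ((k - i - 1).toNat : ℤ) = k by omega]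

/-- A run of `J` letters `c` followed by a block with all other letters after its first place. -/
structure Head (t : Seq d) (c : Fin d) (p : ℤ) (J : ℕ) : Prop where
  run : ∀ k, p - J ≤ k → k < p → t k = c
  ne : t p ≠ c
  occ : ∀ y, y ≠ c → Occ (univ.erase c) t (p + 1) y

theorem head_of_window (h : Per n t) {i e : ℤ} (hie : i < e) (h1 : ∀ k, i ≤ k → k < e → t k ≠ c)
    (h2 : ∀ y, y ≠ c → ∃ k, i < k ∧ k < e ∧ t k = y) :
    ∃ p ≤ i, Head t c p 1 ∧ ∀ k, p ≤ k → k < e → t k ≠ c := by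
  obtain ⟨p, hp, a1, a2⟩ := last_occ h c i
  have a3 : ∀ k, p ≤ k → k < e → t k ≠ c := fun k b1 b2 => by
    by_cases b : k < i
    · exact a2 k b1 b
    · exact h1 k (by omega) b2
  refine ⟨p, hp, ⟨fun k b1 b2 => ?_, a3 p le_rfl (by omega), fun y hy => ?_⟩, a3⟩
  · rwa [show k = p - 1 by omega]
  · obtain ⟨k, b1, b2, b3⟩ := h2 y hy
    exact occE.2 ⟨k, by omega, b3, fun l c1 c2 => a3 l (by omega) (by omega)⟩

theorem head_one {s : Seq d} (hn : d < n) (hs : Prim n s) : ∃ c p, Head s c p 1 := by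
  by_contra hno
  have key : ∀ i y, y ≠ s i → Occ (univ.erase (s i)) s (i + 1) y := by
    intro i
    choose f f1 f2 f3 using fun y => first_occ hs.1 y i
    obtain ⟨g, -, hg⟩ := exists_max_image univ f ⟨s i, mem_univ _⟩
    have hlt : ∀ y, y ≠ g → f y < f g := fun y hy =>
      (hg y (mem_univ _)).lt_of_ne fun e => hy (by rw [← f2 y, e, f2])
    have e : s i = g := by
      by_contra hne
      obtain ⟨p, -, hp, -⟩ := head_of_window (c := g) hs.1 (f1 g) (fun k a b => by
        rcases a.eq_or_lt with rfl | a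
        · exact hne
        · exact f3 g k a b) fun y hy => ⟨f y, f1 y, hlt y hy, f2 y⟩
      exact hno ⟨g, p, hp⟩
    rw [e]
    intro y hy
    have := hlt y hy
    exact occE.2 ⟨f y, f1 y, f2 y, fun k a b => f3 g k (by omega) (by omega)⟩
  refine hs.2 d hn ⟨(s 0).pos, fun i => ?_, hs.1.2.2⟩
  obtain ⟨e, e1, e2, e3⟩ := first_occ hs.1 (s i) i
  have := count e1 e3 (fun a b h1 h2 h3 hab => by
    obtain ⟨k, k1, k2, k3⟩ := occE.1 (key a (s i) (e3 a h1 (by omega)).symm)
    by_cases hk : k < b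
    · exact e3 k (by omega) (by omega) k2
    · exact k3 b (by omega) (by omega) hab.symm) fun y hy => by
      obtain ⟨k, k1, k2, k3⟩ := occE.1 (key i y hy)
      refine ⟨k, k1, ?_, k2⟩
      by_contra hk
      exact k3 e (by omega) (by omega) e2
  rw [← this, e2]

theorem admc (h : Adm (univ.erase c) t t') (i : ℤ) : t' i = c ↔ t i = c := by
  have := h.mem_iff i
  simp only [mem_erase, mem_univ, and_true] at this
  tauto

theorem Head.adm (h : Head t c p J) (a : Adm (univ.erase c) t t') : Head t' c p J :=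
  ⟨fun k h1 h2 => (admc a k).2 (h.run k h1 h2), fun e => h.ne ((admc a p).1 e),
    fun y hy => ((a _).2 y).1 (h.occ y hy)⟩

theorem Head.ne1 (h : Head t c p J) : t (p + 1) ≠ c := (mem_erase.1 (h.occ _ h.ne).mem).1

/-- A class of words closed under the moves, with longest run `J` in front of a full block. -/
structure Cl (n J : ℕ) (T : Set (Seq d)) : Prop where
  prim : ∀ t ∈ T, Prim n t
  mrk : ∀ u v j, ∀ t ∈ T, u ≠ v → 1 ≤ j → mk u v j t ∈ T
  mv : ∀ C, C ≠ univ → ∀ t ∈ T, ∀ i x, t i ∈ C → Occ C t (i + 1) (t i) → Occ C t (i + 1) x →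
    ∃ t' ∈ T, Adm C t t' ∧ t' i = x ∧ Kp C t t' i
  pos : 1 ≤ J
  max : ∀ t ∈ T, ∀ c p, ¬ Head t c p (J + 1)

theorem Cl.write (H : Cl n J T) (ht : t ∈ T) (h : Head t c p J) {y : Fin d} (hy : y ≠ c) :
    ∃ t' ∈ T, Adm (univ.erase c) t t' ∧ t' p = y ∧ Kp (univ.erase c) t t' p :=
  H.mv _ (by simp) t ht p y (by simpa using h.ne) (h.occ _ h.ne) (h.occ _ hy)

theorem Cl.x_ne (H : Cl n J T) (ht : t ∈ T) (h : Head t c p J) : t (p - J - 1) ≠ c := fun e =>
  H.max t ht c p ⟨fun k h1 h2 => by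
    by_cases a : p - J ≤ k
    · exact h.run k a h2
    · rwa [show k = p - J - 1 by omega], h.ne, h.occ⟩

theorem Cl.x_fix (H : Cl n J T) (h : Head t c p J) (a : Adm (univ.erase c) t t') :
    t' (p - J - 1) = t (p - J - 1) := by
  have := H.pos
  refine a.fix fun o => (mem_erase.1 o.mem).1 (h.run _ (by omega) (by omega))

theorem Cl.hit (H : Cl n J T) (ht : t ∈ T) (h : Head t c p J) {q : ℤ} (hq : p < q)
    (hb : ∀ k, p ≤ k → k ≤ q → t k ≠ c) (e : t q = t (p - J - 1)) (e' : t p = t (p - J - 1)) :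
    Hit c (t (p - J - 1)) J t q := by
  by_contra hno
  have hx := H.x_ne ht h
  have hJ := H.pos
  refine H.max _ (H.mrk c _ J t ht hx.symm hJ) c p ⟨fun k h1 h2 => ?_, ?_, fun y hy => ?_⟩
  · by_cases a : p - J ≤ k
    · rw [mk_mid p h2 (by omega) h.ne]
      exact h.run k a h2
    · obtain rfl : k = p - J - 1 := by omega
      rw [mk_hit ⟨fun l a b => h.run _ (by omega) (by omega), by rw [← e']; congr 1; ring⟩,
        Equiv.swap_apply_right]
  · rw [mk_mid (p + 1) (by omega) (by omega) h.ne1]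
    exact h.ne
  · by_cases hyx : y = t (p - J - 1)
    · have k1 : ∀ k, p + 1 ≤ k → k ≤ q → Z.mk c (t (p - J - 1)) J t k = t k := fun k a b => by
        rcases b.eq_or_lt with rfl | b
        · exact mk_not hno
        · exact mk_mid (k + 1) (by omega) (by omega) (hb _ (by omega) (by omega))
      exact occE.2 ⟨q, hq, by rw [k1 q hq le_rfl, e, hyx], fun k a b => by
        rw [k1 k a b]; exact hb k (by omega) b⟩
    · obtain ⟨r, r1, r2, r3⟩ := occE.1 (h.occ y hy)
      have k1 : ∀ k, p + 1 ≤ k → k ≤ r → Z.mk c (t (p - J - 1)) J t k = t k := fun k a b => by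
        rcases b.eq_or_lt with rfl | b
        · exact mk_oth (r2 ▸ hy) (r2 ▸ hyx)
        · exact mk_mid (k + 1) (by omega) (by omega) (r3 _ (by omega) (by omega))
      exact occE.2 ⟨r, r1, by rw [k1 r r1 le_rfl, r2], fun k a b => by
        rw [k1 k a b]; exact r3 k a b⟩

theorem Cl.after (H : Cl n J T) (ht : t ∈ T) (h : Head t c p J) {q : ℤ} (hq : p < q)
    (hb : ∀ k, p ≤ k → k ≤ q → t k ≠ c) (e : t q = t (p - J - 1)) :
    (∀ k, q < k → k ≤ q + J → t k = c) ∧ t (q + J + 1) ≠ c := by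
  obtain ⟨u, hu, a, u1, u2⟩ := H.write ht h (H.x_ne ht h)
  have ex := H.x_fix h a
  have hh := H.hit hu (h.adm a) hq (fun k b1 b2 e => hb k b1 b2 ((admc a k).1 e))
    (by rw [ex, ← e]; exact u2 q hq fun k b1 b2 => by simpa using hb k b1 b2) (by rw [ex, u1])
  refine ⟨fun k b1 b2 => (admc a k).1 ?_, fun e => H.x_ne hu (h.adm a) ?_⟩
  · have := hh.1 (k - q).toNat (by omega) (by omega)
    rwa [show q + ((k - q).toNat : ℤ) = k by omega] at this
  · rw [← hh.2]
    exact (admc a _).2 e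

/-- The shape of the word after a head. -/
structure Blk (t : Seq d) (c : Fin d) (p : ℤ) (J : ℕ) : Prop where
  x : t (p + d - 1) = t (p - J - 1)
  nc : ∀ k, p ≤ k → k < p + d → t k ≠ c
  run : ∀ k, p + d ≤ k → k < p + d + J → t k = c
  ne : t (p + d + J) ≠ c
  ina : ∀ k, p < k → k < p + d → ¬ Occ (univ.erase c) t (k + 1) (t k)
  inj : ∀ i j, p < i → i < j → j < p + d → t i ≠ t j
  sur : ∀ y, y ≠ c → ∃ k, p < k ∧ k < p + d ∧ t k = y

theorem Cl.blk (H : Cl n J T) (ht : t ∈ T) (h : Head t c p J) : Blk t c p J := by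
  have hJ := H.pos
  obtain ⟨q, q1, q2, q3⟩ := occE.1 (h.occ _ (H.x_ne ht h))
  have hb : ∀ k, p ≤ k → k ≤ q → t k ≠ c := fun k a b => by
    rcases a.eq_or_lt with rfl | a
    · exact h.ne
    · exact q3 k a b
  obtain ⟨a1, a2⟩ := H.after ht h q1 hb q2
  have hq := a1 (q + 1) (by omega) (by omega)
  have ina : ∀ k, p < k → k < q + 1 → ¬ Occ (univ.erase c) t (k + 1) (t k) := by
    intro k b1 b2 o
    have b3 : k < q := by
      by_contra b
      obtain rfl : k = q := by omega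
      exact (mem_erase.1 o.mem).1 hq
    obtain ⟨u, hu, a, u1, -⟩ := H.mv _ (by simp) t ht k _ (by simpa using hb k b1.le b3.le) o
      (occE.2 ⟨q, b3, q2, fun l c1 c2 => hb l (by omega) c2⟩)
    have := (H.after hu (h.adm a) b1 (fun l c1 c2 e => hb l c1 (by omega) ((admc a l).1 e))
      (by rw [u1, H.x_fix h a])).1 (k + 1) (by omega) (by omega)
    exact hb (k + 1) (by omega) b3 ((admc a _).1 this)
  have inj : ∀ i j, p < i → i < j → j < q + 1 → t i ≠ t j := fun i j b1 b2 b3 e =>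
    ina i b1 (by omega) (occE.2 ⟨j, b2, e.symm, fun l c1 c2 => hb l (by omega) (by omega)⟩)
  have sur : ∀ y, y ≠ c → ∃ k, p < k ∧ k < q + 1 ∧ t k = y := fun y hy => by
    obtain ⟨k, k1, k2, k3⟩ := occE.1 (h.occ y hy)
    refine ⟨k, k1, ?_, k2⟩
    by_contra hk
    exact k3 (q + 1) (by omega) (by omega) hq
  have e := count (by omega : p < q + 1) (fun k b1 b2 => hb k b1.le (by omega)) inj sur
  obtain rfl : q = p + d - 1 := by omega
  refine ⟨q2, fun k b1 b2 => hb k b1 (by omega), fun k b1 b2 => a1 k (by omega) (by omega), ?_,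
    fun k b1 b2 => ina k b1 (by omega), fun i j b1 b2 b3 => inj i j b1 b2 (by omega), e ▸ sur⟩
  rwa [show p + d + J = p + d - 1 + J + 1 by ring]

theorem Blk.fix (h : Blk t c p J) (a : Adm (univ.erase c) t t') {k : ℤ} (h1 : p < k)
    (h2 : k < p + d) : t' k = t k := a.fix (h.ina k h1 h2)

end Pool.Agent.MP_9b2bac_nt.Z.VM
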