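import Mathlib
import Pool.Agent.MP_9b2bac_nt.VMain1

/- The longest run in front of a full block has length at least two. -/

set_option autoImplicit false

namespace Pool.Agent.MP_9b2bac_nt.Z.VM

open Finset ZSweep

variable {d n : ℕ} {t : Seq d} {c : Fin d} {p P : ℤ} {T : Set (Seq d)}

theorem Cl.bd (H : Cl n 1 T) (ht : t ∈ T) {j : ℤ} {g : Fin d}
    (h1 : ∀ k, j ≤ k → k < j + d → t k ≠ g)
    (h2 : ∀ y, y ≠ g → ∃ k, j ≤ k ∧ k < j + d ∧ t k = y) : t (j - 1) = g := by
  by_contra hne
  obtain ⟨p, hp, h, a⟩ := head_of_window (c := g) (H.prim t ht).1 (by omega : j - 1 < j + d)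
    (fun k b1 b2 => by
      by_cases b : j ≤ k
      · exact h1 k b b2
      · rwa [show k = j - 1 by omega]) fun y hy => by
      obtain ⟨k, k1, k2, k3⟩ := h2 y hy
      exact ⟨k, by omega, k2, k3⟩
  exact a (p + d) (by omega) (by omega) ((H.blk ht h).run _ le_rfl (by omega))

/-- Two letters `c` followed by all other letters. -/
structure Pat (t : Seq d) (c : Fin d) (P : ℤ) : Prop where
  c0 : t P = c
  c1 : t (P + 1) = c
  inj : ∀ i j, P + 1 ≤ i → i < j → j ≤ P + d → t i ≠ t j
  sur : ∀ y, ∃ k, P + 1 ≤ k ∧ k ≤ P + d ∧ t k = y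

theorem Pat.inj' (h : Pat t c P) {i j : ℤ} (h1 : P + 1 ≤ i) (h2 : i ≤ P + d) (h3 : P + 1 ≤ j)
    (h4 : j ≤ P + d) (h5 : i ≠ j) : t i ≠ t j := by
  rcases lt_or_gt_of_ne h5 with a | a
  · exact h.inj i j h1 a h4
  · exact (h.inj j i h3 a h2).symm

theorem Cl.step (H : Cl n 1 T) (hd : 3 ≤ d) (ht : t ∈ T) (h : Pat t c P) :
    ∀ k, P - d - 1 ≤ k → k < P → t k = t (k + d + 1) := by
  have s1 : ∀ m : ℕ, m + 1 ≤ d → ∀ k, P - m ≤ k → k < P → t k = t (k + d + 1) := by
    intro m
    induction m with
    | zero => intro _ k a b; omega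
    | succ m ih =>
      intro hm k a b
      have ih' := ih (by omega)
      by_cases hk : P - m ≤ k
      · exact ih' k hk b
      obtain rfl : k = P - m - 1 := by omega
      rw [show P - m - 1 + d + 1 = P - m + d by ring]
      refine H.bd ht (fun k b1 b2 => ?_) fun y hy => ?_
      · rcases lt_trichotomy k P with e | rfl | e
        · rw [ih' k b1 e]
          exact h.inj' (by omega) (by omega) (by omega) (by omega) (by omega)
        · rw [h.c0, ← h.c1]
          exact h.inj' (by omega) (by omega) (by omega) (by omega) (by omega)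
        · exact h.inj' (by omega) (by omega) (by omega) (by omega) (by omega)
      · obtain ⟨k, k1, k2, k3⟩ := h.sur y
        rcases lt_trichotomy k (P - m + d) with e | rfl | e
        · exact ⟨k, by omega, e, k3⟩
        · exact absurd k3.symm hy
        · refine ⟨k - d - 1, by omega, by omega, ?_⟩
          rw [ih' _ (by omega) (by omega), ← k3]
          congr 1
          ring
  have s2 : ∀ k, P - d + 1 ≤ k → k < P → t k = t (k + d + 1) := fun k a b =>
    s1 (d - 1) (by omega) k (by omega) b
  have nc : ∀ k, P + 2 ≤ k → k ≤ P + d → t k ≠ c := fun k a b => by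
    rw [← h.c1]
    exact h.inj' (by omega) (by omega) (by omega) (by omega) (by omega)
  have nc' : ∀ k, P - d + 1 ≤ k → k < P → t k ≠ c := fun k a b => by
    rw [s2 k a b]
    exact nc _ (by omega) (by omega)
  have sur' : ∀ y, y ≠ c → ∃ k, P - d + 1 ≤ k ∧ k < P ∧ t k = y := fun y hy => by
    obtain ⟨k, k1, k2, k3⟩ := h.sur y
    have : k ≠ P + 1 := fun e => hy (by rw [← k3, e, h.c1])
    refine ⟨k - d - 1, by omega, by omega, ?_⟩
    rw [s2 _ (by omega) (by omega), ← k3]
    congr 1
    ring
  have s3 : t (P - d) = c := by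
    by_contra hne
    obtain ⟨p, hp, hh, a⟩ := head_of_window (c := c) (H.prim t ht).1 (by omega : P - d < P)
      (fun k b1 b2 => by
        rcases b1.eq_or_lt with rfl | b
        · exact hne
        · exact nc' k b b2) sur'
    have B := H.blk ht hh
    have e : p = P - d := by
      by_contra e
      exact a (p + d) (by omega) (by omega) (B.run _ le_rfl (by omega))
    refine B.ne ?_
    rw [← h.c1, e]
    congr 1
    push_cast
    ring
  have s4 : t (P - d - 1) = c := by
    have hx : t (P + 2) ≠ c := nc _ le_rfl (by omega)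
    have ex : t (P - d + 1) = t (P + 2) := by
      rw [s2 _ le_rfl (by omega)]
      congr 1
      ring
    have hu := H.mrk c _ 1 t ht hx.symm le_rfl
    have u0 : Z.mk c (t (P + 2)) 1 t P = t (P + 2) := by
      rw [mk_hit ⟨fun l a b => by obtain rfl : l = 1 := by omega
                                  exact h.c1, by congr 1; push_cast; ring⟩, h.c0,
        Equiv.swap_apply_left]
    have u1 : ∀ k, P - d + 2 ≤ k → k < P → Z.mk c (t (P + 2)) 1 t k = t k := fun k a b =>
      mk_oth (nc' k (by omega) b) (by
        rw [s2 k (by omega) b]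
        exact h.inj' (by omega) (by omega) (by omega) (by omega) (by omega))
    have hh : Head (Z.mk c (t (P + 2)) 1 t) c (P - d + 1) 1 := by
      refine ⟨fun k a b => ?_, ?_, fun y hy => ?_⟩
      · obtain rfl : k = P - d := by omega
        rw [mk_mid (P - d + 1) (by omega) (by omega) (ex ▸ hx), s3]
      · rw [mk_mid (P - d + 2) (by omega) (by omega) (nc' _ (by omega) (by omega)), ex]
        exact hx
      · have key : ∀ k, P - d + 1 + 1 ≤ k → k ≤ P → Z.mk c (t (P + 2)) 1 t k ≠ c := by
          intro k a b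
          rcases b.eq_or_lt with rfl | b
          · rwa [u0]
          · rw [u1 k (by omega) b]
            exact nc' k (by omega) b
        by_cases hyx : y = t (P + 2)
        · exact occE.2 ⟨P, by omega, by rw [u0, hyx], key⟩
        · obtain ⟨k, k1, k2, k3⟩ := sur' y hy
          have : k ≠ P - d + 1 := fun e => hyx (by rw [← k3, e, ex])
          exact occE.2 ⟨k, by omega, by rw [u1 k (by omega) k2, k3],
            fun l a b => key l a (by omega)⟩
    have B := (H.blk hu hh).x
    rw [show P - d + 1 + d - 1 = P by ring, u0,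
      show P - d + 1 - (1 : ℕ) - 1 = P - d - 1 by push_cast; ring,
      mk_hit ⟨fun l a b => by obtain rfl : l = 1 := by omega
                              rw [← s3]; congr 1; push_cast; ring,
        by rw [← ex]; congr 1; push_cast; ring⟩] at B
    have := Equiv.swap_apply_eq_iff.1 B.symm
    rwa [Equiv.swap_apply_right] at this
  intro k a b
  rcases lt_trichotomy k (P - d) with e | rfl | e
  · obtain rfl : k = P - d - 1 := by omega
    rw [s4, ← h.c0]
    congr 1
    ring
  · rw [s3, ← h.c1]
    congr 1
    ring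
  · exact s2 k e b

theorem Cl.pat_false (H : Cl n 1 T) (hd : 3 ≤ d) (hn : d + 2 ≤ n) (ht : t ∈ T) (h : Pat t c P) :
    False := by
  have key : ∀ m : ℕ, ∃ Q, Q ≤ P - m ∧ Pat t c Q ∧ ∀ k, Q ≤ k → k < P → t k = t (k + d + 1) := by
    intro m
    induction m with
    | zero => exact ⟨P, by omega, h, fun k a b => by omega⟩
    | succ m ih =>
      obtain ⟨Q, q1, q2, q3⟩ := ih
      have s := H.step hd ht q2
      refine ⟨Q - d - 1, by omega, ⟨?_, ?_, fun i j a b e => ?_, fun y => ?_⟩, fun k a b => ?_⟩
      · rw [s _ le_rfl (by omega), ← q2.c0]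
        congr 1
        ring
      · rw [s _ (by omega) (by omega), ← q2.c1]
        congr 1
        ring
      · rw [s i (by omega) (by omega), s j (by omega) (by omega)]
        exact q2.inj _ _ (by omega) (by omega) (by omega)
      · obtain ⟨k, k1, k2, k3⟩ := q2.sur y
        refine ⟨k - d - 1, by omega, by omega, ?_⟩
        rw [s _ (by omega) (by omega), ← k3]
        congr 1
        ring
      · by_cases hk : k < Q
        · exact s k a hk
        · exact q3 k (by omega) b
  have hp := H.prim t ht
  refine hp.2 (d + 1) (by omega) ⟨by omega, fun i => ?_, hp.1.2.2⟩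
  have hn' : (1 : ℤ) ≤ n := by omega
  have h1 : i + -(|i - P| + 1) * n < P := by
    have := le_abs_self (i - P)
    have := abs_nonneg (i - P)
    nlinarith
  obtain ⟨Q, q1, -, q3⟩ := key (P - (i + -(|i - P| + 1) * n)).toNat
  have := q3 _ (by omega) h1
  rw [hp.1.zper] at this
  rw [this, ← hp.1.zper _ (-(|i - P| + 1))]
  congr 1
  push_cast
  ring

theorem Cl.one_false (H : Cl n 1 T) (hd : 3 ≤ d) (hn : d + 2 ≤ n) (ht : t ∈ T)
    (h : Head t c p 1) : False := by
  obtain ⟨u, hu, a, u1, -⟩ := H.write ht h (H.x_ne ht h)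
  rw [← H.x_fix h a] at u1
  have h2 := h.adm a
  have B := H.blk hu h2
  have hx := h2.ne
  have hc : u (p - 1) = c := h2.run _ (by omega) (by omega)
  have hl : u (p + d - 1) = u p := B.x.trans u1.symm
  have v0 : Z.mk c (u p) 1 u (p - 2) = c := by
    rw [mk_hit ⟨fun l a b => by obtain rfl : l = 1 := by omega
                                rw [← hc]; congr 1; push_cast; ring,
      by congr 1; push_cast; ring⟩, show p - 2 = p - (1 : ℕ) - 1 by push_cast; ring, ← u1,
      Equiv.swap_apply_right]
  have v1 : Z.mk c (u p) 1 u (p - 1) = c := by rw [mk_mid p (by omega) (by omega) hx, hc]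
  have v2 : Z.mk c (u p) 1 u p = u p := mk_mid (p + 1) (by omega) (by omega) h2.ne1
  have nx : ∀ k, p < k → k < p + d - 1 → u k ≠ u p := fun k a b => by
    rw [← hl]
    exact B.inj _ _ a b (by omega)
  have v3 : ∀ k, p ≤ k → k < p + d - 1 → Z.mk c (u p) 1 u k = u k := fun k a b => by
    rcases a.eq_or_lt with rfl | a
    · exact v2
    · exact mk_oth (B.nc k a.le (by omega)) (nx k a b)
  refine H.pat_false hd hn (H.mrk c _ 1 u hu hx.symm le_rfl) (c := c) (P := p - 2)
    ⟨v0, by rwa [show p - 2 + 1 = p - 1 by ring], fun i j a b e => ?_, fun y => ?_⟩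
  · rw [v3 j (by omega) (by omega)]
    rcases lt_trichotomy i p with f | rfl | f
    · obtain rfl : i = p - 1 := by omega
      rw [v1]
      exact (B.nc j (by omega) (by omega)).symm
    · rw [v2]
      exact (nx j b (by omega)).symm
    · rw [v3 i f.le (by omega)]
      exact B.inj i j f b (by omega)
  · by_cases h1 : y = c
    · exact ⟨p - 1, by omega, by omega, by rw [v1, h1]⟩
    by_cases h3 : y = u p
    · exact ⟨p, by omega, by omega, by rw [v2, h3]⟩
    obtain ⟨k, k1, k2, k3⟩ := B.sur y h1
    have : k ≠ p + d - 1 := fun e => h3 (by rw [← k3, e, hl])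
    exact ⟨k, by omega, by omega, by rw [v3 k k1.le (by omega), k3]⟩

end Pool.Agent.MP_9b2bac_nt.Z.VM
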