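import Mathlib
import Pool.Agent.MP_9b2bac_nt.VMain2

/- Runs of length at least two: all blocks agree. -/

set_option autoImplicit false

namespace Pool.Agent.MP_9b2bac_nt.Z.VM

open Finset ZSweep

variable {d n J : ℕ} {t : Seq d} {c : Fin d} {p : ℤ} {T : Set (Seq d)}

theorem third (hd : 3 ≤ d) (a b : Fin d) : ∃ y, y ≠ a ∧ y ≠ b := by
  by_contra h
  push Not at h
  have h1 : (univ : Finset (Fin d)) ⊆ {a, b} := fun y _ => by
    by_cases e : y = a
    · simp [e]
    · simp [h y e]
  have h2 := (card_le_card h1).trans card_le_two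
  rw [card_univ, Fintype.card_fin] at h2
  omega

theorem Cl.u (H : Cl n J T) (hJ : 2 ≤ J) (ht : t ∈ T) (h : Head t c p J) :
    t p = t (p + d + J) := by
  by_contra hne
  have B := H.blk ht h
  have hz := B.ne
  obtain ⟨K, rfl⟩ : ∃ K, J = K + 1 := ⟨J - 1, by omega⟩
  have hu := H.mrk c _ K t ht hz.symm (by omega)
  have k1 : ∀ k, p ≤ k → k < p + d → Z.mk c (t (p + d + (K + 1 : ℕ))) K t k = t k := by
    intro k a b
    by_cases e : k = p + d - 1
    · refine mk_last (k + K + 1) rfl ?_
      rw [B.run _ (by omega) (by omega)]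
      exact hz.symm
    · exact mk_mid (k + 1) (by omega) (by omega) (B.nc _ (by omega) (by omega))
  have hp : p < p + d := by
    have := c.pos
    omega
  have h2 : Head (Z.mk c (t (p + d + (K + 1 : ℕ))) K t) c p (K + 1) := by
    refine ⟨fun k a b => ?_, by rw [k1 p le_rfl hp]; exact h.ne, fun y hy => ?_⟩
    · by_cases e : k = p - (K + 1 : ℕ)
      · rw [mk_last p (by omega) hne]
        exact h.run k a b
      · rw [mk_mid p b (by omega) h.ne]
        exact h.run k a b
    · obtain ⟨k, a1, a2, a3⟩ := B.sur y hy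
      exact occE.2 ⟨k, a1, by rw [k1 k a1.le a2, a3], fun l b1 b2 => by
        rw [k1 l (by omega) (by omega)]; exact B.nc l (by omega) (by omega)⟩
  have := (H.blk hu h2).run (p + d) le_rfl (by omega)
  rw [mk_hit ⟨fun l a b => B.run _ (by omega) (by omega), by congr 1; push_cast; ring⟩,
    B.run _ le_rfl (by omega), Equiv.swap_apply_left] at this
  exact hz this

theorem Cl.next (H : Cl n J T) (hd : 3 ≤ d) (hJ : 2 ≤ J) (ht : t ∈ T) (h : Head t c p J) :
    Head t c (p + d + J) J := by
  have B := H.blk ht h
  refine ⟨fun k a b => B.run k (by omega) b, B.ne, fun y hy => ?_⟩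
  by_contra hno
  by_cases e : y = t (p + d + J)
  · obtain ⟨w, w1, w2⟩ := third hd c y
    obtain ⟨u, hu, a, u1, -⟩ := H.write ht h w1
    have := H.u hJ hu (h.adm a)
    rw [u1, a.fix (e ▸ hno), ← e] at this
    exact w2 this
  · obtain ⟨u, hu, a, u1, -⟩ := H.write ht h hy
    have h1 := H.u hJ hu (h.adm a)
    have h2 := a.occ (i := p + d + J) (by simpa using B.ne)
    rw [← h1, u1] at h2
    rcases (occ_iff.1 h2).2 with b | b
    · exact e b.symm
    · exact hno b

theorem Cl.same (H : Cl n J T) (hd : 3 ≤ d) (hJ : 2 ≤ J) (ht : t ∈ T) (h : Head t c p J) :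
    ∀ r : ℕ, r < d → t (p + r) = t (p + d + J + r) := by
  intro r
  induction r using Nat.strong_induction_on with
  | _ r ih =>
  intro hr
  rcases Nat.eq_zero_or_pos r with rfl | r0
  · simpa using H.u hJ ht h
  by_contra hne
  have h' := H.next hd hJ ht h
  have B := H.blk ht h
  have B' := H.blk ht h'
  have ha : t (p + r) ≠ c := B.nc _ (by omega) (by omega)
  obtain ⟨u, hu, a, u1, -⟩ := H.write ht h ha
  have u2 : u (p + d + J) = t (p + r) := by rw [← H.u hJ hu (h.adm a), u1]
  have f1 : ∀ k, p < k → k < p + d → u k = t k := fun k b1 b2 => B.fix a b1 b2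
  have f2 : ∀ k, p + d + J < k → k < p + d + J + d → u k = t k := fun k b1 b2 => B'.fix a b1 b2
  by_cases r1 : r = 1
  · subst r1
    push_cast at *
    have h2 : t (p + 1) ≠ t (p + 2) := B.inj _ _ (by omega) (by omega) (by omega)
    have h3 : t (p + 2) ≠ c := B.nc _ (by omega) (by omega)
    have hs : ({t (p + 1), t (p + 2)} : Finset (Fin d)) ⊆ univ.erase c := by
      intro y hy
      simp only [mem_insert, mem_singleton] at hy
      rcases hy with rfl | rfl
      · simpa using ha
      · simpa using h3
    have a2 := (mk_adm h2 le_rfl (((H.prim u hu).1.term (by simp)).mono hs)).mono hs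
    have := H.u hJ (H.mrk _ _ 1 u hu h2 le_rfl) ((h.adm a).adm a2)
    rw [mk_mid (x := p + d + J) (p + d + J + 1) (by omega) (by omega)
      (by rw [f2 _ (by omega) (by omega)]; exact fun e => hne e.symm), u2,
      mk_hit ⟨fun l b1 b2 => by obtain rfl : l = 1 := by omega
                                exact f1 _ (by omega) (by omega), by
        rw [f1 _ (by omega) (by omega)]; congr 1; push_cast; ring⟩, u1,
      Equiv.swap_apply_left] at this
    exact h2 this.symm
  · have ih' : ∀ k, p < k → k < p + r → t k = t (k + d + J) := fun k b1 b2 => by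
      have := ih (k - p).toNat (by omega) (by omega)
      rwa [show p + ((k - p).toNat : ℤ) = k by omega,
        show p + d + J + ((k - p).toNat : ℤ) = k + d + J by omega] at this
    have hm : ∀ k, p < k → k ≤ p + r → u k ∈ (univ.erase c).erase (t (p + d + J + r)) := by
      intro k b1 b2
      rw [f1 k b1 (by omega)]
      refine mem_erase.2 ⟨?_, by simpa using B.nc k b1.le (by omega)⟩
      rcases b2.eq_or_lt with rfl | b2
      · exact hne
      · rw [ih' k b1 b2]
        exact B'.inj _ _ (by omega) (by omega) (by omega)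
    have hC : (univ.erase c).erase (t (p + d + J + r)) ≠ univ := fun e => by
      have : c ∈ (univ.erase c).erase (t (p + d + J + r)) := e.symm ▸ mem_univ c
      simp at this
    obtain ⟨v, hv, a2, v1, -⟩ := H.mv _ hC u hu p (t (p + 1))
      (by rw [u1]; exact mem_erase.2 ⟨hne, by simpa using ha⟩)
      ⟨p + r, by omega, by rw [u1, f1 _ (by omega) (by omega)], fun k b1 b2 => hm k b1 b2⟩
      ⟨p + 1, le_rfl, f1 _ (by omega) (by omega), fun k b1 b2 => hm k b1 (by omega)⟩
    have v2 : v (p + d + J) = u (p + d + J) := by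
      refine a2.fix ?_
      rintro ⟨q, q1, q2, q3⟩
      have q4 : q < p + d + J + r := by
        by_contra q4
        exact (mem_erase.1 (q3 (p + d + J + r) (by omega) (by omega))).1
          (f2 _ (by omega) (by omega))
      rw [u2, f2 q (by omega) (by omega), show q = q - d - J + d + J by ring,
        ← ih' _ (by omega) (by omega)] at q2
      exact B.inj _ _ (by omega) (by omega) (by omega) q2
    have := H.u hJ hv ((h.adm a).adm (a2.mono (erase_subset _ _)))
    rw [v1, v2, u2] at this
    exact B.inj _ _ (by omega) (by omega) (by omega) this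

theorem Cl.len (H : Cl n J T) (hd : 3 ≤ d) (hJ : 2 ≤ J) (ht : t ∈ T) (h : Head t c p J) :
    n = d + J := by
  have hp := H.prim t ht
  have key : ∀ m : ℕ, ∃ q, p + m - (d + J) < q ∧ q ≤ p + m ∧ Head t c q J ∧
      (q = p ∨ p + (d + J) ≤ q) := by
    intro m
    induction m with
    | zero => exact ⟨p, by omega, by omega, h, .inl rfl⟩
    | succ m ih =>
      obtain ⟨q, q1, q2, q3, q4⟩ := ih
      by_cases e : q + d + J = p + (m + 1 : ℕ)
      · exact ⟨q + d + J, by omega, by omega, H.next hd hJ ht q3, .inr (by omega)⟩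
      · exact ⟨q, by omega, by omega, q3, q4⟩
  have per : ∀ i, p ≤ i → t (i + (d + J : ℕ)) = t i := by
    intro i hi
    obtain ⟨q, q1, q2, q3, -⟩ := key (i - p).toNat
    have B := H.blk ht q3
    by_cases e : i < q + d
    · have := H.same hd hJ ht q3 (i - q).toNat (by omega)
      rw [show q + ((i - q).toNat : ℤ) = i by omega] at this
      rw [this]
      congr 1
      omega
    · rw [B.run i (by omega) (by omega),
        (H.blk ht (H.next hd hJ ht q3)).run _ (by omega) (by omega)]
  have hn := hp.1.1
  have h1 : n ≤ d + J := by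
    by_contra hlt
    refine hp.2 (d + J) (by omega) ⟨by omega, fun i => ?_, hp.1.2.2⟩
    have hn' : (1 : ℤ) ≤ n := by omega
    have h1 : p ≤ i + |i - p| * n := by
      have := neg_abs_le (i - p)
      have := abs_nonneg (i - p)
      nlinarith
    have := per _ h1
    rw [hp.1.zper] at this
    rw [← this, ← hp.1.zper _ |i - p|]
    congr 1
    ring
  have B := H.blk ht h
  by_contra hne
  by_cases e : d ≤ n
  · exact h.ne (by rw [← hp.1.2.1 p]; exact B.run _ (by omega) (by omega))
  · refine B.nc (p - 1 + n) (by omega) (by omega) ?_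
    rw [hp.1.2.1]
    exact h.run _ (by omega) (by omega)

end Pool.Agent.MP_9b2bac_nt.Z.VM
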