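import Mathlib
import Pool.Agent.MP_9b2bac_nt.VDefs
import Pool.Agent.MP_9b2bac_nt.VMain3

/- Reduction of primitive words to canonical words. -/

set_option autoImplicit false

namespace Pool.Agent.MP_9b2bac_nt.Z

variable {d : ℕ}

/-- One block of length `d` that starts at `p`, with all letters other than `c` after its first
place; the letter `c` elsewhere. -/
def Can (n : ℕ) (c : Fin d) (p : ℤ) (s : Seq d) : Prop :=
  Per n s ∧ s p ≠ c ∧ (∀ y, y ≠ c → ∃ k : ℕ, 1 ≤ k ∧ k < d ∧ s (p + k) = y) ∧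
    ∀ k : ℕ, d ≤ k → k < n → s (p + k) = c

theorem head_exists (hd : 3 ≤ d) {n : ℕ} (hn : d < n) {s : Seq d} (hs : Prim n s) :
    ∃ c p, s (p - 1) = c ∧ s p ≠ c ∧ ∀ y, y ≠ c → Occ (Finset.univ.erase c) s (p + 1) y := by
  have _ := hd
  obtain ⟨c, p, h⟩ := VM.head_one hn hs
  exact ⟨c, p, h.run _ (by omega) (by omega), h.ne, h.occ⟩

theorem to_can (hd : 3 ≤ d) {n : ℕ} (hn : d + 2 ≤ n) (O : Set (Seq d))
    (hmk : ∀ u v j s, u ≠ v → 1 ≤ j → Prim n s → Prim n (mk u v j s) ∧ (s ∈ O ↔ mk u v j s ∈ O))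
    (hmv : ∀ C, C ≠ Finset.univ → MvO n O C) {s : Seq d} (hs : Prim n s) :
    ∃ t c p, Prim n t ∧ Can n c p t ∧ (s ∈ O ↔ t ∈ O) := by
  have hJ : ∃ J, 1 ≤ J ∧ (∃ t c p, (Prim n t ∧ (s ∈ O ↔ t ∈ O)) ∧ VM.Head t c p J) ∧
      ¬ ∃ t c p, (Prim n t ∧ (s ∈ O ↔ t ∈ O)) ∧ VM.Head t c p (J + 1) := by
    by_contra hno
    have key : ∀ J, 1 ≤ J → ∃ t c p, (Prim n t ∧ (s ∈ O ↔ t ∈ O)) ∧ VM.Head t c p J := by
      intro J hJ
      induction J, hJ using Nat.le_induction with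
      | base =>
        obtain ⟨c, p, h⟩ := VM.head_one (by omega) hs
        exact ⟨s, c, p, ⟨hs, Iff.rfl⟩, h⟩
      | succ J hJ ih =>
        by_contra h
        exact hno ⟨J, hJ, ih, h⟩
    obtain ⟨t, c, p, ht, h⟩ := key n (by omega)
    refine h.ne ?_
    rw [← h.run (p - n) le_rfl (by omega), ← ht.1.1.2.1 (p - n), sub_add_cancel]
  obtain ⟨J, J1, ⟨t, c, p, ht, h⟩, hmax⟩ := hJ
  have H : VM.Cl n J {t | Prim n t ∧ (s ∈ O ↔ t ∈ O)} := by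
    refine ⟨fun t ht => ht.1, fun u v j t ht huv hj => ?_, fun C hC t ht i x a b e => ?_, J1,
      fun t ht c p h => hmax ⟨t, c, p, ht, h⟩⟩
    · obtain ⟨a, b⟩ := hmk u v j t huv hj ht.1
      exact ⟨a, ht.2.trans b⟩
    · obtain ⟨u, u1, u2, u3, u4, u5⟩ := hmv C hC t i x ht.1 a b e
      exact ⟨u, ⟨u1, ht.2.trans u5⟩, u2, u3, u4⟩
  have J2 : 2 ≤ J := by
    by_contra hlt
    obtain rfl : J = 1 := by omega
    exact H.one_false hd hn ht h
  have e := H.len hd J2 ht h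
  have B := H.blk ht h
  refine ⟨t, c, p, ht.1, ⟨ht.1.1, h.ne, fun y hy => ?_, fun k a b => ?_⟩, ht.2⟩
  · obtain ⟨k, k1, k2, k3⟩ := B.sur y hy
    exact ⟨(k - p).toNat, by omega, by omega, by rw [← k3]; congr 1; omega⟩
  · exact B.run _ (by omega) (by omega)

end Pool.Agent.MP_9b2bac_nt.Z
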