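import Mathlib
import Pool.Agent.MP_9b2bac_nt.VMain
import Pool.Agent.MP_9b2bac_nt.VCan2

/- All canonical words are equivalent. -/

set_option autoImplicit false

namespace Pool.Agent.MP_9b2bac_nt.Z

variable {d : ℕ}

theorem arr_zero [NeZero d] {m : ℕ} (hm : d = m + 1) : Arr 0 ((List.range m).map (L d)) := by
  refine ⟨List.Nodup.map_on (fun a ha b hb e => ?_) List.nodup_range, fun y => ?_⟩
  · by_contra hc
    exact ZSweep.L_ne' hm (List.mem_range.1 ha) (List.mem_range.1 hb) hc e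
  · rw [List.mem_map]
    refine ⟨?_, fun h => ?_⟩
    · rintro ⟨a, ha, rfl⟩
      exact ZSweep.L_ne hm (List.mem_range.1 ha)
    · obtain ⟨t, h1, h2⟩ := ZSweep.exists_L hm h
      exact ⟨t, List.mem_range.2 h1, h2.symm⟩

theorem zd_eq [NeZero d] {m : ℕ} (hm : d = m + 1) (n : ℕ) :
    zd d n = blk n 0 ((List.range m).map (L d)) 0 := by
  funext i
  unfold zd blk
  rw [sub_zero, show d - 1 = m by omega]
  by_cases h : (i % n).toNat < m
  · rw [min_eq_left h.le, List.getD_eq_getElem _ _ (by simpa using h)]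
    simp
  · rw [min_eq_right (by omega), ZSweep.L_top hm, List.getD_eq_default _ _ (by simpa using h)]

theorem Can.eq_blk {n : ℕ} {c : Fin d} {p : ℤ} {t : Seq d} (h : Can n c p t) :
    ∃ F, Arr c F ∧ t = blk n c ([t p] ++ F) p := by
  obtain ⟨m, hm⟩ : ∃ m, d = m + 1 := ⟨d - 1, by have := c.pos; omega⟩
  obtain ⟨h1, -, h3, h4⟩ := h
  set F := (List.range m).map fun k : ℕ => t (p + (k + 1 : ℕ)) with hF
  have hs : Finset.univ.erase c ⊆ F.toFinset := fun y hy => by
    obtain ⟨k, a, b, e⟩ := h3 y (Finset.ne_of_mem_erase hy)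
    rw [List.mem_toFinset, hF, List.mem_map]
    exact ⟨k - 1, List.mem_range.2 (by omega), by rwa [show k - 1 + 1 = k by omega]⟩
  have hl : F.length = m := by simp [hF]
  have hc : (Finset.univ.erase c).card = m := by
    rw [Finset.card_erase_of_mem (Finset.mem_univ _), Finset.card_univ, Fintype.card_fin]
    omega
  have h5 := List.toFinset_card_le F
  have h6 := Finset.card_le_card hs
  have h7 := Finset.eq_of_subset_of_card_le hs (by omega)
  refine ⟨F, ⟨?_, fun y => ?_⟩, ?_⟩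
  · have : (F : Multiset (Fin d)).Nodup :=
      Multiset.toFinset_card_eq_card_iff_nodup.1 (by
        rw [Multiset.coe_card]
        show F.toFinset.card = _
        omega)
    exact this
  · rw [← List.mem_toFinset, ← h7]
    simp
  · funext i
    obtain ⟨k, q, hk, hi⟩ := pos_dec h1.1 p i
    rw [blk_at k q hk hi, hi, h1.zper]
    rcases k with _ | k
    · simp
    · by_cases h8 : k < m
      · rw [List.singleton_append, List.getD_cons_succ, List.getD_eq_getElem _ _ (by omega)]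
        simp [hF]
      · rw [List.getD_eq_default _ _ (by simp; omega)]
        exact h4 _ (by omega) hk

theorem all_can [NeZero d] (hd : 3 ≤ d) {n : ℕ} (hn : d + 3 ≤ n) (O : Set (Seq d))
    (hmk : ∀ u v j s, u ≠ v → 1 ≤ j → Prim n s → Prim n (mk u v j s) ∧ (s ∈ O ↔ mk u v j s ∈ O))
    (hR : ∀ o : Fin d, (∃ z ∈ O, Prim n z ∧ ∀ t, Adm (Finset.univ.erase o) z t → t = z) →
      ∀ C, o ∉ C → MvO n O C)
    (h0 : zd d n ∈ O) :
    (∀ C, C ≠ Finset.univ → MvO n O C) ∧ ∀ t c p, Can n c p t → t ∈ O := by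
  obtain ⟨m, hm⟩ : ∃ m, d = m + 1 := ⟨d - 1, by omega⟩
  have hA := arr_zero hm
  rw [zd_eq hm] at h0
  generalize (List.range m).map (L d) = F at hA h0
  have hl := hA.len
  obtain ⟨x, W, rfl⟩ := List.exists_cons_of_ne_nil (l := F) (by rintro rfl; simp at hl; omega)
  have hx : (0 : Fin d) ≠ x := (hA.ne (by simp)).symm
  have g : Gd n 0 (x :: W ++ List.replicate 0 x) :=
    hA.gd (U := []) (by simp) (by simp) (by simp; omega)
  have H0 : ∀ C, 0 ∉ C → MvO n O C :=
    hR 0 ⟨_, by simpa using h0, g.prim (by simp) 0, g.rigid hA.1 (.inl rfl)⟩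
  have hA' : Arr 0 (W ++ [x]) := hA.perm (List.perm_append_singleton x W).symm
  have c0 : Cl n O 0 1 (W ++ [x]) 0 :=
    ⟨[x], rfl, by simp [hx], (Gd.r1 hmk (hA.gd (U := []) (by simp) (by simp [hx])
      (by simp; omega))).2 h0⟩
  have key : ∀ c : Fin d, (∀ C, c ∉ C → MvO n O C) ∧ ∃ F p, Arr c F ∧ Cl n O c 1 F p := by
    intro c
    by_cases hc : c = 0
    · exact hc ▸ ⟨H0, _, _, hA', c0⟩
    · have h1 := hA.perm (List.perm_cons_erase ((hA.2 c).2 hc))
      have h2 := h1.len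
      obtain ⟨y, V, e⟩ := List.exists_cons_of_ne_nil (l := (x :: W).erase c)
        (fun e => by rw [e] at h2; simp at h2; omega)
      rw [e] at h1
      have h3 := cl_all hd hn hmk hR (H0 _ (by simp)) hA' h1 c0 0
      have h4 := cl_head hd hn hR (H0 _ (by simp)) h1 h3
      exact ⟨h4, _, _, Arr.turn (h1.perm (List.Perm.cons _ (List.perm_append_singleton y V).symm)),
        (cl_turn hd hmk (H0 _ (by simp)) (h4 _ (by simp)) h1 (k := 0) (by omega)).1 h3⟩
  refine ⟨fun C hC => ?_, fun t c p ht => ?_⟩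
  · obtain ⟨o, ho⟩ : ∃ o, o ∉ C := by
      by_contra hc
      push Not at hc
      exact hC (Finset.eq_univ_of_forall hc)
    exact (key o).1 C ho
  · obtain ⟨h1, F, q, h2, h3⟩ := key c
    obtain ⟨F', h4, h5⟩ := ht.eq_blk
    rw [h5]
    exact (cl_iff hd (h1 _ (by simp)) h4 (k := 1) (by simpa using ht.2.1.symm) rfl (by omega)).2
      (cl_all hd hn hmk hR (h1 _ (by simp)) h2 h4 h3 p)

theorem transD [NeZero d] (hd : 3 ≤ d) {n : ℕ} (hn : d + 3 ≤ n) (O : Set (Seq d))
    (hmk : ∀ u v j s, u ≠ v → 1 ≤ j → Prim n s → Prim n (mk u v j s) ∧ (s ∈ O ↔ mk u v j s ∈ O))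
    (hR : ∀ o : Fin d, (∃ z ∈ O, Prim n z ∧ ∀ t, Adm (Finset.univ.erase o) z t → t = z) →
      ∀ C, o ∉ C → MvO n O C)
    (h0 : zd d n ∈ O) {s : Seq d} (hs : Prim n s) : s ∈ O := by
  obtain ⟨h1, h2⟩ := all_can hd hn O hmk hR h0
  obtain ⟨t, c, p, -, hc, e⟩ := to_can hd (by omega) O hmk h1 hs
  exact e.2 (h2 t c p hc)

end Pool.Agent.MP_9b2bac_nt.Z
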