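import Mathlib
import Pool.Agent.MP_9b2bac_nt.VCan
import Pool.Agent.MP_9b2bac_nt.VIso

/- Canonical words on the two lowest levels above the number of letters. -/

set_option autoImplicit false

namespace Pool.Agent.MP_9b2bac_nt.Z

variable {d : ℕ}

namespace TPuzX

variable {n : ℕ} {O : Set (Seq d)} {c c' u v y : Fin d} {p a : ℤ} {A B F F' U V W : List (Fin d)}

theorem blk_pad (j : ℕ) : blk n c (W ++ List.replicate j c) p = blk n c W p := by
  funext i
  unfold blk
  generalize ((i - p) % n).toNat = k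
  by_cases h : k < W.length
  · rw [List.getD_append _ _ _ _ h]
  · rw [List.getD_append_right _ _ _ _ (by omega), List.getD_eq_default W _ (by omega)]
    by_cases h' : k - W.length < j
    · rw [List.getD_eq_getElem _ _ (by simpa using h'), List.getElem_replicate]
    · rw [List.getD_eq_default _ _ (by simp; omega)]

theorem blk_rot (c' : Fin d) (hn : 0 < n) (h : n = U.length + V.length) :
    blk n c (U ++ V) p = blk n c' (V ++ U) (p + U.length) := by
  funext i
  obtain ⟨k, q, hk, hi⟩ := pos_dec hn p i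
  rw [blk_at k q hk hi]
  by_cases hc : k < U.length
  · rw [blk_at (k + V.length) (q - 1) (by omega) (by rw [sub_mul]; push_cast; omega),
      List.getD_append _ _ _ _ hc, List.getD_append_right _ _ _ _ (by omega),
      Nat.add_sub_cancel, List.getD_eq_getElem _ _ hc, List.getD_eq_getElem _ _ hc]
  · have h1 : k - U.length < V.length := by omega
    rw [blk_at (k - U.length) q (by omega) (by omega), List.getD_append_right _ _ _ _ (by omega),
      List.getD_append _ _ _ _ h1, List.getD_eq_getElem _ _ h1, List.getD_eq_getElem _ _ h1]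

theorem rigid2 (hn : d < n) (h : Arr c F) (hy : y ≠ c) (t : Seq d)
    (ht : Adm (Finset.univ.erase y) (blk n c (y :: F) p) t) : t = blk n c (y :: F) p := by
  funext i
  have hl := h.len
  obtain ⟨k, q, hk, hi⟩ := pos_dec (show 0 < n by omega) p i
  have key : ∀ i0 j, i ≤ i0 → i0 ≤ i + 1 → Occ (Finset.univ.erase y) (blk n c (y :: F) p) i0 j →
      ∃ k' : ℕ, k' < n ∧ i0 ≤ p + k' + q * n ∧ j = (y :: F).getD k' c ∧ j ≠ y := by
    rintro i0 j h1 h2 ⟨i', a1, a2, a3⟩
    have h3 : i' < p + (q + 1) * n := by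
      by_contra hc
      have := a3 (p + (q + 1) * n) (by rw [add_mul]; omega) (by omega)
      rw [blk_at 0 (q + 1) (by omega) (by simp)] at this
      simp at this
    rw [add_mul] at h3
    refine ⟨(i' - p - q * n).toNat, by omega, by omega, ?_, ?_⟩
    · rw [← a2]
      exact blk_at _ q (by omega) (by omega)
    · have := a3 i' a1 le_rfl
      rw [a2] at this
      simpa using this
  by_cases h1 : k < d
  · refine ht.fix fun ho => ?_
    obtain ⟨k', b1, b2, b3, b4⟩ := key _ _ (by omega) le_rfl ho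
    rw [blk_at k q hk hi] at b3 b4
    rcases k with _ | k
    · exact b4 rfl
    · obtain ⟨k', rfl⟩ : ∃ m, k' = m + 1 := ⟨k' - 1, by omega⟩
      have h2 : k < F.length := by omega
      rw [List.getD_cons_succ, List.getD_cons_succ, List.getD_eq_getElem _ _ h2] at b3
      by_cases h3 : k' < F.length
      · rw [List.getD_eq_getElem _ _ h3] at b3
        have := (h.1.getElem_inj_iff).1 b3
        omega
      · rw [List.getD_eq_default _ _ (by omega)] at b3
        exact h.ne (List.getElem_mem h2) b3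
  · have e : blk n c (y :: F) p i = c := by
      rw [blk_at k q hk hi, List.getD_eq_default _ _ (by simp; omega)]
    obtain ⟨k', b1, b2, b3, -⟩ := key _ _ le_rfl (by omega) (ht.occ (by rw [e]; simpa using hy.symm))
    rw [e, b3, List.getD_eq_default _ _ (by simp; omega)]

/-- All moves are available. -/
def AM (n : ℕ) (O : Set (Seq d)) : Prop := ∀ y, MvO n O (Finset.univ.erase y)

theorem fill (hd : 3 ≤ d) (hn : d < n) (hm : AM n O) (h : Arr c (A ++ B)) (hu : u ≠ c)
    (hu' : A.getLast? ≠ some u) (hv : v ≠ c) (hv' : A.getLast? ≠ some v) :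
    blk n c (A ++ u :: B) a ∈ O ↔ blk n c (A ++ v :: B) a ∈ O := by
  have hl := h.len
  rcases List.eq_nil_or_concat' A with rfl | ⟨A', y, rfl⟩
  · exact (cl_iff hd (hm c) h (U := [u]) (k := 1) (by simpa using hu.symm) rfl (by omega)).trans
      (cl_iff hd (hm c) h (U := [v]) (k := 1) (by simpa using hv.symm) rfl (by omega)).symm
  · obtain ⟨J, hJ⟩ : ∃ J, n = d + 1 + J := ⟨n - (d + 1), by omega⟩
    simp only [List.length_append, List.length_singleton] at hl
    have e : ∀ w : Fin d, blk n c (A' ++ [y] ++ w :: B) a =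
        blk n y ([w] ++ (B ++ List.replicate (J + 1) c ++ A')) (a + (A' ++ [y]).length) := by
      intro w
      rw [← blk_pad (J + 1), List.append_assoc, blk_rot y (by omega) (by simp; omega),
        ← blk_pad (W := [w] ++ (B ++ List.replicate (J + 1) c ++ A')) 1]
      simp
    have hy : y ≠ c := h.ne (by simp)
    have hG : Gd n y (B ++ List.replicate (J + 1) c ++ A') := by
      refine ⟨fun z => ?_, by simp; omega⟩
      have h1 := h.2 z
      have h2 := h.1
      simp only [List.nodup_append, List.mem_append, List.mem_singleton, List.mem_replicate] at h1 h2 ⊢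
      constructor
      · rintro ((b | b) | b) rfl
        · exact h2.2.2 z (.inr rfl) z b rfl
        · exact hy b.2
        · exact h2.1.2.2 z b z rfl rfl
      · intro b
        by_cases hz : z = c
        · exact .inl (.inr ⟨by omega, hz⟩)
        · rcases h1.2 hz with (e | e) | e
          exacts [.inr e, absurd e b, .inl (.inl e)]
    rw [e, e]
    simp only [List.getLast?_append, List.getLast?_singleton, Option.some_or, ne_eq,
      Option.some.injEq] at hu' hv'
    exact Gd.pre (hm y) hG (by simp) (by simpa using hu') (by simpa using hv') rfl (by simp; omega)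

/-- The word with the letters `A`, a gap and the letters `B` lies in `O`. -/
def St (n : ℕ) (O : Set (Seq d)) (c : Fin d) (a : ℤ) (A B : List (Fin d)) : Prop :=
  Arr c (A ++ B) ∧ ∃ u, u ≠ c ∧ A.getLast? ≠ some u ∧ blk n c (A ++ u :: B) a ∈ O

theorem st_iff (hd : 3 ≤ d) (hn : d < n) (hm : AM n O) (h : Arr c (A ++ B)) (hu : u ≠ c)
    (hu' : A.getLast? ≠ some u) : St n O c a A B ↔ blk n c (A ++ u :: B) a ∈ O :=
  ⟨fun ⟨_, _, h1, h2, h3⟩ => (fill hd hn hm h h1 h2 hu hu').1 h3, fun e => ⟨h, u, hu, hu', e⟩⟩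

theorem last_ne (h : u ∉ A) : A.getLast? ≠ some u := fun e => h (List.mem_of_getLast? e)

theorem jump (hd : 3 ≤ d) (hn : d < n) (hm : AM n O) (A : List (Fin d)) (u : Fin d)
    (U B : List (Fin d)) (hU : U ≠ []) :
    St n O c a A (U ++ u :: B) ↔ St n O c a (A ++ u :: U) B := by
  have pe : (A ++ (U ++ u :: B)).Perm (A ++ u :: U ++ B) := by
    rw [List.append_assoc]
    exact List.Perm.append_left A List.perm_middle
  have key : Arr c (A ++ (U ++ u :: B)) →
      (St n O c a A (U ++ u :: B) ↔ St n O c a (A ++ u :: U) B) := fun h => by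
    have hu : u ≠ c := h.ne (by simp)
    have h2 := h.1
    simp only [List.nodup_append, List.mem_append, List.mem_cons] at h2
    rw [st_iff hd hn hm h hu (last_ne fun b => h2.2.2 u b u (.inr (.inl rfl)) rfl),
      st_iff hd hn hm (h.perm pe) hu]
    · simp
    · obtain ⟨U', z, rfl⟩ := (List.eq_nil_or_concat' U).resolve_left hU
      have : z ≠ u := h2.2.1.2.2 z (by simp) u (.inl rfl)
      rw [← List.cons_append, ← List.append_assoc, List.getLast?_append]
      simpa using this
  exact ⟨fun e => (key e.1).1 e, fun e => (key (e.1.perm pe.symm)).2 e⟩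

section
variable (hd : 3 ≤ d) (hn : d < n) (hm : AM n O)
include hd hn hm

theorem sw1 (U : List (Fin d)) (u : Fin d) (M : List (Fin d)) (v : Fin d) (B : List (Fin d))
    (hU : U ≠ []) (hM : M ≠ []) (h : St n O c a [] (U ++ u :: (M ++ v :: B))) :
    St n O c a [] (U ++ v :: (M ++ u :: B)) := by
  rw [jump hd hn hm _ _ _ _ hU, jump hd hn hm _ _ _ _ hM] at h
  have := (jump hd hn hm [] u (U ++ v :: M) B (by simp)).2 (by simpa using h)
  simpa using this

theorem sw0 (u x v z w : Fin d) (B : List (Fin d))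
    (h : St n O c a [] (u :: x :: v :: z :: (B ++ [w]))) :
    St n O c a [] (v :: x :: u :: z :: (B ++ [w])) := by
  have h1 := (jump hd hn hm [] w (u :: x :: v :: z :: B) [] (by simp)).1 h
  have h2 := (jump hd hn hm [w, u, x] v (z :: B) [] (by simp)).2 (by simpa using h1)
  have h3 := (jump hd hn hm [w] u [x] (z :: B ++ [v]) (by simp)).2 (by simpa using h2)
  have h4 := (jump hd hn hm [w] v (x :: u :: z :: B) [] (by simp)).1 (by simpa using h3)
  exact (jump hd hn hm [] w (v :: x :: u :: z :: B) [] (by simp)).2 (by simpa using h4)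

theorem adjA (U : List (Fin d)) (x y z w : Fin d) (B : List (Fin d)) (hU : U ≠ [])
    (h : St n O c a [] (U ++ x :: y :: z :: w :: B)) : St n O c a [] (U ++ y :: x :: z :: w :: B) := by
  have h1 := sw1 hd hn hm U x [y, z] w B hU (by simp) h
  have h2 := sw1 hd hn hm (U ++ [w]) y [z] x B (by simp) (by simp) (by simpa using h1)
  exact sw1 hd hn hm U w [x, z] y B hU (by simp) (by simpa using h2)

theorem adjB (U : List (Fin d)) (w z x y : Fin d) (B : List (Fin d)) (hU : U ≠ [])
    (h : St n O c a [] (U ++ w :: z :: x :: y :: B)) : St n O c a [] (U ++ w :: z :: y :: x :: B) := by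
  have h1 := sw1 hd hn hm U w [z, x] y B hU (by simp) h
  have h2 := sw1 hd hn hm U y [z] x (w :: B) hU (by simp) h1
  exact sw1 hd hn hm U x [z, y] w B hU (by simp) h2

theorem adjC (U : List (Fin d)) (b x y z : Fin d) (B : List (Fin d)) (hU : U ≠ [])
    (h : St n O c a [] (U ++ b :: x :: y :: z :: B)) : St n O c a [] (U ++ b :: y :: x :: z :: B) := by
  have h1 := adjA hd hn hm U b x y z B hU h
  have h2 := sw1 hd hn hm U x [b] y (z :: B) hU (by simp) h1
  exact adjA hd hn hm U y b x z B hU h2

theorem adjD (x y z w v : Fin d) (B : List (Fin d))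
    (h : St n O c a [] (x :: y :: z :: w :: (B ++ [v]))) :
    St n O c a [] (y :: x :: z :: w :: (B ++ [v])) := by
  obtain ⟨v', B', e⟩ := List.exists_cons_of_ne_nil (l := B ++ [v]) (by simp)
  have h1 : St n O c a [] (x :: z :: y :: w :: (B ++ [v])) := by
    rw [e] at h ⊢
    exact adjA hd hn hm [x] y z w v' B' (by simp) h
  have h2 := sw0 hd hn hm x z y w v B h1
  rw [e] at h2 ⊢
  exact adjA hd hn hm [y] z x w v' B' (by simp) h2

end

theorem adj (hd : 6 ≤ d) (hn : d < n) (hm : AM n O) (U : List (Fin d)) (x y : Fin d)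
    (B : List (Fin d)) (h : St n O c a [] (U ++ x :: y :: B)) :
    St n O c a [] (U ++ y :: x :: B) := by
  have hl := h.1.len
  have hd' : 3 ≤ d := by omega
  simp only [List.nil_append, List.length_append, List.length_cons] at hl
  rcases B with _ | ⟨z, _ | ⟨w, B⟩⟩
  · rcases List.eq_nil_or_concat' U with rfl | ⟨U1, z, rfl⟩
    · simp at hl
      omega
    rcases List.eq_nil_or_concat' U1 with rfl | ⟨U2, w, rfl⟩
    · simp at hl
      omega
    have := adjB hd' hn hm U2 w z x y [] (by rintro rfl; simp at hl; omega) (by simpa using h)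
    simpa using this
  · rcases List.eq_nil_or_concat' U with rfl | ⟨U1, b, rfl⟩
    · simp at hl
      omega
    have := adjC hd' hn hm U1 b x y z [] (by rintro rfl; simp at hl; omega) (by simpa using h)
    simpa using this
  · by_cases hU : U = []
    · subst hU
      rcases List.eq_nil_or_concat' B with rfl | ⟨B1, v, rfl⟩
      · simp at hl
        omega
      exact adjD hd' hn hm x y z w v B1 h
    · exact adjA hd' hn hm U x y z w B hU h

theorem st_perm (hd : 6 ≤ d) (hn : d < n) (hm : AM n O) (e : F.Perm F') :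
    ∀ U, St n O c a [] (U ++ F) → St n O c a [] (U ++ F') := by
  induction e with
  | nil => exact fun _ h => h
  | cons x _ ih =>
    intro U h
    simpa using ih (U ++ [x]) (by simpa using h)
  | swap x y l => exact fun U h => adj hd hn hm U y x l h
  | trans _ _ ih1 ih2 => exact fun U h => ih2 U (ih1 U h)

/-- The class of the words with background `c` at `a`. -/
def E (n : ℕ) (O : Set (Seq d)) (c : Fin d) (a : ℤ) : Prop := ∃ F, St n O c a [] F

theorem e_nil (hd : 6 ≤ d) (hn : d < n) (hm : AM n O) (h : Arr c F) :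
    St n O c a [] F ↔ E n O c a :=
  ⟨fun e => ⟨F, e⟩, fun ⟨_, e⟩ => st_perm hd hn hm
    ((List.perm_ext_iff_of_nodup e.1.1 h.1).2 fun y => (e.1.2 y).trans (h.2 y).symm) [] e⟩

theorem e_one (hd : 6 ≤ d) (hn : d < n) (hm : AM n O) {w : Fin d} (h : Arr c (w :: B)) :
    St n O c a [w] B ↔ E n O c a := by
  have hl := h.len
  have hd' : 3 ≤ d := by omega
  rcases B with _ | ⟨b, _ | ⟨u, B⟩⟩
  · simp at hl
    omega
  · simp at hl
    omega
  have e1 := jump (c := c) (a := a) hd' hn hm [w] u [b] B (by simp)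
  have e2 := jump (c := c) (a := a) hd' hn hm [] w [u, b] B (by simp)
  refine (e1.trans e2.symm).trans (e_nil hd hn hm (h.perm ?_))
  exact ((List.Perm.swap u b B).cons w).trans (List.perm_middle (l₁ := [u, b])).symm

theorem e_all (hd : 6 ≤ d) (hn : d < n) (hm : AM n O) (h : Arr c (A ++ B)) :
    St n O c a A B ↔ E n O c a := by
  rcases A with _ | ⟨w, _ | ⟨z, U⟩⟩
  · exact e_nil hd hn hm h
  · exact e_one hd hn hm h
  · exact (jump (by omega) hn hm [] w (z :: U) B (by simp)).symm.trans
      (e_nil hd hn hm (h.perm List.perm_middle.symm))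

theorem exists_arr (hd : 6 ≤ d) {x y : Fin d} (hx : x ≠ c) (hy : y ≠ c) (hxy : y ≠ x) :
    ∃ B, Arr c (x :: y :: B) := by
  have h0 : Arr c (Finset.univ.erase c).toList := ⟨Finset.nodup_toList _, fun y => by simp⟩
  have _ := hd
  have h1 := h0.perm (List.perm_cons_erase ((h0.2 x).2 hx))
  have h2 : y ∈ (Finset.univ.erase c).toList.erase x :=
    (List.mem_cons.1 ((h1.2 y).2 hy)).resolve_left hxy
  exact ⟨_, h1.perm ((List.perm_cons_erase h2).cons x)⟩

theorem third (hd : 6 ≤ d) (x y : Fin d) : ∃ z, z ≠ x ∧ z ≠ y := by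
  by_contra hc
  push Not at hc
  have : (Finset.univ : Finset (Fin d)) ⊆ {x, y} := fun z _ => by
    by_cases h : z = x
    · simp [h]
    · simp [hc z h]
  have h1 := Finset.card_le_card this
  have h2 : ({x, y} : Finset (Fin d)).card ≤ 2 := Finset.card_le_two
  rw [Finset.card_univ, Fintype.card_fin] at h1
  omega

theorem step1 (hd : 6 ≤ d) (hn : n = d + 1) (hm : AM n O) (h : c' ≠ c) :
    E n O c a ↔ E n O c' (a + 1) := by
  obtain ⟨u, h1, h2⟩ := third hd c c'
  obtain ⟨B, hB⟩ := exists_arr hd h h1 h2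
  have hl := hB.len
  have hB' : Arr c' (u :: B ++ [c]) := hB.turn
  rw [← e_one hd (by omega) hm hB, ← e_nil hd (by omega) hm hB',
    st_iff (by omega) (by omega) hm hB h1 (by simpa using h2.symm),
    st_iff (A := []) (B := u :: B ++ [c]) (by omega) (by omega) hm hB' h2 (by simp), ← blk_pad 1, List.append_assoc,
    blk_rot c' (by omega) (by simp at hl ⊢; omega), ← blk_pad (W := [] ++ u :: (u :: B ++ [c])) 1]
  simp

theorem step2 (hd : 6 ≤ d) (hn : n = d + 2) (hm : AM n O) (h : Arr c (A ++ u :: B)) :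
    E n O c a ↔ E n O u (a + (A.length + 2 : ℕ)) := by
  have hl := h.len
  have hu : u ≠ c := h.ne (by simp)
  have h1 : Arr u (B ++ c :: A) := by
    have := (h.perm (List.perm_middle.trans (List.perm_append_comm.cons u))).turn
    refine this.perm ?_
    rw [List.append_assoc]
    exact List.Perm.append_left B (List.perm_append_singleton c A)
  have h2 := h.1
  simp only [List.nodup_append, List.mem_cons] at h2
  rw [← e_all hd (by omega) hm h, ← e_all hd (by omega) hm h1,
    st_iff (by omega) (by omega) hm h hu (last_ne fun b => h2.2.2 u b u (.inl rfl) rfl),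
    st_iff (by omega) (by omega) hm h1 hu.symm (last_ne fun b => h.ne (by simp [b]) rfl),
    ← blk_pad 2, show A ++ u :: u :: B ++ List.replicate 2 c = (A ++ [u, u]) ++ (B ++ [c, c]) by simp,
    blk_rot u (by omega) (by simp at hl ⊢; omega), ← blk_pad (W := B ++ c :: c :: A) 2]
  simp

theorem e_step (hd : 6 ≤ d) (hn : d < n) (hn' : n ≤ d + 2) (hm : AM n O) :
    (∀ c c' a, E n O c a ↔ E n O c' a) ∧ ∀ c a, E n O c a ↔ E n O c (a + 1) := by
  have key : ∀ k : ℤ, (∀ c c' a, c' ≠ c → (E n O c a ↔ E n O c' (a + k))) →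
      (∀ c c' a, E n O c a ↔ E n O c' a) ∧ ∀ c a, E n O c a ↔ E n O c (a + k) := by
    intro k hk
    have h1 : ∀ c c' a, E n O c a ↔ E n O c' a := fun c c' a => by
      obtain ⟨z, a1, a2⟩ := third hd c c'
      exact (hk c z a a1).trans (hk c' z a a2).symm
    refine ⟨h1, fun c a => ?_⟩
    obtain ⟨z, a1, -⟩ := third hd c c
    exact (hk c z a a1).trans (h1 _ _ _)
  rcases (show n = d + 1 ∨ n = d + 2 by omega) with e | e
  · exact key 1 fun c c' a h => step1 hd e hm h
  · obtain ⟨k1, k2⟩ := key 2 fun c c' a h => by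
      obtain ⟨u, h1, h2⟩ := third hd c c'
      obtain ⟨B, hB⟩ := exists_arr hd h h1 h2
      exact step2 (A := []) hd e hm hB
    obtain ⟨-, k3⟩ := key 3 fun c c' a h => by
      obtain ⟨u, h1, h2⟩ := third hd c c'
      obtain ⟨B, hB⟩ := exists_arr hd h1 h h2.symm
      exact step2 (A := [u]) hd e hm hB
    refine ⟨k1, fun c a => ?_⟩
    rw [k3 c a, k2 c (a + 1), add_assoc]
    rfl

end TPuzX

open TPuzX

theorem all_canE [NeZero d] (hd : 6 ≤ d) {n : ℕ} (hn : d < n) (hn' : n ≤ d + 2) (O : Set (Seq d))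
    (hmk : ∀ u v j s, u ≠ v → 1 ≤ j → Prim n s → Prim n (mk u v j s) ∧ (s ∈ O ↔ mk u v j s ∈ O))
    (hR : ∀ o : Fin d, (∃ z ∈ O, Prim n z ∧ ∀ t, Adm (Finset.univ.erase o) z t → t = z) →
      ∀ C, o ∉ C → MvO n O C)
    (h0 : zd d n ∈ O) :
    (∀ C, C ≠ Finset.univ → MvO n O C) ∧ ∀ t c p, Can n c p t → t ∈ O := by
  obtain ⟨m, hm⟩ : ∃ m, d = m + 1 := ⟨d - 1, by omega⟩
  have hd' : 3 ≤ d := by omega
  have hA := arr_zero hm
  rw [zd_eq hm] at h0
  generalize (List.range m).map (L d) = F at hA h0
  have hl := hA.len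
  obtain ⟨x, W, rfl⟩ := List.exists_cons_of_ne_nil (l := F) (by rintro rfl; simp at hl; omega)
  have hx : (0 : Fin d) ≠ x := (hA.ne (by simp)).symm
  have g : Gd n 0 (x :: W ++ List.replicate 0 x) :=
    hA.gd (U := []) (by simp) (by simp) (by simp; omega)
  have H0 : ∀ C, 0 ∉ C → MvO n O C :=
    hR 0 ⟨_, by simpa using h0, g.prim (by simp) 0, g.rigid hA.1 (.inl rfl)⟩
  have hA' : Arr 0 (W ++ [x]) := hA.perm (List.perm_append_singleton x W).symm
  have c0 : Cl n O 0 1 (W ++ [x]) 0 :=
    ⟨[x], rfl, by simp [hx], (Gd.r1 hmk (hA.gd (U := []) (by simp) (by simp [hx])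
      (by simp; omega))).2 h0⟩
  have c1 : ∀ y : Fin d, y ≠ 0 → blk n 0 (y :: (W ++ [x])) 0 ∈ O := fun y hy =>
    (cl_iff hd' (H0 _ (by simp)) hA' (U := [y]) (k := 1) (by simpa using hy.symm) rfl (by omega)).2 c0
  have key : ∀ c : Fin d, ∀ C, c ∉ C → MvO n O C := by
    intro c
    by_cases hc : c = 0
    · exact hc ▸ H0
    · have g' : Gd n 0 (c :: (W ++ [x])) := by
        simpa using hA'.gd (U := [c]) (V := []) (n := n) (by simpa using Ne.symm hc) (by simp)
          (by simp; omega)
      exact hR c ⟨_, c1 c hc, g'.prim (by simp) 0, rigid2 hn hA' hc⟩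
  have am : AM n O := fun y => key y _ (by simp)
  refine ⟨fun C hC => ?_, fun t c p ht => ?_⟩
  · obtain ⟨o, ho⟩ : ∃ o, o ∉ C := by
      by_contra hc
      push Not at hc
      exact hC (Finset.eq_univ_of_forall hc)
    exact key o C ho
  · obtain ⟨k1, k2⟩ := e_step hd hn hn' am
    have e0 : E n O c 0 := (k1 0 c 0).1 ⟨W ++ [x], hA', x, hx.symm, by simp, c1 x hx.symm⟩
    have e1 : ∀ q : ℤ, E n O c q := fun q => by
      induction q using Int.inductionOn' (b := 0) with
      | zero => exact e0
      | succ k _ ih => exact (k2 c k).1 ih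
      | pred k _ ih => exact (k2 c _).2 (by rwa [sub_add_cancel])
    obtain ⟨F', h4, h5⟩ := ht.eq_blk
    rw [h5]
    exact (st_iff (A := []) (B := F') hd' hn am h4 ht.2.1 (by simp)).1
      ((e_nil hd hn am h4).2 (e1 p))

end Pool.Agent.MP_9b2bac_nt.Z
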