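import Mathlib
import Pool.Agent.MP_9b2bac_nt.Shift

/- Factors of the smallest possible degree of Carlitz-Mersenne numbers. -/

set_option autoImplicit false

namespace Pool.Agent.MP_9b2bac_nt

open Polynomial Finset

variable {F : Type*} [Field F] [Fintype F]

theorem carlitz_pred_root {K : Type*} [Field K] [Algebra F K] {Q : F[X]} (hQ : Q.Monic)
    (hi : Irreducible Q) {z : K} (hz : aeval z Q = 0) (b : F[X]) :
    carlitz z (Q - 1) (aeval z b) = 0 := by
  have h1 := carlitz_root hQ hi hz (aeval z b)
  have h2 := aeval_algHom_apply (FiniteField.frobeniusAlgHom F K ^ Q.natDegree) z b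
  simp only [AlgHom.coe_pow, FiniteField.coe_frobeniusAlgHom, pow_iterate] at h2
  rw [(pow_card_pow_eq hi hz _).2 dvd_rfl] at h2
  have h3 := carlitz_add z (Q - 1) 1 (aeval z b)
  rw [sub_add_cancel, carlitz_one, h1, ← h2] at h3
  exact left_eq_add.1 (h3.trans (add_comm _ _))

omit [Fintype F] in
theorem exists_root_dvd {Q : F[X]} (hQ : Q.Monic) (hi : Irreducible Q) :
    ∃ z : AlgebraicClosure F, aeval z Q = 0 ∧ ∀ g : F[X], aeval z g = 0 → Q ∣ g := by
  obtain ⟨z, hz⟩ := IsAlgClosed.exists_aeval_eq_zero (AlgebraicClosure F) Q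
    (degree_pos_of_irreducible hi).ne'
  refine ⟨z, hz, fun g hg => ?_⟩
  rw [minpoly.eq_of_irreducible_of_monic hi hz hQ]
  exact minpoly.dvd F z hg

theorem big_degree (hq : 2 < Fintype.card F) {b P : F[X]} (hb : b ≠ 0) (hP : P.Monic)
    (hd : 2 ≤ P.natDegree) : b.natDegree + P.natDegree < (carlitz (X : F[X]) P b).natDegree := by
  have h3 : ∀ n : ℕ, n + 2 < Fintype.card F ^ (n + 1) := fun n => by
    have h1 : 3 ^ (n + 1) ≤ Fintype.card F ^ (n + 1) := Nat.pow_le_pow_left hq _
    have h2 : n < 3 ^ n := Nat.lt_pow_self (by norm_num)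
    rw [pow_succ] at h1
    omega
  obtain ⟨n, hn⟩ : ∃ n, P.natDegree = n + 2 := ⟨P.natDegree - 2, by omega⟩
  rcases Nat.eq_zero_or_pos b.natDegree with h0 | h0
  · have e : carlitz (X : F[X]) P b = C (b.coeff 0) * carlitz (X : F[X]) P 1 := by
      rw [carlitz_eq, carlitz_eq, ← smul_eq_C_mul, ← map_smul, smul_eq_C_mul, mul_one,
        ← eq_C_of_natDegree_eq_zero h0]
    have hc : b.coeff 0 ≠ 0 := fun h => hb (by rw [eq_C_of_natDegree_eq_zero h0, h, C_0])
    rw [e, natDegree_C_mul hc, (one_degree hq hP (by omega)).2, h0, hn, zero_add]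
    exact h3 n
  · rw [(carlitz_degree hb (by rw [natDegree_X]; nlinarith) hP).1, hn]
    have := h3 (n + 1)
    nlinarith

theorem small_factor_iff (hq : 2 < Fintype.card F) {b P : F[X]} (hb : b ≠ 0) (hP : P.Monic)
    (hi : Irreducible P) (hd : b.natDegree + 2 ≤ P.natDegree) :
    (∃ Q M : F[X], Irreducible Q ∧ Q.natDegree ≤ P.natDegree ∧ 0 < M.natDegree ∧
      carlitz (X : F[X]) P b = b * Q * M) ↔ Irreducible (P + 1) := by
  classical
  obtain ⟨M₀, h1, h2⟩ := exists_quot (X : F[X]) P b
  rw [aeval_X_left_apply] at h2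
  have hdeg : (1 : F[X]).degree < P.degree := by
    rw [degree_one]
    exact degree_pos_of_irreducible hi
  constructor
  · rintro ⟨Q, M, hQ, hQd, -, e⟩
    have hm : (normalize Q).Monic := monic_normalize hQ.ne_zero
    have ha : Associated Q (normalize Q) := associated_normalize Q
    have hQi := ha.irreducible hQ
    have hQn : (normalize Q).natDegree = Q.natDegree :=
      natDegree_eq_of_degree_eq (degree_eq_degree_of_associated ha).symm
    obtain ⟨z, hz, hzd⟩ := exists_root_dvd hm hQi
    have hM : M₀ = Q * M := mul_left_cancel₀ hb (by rw [← h1, e, mul_assoc])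
    have hzQ : aeval z Q = 0 := by
      obtain ⟨c, hc⟩ := ha.symm.dvd
      rw [hc, map_mul, hz, zero_mul]
    have hy : aeval z b ≠ 0 := fun h => by
      have a1 := hzd b h
      have a2 : normalize Q ∣ P := by
        have a3 : normalize Q ∣ M₀ := hM ▸ ha.symm.dvd.mul_right M
        simpa using a3.sub (a1.trans h2)
      have a4 := natDegree_eq_of_degree_eq
        (degree_eq_degree_of_associated (hQi.associated_of_dvd hi a2))
      have a5 := natDegree_le_of_dvd a1 hb
      omega
    have a1 : carlitz z P (aeval z b) = 0 := by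
      have := map_carlitz (aeval z) (X : F[X]) P b
      rw [aeval_X, e, map_mul, map_mul, hzQ, mul_zero, zero_mul] at this
      exact this.symm
    have a2 := carlitz_pred_root hm hQi hz b
    have a3 : P ∣ normalize Q - 1 := by
      by_contra hn
      obtain ⟨u, v, huv⟩ := (hi.coprime_iff_not_dvd).2 hn
      have := carlitz_one (F := F) z (aeval z b)
      rw [← huv, carlitz_add, carlitz_mul, carlitz_mul, a1, a2, carlitz_zero_right,
        carlitz_zero_right, add_zero] at this
      exact hy this.symm
    have a4 : (1 : F[X]).degree < (normalize Q).degree := by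
      rw [degree_one]
      exact degree_pos_of_irreducible hQi
    have a5 : normalize Q - 1 = P :=
      eq_of_monic_of_dvd_of_natDegree_le hP (hm.sub_of_left a4) a3 (by
        rw [natDegree_sub_eq_left_of_natDegree_lt (by simpa using hQi.natDegree_pos), hQn]
        exact hQd)
    rw [← a5, sub_add_cancel]
    exact hQi
  · intro hQi
    have hm : (P + 1).Monic := hP.add_of_left hdeg
    have hQn : (P + 1).natDegree = P.natDegree := natDegree_add_eq_left_of_degree_lt hdeg
    obtain ⟨z, hz, hzd⟩ := exists_root_dvd hm hQi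
    have a1 := carlitz_pred_root hm hQi hz b
    rw [add_sub_cancel_right] at a1
    have a2 : P + 1 ∣ b * M₀ := by
      refine hzd _ ?_
      rw [← h1, map_carlitz, aeval_X, a1]
    have a3 : ¬ P + 1 ∣ b := fun h => by
      have := natDegree_le_of_dvd h hb
      omega
    obtain ⟨M, hM⟩ := (hQi.prime.dvd_or_dvd a2).resolve_left a3
    have e : carlitz (X : F[X]) P b = b * (P + 1) * M := by rw [h1, hM, mul_assoc]
    refine ⟨P + 1, M, hQi, hQn.le, ?_, e⟩
    have a4 := big_degree hq hb hP (by omega)
    have a5 : (b * (P + 1) * M).natDegree ≤ b.natDegree + (P + 1).natDegree + M.natDegree :=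
      natDegree_mul_le.trans (Nat.add_le_add_right natDegree_mul_le _)
    rw [e] at a4
    omega

end Pool.Agent.MP_9b2bac_nt
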