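import Mathlib
import Pool.Agent.MP_9b2bac_nt.VTree
import Pool.Agent.MP_9b2bac_nt.ZTree

/- Clusters of two letters. -/

set_option autoImplicit false

namespace Pool.Agent.MP_9b2bac_nt.Z

variable {d : ℕ} {A : Type} [CommRing A] [IsDomain A]

namespace VBin

variable (A) in
/-- Substitution of `c` for the root of index `b`. -/
noncomputable def sub (b : Fin d) (c : AA A d) : Polynomial (AA A d) →+* Polynomial (AA A d) :=
  Polynomial.mapRingHom
    (MvPolynomial.aeval (Function.update MvPolynomial.X b c) : AA A d →ₐ[A] AA A d).toRingHom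

variable (A) in
/-- The elements that do not involve the root of index `b`. -/
def S0 (b : Fin d) : Subring (Polynomial (AA A d)) where
  carrier := {p | ∀ c, sub A b c p = p}
  mul_mem' := fun {x y} hx hy c => by rw [map_mul, hx c, hy c]
  one_mem' := fun c => map_one _
  add_mem' := fun {x y} hx hy c => by rw [map_add, hx c, hy c]
  zero_mem' := fun c => map_zero _
  neg_mem' := fun {x} hx c => by rw [map_neg, hx c]

omit [IsDomain A] in
theorem C_mem (b : Fin d) (x : A) : Polynomial.C (MvPolynomial.C x) ∈ S0 A b := fun c => by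
  simp [sub]

omit [IsDomain A] in
theorem lam_mem {b j : Fin d} (h : j ≠ b) : Polynomial.C (MvPolynomial.X j) ∈ S0 A b := fun c => by
  simp [sub, Function.update_of_ne h]

omit [IsDomain A] in
theorem X_mem (b : Fin d) : Polynomial.X ∈ S0 A b := fun c => by simp [sub]

theorem trans0 (b : Fin d) :
    Transcendental (S0 A b) (Polynomial.C (MvPolynomial.X b) : Polynomial (AA A d)) := by
  rintro ⟨p, hp, h⟩
  have : Nonempty (Fin d) := ⟨b⟩
  refine hp (Polynomial.map_injective (algebraMap (S0 A b) (Polynomial (AA A d)))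
    Subtype.val_injective ?_)
  rw [Polynomial.map_zero]
  refine Polynomial.eq_zero_of_infinite_isRoot _
    ((Set.infinite_range_of_injective Polynomial.C_injective).mono ?_)
  rintro _ ⟨c, rfl⟩
  have h1 := congrArg (sub A b c) h
  have h2 : (sub A b c).comp (algebraMap (S0 A b) (Polynomial (AA A d))) =
      algebraMap (S0 A b) (Polynomial (AA A d)) := RingHom.ext fun x => x.2 c
  rw [Polynomial.aeval_def, Polynomial.hom_eval₂, h2, map_zero] at h1
  have h3 : sub A b c (Polynomial.C (MvPolynomial.X b)) = Polynomial.C c := by simp [sub]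
  rw [h3] at h1
  rw [Set.mem_ofPred_eq, Polynomial.IsRoot, Polynomial.eval_map]
  exact h1

theorem ph_eq (p : Polynomial (AA A d)) : algebraMap (Polynomial (AA A d)) (Om A d) p =
    io A d (algebraMap (Polynomial (AA A d)) (PowerSeries (BB A d)) p) :=
  IsScalarTower.algebraMap_apply _ (PowerSeries (BB A d)) (Om A d) p

theorem ph_inj : Function.Injective (algebraMap (Polynomial (AA A d)) (Om A d)) := fun x y h =>
  alg_inj (io_inj (by rw [← ph_eq, ← ph_eq, h]))

theorem gen {P Ω : Type} [CommRing P] [IsDomain P] [Field Ω] [IsAlgClosed Ω] [Algebra P Ω]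
    (hi : Function.Injective (algebraMap P Ω)) (S : Subring P) (h2 : (2 : P) ≠ 0) {x a e : P}
    (hx : Transcendental S x) (ha : a ∈ S) (he : e ∈ S) {μ : Ω}
    (hμ : algebraMap P Ω x = algebraMap P Ω a + algebraMap P Ω e * μ)
    {c : Ω} (hc : c = μ + 1 ∨ c = 1) (M : ℕ) {y y' : Ω} (hy : (gq μ)^[M] y = c)
    (hy' : (gq μ)^[M] y' = c) : ∃ γ : Ω ≃+* Ω,
      (∀ z ∈ S, γ (algebraMap P Ω z) = algebraMap P Ω z) ∧ γ μ = μ ∧ γ y = y' := by
  have : FaithfulSMul S Ω :=
    (faithfulSMul_iff_algebraMap_injective _ _).2 (hi.comp Subtype.val_injective)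
  let k := AlgebraicClosure (FractionRing S)
  have : FaithfulSMul S k := (faithfulSMul_iff_algebraMap_injective _ _).2 (by
    rw [IsScalarTower.algebraMap_eq S (FractionRing S) k]
    exact (algebraMap (FractionRing S) k).injective.comp (IsFractionRing.injective S _))
  have : Algebra.IsAlgebraic S k :=
    (IsFractionRing.comap_isAlgebraic_iff (K := FractionRing S)).2 inferInstance
  let ι : k →ₐ[S] Ω := IsAlgClosed.lift
  let : Algebra k Ω := ι.toRingHom.toAlgebra
  have : IsScalarTower S k Ω := IsScalarTower.of_algebraMap_eq fun x => (ι.commutes x).symm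
  have hk : ∀ x ∈ S, ∃ z : k, algebraMap k Ω z = algebraMap P Ω x := fun x hx =>
    ⟨algebraMap S k ⟨x, hx⟩, ι.commutes ⟨x, hx⟩⟩
  have ht : Transcendental k (algebraMap P Ω x) :=
    ((transcendental_algebraMap_iff hi).2 hx).extendScalars k
  obtain ⟨za, hza⟩ := hk _ ha
  obtain ⟨ze, hze⟩ := hk _ he
  have htμ : Transcendental k μ := fun h => ht (by
    rw [hμ, ← hza, ← hze]
    exact (isAlgebraic_algebraMap za).add ((isAlgebraic_algebraMap ze).mul h))
  have h2k : (2 : k) ≠ 0 := fun h => h2 (by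
    have h3 := congrArg (algebraMap k Ω) h
    rw [map_ofNat, map_zero] at h3
    exact hi (by rw [map_ofNat, map_zero, h3]))
  obtain ⟨γ, hγ, h⟩ := ZTree.trans_level h2k htμ hc M y y' hy hy'
  refine ⟨γ, fun z hz => ?_, hγ.2, h⟩
  obtain ⟨z, hz⟩ := hk z hz
  rw [← hz, hγ.1]

/-- Transitivity on the levels of the trees over the generic roots. -/
theorem trans (h2 : (2 : A) ≠ 0) {a b : Fin d} (hab : a ≠ b) {μ : Om A d}
    (hμ : io A d PowerSeries.X * μ =
      io A d (PowerSeries.C (lB A b)) - io A d (PowerSeries.C (lB A a)))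
    {c : Om A d} (hc : c = μ + 1 ∨ c = 1) (M : ℕ) {y y' : Om A d} (hy : (gq μ)^[M] y = c)
    (hy' : (gq μ)^[M] y' = c) : ∃ γ : Gam A d, γ μ = μ ∧ γ y = y' := by
  have hl : ∀ j, algebraMap (Polynomial (AA A d)) (Om A d) (Polynomial.C (MvPolynomial.X j)) =
      io A d (PowerSeries.C (lB A j)) := fun j => by rw [ph_eq, alg_C]; rfl
  have he : algebraMap (Polynomial (AA A d)) (Om A d) Polynomial.X = io A d PowerSeries.X := by
    rw [ph_eq, alg_X]
  have hb : algebraMap (Polynomial (AA A d)) (Om A d) (Polynomial.C (MvPolynomial.X b)) =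
      algebraMap (Polynomial (AA A d)) (Om A d) (Polynomial.C (MvPolynomial.X a)) +
      algebraMap (Polynomial (AA A d)) (Om A d) Polynomial.X * μ := by
    rw [hl, hl, he, hμ]; ring
  have h2P : (2 : Polynomial (AA A d)) ≠ 0 := fun h => h2 (MvPolynomial.C_injective (Fin d) A
    (Polynomial.C_injective (by simpa only [map_ofNat, map_zero] using h)))
  obtain ⟨γ, hf, g1, g2⟩ := gen (ph_inj (A := A) (d := d)) (S0 A b) h2P (trans0 b) (lam_mem hab)
    (X_mem b) hb hc M hy hy'
  have hall : γ.toRingHom.comp (algebraMap (Polynomial (AA A d)) (Om A d)) =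
      algebraMap (Polynomial (AA A d)) (Om A d) := by
    refine Polynomial.ringHom_ext' (MvPolynomial.ringHom_ext (fun x => hf _ (C_mem b x))
      fun j => ?_) (hf _ (X_mem b))
    by_cases hj : j = b
    · change γ (algebraMap (Polynomial (AA A d)) (Om A d) (Polynomial.C (MvPolynomial.X j))) =
        algebraMap (Polynomial (AA A d)) (Om A d) (Polynomial.C (MvPolynomial.X j))
      rw [hj, hb, map_add, map_mul, hf _ (lam_mem hab), hf _ (X_mem b), g1]
    · exact hf _ (lam_mem hj)
  exact ⟨AlgEquiv.ofRingEquiv (f := γ) fun x => RingHom.congr_fun hall x, g1, g2⟩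

variable {a b : Fin d} {s : Seq d} {μ : Om A d}

theorem stp (h0 : s 0 ∈ ({a, b} : Finset (Fin d))) : ∃ x, Stp {a, b}
    (fun j => io A d (PowerSeries.C (lB A j))) (io A d PowerSeries.X) (st A {a, b} (sh s)) x
    (st A {a, b} s) :=
  ⟨_, ((cluC A {a, b}).stp (nfC A {a, b}) h0).map (io A d)⟩

theorem out (h0 : s 0 ∈ ({a, b} : Finset (Fin d))) {j : Fin d} (ha : j ≠ a) (hb : j ≠ b) :
    st A {a, b} s j = 0 :=
  let ⟨_, h⟩ := stp (A := A) h0; h.out j (by simp [ha, hb])

theorem sum (hab : a ≠ b) (h0 : s 0 ∈ ({a, b} : Finset (Fin d))) :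
    st A {a, b} s a + st A {a, b} s b = 1 := by
  obtain ⟨_, h⟩ := stp (A := A) h0
  rw [← h.sum, ← Finset.sum_pair hab]
  exact Finset.sum_subset (Finset.subset_univ _) fun j _ hj => h.out j hj

theorem step (hab : a ≠ b) (hμ : io A d PowerSeries.X * μ =
      io A d (PowerSeries.C (lB A b)) - io A d (PowerSeries.C (lB A a)))
    (h0 : s 0 ∈ ({a, b} : Finset (Fin d))) (h1 : s 1 ∈ ({a, b} : Finset (Fin d))) :
    gq μ (μ * st A {a, b} s b) = μ * st A {a, b} (sh s) b := by
  obtain ⟨x, h⟩ := stp (A := A) h0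
  have e1 := h.step a (by simp)
  have e2 := h.step b (by simp)
  have e3 := sum (A := A) hab h0
  have e4 := sum (A := A) (s := sh s) hab (by simpa [sh] using h1)
  have he : io A d PowerSeries.X ≠ 0 := (map_ne_zero_iff _ io_inj).2 PowerSeries.X_ne_zero
  refine mul_left_cancel₀ he ?_
  simp only [gq] at e1 e2 ⊢
  generalize io A d PowerSeries.X = ε at *
  generalize io A d (PowerSeries.C (lB A a)) = la at *
  generalize io A d (PowerSeries.C (lB A b)) = lb at *
  generalize st A {a, b} s a = wa at *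
  generalize st A {a, b} s b = wb at *
  generalize st A {a, b} (sh s) a = va at *
  generalize st A {a, b} (sh s) b = vb at *
  have e5 : lb - x = ε * (μ + 1 - μ * wb) := by
    linear_combination (1 - wb) * (-hμ) - e1 - e2 + ε * e4 - (la - x) * e3
  linear_combination (-μ) * e2 - μ * wb * e5

theorem occ (hs : Term {a, b} s) {j : Fin d} (hj : j ∈ ({a, b} : Finset (Fin d))) :
    st A {a, b} s j ≠ 0 ↔ Occ {a, b} s 0 j := by
  rw [← (cluC A {a, b}).occ (nfC A {a, b}) hs j hj]
  exact map_ne_zero_iff _ io_inj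

theorem occ_sh {C : Finset (Fin d)} {j : Fin d} : Occ C (sh s) 0 j ↔ Occ C s (0 + 1) j :=
  occ_shf (a := 1)

theorem level (hab : a ≠ b) (hμ : io A d PowerSeries.X * μ =
      io A d (PowerSeries.C (lB A b)) - io A d (PowerSeries.C (lB A a))) (h0 : μ ≠ 0) (N : ℕ) :
    ∀ s : Seq d, Term {a, b} s → s N ∉ ({a, b} : Finset (Fin d)) → Occ {a, b} s 0 a →
      Occ {a, b} s 0 b →
      ∃ m c, (c = μ + 1 ∨ c = 1) ∧ (gq μ)^[m] (μ * st A {a, b} s b) = c := by
  induction N with
  | zero => exact fun s _ h ha _ => absurd ha.mem h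
  | succ N ih =>
    intro s hs hN ha hb
    have hs' : Term {a, b} (sh s) := hs.shf 1
    have h1 : s 1 ∈ ({a, b} : Finset (Fin d)) := by
      rcases (occ_iff.1 ha).2 with h | h
      · rcases (occ_iff.1 hb).2 with h' | h'
        · exact absurd (h.symm.trans h') hab
        · simpa using h'.mem
      · simpa using h.mem
    have e := step hab hμ ha.mem h1
    have e3 := sum (A := A) hab ha.mem
    have e4 := sum (A := A) (s := sh s) hab (by simpa [sh] using h1)
    have na := (occ (A := A) hs (by simp)).2 ha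
    have nb := (occ (A := A) hs (by simp)).2 hb
    by_cases ha' : Occ {a, b} (sh s) 0 a
    · by_cases hb' : Occ {a, b} (sh s) 0 b
      · obtain ⟨m, c, hc, h⟩ := ih (sh s) hs' (by simpa [sh] using hN) ha' hb'
        exact ⟨m + 1, c, hc, by rw [Function.iterate_succ_apply, e, h]⟩
      · rw [← occ (A := A) hs' (by simp), not_not] at hb'
        rw [hb', mul_zero, gq] at e
        exact ⟨0, _, .inl rfl,
          (sub_eq_zero.1 ((mul_eq_zero.1 e).resolve_left (mul_ne_zero h0 nb))).symm⟩
    · rw [← occ (A := A) hs' (by simp), not_not] at ha'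
      rw [ha', zero_add] at e4
      rw [e4, gq] at e
      refine ⟨0, _, .inr rfl, mul_left_cancel₀ (mul_ne_zero h0 na) ?_⟩
      change _ * (μ * _) = _
      linear_combination e + μ * (μ * st A {a, b} s b - 1) * e3

end VBin

theorem bin (h2 : (2 : A) ≠ 0) {u v : Fin d} (huv : u ≠ v) {s : Seq d} (hs : Term {u, v} s)
    (hu : Occ {u, v} s 1 u) (hv : Occ {u, v} s 1 v) :
    ∃ γ : Gam A d, ∀ j, γ (st A {u, v} (Function.update s 0 u) j) =
      st A {u, v} (Function.update s 0 v) j := by
  have he : io A d PowerSeries.X ≠ 0 := (map_ne_zero_iff _ io_inj).2 PowerSeries.X_ne_zero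
  obtain ⟨μ, hμ⟩ : ∃ μ, io A d PowerSeries.X * μ =
      io A d (PowerSeries.C (lB A v)) - io A d (PowerSeries.C (lB A u)) :=
    ⟨_, mul_div_cancel₀ _ he⟩
  have h0 : μ ≠ 0 := by
    rintro rfl
    rw [mul_zero, eq_comm, sub_eq_zero] at hμ
    exact huv ((cluC A {u, v}).inj (io_inj hμ)).symm
  obtain ⟨N, hN⟩ := hs 1
  obtain ⟨m, c, hc, h⟩ := VBin.level huv hμ h0 N (sh s) (hs.shf 1)
    (by simpa [sh, add_comm] using hN) (VBin.occ_sh.2 (by simpa using hu))
    (VBin.occ_sh.2 (by simpa using hv))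
  have m0 : ∀ x ∈ ({u, v} : Finset (Fin d)), Function.update s 0 x 0 ∈ ({u, v} : Finset (Fin d)) :=
    fun x hx => by rwa [Function.update_self]
  have key : ∀ x ∈ ({u, v} : Finset (Fin d)),
      (gq μ)^[m + 1] (μ * st A {u, v} (Function.update s 0 x) v) = c := fun x hx => by
    rw [Function.iterate_succ_apply, VBin.step huv hμ (m0 x hx)
      (by rw [Function.update_of_ne one_ne_zero]; exact hu.mem), ← h, st, st,
      (cluC A {u, v}).sh_update (nfC A {u, v}) hs]
  obtain ⟨γ, g1, g2⟩ := VBin.trans h2 huv hμ hc (m + 1) (key u (by simp)) (key v (by simp))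
  rw [map_mul, g1] at g2
  have g3 := mul_left_cancel₀ h0 g2
  refine ⟨γ, fun j => ?_⟩
  by_cases hjv : j = v
  · rw [hjv, g3]
  by_cases hju : j = u
  · rw [hju, eq_sub_of_add_eq (VBin.sum (A := A) huv (m0 u (by simp))),
      eq_sub_of_add_eq (VBin.sum (A := A) huv (m0 v (by simp))), map_sub, map_one, g3]
  · rw [VBin.out (m0 u (by simp)) hju hjv, VBin.out (m0 v (by simp)) hju hjv, map_zero]

end Pool.Agent.MP_9b2bac_nt.Z
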