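import Mathlib
import Pool.Agent.MP_9b2bac_nt.VTree
import Pool.Agent.MP_9b2bac_nt.ZU2

/- Uniqueness of lifts in the degeneration where the roots of a sub-cluster collide. -/

set_option autoImplicit false

namespace Pool.Agent.MP_9b2bac_nt.Z

open Finset

variable {d : ℕ} {K : Type} [Field K] {C C' : Finset (Fin d)}

theorem vclus_last {R : Type} [CommRing R] {π : R} {a b : Fin d → R} (ha : ∑ j, a j = 1)
    (hb : ∑ j, b j = 1) (h : ∀ j k, ¬ π ∣ a j - b j → ¬ π ∣ a k - b k → j = k) (j : Fin d) :
    π ∣ a j - b j := by
  by_contra hj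
  apply hj
  have : a j - b j = -∑ k ∈ univ.erase j, (a k - b k) := by
    rw [← add_sum_erase _ _ (mem_univ j)] at ha hb
    rw [sum_sub_distrib]; linear_combination ha - hb
  rw [this, dvd_neg]
  exact dvd_sum fun k hk => by_contra fun hc => ne_of_mem_erase hk (h k j hc hj)

theorem vclus_u {m : Fin d → K} (hm : Function.Injective m) (hm0 : ∀ j, m j ≠ 0) (h : C' ⊆ C)
    {lam : Fin d → PowerSeries K} {ν : K}
    (hl : ∀ j, lam j = if j ∈ C' then PowerSeries.X * PowerSeries.C (m j) else PowerSeries.C (m j))
    {a b : ℤ → Fin d → PowerSeries K} {x y : ℤ → PowerSeries K} {s : Seq d} (hs : Term C' s)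
    (ha : ∀ i, s i ∈ C → Stp C lam (PowerSeries.X * PowerSeries.C ν) (a (i + 1)) (x i) (a i))
    (hb : ∀ i, s i ∈ C → Stp C lam (PowerSeries.X * PowerSeries.C ν) (b (i + 1)) (y i) (b i))
    (ho : ∀ i, s i ∉ C → a i = b i) (hw : ∀ i j, PowerSeries.X ∣ a i j - b i j)
    (he : ∀ i, s i ∈ C → s i ∉ C' →
      PowerSeries.X ∣ x i - lam (s i) ∧ PowerSeries.X ∣ y i - lam (s i))
    (hx : ∀ i, s i ∈ C' → PowerSeries.X ∣ x i ∧ ∃ η, y i = PowerSeries.X * η ∧
      ∑ j ∈ C', PowerSeries.constantCoeff (b i j) *
        ∏ k ∈ C'.erase j, (m k - PowerSeries.constantCoeff η) ≠ 0) : a = b := by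
  classical
  have hc : ∀ j, PowerSeries.constantCoeff (lam j) = if j ∈ C' then 0 else m j := fun j => by
    rw [hl]; split_ifs <;> simp
  have hu : ∀ {z : PowerSeries K} {j : Fin d},
      PowerSeries.constantCoeff (lam j) ≠ PowerSeries.constantCoeff z → IsUnit (lam j - z) :=
    fun h2 => unit_of_c0 (by rw [map_sub]; exact sub_ne_zero.2 h2)
  have key : ∀ r, ∀ i j, PowerSeries.X ^ (r + 1) ∣ a i j - b i j := by
    intro r
    induction r with
    | zero => simpa using hw
    | succ r ih =>
      have hoff : ∀ i j, s i ∈ C → IsUnit (lam j - x i) → IsUnit (lam j - y i) →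
          PowerSeries.X ^ (r + 1 + 1) ∣ a i j - b i j := fun i j hi h1 h2 => by
        by_cases hj : j ∈ C
        · have e : (lam j - x i) * (a i j - b i j) = PowerSeries.X * PowerSeries.C ν *
              (a (i + 1) j - b (i + 1) j) + (x i - y i) * b i j := by
            linear_combination (hb i hi).step j hj - (ha i hi).step j hj
          have hxy : PowerSeries.X ^ (r + 1) ∣ x i - y i := by
            have : x i - y i = ∑ j ∈ C, lam j * (a i j - b i j) - PowerSeries.X * PowerSeries.C ν *
                ∑ j ∈ C, (a (i + 1) j - b (i + 1) j) := by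
              rw [(ha i hi).x_eq, (hb i hi).x_eq]
              simp only [mul_sub, sum_sub_distrib]
              ring
            rw [this]
            exact dvd_sub (dvd_sum fun j _ => (ih _ _).mul_left _)
              ((dvd_sum fun j _ => ih _ _).mul_left _)
          refine h1.dvd_mul_left.1 (e ▸ dvd_add ?_ ?_)
          · rw [pow_succ', mul_assoc]; exact mul_dvd_mul_left _ ((ih _ _).mul_left _)
          · rw [pow_succ]
            exact mul_dvd_mul hxy (h2.dvd_mul_left.1
              ((hb i hi).step j hj ▸ (dvd_mul_right _ _).mul_right _))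
        · rw [(ha i hi).out j hj, (hb i hi).out j hj, sub_self]
          exact dvd_zero _
      have hE : ∀ i, s i ∉ C' → ∀ j, PowerSeries.X ^ (r + 1 + 1) ∣ a i j - b i j := by
        intro i h1
        by_cases hi : s i ∈ C
        · have h3 : ∀ j, j ≠ s i → PowerSeries.X ^ (r + 1 + 1) ∣ a i j - b i j := fun j hj => by
            have e1 := PowerSeries.X_dvd_iff.1 (he i hi h1).1
            have e2 := PowerSeries.X_dvd_iff.1 (he i hi h1).2
            rw [map_sub, sub_eq_zero, hc, if_neg h1] at e1 e2
            have e3 : PowerSeries.constantCoeff (lam j) ≠ m (s i) := by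
              rw [hc]; split_ifs
              exacts [(hm0 _).symm, hm.ne hj]
            exact hoff i j hi (hu (e1 ▸ e3)) (hu (e2 ▸ e3))
          refine vclus_last (ha i hi).sum (hb i hi).sum fun j k hj hk => ?_
          rw [by_contra fun e => hj (h3 j e), by_contra fun e => hk (h3 k e)]
        · intro j
          rw [ho i hi, sub_self]
          exact dvd_zero _
      have hA : ∀ i, s i ∈ C' → (∀ j, PowerSeries.X ^ (r + 1 + 1) ∣ a (i + 1) j - b (i + 1) j) →
          ∀ j, PowerSeries.X ^ (r + 1 + 1) ∣ a i j - b i j := by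
        intro i hi hn
        obtain ⟨⟨η, hη⟩, η', hη', hnd⟩ := hx i hi
        have h4 : ∀ j, j ∉ C' → PowerSeries.X ^ (r + 1 + 1) ∣ a i j - b i j := fun j hj =>
          hoff i j (h hi) (hu (by simpa [hc, hj, hη] using hm0 j))
            (hu (by simpa [hc, hj, hη'] using hm0 j))
        have e : ∀ j ∈ C', (PowerSeries.C (m j) - η') * (a i j - b i j) =
            PowerSeries.C ν * (a (i + 1) j - b (i + 1) j) + (η - η') * a i j := fun j hj => by
          have e1 := (ha i (h hi)).step j (h hj)
          have e2 := (hb i (h hi)).step j (h hj)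
          rw [hl, if_pos hj] at e1 e2
          rw [hη] at e1
          rw [hη'] at e2
          refine mul_left_cancel₀ PowerSeries.X_ne_zero ?_
          linear_combination e2 - e1
        have hS : PowerSeries.X ^ (r + 1 + 1) ∣ ∑ j ∈ C', (a i j - b i j) := by
          have : ∑ j ∈ C', (a i j - b i j) = -∑ j ∈ C'ᶜ, (a i j - b i j) := by
            rw [eq_neg_iff_add_eq_zero, sum_add_sum_compl, sum_sub_distrib, (ha i (h hi)).sum,
              (hb i (h hi)).sum, sub_self]
          rw [this, dvd_neg]
          exact dvd_sum fun j hj => h4 j (mem_compl.1 hj)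
        have hD : IsUnit (∑ j ∈ C', a i j * ∏ k ∈ C'.erase j, (PowerSeries.C (m k) - η')) := by
          refine unit_of_c0 ?_
          convert hnd using 1
          rw [map_sum]
          refine sum_congr rfl fun j _ => ?_
          have := PowerSeries.X_dvd_iff.1 (hw i j)
          rw [map_sub, sub_eq_zero] at this
          simp [this]
        have hθ : PowerSeries.X ^ (r + 1 + 1) ∣ η - η' := by
          refine hD.dvd_mul_left.1 ?_
          have : (∑ j ∈ C', a i j * ∏ k ∈ C'.erase j, (PowerSeries.C (m k) - η')) * (η - η') =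
              (∏ k ∈ C', (PowerSeries.C (m k) - η')) * ∑ j ∈ C', (a i j - b i j) -
              ∑ j ∈ C', (∏ k ∈ C'.erase j, (PowerSeries.C (m k) - η')) * PowerSeries.C ν *
                (a (i + 1) j - b (i + 1) j) := by
            rw [sum_mul, mul_sum, ← sum_sub_distrib]
            refine sum_congr rfl fun j hj => ?_
            rw [← mul_prod_erase _ _ hj]
            linear_combination (-∏ k ∈ C'.erase j, (PowerSeries.C (m k) - η')) * e j hj
          rw [this]
          exact dvd_sub (hS.mul_left _) (dvd_sum fun j _ => (hn j).mul_left _)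
        have h5 : ∀ j, ¬ PowerSeries.X ^ (r + 1 + 1) ∣ a i j - b i j →
            m j = PowerSeries.constantCoeff η' := fun j hj => by
          by_contra hc
          have hj' : j ∈ C' := by_contra fun e => hj (h4 j e)
          have : IsUnit (PowerSeries.C (m j) - η') := unit_of_c0 (by simpa [sub_eq_zero] using hc)
          exact hj (this.dvd_mul_left.1 (e j hj' ▸ dvd_add ((hn j).mul_left _) (hθ.mul_right _)))
        exact vclus_last (ha i (h hi)).sum (hb i (h hi)).sum fun j k hj hk =>
          hm ((h5 j hj).trans (h5 k hk).symm)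
      have hall : ∀ k : ℕ, ∀ i, s (i + k) ∉ C' →
          ∀ j, PowerSeries.X ^ (r + 1 + 1) ∣ a i j - b i j := by
        intro k
        induction k with
        | zero => intro i hi; simp only [Nat.cast_zero, add_zero] at hi; exact hE i hi
        | succ k ihk =>
          intro i hi
          by_cases hc : s i ∈ C'
          · exact hA i hc (ihk (i + 1) (by rwa [Nat.cast_succ, add_comm (k : ℤ), ← add_assoc] at hi))
          · exact hE i hc
      exact fun i => let ⟨k, hk⟩ := hs i; hall k i hk
  exact funext fun i => funext fun j => sub_eq_zero.1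
    (ps_haus _ fun r => (pow_dvd_pow PowerSeries.X r.le_succ).trans (key r i j))

end Pool.Agent.MP_9b2bac_nt.Z
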