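import Mathlib
import Pool.Agent.MP_9b2bac_nt.VExt
import Pool.Agent.MP_9b2bac_nt.VClus1

/- Lifting automorphisms from a smaller cluster. -/

set_option autoImplicit false

namespace Pool.Agent.MP_9b2bac_nt.Z

variable {d : ℕ} {A : Type} [CommRing A] [IsDomain A] {C C' : Finset (Fin d)}

section

variable {k : Type} [Field k]

/-- The roots along the collision of the letters of `C'`. -/
noncomputable def vclusL (C' : Finset (Fin d)) (l : Fin d → k) (j : Fin d) : PowerSeries k :=
  if j ∈ C' then PowerSeries.X * PowerSeries.C (l j) else PowerSeries.C (l j)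

theorem vclus_c {l : Fin d → k} (hl : Function.Injective l) (hl0 : ∀ j, l j ≠ 0) (j i : Fin d) :
    ∃ c : PowerSeries k, j ≠ i → (vclusL C' l j - vclusL C' l i) * c = PowerSeries.X ∧
      PowerSeries.constantCoeff c = if j ∈ C' ∧ i ∈ C' then (l j - l i)⁻¹ else 0 := by
  by_cases h3 : j = i
  · exact ⟨0, fun h => absurd h3 h⟩
  by_cases h1 : j ∈ C' ∧ i ∈ C'
  · refine ⟨PowerSeries.C (l j - l i)⁻¹, fun _ => ⟨?_, by simp [h1]⟩⟩
    rw [vclusL, vclusL, if_pos h1.1, if_pos h1.2, ← mul_sub, ← map_sub, mul_assoc, ← map_mul,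
      mul_inv_cancel₀ (sub_ne_zero.2 (hl.ne h3)), map_one, mul_one]
  have : PowerSeries.constantCoeff (vclusL C' l j - vclusL C' l i) ≠ 0 := by
    unfold vclusL
    split_ifs with e1 e2 e2
    · exact absurd ⟨e1, e2⟩ h1
    · simpa using hl0 i
    · simpa using hl0 j
    · simpa [sub_eq_zero] using hl.ne h3
  refine ⟨PowerSeries.X * (vclusL C' l j - vclusL C' l i)⁻¹, fun _ => ⟨?_, by simp [h1]⟩⟩
  rw [mul_left_comm, PowerSeries.mul_inv_cancel _ this, mul_one]

/-- Specialisation of the generic roots to the collision family. -/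
noncomputable def vclusP (C' : Finset (Fin d)) (e : AA A d →+* k) : AA A d →+* PowerSeries k :=
  MvPolynomial.eval₂Hom (PowerSeries.C.comp (e.comp MvPolynomial.C))
    (vclusL C' fun j => e (MvPolynomial.X j))

omit [IsDomain A] in
theorem vclusP_inj {e : AA A d →+* k} (he : Function.Injective e) :
    Function.Injective (vclusP C' e) := by
  let q : AA A d →+* Polynomial k := MvPolynomial.eval₂Hom
    (Polynomial.C.comp (e.comp MvPolynomial.C))
    fun j => if j ∈ C' then Polynomial.X * Polynomial.C (e (MvPolynomial.X j))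
      else Polynomial.C (e (MvPolynomial.X j))
  have h1 : vclusP C' e = Polynomial.coeToPowerSeries.ringHom.comp q :=
    MvPolynomial.ringHom_ext (fun r => by simp [vclusP, q]) fun j => by
      simp only [vclusP, q, vclusL, MvPolynomial.eval₂Hom_X', RingHom.comp_apply]
      split_ifs
      · rw [map_mul]; simp
      · simp
  have h2 : (Polynomial.evalRingHom 1).comp q = e :=
    MvPolynomial.ringHom_ext (fun r => by simp [q]) fun j => by
      simp only [q, MvPolynomial.eval₂Hom_X', RingHom.comp_apply]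
      split_ifs with h <;> simp
  intro x y h
  rw [h1] at h
  apply he
  have h3 : q x = q y := Polynomial.coe_injective _ h
  rw [← h2, RingHom.comp_apply, RingHom.comp_apply, h3]

open PowerSeries in
theorem vclus_b {K : Type} [Field K] (κ : k⟦X⟧ →+* K) :
    (∀ x, PowerSeries.map κ (swp k (PowerSeries.C (PowerSeries.C x))) =
      PowerSeries.C (κ (PowerSeries.C x))) ∧ PowerSeries.map κ (swp k (PowerSeries.C X)) = X ∧
      PowerSeries.map κ (swp k X) = PowerSeries.C (κ X) :=
  ⟨fun x => by simp [swp_C], by simp [swp_C], by simp [swp_X]⟩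

open PowerSeries in
theorem vclus_core (h : C' ⊆ C) {l : Fin d → k} (hl : Function.Injective l) (hl0 : ∀ j, l j ≠ 0)
    {c : Fin d → Fin d → k⟦X⟧}
    (hc : ∀ j i, j ≠ i → (vclusL C' l j - vclusL C' l i) * c j i = X)
    {w : Seq d → Fin d → k⟦X⟧⟦X⟧} {ξ : Seq d → k⟦X⟧⟦X⟧}
    (nf : NF (fun j i => if j ∈ C ∧ i ∈ C then X * PowerSeries.C (c j i) else 0) w ξ)
    {K : Type} [Field K] (κ : k⟦X⟧ →+* K) (hκ : Function.Injective κ) (g : K →+* K)
    (g1 : ∀ j, g (κ (PowerSeries.C (l j))) = κ (PowerSeries.C (l j))) (g2 : g (κ X) = κ X)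
    {s t : Seq d} (hs : Term C' s) (ha : Adm C' s t)
    (g3 : ∀ i j, g (κ (PowerSeries.map constantCoeff (w (shf s i) j))) =
      κ (PowerSeries.map constantCoeff (w (shf t i) j))) (j : Fin d) :
    PowerSeries.map g (PowerSeries.map κ (swp k (w s j))) = PowerSeries.map κ (swp k (w t j)) := by
  let β : k⟦X⟧⟦X⟧ →+* K⟦X⟧ := (PowerSeries.map κ).comp (swp k)
  let G : K⟦X⟧ →+* K⟦X⟧ := PowerSeries.map g
  let m : Fin d → K := fun j => κ (PowerSeries.C (l j))
  let lam : Fin d → K⟦X⟧ := fun j =>
    if j ∈ C' then X * PowerSeries.C (m j) else PowerSeries.C (m j)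
  have b1 : ∀ j, β (PowerSeries.C (vclusL C' l j)) = lam j := fun j => by
    simp only [vclusL, lam, m]
    split_ifs <;> simp [β, swp_C]
  have b2 : β (PowerSeries.C X * X) = X * PowerSeries.C (κ X) := by simp [β, swp_C, swp_X]
  have b4 : ∀ f, constantCoeff (β f) = κ (PowerSeries.map constantCoeff f) := fun f => by
    rw [← const_swp]; rfl
  have b5 : ∀ f, constantCoeff (G f) = g (constantCoeff f) := fun f => rfl
  have c1 : ∀ j, G (lam j) = lam j := fun j => by
    simp only [lam, m]
    split_ifs <;> simp [G, g1]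
  have c2 : G (X * PowerSeries.C (κ X)) = X * PowerSeries.C (κ X) := by simp [G, g2]
  have hX : (PowerSeries.C X * X : k⟦X⟧⟦X⟧) ≠ 0 :=
    mul_ne_zero ((map_ne_zero_iff _ C_injective).2 X_ne_zero) X_ne_zero
  have clu : Clu C (fun j => PowerSeries.C (vclusL C' l j)) (PowerSeries.C X * X) X
      (fun j i => if j ∈ C ∧ i ∈ C then X * PowerSeries.C (c j i) else 0 :
        Fin d → Fin d → k⟦X⟧⟦X⟧) := by
    refine ⟨fun j i hj hi hji => ?_, fun j i hji => if_neg hji, fun j i _ => ?_, ps_haus,
      fun j i e => ?_, hX⟩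
    · rw [if_pos ⟨hj, hi⟩, mul_left_comm, ← map_sub, ← map_mul, hc j i hji, mul_comm]
    · split_ifs
      exacts [Dvd.intro _ rfl, dvd_zero _]
    · by_contra hji
      have := hc j i hji
      rw [C_injective e, sub_self, zero_mul] at this
      exact X_ne_zero this.symm
  have stp : ∀ (u : Seq d) (i : ℤ), u i ∈ C → Stp C lam (X * PowerSeries.C (κ X))
      (fun j => β (w (shf u (i + 1)) j)) (lam (u i) + X * PowerSeries.C (κ X) * β (ξ (shf u i)))
      (fun j => β (w (shf u i) j)) := fun u i hi => by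
    have := (clu.stp nf (s := shf u i) (by simpa using hi)).map β
    simpa only [sh_shf, shf_apply_zero, map_add, map_mul β _ (ξ _), b1, b2] using this
  have hm : ∀ i, t i ∈ C ↔ s i ∈ C := (ha.mono h).mem_iff
  have := vclus_u (m := m) (lam := lam) (ν := κ X)
    (hκ.comp (C_injective.comp hl)) (fun j => (map_ne_zero_iff _ hκ).2
      ((map_ne_zero_iff _ C_injective).2 (hl0 j))) h (fun _ => rfl)
    (a := fun i j => G (β (w (shf s i) j))) (b := fun i j => β (w (shf t i) j))
    (x := fun i => lam (s i) + X * PowerSeries.C (κ X) * G (β (ξ (shf s i))))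
    (y := fun i => lam (t i) + X * PowerSeries.C (κ X) * β (ξ (shf t i))) hs
    (fun i hi => ?_) (fun i hi => stp t i ((hm i).2 hi)) (fun i hi => ?_) (fun i j => ?_)
    (fun i _ hi => ?_) (fun i hi => ⟨?_, PowerSeries.C (m (t i)) +
      PowerSeries.C (κ X) * β (ξ (shf t i)), ?_, ?_⟩)
  · simpa [G, β] using congrFun (congrFun this 0) j
  · have := (stp s i hi).map G
    simpa only [map_add, map_mul G _ (β _), c1, c2] using this
  · funext j
    have e : t i = s i := (ha i).1 fun e => hi (h e)
    rw [clu.out_val nf (by simpa using hi), clu.out_val nf (by simpa [e] using hi)]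
    simp only [shf_apply_zero, e]
    split_ifs <;> simp
  · rw [X_dvd_iff, map_sub, b5, b4, b4, g3, sub_self]
  · rw [(ha i).1 hi, add_sub_cancel_left, add_sub_cancel_left]
    exact ⟨⟨_, mul_assoc _ _ _⟩, ⟨_, mul_assoc _ _ _⟩⟩
  · simp only [lam, if_pos hi]
    exact dvd_add (Dvd.intro _ rfl) ⟨_, mul_assoc _ _ _⟩
  · simp only [lam, if_pos ((ha.mem_iff i).2 hi)]
    ring
  · have hi' := (ha.mem_iff i).2 hi
    have hD : (∑ j ∈ C', PowerSeries.map constantCoeff (w (shf t i) j) * ∏ k ∈ C'.erase j,
        (PowerSeries.C (l k) - (PowerSeries.C (l (t i)) +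
          X * PowerSeries.map constantCoeff (ξ (shf t i))))) ≠ 0 := by
      intro e
      have e1 := congrArg constantCoeff e
      have e2 : ∀ j, constantCoeff (PowerSeries.map constantCoeff (w (shf t i) j)) =
          if j = t i then (1 : k) else 0 := fun j => by
        have := nf.const clu.dvd (shf t i) j
        change constantCoeff (constantCoeff (w (shf t i) j)) = _
        rw [this, shf_apply_zero]
        split_ifs <;> simp
      simp only [map_sum, map_mul, e2, ite_mul, one_mul, zero_mul, Finset.sum_ite_eq', if_pos hi',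
        map_prod, map_sub, map_add, constantCoeff_C, constantCoeff_X, add_zero, map_zero,
        Finset.prod_eq_zero_iff, sub_eq_zero] at e1
      obtain ⟨j, hj, e3⟩ := e1
      exact Finset.ne_of_mem_erase hj (hl e3)
    have := hκ.ne hD
    simpa [b4, m] using this

end

theorem clus (h : C' ⊆ C) (γ : Gam A d) :
    ∃ (S : Type) (_ : CommRing S) (β β' : RC A C →+* S), Function.Injective β ∧
      Function.Injective β' ∧
      (∀ a, β' (algebraMap (Polynomial (AA A d)) _ a) = β (algebraMap (Polynomial (AA A d)) _ a)) ∧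
      ∀ s t, Term C' s → Act C' γ s t → ∀ j, β' (zC A C s j) = β (zC A C t j) := by
  let k := FractionRing (AA A d)
  let e : AA A d →+* k := algebraMap _ _
  have he : Function.Injective e := IsFractionRing.injective (AA A d) _
  have hl : Function.Injective fun j => e (MvPolynomial.X j) := he.comp MvPolynomial.X_injective
  have hl0 : ∀ j, e (MvPolynomial.X j) ≠ 0 := fun j =>
    (map_ne_zero_iff _ he).2 (MvPolynomial.X_ne_zero j)
  choose c hc using vclus_c (C' := C') hl hl0
  obtain ⟨w, ξ, nf⟩ := exists_NF (fun j i => if j ∈ C ∧ i ∈ C then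
      PowerSeries.X * PowerSeries.C (c j i) else 0) fun _ _ _ => by
    split_ifs
    exacts [Dvd.intro _ rfl, dvd_zero _]
  obtain ⟨α, hα, a1, a2, a3⟩ := exists_alphaC C (vclusP C' e) (vclusP_inj he)
    (fun j i _ _ hji => by simpa [vclusP] using (hc j i hji).1) nf
  have hu : ∀ y : Submonoid.powers (Dl A d), IsUnit (e y) := fun y =>
    ((map_ne_zero_iff _ he).2 (nonZeroDivisors.ne_zero
      (powers_le_nonZeroDivisors_of_noZeroDivisors Dl_ne y.2))).isUnit
  let Φ : BB A d →+* k := IsLocalization.lift hu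
  have hΦ : Function.Injective Φ := (IsLocalization.lift_injective_iff hu).2 fun x y => by
    rw [AB_inj.eq_iff, he.eq_iff]
  have hΦa : ∀ x, Φ (algebraMap _ _ x) = e x := IsLocalization.lift_eq hu
  have hw := (NF.unique PowerSeries.X ps_haus
    (fun j i hji => by simpa using map_dvd (PowerSeries.map Φ) (tC_dvd A C' j i hji))
    ((nf.map (PowerSeries.map PowerSeries.constantCoeff)).congr
      (t' := fun j i => PowerSeries.map Φ (tC A C' j i)) fun j i hji => by
        by_cases h1 : j ∈ C' ∧ i ∈ C'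
        · have h2 := (hc j i hji).2
          rw [if_pos h1] at h2
          rw [if_pos ⟨h h1.1, h h1.2⟩, tC, if_pos h1, t0, map_mul, map_mul, PowerSeries.map_X,
            PowerSeries.map_X, PowerSeries.map_C, PowerSeries.map_C, h2,
            map_inverse_of_unit _ (lB_unit hji), map_sub, lB, lB, hΦa, hΦa, Ring.inverse_eq_inv']
        · have h2 := (hc j i hji).2
          rw [if_neg h1] at h2
          rw [tC, if_neg h1]
          split_ifs <;> simp [h2])
    ((nfC A C').map (PowerSeries.map Φ))).1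
  let K := AlgebraicClosure (FractionRing (PowerSeries k))
  let κ : PowerSeries k →+* K := algebraMap _ _
  have hκ : Function.Injective κ :=
    (algebraMap (FractionRing (PowerSeries k)) K).injective.comp
      (IsFractionRing.injective (PowerSeries k) _)
  have : Algebra.IsAlgebraic (PowerSeries (BB A d)) (Om A d) := by
    have : Algebra.IsAlgebraic (PowerSeries (BB A d)) (FractionRing (PowerSeries (BB A d))) :=
      IsLocalization.isAlgebraic _ (nonZeroDivisors (PowerSeries (BB A d)))
    exact Algebra.IsAlgebraic.trans _ (FractionRing (PowerSeries (BB A d))) _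
  obtain ⟨ψ, hψ⟩ := ZTree.lift_hom (S := Om A d) io_inj (κ.comp (PowerSeries.map Φ))
    (hκ.comp (PowerSeries.map_injective _ hΦ))
  obtain ⟨g, hg⟩ := ZTree.ext_equiv ψ γ.toRingEquiv
  have g0 : ∀ p : Polynomial (AA A d), g (κ (PowerSeries.map Φ (algebraMap _ _ p))) =
      κ (PowerSeries.map Φ (algebraMap _ _ p)) := fun p => by
    have h1 := hψ (algebraMap _ _ p)
    rw [RingHom.comp_apply] at h1
    rw [← h1, hg, ← IsScalarTower.algebraMap_apply]
    exact congrArg ψ (γ.commutes p)
  have g1 : ∀ a, g (κ (PowerSeries.C (e a))) = κ (PowerSeries.C (e a)) := fun a => by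
    simpa only [alg_C, PowerSeries.map_C, hΦa] using g0 (Polynomial.C a)
  have g2 : g (κ PowerSeries.X) = κ PowerSeries.X := by
    simpa only [alg_X, PowerSeries.map_X] using g0 Polynomial.X
  let β : PowerSeries (PowerSeries k) →+* PowerSeries K := (PowerSeries.map κ).comp (swp k)
  let G : PowerSeries K →+* PowerSeries K := PowerSeries.map (g : K →+* K)
  have hβ : Function.Injective β := (PowerSeries.map_injective _ hκ).comp swp_inj
  have c1 : ∀ a, G (β (PowerSeries.C (PowerSeries.C (e a)))) =
      β (PowerSeries.C (PowerSeries.C (e a))) := fun a => by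
    have h1 : β _ = _ := (vclus_b κ).1 (e a)
    rw [h1]
    exact (PowerSeries.map_C _ _).trans (congrArg _ (g1 a))
  have c2 : G (β (PowerSeries.C PowerSeries.X)) = β (PowerSeries.C PowerSeries.X) := by
    have h1 : β _ = _ := (vclus_b κ).2.1
    rw [h1]
    exact PowerSeries.map_X _
  have c3 : G (β PowerSeries.X) = β PowerSeries.X := by
    have h1 : β _ = _ := (vclus_b κ).2.2
    rw [h1]
    exact (PowerSeries.map_C _ _).trans (congrArg _ g2)
  refine ⟨PowerSeries K, inferInstance, β.comp α, (G.comp β).comp α, hβ.comp hα,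
    ((PowerSeries.map_injective (g : K →+* K) g.injective).comp hβ).comp hα, fun x => ?_,
    fun s t hs ha j => ?_⟩
  · have e1 : ((G.comp β).comp PowerSeries.C).comp (vclusP C' e) =
        (β.comp PowerSeries.C).comp (vclusP C' e) :=
      MvPolynomial.ringHom_ext (fun r => by simp [vclusP, c1]) fun j => by
        simp only [vclusP, vclusL, MvPolynomial.eval₂Hom_X', RingHom.comp_apply]
        split_ifs <;> simp only [map_mul, c1, c2]
    have : ((G.comp β).comp α).comp (algebraMap (Polynomial (AA A d)) _) =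
        (β.comp α).comp (algebraMap (Polynomial (AA A d)) _) :=
      Polynomial.ringHom_ext (fun x => by
        simp only [RingHom.comp_apply, a1]; exact DFunLike.congr_fun e1 x)
        (by simp only [RingHom.comp_apply, a2, map_mul, c2, c3])
    exact DFunLike.congr_fun this x
  · simp only [RingHom.comp_apply, a3]
    refine vclus_core h hl hl0 (fun j i hji => (hc j i hji).1) nf κ hκ (g : K →+* K)
      (fun j => g1 _) g2 hs (ha.adm hs) (fun i j => ?_) j
    have e : ∀ u, κ (PowerSeries.map PowerSeries.constantCoeff (w u j)) = ψ (st A C' u j) :=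
      fun u => by rw [congrFun (congrFun hw u) j]; exact (hψ _).symm
    rw [e, e, ← ha i j]
    exact hg _

theorem clus_tree (h : C' ⊆ C) {γ : Gam A d} {s t : Seq d} (hs : Term C s) (ha : Act C' γ s t) :
    ∃ δ : Gam A d, Act C δ s t := by
  obtain ⟨S, _, β, β', hβ, hβ', hb, hz⟩ := clus h γ
  obtain ⟨δ, hδ⟩ := ext_gam (RC A C) β β' hβ hβ' hb
    (fun p : ℤ × Fin d => zC A C (shf s p.1) p.2) (fun p => zC A C (shf t p.1) p.2)
    (fun p => hz _ _ ((hs.mono h).shf p.1) (ha.shf p.1) p.2) fun p => alg_wC (hs.shf p.1) p.2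
  exact ⟨δ, fun i j => hδ (i, j)⟩

theorem clus_per (I : Finset ℕ) (h : C' ≠ Finset.univ) (γ : Gam A d) :
    ∃ g : GG A d I, ∀ w : W d I, Act C' γ w.1 (g • w).1 := by
  obtain ⟨S, _, β, β', hβ, hβ', hb, hz⟩ := clus (C := Finset.univ) (Finset.subset_univ C') γ
  have hT : ∀ w : W d I, Term C' w.1 := fun w => let ⟨_, _, hn⟩ := w.2; hn.term h
  have hp : ∀ w : W d I, ∃ u : W d I, Act C' γ w.1 u.1 := fun w => by
    obtain ⟨t, ht⟩ := exists_actC γ (hT w)
    obtain ⟨n, hI, hn⟩ := w.2
    refine ⟨⟨t, n, hI, hn.1, fun i => ht.eq ht (by rw [shf_per hn]), fun j => ?_⟩, ht⟩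
    obtain ⟨i, rfl⟩ := hn.2.2 j
    by_cases hi : w.1 i ∈ C'
    · obtain ⟨i', -, e, -⟩ := ((ht.adm (hT w) i).2 _).1 (occ_self hi)
      exact ⟨i', e⟩
    · exact ⟨i, (ht.adm (hT w) i).1 hi⟩
  choose p hp using hp
  have hle : RR A d I ≤ RC A Finset.univ := Algebra.adjoin_mono (by
    rintro _ ⟨⟨s, j⟩, rfl⟩
    exact ⟨(s.1, j), by rw [wC_univ]⟩)
  have hz' : ∀ s j, Subalgebra.inclusion hle (zw A s j) = zC A Finset.univ s.1 j := fun s j =>
    Subtype.ext (congrFun (congrFun (wC_univ A) s.1) j).symm
  obtain ⟨g, hg⟩ := aut_of_pair (β.comp (Subalgebra.inclusion hle).toRingHom)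
    (β'.comp (Subalgebra.inclusion hle).toRingHom)
    (hβ.comp (Subalgebra.inclusion_injective hle)) (hβ'.comp (Subalgebra.inclusion_injective hle))
    (fun a => hb a) p fun s j => by
      change β' (Subalgebra.inclusion hle _) = β (Subalgebra.inclusion hle _)
      rw [hz', hz']
      exact hz _ _ (hT s) (hp s) j
  exact ⟨g, fun w => by rw [hg]; exact hp w⟩

end Pool.Agent.MP_9b2bac_nt.Z
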