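import Mathlib
import Pool.Agent.MP_9b2bac_nt.YPois

/- The Poisson law for groups generated by aligned three-cycles. -/

set_option autoImplicit false

namespace Pool.Agent.MP_9b2bac_nt.Z

namespace VPois

open Finset Classical YPair YPois

variable {X K : Type} [Group K] [MulAction K X] {σ : Equiv.Perm X}

/-- three different cycles are rotated by some group element that fixes everything else -/
def E3 (K : Type) [Group K] [MulAction K X] (σ : Equiv.Perm X) (x y z : X) : Prop :=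
  ¬ σ.SameCycle x y ∧ ¬ σ.SameCycle x z ∧ ¬ σ.SameCycle y z ∧ ∃ h : K, h • x = y ∧ h • y = z ∧
    h • z = x ∧ ∀ w, ¬ σ.SameCycle x w → ¬ σ.SameCycle y w → ¬ σ.SameCycle z w → h • w = w

lemma E3.rot {x y z : X} (h : E3 K σ x y z) : E3 K σ y z x := by
  obtain ⟨a, b, c, k, h1, h2, h3, h4⟩ := h
  exact ⟨c, fun e => a e.symm, fun e => b e.symm, k, h2, h3, h1, fun w u v t => h4 w t u v⟩

lemma E3.flip {x y z : X} (h : E3 K σ x y z) : E3 K σ y x z := by
  obtain ⟨a, b, c, k, h1, h2, h3, h4⟩ := h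
  refine ⟨fun e => a e.symm, c, b, k⁻¹, ?_, ?_, ?_, fun w u v t => ?_⟩
  · rw [inv_smul_eq_iff, h1]
  · rw [inv_smul_eq_iff, h3]
  · rw [inv_smul_eq_iff, h2]
  · rw [inv_smul_eq_iff, h4 w v u t]

/-- the same for suitable points of the three cycles -/
def G3 (K : Type) [Group K] [MulAction K X] (σ : Equiv.Perm X) (a b c : X) : Prop :=
  ∃ x y z, σ.SameCycle a x ∧ σ.SameCycle b y ∧ σ.SameCycle c z ∧ E3 K σ x y z

lemma E3.g3 {x y z : X} (h : E3 K σ x y z) : G3 K σ x y z :=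
  ⟨x, y, z, .refl _ _, .refl _ _, .refl _ _, h⟩

lemma G3.rot {a b c : X} (h : G3 K σ a b c) : G3 K σ b c a :=
  let ⟨x, y, z, h1, h2, h3, h4⟩ := h; ⟨y, z, x, h2, h3, h1, h4.rot⟩

lemma G3.flip {a b c : X} (h : G3 K σ a b c) : G3 K σ b a c :=
  let ⟨x, y, z, h1, h2, h3, h4⟩ := h; ⟨y, x, z, h2, h1, h3, h4.flip⟩

lemma G3.congr {a b c a' b' c' : X} (h : G3 K σ a b c) (ha : σ.SameCycle a' a)
    (hb : σ.SameCycle b' b) (hc : σ.SameCycle c' c) : G3 K σ a' b' c' :=
  let ⟨x, y, z, h1, h2, h3, h4⟩ := h; ⟨x, y, z, ha.trans h1, hb.trans h2, hc.trans h3, h4⟩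

lemma G3.ne {a b c : X} (h : G3 K σ a b c) : ¬ σ.SameCycle a b :=
  let ⟨_, _, _, h1, h2, _, h4⟩ := h; fun e => h4.1 ((h1.symm.trans e).trans h2)

/-- two points that are joined by a rotation -/
def R2 (K : Type) [Group K] [MulAction K X] (σ : Equiv.Perm X) (x y : X) : Prop :=
  ∃ z, E3 K σ x y z

lemma R2.symm {x y : X} (h : R2 K σ x y) : R2 K σ y x :=
  let ⟨z, hz⟩ := h; ⟨z, hz.flip⟩

lemma R2.ne {x y : X} (h : R2 K σ x y) : ¬ σ.SameCycle x y :=
  let ⟨_, hz⟩ := h; hz.1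

section

variable (hc : ∀ (k : K) (x : X), k • σ x = σ (k • x))
include hc

lemma E3.shift {x y z : X} (h : E3 K σ x y z) (j : ℤ) :
    E3 K σ ((σ ^ j) x) ((σ ^ j) y) ((σ ^ j) z) := by
  obtain ⟨a, b, c, k, h1, h2, h3, h4⟩ := h
  refine ⟨by simpa using a, by simpa using b, by simpa using c, k, by rw [zk hc, h1],
    by rw [zk hc, h2], by rw [zk hc, h3], fun w u v t => h4 w ?_ ?_ ?_⟩
  · simpa using u
  · simpa using v
  · simpa using t

lemma E3.conj {x y z : X} (h : E3 K σ x y z) (g : K) : E3 K σ (g • x) (g • y) (g • z) := by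
  obtain ⟨a, b, c, k, h1, h2, h3, h4⟩ := h
  refine ⟨by rwa [sk hc], by rwa [sk hc], by rwa [sk hc], g * k * g⁻¹, ?_, ?_, ?_,
    fun w u v t => ?_⟩
  · rw [mul_smul, mul_smul, inv_smul_smul, h1]
  · rw [mul_smul, mul_smul, inv_smul_smul, h2]
  · rw [mul_smul, mul_smul, inv_smul_smul, h3]
  · rw [mul_smul, mul_smul, h4, smul_inv_smul]
    · rwa [← sk hc g, smul_inv_smul]
    · rwa [← sk hc g, smul_inv_smul]
    · rwa [← sk hc g, smul_inv_smul]

lemma G3.conj {a b c : X} (h : G3 K σ a b c) (g : K) : G3 K σ (g • a) (g • b) (g • c) :=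
  let ⟨x, y, z, h1, h2, h3, h4⟩ := h
  ⟨g • x, g • y, g • z, (sk hc g).2 h1, (sk hc g).2 h2, (sk hc g).2 h3, h4.conj hc g⟩

lemma G3.elt {a b c : X} (h : G3 K σ a b c) : ∃ g : K, σ.SameCycle b (g • a) ∧
    σ.SameCycle c (g • b) ∧
    ∀ w, ¬ σ.SameCycle a w → ¬ σ.SameCycle b w → ¬ σ.SameCycle c w → g • w = w := by
  obtain ⟨x, y, z, h1, h2, h3, -, -, -, g, g1, g2, -, g4⟩ := h
  refine ⟨g, h2.trans ?_, h3.trans ?_, fun w u v t =>
    g4 w (fun e => u (h1.trans e)) (fun e => v (h2.trans e)) fun e => t (h3.trans e)⟩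
  · rw [← g1, sk hc]
    exact h1.symm
  · rw [← g2, sk hc]
    exact h2.symm

lemma G3.ruleA {a b c d e : X} (h : G3 K σ a b c) (h' : G3 K σ c d e) (h1 : ¬ σ.SameCycle d a)
    (h2 : ¬ σ.SameCycle d b) (h3 : ¬ σ.SameCycle e a) (h4 : ¬ σ.SameCycle e b) :
    G3 K σ a b d := by
  obtain ⟨g, g1, -, g3⟩ := h'.elt hc
  have := h.conj hc g
  rw [g3 a h.rot.rot.ne h1 h3, g3 b h.rot.flip.ne h2 h4] at this
  exact this.congr (.refl _ _) (.refl _ _) g1

lemma G3.ruleB {a b c d : X} (h : G3 K σ a b c) (h' : G3 K σ c d a) (h2 : ¬ σ.SameCycle d b) :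
    G3 K σ a b d := by
  obtain ⟨g, g1, g2, g3⟩ := h'.flip.rot.elt hc
  have := h.conj hc g
  rw [g3 b h.rot.flip.ne h.ne h2] at this
  exact (this.congr g2 (.refl _ _) g1).flip.rot.rot

lemma R2.shift {x y : X} (h : R2 K σ x y) (j : ℤ) : R2 K σ ((σ ^ j) x) ((σ ^ j) y) :=
  let ⟨_, hz⟩ := h; ⟨_, hz.shift hc j⟩

lemma conn3 {T : Set K} (hsw : ∀ t ∈ T, ∃ x y z : X, ¬ σ.SameCycle x y ∧ ¬ σ.SameCycle x z ∧
      ¬ σ.SameCycle y z ∧ t • x = y ∧ t • y = z ∧ t • z = x ∧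
      ∀ w, ¬ σ.SameCycle x w → ¬ σ.SameCycle y w → ¬ σ.SameCycle z w → t • w = w) {k : K}
    (hk : k ∈ Subgroup.closure T) : ∀ w, Relation.ReflTransGen (R2 K σ) w (k • w) := by
  induction hk using Subgroup.closure_induction with
  | mem t ht =>
    intro w
    obtain ⟨x, y, z, a1, a2, a3, h1, h2, h3, h4⟩ := hsw t ht
    have he : E3 K σ x y z := ⟨a1, a2, a3, t, h1, h2, h3, h4⟩
    by_cases a : σ.SameCycle x w
    · obtain ⟨j, rfl⟩ := a
      rw [zk hc, h1]
      exact .single ⟨_, he.shift hc j⟩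
    by_cases b : σ.SameCycle y w
    · obtain ⟨j, rfl⟩ := b
      rw [zk hc, h2]
      exact .single ⟨_, he.rot.shift hc j⟩
    by_cases c : σ.SameCycle z w
    · obtain ⟨j, rfl⟩ := c
      rw [zk hc, h3]
      exact .single ⟨_, he.rot.rot.shift hc j⟩
    rw [h4 w a b c]
  | one => intro w; rw [one_smul]
  | mul g h _ _ h1 h2 => intro w; rw [mul_smul]; exact (h2 w).trans (h1 _)
  | inv g _ h1 =>
    intro w
    have h2 := h1 (g⁻¹ • w)
    rw [smul_inv_smul] at h2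
    generalize g⁻¹ • w = v at h2
    induction h2 with
    | refl => rfl
    | tail _ h ih => exact .head h.symm ih

lemma step_first {a b r d e : X} (h : G3 K σ a b r) (h' : G3 K σ a d e)
    (h2 : ¬ σ.SameCycle d b) : G3 K σ a b d := by
  by_cases h3 : σ.SameCycle e b
  · exact (h'.congr (.refl _ _) (.refl _ _) h3.symm).flip.rot
  by_cases h4 : σ.SameCycle d r
  · exact h.congr (.refl _ _) (.refl _ _) h4
  by_cases h5 : σ.SameCycle e r
  · exact h.ruleB hc (h'.congr (.refl _ _) (.refl _ _) h5.symm).rot.flip h2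
  · have h6 := h.rot.ruleA hc h' h2 h4 h3 h5
    exact (h.flip.ruleB hc h6.rot h'.flip.ne).flip

lemma any_third (hcon : ∀ x y, Relation.ReflTransGen (R2 K σ) x y) {a b r d : X}
    (h : G3 K σ a b r) (h1 : ¬ σ.SameCycle d a) (h2 : ¬ σ.SameCycle d b) : G3 K σ a b d := by
  have key : ∀ d, Relation.ReflTransGen (R2 K σ) r d →
      σ.SameCycle d a ∨ σ.SameCycle d b ∨ G3 K σ a b d := by
    intro d hd
    induction hd with
    | refl => exact .inr (.inr h)
    | @tail c d _ hcd ih =>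
      obtain ⟨e, he⟩ := hcd
      have h' := he.g3
      by_cases a1 : σ.SameCycle d a
      · exact .inl a1
      by_cases a2 : σ.SameCycle d b
      · exact .inr (.inl a2)
      refine .inr (.inr ?_)
      rcases ih with ih | ih | ih
      · exact step_first hc h (h'.congr ih.symm (.refl _ _) (.refl _ _)) a2
      · exact (step_first hc h.flip (h'.congr ih.symm (.refl _ _) (.refl _ _)) a1).flip
      · by_cases a3 : σ.SameCycle e a
        · exact ih.ruleB hc (h'.congr (.refl _ _) (.refl _ _) a3.symm) a2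
        by_cases a4 : σ.SameCycle e b
        · exact (ih.flip.ruleB hc (h'.congr (.refl _ _) (.refl _ _) a4.symm) a1).flip
        · exact ih.ruleA hc h' a1 a2 a3 a4
  exact ((key d (hcon r d)).resolve_left h1).resolve_left h2

lemma all_G3 (hcon : ∀ x y, Relation.ReflTransGen (R2 K σ) x y) {x y z : X} (h : G3 K σ x y z)
    {a b c : X} (h1 : ¬ σ.SameCycle b a) (h2 : ¬ σ.SameCycle c a) (h3 : ¬ σ.SameCycle c b) :
    G3 K σ a b c := by
  obtain ⟨u, v, h4⟩ : ∃ u v, G3 K σ a u v := by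
    by_cases a1 : σ.SameCycle a x
    · exact ⟨y, z, h.congr a1 (.refl _ _) (.refl _ _)⟩
    by_cases a2 : σ.SameCycle a y
    · exact ⟨z, x, h.rot.congr a2 (.refl _ _) (.refl _ _)⟩
    · exact ⟨x, y, (any_third hc hcon h a1 a2).rot.rot⟩
  by_cases a1 : σ.SameCycle b u
  · exact any_third hc hcon (h4.congr (.refl _ _) a1 (.refl _ _)) h2 h3
  · exact any_third hc hcon (any_third hc hcon h4 h1 a1).flip.rot h2 h3

variable (hG : ∀ a b c : X, ¬ σ.SameCycle b a → ¬ σ.SameCycle c a → ¬ σ.SameCycle c b →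
    G3 K σ a b c)
  (h5 : ∀ a b c d : X, ∃ s, ¬ σ.SameCycle s a ∧ ¬ σ.SameCycle s b ∧ ¬ σ.SameCycle s c ∧
    ¬ σ.SameCycle s d)
include hG h5

lemma R2.free {p q c : X} (h : R2 K σ p q) (h1 : ¬ σ.SameCycle c p) (h2 : ¬ σ.SameCycle c q) :
    ∃ r, σ.SameCycle c r ∧ E3 K σ p q r := by
  obtain ⟨r, hr⟩ := h
  by_cases a : σ.SameCycle c r
  · exact ⟨r, a, hr⟩
  obtain ⟨s, s1, s2, s3, s4⟩ := h5 p q r c
  obtain ⟨g, g1, -, g3⟩ := (hG r c s a s3 s4).elt hc
  have := hr.conj hc g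
  rw [g3 p hr.rot.rot.1 h1 s1, g3 q hr.rot.flip.1 h2 s2] at this
  exact ⟨_, g1, this⟩

lemma R2.trans {x y z : X} (h : R2 K σ x y) (h' : R2 K σ y z) (hxz : ¬ σ.SameCycle x z) :
    R2 K σ x z := by
  obtain ⟨s, s1, s2, s3, -⟩ := h5 x y z z
  obtain ⟨w, w1, -, -, -, g, g1, -, -, g4⟩ := h'.free hc hG h5 s2 s3
  obtain ⟨r, hr⟩ := h
  have := hr.conj hc g
  rw [g1, g4 x hr.flip.1 (fun e => hxz e.symm) fun e => s1 (w1.trans e)] at this
  exact ⟨_, this⟩

lemma exists_R2 {p b : X} (h : ¬ σ.SameCycle b p) : ∃ q, σ.SameCycle b q ∧ R2 K σ p q := by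
  obtain ⟨s, s1, s2, -, -⟩ := h5 p b b b
  obtain ⟨x, y, z, h1, h2, -, h4⟩ := hG p b s h s1 s2
  obtain ⟨j, rfl⟩ := h1.symm
  exact ⟨(σ ^ j) y, by simpa using h2, _, h4.shift hc j⟩

lemma all_R2 (hcon : ∀ x y, Relation.ReflTransGen (R2 K σ) x y) {x y : X}
    (hxy : ¬ σ.SameCycle x y) : R2 K σ x y := by
  have key : ∀ z, Relation.ReflTransGen (R2 K σ) x z → ∃ u, R2 K σ x u ∧ R2 K σ u z := by
    intro z hz
    induction hz with
    | refl =>
      obtain ⟨u, -, hu⟩ := exists_R2 hc hG h5 fun e => hxy e.symm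
      exact ⟨u, hu, hu.symm⟩
    | @tail z z' _ h ih =>
      obtain ⟨u, h1, h2⟩ := ih
      obtain ⟨s, s1, s2, s3, s4⟩ := h5 x u z z'
      obtain ⟨v, v1, v2⟩ := exists_R2 hc hG h5 s1
      exact ⟨v, v2, ((v2.symm.trans hc hG h5 h1 fun e => s2 (v1.trans e)).trans hc hG h5 h2
        fun e => s3 (v1.trans e)).trans hc hG h5 h fun e => s4 (v1.trans e)⟩
  obtain ⟨u, h1, h2⟩ := key y (hcon x y)
  exact h1.trans hc hG h5 h2 hxy

end

lemma trj3 (hc : ∀ (k : K) (x : X), k • σ x = σ (k • x))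
    (hE : ∀ x y c, ¬ σ.SameCycle x y → ¬ σ.SameCycle c x → ¬ σ.SameCycle c y →
      ∃ r, σ.SameCycle c r ∧ E3 K σ x y r) {j r : ℕ} (hj2 : j + 2 < r) {c : Fin r → X}
    (hcs : Sep σ c) {a b : Fin j → X} (ha : Sep σ a) (hb : Sep σ b) : ∃ k : K, k • a = b := by
  have hj : j < r := by omega
  have mv : ∀ (s : Finset (Fin j)) (u v : X), ¬ σ.SameCycle u v →
      (∀ i ∈ s, ¬ σ.SameCycle u (b i)) → (∀ i ∈ s, ¬ σ.SameCycle v (b i)) →
      ∃ h : K, h • u = v ∧ ∀ i ∈ s, h • b i = b i := by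
    intro s u v h1 h2 h3
    obtain ⟨z, hz⟩ := spare hj2 hcs (Fin.cons u (Fin.cons v b : Fin (j + 1) → X))
    obtain ⟨w, w1, -, -, -, h, k1, -, -, k2⟩ := hE u v z h1 (fun e => hz 0 e.symm)
      fun e => hz 1 e.symm
    exact ⟨h, k1, fun i hi => k2 _ (h2 i hi) (h3 i hi) fun e =>
      hz i.succ.succ (w1.trans e).symm⟩
  have key : ∀ s : Finset (Fin j), ∃ k : K, ∀ i ∈ s, k • a i = b i := by
    intro s
    induction s using Finset.induction_on with
    | empty => exact ⟨1, by simp⟩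
    | insert i₀ s hi ih =>
      obtain ⟨g, hg⟩ := ih
      have hu : ∀ i ∈ s, ¬ σ.SameCycle (g • a i₀) (b i) := fun i h e => by
        rw [← hg i h, sk hc] at e
        exact hi (ha _ _ e ▸ h)
      have hv : ∀ i ∈ s, ¬ σ.SameCycle (b i₀) (b i) := fun i h e => hi (hb _ _ e ▸ h)
      obtain ⟨h, h1, h2⟩ : ∃ h : K, h • g • a i₀ = b i₀ ∧ ∀ i ∈ s, h • b i = b i := by
        by_cases e : σ.SameCycle (g • a i₀) (b i₀)
        · obtain ⟨z, hz⟩ := spare hj hcs b
          obtain ⟨h, h1, h2⟩ := mv s _ z (fun e' => hz i₀ (e.symm.trans e')) hu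
            fun i _ e' => hz i e'.symm
          obtain ⟨h', h3, h4⟩ := mv s z (b i₀) (fun e' => hz i₀ e'.symm)
            (fun i _ e' => hz i e'.symm) hv
          exact ⟨h' * h, by rw [mul_smul, h1, h3], fun i hi => by rw [mul_smul, h2 i hi, h4 i hi]⟩
        · exact mv s _ _ e hu hv
      refine ⟨h * g, fun i hi' => ?_⟩
      rcases mem_insert.1 hi' with rfl | hi'
      · rw [mul_smul, h1]
      · rw [mul_smul, hg i hi', h2 i hi']
  obtain ⟨k, hk⟩ := key univ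
  exact ⟨k, funext fun i => hk i (mem_univ _)⟩

theorem pois' (n : ℕ) (hn : 0 < n) (X : Type) [Finite X] (K : Type) [Group K] [Finite K]
    [MulAction K X] (σ : Equiv.Perm X)
    (hσ : ∀ (x : X) (k : ℤ), (σ ^ k) x = x ↔ (n : ℤ) ∣ k)
    (hc : ∀ (k : K) (x : X), k • σ x = σ (k • x)) (k J : ℕ) (hJ : 2 ≤ J)
    (htj : ∀ j, j ≤ k + J → ∀ a b : Fin j → X, Sep σ a → Sep σ b → ∃ g : K, g • a = b)
    (hr : ∃ c : Fin (k + J + 1) → X, ∀ i j, σ.SameCycle (c i) (c j) → i = j)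
    (F : Equiv.Perm X) (hF : ∀ x, F (σ x) = σ (F x)) :
    |({g : K | {x | g • F x = σ x}.ncard = n * k}.ncard : ℝ) -
        Real.exp (-1 / n) / (n ^ k * k.factorial) * Nat.card K| ≤
      3 / (n ^ (k + J) * k.factorial * J.factorial) * Nat.card K := by
  classical
  let _ := Fintype.ofFinite X
  let _ := Fintype.ofFinite K
  obtain ⟨c, hcs⟩ := hr
  let A : K → Finset X := fun g => univ.filter fun z => g • F z = σ z
  have hA : ∀ g, ∀ x ∈ A g, ∀ y, σ.SameCycle x y → y ∈ A g := by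
    rintro g w hw _ ⟨j, rfl⟩
    simp only [A, mem_filter, mem_univ, true_and] at hw ⊢
    rw [zp hF, zk hc, hw, zp (P := σ) fun _ => rfl]
  choose m hm using fun g => card_dvd hn hσ _ (A g) rfl (hA g)
  have hn' : (0 : ℝ) < n := by exact_mod_cast hn
  have mom : ∀ j, j ≤ k + J → ∑ g, ((m g).choose j : ℝ) =
      Fintype.card K / (n ^ j * j.factorial) := by
    intro j hj
    let Y : Finset (Fin j → X) := univ.filter fun a => Sep σ a
    have hY : ∀ a, a ∈ Y ↔ Sep σ a := fun a => by simp [Y]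
    have h1 : ∑ g : K, (Y.filter fun a => g • (F ∘ a) = σ ∘ a).card = Fintype.card K := by
      convert cnt (K := K) Y ⟨fun i => c (i.castLE (hj.trans (Nat.le_succ _))), (hY _).2 fun i i' e =>
          Fin.castLE_injective (hj.trans (Nat.le_succ _)) (hcs _ _ e)⟩
        (fun g a ha => (hY _).2 fun i i' e => (hY _).1 ha i i' ((sk hc g).1 e))
        (fun a ha b hb => htj j hj a b ((hY _).1 ha) ((hY _).1 hb))
        (f := fun a => F ∘ a) (g := fun a => σ ∘ a)
        (fun a ha => (hY _).2 fun i i' e => (hY _).1 ha i i' ((sc hF).1 e))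
        fun a ha => (hY _).2 fun i i' e => (hY _).1 ha i i' ((sc fun _ => rfl).1 e)
    have h2 : ∀ g : K, (Y.filter fun a => g • (F ∘ a) = σ ∘ a).card =
        n ^ j * j.factorial * (m g).choose j := by
      intro g
      rw [mul_assoc, ← Nat.descFactorial_eq_factorial_mul_choose,
        ← card_tup hn hσ j (m g) (A g) (hm g) (hA g)]
      congr 1
      ext a
      simp [Y, A, funext_iff]
    rw [eq_div_iff (by positivity), ← h1, sum_congr rfl fun g _ => h2 g, ← mul_sum]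
    push_cast
    ring
  have mom' : ∀ i, i ≤ J → ∑ g, (((k + i).choose k * (m g).choose (k + i) : ℕ) : ℝ) =
      Fintype.card K / (n ^ (k + i) * k.factorial * i.factorial) := by
    intro i hi
    push_cast
    have h1 : ((k + i).factorial : ℝ) = (k + i).choose k * i.factorial * k.factorial := by
      rw [add_comm k i]
      exact_mod_cast (Nat.add_choose_mul_factorial_mul_factorial i k).symm
    have h2 : (0 : ℝ) < (k + i).choose k := by
      exact_mod_cast Nat.choose_pos (Nat.le_add_right k i)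
    rw [← mul_sum, mom _ (by omega), h1]
    field_simp
  have hN : ({g : K | {x | g • F x = σ x}.ncard = n * k}.ncard : ℝ) =
      ∑ g, if m g = k then (1 : ℝ) else 0 := by
    rw [sum_boole, ← Set.ncard_coe_finset]
    congr 2
    ext g
    have : {x | g • F x = σ x} = (A g : Set X) := by
      ext x
      simp [A]
    simp [this, hm g, hn.ne']
  have hb : |(∑ g, if m g = k then (1 : ℝ) else 0) -
      (∑ i ∈ range J, (-1 / n : ℝ) ^ i / i.factorial) / (n ^ k * k.factorial) * Fintype.card K| ≤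
      Fintype.card K / (n ^ (k + J) * k.factorial * J.factorial) := by
    have e : (∑ i ∈ range J, (-1 / n : ℝ) ^ i / i.factorial) / (n ^ k * k.factorial) *
        Fintype.card K = ∑ g, ∑ i ∈ range J,
          (-1 : ℝ) ^ i * ((k + i).choose k * (m g).choose (k + i) : ℕ) := by
      rw [sum_comm, sum_div, sum_mul]
      refine sum_congr rfl fun i hi => ?_
      rw [← mul_sum, mom' i (mem_range.1 hi).le, div_pow, pow_add]
      field_simp
    rw [e, ← sum_sub_distrib, ← mom' J le_rfl]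
    exact (abs_sum_le_sum_abs _ _).trans (sum_le_sum fun g _ => bonf _ _ _ (by omega))
  have he : |Real.exp (-1 / n) - ∑ i ∈ range J, (-1 / n : ℝ) ^ i / i.factorial| ≤
      2 / (n ^ J * J.factorial) := by
    have h1 : |(-1 / n : ℝ)| = 1 / n := by
      rw [abs_div, abs_neg, abs_one, abs_of_pos hn']
    have h2 : (1 : ℝ) ≤ n := by exact_mod_cast hn
    have h4 : (1 : ℝ) ≤ J := by exact_mod_cast (by omega : 1 ≤ J)
    refine (Real.exp_bound (by rw [h1, div_le_one hn']; exact h2) (by omega : 0 < J)).trans ?_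
    rw [h1, div_pow, one_pow, div_mul_div_comm, one_mul, ← mul_assoc,
      div_le_div_iff₀ (by positivity) (by positivity)]
    push_cast
    have : (0 : ℝ) < n ^ J * J.factorial := by positivity
    nlinarith
  rw [hN, Nat.card_eq_fintype_card]
  set S := ∑ i ∈ range J, (-1 / n : ℝ) ^ i / i.factorial
  set N := ∑ g, if m g = k then (1 : ℝ) else 0
  have h5 : |S / (n ^ k * k.factorial) * Fintype.card K -
      Real.exp (-1 / n) / (n ^ k * k.factorial) * Fintype.card K| ≤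
      2 * (Fintype.card K / (n ^ (k + J) * k.factorial * J.factorial)) := by
    rw [← sub_mul, ← sub_div, abs_mul, abs_div, abs_sub_comm, Nat.abs_cast,
      abs_of_pos (by positivity : (0 : ℝ) < n ^ k * k.factorial)]
    calc _ ≤ 2 / (n ^ J * J.factorial) / (n ^ k * k.factorial) * (Fintype.card K : ℝ) := by gcongr
      _ = _ := by
        rw [pow_add]
        field_simp
  refine (abs_sub_le _ _ _).trans ((add_le_add hb h5).trans_eq ?_)
  ring

end VPois

open YPair YPois VPois in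
theorem pois3 (n : ℕ) (hn : 0 < n) {G X : Type} [Group G] [Finite G] [Finite X] [MulAction G X]
    (σ : Equiv.Perm X) (hσ : ∀ (x : X) (k : ℤ), (σ ^ k) x = x ↔ (n : ℤ) ∣ k)
    (hc : ∀ (g : G) (x : X), g • σ x = σ (g • x)) (K : Subgroup G) (hK : K.Normal) (t : G)
    (ht : t ∈ K) (htr : ∀ x y : X, ∃ k ∈ Subgroup.normalClosure ({t} : Set G), k • x = y)
    (hsw : ∃ x y z : X, ¬ σ.SameCycle x y ∧ ¬ σ.SameCycle x z ∧ ¬ σ.SameCycle y z ∧
      t • x = y ∧ t • y = z ∧ t • z = x ∧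
      ∀ w, ¬ σ.SameCycle x w → ¬ σ.SameCycle y w → ¬ σ.SameCycle z w → t • w = w)
    (k J : ℕ) (hJ : 2 ≤ J)
    (hr : ∃ c : Fin (k + J + 3) → X, ∀ i j, σ.SameCycle (c i) (c j) → i = j)
    (F : Equiv.Perm X) (hF : ∀ x, F (σ x) = σ (F x)) :
    |({g : K | {x | g • F x = σ x}.ncard = n * k}.ncard : ℝ) -
        Real.exp (-1 / n) / (n ^ k * k.factorial) * Nat.card K| ≤
      3 / (n ^ (k + J) * k.factorial * J.factorial) * Nat.card K := by
  let T : Set K := {k | ∃ g : G, (k : G) = g * t * g⁻¹}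
  have hNT : Subgroup.normalClosure ({t} : Set G) ≤ (Subgroup.closure T).map K.subtype := by
    refine (Subgroup.closure_le _).2 fun a ha => ?_
    obtain ⟨b, hb, hab⟩ := Group.mem_conjugatesOfSet_iff.1 ha
    obtain rfl : b = t := hb
    obtain ⟨g, rfl⟩ := isConj_iff.1 hab
    exact ⟨⟨_, hK.conj_mem _ ht g⟩, Subgroup.subset_closure ⟨g, rfl⟩, rfl⟩
  have hc' : ∀ (g : K) (x : X), g • σ x = σ (g • x) := fun g x => hc g x
  obtain ⟨x, y, z, a1, a2, a3, h1, h2, h3, h4⟩ := hsw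
  have hcon : ∀ x y, Relation.ReflTransGen (R2 K σ) x y := by
    intro u v
    obtain ⟨k, hk, rfl⟩ := htr u v
    obtain ⟨k', hk', rfl⟩ := hNT hk
    refine conn3 hc' (T := T) ?_ hk' u
    rintro s ⟨g, hg⟩
    have e : ∀ w : X, s • w = g • t • g⁻¹ • w := fun w => by
      rw [Subgroup.smul_def, hg, mul_smul, mul_smul]
    refine ⟨g • x, g • y, g • z, by rwa [sk hc], by rwa [sk hc], by rwa [sk hc], ?_, ?_, ?_,
      fun w a b c => ?_⟩
    · rw [e, inv_smul_smul, h1]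
    · rw [e, inv_smul_smul, h2]
    · rw [e, inv_smul_smul, h3]
    · rw [e, h4, smul_inv_smul]
      · rwa [← sk hc g, smul_inv_smul]
      · rwa [← sk hc g, smul_inv_smul]
      · rwa [← sk hc g, smul_inv_smul]
  have h0 : E3 K σ x y z := ⟨a1, a2, a3, ⟨t, ht⟩, h1, h2, h3, h4⟩
  obtain ⟨c, hcs⟩ := hr
  have hG : ∀ a b c : X, ¬ σ.SameCycle b a → ¬ σ.SameCycle c a → ¬ σ.SameCycle c b →
      G3 K σ a b c := fun a b c => all_G3 hc' hcon h0.g3
  have h5 : ∀ a b c d : X, ∃ s, ¬ σ.SameCycle s a ∧ ¬ σ.SameCycle s b ∧ ¬ σ.SameCycle s c ∧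
      ¬ σ.SameCycle s d := fun a b c' d => by
    obtain ⟨s, hs⟩ := spare (j := 4) (by omega) hcs ![a, b, c', d]
    exact ⟨s, fun e => hs 0 e.symm, fun e => hs 1 e.symm, fun e => hs 2 e.symm,
      fun e => hs 3 e.symm⟩
  refine pois' n hn X K σ hσ hc' k J hJ (fun j hj a b ha hb => trj3 hc'
    (fun u v w huv => (all_R2 hc' hG h5 hcon huv).free hc' hG h5) (by omega) hcs ha hb)
    ⟨fun i => c (i.castLE (by omega)), fun i j e => Fin.castLE_injective (by omega) (hcs _ _ e)⟩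
    F hF

end Pool.Agent.MP_9b2bac_nt.Z
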