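import Mathlib
import Pool.Agent.MP_9b2bac_nt.VCan
import Pool.Agent.MP_9b2bac_nt.VIso
import Pool.Agent.MP_9b2bac_nt.VPois
import Pool.Agent.MP_9b2bac_nt.TDefs
import Pool.Agent.MP_9b2bac_nt.TPuz
import Pool.Agent.MP_9b2bac_nt.TMany
import Pool.Agent.MP_9b2bac_nt.YGrpP

/- The Poisson law in the group. -/

set_option autoImplicit false

namespace Pool.Agent.MP_9b2bac_nt.Z

variable {d : ℕ}

namespace VGrpX

open ZGiant YGrpX

/-- Letter values: a run of `m` letters `1` inserted at slot `p` of `0 ... 0 2 3 ... (d-1)`. -/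
def Fm (d n p m a : ℕ) : ℕ :=
  if p ≤ a ∧ a < p + m then 1 else
    if a < p then (if n + 2 ≤ a + m + d then a + m + d - n else 0)
    else (if n + 2 ≤ a + d then a + d - n else 0)

theorem Fm_spec (d n p m a : ℕ) :
    (p ≤ a ∧ a < p + m ∧ Fm d n p m a = 1) ∨
    (a < p ∧ n + 2 ≤ a + m + d ∧ Fm d n p m a + n = a + m + d) ∨
    (a < p ∧ a + m + d < n + 2 ∧ Fm d n p m a = 0) ∨
    (p + m ≤ a ∧ n + 2 ≤ a + d ∧ Fm d n p m a + n = a + d) ∨
    (p + m ≤ a ∧ a + d < n + 2 ∧ Fm d n p m a = 0) := by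
  unfold Fm
  split_ifs <;> omega

variable [NeZero d] {n p m : ℕ}

theorem wd_val (hd : 3 ≤ d) (hp : p + m < n) (i : ℤ) :
    (wd d n (Fm d n p m) i).val = Fm d n p m (i % n).toNat := by
  have h := toNat_lt (n := n) (by omega) i
  have := Fm_spec d n p m (i % n).toNat
  exact Nat.mod_eq_of_lt (by omega)

theorem wd_nat (hd : 3 ≤ d) (hp : p + m < n) {a : ℕ} (ha : a < n) :
    (wd d n (Fm d n p m) a).val = Fm d n p m a := by
  rw [wd_val hd hp, small (a : ℤ) (by omega) (by omega), Int.toNat_natCast]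

theorem wd_top (hd : 3 ≤ d) (hp : p + m < n) (i : ℤ) :
    (wd d n (Fm d n p m) i).val = d - 1 ↔ i % n = n - 1 := by
  have h := toNat_lt (n := n) (by omega) i
  have h0 := Int.emod_nonneg i (b := n) (by omega)
  have := Fm_spec d n p m (i % n).toNat
  rw [wd_val hd hp]
  omega

theorem wd_prim (hd : 3 ≤ d) (hn : d + 3 ≤ n) (hp : p + m < n) (hm : 1 ≤ m) (hm4 : m ≤ 4) :
    Prim n (wd d n (Fm d n p m)) := by
  have h2 : (wd d n (Fm d n p m) (n - 1)).val = d - 1 :=
    (wd_top hd hp _).2 (small _ (by omega) (by omega))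
  refine ⟨⟨by omega, fun i => by simp [wd], fun c => ?_⟩, fun l hl h => ?_⟩
  · have hc := c.2
    have key : ∃ a, a < n ∧ Fm d n p m a = c := by
      by_cases h1 : c.val = 1
      · have := Fm_spec d n p m p
        exact ⟨p, by omega, by omega⟩
      by_cases h0 : c.val = 0
      · by_cases hp0 : p = 0
        · have := Fm_spec d n p m m
          exact ⟨m, by omega, by omega⟩
        · have := Fm_spec d n p m 0
          exact ⟨0, by omega, by omega⟩
      by_cases hx : n + c - d < p + m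
      · have := Fm_spec d n p m (n + c - d - m)
        exact ⟨n + c - d - m, by omega, by omega⟩
      · have := Fm_spec d n p m (n + c - d)
        exact ⟨n + c - d, by omega, by omega⟩
    obtain ⟨a, ha, e⟩ := key
    exact ⟨a, Fin.ext ((wd_nat hd hp ha).trans e)⟩
  · have h0 := h.1
    have e := h.2.1 (n - 1 - l)
    rw [sub_add_cancel] at e
    have := (wd_top hd hp _).1 (e ▸ h2)
    rw [small _ (by omega) (by omega)] at this
    omega

theorem wd_inj {p' m' : ℕ} (hd : 3 ≤ d) (hp : p + m < n) (hm : 1 ≤ m) (hp' : p' + m' < n)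
    (hm' : 1 ≤ m') (k : ℤ) (h : shf (wd d n (Fm d n p m)) k = wd d n (Fm d n p' m')) :
    p = p' ∧ m = m' := by
  have e := congrArg Fin.val (congrFun h (n - 1))
  rw [(wd_top hd hp' _).2 (small _ (by omega) (by omega))] at e
  have e1 := (wd_top hd hp _).1 e
  rw [add_comm] at e1
  have a := addmod (n := n) (by omega) k (n - 1) (by omega) (by omega)
  have e2 : k % n = 0 := by omega
  have e3 : ∀ a : ℕ, a < n → Fm d n p m a = Fm d n p' m' a := fun a ha => by
    rw [← wd_nat hd hp ha, ← wd_nat hd hp' ha, ← h]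
    simp only [shf, wd]
    rw [Int.add_emod (a : ℤ) k, e2, add_zero, Int.emod_emod_of_dvd _ dvd_rfl]
  have e4 : ∀ a : ℕ, a < n → ((p ≤ a ∧ a < p + m) ↔ (p' ≤ a ∧ a < p' + m')) := fun a ha => by
    have := e3 a ha
    have := Fm_spec d n p m a
    have := Fm_spec d n p' m' a
    omega
  have := e4 p (by omega)
  have := e4 p' (by omega)
  have := e4 (p + m) hp
  have := e4 (p' + m') hp'
  omega

end VGrpX

theorem many (hd : 3 ≤ d) {n : ℕ} (hn : d + 3 ≤ n) (h8 : 8 ≤ n) :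
    ∃ c : Fin (2 * n + 3) → Seq d, (∀ i, Prim n (c i)) ∧ ∀ i j k, shf (c i) k = c j → i = j := by
  have : NeZero d := ⟨by omega⟩
  have hb : ∀ l : Fin (2 * n + 3), l.val / 4 + (l.val % 4 + 1) < n := fun l => by omega
  refine ⟨fun l => ZGiant.wd d n (VGrpX.Fm d n (l.val / 4) (l.val % 4 + 1)),
    fun l => VGrpX.wd_prim hd hn (hb l) (by omega) (by omega), fun i j k h => ?_⟩
  have := VGrpX.wd_inj hd (hb i) (by omega) (hb j) (by omega) k h
  omega

theorem manyF (hd : 3 ≤ d) {n : ℕ} (hn : d < n) (h8 : 8 ≤ n) :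
    ∃ c : Fin (2 * n + 3) → Seq d, (∀ i, Prim n (c i)) ∧ ∀ i j k, shf (c i) k = c j → i = j := by
  by_cases h : d + 3 ≤ n
  exacts [many hd h h8, manyE (by omega) hn (by omega)]

theorem transE [NeZero d] (hd : 3 ≤ d) {n : ℕ} (hn : d < n) (h8 : 8 ≤ n) (O : Set (Seq d))
    (hmk : ∀ u v j s, u ≠ v → 1 ≤ j → Prim n s → Prim n (mk u v j s) ∧ (s ∈ O ↔ mk u v j s ∈ O))
    (hR : ∀ o : Fin d, (∃ z ∈ O, Prim n z ∧ ∀ t, Adm (Finset.univ.erase o) z t → t = z) →
      ∀ C, o ∉ C → MvO n O C)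
    (h0 : zd d n ∈ O) {s : Seq d} (hs : Prim n s) : s ∈ O := by
  by_cases h : d + 3 ≤ n
  · exact transD hd h O hmk hR h0 hs
  obtain ⟨h1, h2⟩ := all_canE (by omega) hn (by omega) O hmk hR h0
  by_cases h' : d + 2 ≤ n
  · obtain ⟨t, c, p, -, hc, e⟩ := to_can hd h' O hmk h1 hs
    exact e.2 (h2 t c p hc)
  obtain ⟨c, p, a1, a2, a3⟩ := head_exists hd hn hs
  have a4 : s (p + d) = c := by
    rw [← a1, ← hs.1.2.1 (p - 1)]; congr 1; omega
  refine h2 s c p ⟨hs.1, a2, fun y hy => ?_, fun k b1 b2 => by rwa [show k = d by omega]⟩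
  obtain ⟨i, b1, b2, b3⟩ := a3 y hy
  have b4 : i < p + d := by
    by_contra b
    simpa [a4] using b3 (p + d) (by omega) (by omega)
  exact ⟨(i - p).toNat, by omega, by omega, by rw [← b2]; congr 1; omega⟩

namespace VGrpX

open YGrpX

theorem prim_mapD {I : Finset ℕ} {n : ℕ} (P : Equiv.Perm (W d I))
    (hP : ∀ w, P (shW d I w) = shW d I (P w)) (w : W d I) : Prim n (P w).1 ↔ Prim n w.1 := by
  have h : ∀ m, Per m (P w).1 ↔ Per m w.1 := fun m => ⟨fun h => by
    have := ZGrp.per_map P.symm (fun x => by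
      rw [Equiv.symm_apply_eq, hP, Equiv.apply_symm_apply]) h
    rwa [Equiv.symm_apply_apply] at this, ZGrp.per_map P hP⟩
  simp only [Prim, h]

theorem ad_val [NeZero d] (hd : 3 ≤ d) {n : ℕ} (y : Fin d) (i : ℤ) (h0 : 0 < i)
    (h1 : i < n) : ((ad d n y i).val : ℤ) = if i < d - 1 then i + 1 else if i = d - 1 then 1 else 0 := by
  unfold ad zd
  rw [small i h0.le h1, if_neg h0.ne']
  have e : ((d - 1 : ℕ) : ℤ) = d - 1 := by omega
  rw [e]
  by_cases h2 : i < d - 1
  · rw [if_neg h2.ne, if_pos h2, ZSweep.L_val (m := d - 1) (by omega) (by omega)]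
    omega
  · rw [if_neg h2]
    split_ifs with h3
    · rw [ZSweep.L_val (m := d - 1) (by omega) (by omega)]
      rfl
    · rw [min_eq_right (by omega), ZSweep.L_top (m := d - 1) (by omega)]
      rfl

theorem ad_zero [NeZero d] (n : ℕ) (y : Fin d) : ad d n y 0 = y := by simp [ad]

theorem ad_mem [NeZero d] (hd : 3 ≤ d) {n : ℕ} (hn : d < n) {y : Fin d} (hy : y ≠ 0) (i : ℤ)
    (h0 : 0 ≤ i) (h1 : i < n) : ad d n y i ∈ Finset.univ.erase 0 ↔ i < d := by
  rw [Finset.mem_erase, and_iff_left (Finset.mem_univ _)]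
  rcases h0.eq_or_lt with rfl | h0
  · rw [ad_zero]
    exact ⟨fun _ => by omega, fun _ => hy⟩
  · have := ad_val hd y i h0 h1
    rw [Ne, Fin.ext_iff, Fin.val_zero]
    split_ifs at this <;> omega

theorem ad_occ [NeZero d] (hd : 3 ≤ d) {n : ℕ} (hn : d < n) {y : Fin d} (hy : y ≠ 0) {c : Fin d}
    (hc : c ≠ 0) : Occ (Finset.univ.erase 0) (ad d n y) (0 + 1) c := by
  have h1 := c.2
  have h2 : c.val ≠ 0 := fun h => hc (Fin.ext h)
  by_cases h : c.val = 1
  · refine ⟨d - 1, by omega, Fin.ext ?_, fun k a b =>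
      (ad_mem hd hn hy k (by omega) (by omega)).2 (by omega)⟩
    have := ad_val hd (n := n) y (d - 1) (by omega) (by omega)
    split_ifs at this <;> omega
  · refine ⟨c - 1, by omega, Fin.ext ?_, fun k a b =>
      (ad_mem hd hn hy k (by omega) (by omega)).2 (by omega)⟩
    have := ad_val hd (n := n) y (c - 1) (by omega) (by omega)
    split_ifs at this <;> omega

theorem eq_ad [NeZero d] (hd : 3 ≤ d) {n : ℕ} (hn : d < n) {y c : Fin d} (hy : y ≠ 0) (hc : c ≠ 0)
    {t : Seq d} (ht : Per n t) (h1 : Adm (Finset.univ.erase 0) (ad d n y) t) (h2 : t 0 = c)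
    (h3 : Kp (Finset.univ.erase 0) (ad d n y) t 0) : t = ad d n c := by
  funext i
  have hn' : (0 : ℤ) < n := by omega
  have a0 := Int.emod_nonneg i hn'.ne'
  have a1 := Int.emod_lt_of_pos i hn'
  rw [← ht.emod, ← (ad_prim hd hn hc).1.emod i]
  generalize i % n = x at a0 a1
  rcases a0.eq_or_lt with rfl | a0
  · rw [h2, ad_zero]
  · have e : ad d n y x = ad d n c x := Fin.ext (by
      have := ad_val hd y x a0 a1
      have := ad_val hd c x a0 a1
      omega)
    rw [← e]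
    by_cases h : x < d
    · exact h3 x a0 fun k a b => (ad_mem hd hn hy k a (by omega)).2 (by omega)
    · exact (h1 x).1 fun a => h ((ad_mem hd hn hy x a0.le a1).1 a)

theorem stepD (hd : 3 ≤ d) {I : Finset ℕ} {n : ℕ} (hn : 8 ≤ n) (hdn : d < n) (hI : n ∈ I)
    (q : ℕ) (hq : q ≤ n) (G : Type) [Group G] [Finite G]
    [MulAction G (W d I)] (hsh : ∀ (g : G) (w : W d I), g • shW d I w = shW d I (g • w))
    (hmk : ∀ (u v : Fin d) (j : ℕ), u ≠ v → 1 ≤ j → ∃ g : G, ∀ w : W d I, (g • w).1 = mk u v j w.1)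
    (hmv : MvG (d := d) I G)
    (F : Equiv.Perm (W d I)) (hF : ∀ w, F (shW d I w) = shW d I (F w)) :
    |({k : lowD (d := d) I G n |
        {w : W d I | Prim n w.1 ∧ (k : G) • F w = shW d I w}.ncard = n * q}.ncard
        : ℝ) - Real.exp (-1 / n) / (n ^ q * q.factorial) * Nat.card (lowD (d := d) I G n)| ≤
      3 / (n ^ (q + n) * q.factorial * n.factorial) * Nat.card (lowD (d := d) I G n) := by
  have : NeZero d := ⟨by omega⟩
  have hper : ∀ {m : ℕ} (g : G) {w : W d I}, Per m w.1 → Per m (g • w).1 := fun g w hw =>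
    ZGrp.per_map (fun w => g • w) (hsh g) hw
  have hpr : ∀ (g : G) (w : W d I), Prim n w.1 → Prim n (g • w).1 := fun g w hw =>
    (prim_mapD (MulAction.toPerm g) (hsh g) w).2 hw
  let X : SubMulAction G (W d I) := ⟨{w | Prim n w.1}, fun g w hw => hpr g w hw⟩
  let σ : Equiv.Perm X := (shW d I).subtypePerm fun w => prim_mapD (shW d I) (fun _ => rfl) w
  let F' : Equiv.Perm X := F.subtypePerm fun w => prim_mapD F hF w
  have hv : ∀ (k : ℤ) (x : X) (i : ℤ), ((σ ^ k) x).1.1 i = x.1.1 (i + k) :=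
    zpow_val (fun x : X => x.1.1) σ fun _ _ => rfl
  have hv' : ∀ (k : ℤ) (x : X), ((σ ^ k) x).1.1 = shf x.1.1 k := fun k x => funext (hv k x)
  have hK : (lowD (d := d) I G n).Normal := ⟨fun k hk g m hm w hw => by
    rw [mul_smul, mul_smul, hk m hm _ (hper _ hw), smul_inv_smul]⟩
  obtain ⟨t, htK, y, y', hy, hy', hyy, ht⟩ := iso hd hdn hI G hsh hmk hmv
  let z : X := ⟨⟨zd d n, n, hI, (zd_prim hd hdn).1⟩, zd_prim hd hdn⟩
  let a : ∀ c : Fin d, c ≠ 0 → X := fun c hc =>
    ⟨⟨ad d n c, n, hI, (ad_prim hd hdn hc).1⟩, ad_prim hd hdn hc⟩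
  have e1 : t • z = a y hy := Subtype.ext (Subtype.ext ((ht z.1 z.2.1).1 rfl))
  have e2 : t • a y hy = a y' hy' := Subtype.ext (Subtype.ext ((ht _ (a y hy).2.1).2.1 rfl))
  have e3 : t • a y' hy' = z := Subtype.ext (Subtype.ext ((ht _ (a y' hy').2.1).2.2.1 rfl))
  have nz : ∀ c hc, ¬σ.SameCycle z (a c hc) := by
    rintro c hc ⟨k, hk⟩
    exact (ad_nc hd hdn hc hc k).1 ((hv' k z).symm.trans (congrArg (fun x : X => x.1.1) hk))
  have na : ¬σ.SameCycle (a y hy) (a y' hy') := by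
    rintro ⟨k, hk⟩
    exact (ad_nc hd hdn hy hy' k).2 hyy
      ((hv' k (a y hy)).symm.trans (congrArg (fun x : X => x.1.1) hk))
  set N := Subgroup.normalClosure ({t} : Set G) with hN
  have hNn : N.Normal := Subgroup.normalClosure_normal
  have hall : ∀ x : X, x.1 ∈ MulAction.orbit N z.1 := by
    let O : Set (Seq d) := {s | ∃ w ∈ MulAction.orbit N z.1, w.1 = s}
    have hQ : ∀ w : W d I, w.1 ∈ O ↔ w ∈ MulAction.orbit N z.1 := fun w =>
      ⟨fun ⟨w', h1, h2⟩ => by rwa [← (Subtype.ext h2 : w' = w)], fun h => ⟨w, h, rfl⟩⟩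
    have q0 : z.1 ∈ MulAction.orbit N z.1 := MulAction.mem_orbit_self _
    have q1 : (a y hy).1 ∈ MulAction.orbit N z.1 :=
      ⟨⟨t, Subgroup.subset_normalClosure rfl⟩, congrArg Subtype.val e1⟩
    have q2 : ∀ c hc, (a c hc).1 ∈ MulAction.orbit N z.1 := fun c hc => by
      obtain ⟨g, g1, g2, g3⟩ := hmv (Finset.univ.erase 0) (a y hy).1 0 c
        (fun h => (Finset.mem_erase.1 (h ▸ Finset.mem_univ (0 : Fin d))).1 rfl)
        ((ad_mem hd hdn hy 0 le_rfl (by omega)).2 (by omega))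
        (ad_occ hd hdn hy (by rw [show (a y hy).1.1 0 = y from ad_zero n y]; exact hy))
        (ad_occ hd hdn hy hc)
      have e : g • (a y hy).1 = (a c hc).1 :=
        Subtype.ext (eq_ad hd hdn hy hc (hper g (a y hy).2.1) (g1 (a y hy).1) g2 g3)
      rw [← e]
      exact (ZGiant.orbit_iff N hNn z.1 q0 (Subtype.ext (zd_rigid hd hdn _ (g1 z.1))) _).1 q1
    refine fun x => (hQ _).1 (transE hd hdn hn O ?_ ?_ ((hQ z.1).2 q0) x.2)
    · intro u v j s huv hj hs
      obtain ⟨g, hg⟩ := hmk u v j huv hj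
      let w : W d I := ⟨s, n, hI, hs.1⟩
      show Prim n (mk u v j w.1) ∧ (w.1 ∈ O ↔ mk u v j w.1 ∈ O)
      rw [← hg, hQ, hQ]
      refine ⟨hpr g w hs, ?_⟩
      rcases mk_fix_ad hd hdn huv hj with h | ⟨c, hc, h⟩
      · exact ZGiant.orbit_iff N hNn z.1 q0 (Subtype.ext ((hg _).trans h)) w
      · exact ZGiant.orbit_iff N hNn z.1 (q2 c hc) (Subtype.ext ((hg _).trans h)) w
    · rintro o ⟨-, ⟨w0, hw0, rfl⟩, -, hr⟩ C hC s i x hs h0 h1 h2
      let w : W d I := ⟨s, n, hI, hs.1⟩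
      obtain ⟨g, g1, g2, g3⟩ := hmv C w i x (fun h => hC (h ▸ Finset.mem_univ o)) h0 h1 h2
      refine ⟨(g • w).1, hpr g w hs, g1 w, g2, g3, ?_⟩
      show w.1 ∈ O ↔ _
      rw [hQ, hQ]
      exact ZGiant.orbit_iff N hNn z.1 hw0 (Subtype.ext (hr _ ((g1 w0).mono fun c hc =>
        Finset.mem_erase.2 ⟨fun h => hC (h ▸ hc), Finset.mem_univ c⟩))) w
  obtain ⟨c, hc1, hc2⟩ := manyF hd hdn hn
  let c' : Fin (q + n + 3) → X := fun l =>
    ⟨⟨c (l.castLE (by omega)), n, hI, (hc1 _).1⟩, hc1 _⟩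
  have key := pois3 n (by omega) σ (fun x k => ?_) (fun g x => Subtype.ext (hsh g x.1))
    (lowD (d := d) I G n) hK t htK (fun x y => ?_)
    ⟨z, a y hy, a y' hy', nz y hy, nz y' hy', na, e1, e2, e3, fun w b1 b2 b3 => ?_⟩ q n (by omega)
    ⟨c', ?_⟩ F' fun x => Subtype.ext (hF x.1)
  · have e : ∀ k : lowD (d := d) I G n,
        {w : W d I | Prim n w.1 ∧ (k : G) • F w = shW d I w}.ncard =
        {x | k • F' x = σ x}.ncard := fun k => by
      rw [← Set.ncard_image_of_injective {x | k • F' x = σ x} Subtype.val_injective]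
      congr 1
      ext w
      constructor
      · rintro ⟨h1, h2⟩
        exact ⟨⟨w, h1⟩, Subtype.ext h2, rfl⟩
      · rintro ⟨x, h1, rfl⟩
        exact ⟨x.2, congrArg Subtype.val h1⟩
    simp only [e]
    exact key
  · have hp : Prim n x.1.1 := x.2
    have a := addmod (n := n) (by omega) k 0 le_rfl (by omega)
    constructor
    · intro h
      by_contra hd
      have h0 : k % n ≠ 0 := fun e => hd (Int.dvd_of_emod_eq_zero e)
      refine hp.2 (k % n).toNat (by omega) ⟨by omega, fun i => ?_, hp.1.2.2⟩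
      rw [Int.toNat_of_nonneg a.2.2.1, ← hp.1.zper _ (k / n), add_assoc, Int.emod_add_ediv_mul,
        ← hv, h]
    · rintro ⟨l, rfl⟩
      exact Subtype.ext (Subtype.ext (funext fun i => by rw [hv, mul_comm, hp.1.zper]))
  · obtain ⟨a, ha⟩ := hall x
    obtain ⟨b, hb⟩ := hall y
    refine ⟨b * a⁻¹, N.mul_mem b.2 (N.inv_mem a.2), Subtype.ext ?_⟩
    show ((b : G) * (a : G)⁻¹) • x.1 = y.1
    rw [← ha, ← hb, mul_smul]
    show (b : G) • (a : G)⁻¹ • (a : G) • z.1 = (b : G) • z.1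
    rw [inv_smul_smul]
  · have hp : Prim n w.1.1 := w.2
    exact Subtype.ext ((ht w.1 hp.1).2.2.2 fun k =>
      ⟨fun h => b1 ⟨k, Subtype.ext (Subtype.ext ((hv' k _).trans h.symm))⟩,
        fun h => b2 ⟨k, Subtype.ext (Subtype.ext ((hv' k _).trans h.symm))⟩,
        fun h => b3 ⟨k, Subtype.ext (Subtype.ext ((hv' k _).trans h.symm))⟩⟩)
  · rintro l l' ⟨k, hk⟩
    exact Fin.castLE_injective _
      (hc2 _ _ k ((hv' k (c' l)).symm.trans (congrArg (fun x : X => x.1.1) hk)))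

end VGrpX

open YGrpX YGrpPX in
theorem grpD (hd : 3 ≤ d) (S : Finset ℕ) (hS : ∀ n ∈ S, 8 ≤ n ∧ d < n) (k : ℕ → ℕ)
    (hk : ∀ n ∈ S, k n ≤ n) (I : Finset ℕ) (hI : S ⊆ I) (G : Type) [Group G] [Finite G]
    [MulAction G (W d I)] (hsh : ∀ (g : G) (w : W d I), g • shW d I w = shW d I (g • w))
    (hmk : ∀ (u v : Fin d) (j : ℕ), u ≠ v → 1 ≤ j → ∃ g : G, ∀ w : W d I, (g • w).1 = mk u v j w.1)
    (hmv : MvG (d := d) I G)
    (F : Equiv.Perm (W d I)) (hF : ∀ w, F (shW d I w) = shW d I (F w)) (B : Set G)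
    (hB : ∀ g ∈ B, ∀ c ∈ lowD (d := d) I G (d + 1), c * g ∈ B) :
    |({g : G | g ∈ B ∧ ∀ n ∈ S,
        {w : W d I | Prim n w.1 ∧ g • F w = shW d I w}.ncard = n * k n}.ncard : ℝ) -
        (∏ n ∈ S, Real.exp (-1 / n) / (n ^ k n * (k n).factorial)) * B.ncard| ≤
      1 / 10 ^ 10 * (∏ n ∈ S, Real.exp (-1 / n) / (n ^ k n * (k n).factorial)) * B.ncard := by
  let p : ℕ → ℝ := fun n => Real.exp (-1 / n) / (n ^ k n * (k n).factorial)
  let e : ℕ → ℝ := fun n => 256 / 10 ^ 11 * (1 / 2) ^ n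
  let Good : ℕ → Set G := fun n =>
    {g | {w : W d I | Prim n w.1 ∧ g • F w = shW d I w}.ncard = n * k n}
  have he0 : ∀ n, 0 < e n := fun n => by positivity
  have he1 : ∀ a b, a ≤ b → e b ≤ e a := fun a b h =>
    mul_le_mul_of_nonneg_left (pow_le_pow_of_le_one (by norm_num) (by norm_num) h) (by norm_num)
  have he2 : ∀ a, e (a + 1) = e a / 2 := fun a => by
    simp only [e, pow_succ]
    ring
  have he3 : e 8 = 1 / 10 ^ 11 := by
    simp only [e]
    norm_num
  have hp0 : ∀ n, 0 ≤ p n := fun n => by positivity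
  have key : ∀ S : Finset ℕ, (∀ n ∈ S, 8 ≤ n ∧ d < n) → (∀ n ∈ S, k n ≤ n) → S ⊆ I → ∀ b, 8 ≤ b →
      (∀ n ∈ S, n < b) →
      (1 - (2 / 10 ^ 11 - 2 * e b)) * ((∏ n ∈ S, p n) * B.ncard) ≤
        {g : G | g ∈ B ∧ ∀ n ∈ S, g ∈ Good n}.ncard ∧
      ({g : G | g ∈ B ∧ ∀ n ∈ S, g ∈ Good n}.ncard : ℝ) ≤
        (1 + 2 * (2 / 10 ^ 11 - 2 * e b)) * ((∏ n ∈ S, p n) * B.ncard) := by
    intro S
    induction S using Finset.induction_on_max with
    | empty =>
      intro _ _ _ b hb _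
      have h1 := he1 8 b hb
      have h2 : (0 : ℝ) ≤ B.ncard := Nat.cast_nonneg _
      have e0 : {g : G | g ∈ B ∧ ∀ n ∈ (∅ : Finset ℕ), g ∈ Good n} = B :=
        Set.ext fun g => and_iff_left fun n h => absurd h (Finset.notMem_empty n)
      rw [he3] at h1
      have h3 := mul_nonneg (sub_nonneg.2 h1) h2
      rw [e0, Finset.prod_empty, one_mul]
      constructor <;> linarith
    | insert a S ha ih =>
      intro h8 hk hI b hb hlt
      obtain ⟨ha8, had⟩ := h8 a (Finset.mem_insert_self a S)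
      obtain ⟨i1, i2⟩ := ih (fun n h => h8 n (Finset.mem_insert_of_mem h))
        (fun n h => hk n (Finset.mem_insert_of_mem h))
        ((Finset.subset_insert a S).trans hI) a ha8 ha
      have e0 : {g : G | g ∈ B ∧ ∀ n ∈ insert a S, g ∈ Good n} =
          {g : G | g ∈ B ∧ ∀ n ∈ S, g ∈ Good n} ∩ Good a := by
        ext g
        simp only [Finset.forall_mem_insert, Set.mem_inter_iff, Set.mem_ofPred_eq]
        rw [and_comm (a := g ∈ Good a), and_assoc]
      obtain ⟨c1, c2⟩ := count2 (lowD (d := d) I G a) {g : G | g ∈ B ∧ ∀ n ∈ S, g ∈ Good n} (Good a)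
        ((1 - e a) * p a) ((1 + e a) * p a)
        (fun g hg c hc => ⟨hB g hg.1 c fun m hm => hc m (by omega), fun n hn => by
          have := hg.2 n hn
          simp only [Good, Set.mem_ofPred_eq] at this ⊢
          rw [← this]
          congr 1
          ext w
          refine and_congr_right fun hw => ?_
          rw [mul_smul, hc n (ha n hn) _ (ZGrp.per_map (fun w => g • w) (hsh g)
            (ZGrp.per_map F hF hw.1))]⟩)
        fun h => by
          have := VGrpX.stepD hd ha8 had (hI (Finset.mem_insert_self a S)) (k a)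
            (hk a (Finset.mem_insert_self a S)) G hsh hmk hmv (F.trans (MulAction.toPerm h))
            fun w => by
              show h • F (shW d I w) = shW d I (h • F w)
              rw [hF, hsh]
          have e2 : {c : lowD (d := d) I G a | c * h ∈ Good a} = {c : lowD (d := d) I G a | {w : W d I | Prim a w.1 ∧
              (c : G) • (F.trans (MulAction.toPerm h)) w = shW d I w}.ncard = a * k a} := by
            ext c
            show {w : W d I | Prim a w.1 ∧ ((c : G) * h) • F w = shW d I w}.ncard = a * k a ↔ _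
            simp only [mul_smul]
            rfl
          rw [e2]
          have h2 : (0 : ℝ) ≤ Nat.card (lowD (d := d) I G a) := Nat.cast_nonneg _
          have h3 := abs_le.1 (this.trans (mul_le_mul_of_nonneg_right (err_le ha8 (k a)) h2))
          simp only [e, p]
          constructor
          · linarith [h3.1]
          · linarith [h3.2]
      rw [e0, Finset.prod_insert fun h => lt_irrefl a (ha a h)]
      have h1 := he1 8 a ha8
      have h2 := he1 (a + 1) b (hlt a (Finset.mem_insert_self a S))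
      have h3 := he0 a
      have h4 := he0 b
      rw [he2] at h2
      rw [he3] at h1
      have h5 : 0 ≤ (∏ n ∈ S, p n) * B.ncard :=
        mul_nonneg (Finset.prod_nonneg fun n _ => hp0 n) (Nat.cast_nonneg _)
      have h6 : 0 ≤ p a * ((∏ n ∈ S, p n) * B.ncard) := mul_nonneg (hp0 a) h5
      have f1 : 0 ≤ (1 - e a) * p a := mul_nonneg (by linarith) (hp0 a)
      have f2 : 0 ≤ (1 + e a) * p a := mul_nonneg (by linarith) (hp0 a)
      constructor
      · refine le_trans ?_ ((mul_le_mul_of_nonneg_left i1 f1).trans c1)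
        calc _ = (1 - (2 / 10 ^ 11 - 2 * e b)) * (p a * ((∏ n ∈ S, p n) * B.ncard)) := by ring
          _ ≤ ((1 - e a) * (1 - (2 / 10 ^ 11 - 2 * e a))) *
              (p a * ((∏ n ∈ S, p n) * B.ncard)) :=
            mul_le_mul_of_nonneg_right (by nlinarith) h6
          _ = _ := by ring
      · refine (c2.trans (mul_le_mul_of_nonneg_left i2 f2)).trans ?_
        calc _ = ((1 + e a) * (1 + 2 * (2 / 10 ^ 11 - 2 * e a))) *
              (p a * ((∏ n ∈ S, p n) * B.ncard)) := by ring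
          _ ≤ (1 + 2 * (2 / 10 ^ 11 - 2 * e b)) * (p a * ((∏ n ∈ S, p n) * B.ncard)) :=
            mul_le_mul_of_nonneg_right (by nlinarith) h6
          _ = _ := by ring
  obtain ⟨h1, h2⟩ := key S hS hk hI (S.sup id + 8) (by omega) fun n h => by
    have : n ≤ S.sup id := Finset.le_sup (f := id) h
    omega
  have h3 := he0 (S.sup id + 8)
  have h5 : 0 ≤ (∏ n ∈ S, p n) * B.ncard :=
    mul_nonneg (Finset.prod_nonneg fun n _ => hp0 n) (Nat.cast_nonneg _)
  show |({g : G | g ∈ B ∧ ∀ n ∈ S, g ∈ Good n}.ncard : ℝ) - (∏ n ∈ S, p n) * B.ncard| ≤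
    1 / 10 ^ 10 * (∏ n ∈ S, p n) * B.ncard
  rw [abs_le, mul_assoc]
  constructor <;> nlinarith

theorem Per.le {n : ℕ} {s : Seq d} (h : Per n s) : d ≤ n := by
  have : Function.Surjective fun k : Fin n => s (k : ℕ) := fun y => by
    obtain ⟨i, rfl⟩ := h.2.2 y
    have hn : (0 : ℤ) < n := by exact_mod_cast h.1
    have h0 := Int.emod_nonneg i hn.ne'
    have h1 := Int.emod_lt_of_pos i hn
    exact ⟨⟨(i % n).toNat, by omega⟩, by simp only [Int.toNat_of_nonneg h0, h.emod]⟩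
  simpa using Fintype.card_le_of_surjective _ this

theorem grpE (hd : 3 ≤ d) (S : Finset ℕ) (hS : ∀ n ∈ S, 1 ≤ n ∧ (n ≤ d ∨ 8 ≤ n)) (k : ℕ → ℕ)
    (hk : ∀ n ∈ S, k n ≤ n) (I : Finset ℕ) (hI : S ⊆ I) (G : Type) [Group G] [Finite G]
    [MulAction G (W d I)] (hsh : ∀ (g : G) (w : W d I), g • shW d I w = shW d I (g • w))
    (hmk : ∀ (u v : Fin d) (j : ℕ), u ≠ v → 1 ≤ j → ∃ g : G, ∀ w : W d I, (g • w).1 = mk u v j w.1)
    (hmv : MvG (d := d) I G)
    (hrel : ∀ g : G, ∃ ρ : Fin d → Fin d, ∀ w : W d I, Per d w.1 → (g • w).1 = ρ ∘ w.1)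
    (hsw : ∀ u v : Fin d, u ≠ v → ∃ g : G, ∀ w : W d I, Per d w.1 →
      (g • w).1 = Equiv.swap u v ∘ w.1) (π : Equiv.Perm (Fin d)) :
    |({g : G | ∀ n ∈ S,
        {w : W d I | Prim n w.1 ∧ g • relW I π w = shW d I w}.ncard = n * k n}.ncard : ℝ) -
        (∏ n ∈ S, plaw d n (k n)) * Nat.card G| ≤
      1 / 10 ^ 10 * (∏ n ∈ S, plaw d n (k n)) * Nat.card G := by
  classical
  let Good : ℕ → G → Prop := fun n g =>
    {w : W d I | Prim n w.1 ∧ g • relW I π w = shW d I w}.ncard = n * k n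
  let B : Set G := {g | ∀ n ∈ S.filter (· ≤ d), Good n g}
  have h1 := grpD hd (S.filter (¬ · ≤ d)) (fun n hn => by
      have := Finset.mem_filter.1 hn
      have := hS n this.1
      omega) k (fun n hn => hk n (Finset.mem_filter.1 hn).1) I
    ((Finset.filter_subset _ _).trans hI) G hsh hmk hmv (relW I π) (relW_sh π) B
    fun g hg c hc n hn => by
      have := hg n hn
      simp only [Good] at this ⊢
      rw [← this]
      congr 1
      ext w
      refine and_congr_right fun hw => ?_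
      rw [mul_smul, hc n (by have := (Finset.mem_filter.1 hn).2; omega) _
        (ZGrp.per_map (fun w => g • w) (hsh g) (ZGrp.per_map (relW I π) (relW_sh π) hw.1))]
  have h2 : ∀ n ∈ S, n < d → ∀ g, Good n g ↔ k n = 0 := fun n hn h g => by
    have e : {w : W d I | Prim n w.1 ∧ g • relW I π w = shW d I w} = ∅ :=
      Set.eq_empty_of_forall_notMem fun w hw => absurd hw.1.1.le h.not_ge
    have := (hS n hn).1
    simp only [Good, e, Set.ncard_empty]
    exact ⟨fun a => (mul_eq_zero.1 a.symm).resolve_left (by omega), fun a => by simp [a]⟩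
  have h3 : (B.ncard : ℝ) = (∏ n ∈ S.filter (· ≤ d), plaw d n (k n)) * Nat.card G := by
    by_cases a : ∀ n ∈ S, n < d → k n = 0
    swap
    · push Not at a
      obtain ⟨n, a1, a2, a3⟩ := a
      have m : n ∈ S.filter (· ≤ d) := Finset.mem_filter.2 ⟨a1, a2.le⟩
      rw [Finset.prod_eq_zero m (by simp [plaw, a2, a3]), zero_mul,
        Set.eq_empty_of_forall_notMem (s := B) fun g hg => a3 ((h2 n a1 a2 g).1 (hg n m))]
      simp
    have b : ∀ n ∈ S.filter (· ≤ d), n ≠ d → plaw d n (k n) = 1 := fun n hn e => by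
      have m := Finset.mem_filter.1 hn
      have c : n < d := lt_of_le_of_ne m.2 e
      simp [plaw, c, a n m.1 c]
    have b' : ∀ g, ∀ n ∈ S.filter (· ≤ d), n ≠ d → Good n g := fun g n hn e => by
      have m := Finset.mem_filter.1 hn
      have c : n < d := lt_of_le_of_ne m.2 e
      exact (h2 n m.1 c g).2 (a n m.1 c)
    by_cases c : d ∈ S
    · have m : d ∈ S.filter (· ≤ d) := Finset.mem_filter.2 ⟨c, le_rfl⟩
      have e : B = {g | Good d g} := Set.ext fun g => ⟨fun h => h d m, fun h n hn => by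
        by_cases e : n = d
        exacts [e ▸ h, b' g n hn e]⟩
      rw [Finset.prod_eq_single_of_mem d m b, e, lev_count (by omega) (hI c) G hrel hsw π (k d)]
      simp [plaw]
    · have c' : ∀ n ∈ S.filter (· ≤ d), n ≠ d := fun n hn e => c (e ▸ (Finset.mem_filter.1 hn).1)
      rw [Finset.prod_eq_one fun n hn => b n hn (c' n hn), one_mul,
        Set.eq_univ_of_forall (s := B) fun g n hn => b' g n hn (c' n hn), Set.ncard_univ]
  have h4 : ∏ n ∈ S.filter (¬ · ≤ d), Real.exp (-1 / n) / (n ^ k n * (k n).factorial) =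
      ∏ n ∈ S.filter (¬ · ≤ d), plaw d n (k n) := Finset.prod_congr rfl fun n hn => by
    have := (Finset.mem_filter.1 hn).2
    rw [plaw, if_neg (by omega), if_neg (by omega)]
  have h5 : {g : G | ∀ n ∈ S, Good n g} = {g : G | g ∈ B ∧ ∀ n ∈ S.filter (¬ · ≤ d), Good n g} :=
    Set.ext fun g => ⟨fun h => ⟨fun n hn => h n (Finset.mem_filter.1 hn).1,
      fun n hn => h n (Finset.mem_filter.1 hn).1⟩, fun h n hn => by
        by_cases e : n ≤ d
        exacts [h.1 n (Finset.mem_filter.2 ⟨hn, e⟩), h.2 n (Finset.mem_filter.2 ⟨hn, e⟩)]⟩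
  rw [h3, h4, ← mul_assoc, ← mul_assoc, mul_assoc (1 / 10 ^ 10), mul_comm (∏ n ∈ S.filter _, _),
    Finset.prod_filter_mul_prod_filter_not] at h1
  change |(Set.ncard {g : G | ∀ n ∈ S, Good n g} : ℝ) - _| ≤ _
  rw [h5]
  exact h1

end Pool.Agent.MP_9b2bac_nt.Z
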