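import Mathlib
import Pool.Agent.MP_9b2bac_nt.VClus
import Pool.Agent.MP_9b2bac_nt.VBin
import Pool.Agent.MP_9b2bac_nt.VFine

/- Every active letter can be replaced by every active letter. -/

set_option autoImplicit false

namespace Pool.Agent.MP_9b2bac_nt.Z

variable {d : ℕ} {A : Type} [CommRing A] [IsDomain A]

namespace VInd

open Function

variable {C : Finset (Fin d)} {L : ℕ} {a b c s : Seq d}

theorem occ_congr {k : ℤ} {j : Fin d} (h : ∀ m, k ≤ m → a m = b m) (ha : Occ C a k j) :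
    Occ C b k j :=
  let ⟨i, h1, h2, h3⟩ := ha
  ⟨i, h1, (h i h1).symm.trans h2, fun m h4 h5 => h m h4 ▸ h3 m h4 h5⟩

theorem occ_back {k k' : ℤ} {j : Fin d} (hk : k ≤ k') (h : ∀ m, k ≤ m → m < k' → a m ∈ C)
    (ha : Occ C a k' j) : Occ C a k j :=
  let ⟨i, h1, h2, h3⟩ := ha
  ⟨i, hk.trans h1, h2, fun m h4 h5 => if h6 : m < k' then h m h4 h6 else h3 m (by omega) h5⟩

theorem term_congr (K : ℤ) (h : ∀ m, K ≤ m → a m = b m) (ha : Term C a) : Term C b := by
  intro i
  obtain ⟨m, hm⟩ := ha (max i K)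
  refine ⟨(max i K - i).toNat + m, ?_⟩
  rwa [show i + (((max i K - i).toNat + m : ℕ) : ℤ) = max i K + m by omega, ← h _ (by omega)]

variable (A) in
/-- `a` is moved to a word that agrees with `b` on `0, ..., L` -/
def Mt (C : Finset (Fin d)) (L : ℕ) (a b : Seq d) : Prop :=
  ∃ (γ : Gam A d) (t : Seq d), Act C γ a t ∧ ∀ k : ℤ, 0 ≤ k → k ≤ L → t k = b k

/-- the block after position `0` ends at `L` -/
structure Blk (C : Finset (Fin d)) (L : ℕ) (a : Seq d) : Prop where
  term : Term C a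
  mem : ∀ k : ℤ, 1 ≤ k → k ≤ L → a k ∈ C
  out : a (L + 1) ∉ C

theorem Blk.upd (h : Blk C L a) (y : Fin d) : Blk C L (update a 0 y) :=
  ⟨h.term.update _ _, fun k h1 h2 => by rw [update_of_ne (by omega)]; exact h.mem k h1 h2,
    by rw [update_of_ne (by omega)]; exact h.out⟩

theorem Blk.adm (h : Blk C L a) (h' : Adm C a b) : Blk C L b :=
  ⟨h.term.adm h', fun k h1 h2 => (h'.mem_iff k).2 (h.mem k h1 h2),
    fun e => h.out ((h'.mem_iff _).1 e)⟩

theorem loc {γ : Gam A d} {a' b' : Seq d} (h : Act C γ a a') (h' : Act C γ b b') (i : ℤ)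
    (e : ∀ k : ℤ, i ≤ k → k ≤ L → a k = b k) (ha : a (L + 1) ∉ C) (hb : b (L + 1) ∉ C)
    (k : ℤ) (h1 : i ≤ k) (h2 : k ≤ L) : a' k = b' k := by
  have e1 : k + ((L - k).toNat : ℤ) + 1 = L + 1 := by omega
  exact h.loc h' k (L - k).toNat (fun m hm => e _ (by omega) (by omega)) (by rwa [e1])
    (by rwa [e1])

theorem Mt.refl (a : Seq d) : Mt A C L a a := ⟨1, a, Act.refl C a, fun _ _ _ => rfl⟩

theorem Mt.symm (h : Mt A C L a b) (ha : Blk C L a) (hb : Blk C L b) : Mt A C L b a := by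
  obtain ⟨γ, t, h1, h2⟩ := h
  obtain ⟨t', h3⟩ := exists_actC γ⁻¹ hb.term
  exact ⟨γ⁻¹, t', h3, loc h3 h1.symm 0 (fun k e1 e2 => (h2 k e1 e2).symm) hb.out
    (ha.adm (h1.adm ha.term)).out⟩

theorem Mt.trans (h : Mt A C L a b) (h' : Mt A C L b c) (ha : Blk C L a) (hb : Blk C L b) :
    Mt A C L a c := by
  obtain ⟨γ, t, h1, h2⟩ := h
  obtain ⟨δ, r, h3, h4⟩ := h'
  have ht := ha.adm (h1.adm ha.term)
  obtain ⟨r', h5⟩ := exists_actC δ ht.term
  exact ⟨δ * γ, r', h1.trans h5, fun k e1 e2 =>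
    (loc h5 h3 0 h2 ht.out hb.out k e1 e2).trans (h4 k e1 e2)⟩

variable (A d) in
/-- the statement for blocks of length below `n` -/
def TP (n : ℕ) : Prop := ∀ (C : Finset (Fin d)) (s : Seq d), Term C s → ∀ (i : ℤ) (x : Fin d),
  (∃ m : ℕ, m < n ∧ s (i + m + 1) ∉ C) → s i ∈ C → Occ C s (i + 1) (s i) → Occ C s (i + 1) x →
    ∃ (γ : Gam A d) (t : Seq d), Act C γ s t ∧ t i = x ∧ Kp C s t i

theorem orb {n : ℕ} (ih : TP d A n) (hL : L ≤ n) (ha : Blk C L a)
    (e : ∀ k : ℤ, 1 ≤ k → ∀ j, Occ C a k j ↔ Occ C b k j) :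
    ∃ (γ : Gam A d) (t : Seq d), Act C γ a t ∧ ∀ k : ℤ, 1 ≤ k → k ≤ L → t k = b k := by
  have key : ∀ m : ℕ, m ≤ L → ∃ (γ : Gam A d) (t : Seq d), Act C γ a t ∧
      ∀ k : ℤ, (L : ℤ) - m < k → k ≤ L → t k = b k := by
    intro m
    induction m with
    | zero => exact fun _ => ⟨1, a, Act.refl C a, fun k h1 h2 => by omega⟩
    | succ m ihm =>
      intro hm
      obtain ⟨γ, t, h1, h2⟩ := ihm (by omega)
      have h3 := h1.adm ha.term
      have ht := ha.adm h3
      obtain ⟨p, hp⟩ : ∃ p : ℤ, p = L - m := ⟨_, rfl⟩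
      have e' : ∀ k : ℤ, 1 ≤ k → ∀ j, Occ C t k j ↔ Occ C b k j := fun k hk j =>
        ((h3 k).2 j).symm.trans (e k hk j)
      have h4 : t p ∈ C := ht.mem p (by omega) (by omega)
      have h5 := (e' p (by omega) _).1 (occ_self h4)
      by_cases h6 : t p = b p
      · refine ⟨γ, t, h1, fun k e1 e2 => ?_⟩
        by_cases h7 : k = p
        · rwa [h7]
        · exact h2 k (by push_cast at e1; omega) e2
      · have h7 : Occ C t (p + 1) (t p) :=
          (e' _ (by omega) _).2 ((occ_iff.1 h5).2.resolve_left (Ne.symm h6))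
        have h8 : Occ C t (p + 1) (b p) :=
          (occ_iff.1 ((e' p (by omega) _).2 (occ_self h5.mem))).2.resolve_left h6
        obtain ⟨δ, r, h9, h10, h11⟩ := ih C t ht.term p (b p)
          ⟨m, by omega, by rw [show p + m + 1 = L + 1 by omega]; exact ht.out⟩ h4 h7 h8
        refine ⟨δ * γ, r, h1.trans h9, fun k e1 e2 => ?_⟩
        by_cases h12 : k = p
        · rwa [h12]
        · push_cast at e1
          rw [h11 k (by omega) fun k' e3 e4 => ht.mem k' (by omega) (by omega)]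
          exact h2 k (by omega) e2
  obtain ⟨γ, t, h1, h2⟩ := key L le_rfl
  exact ⟨γ, t, h1, fun k e1 e2 => h2 k (by omega) e2⟩

variable (A) in
/-- all letters of the block are equivalent at position `0` -/
def Tot (C : Finset (Fin d)) (L : ℕ) (a : Seq d) : Prop :=
  ∀ y x, Occ C a 1 y → Occ C a 1 x → Mt A C L (update a 0 y) (update a 0 x)

theorem Tot.of_one (ha : Blk C L a) (u : Fin d)
    (h : ∀ y, Occ C a 1 y → Mt A C L (update a 0 u) (update a 0 y)) : Tot A C L a :=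
  fun y x hy hx => ((h y hy).symm (ha.upd _) (ha.upd _)).trans (h x hx) (ha.upd _) (ha.upd _)

theorem Tot.transfer {n : ℕ} (ih : TP d A n) (hL : L ≤ n) (ha : Blk C L a) (hb : Blk C L b)
    (e : ∀ k : ℤ, 1 ≤ k → ∀ j, Occ C a k j ↔ Occ C b k j) (h : Tot A C L b) : Tot A C L a := by
  obtain ⟨γ, t, h1, h2⟩ := orb ih hL ha e
  have key : ∀ y, Occ C a 1 y → ∃ y', Occ C b 1 y' ∧ Mt A C L (update a 0 y) (update b 0 y') := by
    intro y hy
    obtain ⟨r, h3⟩ := exists_actC γ (ha.upd y).term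
    have h4 := (h3.adm (ha.upd y).term).occ (i := 0) (by rw [update_self]; exact hy.mem')
    refine ⟨r 0, (e 1 le_rfl _).1 ?_, γ, r, h3, fun k e1 e2 => ?_⟩
    · rcases (occ_iff.1 h4).2 with h5 | h5
      · rw [update_self] at h5
        exact h5 ▸ hy
      · exact occ_congr (fun m hm => update_of_ne (by omega) _ _) h5
    · by_cases h5 : k = 0
      · rw [h5, update_self]
      · rw [update_of_ne h5, ← h2 k (by omega) e2]
        exact loc h3 h1 1 (fun m e3 _ => update_of_ne (by omega) _ _) (ha.upd y).out ha.out k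
          (by omega) e2
  intro y x hy hx
  obtain ⟨y', h3, h4⟩ := key y hy
  obtain ⟨x', h5, h6⟩ := key x hx
  exact (h4.trans (h y' x' h3 h5) (ha.upd _) (hb.upd _)).trans (h6.symm (ha.upd _) (hb.upd _))
    (ha.upd _) (hb.upd _)

theorem two (h2 : (2 : A) ≠ 0) (ha : Blk C L a) {p : ℕ} (hp : 1 ≤ p) (hpL : p + 1 ≤ L)
    {w v : Fin d} (hw : a p = w) (hv : a (p + 1) = v)
    (hm : ∀ k : ℤ, 1 ≤ k → k ≤ p + 1 → a k = w ∨ a k = v) (hn : ¬ Occ C a (p + 1) w) :
    Mt A C L (update a 0 w) (update a 0 v) := by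
  have hwC : w ∈ C := hw ▸ ha.mem p (by omega) (by omega)
  have hvC : v ∈ C := hv ▸ ha.mem (p + 1) (by omega) (by omega)
  have hwv : w ≠ v := fun e => hn (by rw [e, ← hv]; exact occ_self (hv ▸ hvC))
  have hs : ({w, v} : Finset (Fin d)) ⊆ C := by
    intro j hj
    simp only [Finset.mem_insert, Finset.mem_singleton] at hj
    rcases hj with rfl | rfl <;> assumption
  have hm' : ∀ k : ℤ, 1 ≤ k → k ≤ p + 1 → a k ∈ ({w, v} : Finset (Fin d)) := fun k e1 e2 => by
    simpa using hm k e1 e2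
  obtain ⟨γ, hγ⟩ := bin (A := A) h2 hwv (ha.term.mono hs)
    ⟨p, by omega, hw, fun k e1 e2 => hm' k e1 (by omega)⟩ ⟨p + 1, by omega, hv, hm'⟩
  have hT := (ha.upd w).term.mono hs
  obtain ⟨t, ht⟩ := exists_actC γ hT
  obtain ⟨δ, hδ⟩ := clus_tree hs (ha.upd w).term ht
  refine ⟨δ, t, hδ, fun k e1 e2 => ?_⟩
  by_cases h3 : k ≤ p + 1
  · obtain ⟨k, rfl⟩ := Int.eq_ofNat_of_zero_le e1
    refine ht.of_eq hT hγ k fun m hm => ?_
    by_cases h4 : (m : ℤ) = 0
    · rw [h4]; simp
    · rw [update_of_ne h4, update_of_ne h4, and_self]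
      exact hm' m (by omega) (by omega)
  · have h4 := ht.adm hT
    have h5 : update a 0 w k = a k := update_of_ne (by omega) _ _
    rw [update_of_ne (by omega)]
    by_cases h6 : a k ∈ ({w, v} : Finset (Fin d))
    · have h7 : ∀ j, Occ {w, v} (update a 0 w) k j → j = v := by
        rintro j ⟨i, e3, e4, e5⟩
        have h8 := e5 i e3 le_rfl
        rw [e4] at h8
        simp only [Finset.mem_insert, Finset.mem_singleton] at h8
        refine h8.resolve_left fun h9 => hn (occ_back (k' := k) (by omega)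
          (fun m e6 e7 => ha.mem m (by omega) (by omega)) (occ_congr
            (a := update a 0 w) (fun m e6 => update_of_ne (by omega) _ _)
            ⟨i, e3, e4.trans h9, fun m e6 e7 => hs (e5 m e6 e7)⟩))
      rw [h7 _ (h4.occ (h5 ▸ h6)), ← h5, h7 _ (occ_self (h5 ▸ h6))]
    · rw [(h4 k).1 (h5 ▸ h6), h5]

/-- the word with the letters `g` at the positions `1, ..., p + 1` -/
def md (s : Seq d) (p : ℕ) (g : ℤ → Fin d) : Seq d :=
  fun k => if 1 ≤ k ∧ k ≤ p + 1 then g k else s k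

theorem md_in {p : ℕ} {g : ℤ → Fin d} {k : ℤ} (h1 : 1 ≤ k) (h2 : k ≤ p + 1) :
    md s p g k = g k := if_pos ⟨h1, h2⟩

theorem md_out {p : ℕ} {g : ℤ → Fin d} {k : ℤ} (h : p + 1 < k) : md s p g k = s k :=
  if_neg (by omega)

theorem md_spec (hs : Blk C L s) {p : ℕ} (hp : 1 ≤ p) (hpL : p + 1 ≤ L) {g : ℤ → Fin d}
    (hD : ∀ j, Occ C s 1 j → Occ C s p j) (hg : ∀ k : ℤ, 1 ≤ k → k ≤ p + 1 → Occ C s 1 (g k))
    (hw : g p = s p) (hc : ∀ j, Occ C s (p + 1) j ↔ g (p + 1) = j ∨ Occ C s (p + 1 + 1) j) :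
    Blk C L (md s p g) ∧ ∀ k : ℤ, 1 ≤ k → ∀ j, Occ C s k j ↔ Occ C (md s p g) k j := by
  have hb : Blk C L (md s p g) := by
    refine ⟨term_congr (p + 2) (fun m hm => (md_out (by omega)).symm) hs.term, fun k e1 e2 => ?_,
      by rw [md_out (by omega)]; exact hs.out⟩
    by_cases h : k ≤ p + 1
    · rw [md_in e1 h]; exact (hg k e1 h).mem'
    · rw [md_out (by omega)]; exact hs.mem k e1 e2
  have h1 : ∀ k : ℤ, p + 1 < k → ∀ j, Occ C s k j ↔ Occ C (md s p g) k j := fun k hk j =>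
    ⟨occ_congr fun m hm => (md_out (by omega)).symm, occ_congr fun m hm => md_out (by omega)⟩
  have h2 : ∀ j, Occ C s (p + 1) j ↔ Occ C (md s p g) (p + 1) j := fun j => by
    rw [hc, occ_iff (s := md s p g), ← h1 _ (by omega), md_in (by omega) le_rfl,
      and_iff_right (hg _ (by omega) le_rfl).mem']
  refine ⟨hb, fun k hk j => ?_⟩
  rcases lt_trichotomy k (p + 1) with h | rfl | h
  · constructor
    · intro h3
      have h4 := hD j (occ_back hk (fun m e1 e2 => hs.mem m e1 (by omega)) h3)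
      refine occ_back (k' := p) (by omega) (fun m e1 e2 => hb.mem m (by omega) (by omega)) ?_
      rw [occ_iff] at h4 ⊢
      rw [← h2, md_in (by omega) (by omega), hw]
      exact h4
    · rintro ⟨i, e1, e2, e3⟩
      refine occ_back (k' := p) (by omega) (fun m e4 e5 => hs.mem m (by omega) (by omega))
        (hD j ?_)
      by_cases h3 : i ≤ p + 1
      · rw [md_in (by omega) h3] at e2
        exact e2 ▸ hg i (by omega) h3
      · exact occ_back (k' := p + 1 + 1) (by omega) (fun m e4 e5 => hs.mem m e4 (by omega))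
          ((h1 _ (by omega) j).2 ⟨i, by omega, e2, fun m e4 e5 => e3 m (by omega) e5⟩)
  · exact h2 j
  · exact h1 k h j

theorem case1 (h2 : (2 : A) ≠ 0) {n : ℕ} (ih : TP d A n) (hL : L ≤ n) (hs : Blk C L s) {p : ℕ}
    (hp : 1 ≤ p) (hpL : p + 1 ≤ L) (hD : ∀ j, Occ C s 1 j → Occ C s p j)
    (hn : ¬ Occ C s (p + 1) (s p)) (hc : Occ C s (p + 1 + 1) (s (p + 1))) : Tot A C L s := by
  let g : Fin d → ℤ → Fin d := fun v k => if k = p + 1 then v else s p
  have g1 : ∀ v, g v (p + 1) = v := fun v => if_pos rfl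
  have g2 : ∀ v (k : ℤ), k ≤ p → g v k = s p := fun v k hk => if_neg (by omega)
  have hbk : ∀ {j}, Occ C s (p + 1) j → Occ C s 1 j :=
    occ_back (by omega) fun m e1 e2 => hs.mem m e1 (by omega)
  have hw : Occ C s 1 (s p) := occ_back (k' := p) (by omega)
    (fun m e1 e2 => hs.mem m e1 (by omega)) (occ_self (hs.mem p (by omega) (by omega)))
  have hf : ∀ {j}, Occ C s (p + 1) j → Occ C s (p + 1 + 1) j := fun h =>
    (occ_iff.1 h).2.elim (fun e => e ▸ hc) id
  have sp : ∀ v, Occ C s (p + 1) v → Blk C L (md s p (g v)) ∧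
      ∀ k : ℤ, 1 ≤ k → ∀ j, Occ C s k j ↔ Occ C (md s p (g v)) k j := by
    intro v hv
    refine md_spec hs hp hpL hD (fun k e1 e2 => ?_) (g2 v p le_rfl) fun j => ?_
    · by_cases h : k = p + 1
      · rw [h, g1]; exact hbk hv
      · rw [g2 v k (by omega)]; exact hw
    · rw [g1]
      exact ⟨fun h => .inr (hf h), fun h => h.elim (fun e => e ▸ hv) fun e =>
        occ_iff.2 ⟨hv.mem, .inr e⟩⟩
  have hv0 : Occ C s (p + 1) (s (p + 1)) := occ_self (hs.mem _ (by omega) (by omega))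
  have her : ∀ {j}, Occ C s (p + 1 + 1) j → Occ (C.erase (s p)) s (p + 1 + 1) j := by
    rintro j ⟨i, e1, e2, e3⟩
    refine ⟨i, e1, e2, fun k e4 e5 => Finset.mem_erase.2 ⟨fun e6 => hn ?_, e3 k e4 e5⟩⟩
    exact occ_iff.2 ⟨hv0.mem, .inr ⟨k, e4, e6, fun m e7 e8 => e3 m e7 (by omega)⟩⟩
  have mv : ∀ v y, Occ C s (p + 1) v → Mt A C L (update (md s p (g v)) 0 y)
      (update (md s p (g (s (p + 1)))) 0 y) := by
    intro v y hv
    have hb := (sp v hv).1.upd y
    have hT := hb.term.mono (Finset.erase_subset (s p) C)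
    have e0 : ∀ v (m : ℤ), p + 1 + 1 ≤ m → s m = update (md s p (g v)) 0 y m := fun v m hm => by
      rw [update_of_ne (by omega), md_out (by omega)]
    have e1 : ∀ v, update (md s p (g v)) 0 y (p + 1) = v := fun v => by
      rw [update_of_ne (by omega), md_in (by omega) le_rfl, g1]
    have e2 : ∀ v (m : ℤ), 1 ≤ m → m ≤ p → update (md s p (g v)) 0 y m = s p := fun v m a b => by
      rw [update_of_ne (by omega), md_in a (by omega), g2 v m b]
    obtain ⟨γ, t, h3, h4, h5⟩ := ih _ _ hT (p + 1) (s (p + 1))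
      ⟨L - (p + 1), by omega, fun h => hb.out (by
        rw [show (L : ℤ) + 1 = p + 1 + (L - (p + 1) : ℕ) + 1 by omega]
        exact Finset.mem_of_mem_erase h)⟩
      (by rw [e1]; exact (her (hf hv)).mem') (by rw [e1]; exact occ_congr (e0 v) (her (hf hv)))
      (occ_congr (e0 v) (her hc))
    obtain ⟨δ, hδ⟩ := clus_tree (Finset.erase_subset (s p) C) hb.term h3
    have h6 := h3.adm hT
    refine ⟨δ, t, hδ, fun k a b => ?_⟩
    rcases lt_trichotomy k (p + 1) with h | rfl | h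
    · by_cases h7 : k = 0
      · subst h7
        rw [h6.fix fun h8 => ?_, update_self, update_self]
        have h9 := h8.mem
        rw [e2 v _ (by omega) (by omega)] at h9
        exact Finset.notMem_erase _ _ h9
      · rw [(h6 k).1 (by rw [e2 v k (by omega) (by omega)]; exact Finset.notMem_erase _ _),
          e2 v k (by omega) (by omega), e2 _ k (by omega) (by omega)]
    · rw [h4, e1]
    · rw [h5 k h fun m a' b' => ?_, ← e0 v k (by omega), ← e0 _ k (by omega)]
      by_cases h7 : m = p + 1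
      · rw [h7, e1]; exact (her (hf hv)).mem'
      · rw [← e0 v m (by omega)]
        exact (her ⟨m, by omega, rfl, fun m' _ _ => hs.mem m' (by omega) (by omega)⟩).mem'
  obtain ⟨hb0, ho0⟩ := sp _ hv0
  refine Tot.transfer ih hL hs hb0 ho0 (Tot.of_one hb0 (s p) fun y hy => ?_)
  rcases (occ_iff.1 (hD y ((ho0 1 le_rfl y).2 hy))).2 with rfl | hy'
  · exact Mt.refl _
  · obtain ⟨hb, ho⟩ := sp y hy'
    have h3 : Mt A C L (update (md s p (g y)) 0 (s p)) (update (md s p (g y)) 0 y) := by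
      refine two h2 hb hp hpL (by rw [md_in (by omega) (by omega), g2 y p le_rfl])
        (by rw [md_in (by omega) le_rfl, g1]) (fun k a b => ?_)
        fun h => hn ((ho _ (by omega) _).2 h)
      rw [md_in a b]
      by_cases h : k = p + 1
      · rw [h, g1]; exact .inr rfl
      · rw [g2 y k (by omega)]; exact .inl rfl
    exact (((mv y _ hy').symm (hb.upd _) (hb0.upd _)).trans h3 (hb0.upd _) (hb.upd _)).trans
      (mv y y hy') (hb0.upd _) (hb.upd _)

theorem case2 (h2 : (2 : A) ≠ 0) {n : ℕ} (ih : TP d A n) (hL : L ≤ n) (hs : Blk C L s) {p : ℕ}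
    (hp : 1 ≤ p) (hpL : p + 1 ≤ L) (hD : ∀ j, Occ C s 1 j → Occ C s p j)
    (hn : ¬ Occ C s (p + 1) (s p)) (hc : ¬ Occ C s (p + 1 + 1) (s (p + 1))) : Tot A C L s := by
  classical
  let g : ℤ → Fin d := fun k => if (k - p) % 2 = 0 then s p else s (p + 1)
  have g1 : g (p + 1) = s (p + 1) := if_neg (by omega)
  have g2 : g p = s p := if_pos (by omega)
  have g3 : ∀ k, g k = s p ∨ g k = s (p + 1) := fun k => by
    simp only [g]; split_ifs <;> simp
  have hv0 : Occ C s (p + 1) (s (p + 1)) := occ_self (hs.mem _ (by omega) (by omega))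
  have hne : s p ≠ s (p + 1) := fun e => hn (e ▸ hv0)
  have g4 : ∀ k, g (k + 1) ≠ g k := fun k => by
    simp only [g]
    split_ifs
    · omega
    · exact hne
    · exact hne.symm
    · omega
  have hbk : ∀ {j}, Occ C s (p + 1) j → Occ C s 1 j :=
    occ_back (by omega) fun m e1 e2 => hs.mem m e1 (by omega)
  have hw : Occ C s 1 (s p) := occ_back (k' := p) (by omega)
    (fun m e1 e2 => hs.mem m e1 (by omega)) (occ_self (hs.mem p (by omega) (by omega)))
  have hg : ∀ k, Occ C s 1 (g k) := fun k =>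
    (g3 k).elim (fun e => e ▸ hw) fun e => e ▸ hbk hv0
  obtain ⟨hb, ho⟩ := md_spec hs hp hpL hD (g := g) (fun k _ _ => hg k) g2 fun j => by
    rw [g1, occ_iff, and_iff_right hv0.mem]
  have hn' : ∀ k, ¬ Occ C s (p + 1 + 1) (g k) := fun k h =>
    (g3 k).elim (fun e => hn (occ_iff.2 ⟨hv0.mem, .inr (e ▸ h)⟩)) fun e => hc (e ▸ h)
  have h3 : Mt A C L (update (md s p g) 0 (s p)) (update (md s p g) 0 (s (p + 1))) :=
    two h2 hb hp hpL (by rw [md_in (by omega) (by omega), g2])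
      (by rw [md_in (by omega) le_rfl, g1]) (fun k a b => by rw [md_in a b]; exact g3 k)
      fun h => hn ((ho _ (by omega) _).2 h)
  refine Tot.transfer ih hL hs hb ho (Tot.of_one hb (g 1) fun y hy => ?_)
  rcases (occ_iff.1 (hD y ((ho 1 le_rfl y).2 hy))).2 with rfl | hy'
  · rcases g3 1 with e | e <;> rw [e]
    exacts [Mt.refl _, h3.symm (hb.upd _) (hb.upd _)]
  rcases (occ_iff.1 hy').2 with rfl | hy''
  · rcases g3 1 with e | e <;> rw [e]
    exacts [h3, Mt.refl _]
  have hex : ∃ q : ℕ, 1 ≤ q ∧ md s p g q = y := by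
    obtain ⟨i, e1, e2, -⟩ := hy
    obtain ⟨i, rfl⟩ := Int.eq_ofNat_of_zero_le (a := i) (by omega)
    exact ⟨i, by omega, e2⟩
  obtain ⟨q1, q2⟩ := Nat.find_spec hex
  have q3 : ∀ i : ℕ, 1 ≤ i → i < Nat.find hex → md s p g i ≠ y := fun i a b e =>
    Nat.find_min hex b ⟨a, e⟩
  have q4 : Nat.find hex ≤ L := by
    obtain ⟨i, e1, e2, e3⟩ := hy
    obtain ⟨i, rfl⟩ := Int.eq_ofNat_of_zero_le (a := i) (by omega)
    have := Nat.find_min' hex (m := i) ⟨by omega, e2⟩
    by_contra h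
    exact hb.out (e3 _ (by omega) (by omega))
  generalize Nat.find hex = q at q1 q2 q3 q4
  have q5 : p + 1 < q := by
    by_contra h
    rw [md_in (by omega) (by omega)] at q2
    exact hn' _ (q2 ▸ hy'')
  have q6 : ∀ m : ℤ, p + 1 < m → m ≤ L → ¬ Occ C (md s p g) m (g 1) := fun m a b h =>
    hn' 1 (occ_back (by omega) (fun m' a' b' => hs.mem m' (by omega) (by omega))
      ((ho m (by omega) _).2 h))
  obtain ⟨γ, hγ⟩ := fine (A := A) (u := g 1) (v := y) (fun e => hn' 1 (e ▸ hy'')) hb.term q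
    (by omega) (md_in le_rfl (by omega)) (fun i a b => hb.mem i (by omega) (by omega)) q2 q3
    (q6 q (by omega) (by omega)) (fun i a b e e' => by
      by_cases h : (i : ℤ) + 1 ≤ p + 1
      · rw [md_in (by omega) (by omega)] at e e'
        exact g4 i (e'.trans e.symm)
      · exact q6 (i + 1) (by omega) (by omega)
          (e' ▸ occ_self (hb.mem _ (by omega) (by omega))))
  obtain ⟨t, ht⟩ := exists_actC γ (hb.upd (g 1)).term
  refine ⟨γ, t, ht, fun k a b => ?_⟩
  obtain ⟨k, rfl⟩ := Int.eq_ofNat_of_zero_le a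
  refine ht.of_eq (hb.upd _).term hγ k fun m hm => ?_
  by_cases h4 : (m : ℤ) = 0
  · rw [h4, update_self, update_self]
    exact ⟨(hg 1).mem', hy.mem'⟩
  · rw [update_of_ne h4, update_of_ne h4, and_self]
    exact hb.mem m (by omega) (by omega)

theorem tot (h2 : (2 : A) ≠ 0) {n : ℕ} (ih : TP d A n) (hL : L ≤ n) (hs : Blk C L s) :
    Tot A C L s := by
  classical
  intro y x hy hx
  by_cases hyx : y = x
  · rw [hyx]; exact Mt.refl _
  have hex : ∃ p : ℕ, ∃ j, Occ C s 1 j ∧ ¬ Occ C s (p + 1) j :=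
    ⟨L, y, hy, fun h => hs.out h.mem⟩
  obtain ⟨w, h3, h4⟩ := Nat.find_spec hex
  have h5 : Nat.find hex ≤ L := Nat.find_min' hex ⟨y, hy, fun h => hs.out h.mem⟩
  have h6 : ∀ m : ℕ, m < Nat.find hex → ∀ j, Occ C s 1 j → Occ C s (m + 1) j := fun m hm j hj =>
    by_contra fun h => Nat.find_min hex hm ⟨j, hj, h⟩
  generalize Nat.find hex = p at h4 h5 h6
  have hp : 1 ≤ p := by
    by_contra h
    obtain rfl : p = 0 := by omega
    exact h4 (by simpa using h3)
  have hD : ∀ j, Occ C s 1 j → Occ C s p j := fun j hj => by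
    have := h6 (p - 1) (by omega) j hj
    rwa [show ((p - 1 : ℕ) : ℤ) + 1 = p by omega] at this
  obtain rfl : s p = w := (occ_iff.1 (hD w h3)).2.resolve_right h4
  have hpL : p + 1 ≤ L := by
    have h7 : s (p + 1) ∈ C := by
      rcases (occ_iff.1 (hD y hy)).2 with e | e
      · rcases (occ_iff.1 (hD x hx)).2 with e' | e'
        · exact absurd (e.symm.trans e') hyx
        · exact e'.mem
      · exact e.mem
    by_contra h
    obtain rfl : p = L := by omega
    exact hs.out h7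
  by_cases hc : Occ C s (p + 1 + 1) (s (p + 1))
  · exact case1 h2 ih hL hs hp hpL hD h4 hc y x hy hx
  · exact case2 h2 ih hL hs hp hpL hD h4 hc y x hy hx

theorem tp (h2 : (2 : A) ≠ 0) (n : ℕ) : TP d A n := by
  classical
  induction n with
  | zero => rintro C s _ i x ⟨m, hm, -⟩; omega
  | succ n ih =>
    intro C s hs i x hm h0 h1 hx
    have hex : ∃ m : ℕ, s (i + m + 1) ∉ C := let ⟨m, _, h⟩ := hm; ⟨m, h⟩
    have hL : Nat.find hex ≤ n := by
      obtain ⟨m, h3, h4⟩ := hm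
      have := Nat.find_min' hex h4
      omega
    have hb : Blk C (Nat.find hex) (shf s i) := by
      refine ⟨hs.shf i, fun k a b => ?_, ?_⟩
      · have := Nat.find_min hex (m := (k - 1).toNat) (by omega)
        rwa [not_not, show i + ((k - 1).toNat : ℤ) + 1 = k + i by omega] at this
      · have := Nat.find_spec hex
        rwa [show i + (Nat.find hex : ℤ) + 1 = Nat.find hex + 1 + i by omega] at this
    generalize Nat.find hex = L at hL hb
    obtain ⟨γ, t, h3, h4⟩ := tot h2 ih hL hb (shf s i 0) x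
      (occ_shf.2 (by rwa [shf_apply_zero, add_comm])) (occ_shf.2 (by rwa [add_comm]))
    rw [update_eq_self] at h3
    have h5 := h3.shf (-i)
    rw [shf_shf, neg_add_cancel, shf_zero] at h5
    refine ⟨γ, _, h5, ?_, fun k a b => ?_⟩
    · show t (i + -i) = x
      rw [add_neg_cancel, h4 0 le_rfl (by omega), update_self]
    · show t (k + -i) = s k
      have h6 : k + -i ≤ L := by
        by_contra h
        exact hb.out (b (L + 1 + i) (by omega) (by omega))
      rw [h4 _ (by omega) h6, update_of_ne (by omega), shf, neg_add_cancel_right]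

end VInd

theorem tpC (h2 : (2 : A) ≠ 0) (C : Finset (Fin d)) (s : Seq d) (hs : Term C s) (i : ℤ)
    (x : Fin d) (h0 : s i ∈ C) (h1 : Occ C s (i + 1) (s i)) (hx : Occ C s (i + 1) x) :
    ∃ (γ : Gam A d) (t : Seq d), Act C γ s t ∧ t i = x ∧ Kp C s t i := by
  obtain ⟨m, hm⟩ := hs (i + 1)
  exact VInd.tp h2 (m + 1) C s hs i x ⟨m, by omega, by rwa [add_right_comm]⟩ h0 h1 hx

theorem mvG (h2 : (2 : A) ≠ 0) (I : Finset ℕ) : MvG (d := d) I (GG A d I) := by
  intro C w i x hC h0 h1 hx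
  have hT : ∀ w : W d I, Term C w.1 := fun w => let ⟨_, _, h⟩ := w.2; h.term hC
  obtain ⟨γ, t, ha, e, hk⟩ := tpC (A := A) h2 C w.1 (hT w) i x h0 h1 hx
  obtain ⟨g, hg⟩ := clus_per (A := A) I hC γ
  have : t = (g • w).1 := funext fun i => ha.eq (hg w) rfl
  exact ⟨g, fun w' => (hg w').adm (hT w'), this ▸ e, this ▸ hk⟩

end Pool.Agent.MP_9b2bac_nt.Z
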