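import Mathlib
import Pool.Agent.MP_9b2bac_nt.YOne2
import Pool.Agent.MP_9b2bac_nt.VGrp
import Pool.Agent.MP_9b2bac_nt.VInd
import Pool.Agent.MP_9b2bac_nt.TLev
import Pool.Agent.MP_9b2bac_nt.YFinal

/- The Poisson law for exponents of every degree. -/

set_option autoImplicit false

namespace Pool.Agent.MP_9b2bac_nt.Z

open Finset Polynomial Pnt Classical

theorem lawD {d : ℕ} (hd : 3 ≤ d) (S : Finset ℕ) (hS : ∀ n ∈ S, 1 ≤ n ∧ (n ≤ d ∨ 8 ≤ n))
    (κ : ℕ → ℕ) (hκ : ∀ n ∈ S, κ n ≤ n) (δ : ℝ) (hδ : 0 < δ) : ∃ q₀ : ℕ,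
    ∀ (F : Type) [Field F] [Fintype F], Odd (Fintype.card F) → q₀ ≤ Fintype.card F →
      |(#{P ∈ irr F d | ∀ n ∈ S, nf n P = κ n} : ℝ) -
        (∏ n ∈ S, plaw d n (κ n)) * #(irr F d)| ≤
      (δ + 1 / 10 ^ 10 * ∏ n ∈ S, plaw d n (κ n)) * #(irr F d) := by
  set p := ∏ n ∈ S, plaw d n (κ n) with hp
  have p2 : ∀ n ∈ S, 0 ≤ plaw d n (κ n) ∧ plaw d n (κ n) ≤ 1 := fun n hn => by
    have a : (1 : ℝ) ≤ n := by exact_mod_cast (hS n hn).1
    have b : (1 : ℝ) ≤ (κ n).factorial := by exact_mod_cast (κ n).factorial_pos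
    have c : (1 : ℝ) ≤ d := by exact_mod_cast (by omega : 1 ≤ d)
    have c1 : 1 / (d : ℝ) ≤ 1 := div_le_one_of_le₀ c (by positivity)
    have c2 : 0 ≤ 1 / (d : ℝ) := by positivity
    unfold plaw
    split_ifs
    exacts [⟨zero_le_one, le_rfl⟩, ⟨le_rfl, zero_le_one⟩, ⟨by linarith, by linarith⟩, ⟨c2, c1⟩,
      ⟨le_rfl, zero_le_one⟩, ⟨by positivity, div_le_one_of_le₀ ((Real.exp_le_one_iff.2
        (div_nonpos_of_nonpos_of_nonneg (by norm_num) (by positivity))).trans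
        (one_le_mul_of_one_le_of_one_le (one_le_pow₀ a) b)) (by positivity)⟩]
  have p0 : 0 ≤ p := prod_nonneg fun n hn => (p2 n hn).1
  have p1 : p ≤ 1 := prod_le_one (fun n hn => (p2 n hn).1) fun n hn => (p2 n hn).2
  refine all_odd _ fun A _ _ h2 => ?_
  obtain ⟨ν, hν, D, q₀, h⟩ := two_sidedP (A := A) (d := d) (subset_refl S)
    (fun n hn => (hS n hn).1) κ (lo := p - 1 / 10 ^ 10 * p)
    (hi := min 1 (p + 1 / 10 ^ 10 * p)) (half_pos hδ) fun π => by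
      have := abs_le.1 (grpE hd S hS κ hκ S (subset_refl S) (GG A d S) act_sh
        (fun u v j huv hj => marker hd h2 huv hj) (mvG h2 S) (lev_rel S)
        (fun u v huv => lev_swap S huv) π)
      rw [← hp] at this
      refine ⟨by unfold EvG; linarith [this.1], ?_⟩
      rw [min_mul_of_nonneg _ _ (Nat.cast_nonneg _), one_mul]
      exact le_min (by exact_mod_cast Set.ncard_le_card _) (by unfold EvG; linarith [this.2])
  obtain ⟨μ, hμ, hνμ⟩ := exists_sym hν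
  obtain ⟨m, hm⟩ := MvPolynomial.ne_zero_iff.1 hμ
  refine ⟨_, hm, max q₀ (max (2 * d) ⌈2 * (D + 2 * (d : ℕ) * μ.totalDegree + 1 + δ) / δ⌉₊),
    fun F _ _ hq ρ hρ => ?_⟩
  simp only [max_le_iff, Nat.ceil_le] at hq
  have hμ' : μ.map ρ ≠ 0 := MvPolynomial.ne_zero_iff.2 ⟨m, by rwa [MvPolynomial.coeff_map]⟩
  have h4 : (μ.map ρ).totalDegree ≤ μ.totalDegree :=
    Finset.sup_mono (MvPolynomial.support_map_subset _ _)
  have h1 := fun P (hP : P ∈ irr F d) (h0 : MvPolynomial.eval (esy d P) (μ.map ρ) ≠ 0) =>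
    let ⟨l, hl⟩ := exists_lin ((mem_irr.1 hP).1.map (algebraMap F (AlgebraicClosure F)))
      ((natDegree_map _).trans (mem_irr.1 hP).2.2)
    h F hq.1 ρ P (mem_irr.1 hP).2.1 l hl fun h3 => h0 (by
      have := map_dvd (MvPolynomial.eval₂Hom ((algebraMap F _).comp ρ) l) hνμ
      rwa [h3, zero_dvd_iff, esy_eval ρ hl, map_eq_zero] at this)
  have h6 := count_irr (by omega) hμ' (fun P => ∀ n ∈ S, nf n P = κ n)
    (le_min zero_le_one (by positivity)) (min_le_left _ _) hδ h4 hq.2.1 hq.2.2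
    fun P hP h0 => (h1 P hP h0).1
  have h2 := count_irr (by omega) hμ' (fun P => ¬ ∀ n ∈ S, nf n P = κ n)
    (β := 1 - (p - 1 / 10 ^ 10 * p)) (by linarith) (by linarith) hδ h4 hq.2.1 hq.2.2
    fun P hP h0 => (h1 P hP h0).2
  have h3 := congrArg (Nat.cast : ℕ → ℝ) (card_filter_add_card_filter_not (s := irr F d)
    fun P => ∀ n ∈ S, nf n P = κ n)
  rw [Nat.cast_add] at h3
  have h5 : (#{P ∈ irr F d | ¬ ∀ n ∈ S, nf n P = κ n} : ℝ) ≤
      (1 - (p - 1 / 10 ^ 10 * p) + δ) * #(irr F d) := by convert h2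
  have h7 : (#{P ∈ irr F d | ∀ n ∈ S, nf n P = κ n} : ℝ) ≤
      (min 1 (p + 1 / 10 ^ 10 * p) + δ) * #(irr F d) := by convert h6
  have h8 := mul_le_mul_of_nonneg_right (min_le_right 1 (p + 1 / 10 ^ 10 * p))
    (Nat.cast_nonneg (α := ℝ) #(irr F d))
  exact abs_le.2 ⟨by linarith, by linarith⟩

end Pool.Agent.MP_9b2bac_nt.Z
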