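import Mathlib
import Pool.Agent.MP_9b2bac_nt.ZStep
import Pool.Agent.MP_9b2bac_nt.ZCheb3

set_option autoImplicit false

namespace Pool.Agent.MP_9b2bac_nt.Z

open Polynomial

theorem cheb (A B : Type) [CommRing A] [IsDomain A] [CharZero A] [CommRing B] [IsDomain B]
    [Algebra A B] (Δ : A) (hΔ : Δ ≠ 0) [IsLocalization.Away Δ B]
    (R : Subalgebra A[X] (PowerSeries B)) (hfg : R.FG) [Finite (R ≃ₐ[A[X]] R)]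
    (hfix : ∀ r : R, (∀ g : R ≃ₐ[A[X]] R, g r = r) →
      ∃ a b : A[X], a ≠ 0 ∧ a • r = algebraMap A[X] R b)
    (ι : Type) [Finite ι] (θ : ι → R ≃+* R) (τ : ι → A ≃+* A)
    (hθX : ∀ i, θ i (algebraMap A[X] R X) = algebraMap A[X] R X)
    (hθC : ∀ i a, θ i (algebraMap A[X] R (C a)) = algebraMap A[X] R (C (τ i a))) :
    ∃ ν : A, ν ≠ 0 ∧ ∃ D₁ p₀ : ℕ, ∀ (p f : ℕ) [Fact p.Prime] (k : Type) [Field k]
      [IsAlgClosed k] [CharP k p], p₀ ≤ p → 0 < f → ∀ ψ : A →+* k, ψ ν ≠ 0 →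
      ∀ i : ι, (∀ a, ψ a ^ p ^ f = ψ (τ i a)) →
      ∀ (Bad : Set (R ≃ₐ[A[X]] R)) (S : Set k), (∀ x ∈ S, x ^ p ^ f = x) →
      (∀ x ∈ S, ∀ φ : R →+* k, φ (algebraMap A[X] R X) = x →
        (∀ a, φ (algebraMap A[X] R (C a)) = ψ a) →
        ∀ g : R ≃ₐ[A[X]] R, (∀ r, φ r ^ p ^ f = φ (g (θ i r))) → g ∈ Bad) →
      Nat.card (R ≃ₐ[A[X]] R) * S.ncard ≤
        10 * p ^ f * Bad.ncard + Nat.card (R ≃ₐ[A[X]] R) * D₁ := by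
  obtain ⟨ν, hν, D₁, p₀, h⟩ := ZCheb.cheb_gen (fun p₀ p f => p₀ ≤ p ∧ 0 < f)
    (fun _ _ _ hp h => Nat.one_lt_pow h.2.ne' hp.one_lt) (fun m D₀ => by
      obtain ⟨p₀, h⟩ := stepanov m D₀
      exact ⟨p₀, fun p f _ k _ _ _ hq => h p f k hq.1 hq.2⟩)
    A B Δ hΔ R hfg hfix ι θ τ hθX hθC
  exact ⟨ν, hν, D₁, p₀, fun p f _ k _ _ _ h1 h2 => h p f k ⟨h1, h2⟩⟩

end Pool.Agent.MP_9b2bac_nt.Z
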