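import Mathlib
import Pool.Agent.MP_9b2bac_nt.ZGal

/- Elements fixed by all automorphisms are fractions. -/

set_option autoImplicit false

namespace Pool.Agent.MP_9b2bac_nt.Z

open Polynomial

theorem fix_field {F L Ω : Type} [Field F] [CharZero F] [Field L] [Algebra F L] [Field Ω]
    [IsAlgClosed Ω] [Algebra F Ω] [Algebra L Ω] [IsScalarTower F L Ω] [Finite (L →ₐ[F] Ω)]
    (r : L) (hr : ∀ f : L →ₐ[F] Ω, f r = algebraMap L Ω r) : ∃ c : F, algebraMap F L c = r := by
  haveI : Algebra.IsAlgebraic F L := by
    by_contra hc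
    haveI : Algebra.Transcendental F L := Algebra.transcendental_iff_not_isAlgebraic.2 hc
    let κ : AlgebraicClosure L →ₐ[L] Ω := IsAlgClosed.lift
    haveI : Finite (Field.Emb F L) :=
      Finite.of_injective (fun f : L →ₐ[F] AlgebraicClosure L => (κ.restrictScalars F).comp f)
        fun f g h => AlgHom.ext fun x => κ.injective (DFunLike.congr_fun h x)
    exact not_finite (Field.Emb F L)
  have hi : IsIntegral F r := Algebra.IsIntegral.isIntegral r
  have hs : (minpoly F r).Separable := (minpoly.irreducible hi).separable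
  have h1 := card_rootSet_eq_natDegree (K := Ω) hs (IsAlgClosed.splits _)
  have h2 : Fintype.card ((minpoly F r).rootSet Ω) ≤ 1 := Fintype.card_le_one_iff.2 (by
    have : ∀ y : (minpoly F r).rootSet Ω, (y : Ω) = algebraMap L Ω r := fun y => by
      obtain ⟨φ, hφ⟩ := IntermediateField.exists_algHom_of_splits_of_aeval (x := r) (y := (y : Ω))
        (fun s => ⟨Algebra.IsIntegral.isIntegral s, IsAlgClosed.splits _⟩)
        (aeval_eq_zero_of_mem_rootSet y.2)
      rw [← hφ, hr]
    exact fun a b => Subtype.ext ((this a).trans (this b).symm))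
  have h3 : (minpoly F r).natDegree = 1 :=
    le_antisymm (h1 ▸ h2) (minpoly.natDegree_pos hi)
  exact minpoly.natDegree_eq_one_iff.1 h3

theorem fix_abs {A R Ω : Type} [CommRing A] [IsDomain A] [CharZero A] [CommRing R] [IsDomain R]
    [Algebra A R] (hinj : Function.Injective (algebraMap A R)) [Field Ω] [IsAlgClosed Ω]
    [Algebra A Ω] (e : R →ₐ[A] Ω) (he : Function.Injective e) [Finite (R ≃ₐ[A] R)]
    (h : ∀ f : R →ₐ[A] Ω, Function.Injective f → ∃ g : R ≃ₐ[A] R, ∀ r, f r = e (g r))
    (r : R) (hr : ∀ g : R ≃ₐ[A] R, g r = r) :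
    ∃ a b : A, a ≠ 0 ∧ a • r = algebraMap A R b := by
  letI : Algebra R Ω := e.toRingHom.toAlgebra
  haveI : IsScalarTower A R Ω := IsScalarTower.of_algebraMap_eq fun a => (e.commutes a).symm
  haveI : FaithfulSMul A R := (faithfulSMul_iff_algebraMap_injective _ _).2 hinj
  haveI : FaithfulSMul R Ω := (faithfulSMul_iff_algebraMap_injective _ _).2 he
  haveI : FaithfulSMul A Ω := FaithfulSMul.trans A R Ω
  haveI : FaithfulSMul A (FractionRing R) := FaithfulSMul.trans A R _
  letI := FractionRing.liftAlgebra A (FractionRing R)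
  letI := FractionRing.liftAlgebra A Ω
  letI := FractionRing.liftAlgebra R Ω
  haveI : IsScalarTower A (FractionRing R) Ω := IsScalarTower.of_algebraMap_eq fun a => by
    rw [IsScalarTower.algebraMap_apply A R (FractionRing R),
      ← IsScalarTower.algebraMap_apply R (FractionRing R) Ω, ← IsScalarTower.algebraMap_apply]
  haveI : IsScalarTower (FractionRing A) (FractionRing R) Ω :=
    IsScalarTower.of_algebraMap_eq' (IsFractionRing.ringHom_ext (A := A) fun a => by
      rw [RingHom.comp_apply, ← IsScalarTower.algebraMap_apply,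
        ← IsScalarTower.algebraMap_apply, ← IsScalarTower.algebraMap_apply])
  haveI : CharZero (FractionRing A) := IsFractionRing.charZero_of_isFractionRing A
  have hres : ∀ f : FractionRing R →ₐ[FractionRing A] Ω, ∃ g : R ≃ₐ[A] R,
      ∀ r, f (algebraMap R _ r) = e (g r) := fun f =>
    h ((f.restrictScalars A).comp (IsScalarTower.toAlgHom A R _))
      (f.injective.comp (IsFractionRing.injective R (FractionRing R)))
  choose G hG using hres
  haveI : Finite (FractionRing R →ₐ[FractionRing A] Ω) := Finite.of_injective G fun f f' hf =>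
    AlgHom.coe_ringHom_injective (IsFractionRing.ringHom_ext (A := R) fun r => by
      change f _ = f' _
      rw [hG, hG, hf])
  obtain ⟨c, hc⟩ := fix_field (F := FractionRing A) (Ω := Ω) (algebraMap R (FractionRing R) r)
    fun f => by rw [hG, hr, ← IsScalarTower.algebraMap_apply]; rfl
  obtain ⟨b, a, ha, rfl⟩ := IsFractionRing.div_surjective (A := A) c
  have ha0 : a ≠ 0 := nonZeroDivisors.ne_zero ha
  refine ⟨a, b, ha0, IsFractionRing.injective R (FractionRing R) ?_⟩
  have h0 : algebraMap A (FractionRing R) a ≠ 0 :=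
    (map_ne_zero_iff _ (FaithfulSMul.algebraMap_injective A _)).2 ha0
  rw [map_div₀, ← IsScalarTower.algebraMap_apply, ← IsScalarTower.algebraMap_apply] at hc
  rw [Algebra.smul_def, map_mul, ← hc, ← IsScalarTower.algebraMap_apply,
    ← IsScalarTower.algebraMap_apply, mul_div_cancel₀ _ h0]

theorem hfix {d : ℕ} {I : Finset ℕ} {A : Type} [CommRing A] [IsDomain A] [CharZero A]
    (r : RR A d I) (hr : ∀ g : GG A d I, g r = r) :
    ∃ a b : (AA A d)[X], a ≠ 0 ∧ a • r = algebraMap _ (RR A d I) b :=
  fix_abs (Ω := Om A d) (fun _ _ h => alg_inj (congrArg Subtype.val h))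
    ((IsScalarTower.toAlgHom _ (PowerSeries (BB A d)) (Om A d)).comp (RR A d I).val)
    (io_inj.comp Subtype.val_injective) exists_aut r hr

end Pool.Agent.MP_9b2bac_nt.Z
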